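import Pool.Agent.NPA.AOrd

/-!
# NPA/AOtp: order types of sets of ordinals

`otp Y α = {otp Y β : β ∈ Y, β ∈ α}` (from `erec_eq`).
-/

universe u

namespace Pool.Agent.ZFIter.NPA

open Pool.Agent.H78.ZF Pool.Agent.ZFIter

variable {M : Type u} [ZFM M] {ι : Type}

theorem otp_eq (Y α : M) : otp Y α = img (sep Y (fun β => β ∈ α)) (fun β => otp Y β) := by
  have h1 : otp Y α = img (sep Y (fun β => β ∈ α))
      (fun β => ap (mkseq α (fun y => otp Y y)) β) := by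
    unfold otp
    exact erec_eq (G := fun α g => img (sep Y (fun β => β ∈ α)) (fun β => ap g β)) α
  rw [h1]
  apply Pool.Agent.H78.ZF.ext
  intro z
  rw [mem_img, mem_img]
  constructor
  · rintro ⟨β, hβ, rfl⟩
    refine ⟨β, hβ, ?_⟩
    rw [mem_sep] at hβ
    exact ap_mkseq hβ.2
  · rintro ⟨β, hβ, rfl⟩
    refine ⟨β, hβ, ?_⟩
    rw [mem_sep] at hβ
    exact (ap_mkseq hβ.2).symm

theorem mem_otp {Y α z : M} : z ∈ otp Y α ↔ ∃ β, β ∈ Y ∧ β ∈ α ∧ z = otp Y β := by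
  rw [otp_eq, mem_img]
  constructor
  · rintro ⟨β, hβ, rfl⟩
    rw [mem_sep] at hβ
    exact ⟨β, hβ.1, hβ.2, rfl⟩
  · rintro ⟨β, h1, h2, rfl⟩
    exact ⟨β, by rw [mem_sep]; exact ⟨h1, h2⟩, rfl⟩

section
variable {Y : M} (hY : ∀ y, y ∈ Y → Ord y)
include hY

theorem otp_ord {α : M} (hα : Ord α) : Ord (otp Y α) := by
  apply ord_induction (fun α => Ord (otp Y α)) _ α hα
  intro α hα ih
  constructor
  · intro y hy z hz
    obtain ⟨β, hβ, hβα, rfl⟩ := mem_otp.1 hy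
    obtain ⟨γ, hγ, hγβ, rfl⟩ := mem_otp.1 hz
    exact mem_otp.2 ⟨γ, hγ, hα.trans hγβ hβα, rfl⟩
  · intro y hy
    obtain ⟨β, hβ, hβα, rfl⟩ := mem_otp.1 hy
    exact (ih β hβα).1

theorem otp_lt {α β : M} (hα : Ord α) (hβ : β ∈ Y) (h : β ∈ α) : otp Y β ∈ otp Y α := by
  exact mem_otp.2 ⟨β, hβ, h, rfl⟩

theorem otp_lt_iff {α β : M} (hα : α ∈ Y) (hβ : β ∈ Y) : otp Y β ∈ otp Y α ↔ β ∈ α := by
  constructor
  · intro h
    rcases ord_trichotomy (hY _ hβ) (hY _ hα) with h1 | h1 | h1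
    · exact h1
    · rw [h1] at h
      exact absurd h (not_mem_self _)
    · exact absurd (otp_lt hY (hY _ hβ) hα h1) ((otp_ord hY (hY _ hα)).asymm h)
  · exact otp_lt hY (hY _ hα) hβ

theorem otp_inj {α β : M} (hα : α ∈ Y) (hβ : β ∈ Y) (h : otp Y β = otp Y α) : β = α := by
  rcases ord_trichotomy (hY _ hβ) (hY _ hα) with h1 | h1 | h1
  · have := otp_lt hY (hY _ hα) hβ h1
    rw [h] at this
    exact absurd this (not_mem_self _)
  · exact h1
  · have := otp_lt hY (hY _ hβ) hα h1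
    rw [h] at this
    exact absurd this (not_mem_self _)

theorem otp_surj {α γ : M} (hα : Ord α) (h : γ ∈ otp Y α) : ∃ β, β ∈ Y ∧ β ∈ α ∧ γ = otp Y β := by
  exact mem_otp.1 h

theorem otp_id {α : M} (hα : Ord α) (h : α ⊆ Y) : otp Y α = α := by
  apply ord_induction (fun α => α ⊆ Y → otp Y α = α) _ α hα h
  intro α hα ih h
  have key : ∀ β, β ∈ α → otp Y β = β := fun β hβ => ih β hβ (sub_trans (hα.1 β hβ) h)
  apply sub_antisymm
  · intro z hz
    obtain ⟨β, hβ, hβα, rfl⟩ := mem_otp.1 hz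
    rw [key β hβα]
    exact hβα
  · intro z hz
    exact mem_otp.2 ⟨z, h z hz, hz, (key z hz).symm⟩

theorem otp_ctb {α : M} (hα : Ord α) (hc : Ctb Y) : Ctb (otp Y α) := by
  rw [otp_eq]
  refine ctb_img (ctb_sub hc ?_) _
  intro z hz
  rw [mem_sep] at hz
  exact hz.1

end

end Pool.Agent.ZFIter.NPA
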