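import Pool.Agent.NPA.BAbs3

/-!
# NPA/BAC: choice in `L[A]`

Let `A ⊆ θ × omega`. Then `A ∈ L[A]` (`inL_self`), and in the model `Sub (InL A)` every set is
`hF A α` for some ordinal `α` (`abs_hF`). `ac_L`: map `y ∈ x` to its least index (`leastO`,
`exists_ord_gt` bounds the indices; `mkf`).
-/

universe u

namespace Pool.Agent.ZFIter.NPA

open Pool.Agent.H78.ZF Pool.Agent.ZFIter

variable {M : Type u} [ZFM M] {ι : Type}

theorem inL_self' {A θ : M} (hθ : Ord θ) (hA : A ⊆ prod θ omega) : InL A A := by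
  apply inL_self hθ hA
  intro x hx
  have h := hA x hx
  rw [mem_prod] at h
  obtain ⟨d, hd, k, hk, rfl⟩ := h
  exact inL_opair (Inner.ord (K := InL A) d (hθ.mem hd)) (Inner.ord (K := InL A) k (ord_nat hk))

/-- choice in a model all of whose sets are constructible from `A` -/
private theorem ac_of_all (A : M) (h : ∀ y, InL A y) : AC M := by
  intro x
  have hF1 : F1 (fun y : M => leastO (fun α => y = hF A α)) := by infer_instance
  have hsp : ∀ y : M, Ord (leastO (fun α => y = hF A α)) ∧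
      y = hF A (leastO (fun α => y = hF A α)) := by
    intro y
    have := leastO_spec (fun α => y = hF A α) (h y)
    exact ⟨this.1, this.2.1⟩
  obtain ⟨α, hα, hα'⟩ := exists_ord_gt (img x (fun y : M => leastO (fun α => y = hF A α)))
  have hm : ∀ y, y ∈ x → leastO (fun α => y = hF A α) ∈ α := by
    intro y hy
    exact hα' _ (by rw [mem_img]; exact ⟨y, hy, rfl⟩) (hsp y).1
  refine ⟨α, mkf x α (fun y => leastO (fun α => y = hF A α)), hα, ?_⟩
  rw [inj_iff]
  refine ⟨mkf_fun hm, ?_⟩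
  intro y y' hy hy' e
  rw [ap_mkf hm hy, ap_mkf hm hy'] at e
  rw [(hsp y).2, (hsp y').2, e]

theorem ac_L {A θ : M} (hθ : Ord θ) (hA : A ⊆ prod θ omega) : AC (Sub (InL A)) := by
  apply ac_of_all (M := Sub (InL A)) ⟨A, inL_self' hθ hA⟩
  intro y
  rw [abs_InL]
  exact y.2

/-- closure of `L[A]` under definable (in `L[A]`) subsets, in a form convenient for use in `M`:
if `P` is a definable class of the model `L[A]`, then `{x ∈ a : P x}` is in `L[A]`. -/
theorem inL_sep {A : M} (a : Sub (InL A)) (P : Sub (InL A) → Prop) [D1 P] (s : M)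
    (hs : ∀ x, x ∈ s ↔ x ∈ a.1 ∧ ∃ h : InL A x, P ⟨x, h⟩) : InL A s := by
  have : s = (sep a P).1 := by
    apply Pool.Agent.H78.ZF.ext
    intro x
    rw [hs, mem_abs_sep]
  rw [this]
  exact (sep a P).2

/-- The real coded in a block of `A` is in `L[A]`. -/
theorem inL_of_blk {A θ δ y : M} (hθ : Ord θ) (hA : A ⊆ prod θ omega) (hδ : δ ∈ θ)
    (hy : y ∈ (RS : M)) (h : BlkR A δ y) : InL A y := by
  have hA' := inL_self' hθ hA
  have hδ' : InL A δ := Inner.ord (K := InL A) δ (hθ.mem hδ)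
  obtain ⟨A', hA''⟩ : ∃ A' : Sub (InL A), A'.1 = A := ⟨⟨A, hA'⟩, rfl⟩
  obtain ⟨δ', hδ''⟩ : ∃ δ' : Sub (InL A), δ'.1 = δ := ⟨⟨δ, hδ'⟩, rfl⟩
  have hyf := mem_RS.1 hy
  apply inL_sep (prod omega omega : Sub (InL A)) (fun z => ∃ i v, z = opair i v ∧
    opair δ' (pr emp (pr i v)) ∈ A') y
  intro x
  rw [abs_prod, abs_omega]
  constructor
  · intro hx
    obtain ⟨i, hi, v, hv, rfl⟩ := hyf.1 x hx
    refine ⟨by rw [opair_mem_prod]; exact ⟨hi, hv⟩, ?_⟩
    have hi' : InL A i := Inner.ord (K := InL A) i (ord_nat hi)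
    have hv' : InL A v := Inner.ord (K := InL A) v (ord_nat hv)
    refine ⟨inL_opair hi' hv', ⟨i, hi'⟩, ⟨v, hv'⟩, ?_, ?_⟩
    · apply sub_inj
      rw [abs_opair]
    · rw [sub_mem, abs_opair, abs_pr, abs_pr, abs_emp, hδ'', hA'']
      exact (h i hi v hv).2 (hyf.ap_eq hx)
  · rintro ⟨hx, h1, i, v, e, h2⟩
    have e' := congrArg Subtype.val e
    rw [abs_opair] at e'
    simp only at e'
    subst e'
    rw [opair_mem_prod] at hx
    rw [sub_mem, abs_opair, abs_pr, abs_pr, abs_emp, hδ'', hA''] at h2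
    rw [← (h i.1 hx.1 v.1 hx.2).1 h2]
    exact hyf.opair_ap hx.1

/-- The graph code of a real. -/
theorem inL_graph {A y s : M} (hy : y ∈ (RS : M)) (h : InL A y)
    (hs : ∀ z, z ∈ s ↔ ∃ i, i ∈ (omega : M) ∧ z = pr i (ap y i)) : InL A s := by
  obtain ⟨y', hy'⟩ : ∃ y' : Sub (InL A), y'.1 = y := ⟨⟨y, h⟩, rfl⟩
  have : s = (img (omega : Sub (InL A)) (fun i => pr i (ap y' i))).1 := by
    apply Pool.Agent.H78.ZF.ext
    intro z
    rw [hs, mem_abs_img]
    constructor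
    · rintro ⟨i, hi, rfl⟩
      refine ⟨⟨i, Inner.ord (K := InL A) i (ord_nat hi)⟩, ?_, ?_⟩
      · rw [sub_mem, abs_omega]; exact hi
      · rw [abs_pr, abs_ap, hy']
    · rintro ⟨i, hi, rfl⟩
      rw [sub_mem, abs_omega] at hi
      refine ⟨i.1, hi, ?_⟩
      rw [abs_pr, abs_ap, hy']
  rw [this]
  exact (img (omega : Sub (InL A)) (fun i => pr i (ap y' i))).2

end Pool.Agent.ZFIter.NPA
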