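import Pool.Agent.NPA.Defs5

/-!
# NPA/ACh: choice functions, dependent choice

`AC M` says that every set injects into an ordinal. `ac_fun`: let `g` be an injection of `Z` into an
ordinal; `f s` is the element of `s` with least `g`-value (`mkseq (pow Z) ...`, with `leastO` or
`iota`). `dc_of_ac`: iterate a choice function with `recc`. `dc_seq`: apply DC to the set of all
pairs `(n, x)`, or iterate a choice function for the step `(n, x) ↦ (n + 1, y)` with `recc`, and then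
take the second components.
-/

universe u

namespace Pool.Agent.ZFIter.NPA

open Pool.Agent.H78.ZF Pool.Agent.ZFIter

variable {M : Type u} [ZFM M] {ι : Type}

theorem ac_fun (hAC : AC M) (Z : M) : ∃ f : M, ∀ s : M, s ⊆ Z → s ≠ emp → ap f s ∈ s := by
  obtain ⟨a, g, ha, hg⟩ := hAC Z
  refine ⟨mkseq (pow Z) (fun s => iota (fun x => x ∈ s ∧ ∀ y, y ∈ s → y = x ∨ ap g x ∈ ap g y)),
    fun s hs hne => ?_⟩
  rw [ap_mkseq ((mem_pow _ _).2 hs)]
  have hex : ∃! x, x ∈ s ∧ ∀ y, y ∈ s → y = x ∨ ap g x ∈ ap g y := by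
    obtain ⟨z, hz⟩ := ne_emp_iff.1 hne
    obtain ⟨β, hβ, hmin⟩ := foundation (img s (fun x => ap g x))
      (ne_emp_iff.2 ⟨ap g z, (mem_img _ _ _).2 ⟨z, hz, rfl⟩⟩)
    obtain ⟨x, hx, rfl⟩ := (mem_img _ _ _).1 hβ
    refine ⟨x, ⟨hx, fun y hy => ?_⟩, ?_⟩
    · have hgx := hg.fun.ap_mem (hs x hx)
      have hgy := hg.fun.ap_mem (hs y hy)
      rcases ord_trichotomy (ha.mem hgx) (ha.mem hgy) with h | h | h
      · exact Or.inr h
      · exact Or.inl (hg.ap_inj (hs y hy) (hs x hx) h.symm)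
      · exact absurd ((mem_img _ _ _).2 ⟨y, hy, rfl⟩) (hmin _ h)
    · rintro y ⟨hy, hy'⟩
      rcases hy' x hx with h | h
      · exact h.symm
      · exact absurd ((mem_img _ _ _).2 ⟨y, hy, rfl⟩) (hmin _ h)
  exact (iota_spec hex).1

theorem ac_rel (hAC : AC M) (X Y : M) (R : M → M → Prop) [D2 R]
    (h : ∀ x, x ∈ X → ∃ y, y ∈ Y ∧ R x y) : ∃ f, Fun f X Y ∧ ∀ x, x ∈ X → R x (ap f x) := by
  obtain ⟨c, hc⟩ := ac_fun hAC Y
  have key : ∀ x, x ∈ X → ap c (sep Y (fun y => R x y)) ∈ sep Y (fun y => R x y) := by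
    intro x hx
    refine hc _ (fun z hz => ((mem_sep _ _ _).1 hz).1) ?_
    obtain ⟨y, hy, hR⟩ := h x hx
    exact ne_emp_iff.2 ⟨y, (mem_sep _ _ _).2 ⟨hy, hR⟩⟩
  have key1 : ∀ x, x ∈ X → ap c (sep Y (fun y => R x y)) ∈ Y :=
    fun x hx => ((mem_sep _ _ _).1 (key x hx)).1
  refine ⟨mkf X Y (fun x => ap c (sep Y (fun y => R x y))), mkf_fun key1, ?_⟩
  intro x hx
  rw [ap_mkf key1 hx]
  exact ((mem_sep _ _ _).1 (key x hx)).2

/-- Dependent choice with a given start and a step depending on the stage. -/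
theorem dc_seq (hAC : AC M) (X : M) (R : M → M → M → Prop) [D3 R] (x0 : M) (h0 : x0 ∈ X)
    (h : ∀ n, n ∈ (omega : M) → ∀ x, x ∈ X → ∃ y, y ∈ X ∧ R n x y) :
    ∃ f, Fun f omega X ∧ ap f emp = x0 ∧
      ∀ n, n ∈ (omega : M) → R n (ap f n) (ap f (succ n)) := by
  obtain ⟨s, hs, hs'⟩ := ac_rel hAC (prod omega X) (prod omega X)
    (fun p q => ∃ n, ∃ x, ∃ y, p = opair n x ∧ q = opair (succ n) y ∧ R n x y) (by
      intro p hp
      obtain ⟨n, hn, x, hx, rfl⟩ := (mem_prod _ _ _).1 hp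
      obtain ⟨y, hy, hR⟩ := h n hn x hx
      exact ⟨opair (succ n) y, (opair_mem_prod _ _ _ _).2 ⟨succ_mem_omega hn, hy⟩,
        n, x, y, rfl, rfl, hR⟩)
  have ht : ∀ n, n ∈ (omega : M) → ∃ x, x ∈ X ∧ recc (fun p => ap s p) (opair emp x0) n = opair n x := by
    apply omega_induction (fun n => ∃ x, x ∈ X ∧ recc (fun p => ap s p) (opair emp x0) n = opair n x)
    · exact ⟨x0, h0, recc_zero⟩
    · intro n hn ih
      obtain ⟨x, hx, e⟩ := ih
      rw [recc_succ hn, e]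
      have hp : opair n x ∈ prod omega X := (opair_mem_prod _ _ _ _).2 ⟨hn, hx⟩
      obtain ⟨n', x', y', e1, e2, hR⟩ := hs' _ hp
      obtain ⟨rfl, rfl⟩ := opair_inj e1
      have h2 := hs.ap_mem hp
      rw [e2] at h2 ⊢
      exact ⟨y', ((opair_mem_prod _ _ _ _).1 h2).2, rfl⟩
  have hu : ∀ n, n ∈ (omega : M) → ∀ x, recc (fun p => ap s p) (opair emp x0) n = opair n x →
      iota (fun x => recc (fun p => ap s p) (opair emp x0) n = opair n x) = x := by
    intro n hn x e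
    refine iota_eq (P := fun x => recc (fun p => ap s p) (opair emp x0) n = opair n x) e ?_
    intro y hy
    rw [e] at hy
    exact (opair_inj hy).2.symm
  have hm : ∀ n, n ∈ (omega : M) →
      iota (fun x => recc (fun p => ap s p) (opair emp x0) n = opair n x) ∈ X := by
    intro n hn
    obtain ⟨x, hx, e⟩ := ht n hn
    rw [hu n hn x e]
    exact hx
  refine ⟨mkf omega X (fun n => iota (fun x => recc (fun p => ap s p) (opair emp x0) n = opair n x)),
    mkf_fun hm, ?_, ?_⟩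
  · rw [ap_mkf hm emp_mem_omega]
    exact hu _ emp_mem_omega _ recc_zero
  · intro n hn
    rw [ap_mkf hm hn, ap_mkf hm (succ_mem_omega hn)]
    obtain ⟨x, hx, e⟩ := ht n hn
    have hp : opair n x ∈ prod omega X := (opair_mem_prod _ _ _ _).2 ⟨hn, hx⟩
    obtain ⟨n', x', y', e1, e2, hR⟩ := hs' _ hp
    obtain ⟨rfl, rfl⟩ := opair_inj e1
    rw [hu n hn x e, hu (succ n) (succ_mem_omega hn) y' (by rw [recc_succ hn, e, e2])]
    exact hR

theorem dc_of_ac (hAC : AC M) : DC M := by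
  intro X R hX h
  obtain ⟨x0, hx0⟩ := ne_emp_iff.1 hX
  obtain ⟨f, hf, _, hf'⟩ := dc_seq hAC X (fun _ x y => opair x y ∈ R) x0 hx0
    (fun n _ x hx => h x hx)
  exact ⟨f, hf, hf'⟩

end Pool.Agent.ZFIter.NPA
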