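import Pool.Agent.NPA.Defs5

/-!
# NPA/ACtb: countable sets

Tools: `ctb_sub, ctb_image, ctb_img, ctb_union` (countable unions, from DC) in ZFIter/Ctb.
`ctb_prod` via `pr`; `ctb_un` via `pr 0 a, pr 1 b` (or as a union of an image of `succ (succ 0)`).
`ctb_enum`: invert the injection, with a default value. `ctb_bij`: the range `K ⊆ omega` of the
injection is infinite, `Unb K`; the increasing enumeration `enum K` (H78/ZF/Rec) is a bijection
(surjectivity: induction), compose. `diag`: `x n = succ (ap (ap e n) n)`.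
-/

universe u

namespace Pool.Agent.ZFIter.NPA

open Pool.Agent.H78.ZF Pool.Agent.ZFIter

variable {M : Type u} [ZFM M] {ι : Type}

theorem ctb_emp : Ctb (emp : M) := ctb_sub ctb_omega (emp_sub _)

theorem ctb_nat {n : M} (hn : n ∈ (omega : M)) : Ctb n := ctb_sub ctb_omega (omega_sub hn)

theorem ctb_fin {x : M} (h : FinM x) : Ctb x := by
  obtain ⟨n, hn, f, hf⟩ := h
  refine ⟨f, ?_⟩
  rw [inj_iff]
  exact ⟨hf.fun.mono fun y hy => omega_sub hn _ (hf.fun.ap_mem hy), fun y y' hy hy' e =>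
    hf.inj.ap_inj hy hy' e⟩

/-- A set whose elements can be recovered from natural numbers is countable. -/
theorem ctb_rel {b : M} (R : M → M → Prop) [D2 R]
    (h : ∀ z, z ∈ b → ∃ n, n ∈ (omega : M) ∧ R n z)
    (hf : ∀ n z z', z ∈ b → z' ∈ b → R n z → R n z' → z = z') : Ctb b :=
  ctb_image ctb_omega R h hf

theorem ctb_un {a b : M} (ha : Ctb a) (hb : Ctb b) : Ctb (un a b) := by
  obtain ⟨f, hf⟩ := ha
  obtain ⟨g, hg⟩ := hb
  have h1 : (succ emp : M) ∈ (omega : M) := succ_mem_omega emp_mem_omega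
  refine ctb_rel (fun n z => (z ∈ a ∧ n = pr emp (ap f z)) ∨ (z ∈ b ∧ n = pr (succ emp) (ap g z)))
    ?_ ?_
  · intro z hz
    rw [mem_un] at hz
    rcases hz with hz | hz
    · exact ⟨_, pr_mem emp_mem_omega (hf.fun.ap_mem hz), Or.inl ⟨hz, rfl⟩⟩
    · exact ⟨_, pr_mem h1 (hg.fun.ap_mem hz), Or.inr ⟨hz, rfl⟩⟩
  · rintro n z z' - - (⟨hz, e⟩ | ⟨hz, e⟩) (⟨hz', e'⟩ | ⟨hz', e'⟩)
    · exact hf.ap_inj hz hz' (pr_inj emp_mem_omega (hf.fun.ap_mem hz) emp_mem_omega
        (hf.fun.ap_mem hz') (e.symm.trans e')).2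
    · exact absurd (pr_inj emp_mem_omega (hf.fun.ap_mem hz) h1
        (hg.fun.ap_mem hz') (e.symm.trans e')).1.symm (succ_ne_emp _)
    · exact absurd (pr_inj h1 (hg.fun.ap_mem hz) emp_mem_omega
        (hf.fun.ap_mem hz') (e.symm.trans e')).1 (succ_ne_emp _)
    · exact hg.ap_inj hz hz' (pr_inj h1 (hg.fun.ap_mem hz) h1
        (hg.fun.ap_mem hz') (e.symm.trans e')).2

theorem ctb_ins {a x : M} (ha : Ctb a) : Ctb (ins a x) := ctb_un ha (ctb_sing x)

theorem ctb_succ {a : M} (ha : Ctb a) : Ctb (succ a) := ctb_ins ha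

theorem ctb_prod {a b : M} (ha : Ctb a) (hb : Ctb b) : Ctb (prod a b) := by
  obtain ⟨f, hf⟩ := ha
  obtain ⟨g, hg⟩ := hb
  refine ctb_rel (fun n z => ∃ x y, z = opair x y ∧ n = pr (ap f x) (ap g y)) ?_ ?_
  · intro z hz
    rw [mem_prod] at hz
    obtain ⟨x, hx, y, hy, rfl⟩ := hz
    exact ⟨_, pr_mem (hf.fun.ap_mem hx) (hg.fun.ap_mem hy), x, y, rfl, rfl⟩
  · rintro n z z' hz hz' ⟨x, y, rfl, e⟩ ⟨x', y', rfl, e'⟩
    rw [opair_mem_prod] at hz hz'
    have h := pr_inj (hf.fun.ap_mem hz.1) (hg.fun.ap_mem hz.2) (hf.fun.ap_mem hz'.1)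
      (hg.fun.ap_mem hz'.2) (e.symm.trans e')
    rw [hf.ap_inj hz.1 hz'.1 h.1, hg.ap_inj hz.2 hz'.2 h.2]

theorem ctb_of_inj {f a b : M} (hf : Inj f a b) (hb : Ctb b) : Ctb a := by
  obtain ⟨g, hg⟩ := hb
  refine ctb_rel (fun n z => n = ap g (ap f z)) (fun z hz => ⟨_, hg.fun.ap_mem (hf.fun.ap_mem hz),
    rfl⟩) fun n z z' hz hz' e e' => ?_
  exact hf.ap_inj hz hz' (hg.ap_inj (hf.fun.ap_mem hz) (hf.fun.ap_mem hz') (e.symm.trans e'))

theorem ctb_enum {X : M} (hX : Ctb X) (hne : X ≠ emp) :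
    ∃ e, Fun e omega X ∧ ∀ x, x ∈ X → ∃ n, n ∈ (omega : M) ∧ ap e n = x := by
  obtain ⟨f, hf⟩ := hX
  obtain ⟨x0, hx0⟩ := ne_emp_iff.1 hne
  set F : M → M := fun n => iota (fun z => (z ∈ X ∧ ap f z = n) ∨
    ((¬ ∃ w, w ∈ X ∧ ap f w = n) ∧ z = x0)) with hF
  have : F1 F := by rw [hF]; infer_instance
  have hval : ∀ n, n ∈ (omega : M) → F n ∈ X := by
    intro n _
    by_cases h : ∃ w, w ∈ X ∧ ap f w = n
    · obtain ⟨w, hw, e⟩ := h
      have : F n = w := by
        rw [hF]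
        apply iota_eq
        · exact Or.inl ⟨hw, e⟩
        · rintro z (⟨hz, e'⟩ | ⟨h', _⟩)
          · exact hf.ap_inj hz hw (e'.trans e.symm)
          · exact absurd ⟨w, hw, e⟩ h'
      rw [this]; exact hw
    · have : F n = x0 := by
        rw [hF]
        apply iota_eq
        · exact Or.inr ⟨h, rfl⟩
        · rintro z (⟨hz, e'⟩ | ⟨_, e'⟩)
          · exact absurd ⟨z, hz, e'⟩ h
          · exact e'
      rw [this]; exact hx0
  refine ⟨mkf omega X F, mkf_fun hval, fun x hx => ⟨ap f x, hf.fun.ap_mem hx, ?_⟩⟩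
  rw [ap_mkf hval (hf.fun.ap_mem hx), hF]
  apply iota_eq
  · exact Or.inl ⟨hx, rfl⟩
  · rintro z (⟨hz, e'⟩ | ⟨h', _⟩)
    · exact hf.ap_inj hz hx e'
    · exact absurd ⟨x, hx, rfl⟩ h'

theorem ctb_of_surj {e X : M} (h : ∀ x, x ∈ X → ∃ n, n ∈ (omega : M) ∧ ap e n = x) : Ctb X :=
  ctb_rel (fun n z => ap e n = z) h fun _ _ _ _ _ e1 e2 => e1.symm.trans e2

theorem enum_ge {K : M} (h : Unb K) : ∀ n, n ∈ (omega : M) → n ⊆ ap (enum K) n := by
  apply omega_induction (fun n => n ⊆ ap (enum K) n)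
  · exact emp_sub _
  · intro n hn ih
    have h1 := h.1 _ (h.enum_fun.ap_mem (succ_mem_omega hn))
    rw [succ_le_iff h1]
    exact lt_of_le_of_lt hn h1 ih (h.enum_succ hn)

theorem enum_surj {K : M} (h : Unb K) {k : M} (hk : k ∈ K) :
    ∃ n, n ∈ (omega : M) ∧ ap (enum K) n = k := by
  have hkω := h.1 k hk
  obtain ⟨n, hn, h1, h2⟩ := exists_least (fun n => k ⊆ ap (enum K) n) ⟨k, hkω, enum_ge h k hkω⟩
  refine ⟨n, hn, ?_⟩
  rcases eq_emp_or_succ hn with rfl | ⟨m, hm, rfl⟩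
  · apply sub_antisymm _ h1
    have e : ap (enum K) emp = least (fun k => k ∈ K) := by
      unfold enum
      exact recf_zero h.least_mem h.next_fun
    rw [e]
    exact least_le (fun k => k ∈ K) hkω hk
  · apply sub_antisymm _ h1
    have hmω := h.1 _ (h.enum_fun.ap_mem hm)
    have h3 : ap (enum K) m ∈ k := by
      rcases le_or_lt hkω hmω with h4 | h4
      · exact absurd h4 (h2 m (by simp))
      · exact h4
    have e : ap (enum K) (succ m) = next K (ap (enum K) m) := by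
      unfold enum
      rw [recf_succ h.least_mem h.next_fun hm]
      exact ap_mkf (fun m hm => (h.next_spec (h.1 m hm)).1) (h.enum_fun.ap_mem hm)
    rw [e]
    exact least_le (fun j => j ∈ K ∧ ap (enum K) m ∈ j) hkω ⟨hk, h3⟩

theorem omega_infinite : ¬ FinM (omega : M) :=
  unbounded_infinite (sub_refl _) fun n hn => ⟨n, hn, sub_refl n⟩

theorem ctb_bij {Y : M} (hY : Ctb Y) (hω : omega ⊆ Y) : ∃ e, Bij e omega Y := by
  obtain ⟨f, hf⟩ := hY
  set K : M := sep omega (fun n => ∃ y, y ∈ Y ∧ ap f y = n) with hK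
  have memK : ∀ n, n ∈ K ↔ n ∈ (omega : M) ∧ ∃ y, y ∈ Y ∧ ap f y = n := by
    intro n
    rw [hK, mem_sep]
  have hKinf : ¬ FinM K := by
    intro hfin
    apply omega_infinite (M := M)
    have h1 : FinM (sep omega (fun x => ∃ y, y ∈ K ∧ ap f x = y)) := by
      apply fin_bunion omega (fun x y => ap f x = y) hfin
      intro y hy
      by_cases h2 : ∃ x, x ∈ (omega : M) ∧ ap f x = y
      · obtain ⟨x, hx, e⟩ := h2
        apply fin_sub (fin_sing x)
        intro z hz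
        rw [mem_sep] at hz
        rw [mem_sing]
        exact hf.ap_inj (hω z hz.1) (hω x hx) (hz.2.trans e.symm)
      · apply fin_sub fin_emp
        intro z hz
        rw [mem_sep] at hz
        exact absurd ⟨z, hz.1, hz.2⟩ h2
    apply fin_sub h1
    intro x hx
    rw [mem_sep]
    exact ⟨hx, ap f x, (memK _).2 ⟨hf.fun.ap_mem (hω x hx), x, hω x hx, rfl⟩, rfl⟩
  have hU : Unb K := Unb.of_infinite (fun n hn => ((memK n).1 hn).1) hKinf
  set F : M → M := fun n => iota (fun y => y ∈ Y ∧ ap f y = ap (enum K) n) with hF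
  have : F1 F := by rw [hF]; infer_instance
  have hspec : ∀ n, n ∈ (omega : M) → F n ∈ Y ∧ ap f (F n) = ap (enum K) n := by
    intro n hn
    obtain ⟨_, y, hy, e⟩ := (memK _).1 (hU.enum_fun.ap_mem hn)
    exact iota_spec (P := fun y => y ∈ Y ∧ ap f y = ap (enum K) n) ⟨y, ⟨hy, e⟩,
      fun z hz => hf.ap_inj hz.1 hy (hz.2.trans e.symm)⟩
  have hval : ∀ n, n ∈ (omega : M) → F n ∈ Y := fun n hn => (hspec n hn).1
  refine ⟨mkf omega Y F, ?_⟩
  rw [bij_iff]
  refine ⟨mkf_fun hval, fun n n' hn hn' e => ?_, fun y hy => ?_⟩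
  · rw [ap_mkf hval hn, ap_mkf hval hn'] at e
    apply hU.enum_inj.ap_inj hn hn'
    rw [← (hspec n hn).2, e, (hspec n' hn').2]
  · obtain ⟨n, hn, e⟩ := enum_surj hU ((memK _).2 ⟨hf.fun.ap_mem hy, y, hy, rfl⟩)
    refine ⟨n, hn, ?_⟩
    rw [ap_mkf hval hn]
    exact hf.ap_inj (hval n hn) hy ((hspec n hn).2.trans e)

theorem ctb_sUn (hDC : DC M) {X : M} (hX : Ctb X) (h : ∀ x, x ∈ X → Ctb x) : Ctb (sUn X) := by
  have h1 := ctb_union hDC hX (fun x => x) h
  have h2 : img X (fun x => x) = X := ext fun z => by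
    rw [mem_img]
    exact ⟨fun ⟨x, hx, e⟩ => by rw [e]; exact hx, fun hz => ⟨z, hz, rfl⟩⟩
  rwa [h2] at h1

/-- No function enumerates all reals. -/
theorem diag (e : M) : ∃ x, x ∈ (RS : M) ∧ ∀ n, n ∈ (omega : M) → ap e n ≠ x := by
  set F : M → M := fun n => least (fun m => m ≠ ap (ap e n) n) with hF
  have : F1 F := by rw [hF]; infer_instance
  have hspec : ∀ n, F n ∈ (omega : M) ∧ F n ≠ ap (ap e n) n := by
    intro n
    have hex : ∃ m, m ∈ (omega : M) ∧ m ≠ ap (ap e n) n := by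
      by_cases h : emp = ap (ap e n) n
      · refine ⟨succ emp, succ_mem_omega emp_mem_omega, ?_⟩
        rw [← h]
        exact succ_ne_emp _
      · exact ⟨emp, emp_mem_omega, h⟩
    have := least_spec (fun m => m ≠ ap (ap e n) n) hex
    exact ⟨this.1, this.2.1⟩
  have hval : ∀ n, n ∈ (omega : M) → F n ∈ (omega : M) := fun n _ => (hspec n).1
  have hfun := mkf_fun hval
  refine ⟨mkf omega omega F, ?_, fun n hn e' => ?_⟩
  · unfold RS
    rw [mem_sep, mem_pow]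
    exact ⟨hfun.sub_prod, hfun⟩
  · apply (hspec n).2
    rw [e', ap_mkf hval hn]

end Pool.Agent.ZFIter.NPA
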