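import Pool.Agent.NPA.Defs5

/-!
# NPA/ANum: numerals, addition, parity

`add m n` is `recc succ m n`, `ev n` is `recc (succ ∘ succ) emp n`; use `recc_zero`, `recc_succ`
(ZFIter/Base) and `omega_induction`. `num k` are the external numerals (induction on `k : ℕ`).
-/

universe u

namespace Pool.Agent.ZFIter.NPA

open Pool.Agent.H78.ZF Pool.Agent.ZFIter

variable {M : Type u} [ZFM M] {ι : Type}

theorem num_mem (k : ℕ) : (num k : M) ∈ (omega : M) := by
  induction k with
  | zero => exact emp_mem_omega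
  | succ k ih => exact succ_mem_omega ih

theorem mem_num {k : ℕ} {x : M} : x ∈ (num k : M) ↔ ∃ j, j < k ∧ x = num j := by
  induction k with
  | zero => simp [num]
  | succ k ih =>
    change x ∈ succ (num k) ↔ _
    rw [mem_succ, ih]
    constructor
    · rintro (⟨j, hj, rfl⟩ | rfl)
      · exact ⟨j, by omega, rfl⟩
      · exact ⟨k, by omega, rfl⟩
    · rintro ⟨j, hj, rfl⟩
      rcases Nat.lt_succ_iff_lt_or_eq.1 hj with h | rfl
      · exact Or.inl ⟨j, h, rfl⟩
      · exact Or.inr rfl

theorem num_inj {j k : ℕ} (h : (num j : M) = num k) : j = k := by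
  rcases lt_trichotomy j k with hlt | rfl | hlt
  · have h1 : (num j : M) ∈ (num k : M) := mem_num.2 ⟨j, hlt, rfl⟩
    rw [h] at h1
    exact absurd h1 (not_mem_self _)
  · rfl
  · have h1 : (num k : M) ∈ (num j : M) := mem_num.2 ⟨k, hlt, rfl⟩
    rw [h] at h1
    exact absurd h1 (not_mem_self _)

theorem num_ne {j k : ℕ} (h : j ≠ k) : (num j : M) ≠ num k := fun e => h (num_inj e)

@[simp] theorem add_emp (m : M) : add m emp = m := by
  unfold add
  exact recc_zero

theorem add_succ (m : M) {n : M} (hn : n ∈ (omega : M)) : add m (succ n) = succ (add m n) := by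
  unfold add
  exact recc_succ hn

theorem add_mem {m n : M} (hm : m ∈ (omega : M)) (hn : n ∈ (omega : M)) : add m n ∈ (omega : M) := by
  apply omega_induction (fun n => add m n ∈ (omega : M)) _ _ n hn
  · rw [add_emp]; exact hm
  · intro k hk ih
    rw [add_succ m hk]
    exact succ_mem_omega ih

theorem succ_add {m n : M} (hm : m ∈ (omega : M)) (hn : n ∈ (omega : M)) :
    add (succ m) n = succ (add m n) := by
  apply omega_induction (fun n => add (succ m) n = succ (add m n)) _ _ n hn
  · rw [add_emp, add_emp]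
  · intro k hk ih
    rw [add_succ _ hk, add_succ _ hk, ih]

theorem emp_add {n : M} (hn : n ∈ (omega : M)) : add emp n = n := by
  apply omega_induction (fun n => add emp n = n) _ _ n hn
  · rw [add_emp]
  · intro k hk ih
    rw [add_succ _ hk, ih]

theorem add_comm' {m n : M} (hm : m ∈ (omega : M)) (hn : n ∈ (omega : M)) : add m n = add n m := by
  apply omega_induction (fun n => add m n = add n m) _ _ n hn
  · rw [add_emp, emp_add hm]
  · intro k hk ih
    rw [add_succ _ hk, succ_add hk hm, ih]

theorem add_assoc' {k m n : M} (hk : k ∈ (omega : M)) (hm : m ∈ (omega : M)) (hn : n ∈ (omega : M)) :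
    add (add k m) n = add k (add m n) := by
  apply omega_induction (fun n => add (add k m) n = add k (add m n)) _ _ n hn
  · rw [add_emp, add_emp]
  · intro j hj ih
    rw [add_succ _ hj, add_succ _ hj, add_succ _ (add_mem hm hj), ih]

theorem sub_add {m n : M} (hm : m ∈ (omega : M)) (hn : n ∈ (omega : M)) : m ⊆ add m n := by
  apply omega_induction (fun n => m ⊆ add m n) _ _ n hn
  · rw [add_emp]; exact sub_refl m
  · intro k hk ih
    rw [add_succ _ hk]
    intro z hz
    rw [mem_succ]
    exact Or.inl (ih z hz)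

theorem exists_add {m n : M} (hm : m ∈ (omega : M)) (hn : n ∈ (omega : M)) (h : m ⊆ n) :
    ∃ d, d ∈ (omega : M) ∧ n = add m d := by
  revert h
  apply omega_induction (fun n => m ⊆ n → ∃ d, d ∈ (omega : M) ∧ n = add m d) _ _ n hn
  · intro h
    refine ⟨emp, emp_mem_omega, ?_⟩
    rw [add_emp]
    exact (eq_emp fun z hz => not_mem_emp z (h z hz)).symm
  · intro k hk ih h
    rcases ord_trichotomy (ord_nat hm) (ord_nat (succ_mem_omega hk)) with h1 | h1 | h1
    · obtain ⟨d, hd, hd'⟩ := ih ((lt_succ_iff hm hk).1 h1)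
      exact ⟨succ d, succ_mem_omega hd, by rw [add_succ _ hd, hd']⟩
    · exact ⟨emp, emp_mem_omega, by rw [add_emp, h1]⟩
    · exact absurd (h _ h1) (not_mem_self _)

theorem add_cancel {m n n' : M} (hm : m ∈ (omega : M)) (hn : n ∈ (omega : M)) (hn' : n' ∈ (omega : M))
    (h : add m n = add m n') : n = n' := by
  have key : ∀ n, n ∈ (omega : M) → ∀ n', n' ∈ (omega : M) → add m n = add m n' → n = n' := by
    have hne : ∀ k, k ∈ (omega : M) → m ≠ succ (add m k) := by
      intro k hk e
      have h2 : add m k ∈ succ (add m k) := by rw [mem_succ]; exact Or.inr rfl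
      rw [← e] at h2
      exact not_mem_self _ (sub_add hm hk _ h2)
    apply omega_induction (fun n => ∀ n', n' ∈ (omega : M) → add m n = add m n' → n = n')
    · intro n' hn' e
      rcases eq_emp_or_succ hn' with rfl | ⟨k, hk, rfl⟩
      · rfl
      · rw [add_emp, add_succ _ hk] at e
        exact absurd e (hne k hk)
    · intro n hn ih n' hn' e
      rcases eq_emp_or_succ hn' with rfl | ⟨k, hk, rfl⟩
      · rw [add_emp, add_succ _ hn] at e
        exact absurd e.symm (hne n hn)
      · rw [add_succ _ hk, add_succ _ hn] at e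
        rw [ih k hk (succ_inj (add_mem hm hn) (add_mem hm hk) e)]
  exact key n hn n' hn' h

@[simp] theorem ev_emp : ev (emp : M) = emp := by
  unfold ev
  exact recc_zero

theorem ev_succ {n : M} (hn : n ∈ (omega : M)) : ev (succ n) = succ (succ (ev n)) := by
  unfold ev
  exact recc_succ hn

theorem ev_mem {n : M} (hn : n ∈ (omega : M)) : ev n ∈ (omega : M) := by
  apply omega_induction (fun n => ev n ∈ (omega : M)) _ _ n hn
  · rw [ev_emp]; exact emp_mem_omega
  · intro k hk ih
    rw [ev_succ hk]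
    exact succ_mem_omega (succ_mem_omega ih)

theorem ev_ne_succ {m n : M} (hm : m ∈ (omega : M)) (hn : n ∈ (omega : M)) : ev m ≠ succ (ev n) := by
  have key : ∀ m, m ∈ (omega : M) → ∀ n, n ∈ (omega : M) → ev m ≠ succ (ev n) := by
    apply omega_induction (fun m => ∀ n, n ∈ (omega : M) → ev m ≠ succ (ev n))
    · intro n hn
      rw [ev_emp]
      exact (succ_ne_emp _).symm
    · intro m hm ih n hn e
      rw [ev_succ hm] at e
      have e1 := succ_inj (succ_mem_omega (ev_mem hm)) (ev_mem hn) e
      rcases eq_emp_or_succ hn with rfl | ⟨k, hk, rfl⟩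
      · rw [ev_emp] at e1
        exact succ_ne_emp _ e1
      · rw [ev_succ hk] at e1
        exact ih k hk (succ_inj (ev_mem hm) (succ_mem_omega (ev_mem hk)) e1)
  exact key m hm n hn

theorem nat_cases {n : M} (hn : n ∈ (omega : M)) :
    ∃ k, k ∈ (omega : M) ∧ (n = ev k ∨ n = succ (ev k)) := by
  apply omega_induction (fun n => ∃ k, k ∈ (omega : M) ∧ (n = ev k ∨ n = succ (ev k))) _ _ n hn
  · exact ⟨emp, emp_mem_omega, Or.inl ev_emp.symm⟩
  · rintro n hn ⟨k, hk, h | h⟩
    · exact ⟨k, hk, Or.inr (by rw [h])⟩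
    · exact ⟨succ k, succ_mem_omega hk, Or.inl (by rw [ev_succ hk, h])⟩

theorem evn_emp : Evn (emp : M) := ⟨emp, emp_mem_omega, ev_emp.symm⟩

theorem evn_succ {n : M} (hn : n ∈ (omega : M)) : Evn (succ n) ↔ ¬ Evn n := by
  constructor
  · rintro ⟨k, hk, e⟩ ⟨j, hj, rfl⟩
    exact ev_ne_succ hk hj e.symm
  · intro h
    obtain ⟨k, hk, h1 | h1⟩ := nat_cases hn
    · exact absurd ⟨k, hk, h1⟩ h
    · exact ⟨succ k, succ_mem_omega hk, by rw [ev_succ hk, h1]⟩

theorem evn_add {m n : M} (hm : m ∈ (omega : M)) (hn : n ∈ (omega : M)) :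
    Evn (add m n) ↔ (Evn m ↔ Evn n) := by
  apply omega_induction (fun n => Evn (add m n) ↔ (Evn m ↔ Evn n)) _ _ n hn
  · rw [add_emp]
    have := evn_emp (M := M)
    tauto
  · intro k hk ih
    rw [add_succ _ hk, evn_succ (add_mem hm hk), evn_succ hk, ih]
    tauto

end Pool.Agent.ZFIter.NPA
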