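import Pool.Agent.NPA.APr

/-!
# NPA/ASq: codes of finite sequences, pairs of reals

`sq x n` is defined by `erec` (use `erec_eq`, `ap_mkseq`): `sq x 0 = 0`,
`sq x (n+1) = succ (pr (sq x n) (x n))`. `sq_inj`: induction on `n` (`succ_inj`, `pr_inj`).
`sq_cover`: strong induction on `s` (`ord_nat_induction`), using `pr_surj` and `pr_ge_left`, and
changing the value of `x` at one place.
-/

universe u

namespace Pool.Agent.ZFIter.NPA

open Pool.Agent.H78.ZF Pool.Agent.ZFIter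

variable {M : Type u} [ZFM M] {ι : Type}

theorem mem_RS {x : M} : x ∈ (RS : M) ↔ Fun x omega omega := by
  unfold RS
  rw [mem_sep, mem_pow]
  exact ⟨fun h => h.2, fun h => ⟨h.sub_prod, h⟩⟩

theorem RS_ap {x n : M} (hx : x ∈ (RS : M)) (hn : n ∈ (omega : M)) : ap x n ∈ (omega : M) :=
  (mem_RS.1 hx).ap_mem hn

/-- outside of `omega` a real has the value `emp` -/
theorem RS_ap_out {x n : M} (hx : x ∈ (RS : M)) (hn : n ∉ (omega : M)) : ap x n = emp := by
  unfold ap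
  apply iota_neg
  rintro ⟨y, hy, _⟩
  exact hn ((mem_RS.1 hx).mem_of_opair hy).1

theorem RS_ap' {x : M} (hx : x ∈ (RS : M)) (n : M) : ap x n ∈ (omega : M) := by
  by_cases hn : n ∈ (omega : M)
  · exact RS_ap hx hn
  · rw [RS_ap_out hx hn]
    exact emp_mem_omega

theorem RS_ext {x y : M} (hx : x ∈ (RS : M)) (hy : y ∈ (RS : M))
    (h : ∀ n, n ∈ (omega : M) → ap x n = ap y n) : x = y :=
  (mem_RS.1 hx).ext (mem_RS.1 hy) h

@[simp] theorem sq_emp (x : M) : sq x emp = emp := by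
  unfold sq
  rw [erec_eq (G := fun n g => sqStep x n g) emp]
  unfold sqStep
  apply iota_eq
  · exact Or.inl ⟨rfl, rfl⟩
  · rintro s (⟨_, h⟩ | ⟨h, _⟩)
    · exact h
    · exact absurd rfl h

private theorem sUn_succ {n : M} (hn : n ∈ (omega : M)) : sUn (succ n) = n := by
  apply Pool.Agent.H78.ZF.ext
  intro z
  rw [mem_sUn]
  constructor
  · rintro ⟨y, hy, hz⟩
    rw [mem_succ] at hy
    rcases hy with hy | rfl
    · exact lt_trans hn hz hy
    · exact hz
  · intro hz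
    exact ⟨n, by simp, hz⟩

theorem sq_succ (x : M) {n : M} (hn : n ∈ (omega : M)) :
    sq x (succ n) = succ (pr (sq x n) (ap x n)) := by
  conv_lhs => unfold sq
  rw [erec_eq (G := fun n g => sqStep x n g) (succ n)]
  unfold sqStep
  apply iota_eq
  · refine Or.inr ⟨succ_ne_emp n, ?_⟩
    rw [sUn_succ hn, ap_mkseq (by simp : n ∈ succ n)]
    rfl
  · rintro s (⟨h, _⟩ | ⟨_, h⟩)
    · exact absurd h (succ_ne_emp n)
    · rw [h, sUn_succ hn, ap_mkseq (by simp : n ∈ succ n)]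
      rfl

theorem sq_mem {x n : M} (hx : x ∈ (RS : M)) (hn : n ∈ (omega : M)) : sq x n ∈ (omega : M) := by
  apply omega_induction (fun n => sq x n ∈ (omega : M)) _ _ n hn
  · rw [sq_emp]; exact emp_mem_omega
  · intro n hn ih
    rw [sq_succ x hn]
    exact succ_mem_omega (pr_mem ih (RS_ap hx hn))

theorem sq_congr {x y n : M} (hn : n ∈ (omega : M)) (h : ∀ i, i ∈ n → ap x i = ap y i) :
    sq x n = sq y n := by
  apply omega_induction (fun n => (∀ i, i ∈ n → ap x i = ap y i) → sq x n = sq y n) _ _ n hn h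
  · intro _; rw [sq_emp, sq_emp]
  · intro n hn ih h
    rw [sq_succ x hn, sq_succ y hn, ih (fun i hi => h i (by rw [mem_succ]; exact Or.inl hi)),
      h n (by simp)]

theorem sq_inj {x y n m : M} (hx : x ∈ (RS : M)) (hy : y ∈ (RS : M)) (hn : n ∈ (omega : M))
    (hm : m ∈ (omega : M)) (h : sq x n = sq y m) : n = m ∧ ∀ i, i ∈ n → ap x i = ap y i := by
  apply omega_induction (fun n => ∀ m, m ∈ (omega : M) → sq x n = sq y m →
    n = m ∧ ∀ i, i ∈ n → ap x i = ap y i) _ _ n hn m hm h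
  · intro m hm h
    rw [sq_emp] at h
    refine ⟨?_, fun i hi => absurd hi (not_mem_emp i)⟩
    rcases eq_emp_or_succ hm with rfl | ⟨m', hm', rfl⟩
    · rfl
    · rw [sq_succ y hm'] at h
      exact absurd h.symm (succ_ne_emp _)
  · intro n hn ih m hm h
    rcases eq_emp_or_succ hm with rfl | ⟨m', hm', rfl⟩
    · rw [sq_emp, sq_succ x hn] at h
      exact absurd h (succ_ne_emp _)
    · rw [sq_succ x hn, sq_succ y hm'] at h
      have h1 := succ_inj (pr_mem (sq_mem hx hn) (RS_ap hx hn))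
        (pr_mem (sq_mem hy hm') (RS_ap hy hm')) h
      obtain ⟨h2, h3⟩ := pr_inj (sq_mem hx hn) (RS_ap hx hn) (sq_mem hy hm') (RS_ap hy hm') h1
      obtain ⟨h4, h5⟩ := ih m' hm' h2
      subst h4
      refine ⟨rfl, fun i hi => ?_⟩
      rw [mem_succ] at hi
      rcases hi with hi | rfl
      · exact h5 i hi
      · exact h3

private theorem succ_sub_succ {m n : M} (hm : m ∈ (omega : M)) (hn : n ∈ (omega : M)) (h : m ⊆ n) :
    succ m ⊆ succ n := by
  intro z hz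
  rw [mem_succ] at hz
  rcases hz with hz | rfl
  · rw [mem_succ]; exact Or.inl (h z hz)
  · exact (lt_succ_iff hm hn).2 h

theorem sq_ge {x n : M} (hx : x ∈ (RS : M)) (hn : n ∈ (omega : M)) : n ⊆ sq x n := by
  apply omega_induction (fun n => n ⊆ sq x n) _ _ n hn
  · exact emp_sub _
  · intro n hn ih
    rw [sq_succ x hn]
    exact succ_sub_succ hn (pr_mem (sq_mem hx hn) (RS_ap hx hn))
      (sub_trans ih (pr_ge_left (sq_mem hx hn) (RS_ap hx hn)))

/-- the codes are strictly increasing -/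
theorem sq_lt {x n m : M} (hx : x ∈ (RS : M)) (hn : n ∈ (omega : M)) (h : m ∈ n) :
    sq x m ∈ sq x n := by
  apply omega_induction (fun n => ∀ m, m ∈ n → sq x m ∈ sq x n) _ _ n hn m h
  · intro m hm; exact absurd hm (not_mem_emp m)
  · intro n hn ih m hm
    have h1 : sq x n ⊆ pr (sq x n) (ap x n) := pr_ge_left (sq_mem hx hn) (RS_ap hx hn)
    have h2 := pr_mem (sq_mem hx hn) (RS_ap hx hn)
    rw [sq_succ x hn]
    rw [mem_succ] at hm
    rcases hm with hm | rfl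
    · rw [mem_succ]
      exact Or.inl (h1 _ (ih m hm))
    · exact (lt_succ_iff (sq_mem hx hn) h2).2 h1

/-- changing a real from `n` on -/
theorem exists_change {x n : M} (hx : x ∈ (RS : M)) (hn : n ∈ (omega : M)) (F : M → M) [F1 F]
    (hF : ∀ i, i ∈ (omega : M) → F i ∈ (omega : M)) :
    ∃ y, y ∈ (RS : M) ∧ (∀ i, i ∈ n → ap y i = ap x i) ∧
      ∀ i, i ∈ (omega : M) → i ∉ n → ap y i = F i := by
  set G : M → M := fun i => iota (fun z => (i ∈ n ∧ z = ap x i) ∨ (i ∉ n ∧ z = F i)) with hG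
  have hG1 : F1 G := by rw [hG]; infer_instance
  have hin : ∀ i, i ∈ n → G i = ap x i := by
    intro i hi
    simp only [hG]
    apply iota_eq
    · exact Or.inl ⟨hi, rfl⟩
    · rintro z (⟨_, h⟩ | ⟨h, _⟩)
      · exact h
      · exact absurd hi h
  have hout : ∀ i, i ∉ n → G i = F i := by
    intro i hi
    simp only [hG]
    apply iota_eq
    · exact Or.inr ⟨hi, rfl⟩
    · rintro z (⟨h, _⟩ | ⟨_, h⟩)
      · exact absurd h hi
      · exact h
  have hmem : ∀ i, i ∈ (omega : M) → G i ∈ (omega : M) := by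
    intro i hi
    by_cases h : i ∈ n
    · rw [hin i h]; exact RS_ap hx hi
    · rw [hout i h]; exact hF i hi
  refine ⟨mkf omega omega G, mem_RS.2 (mkf_fun hmem), ?_, ?_⟩
  · intro i hi
    rw [ap_mkf hmem (mem_omega_of_mem hi hn), hin i hi]
  · intro i hi hi'
    rw [ap_mkf hmem hi, hout i hi']

theorem sq_cover {s : M} (hs : s ∈ (omega : M)) :
    ∃ x, x ∈ (RS : M) ∧ ∃ n, n ∈ (omega : M) ∧ s = sq x n := by
  apply ord_nat_induction (fun s => ∃ x, x ∈ (RS : M) ∧ ∃ n, n ∈ (omega : M) ∧ s = sq x n) _ s hs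
  intro s hs ih
  rcases eq_emp_or_succ hs with rfl | ⟨t, ht, rfl⟩
  · refine ⟨mkf omega omega (fun _ => emp), mem_RS.2 (mkf_fun fun _ _ => emp_mem_omega), emp,
      emp_mem_omega, ?_⟩
    rw [sq_emp]
  · obtain ⟨a, ha, b, hb, rfl⟩ := pr_surj ht
    obtain ⟨x, hx, n, hn, e⟩ := ih a ((lt_succ_iff ha ht).2 (pr_ge_left ha hb))
    obtain ⟨y, hy, h1, h2⟩ := exists_change hx hn (fun _ => b) (fun _ _ => hb)
    refine ⟨y, hy, succ n, succ_mem_omega hn, ?_⟩
    rw [sq_succ y hn, sq_congr hn h1, ← e, h2 n hn (not_mem_self n)]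

theorem jn_mem {x y : M} (hx : x ∈ (RS : M)) (hy : y ∈ (RS : M)) : jn x y ∈ (RS : M) :=
  mem_RS.2 (mkf_fun fun _ hk => pr_mem (RS_ap hx hk) (RS_ap hy hk))

theorem ap_jn {x y n : M} (hx : x ∈ (RS : M)) (hy : y ∈ (RS : M)) (hn : n ∈ (omega : M)) :
    ap (jn x y) n = pr (ap x n) (ap y n) :=
  ap_mkf (F := fun k => pr (ap x k) (ap y k)) (fun _ hk => pr_mem (RS_ap hx hk) (RS_ap hy hk)) hn

theorem jn_inj {x y x' y' : M} (hx : x ∈ (RS : M)) (hy : y ∈ (RS : M)) (hx' : x' ∈ (RS : M))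
    (hy' : y' ∈ (RS : M)) (h : jn x y = jn x' y') : x = x' ∧ y = y' := by
  have key : ∀ n, n ∈ (omega : M) → ap x n = ap x' n ∧ ap y n = ap y' n := by
    intro n hn
    have e : ap (jn x y) n = ap (jn x' y') n := by rw [h]
    rw [ap_jn hx hy hn, ap_jn hx' hy' hn] at e
    exact pr_inj (RS_ap hx hn) (RS_ap hy hn) (RS_ap hx' hn) (RS_ap hy' hn) e
  exact ⟨RS_ext hx hx' fun n hn => (key n hn).1, RS_ext hy hy' fun n hn => (key n hn).2⟩

private theorem iotaL {c a b : M} (ha : a ∈ (omega : M)) (hb : b ∈ (omega : M)) (e : c = pr a b) :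
    iota (fun a => ∃ b, b ∈ (omega : M) ∧ a ∈ (omega : M) ∧ c = pr a b) = a := by
  apply iota_eq
  · exact ⟨b, hb, ha, e⟩
  · rintro a' ⟨b', hb', ha', e'⟩
    exact (pr_inj ha' hb' ha hb (e'.symm.trans e)).1

private theorem iotaR {c a b : M} (ha : a ∈ (omega : M)) (hb : b ∈ (omega : M)) (e : c = pr a b) :
    iota (fun b => ∃ a, a ∈ (omega : M) ∧ b ∈ (omega : M) ∧ c = pr a b) = b := by
  apply iota_eq
  · exact ⟨a, ha, hb, e⟩
  · rintro b' ⟨a', ha', hb', e'⟩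
    exact (pr_inj ha' hb' ha hb (e'.symm.trans e)).2

private theorem pLR {w : M} (hw : w ∈ (RS : M)) :
    pL w ∈ (RS : M) ∧ pR w ∈ (RS : M) ∧ ∀ n, n ∈ (omega : M) →
      ap w n = pr (ap (pL w) n) (ap (pR w) n) := by
  have hL : ∀ k, k ∈ (omega : M) →
      iota (fun a => ∃ b, b ∈ (omega : M) ∧ a ∈ (omega : M) ∧ ap w k = pr a b) ∈ (omega : M) := by
    intro k hk
    obtain ⟨a, ha, b, hb, e⟩ := pr_surj (RS_ap hw hk)
    rw [iotaL ha hb e]
    exact ha
  have hR : ∀ k, k ∈ (omega : M) →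
      iota (fun b => ∃ a, a ∈ (omega : M) ∧ b ∈ (omega : M) ∧ ap w k = pr a b) ∈ (omega : M) := by
    intro k hk
    obtain ⟨a, ha, b, hb, e⟩ := pr_surj (RS_ap hw hk)
    rw [iotaR ha hb e]
    exact hb
  refine ⟨mem_RS.2 (mkf_fun hL), mem_RS.2 (mkf_fun hR), fun n hn => ?_⟩
  have h1 : ap (pL w) n =
      iota (fun a => ∃ b, b ∈ (omega : M) ∧ a ∈ (omega : M) ∧ ap w n = pr a b) := ap_mkf hL hn
  have h2 : ap (pR w) n =
      iota (fun b => ∃ a, a ∈ (omega : M) ∧ b ∈ (omega : M) ∧ ap w n = pr a b) := ap_mkf hR hn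
  obtain ⟨a, ha, b, hb, e⟩ := pr_surj (RS_ap hw hn)
  rw [h1, h2, iotaL ha hb e, iotaR ha hb e]
  exact e

theorem pL_mem {w : M} (hw : w ∈ (RS : M)) : pL w ∈ (RS : M) := (pLR hw).1

theorem pR_mem {w : M} (hw : w ∈ (RS : M)) : pR w ∈ (RS : M) := (pLR hw).2.1

theorem jn_pL_pR {w : M} (hw : w ∈ (RS : M)) : jn (pL w) (pR w) = w := by
  apply RS_ext (jn_mem (pL_mem hw) (pR_mem hw)) hw
  intro n hn
  rw [ap_jn (pL_mem hw) (pR_mem hw) hn]
  exact ((pLR hw).2.2 n hn).symm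

theorem pL_jn {x y : M} (hx : x ∈ (RS : M)) (hy : y ∈ (RS : M)) : pL (jn x y) = x := by
  have hw := jn_mem hx hy
  exact (jn_inj (pL_mem hw) (pR_mem hw) hx hy (jn_pL_pR hw)).1

theorem pR_jn {x y : M} (hx : x ∈ (RS : M)) (hy : y ∈ (RS : M)) : pR (jn x y) = y := by
  have hw := jn_mem hx hy
  exact (jn_inj (pL_mem hw) (pR_mem hw) hx hy (jn_pL_pR hw)).2

theorem sq_jn_iff {x y x' y' n : M} (hx : x ∈ (RS : M)) (hy : y ∈ (RS : M)) (hx' : x' ∈ (RS : M))
    (hy' : y' ∈ (RS : M)) (hn : n ∈ (omega : M)) :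
    sq (jn x y) n = sq (jn x' y') n ↔ sq x n = sq x' n ∧ sq y n = sq y' n := by
  constructor
  · intro h
    have h1 := (sq_inj (jn_mem hx hy) (jn_mem hx' hy') hn hn h).2
    have key : ∀ i, i ∈ n → ap x i = ap x' i ∧ ap y i = ap y' i := by
      intro i hi
      have hiω := mem_omega_of_mem hi hn
      have e := h1 i hi
      rw [ap_jn hx hy hiω, ap_jn hx' hy' hiω] at e
      exact pr_inj (RS_ap hx hiω) (RS_ap hy hiω) (RS_ap hx' hiω) (RS_ap hy' hiω) e
    exact ⟨sq_congr hn fun i hi => (key i hi).1, sq_congr hn fun i hi => (key i hi).2⟩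
  · rintro ⟨h1, h2⟩
    apply sq_congr hn
    intro i hi
    have hiω := mem_omega_of_mem hi hn
    rw [ap_jn hx hy hiω, ap_jn hx' hy' hiω, (sq_inj hx hx' hn hn h1).2 i hi,
      (sq_inj hy hy' hn hn h2).2 i hi]

end Pool.Agent.ZFIter.NPA
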