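import Pool.Agent.NPA.AOrd
import Pool.Agent.NPA.ASq

/-!
# NPA/AWo: codes of countable ordinals by reals

`WOc x α`: `x` codes the non-strict well-order of type `α` given by an injection `α → omega`.
-/

universe u

namespace Pool.Agent.ZFIter.NPA

open Pool.Agent.H78.ZF Pool.Agent.ZFIter

variable {M : Type u} [ZFM M] {ι : Type}

/-- `x` codes the ordinal `α` -/
def WOc (x α : M) : Prop :=
  ∃ f, Inj f α omega ∧ ∀ m, m ∈ (omega : M) → ∀ n, n ∈ (omega : M) →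
    (ap x (pr m n) = emp ↔ ∃ β, β ∈ α ∧ ∃ γ, γ ∈ α ∧ (β ∈ γ ∨ β = γ) ∧ ap f β = m ∧ ap f γ = n)

instance DR.WOc (x a : (ι → M) → M) [DF x] [DF a] : DR (fun v => WOc (x v) (a v)) := by
  unfold NPA.WOc; infer_instance

theorem exists_WOc {α : M} (h : Ord α) (hc : Ctb α) : ∃ x, x ∈ (RS : M) ∧ WOc x α := by
  obtain ⟨f, hf⟩ := hc
  set F : M → M := fun k => iota (fun y =>
    ((∃ β, β ∈ α ∧ ∃ γ, γ ∈ α ∧ (β ∈ γ ∨ β = γ) ∧ k = pr (ap f β) (ap f γ)) ∧ y = emp) ∨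
    ((¬ ∃ β, β ∈ α ∧ ∃ γ, γ ∈ α ∧ (β ∈ γ ∨ β = γ) ∧ k = pr (ap f β) (ap f γ)) ∧
      y = succ emp)) with hF
  have hF1 : F1 F := by rw [hF]; infer_instance
  have hpos : ∀ k, (∃ β, β ∈ α ∧ ∃ γ, γ ∈ α ∧ (β ∈ γ ∨ β = γ) ∧ k = pr (ap f β) (ap f γ)) →
      F k = emp := by
    intro k hk
    apply iota_eq
    · exact Or.inl ⟨hk, rfl⟩
    · rintro y (⟨_, h⟩ | ⟨h, _⟩)
      · exact h
      · exact absurd hk h
  have hneg : ∀ k, (¬ ∃ β, β ∈ α ∧ ∃ γ, γ ∈ α ∧ (β ∈ γ ∨ β = γ) ∧ k = pr (ap f β) (ap f γ)) →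
      F k = succ emp := by
    intro k hk
    apply iota_eq
    · exact Or.inr ⟨hk, rfl⟩
    · rintro y (⟨h, _⟩ | ⟨_, h⟩)
      · exact absurd h hk
      · exact h
  have hval : ∀ k, k ∈ (omega : M) → F k ∈ (omega : M) := by
    intro k _
    by_cases hk : ∃ β, β ∈ α ∧ ∃ γ, γ ∈ α ∧ (β ∈ γ ∨ β = γ) ∧ k = pr (ap f β) (ap f γ)
    · rw [hpos k hk]; exact emp_mem_omega
    · rw [hneg k hk]; exact succ_mem_omega emp_mem_omega
  refine ⟨mkf omega omega F, mem_RS.2 (mkf_fun hval), f, hf, fun m hm n hn => ?_⟩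
  rw [ap_mkf hval (pr_mem hm hn)]
  constructor
  · intro e
    by_contra hk
    rw [hneg] at e
    · exact succ_ne_emp _ e
    · rintro ⟨β, hβ, γ, hγ, h1, e1⟩
      obtain ⟨e2, e3⟩ := pr_inj hm hn (hf.fun.ap_mem hβ) (hf.fun.ap_mem hγ) e1
      exact hk ⟨β, hβ, γ, hγ, h1, e2.symm, e3.symm⟩
  · rintro ⟨β, hβ, γ, hγ, h1, e1, e2⟩
    exact hpos _ ⟨β, hβ, γ, hγ, h1, by rw [e1, e2]⟩

private theorem woc_aux {x α β f g : M} (hf : Inj f α omega) (hg : Inj g β omega)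
    (h : ∀ m, m ∈ (omega : M) → ∀ n, n ∈ (omega : M) →
      (ap x (pr m n) = emp ↔ ∃ β, β ∈ α ∧ ∃ γ, γ ∈ α ∧ (β ∈ γ ∨ β = γ) ∧ ap f β = m ∧ ap f γ = n))
    (h' : ∀ m, m ∈ (omega : M) → ∀ n, n ∈ (omega : M) →
      (ap x (pr m n) = emp ↔ ∃ δ, δ ∈ β ∧ ∃ γ, γ ∈ β ∧ (δ ∈ γ ∨ δ = γ) ∧ ap g δ = m ∧ ap g γ = n))
    {a b a' : M} (ha : a ∈ α) (hb : b ∈ α) (hba : b ∈ a) (ha' : a' ∈ β) (e : ap f a = ap g a') :
    ∃ b', b' ∈ β ∧ b' ∈ a' ∧ ap f b = ap g b' := by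
  have h1 : ap x (pr (ap f b) (ap f a)) = emp :=
    (h _ (hf.fun.ap_mem hb) _ (hf.fun.ap_mem ha)).2 ⟨b, hb, a, ha, Or.inl hba, rfl, rfl⟩
  obtain ⟨b1, hb1, a1, ha1, h2, e1, e2⟩ := (h' _ (hf.fun.ap_mem hb) _ (hf.fun.ap_mem ha)).1 h1
  have e3 : a1 = a' := hg.ap_inj ha1 ha' (by rw [e2, e])
  subst e3
  rcases h2 with h2 | h2
  · exact ⟨b1, hb1, h2, e1.symm⟩
  · exfalso
    subst h2
    have : b = a := hf.ap_inj hb ha (by rw [← e1, e])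
    rw [this] at hba
    exact not_mem_self a hba

private theorem woc_sub {x α β : M} (hα : Ord α) (hβ : Ord β) (h : WOc x α) (h' : WOc x β) :
    α ⊆ β := by
  obtain ⟨f, hf, hr⟩ := h
  obtain ⟨g, hg, hr'⟩ := h'
  have key : ∀ a, a ∈ α → ∀ a', a' ∈ β → ap f a = ap g a' → a = a' := by
    apply mem_induction (fun a => a ∈ α → ∀ a', a' ∈ β → ap f a = ap g a' → a = a')
    intro a ih ha a' ha' e
    apply Pool.Agent.H78.ZF.ext
    intro y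
    constructor
    · intro hy
      have hyα := hα.trans hy ha
      obtain ⟨y', h1, h2, h3⟩ := woc_aux hf hg hr hr' ha hyα hy ha' e
      rw [ih y hy hyα y' h1 h3]
      exact h2
    · intro hy
      have hyβ := hβ.trans hy ha'
      obtain ⟨y', h1, h2, h3⟩ := woc_aux hg hf hr' hr ha' hyβ hy ha e.symm
      rw [← ih y' h2 h1 y hyβ h3.symm]
      exact h2
  intro a ha
  have h1 : ap x (pr (ap f a) (ap f a)) = emp :=
    (hr _ (hf.fun.ap_mem ha) _ (hf.fun.ap_mem ha)).2 ⟨a, ha, a, ha, Or.inr rfl, rfl, rfl⟩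
  obtain ⟨a1, ha1, a2, ha2, h2, e1, e2⟩ := (hr' _ (hf.fun.ap_mem ha) _ (hf.fun.ap_mem ha)).1 h1
  rw [key a ha a1 ha1 e1.symm]
  exact ha1

/-- the ordinal is determined by the code: the two ordinals are isomorphic, by induction the
isomorphism is the identity -/
theorem WOc_uniq {x α β : M} (hα : Ord α) (hβ : Ord β) (h : WOc x α) (h' : WOc x β) : α = β :=
  sub_antisymm (woc_sub hα hβ h h') (woc_sub hβ hα h' h)

end Pool.Agent.ZFIter.NPA
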