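import Pool.Agent.NPA.BAbs1
import Pool.Agent.NPA.ASq

/-!
# NPA/BAbs2: absoluteness of recursions, of the pairing function, sequence codes, `Pi` and `Det`

`abs_erec`: `exists_rAtt` in `Sub K` gives an attempt; its first components form an attempt of `M`
for `G'` (`abs_Trans, abs_IsSeq, abs_ap, abs_res`); `erec_att` in both models. `abs_recc`: the same with
`RecSeq` (`recc_spec, recc_eq`). `abs_pr`: `walk` is a function satisfying the recursion `walk_zero,
walk_succ` in both models, `wstep` is absolute; `least` and `iota` are absolute (`abs_iota`).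
-/

universe u

namespace Pool.Agent.ZFIter.NPA

open Pool.Agent.H78.ZF Pool.Agent.ZFIter

variable {M : Type u} [ZFM M] {ι : Type}

section
variable {K : M → Prop} [hK : Inner K]

private theorem K_of_opair {x y : M} (h : K (opair x y)) : K x ∧ K y := by
  have h1 : K (upair x y) := Inner.trans _ _ h (by unfold opair; simp)
  exact ⟨Inner.trans _ _ h1 (by simp), Inner.trans _ _ h1 (by simp)⟩

private theorem abs_rAtt {G : Sub K → Sub K → Sub K} {G' : M → M → M}
    (h : ∀ x g, (G x g).1 = G' x.1 g.1) {t f : Sub K} (hf : RAtt G t f) : RAtt G' t.1 f.1 := by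
  refine ⟨abs_Trans.1 hf.1, abs_IsSeq.1 hf.2.1, fun x hx => ?_⟩
  have h1 := congrArg (fun z : Sub K => z.1) (hf.2.2 ⟨x, sub_of_mem hx⟩ hx)
  simp only [abs_ap, h, abs_res] at h1
  exact h1

theorem abs_erec (G : Sub K → Sub K → Sub K) [F2 G] (G' : M → M → M) [F2 G']
    (h : ∀ x g, (G x g).1 = G' x.1 g.1) (x : Sub K) : (erec G x).1 = erec G' x.1 := by
  obtain ⟨t, f, hf, hx⟩ := exists_rAtt (G := G) x
  rw [erec_att hf hx, abs_ap]
  exact (erec_att (abs_rAtt h hf) hx).symm

theorem abs_recc (F : Sub K → Sub K) [F1 F] (F' : M → M) [F1 F'] (h : ∀ x, (F x).1 = F' x.1)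
    (z n : Sub K) (hn : n ∈ (omega : Sub K)) : (recc F z n).1 = recc F' z.1 n.1 := by
  obtain ⟨f, hf, hy⟩ := recc_spec (F := F) (z0 := z) hn
  have hn' : n.1 ∈ (omega : M) := by
    have := sub_mem.1 hn
    rwa [abs_omega] at this
  refine (recc_eq hn' (f := f.1) ⟨?_, ?_, ?_⟩ ?_).symm
  · intro k hk
    rw [← abs_succ] at hk
    obtain ⟨y, hy1, hy2⟩ := hf.1 ⟨k, sub_of_mem hk⟩ hk
    refine ⟨y.1, ?_, fun w hw => ?_⟩
    · have := sub_mem.1 hy1
      rwa [abs_opair] at this
    · have hw1 : K w := (K_of_opair (sub_of_mem hw)).2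
      have hw3 : opair (M := Sub K) ⟨k, sub_of_mem hk⟩ ⟨w, hw1⟩ ∈ f := by
        rw [sub_mem, abs_opair]
        exact hw
      exact congrArg (fun z : Sub K => z.1) (hy2 ⟨w, hw1⟩ hw3)
  · have := sub_mem.1 hf.2.1
    rwa [abs_opair, abs_emp] at this
  · intro k hk y hy
    have hK := K_of_opair (sub_of_mem hy)
    have := hf.2.2 ⟨k, hK.1⟩ hk ⟨y, hK.2⟩ (by
      rw [sub_mem, abs_opair]
      exact hy)
    rw [sub_mem, abs_opair, abs_succ, h] at this
    exact this
  · have := sub_mem.1 hy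
    rwa [abs_opair] at this

private theorem sub_mem_omega {x : Sub K} : x ∈ (omega : Sub K) ↔ x.1 ∈ (omega : M) := by
  rw [sub_mem, abs_omega]

private theorem K_of_omega {x : M} (h : x ∈ (omega : M)) : K x := by
  rw [← abs_omega (K := K)] at h
  exact sub_of_mem h

private theorem abs_wZ : (wZ : Sub K).1 = (wZ : M) := by
  unfold wZ
  simp

private theorem abs_wstep {z : Sub K} (hz : z ∈ (wZ : Sub K)) : (wstep z).1 = wstep z.1 := by
  unfold wZ at hz
  rw [mem_prod] at hz
  obtain ⟨p, hp, c, hc, rfl⟩ := hz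
  rw [mem_prod] at hp
  obtain ⟨a, ha, b, hb, rfl⟩ := hp
  rcases eq_emp_or_succ hb with rfl | ⟨b', hb', rfl⟩
  · rw [wstep_emp]
    simp only [abs_opair, abs_emp, abs_succ]
    rw [wstep_emp]
  · rw [wstep_succ hb']
    simp only [abs_opair, abs_succ]
    rw [wstep_succ (sub_mem_omega.1 hb')]

private theorem abs_walk : (walk : Sub K).1 = (walk : M) := by
  have h1 : Fun (walk : Sub K).1 (omega : M) wZ := by
    have := abs_Fun.1 (walk_fun (M := Sub K))
    rwa [abs_omega, abs_wZ] at this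
  refine h1.ext walk_fun ?_
  apply omega_induction (fun n => ap (walk : Sub K).1 n = ap (walk : M) n)
  · have := congrArg (fun z : Sub K => z.1) (walk_zero (M := Sub K))
    simp only [abs_ap, abs_opair, abs_emp] at this
    rw [this, walk_zero]
  · intro n hn ih
    have hn1 : (⟨n, K_of_omega hn⟩ : Sub K) ∈ (omega : Sub K) := sub_mem_omega.2 hn
    have := congrArg (fun z : Sub K => z.1) (walk_succ (M := Sub K) hn1)
    simp only [abs_ap, abs_succ] at this
    rw [this, abs_wstep (walk_fun.ap_mem hn1), abs_ap, walk_succ hn]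
    show wstep (ap (walk : Sub K).1 n) = _
    rw [ih]

@[simp] theorem abs_pr (a b : Sub K) : (pr a b).1 = pr a.1 b.1 := by
  have key : ∀ x : Sub K, (∃ c, ap (walk : M) x.1 = opair (opair a.1 b.1) c) ↔
      ∃ c, ap (walk : Sub K) x = opair (opair a b) c := by
    intro x
    constructor
    · rintro ⟨c, hc⟩
      have hK : K (opair (opair a.1 b.1) c) := by
        rw [← hc, ← abs_walk (K := K), ← abs_ap]
        exact (ap walk x : Sub K).2
      refine ⟨⟨c, (K_of_opair hK).2⟩, sub_inj ?_⟩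
      rw [abs_ap, abs_walk, hc, abs_opair, abs_opair]
    · rintro ⟨c, hc⟩
      refine ⟨c.1, ?_⟩
      have := congrArg (fun z : Sub K => z.1) hc
      simpa only [abs_ap, abs_walk, abs_opair] using this
  unfold pr least
  refine abs_iota fun x => ?_
  constructor
  · rintro ⟨h1, h2, h3⟩
    refine ⟨K_of_omega h1, sub_mem_omega.2 h1, (key ⟨x, K_of_omega h1⟩).1 h2, fun k hk hk' => ?_⟩
    exact h3 k.1 hk ((key k).2 hk')
  · rintro ⟨h, h1, h2, h3⟩
    refine ⟨sub_mem_omega.1 h1, (key ⟨x, h⟩).2 h2, fun k hk hk' => ?_⟩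
    have hkK : K k := Inner.trans _ _ h hk
    exact h3 ⟨k, hkK⟩ hk ((key ⟨k, hkK⟩).1 hk')

theorem abs_ev {n : Sub K} (hn : n ∈ (omega : Sub K)) : (ev n).1 = ev n.1 := by
  unfold ev
  rw [abs_recc (fun z : Sub K => succ (succ z)) (fun z : M => succ (succ z)) (fun x => by simp) emp n
    hn, abs_emp]

theorem abs_add {m n : Sub K} (hn : n ∈ (omega : Sub K)) : (add m n).1 = add m.1 n.1 := by
  unfold add
  exact abs_recc (fun z : Sub K => succ z) (fun z : M => succ z) (fun x => by simp) m n hn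

private theorem sqStep_of_emp {x g : M} : sqStep x emp g = emp := by
  unfold sqStep
  apply iota_eq
  · exact Or.inl ⟨rfl, rfl⟩
  · rintro s (⟨_, h⟩ | ⟨h, _⟩)
    · exact h
    · exact absurd rfl h

private theorem sqStep_of_ne {x n g : M} (hn : n ≠ emp) :
    sqStep x n g = succ (pr (ap g (sUn n)) (ap x (sUn n))) := by
  unfold sqStep
  apply iota_eq
  · exact Or.inr ⟨hn, rfl⟩
  · rintro s (⟨h, _⟩ | ⟨_, h⟩)
    · exact absurd h hn
    · exact h

private theorem abs_sqStep (x n g : Sub K) : (sqStep x n g).1 = sqStep x.1 n.1 g.1 := by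
  by_cases hn : n = emp
  · subst hn
    rw [sqStep_of_emp, abs_emp, sqStep_of_emp]
  · have hn' : n.1 ≠ emp := by
      intro e
      apply hn
      apply sub_inj
      rw [e, abs_emp]
    rw [sqStep_of_ne hn, sqStep_of_ne hn']
    simp

@[simp] theorem abs_sq (x n : Sub K) : (sq x n).1 = sq x.1 n.1 := by
  unfold sq
  exact abs_erec (fun n g => sqStep x n g) (fun n g => sqStep x.1 n g) (fun n g => abs_sqStep x n g) n

@[simp] theorem abs_jn (x y : Sub K) : (jn x y).1 = jn x.1 y.1 := by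
  unfold jn
  rw [abs_mkf omega omega (fun k => pr (ap x k) (ap y k)) (fun k => pr (ap x.1 k) (ap y.1 k))
    (fun k _ => by simp), abs_omega]

theorem abs_RS {x : Sub K} : x ∈ (RS : Sub K) ↔ x.1 ∈ (RS : M) := by
  rw [mem_RS, mem_RS, abs_Fun, abs_omega]

theorem abs_Pi (m : ℕ) {R o x : Sub K} : Pi R m o x ↔ Pi R.1 m o.1 x.1 := by
  induction m generalizing x with
  | zero =>
    simp only [Pi]
    constructor
    · intro h n hn e
      refine h ⟨n, K_of_omega hn⟩ (sub_mem_omega.2 hn) (sub_inj ?_)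
      rw [abs_ap, abs_sq, abs_emp]
      exact e
    · intro h n hn e
      apply h n.1 (sub_mem_omega.1 hn)
      have := congrArg (fun z : Sub K => z.1) e
      simpa only [abs_ap, abs_sq, abs_emp] using this
  | succ m ih =>
    simp only [Pi]
    constructor
    · intro h y hy h1
      refine h ⟨y, sub_of_mem hy⟩ hy (ih.2 ?_)
      rw [abs_jn]
      exact h1
    · intro h y hy h1
      apply h y.1 hy
      rw [← abs_jn]
      exact ih.1 h1

private theorem abs_WinI (m : ℕ) {R o s : Sub K} : WinI R m o s ↔ WinI R.1 m o.1 s.1 := by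
  unfold WinI
  constructor
  · intro h x hx h1
    refine (abs_Pi m (x := ⟨x, sub_of_mem hx⟩)).1 (h ⟨x, sub_of_mem hx⟩ hx fun n hn => sub_inj ?_)
    rw [abs_ap, abs_ap, abs_sq, abs_ev hn]
    exact h1 n.1 (sub_mem_omega.1 hn)
  · intro h x hx h1
    refine (abs_Pi m).2 (h x.1 hx fun n hn => ?_)
    have hn1 : (⟨n, K_of_omega hn⟩ : Sub K) ∈ (omega : Sub K) := sub_mem_omega.2 hn
    have := congrArg (fun z : Sub K => z.1) (h1 _ hn1)
    simpa only [abs_ap, abs_sq, abs_ev hn1] using this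

private theorem abs_WinII (m : ℕ) {R o s : Sub K} : WinII R m o s ↔ WinII R.1 m o.1 s.1 := by
  unfold WinII
  constructor
  · intro h x hx h1 h2
    refine h ⟨x, sub_of_mem hx⟩ hx (fun n hn => sub_inj ?_) ((abs_Pi m).2 h2)
    rw [abs_ap, abs_ap, abs_sq, abs_succ, abs_ev hn]
    exact h1 n.1 (sub_mem_omega.1 hn)
  · intro h x hx h1 h2
    refine h x.1 hx (fun n hn => ?_) ((abs_Pi m).1 h2)
    have hn1 : (⟨n, K_of_omega hn⟩ : Sub K) ∈ (omega : Sub K) := sub_mem_omega.2 hn
    have := congrArg (fun z : Sub K => z.1) (h1 _ hn1)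
    simpa only [abs_ap, abs_sq, abs_succ, abs_ev hn1] using this

theorem abs_Det (m : ℕ) {R : Sub K} : Det R m ↔ Det R.1 m := by
  unfold Det
  constructor
  · intro h o ho
    rcases h ⟨o, sub_of_mem ho⟩ ho with ⟨s, hs, h1⟩ | ⟨s, hs, h1⟩
    · exact Or.inl ⟨s.1, hs, (abs_WinI m).1 h1⟩
    · exact Or.inr ⟨s.1, hs, (abs_WinII m).1 h1⟩
  · intro h o ho
    rcases h o.1 ho with ⟨s, hs, h1⟩ | ⟨s, hs, h1⟩
    · exact Or.inl ⟨⟨s, sub_of_mem hs⟩, hs, (abs_WinI m).2 h1⟩
    · exact Or.inr ⟨⟨s, sub_of_mem hs⟩, hs, (abs_WinII m).2 h1⟩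

end

end Pool.Agent.ZFIter.NPA
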