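import Pool.Agent.NPA.Defs5

/-!
# NPA/APr: more on the pairing function

`pr a b` is the first stage at which the walk (H78/ZF/Pairing) visits `(a, b)`. The walk visits the
state `((a, b), c)` with `c = a + b` (invariant); show by induction that at stage `n` the state
`((a, b), c)` satisfies `a ⊆ n`, `c ⊆ n`, `b ⊆ c`, and that no state is visited twice (the states increase
lexicographically in `(c, a)`), so that `pr a b = n` iff the stage `n` is `((a, b), _)`.
-/

universe u

namespace Pool.Agent.ZFIter.NPA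

open Pool.Agent.H78.ZF Pool.Agent.ZFIter

variable {M : Type u} [ZFM M] {ι : Type}

namespace APr

theorem add_zero (m : M) : add m emp = m := by
  unfold NPA.add
  exact recc_zero (F := fun z => succ z)

theorem add_succ (m : M) {n : M} (hn : n ∈ (omega : M)) : add m (succ n) = succ (add m n) := by
  unfold NPA.add
  exact recc_succ (F := fun z => succ z) hn

theorem succ_add (m : M) : ∀ n, n ∈ (omega : M) → add (succ m) n = succ (add m n) := by
  apply omega_induction (fun n => add (succ m) n = succ (add m n))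
  · rw [add_zero, add_zero]
  · intro n hn ih
    rw [add_succ _ hn, add_succ _ hn, ih]

theorem zero_add : ∀ n, n ∈ (omega : M) → add emp n = n := by
  apply omega_induction (fun n : M => add emp n = n)
  · rw [add_zero]
  · intro n hn ih
    rw [add_succ _ hn, ih]

/-- The invariant of the walk at the stage `n`. -/
def Inv (n : M) : Prop := ∃ a b c, a ∈ (omega : M) ∧ b ∈ (omega : M) ∧ c ∈ (omega : M) ∧
  ap walk n = opair (opair a b) c ∧ c = add a b ∧ a ⊆ n ∧ c ⊆ n ∧ b ⊆ c

instance DR.Inv (s : (ι → M) → M) [DF s] : DR (fun v => Inv (s v)) := by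
  unfold APr.Inv
  infer_instance

theorem inv_all : ∀ n, n ∈ (omega : M) → Inv n := by
  apply omega_induction (fun n => Inv n)
  · exact ⟨emp, emp, emp, emp_mem_omega, emp_mem_omega, emp_mem_omega, walk_zero,
      (add_zero _).symm, emp_sub _, emp_sub _, emp_sub _⟩
  · intro n hn ih
    obtain ⟨a, b, c, ha, hb, hc, e, h1, h2, h3, h4⟩ := ih
    rcases eq_emp_or_succ hb with rfl | ⟨b', hb', rfl⟩
    · refine ⟨emp, succ c, succ c, emp_mem_omega, succ_mem_omega hc, succ_mem_omega hc, ?_, ?_,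
        emp_sub _, ?_, sub_refl _⟩
      · rw [walk_succ hn, e, wstep_emp]
      · rw [zero_add _ (succ_mem_omega hc)]
      · rw [succ_le_iff (succ_mem_omega hn), lt_succ_iff hc hn]
        exact h3
    · refine ⟨succ a, b', c, succ_mem_omega ha, hb', hc, ?_, ?_, ?_, ?_, ?_⟩
      · rw [walk_succ hn, e, wstep_succ hb']
      · rw [h1, succ_add _ _ hb', add_succ _ hb']
      · rw [succ_le_iff (succ_mem_omega hn), lt_succ_iff ha hn]
        exact h2
      · exact sub_trans h3 fun z hz => by rw [mem_succ]; exact Or.inl hz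
      · exact sub_trans (fun z hz => by rw [mem_succ]; exact Or.inl hz) h4

/-- The states increase. -/
theorem inc_aux : ∀ n, n ∈ (omega : M) → ∀ m a b c a' b' c', m ∈ n →
    ap walk m = opair (opair a b) c → ap walk n = opair (opair a' b') c' →
      c ∈ c' ∨ (c = c' ∧ a ∈ a') := by
  apply omega_induction (fun n => ∀ m a b c a' b' c', m ∈ n →
    ap walk m = opair (opair a b) c → ap walk n = opair (opair a' b') c' →
      c ∈ c' ∨ (c = c' ∧ a ∈ a'))
  · intro m a b c a' b' c' hm
    exact absurd hm (not_mem_emp m)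
  · intro n hn ih m a b c a' b' c' hm e e'
    obtain ⟨a1, b1, c1, ha1, hb1, hc1, e1, _⟩ := inv_all n hn
    rw [walk_succ hn, e1] at e'
    have key : c1 ∈ c' ∨ (c1 = c' ∧ a1 ∈ a') := by
      rcases eq_emp_or_succ hb1 with rfl | ⟨b', hb', rfl⟩
      · rw [wstep_emp] at e'
        obtain ⟨_, h2⟩ := opair_inj e'
        left
        rw [← h2]
        simp
      · rw [wstep_succ hb'] at e'
        obtain ⟨h1, h2⟩ := opair_inj e'
        obtain ⟨h3, _⟩ := opair_inj h1
        right
        refine ⟨h2, ?_⟩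
        rw [← h3]
        simp
    have hmem : c' ∈ (omega : M) ∧ a' ∈ (omega : M) := by
      obtain ⟨a2, b2, c2, ha2, hb2, hc2, e2, _⟩ := inv_all (succ n) (succ_mem_omega hn)
      rw [walk_succ hn, e1, e'] at e2
      obtain ⟨h1, h2⟩ := opair_inj e2
      obtain ⟨h3, _⟩ := opair_inj h1
      rw [h2, h3]
      exact ⟨hc2, ha2⟩
    rw [mem_succ] at hm
    rcases hm with hm | rfl
    · rcases ih m a b c a1 b1 c1 hm e e1 with h | ⟨h, h'⟩
      · left
        rcases key with k | ⟨k, _⟩
        · exact lt_trans hmem.1 h k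
        · rw [← k]; exact h
      · rcases key with k | ⟨k, k'⟩
        · left; rw [h]; exact k
        · right; exact ⟨h.trans k, lt_trans hmem.2 h' k'⟩
    · rw [e1] at e
      obtain ⟨h1, h2⟩ := opair_inj e
      obtain ⟨h3, _⟩ := opair_inj h1
      rw [← h2, ← h3]
      exact key

theorem walk_pr {n a b c : M} (hn : n ∈ (omega : M)) (e : ap walk n = opair (opair a b) c) :
    pr a b = n := by
  obtain ⟨a1, b1, c1, ha, hb, hc, e1, h1, _⟩ := inv_all n hn
  rw [e] at e1
  obtain ⟨h2, rfl⟩ := opair_inj e1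
  obtain ⟨rfl, rfl⟩ := opair_inj h2
  obtain ⟨hp, c', e'⟩ := pr_spec ha hb
  have hle : pr a b ⊆ n := least_le (fun n => ∃ c, ap walk n = opair (opair a b) c) hn ⟨c, e⟩
  rcases (le_iff hp hn).1 hle with h | h
  · exfalso
    obtain ⟨a2, b2, c2, _, _, _, e2, h3, _⟩ := inv_all _ hp
    rw [e'] at e2
    obtain ⟨h4, rfl⟩ := opair_inj e2
    obtain ⟨rfl, rfl⟩ := opair_inj h4
    rcases inc_aux n hn _ _ _ _ _ _ _ h e' e with h5 | ⟨_, h5⟩
    · rw [h3, ← h1] at h5
      exact not_mem_self _ h5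
    · exact not_mem_self _ h5
  · exact h

end APr

/-- every number is a pair -/
theorem pr_surj {n : M} (hn : n ∈ (omega : M)) :
    ∃ a, a ∈ (omega : M) ∧ ∃ b, b ∈ (omega : M) ∧ n = pr a b := by
  obtain ⟨a, b, c, ha, hb, _, e, _⟩ := APr.inv_all n hn
  exact ⟨a, ha, b, hb, (APr.walk_pr hn e).symm⟩

theorem pr_ge_left {a b : M} (ha : a ∈ (omega : M)) (hb : b ∈ (omega : M)) : a ⊆ pr a b := by
  obtain ⟨hp, c', e'⟩ := pr_spec ha hb
  obtain ⟨a2, b2, c2, _, _, _, e2, _, h1, _⟩ := APr.inv_all _ hp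
  rw [e'] at e2
  obtain ⟨h4, rfl⟩ := opair_inj e2
  obtain ⟨rfl, rfl⟩ := opair_inj h4
  exact h1

theorem pr_ge_right {a b : M} (ha : a ∈ (omega : M)) (hb : b ∈ (omega : M)) : b ⊆ pr a b := by
  obtain ⟨hp, c', e'⟩ := pr_spec ha hb
  obtain ⟨a2, b2, c2, _, _, _, e2, _, _, h1, h2⟩ := APr.inv_all _ hp
  rw [e'] at e2
  obtain ⟨h4, rfl⟩ := opair_inj e2
  obtain ⟨rfl, rfl⟩ := opair_inj h4
  exact sub_trans h2 h1

theorem pr_emp : pr (emp : M) emp = emp := APr.walk_pr emp_mem_omega walk_zero

end Pool.Agent.ZFIter.NPA
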