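import Pool.Agent.NPA.ACtb

/-!
# NPA/ACl: closure of a set under a countable-set-valued binary class function

`cl S X` is the union of the sets `X_n`, `X_0 = X`, `X_{n+1} = X_n ∪ ⋃ {S a b : a, b ∈ X_n}`.
Countability: `ctb_union` (needs DC) three times. `club_cl`: the club is
`C = {X ∈ pow H : Ctb X and every x ∈ cl S X which is in H is in X}`.
Unboundedness: for countable `Y ⊆ H` take `X = (cl S Y) ∩ H`; `cl S X ⊆ cl S Y` by `cl_min`.
Closed under chains: `cl S (⋃ X_n) ⊆ ⋃ cl S X_n` by `cl_min` (the union of the increasing sequence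
`cl S X_n` is closed under the binary function `S`). For `X ∈ C` take `X' = cl S X`.
-/

universe u

namespace Pool.Agent.ZFIter.NPA

open Pool.Agent.H78.ZF Pool.Agent.ZFIter

variable {M : Type u} [ZFM M] {ι : Type}

variable (S : M → M → M) [F2 S]

private theorem mem_cl {X z : M} :
    z ∈ cl S X ↔ ∃ n, n ∈ (omega : M) ∧ z ∈ recc (fun Z => clStep S Z) X n := by
  unfold cl
  rw [mem_sUn]
  constructor
  · rintro ⟨w, hw, hz⟩
    rw [mem_img] at hw
    obtain ⟨n, hn, rfl⟩ := hw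
    exact ⟨n, hn, hz⟩
  · rintro ⟨n, hn, hz⟩
    exact ⟨_, by rw [mem_img]; exact ⟨n, hn, rfl⟩, hz⟩

private theorem mem_clStep {Z z : M} :
    z ∈ clStep S Z ↔ z ∈ Z ∨ ∃ a, a ∈ Z ∧ ∃ b, b ∈ Z ∧ z ∈ S a b := by
  unfold clStep
  rw [mem_un, mem_sUn]
  refine or_congr Iff.rfl ?_
  constructor
  · rintro ⟨w, hw, hz⟩
    rw [mem_img] at hw
    obtain ⟨a, ha, rfl⟩ := hw
    rw [mem_sUn] at hz
    obtain ⟨w, hw, hz⟩ := hz
    rw [mem_img] at hw
    obtain ⟨b, hb, rfl⟩ := hw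
    exact ⟨a, ha, b, hb, hz⟩
  · rintro ⟨a, ha, b, hb, hz⟩
    refine ⟨_, by rw [mem_img]; exact ⟨a, ha, rfl⟩, ?_⟩
    rw [mem_sUn]
    exact ⟨_, by rw [mem_img]; exact ⟨b, hb, rfl⟩, hz⟩

private theorem cl_step_mono (X : M) : ∀ l, l ∈ (omega : M) → ∀ k, k ∈ (omega : M) → k ⊆ l →
    recc (fun Z => clStep S Z) X k ⊆ recc (fun Z => clStep S Z) X l := by
  apply omega_induction (fun l => ∀ k, k ∈ (omega : M) → k ⊆ l →
    recc (fun Z => clStep S Z) X k ⊆ recc (fun Z => clStep S Z) X l)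
  · intro k hk hkl
    have : k = emp := eq_emp fun z hz => not_mem_emp z (hkl z hz)
    rw [this]; exact sub_refl _
  · intro l hl ih k hk hkl
    rcases (le_iff hk (succ_mem_omega hl)).1 hkl with h1 | h1
    · rw [lt_succ_iff hk hl] at h1
      rw [recc_succ hl]
      intro z hz
      exact (mem_clStep S).2 (Or.inl (ih k hk h1 z hz))
    · rw [h1]; exact sub_refl _

theorem sub_cl (X : M) : X ⊆ cl S X := by
  intro z hz
  rw [mem_cl]
  exact ⟨emp, emp_mem_omega, by rw [recc_zero]; exact hz⟩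

theorem cl_closed (X : M) : ClS S (cl S X) := by
  intro a ha b hb z hz
  rw [mem_cl] at ha hb
  obtain ⟨k, hk, ha⟩ := ha
  obtain ⟨l, hl, hb⟩ := hb
  have key : ∀ m, m ∈ (omega : M) → a ∈ recc (fun Z => clStep S Z) X m →
      b ∈ recc (fun Z => clStep S Z) X m → z ∈ cl S X := by
    intro m hm h1 h2
    rw [mem_cl]
    refine ⟨succ m, succ_mem_omega hm, ?_⟩
    rw [recc_succ hm]
    exact (mem_clStep S).2 (Or.inr ⟨a, h1, b, h2, hz⟩)
  rcases le_or_lt hk hl with h1 | h1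
  · exact key l hl (cl_step_mono S X l hl k hk h1 a ha) hb
  · exact key k hk ha (cl_step_mono S X k hk l hl (omega_trans hk l h1) b hb)

theorem cl_min {X Z : M} (h : X ⊆ Z) (hZ : ClS S Z) : cl S X ⊆ Z := by
  intro z hz
  rw [mem_cl] at hz
  obtain ⟨n, hn, hz⟩ := hz
  have key : ∀ n, n ∈ (omega : M) → recc (fun Z => clStep S Z) X n ⊆ Z := by
    apply omega_induction (fun n => recc (fun Z => clStep S Z) X n ⊆ Z)
    · rw [recc_zero]; exact h
    · intro n hn ih w hw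
      rw [recc_succ hn, mem_clStep] at hw
      rcases hw with hw | ⟨a, ha, b, hb, hw⟩
      · exact ih w hw
      · exact hZ a (ih a ha) b (ih b hb) w hw
  exact key n hn z hz

theorem ctb_cl (hDC : DC M) (hS : ∀ a b, Ctb (S a b)) {X : M} (hX : Ctb X) : Ctb (cl S X) := by
  have key : ∀ n, n ∈ (omega : M) → Ctb (recc (fun Z => clStep S Z) X n) := by
    apply omega_induction (fun n => Ctb (recc (fun Z => clStep S Z) X n))
    · rw [recc_zero]; exact hX
    · intro n hn ih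
      rw [recc_succ hn]
      unfold clStep
      exact ctb_un ih (ctb_union hDC ih _ fun a _ => ctb_union hDC ih _ fun b _ => hS a b)
  unfold cl
  exact ctb_union hDC ctb_omega _ key

theorem club_cl (hDC : DC M) (hS : ∀ a b, Ctb (S a b)) (H : M) :
    ∃ C, Club C H ∧ ∀ X, X ∈ C → ∃ X', X ⊆ X' ∧ Ctb X' ∧ ClS S X' ∧
      ∀ x, x ∈ X' → x ∈ H → x ∈ X := by
  obtain ⟨C, hC⟩ : ∃ C : M, C = sep (pow H) (fun X => Ctb X ∧ ∀ x, x ∈ cl S X → x ∈ H → x ∈ X) :=
    ⟨_, rfl⟩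
  have memC : ∀ X, X ∈ C ↔ X ⊆ H ∧ Ctb X ∧ ∀ x, x ∈ cl S X → x ∈ H → x ∈ X := by
    intro X
    rw [hC, mem_sep, mem_pow]
  have clmono : ∀ X Y : M, X ⊆ Y → cl S X ⊆ cl S Y := fun X Y h =>
    cl_min S (sub_trans h (sub_cl S Y)) (cl_closed S Y)
  refine ⟨C, ⟨?_, ?_, ?_⟩, ?_⟩
  · intro X hX
    exact ⟨((memC X).1 hX).1, ((memC X).1 hX).2.1⟩
  · intro Y hY hc
    refine ⟨sep (cl S Y) (fun x => x ∈ H), (memC _).2 ⟨?_, ?_, ?_⟩, ?_⟩
    · intro x hx
      rw [mem_sep] at hx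
      exact hx.2
    · refine ctb_sub (ctb_cl S hDC hS hc) ?_
      intro x hx
      rw [mem_sep] at hx
      exact hx.1
    · intro x hx hxH
      rw [mem_sep]
      refine ⟨cl_min S ?_ (cl_closed S Y) x hx, hxH⟩
      intro w hw
      rw [mem_sep] at hw
      exact hw.1
    · intro y hy
      rw [mem_sep]
      exact ⟨sub_cl S Y y hy, hY y hy⟩
  · intro f hf hmono
    obtain ⟨U, hU⟩ : ∃ U : M, U = sUn (img omega (fun n => ap f n)) := ⟨_, rfl⟩
    have memU : ∀ z, z ∈ U ↔ ∃ n, n ∈ (omega : M) ∧ z ∈ ap f n := by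
      intro z
      rw [hU, mem_sUn]
      constructor
      · rintro ⟨w, hw, hz⟩
        rw [mem_img] at hw
        obtain ⟨n, hn, rfl⟩ := hw
        exact ⟨n, hn, hz⟩
      · rintro ⟨n, hn, hz⟩
        exact ⟨_, by rw [mem_img]; exact ⟨n, hn, rfl⟩, hz⟩
    rw [← hU]
    have hfC : ∀ n, n ∈ (omega : M) → ap f n ∈ C := fun n hn => hf.ap_mem hn
    have hmono' : ∀ l, l ∈ (omega : M) → ∀ k, k ∈ (omega : M) → k ⊆ l → ap f k ⊆ ap f l := by
      apply omega_induction (fun l => ∀ k, k ∈ (omega : M) → k ⊆ l → ap f k ⊆ ap f l)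
      · intro k hk hkl
        have : k = emp := eq_emp fun z hz => not_mem_emp z (hkl z hz)
        rw [this]; exact sub_refl _
      · intro l hl ih k hk hkl
        rcases (le_iff hk (succ_mem_omega hl)).1 hkl with h1 | h1
        · rw [lt_succ_iff hk hl] at h1
          exact sub_trans (ih k hk h1) (hmono l hl)
        · rw [h1]; exact sub_refl _
    obtain ⟨V, hV⟩ : ∃ V : M, V = sUn (img omega (fun n => cl S (ap f n))) := ⟨_, rfl⟩
    have memV : ∀ z, z ∈ V ↔ ∃ n, n ∈ (omega : M) ∧ z ∈ cl S (ap f n) := by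
      intro z
      rw [hV, mem_sUn]
      constructor
      · rintro ⟨w, hw, hz⟩
        rw [mem_img] at hw
        obtain ⟨n, hn, rfl⟩ := hw
        exact ⟨n, hn, hz⟩
      · rintro ⟨n, hn, hz⟩
        exact ⟨_, by rw [mem_img]; exact ⟨n, hn, rfl⟩, hz⟩
    have hUV : U ⊆ V := by
      intro z hz
      obtain ⟨n, hn, hz⟩ := (memU z).1 hz
      exact (memV z).2 ⟨n, hn, sub_cl S _ z hz⟩
    have hVcl : ClS S V := by
      intro a ha b hb z hz
      obtain ⟨k, hk, ha⟩ := (memV a).1 ha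
      obtain ⟨l, hl, hb⟩ := (memV b).1 hb
      rcases le_or_lt hk hl with h1 | h1
      · exact (memV z).2 ⟨l, hl, cl_closed S _ a (clmono _ _ (hmono' l hl k hk h1) a ha) b hb z hz⟩
      · exact (memV z).2 ⟨k, hk, cl_closed S _ a ha b
          (clmono _ _ (hmono' k hk l hl (omega_trans hk l h1)) b hb) z hz⟩
    refine (memC U).2 ⟨?_, ?_, ?_⟩
    · intro z hz
      obtain ⟨n, hn, hz⟩ := (memU z).1 hz
      exact ((memC _).1 (hfC n hn)).1 z hz
    · rw [hU]
      exact ctb_union hDC ctb_omega _ fun n hn => ((memC _).1 (hfC n hn)).2.1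
    · intro x hx hxH
      obtain ⟨n, hn, hx⟩ := (memV x).1 (cl_min S hUV hVcl x hx)
      exact (memU x).2 ⟨n, hn, ((memC _).1 (hfC n hn)).2.2 x hx hxH⟩
  · intro X hX
    exact ⟨cl S X, sub_cl S X, ctb_cl S hDC hS ((memC X).1 hX).2.1, cl_closed S X,
      ((memC X).1 hX).2.2⟩

end Pool.Agent.ZFIter.NPA
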