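import Pool.Agent.NPA.AOrd

/-!
# NPA/AOm1: the set of all countable ordinals

Proof. For a countable ordinal `α` with injection `f : α → omega` let `r = {(f β, f γ) : β ∈ γ ∈ α}`,
a subset of `prod omega omega` (for `α = 0, 1` treat separately or take the pair of `r` and the range of `f`).
The ordinal `α` is determined by (range `f`, `r`): an isomorphism between two ordinals is the
identity (induction). So by replacement (`exists_repl` or `img` with an `iota`) on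
`prod (pow omega) (pow (prod omega omega))`
the countable ordinals form a set. `om1` is not countable, since otherwise `om1 ∈ om1`.
-/

universe u

namespace Pool.Agent.ZFIter.NPA

open Pool.Agent.H78.ZF Pool.Agent.ZFIter

variable {M : Type u} [ZFM M] {ι : Type}

/-- `r` is the image of the (reflexive) order of the ordinal `α` under an injection into `omega`. -/
private def OmR (r α : M) : Prop :=
  Ord α ∧ ∃ f, Inj f α omega ∧ ∀ m n, opair m n ∈ r ↔
    ∃ x, x ∈ α ∧ ∃ y, y ∈ α ∧ (x ∈ y ∨ x = y) ∧ m = ap f x ∧ n = ap f y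

private instance : D2 (OmR (M := M)) := by
  have : DR (fun v : Fin 2 → M => OmR (v 0) (v 1)) := by
    unfold OmR
    infer_instance
  infer_instance

private theorem omR_aux {r α α' f f' : M}
    (hf : Inj f α omega) (hf' : Inj f' α' omega)
    (h : ∀ m n, opair m n ∈ r ↔
      ∃ x, x ∈ α ∧ ∃ y, y ∈ α ∧ (x ∈ y ∨ x = y) ∧ m = ap f x ∧ n = ap f y)
    (h' : ∀ m n, opair m n ∈ r ↔
      ∃ x, x ∈ α' ∧ ∃ y, y ∈ α' ∧ (x ∈ y ∨ x = y) ∧ m = ap f' x ∧ n = ap f' y)
    {x y x' : M} (hx : x ∈ α) (hy : y ∈ α) (hyx : y ∈ x) (hx' : x' ∈ α') (e : ap f x = ap f' x') :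
    ∃ y', y' ∈ α' ∧ y' ∈ x' ∧ ap f y = ap f' y' := by
  have h1 : opair (ap f y) (ap f x) ∈ r := (h _ _).2 ⟨y, hy, x, hx, Or.inl hyx, rfl, rfl⟩
  obtain ⟨y1, hy1, x1, hx1, h2, e1, e2⟩ := (h' _ _).1 h1
  have e3 : x1 = x' := hf'.ap_inj hx1 hx' (by rw [← e2, e])
  subst e3
  rcases h2 with h2 | h2
  · exact ⟨y1, hy1, h2, e1⟩
  · exfalso
    subst h2
    have : y = x := hf.ap_inj hy hx (by rw [e1, e])
    rw [this] at hyx
    exact not_mem_self x hyx

private theorem omR_uniq {r α α' : M} (h : OmR r α) (h' : OmR r α') : α ⊆ α' := by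
  obtain ⟨hα, f, hf, hr⟩ := h
  obtain ⟨hα', f', hf', hr'⟩ := h'
  have key : ∀ x, x ∈ α → ∀ x', x' ∈ α' → ap f x = ap f' x' → x = x' := by
    apply mem_induction (fun x => x ∈ α → ∀ x', x' ∈ α' → ap f x = ap f' x' → x = x')
    intro x ih hx x' hx' e
    apply Pool.Agent.H78.ZF.ext
    intro y
    constructor
    · intro hy
      have hyα := hα.trans hy hx
      obtain ⟨y', h1, h2, h3⟩ := omR_aux hf hf' hr hr' hx hyα hy hx' e
      rw [ih y hy hyα y' h1 h3]
      exact h2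
    · intro hy
      have hyα := hα'.trans hy hx'
      obtain ⟨y', h1, h2, h3⟩ := omR_aux hf' hf hr' hr hx' hyα hy hx e.symm
      rw [← ih y' h2 h1 y hyα h3.symm]
      exact h2
  intro x hx
  have h1 : opair (ap f x) (ap f x) ∈ r := (hr _ _).2 ⟨x, hx, x, hx, Or.inr rfl, rfl, rfl⟩
  obtain ⟨x1, hx1, x2, hx2, h2, e1, e2⟩ := (hr' _ _).1 h1
  rw [key x hx x1 hx1 e1]
  exact hx1

theorem exists_om1 : ∃ w : M, ∀ α, α ∈ w ↔ Ord α ∧ Ctb α := by
  obtain ⟨b, hb⟩ := exists_repl (OmR (M := M))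
    (sep (pow (prod omega omega)) (fun r => ∃ α, OmR r α)) (by
      intro r hr
      rw [mem_sep] at hr
      obtain ⟨_, α, hα⟩ := hr
      exact ⟨α, hα, fun β hβ => sub_antisymm (omR_uniq hβ hα) (omR_uniq hα hβ)⟩)
  refine ⟨b, fun α => ?_⟩
  rw [hb]
  constructor
  · rintro ⟨r, _, hα, f, hf, _⟩
    exact ⟨hα, f, hf⟩
  · rintro ⟨hα, f, hf⟩
    have hR : OmR (sep (prod omega omega) (fun p => ∃ x, x ∈ α ∧ ∃ y, y ∈ α ∧ (x ∈ y ∨ x = y) ∧
        p = opair (ap f x) (ap f y))) α := by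
      refine ⟨hα, f, hf, fun m n => ?_⟩
      rw [mem_sep]
      simp only [opair_mem_prod, opair_eq_iff]
      constructor
      · rintro ⟨_, x, hx, y, hy, h1, h2⟩
        exact ⟨x, hx, y, hy, h1, h2⟩
      · rintro ⟨x, hx, y, hy, h1, h2, h3⟩
        refine ⟨⟨?_, ?_⟩, x, hx, y, hy, h1, h2, h3⟩
        · rw [h2]; exact hf.fun.ap_mem hx
        · rw [h3]; exact hf.fun.ap_mem hy
    refine ⟨_, ?_, hR⟩
    rw [mem_sep]
    refine ⟨?_, α, hR⟩
    rw [mem_pow]
    intro p hp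
    rw [mem_sep] at hp
    exact hp.1

/-- The set of all countable ordinals. -/
noncomputable def om1 : M := iota (fun w => ∀ α, α ∈ w ↔ Ord α ∧ Ctb α)

theorem mem_om1 {α : M} : α ∈ (om1 : M) ↔ Ord α ∧ Ctb α := by
  have h : ∃! w : M, ∀ α, α ∈ w ↔ Ord α ∧ Ctb α := by
    obtain ⟨w, hw⟩ := exists_om1 (M := M)
    exact ⟨w, hw, fun z hz => Pool.Agent.H78.ZF.ext fun α => by rw [hw, hz]⟩
  exact iota_spec h α

theorem ord_om1 : Ord (om1 : M) := by
  constructor
  · intro y hy z hz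
    rw [mem_om1] at hy ⊢
    exact ⟨hy.1.mem hz, ctb_sub hy.2 (hy.1.1 z hz)⟩
  · intro y hy
    rw [mem_om1] at hy
    exact hy.1.1

theorem not_ctb_om1 : ¬ Ctb (om1 : M) := by
  intro h
  exact not_mem_self (om1 : M) (mem_om1.2 ⟨ord_om1, h⟩)

end Pool.Agent.ZFIter.NPA
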