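import Pool.Agent.NPA.Defs5

/-!
# NPA/AOrd: ordinals (least elements, suprema)

All proofs are short. `exists_leastO`: apply `foundation` to `sep (succ α) P` (see
`exists_least` in H78/ZF/Omega). `exists_ord_gt`: take `succ (sUn (sep x Ord))`.
-/

universe u

namespace Pool.Agent.ZFIter.NPA

open Pool.Agent.H78.ZF Pool.Agent.ZFIter

variable {M : Type u} [ZFM M] {ι : Type}

theorem ord_emp : Ord (emp : M) :=
  ⟨fun y hy => absurd hy (not_mem_emp y), fun y hy => absurd hy (not_mem_emp y)⟩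

theorem exists_leastO (P : M → Prop) [D1 P] (h : ∃ α, Ord α ∧ P α) :
    ∃ α, Ord α ∧ P α ∧ ∀ β, β ∈ α → ¬ P β := by
  obtain ⟨α, hα, hP⟩ := h
  obtain ⟨y, hy, h⟩ := foundation (sep (succ α) P)
    (ne_emp_iff.2 ⟨α, by rw [mem_sep, mem_succ]; exact ⟨Or.inr rfl, hP⟩⟩)
  rw [mem_sep] at hy
  refine ⟨y, hα.succ.mem hy.1, hy.2, fun β hβ hPβ => h β hβ ?_⟩
  rw [mem_sep]
  exact ⟨hα.succ.trans hβ hy.1, hPβ⟩

theorem leastO_spec (P : M → Prop) [D1 P] (h : ∃ α, Ord α ∧ P α) :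
    Ord (leastO P) ∧ P (leastO P) ∧ ∀ β, β ∈ leastO P → ¬ P β := by
  have : ∃! α, Ord α ∧ P α ∧ ∀ β, β ∈ α → ¬ P β := by
    obtain ⟨α, hα⟩ := exists_leastO P h
    refine ⟨α, hα, fun β hβ => ?_⟩
    rcases ord_trichotomy hβ.1 hα.1 with h1 | h1 | h1
    · exact absurd hβ.2.1 (hα.2.2 β h1)
    · exact h1
    · exact absurd hα.2.1 (hβ.2.2 α h1)
  exact iota_spec this

theorem leastO_le (P : M → Prop) [D1 P] {α : M} (hα : Ord α) (h : P α) : leastO P ⊆ α := by
  have h1 := leastO_spec P ⟨α, hα, h⟩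
  rcases ord_le_or_lt h1.1 hα with h2 | h2
  · exact h2
  · exact absurd h (h1.2.2 α h2)

theorem ord_sub_iff {α β : M} (hα : Ord α) (hβ : Ord β) : α ⊆ β ↔ α ∈ β ∨ α = β := by
  constructor
  · intro h
    rcases ord_trichotomy hα hβ with h1 | h1 | h1
    · exact Or.inl h1
    · exact Or.inr h1
    · exact absurd (h β h1) (not_mem_self β)
  · rintro (h | rfl)
    · exact hβ.1 α h
    · exact sub_refl α

theorem ord_sUn {x : M} (h : ∀ y, y ∈ x → Ord y) : Ord (sUn x) := by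
  constructor
  · intro y hy z hz
    rw [mem_sUn] at hy ⊢
    obtain ⟨w, hw, hy⟩ := hy
    exact ⟨w, hw, (h w hw).1 y hy z hz⟩
  · intro y hy
    rw [mem_sUn] at hy
    obtain ⟨w, hw, hy⟩ := hy
    exact (h w hw).2 y hy

theorem exists_ord_gt (x : M) : ∃ α : M, Ord α ∧ ∀ y, y ∈ x → Ord y → y ∈ α := by
  have h0 : ∀ y, y ∈ sep x (fun y => Ord y) → Ord y := fun y hy => by
    rw [mem_sep] at hy; exact hy.2
  have h1 : Ord (sUn (sep x (fun y => Ord y))) := ord_sUn h0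
  refine ⟨succ (sUn (sep x (fun y => Ord y))), h1.succ, fun y hy hoy => ?_⟩
  have h2 : y ⊆ sUn (sep x (fun y => Ord y)) := by
    intro z hz
    rw [mem_sUn]
    exact ⟨y, by rw [mem_sep]; exact ⟨hy, hoy⟩, hz⟩
  rw [mem_succ]
  exact (ord_sub_iff hoy h1).1 h2

theorem ord_un_cases {α β : M} (hα : Ord α) (hβ : Ord β) :
    (un α β = α ∧ β ⊆ α) ∨ (un α β = β ∧ α ⊆ β) := by
  rcases ord_le_or_lt hα hβ with h | h
  · exact Or.inr ⟨un_eq_of_sub h, h⟩
  · left
    have h' := hα.1 β h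
    refine ⟨ext fun z => ?_, h'⟩
    rw [mem_un]
    exact ⟨fun hz => hz.elim id (h' z), Or.inl⟩

theorem ord_of_trans_sub {x α : M} (hα : Ord α) (hx : Trans x) (h : x ⊆ α) : Ord x :=
  ⟨hx, fun y hy => (hα.mem (h y hy)).1⟩

/-- A definable class of ordinals which is not bounded by an ordinal: the maximum order. -/
theorem maxLt_ord {b c b' c' : M} (hb : Ord b) (hc : Ord c) (hb' : Ord b') (hc' : Ord c') :
    MaxLt (fun x y => x ∈ y) b c b' c' ↔ un b c ∈ un b' c' := by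
  unfold MaxLt
  rw [mem_un]
  rcases ord_un_cases hb hc with ⟨e, h⟩ | ⟨e, h⟩
  · rw [e]
    constructor
    · exact fun h1 => h1.1
    · intro h1
      refine ⟨h1, ?_⟩
      rcases (ord_sub_iff hc hb).1 h with h2 | h2
      · rcases h1 with h1 | h1
        · exact Or.inl (hb'.trans h2 h1)
        · exact Or.inr (hc'.trans h2 h1)
      · rw [h2]; exact h1
  · rw [e]
    constructor
    · exact fun h1 => h1.2
    · intro h1
      refine ⟨?_, h1⟩
      rcases (ord_sub_iff hb hc).1 h with h2 | h2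
      · rcases h1 with h1 | h1
        · exact Or.inl (hb'.trans h2 h1)
        · exact Or.inr (hc'.trans h2 h1)
      · rw [h2]; exact h1

end Pool.Agent.ZFIter.NPA
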