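import Pool.Agent.NPA.BZF

/-!
# NPA/BAbs1: absoluteness of the basic notions between `M` and an inner model `K`

`x : Sub K` is a pair `(x.1, _)`; membership in `Sub K` is membership in `M` of the first components.
Everything follows from transitivity of `K`: two sets of `M` are equal iff they have the same elements
(all of which are in `K` for sets in `K`).
-/

universe u

namespace Pool.Agent.ZFIter.NPA

open Pool.Agent.H78.ZF Pool.Agent.ZFIter

variable {M : Type u} [ZFM M] {ι : Type}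

section
variable {K : M → Prop} [hK : Inner K]

theorem sub_mem {x y : Sub K} : x ∈ y ↔ x.1 ∈ y.1 := Iff.rfl

theorem sub_inj {x y : Sub K} (h : x.1 = y.1) : x = y := Subtype.ext h

/-- elements of elements of `K` are in `K` -/
theorem sub_of_mem {x : M} {y : Sub K} (h : x ∈ y.1) : K x := Inner.trans _ _ y.2 h

private def sk (x : M) (h : K x) : Sub K := ⟨x, h⟩

private theorem mv {y : Sub K} {z : M} : z ∈ y.1 ↔ ∃ h : K z, (sk z (h)) ∈ y :=
  ⟨fun h => ⟨sub_of_mem h, h⟩, fun ⟨_, h⟩ => h⟩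

private theorem vmem {x y : Sub K} : x.1 ∈ y.1 ↔ x ∈ y := Iff.rfl

private theorem veq {x y : Sub K} : x = y ↔ x.1 = y.1 := ⟨fun h => by rw [h], sub_inj⟩

private theorem kpair {x y : M} (h : K (opair x y)) : K x ∧ K y := by
  have h1 : K (upair x y) := Inner.trans _ _ h (by simp [opair])
  exact ⟨Inner.trans _ _ h1 (by simp), Inner.trans _ _ h1 (by simp)⟩

theorem abs_sub {x y : Sub K} : x ⊆ y ↔ x.1 ⊆ y.1 := by
  constructor
  · intro h z hz
    exact h (sk z (sub_of_mem hz)) hz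
  · intro h z hz
    exact h z.1 hz

@[simp] theorem abs_emp : (emp : Sub K).1 = (emp : M) := by
  refine eq_emp fun z hz => ?_
  obtain ⟨_, h⟩ := mv.1 hz
  exact not_mem_emp _ h

@[simp] theorem abs_upair (x y : Sub K) : (upair x y).1 = upair x.1 y.1 := by
  refine ext fun z => ?_
  rw [mv, mem_upair]
  constructor
  · rintro ⟨h, hz⟩
    rw [mem_upair, veq, veq] at hz
    exact hz
  · rintro (rfl | rfl)
    · exact ⟨x.2, (mem_upair _ _ _).2 (Or.inl rfl)⟩
    · exact ⟨y.2, (mem_upair _ _ _).2 (Or.inr rfl)⟩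

@[simp] theorem abs_sing (x : Sub K) : (sing x).1 = sing x.1 := abs_upair x x

@[simp] theorem abs_opair (x y : Sub K) : (opair x y).1 = opair x.1 y.1 := by
  unfold opair
  rw [abs_upair, abs_sing, abs_upair]

private theorem opair_mem {x y f : Sub K} : opair x.1 y.1 ∈ f.1 ↔ opair x y ∈ f := by
  rw [← abs_opair]; rfl

private theorem opair_mem' {x y : M} {f : Sub K} (h : opair x y ∈ f.1) :
    ∃ (hx : K x) (hy : K y), opair (sk x hx) (sk y hy) ∈ f := by
  obtain ⟨hx, hy⟩ := kpair (sub_of_mem h)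
  exact ⟨hx, hy, opair_mem.1 h⟩

@[simp] theorem abs_sUn (x : Sub K) : (sUn x).1 = sUn x.1 := by
  refine ext fun z => ?_
  rw [mv, mem_sUn]
  constructor
  · rintro ⟨h, hz⟩
    rw [mem_sUn] at hz
    obtain ⟨y, hy, hz⟩ := hz
    exact ⟨y.1, hy, hz⟩
  · rintro ⟨y, hy, hz⟩
    have hKy : K y := sub_of_mem hy
    have hKz : K z := Inner.trans _ _ hKy hz
    exact ⟨hKz, (mem_sUn _ _).2 ⟨(sk y hKy), hy, hz⟩⟩

@[simp] theorem abs_un (x y : Sub K) : (un x y).1 = un x.1 y.1 := by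
  unfold un
  rw [abs_sUn, abs_upair]

@[simp] theorem abs_ins (x y : Sub K) : (ins x y).1 = ins x.1 y.1 := by
  unfold ins
  rw [abs_un, abs_sing]

@[simp] theorem abs_succ (x : Sub K) : (succ x).1 = succ x.1 := abs_ins x x

@[simp] theorem abs_omega : (omega : Sub K).1 = (omega : M) := by
  have hK : K (omega : M) := Inner.ord _ ord_omega
  have h1 : Inductive (sk omega (hK)) := by
    constructor
    · rw [← vmem, abs_emp]
      exact emp_mem_omega
    · intro y hy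
      rw [← vmem, abs_succ]
      exact succ_mem_omega hy
  have h2 : Inductive (omega : Sub K).1 := by
    constructor
    · rw [← abs_emp (K := K)]
      exact emp_mem_omega (M := Sub K)
    · intro y hy
      have hKy : K y := sub_of_mem hy
      have h3 := succ_mem_omega (M := Sub K) (n := (sk y hKy)) hy
      rw [← vmem, abs_succ] at h3
      exact h3
  refine ext fun z => ⟨fun hz => ?_, fun hz => ?_⟩
  · exact (mem_omega (M := Sub K) (n := sk z (sub_of_mem hz))).1 hz _ h1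
  · exact mem_omega.1 hz _ h2

@[simp] theorem abs_num (k : ℕ) : (num k : Sub K).1 = (num k : M) := by
  induction k with
  | zero => exact abs_emp
  | succ k ih =>
    change (succ (num k) : Sub K).1 = succ (num k)
    rw [abs_succ, ih]

@[simp] theorem abs_prod (x y : Sub K) : (prod x y).1 = prod x.1 y.1 := by
  refine ext fun z => ?_
  rw [mv, mem_prod]
  constructor
  · rintro ⟨h, hz⟩
    rw [mem_prod] at hz
    obtain ⟨a, ha, b, hb, e⟩ := hz
    rw [veq, abs_opair] at e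
    exact ⟨a.1, ha, b.1, hb, e⟩
  · rintro ⟨a, ha, b, hb, e⟩
    have h1 : z = (opair (sk a (sub_of_mem ha)) (sk b (sub_of_mem hb))).1 := by
      rw [abs_opair]; exact e
    refine ⟨by rw [h1]; exact Subtype.property _, ?_⟩
    rw [mem_prod]
    exact ⟨(sk a (sub_of_mem ha)), ha, (sk b (sub_of_mem hb)), hb, sub_inj h1⟩

theorem mem_abs_sep {a : Sub K} {P : Sub K → Prop} [D1 P] {x : M} :
    x ∈ (sep a P).1 ↔ x ∈ a.1 ∧ ∃ h : K x, P ⟨x, h⟩ := by
  rw [mv]
  constructor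
  · rintro ⟨h, hx⟩
    rw [mem_sep] at hx
    exact ⟨hx.1, h, hx.2⟩
  · rintro ⟨hx, h, hP⟩
    exact ⟨h, (mem_sep _ _ _).2 ⟨hx, hP⟩⟩

theorem mem_abs_img {a : Sub K} {F : Sub K → Sub K} [F1 F] {y : M} :
    y ∈ (img a F).1 ↔ ∃ x, x ∈ a ∧ y = (F x).1 := by
  rw [mv]
  constructor
  · rintro ⟨h, hy⟩
    rw [mem_img] at hy
    obtain ⟨x, hx, e⟩ := hy
    rw [veq] at e
    exact ⟨x, hx, e⟩
  · rintro ⟨x, hx, rfl⟩
    exact ⟨(F x).2, (mem_img _ _ _).2 ⟨x, hx, rfl⟩⟩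

/-- uniqueness is absolute when the witnesses are in `K` -/
theorem abs_iota {P : Sub K → Prop} {Q : M → Prop} (h : ∀ x, Q x ↔ ∃ h : K x, P ⟨x, h⟩) :
    (iota P).1 = iota Q := by
  by_cases hu : ∃! x, P x
  · symm
    have hs : P (iota P) := iota_spec hu
    refine iota_eq ((h _).2 ⟨(iota P).2, hs⟩) fun x hx => ?_
    obtain ⟨hK, hP⟩ := (h x).1 hx
    exact veq.1 (hu.unique hP (iota_spec hu))
  · have hu' : ¬ ∃! x, Q x := by
      rintro ⟨x, hx, hx'⟩
      obtain ⟨hK, hP⟩ := (h x).1 hx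
      exact hu ⟨sk x hK, hP, fun y hy => sub_inj (hx' y.1 ((h _).2 ⟨y.2, hy⟩))⟩
    rw [iota_neg hu, iota_neg hu', abs_emp]

@[simp] theorem abs_ap (f x : Sub K) : (ap f x).1 = ap f.1 x.1 := by
  unfold ap
  refine abs_iota fun y => ?_
  constructor
  · intro h
    obtain ⟨_, hy, h⟩ := opair_mem' h
    exact ⟨hy, h⟩
  · rintro ⟨hy, h⟩
    exact opair_mem.2 h

theorem abs_Trans {x : Sub K} : Trans x ↔ Trans x.1 := by
  constructor
  · intro h y hy
    exact abs_sub.1 (h (sk y (sub_of_mem hy)) hy)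
  · intro h y hy
    exact abs_sub.2 (h y.1 hy)

theorem abs_Ord {x : Sub K} : Ord x ↔ Ord x.1 := by
  constructor
  · intro h
    exact ⟨abs_Trans.1 h.1, fun y hy => abs_Trans.1 (h.2 (sk y (sub_of_mem hy)) hy)⟩
  · intro h
    exact ⟨abs_Trans.2 h.1, fun y hy => abs_Trans.2 (h.2 y.1 hy)⟩

private theorem abs_exU {f x : Sub K} : (∃! y, opair x y ∈ f) ↔ ∃! y, opair x.1 y ∈ f.1 := by
  constructor
  · rintro ⟨y, hy, hu⟩
    refine ⟨y.1, opair_mem.2 hy, fun z hz => ?_⟩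
    obtain ⟨_, hK, h⟩ := opair_mem' hz
    exact veq.1 (hu _ h)
  · rintro ⟨y, hy, hu⟩
    obtain ⟨_, hK, h⟩ := opair_mem' hy
    exact ⟨sk y hK, h, fun z hz => sub_inj (hu _ (opair_mem.2 hz))⟩

theorem abs_Fun {f a b : Sub K} : Fun f a b ↔ Fun f.1 a.1 b.1 := by
  constructor
  · rintro ⟨h1, h2⟩
    refine ⟨fun p hp => ?_, fun x hx => abs_exU.1 (h2 (sk x (sub_of_mem hx)) hx)⟩
    obtain ⟨x, hx, y, hy, e⟩ := h1 (sk p (sub_of_mem hp)) hp
    rw [veq, abs_opair] at e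
    exact ⟨x.1, hx, y.1, hy, e⟩
  · rintro ⟨h1, h2⟩
    refine ⟨fun p hp => ?_, fun x hx => abs_exU.2 (h2 x.1 hx)⟩
    obtain ⟨x, hx, y, hy, e⟩ := h1 p.1 hp
    exact ⟨(sk x (sub_of_mem hx)), hx, (sk y (sub_of_mem hy)), hy, sub_inj (by rw [abs_opair]; exact e)⟩

theorem abs_Inj {f a b : Sub K} : Inj f a b ↔ Inj f.1 a.1 b.1 := by
  constructor
  · rintro ⟨h1, h2⟩
    refine ⟨abs_Fun.1 h1, fun x x' y hx hx' => ?_⟩
    obtain ⟨h3, h4, h5⟩ := opair_mem' hx
    obtain ⟨h6, _, h7⟩ := opair_mem' hx'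
    exact veq.1 (h2 (sk x h3) (sk x' h6) (sk y h4) h5 h7)
  · rintro ⟨h1, h2⟩
    exact ⟨abs_Fun.2 h1, fun x x' y hx hx' =>
      sub_inj (h2 x.1 x'.1 y.1 (opair_mem.2 hx) (opair_mem.2 hx'))⟩

theorem abs_IsSeq {f a : Sub K} : IsSeq f a ↔ IsSeq f.1 a.1 := by
  constructor
  · rintro ⟨h1, h2⟩
    refine ⟨fun p hp => ?_, fun x hx => abs_exU.1 (h2 (sk x (sub_of_mem hx)) hx)⟩
    obtain ⟨x, hx, y, e⟩ := h1 (sk p (sub_of_mem hp)) hp
    rw [veq, abs_opair] at e
    exact ⟨x.1, hx, y.1, e⟩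
  · rintro ⟨h1, h2⟩
    refine ⟨fun p hp => ?_, fun x hx => abs_exU.2 (h2 x.1 hx)⟩
    obtain ⟨x, hx, y, e⟩ := h1 p.1 hp
    have hK : K (opair x y) := by rw [← e]; exact p.2
    exact ⟨(sk x (sub_of_mem hx)), hx, (sk y (kpair hK).2), sub_inj (by rw [abs_opair]; exact e)⟩

@[simp] theorem abs_res (f a : Sub K) : (res f a).1 = res f.1 a.1 := by
  refine ext fun z => ?_
  rw [mv, mem_res]
  constructor
  · rintro ⟨h, hz⟩
    rw [mem_res] at hz
    obtain ⟨hz, x, hx, y, e⟩ := hz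
    rw [veq, abs_opair] at e
    exact ⟨hz, x.1, hx, y.1, e⟩
  · rintro ⟨hz, x, hx, y, e⟩
    have hKz : K z := sub_of_mem hz
    have hK : K (opair x y) := by rw [← e]; exact hKz
    refine ⟨hKz, ?_⟩
    rw [mem_res]
    exact ⟨hz, (sk x (sub_of_mem hx)), hx, (sk y (kpair hK).2), sub_inj (by rw [abs_opair]; exact e)⟩

/-- for class functions which agree on `K` -/
theorem abs_img' (a : Sub K) (F : Sub K → Sub K) [F1 F] (G : M → M) [F1 G]
    (h : ∀ x, x ∈ a → (F x).1 = G x.1) : (img a F).1 = img a.1 G := by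
  refine ext fun y => ?_
  rw [mem_abs_img, mem_img]
  constructor
  · rintro ⟨x, hx, e⟩
    exact ⟨x.1, hx, by rw [e, h x hx]⟩
  · rintro ⟨x, hx, e⟩
    exact ⟨(sk x (sub_of_mem hx)), hx, by rw [e, h (sk x (sub_of_mem hx)) hx]; rfl⟩

theorem abs_mkf (a b : Sub K) (F : Sub K → Sub K) [F1 F] (G : M → M) [F1 G]
    (h : ∀ x, x ∈ a → (F x).1 = G x.1) : (mkf a b F).1 = mkf a.1 b.1 G := by
  refine ext fun z => ?_
  unfold mkf
  rw [mem_abs_sep, mem_sep, abs_prod]
  constructor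
  · rintro ⟨hz, hK, x, hx, e⟩
    have e' : z = (opair x (F x)).1 := congrArg Subtype.val e
    rw [abs_opair, h x hx] at e'
    exact ⟨hz, x.1, hx, e'⟩
  · rintro ⟨hz, x, hx, e⟩
    have hK : K z := by
      rw [← abs_prod] at hz
      exact sub_of_mem hz
    refine ⟨hz, hK, (sk x (sub_of_mem hx)), hx, sub_inj ?_⟩
    rw [abs_opair, h (sk x (sub_of_mem hx)) hx]
    exact e

theorem abs_Ctb {x : Sub K} (h : Ctb x) : Ctb x.1 := by
  obtain ⟨f, hf⟩ := h
  refine ⟨f.1, ?_⟩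
  have h1 := abs_Inj.1 hf
  rw [abs_omega] at h1
  exact h1

end

end Pool.Agent.ZFIter.NPA
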