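import Pool.Agent.NPA.BAbs2

/-!
# NPA/BAbs3: absoluteness of the constructible hierarchy

Each recursion step is absolute (quantifiers over ordinals: `Inner.ord`; quantifiers over parts of
elements: transitivity; `iota`: `abs_iota`), then `abs_erec`. `abs_RL`: for `A ∈ K` the class
`L[A]` of `M` is included in `K` (`hF A.1 α = (hF A ⟨α, _⟩).1`).
-/

universe u

namespace Pool.Agent.ZFIter.NPA

open Pool.Agent.H78.ZF Pool.Agent.ZFIter

variable {M : Type u} [ZFM M] {ι : Type}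

section
variable {K : M → Prop} [hK : Inner K]

private theorem sub_eq_iff {x y : Sub K} : x = y ↔ x.1 = y.1 := ⟨fun h => by rw [h], sub_inj⟩

/-- an element of the inner model -/
private def mkS (x : M) (h : K x) : Sub K := ⟨x, h⟩

omit [ZFM M] hK in
private theorem mkS_1 (x : M) (h : K x) : (mkS x h).1 = x := rfl

private theorem K_opair {x y : M} (hx : K x) (hy : K y) : K (opair x y) := by
  have h := (opair (mkS x hx) (mkS y hy)).2
  rw [abs_opair] at h
  exact h

private theorem K_of_opair {x y : M} (h : K (opair x y)) : K x ∧ K y := by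
  have h1 : upair x y ∈ opair x y := by unfold opair; simp
  have h2 : K (upair x y) := Inner.trans _ _ h h1
  exact ⟨Inner.trans _ _ h2 (by simp), Inner.trans _ _ h2 (by simp)⟩

omit [ZFM M] hK in
private theorem ex_abs {P : Sub K → Prop} {Q : M → Prop} (h : ∀ x : Sub K, P x ↔ Q x.1)
    (hQ : ∀ x, Q x → K x) : (∃ x, P x) ↔ ∃ x, Q x := by
  constructor
  · rintro ⟨x, hx⟩
    exact ⟨x.1, (h x).1 hx⟩
  · rintro ⟨x, hx⟩
    exact ⟨⟨x, hQ x hx⟩, (h ⟨x, hQ x hx⟩).2 hx⟩

private theorem abs_tri (i b c : Sub K) : (tri i b c).1 = tri i.1 b.1 c.1 := by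
  unfold tri
  rw [abs_opair, abs_opair]

private theorem K_of_tri {i b c : M} (h : K (tri i b c)) : K i ∧ K b ∧ K c := by
  unfold tri at h
  have h1 := K_of_opair h
  have h2 := K_of_opair h1.2
  exact ⟨h1.1, h2.1, h2.2⟩

private theorem K_num {i : M} {n : ℕ} (h : i ∈ (num n : M)) : K i := by
  have h1 : K (num n : M) := by
    have := (num n : Sub K).2
    rw [abs_num] at this
    exact this
  exact Inner.trans _ _ h1 h

theorem abs_TLt {i b c i' b' c' : Sub K} :
    TLt i b c i' b' c' ↔ TLt i.1 b.1 c.1 i'.1 b'.1 c'.1 := by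
  unfold TLt TL MaxLt
  simp only [sub_mem, sub_eq_iff]

private theorem abs_decStep (α g : Sub K) : (decStep α g).1 = decStep α.1 g.1 := by
  unfold decStep
  apply abs_iota
  intro t
  constructor
  · rintro ⟨i, b, c, rfl, hi, hb, hc, h⟩
    have hKi : K i := K_num hi
    have hKb : K b := Inner.ord b hb
    have hKc : K c := Inner.ord c hc
    refine ⟨K_opair hKi (K_opair hKb hKc), mkS i hKi, mkS b hKb, mkS c hKc, ?_, ?_, ?_, ?_, ?_⟩
    · apply sub_inj
      rw [abs_tri]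
      rfl
    · rw [sub_mem, abs_num]
      exact hi
    · exact abs_Ord.2 hb
    · exact abs_Ord.2 hc
    · intro i' b' c' hi' hb' hc'
      rw [sub_mem, abs_num] at hi'
      rw [abs_Ord] at hb' hc'
      rw [abs_TLt, mkS_1, mkS_1, mkS_1, h i'.1 b'.1 c'.1 hi' hb' hc']
      symm
      apply ex_abs
      · intro β
        rw [sub_mem, sub_eq_iff, abs_ap, abs_tri]
      · rintro β ⟨hβ, _⟩
        exact sub_of_mem hβ
  · rintro ⟨hKt, i, b, c, e, hi, hb, hc, h⟩
    replace e : mkS t hKt = tri i b c := e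
    rw [sub_eq_iff, abs_tri] at e
    rw [sub_mem, abs_num] at hi
    rw [abs_Ord] at hb hc
    refine ⟨i.1, b.1, c.1, e, hi, hb, hc, ?_⟩
    intro i' b' c' hi' hb' hc'
    have hKi : K i' := K_num hi'
    have hKb : K b' := Inner.ord b' hb'
    have hKc : K c' := Inner.ord c' hc'
    have h1 := h (mkS i' hKi) (mkS b' hKb) (mkS c' hKc) (by rw [sub_mem, abs_num]; exact hi')
      (abs_Ord.2 hb') (abs_Ord.2 hc')
    rw [abs_TLt] at h1
    refine Iff.trans h1 ?_
    apply ex_abs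
    · intro β
      rw [sub_mem, sub_eq_iff, abs_ap, abs_tri]
      exact Iff.rfl
    · rintro β ⟨hβ, _⟩
      exact sub_of_mem hβ

@[simp] theorem abs_dec (α : Sub K) : (dec α).1 = dec α.1 := by
  unfold dec
  exact abs_erec _ _ (fun x g => abs_decStep x g) α

@[simp] theorem abs_dI (α : Sub K) : (dI α).1 = dI α.1 := by
  unfold dI
  apply abs_iota
  intro t
  constructor
  · rintro ⟨b, c, e⟩
    have h := (dec α).2
    rw [abs_dec, e] at h
    obtain ⟨h1, h2, h3⟩ := K_of_tri h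
    refine ⟨h1, mkS b h2, mkS c h3, ?_⟩
    show dec α = tri (mkS t h1) (mkS b h2) (mkS c h3)
    rw [sub_eq_iff, abs_dec, abs_tri]
    exact e
  · rintro ⟨h, b, c, e⟩
    replace e : dec α = tri (mkS t h) b c := e
    rw [sub_eq_iff, abs_dec, abs_tri] at e
    exact ⟨b.1, c.1, e⟩

@[simp] theorem abs_dB (α : Sub K) : (dB α).1 = dB α.1 := by
  unfold dB
  apply abs_iota
  intro t
  constructor
  · rintro ⟨b, c, e⟩
    have h := (dec α).2
    rw [abs_dec, e] at h
    obtain ⟨h1, h2, h3⟩ := K_of_tri h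
    refine ⟨h2, mkS b h1, mkS c h3, ?_⟩
    show dec α = tri (mkS b h1) (mkS t h2) (mkS c h3)
    rw [sub_eq_iff, abs_dec, abs_tri]
    exact e
  · rintro ⟨h, b, c, e⟩
    replace e : dec α = tri b (mkS t h) c := e
    rw [sub_eq_iff, abs_dec, abs_tri] at e
    exact ⟨b.1, c.1, e⟩

@[simp] theorem abs_dC (α : Sub K) : (dC α).1 = dC α.1 := by
  unfold dC
  apply abs_iota
  intro t
  constructor
  · rintro ⟨b, c, e⟩
    have h := (dec α).2
    rw [abs_dec, e] at h
    obtain ⟨h1, h2, h3⟩ := K_of_tri h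
    refine ⟨h3, mkS b h1, mkS c h2, ?_⟩
    show dec α = tri (mkS b h1) (mkS c h2) (mkS t h3)
    rw [sub_eq_iff, abs_dec, abs_tri]
    exact e
  · rintro ⟨h, b, c, e⟩
    replace e : dec α = tri b c (mkS t h) := e
    rw [sub_eq_iff, abs_dec, abs_tri] at e
    exact ⟨b.1, c.1, e⟩

theorem abs_OpMem {A α i X Y w : Sub K} :
    OpMem A α i X Y w ↔ OpMem A.1 α.1 i.1 X.1 Y.1 w.1 := by
  -- parts of elements of `K`
  have hw : ∀ u v, w.1 = opair u v → K u ∧ K v := fun u v e => K_of_opair (e ▸ w.2)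
  have hY : ∀ u v, opair u v ∈ Y.1 → K u ∧ K v := fun u v e => K_of_opair (sub_of_mem e)
  have e3 : (∃ u v, w = opair u v ∧ u ∈ v) ↔ ∃ u v, w.1 = opair u v ∧ u ∈ v := by
    refine ex_abs (fun u => ex_abs (fun v => ?_) ?_) ?_
    · rw [sub_eq_iff, abs_opair, sub_mem]
    · rintro v ⟨e, _⟩
      exact (hw _ _ e).2
    · rintro u ⟨v, e, _⟩
      exact (hw _ _ e).1
  have e4 : (∃ u v, w = opair u v ∧ v ∈ Y) ↔ ∃ u v, w.1 = opair u v ∧ v ∈ Y.1 := by
    refine ex_abs (fun u => ex_abs (fun v => ?_) ?_) ?_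
    · rw [sub_eq_iff, abs_opair, sub_mem]
    · rintro v ⟨e, _⟩
      exact (hw _ _ e).2
    · rintro u ⟨v, e, _⟩
      exact (hw _ _ e).1
  have e5 : (∃ u v, w = opair u v ∧ opair v u ∈ Y) ↔ ∃ u v, w.1 = opair u v ∧ opair v u ∈ Y.1 := by
    refine ex_abs (fun u => ex_abs (fun v => ?_) ?_) ?_
    · rw [sub_eq_iff, abs_opair, sub_mem, abs_opair]
    · rintro v ⟨e, _⟩
      exact (hw _ _ e).2
    · rintro u ⟨v, e, _⟩
      exact (hw _ _ e).1
  have e6 : (∃ v, opair w v ∈ Y) ↔ ∃ v, opair w.1 v ∈ Y.1 := by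
    refine ex_abs (fun v => ?_) ?_
    · rw [sub_mem, abs_opair]
    · intro v e
      exact (hY _ _ e).2
  have e7 : (∃ t y x, w = opair (opair t y) x ∧ opair y x ∈ Y) ↔
      ∃ t y x, w.1 = opair (opair t y) x ∧ opair y x ∈ Y.1 := by
    refine ex_abs (fun t => ex_abs (fun y => ex_abs (fun x => ?_) ?_) ?_) ?_
    · rw [sub_eq_iff, abs_opair, abs_opair, sub_mem, abs_opair]
    · rintro x ⟨e, _⟩
      exact (hw _ _ e).2
    · rintro y ⟨x, e, _⟩
      exact (K_of_opair (hw _ _ e).1).2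
    · rintro t ⟨y, x, e, _⟩
      exact (K_of_opair (hw _ _ e).1).1
  have e8 : (∃ t y x, w = opair (opair t y) x ∧ opair t x ∈ Y) ↔
      ∃ t y x, w.1 = opair (opair t y) x ∧ opair t x ∈ Y.1 := by
    refine ex_abs (fun t => ex_abs (fun y => ex_abs (fun x => ?_) ?_) ?_) ?_
    · rw [sub_eq_iff, abs_opair, abs_opair, sub_mem, abs_opair]
    · rintro x ⟨e, _⟩
      exact (hw _ _ e).2
    · rintro y ⟨x, e, _⟩
      exact (K_of_opair (hw _ _ e).1).2
    · rintro t ⟨y, x, e, _⟩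
      exact (K_of_opair (hw _ _ e).1).1
  have e9 : (∃ d k, d ∈ α ∧ k ∈ (omega : Sub K) ∧ w = opair d k) ↔
      ∃ d k, d ∈ α.1 ∧ k ∈ (omega : M) ∧ w.1 = opair d k := by
    refine ex_abs (fun d => ex_abs (fun k => ?_) ?_) ?_
    · rw [sub_eq_iff, abs_opair, sub_mem, sub_mem, abs_omega]
    · rintro k ⟨_, _, e⟩
      exact (hw _ _ e).2
    · rintro d ⟨k, _, _, e⟩
      exact (hw _ _ e).1
  have e10 : (∃ u, w = opair u u) ↔ ∃ u, w.1 = opair u u := by
    refine ex_abs (fun u => ?_) ?_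
    · rw [sub_eq_iff, abs_opair]
    · rintro u e
      exact (hw _ _ e).1
  unfold OpMem
  rw [e3, e4, e5, e6, e7, e8, e9, e10]
  simp only [sub_eq_iff, sub_mem, abs_num]

private theorem abs_hStep (A α g : Sub K) : (hStep A α g).1 = hStep A.1 α.1 g.1 := by
  unfold hStep
  apply Pool.Agent.H78.ZF.ext
  intro w
  rw [mem_abs_sep, mem_sep, abs_img' α (fun β => ap g β) (fun β => ap g.1 β)
    (fun β _ => abs_ap g β)]
  refine and_congr_right fun hw => ?_
  have hKw : K w := by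
    rw [mem_img] at hw
    obtain ⟨x, hx, e⟩ := hw
    have h := (ap g (mkS x (sub_of_mem hx))).2
    rw [abs_ap] at h
    rw [e]
    exact h
  constructor
  · rintro ⟨h, h1⟩
    replace h1 : OpMem A α (dI α) (ap g (dB α)) (ap g (dC α)) (mkS w h) := h1
    rw [abs_OpMem, abs_dI, abs_ap, abs_ap, abs_dB, abs_dC] at h1
    exact h1
  · intro h1
    refine ⟨hKw, ?_⟩
    show OpMem A α (dI α) (ap g (dB α)) (ap g (dC α)) (mkS w hKw)
    rw [abs_OpMem, abs_dI, abs_ap, abs_ap, abs_dB, abs_dC]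
    exact h1

@[simp] theorem abs_hF (A α : Sub K) : (hF A α).1 = hF A.1 α.1 := by
  unfold hF
  exact abs_erec _ _ (fun x g => abs_hStep A x g) α

theorem abs_InL {A x : Sub K} : InL A x ↔ InL A.1 x.1 := by
  unfold InL
  refine ex_abs (fun α => ?_) ?_
  · rw [abs_Ord, sub_eq_iff, abs_hF]
  · rintro α ⟨hα, _⟩
    exact Inner.ord α hα

theorem inL_in (A : Sub K) {x : M} (h : InL A.1 x) : K x := by
  obtain ⟨α, hα, rfl⟩ := h
  have h1 := (hF A (mkS α (Inner.ord α hα))).2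
  rw [abs_hF] at h1
  exact h1

@[simp] theorem abs_RL (A : Sub K) : (RL A).1 = RL A.1 := by
  unfold RL
  apply Pool.Agent.H78.ZF.ext
  intro x
  rw [mem_abs_sep, mem_sep]
  constructor
  · rintro ⟨h1, h2, h3⟩
    exact ⟨abs_RS.1 (show mkS x h2 ∈ (RS : Sub K) from h1), abs_InL.1 h3⟩
  · rintro ⟨h1, h2⟩
    have hKx : K x := inL_in A h2
    exact ⟨abs_RS.2 (show (mkS x hKx).1 ∈ (RS : M) from h1), hKx, abs_InL.2 h2⟩

theorem abs_CS {A δ : Sub K} : CS A δ ↔ CS A.1 δ.1 := by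
  unfold CS
  rw [abs_sub, abs_hF, abs_omega]
  refine and_congr_right fun _ => ?_
  constructor
  · intro h β hβ e
    exact h (mkS β (sub_of_mem hβ)) hβ (by rw [sub_eq_iff, abs_hF, abs_hF]; exact e)
  · intro h β hβ e
    refine h β.1 hβ ?_
    rw [sub_eq_iff, abs_hF, abs_hF] at e
    exact e

end

end Pool.Agent.ZFIter.NPA
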