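import Pool.Agent.NPA.BTri

/-!
# NPA/BDec: the enumeration of triples

`dec α` is the unique valid triple `t` whose predecessors are exactly `dec β`, `β ∈ α` (`erec_eq`,
`ap_mkseq`). Existence by induction on `α`: the class of valid triples not of the form `dec β`,
`β ∈ α`, is nonempty (the values `dec β` form a set `img α dec`, so take `(0, γ, γ)` for an ordinal `γ` not in
the transitive closure of it, `exists_ord_gt`); its least element `t` (`tlt_min`) works: a triple below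
`t` is some `dec β`, and
each `dec β` is below `t` since otherwise `t` would be a predecessor of `dec β`, hence some `dec β'`.
`dec_surj`: otherwise all `dec α` would be predecessors of the triple, i.e. in the set
`num 11 × (μ+1) × (μ+1)`, `μ = un b c`; an injection of all ordinals into a set is impossible
(replacement and `exists_ord_gt`).
`dec_bound`: the triples `(0, ν, ν)`, `ν < μ = un (dB α) (dC α)` are below `dec α`, which gives an
order-preserving map of `μ` into `α`, so `μ ⊆ α`; if `dI α ≠ 0` then also `(0, dB α, dC α)` is below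
`dec α` and above all the `(0, ν, ν)`, so `μ ∈ α`.
`dec_uniq`: induction on `α` with `tlt_tri`.
-/

universe u

namespace Pool.Agent.ZFIter.NPA

open Pool.Agent.H78.ZF Pool.Agent.ZFIter

variable {M : Type u} [ZFM M] {ι : Type}

/-! ### Private lemmas -/

private theorem z11 : (emp : M) ∈ (num 11 : M) := mem_num.2 ⟨0, by norm_num, rfl⟩

private theorem tri_zero {ν : M} (h : Ord ν) : Tri emp ν ν := ⟨z11, h, h⟩

private theorem un_self (ν : M) : un ν ν = ν := ext fun z => by rw [mem_un]; exact or_self_iff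

/-- the defining property of `dec α` -/
private theorem dec_char (α : M) : dec α = iota (fun t => ∃ i b c, t = tri i b c ∧
    i ∈ (num 11 : M) ∧ Ord b ∧ Ord c ∧ ∀ i' b' c', i' ∈ (num 11 : M) → Ord b' → Ord c' →
      (TLt i' b' c' i b c ↔ ∃ β, β ∈ α ∧ dec β = tri i' b' c')) := by
  have h1 : dec α = decStep α (mkseq α (fun β => dec β)) := erec_eq (G := fun α g => decStep α g) α
  rw [h1]
  unfold decStep
  congr 1
  funext t
  have h2 : ∀ i' b' c' : M, (∃ β, β ∈ α ∧ ap (mkseq α (fun β => dec β)) β = tri i' b' c') ↔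
      ∃ β, β ∈ α ∧ dec β = tri i' b' c' := by
    intro i' b' c'
    constructor
    · rintro ⟨β, hβ, h⟩
      rw [ap_mkseq hβ] at h
      exact ⟨β, hβ, h⟩
    · rintro ⟨β, hβ, h⟩
      exact ⟨β, hβ, by rw [ap_mkseq hβ]; exact h⟩
  simp only [h2]

/-- `dec α` is the triple `(i, b, c)`, and its predecessors are exactly the `dec β`, `β ∈ α`. -/
private def DP (α i b c : M) : Prop :=
  dec α = tri i b c ∧ i ∈ (num 11 : M) ∧ Ord b ∧ Ord c ∧
    ∀ i' b' c', i' ∈ (num 11 : M) → Ord b' → Ord c' →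
      (TLt i' b' c' i b c ↔ ∃ β, β ∈ α ∧ dec β = tri i' b' c')

private theorem exists_DP : ∀ α : M, Ord α → ∃ i b c, DP α i b c := by
  unfold DP
  apply ord_induction (fun α => ∃ i b c, dec α = tri i b c ∧ i ∈ (num 11 : M) ∧ Ord b ∧ Ord c ∧
    ∀ i' b' c', i' ∈ (num 11 : M) → Ord b' → Ord c' →
      (TLt i' b' c' i b c ↔ ∃ β, β ∈ α ∧ dec β = tri i' b' c'))
  intro α hα ih
  have hne : ∃ i b c, Tri i b c ∧ ∀ β, β ∈ α → dec β ≠ tri i b c := by
    obtain ⟨γ, hγ, hg⟩ := exists_ord_gt (img α (fun β => dB β))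
    refine ⟨emp, γ, γ, tri_zero hγ, fun β hβ h => ?_⟩
    have h1 : dB β = γ := by
      unfold dB
      refine iota_eq ⟨emp, γ, h⟩ ?_
      rintro b ⟨i, c, hb⟩
      rw [h] at hb
      exact (tri_inj hb).2.1.symm
    have h2 : γ ∈ γ := hg γ (by rw [mem_img]; exact ⟨β, hβ, h1.symm⟩) hγ
    exact not_mem_self γ h2
  obtain ⟨i, b, c, ht, hP, hmin⟩ := tlt_min (fun i b c => ∀ β, β ∈ α → dec β ≠ tri i b c) hne
  have hiff : ∀ i' b' c', i' ∈ (num 11 : M) → Ord b' → Ord c' →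
      (TLt i' b' c' i b c ↔ ∃ β, β ∈ α ∧ dec β = tri i' b' c') := by
    intro i' b' c' hi' hb' hc'
    constructor
    · intro hlt
      by_contra hcon
      refine hmin i' b' c' ⟨hi', hb', hc'⟩ ?_ hlt
      intro β hβ h
      exact hcon ⟨β, hβ, h⟩
    · rintro ⟨β, hβ, h⟩
      rcases tlt_tri (⟨hi', hb', hc'⟩ : Tri i' b' c') ht with h1 | ⟨e1, e2, e3⟩ | h1
      · exact h1
      · subst e1 e2 e3
        exact absurd h (hP β hβ)
      · obtain ⟨i2, b2, c2, hd, _, _, _, hpred⟩ := ih β hβ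
        obtain ⟨e1, e2, e3⟩ := tri_inj (hd.symm.trans h)
        subst e1 e2 e3
        obtain ⟨γ, hγ, h2⟩ := (hpred i b c ht.1 ht.2.1 ht.2.2).1 h1
        exact absurd h2 (hP γ (hα.trans hγ hβ))
  refine ⟨i, b, c, ?_, ht.1, ht.2.1, ht.2.2, hiff⟩
  rw [dec_char]
  refine iota_eq ⟨i, b, c, rfl, ht.1, ht.2.1, ht.2.2, hiff⟩ ?_
  rintro t ⟨i2, b2, c2, rfl, hi2, hb2, hc2, hiff2⟩
  have ht2 : Tri i2 b2 c2 := ⟨hi2, hb2, hc2⟩
  rcases tlt_tri ht2 ht with h1 | ⟨e1, e2, e3⟩ | h1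
  · have h2 := (hiff2 i2 b2 c2 hi2 hb2 hc2).2 ((hiff i2 b2 c2 hi2 hb2 hc2).1 h1)
    exact absurd h2 (tlt_irrefl ht2)
  · subst e1 e2 e3
    rfl
  · have h2 := (hiff i b c ht.1 ht.2.1 ht.2.2).2 ((hiff2 i b c ht.1 ht.2.1 ht.2.2).1 h1)
    exact absurd h2 (tlt_irrefl ht)

private theorem DP.comp {α i b c : M} (h : DP α i b c) : dI α = i ∧ dB α = b ∧ dC α = c := by
  obtain ⟨h, -⟩ := h
  refine ⟨?_, ?_, ?_⟩
  · unfold dI
    refine iota_eq ⟨b, c, h⟩ ?_
    rintro i' ⟨b', c', h'⟩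
    exact (tri_inj (h.symm.trans h')).1.symm
  · unfold dB
    refine iota_eq ⟨i, c, h⟩ ?_
    rintro b' ⟨i', c', h'⟩
    exact (tri_inj (h.symm.trans h')).2.1.symm
  · unfold dC
    refine iota_eq ⟨i, b, h⟩ ?_
    rintro c' ⟨i', b', h'⟩
    exact (tri_inj (h.symm.trans h')).2.2.symm

private theorem dp {α : M} (hα : Ord α) : DP α (dI α) (dB α) (dC α) := by
  obtain ⟨i, b, c, h⟩ := exists_DP α hα
  obtain ⟨h1, h2, h3⟩ := h.comp
  rw [h1, h2, h3]
  exact h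

private theorem dec_tri {α : M} (hα : Ord α) : Tri (dI α) (dB α) (dC α) :=
  ⟨(dp hα).2.1, (dp hα).2.2.1, (dp hα).2.2.2.1⟩

private theorem comp_of_dec {β i b c : M} (hβ : Ord β) (h : dec β = tri i b c) :
    dI β = i ∧ dB β = b ∧ dC β = c := tri_inj ((dp hβ).1.symm.trans h)

/-! ### The statements -/

theorem dec_spec {α : M} (hα : Ord α) :
    dec α = tri (dI α) (dB α) (dC α) ∧ Tri (dI α) (dB α) (dC α) := ⟨(dp hα).1, dec_tri hα⟩

theorem dec_lt {α β : M} (hβ : Ord β) (h : α ∈ β) :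
    TLt (dI α) (dB α) (dC α) (dI β) (dB β) (dC β) := by
  have hα := hβ.mem h
  have h1 := dec_tri hα
  exact ((dp hβ).2.2.2.2 _ _ _ h1.1 h1.2.1 h1.2.2).2 ⟨α, h, (dp hα).1⟩

theorem dec_init {α i b c : M} (hα : Ord α) (h : Tri i b c) (h' : TLt i b c (dI α) (dB α) (dC α)) :
    ∃ β, β ∈ α ∧ dI β = i ∧ dB β = b ∧ dC β = c := by
  obtain ⟨β, hβ, h1⟩ := ((dp hα).2.2.2.2 i b c h.1 h.2.1 h.2.2).1 h'
  exact ⟨β, hβ, comp_of_dec (hα.mem hβ) h1⟩

theorem dec_inj {α β : M} (hα : Ord α) (hβ : Ord β) (h1 : dI α = dI β) (h2 : dB α = dB β)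
    (h3 : dC α = dC β) : α = β := by
  rcases ord_trichotomy hα hβ with h | h | h
  · have h4 := dec_lt hβ h
    rw [h1, h2, h3] at h4
    exact absurd h4 (tlt_irrefl (dec_tri hβ))
  · exact h
  · have h4 := dec_lt hα h
    rw [h1, h2, h3] at h4
    exact absurd h4 (tlt_irrefl (dec_tri hβ))

theorem dec_lt_iff {α β : M} (hα : Ord α) (hβ : Ord β) :
    TLt (dI α) (dB α) (dC α) (dI β) (dB β) (dC β) ↔ α ∈ β := by
  refine ⟨fun h => ?_, dec_lt hβ⟩
  rcases ord_trichotomy hα hβ with h1 | h1 | h1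
  · exact h1
  · subst h1
    exact absurd h (tlt_irrefl (dec_tri hα))
  · exact absurd (tlt_trans (dec_tri hα) (dec_tri hβ) (dec_tri hα) h (dec_lt hα h1))
      (tlt_irrefl (dec_tri hα))

theorem dec_surj {i b c : M} (h : Tri i b c) : ∃ α, Ord α ∧ dI α = i ∧ dB α = b ∧ dC α = c := by
  by_contra hcon
  have hlt : ∀ α, Ord α → TLt (dI α) (dB α) (dC α) i b c := by
    intro α hα
    rcases tlt_tri (dec_tri hα) h with h1 | h1 | h1
    · exact h1
    · exact absurd ⟨α, hα, h1⟩ hcon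
    · obtain ⟨β, hβ, h2⟩ := dec_init hα h h1
      exact absurd ⟨β, hα.mem hβ, h2⟩ hcon
  have hμ : Ord (un b c) := by
    rcases ord_un_cases h.2.1 h.2.2 with ⟨e, -⟩ | ⟨e, -⟩
    · rw [e]; exact h.2.1
    · rw [e]; exact h.2.2
  obtain ⟨S, hS⟩ : ∃ S : M, S = prod (num 11) (prod (succ (un b c)) (succ (un b c))) := ⟨_, rfl⟩
  have hmem : ∀ α, Ord α → dec α ∈ S := by
    intro α hα
    have ht := dec_tri hα
    have h1 := (tlt_iff ht h).1 (hlt α hα)
    have h2 : un (dB α) (dC α) ⊆ un b c := by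
      rcases h1 with h1 | ⟨h1, -⟩
      · exact hμ.1 _ h1
      · rw [h1]; exact sub_refl _
    have h3 : ∀ x, Ord x → x ⊆ un b c → x ∈ succ (un b c) := by
      intro x hx hxs
      rw [mem_succ]
      exact (ord_sub_iff hx hμ).1 hxs
    rw [(dp hα).1, hS]
    unfold tri
    rw [opair_mem_prod, opair_mem_prod]
    exact ⟨ht.1, h3 _ ht.2.1 (sub_trans (sub_un_left _ _) h2),
      h3 _ ht.2.2 (sub_trans (sub_un_right _ _) h2)⟩
  obtain ⟨θ, hθ, hg⟩ := exists_ord_gt (img S (fun s => iota (fun α => Ord α ∧ dec α = s)))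
  have h1 : iota (fun α => Ord α ∧ dec α = dec θ) = θ := by
    refine iota_eq ⟨hθ, rfl⟩ ?_
    rintro x ⟨hx, hxe⟩
    obtain ⟨e1, e2, e3⟩ := comp_of_dec hx (hxe.trans (dp hθ).1)
    exact dec_inj hx hθ e1 e2 e3
  have h2 : θ ∈ θ := hg θ (by rw [mem_img]; exact ⟨dec θ, hmem θ hθ, h1.symm⟩) hθ
  exact not_mem_self θ h2

private theorem zero_tlt {ν ξ : M} (hν : Ord ν) (hξ : Ord ξ) (h : ξ ∈ ν) :
    TLt emp ξ ξ emp ν ν := by
  rw [tlt_iff (tri_zero hξ) (tri_zero hν), un_self, un_self]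
  exact Or.inl h

private theorem sub_of_zero : ∀ ν : M, Ord ν → ∀ β, Ord β → dI β = emp → dB β = ν → dC β = ν →
    ν ⊆ β := by
  apply ord_induction (fun ν : M => ∀ β : M, Ord β → dI β = emp → dB β = ν → dC β = ν → ν ⊆ β)
  intro ν hν ih β hβ e1 e2 e3 ξ hξ
  have hoξ := hν.mem hξ
  obtain ⟨γ, hγ, f1, f2, f3⟩ := dec_surj (tri_zero hoξ)
  have h1 : ξ ⊆ γ := ih ξ hξ γ hγ f1 f2 f3
  have h2 : γ ∈ β := by
    rw [← dec_lt_iff hγ hβ, e1, e2, e3, f1, f2, f3]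
    exact zero_tlt hν hoξ hξ
  rcases (ord_sub_iff hoξ hγ).1 h1 with h3 | h3
  · exact hβ.trans h3 h2
  · rw [h3]; exact h2

private theorem un_sub {α : M} (hα : Ord α) : un (dB α) (dC α) ⊆ α := by
  have ht := dec_tri hα
  have hμ : Ord (un (dB α) (dC α)) := by
    rcases ord_un_cases ht.2.1 ht.2.2 with ⟨e, -⟩ | ⟨e, -⟩
    · rw [e]; exact ht.2.1
    · rw [e]; exact ht.2.2
  intro ν hν
  have hoν := hμ.mem hν
  have h1 : TLt emp ν ν (dI α) (dB α) (dC α) := by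
    rw [tlt_iff (tri_zero hoν) ht, un_self]
    exact Or.inl hν
  obtain ⟨β, hβ, e1, e2, e3⟩ := dec_init hα (tri_zero hoν) h1
  have h2 := sub_of_zero ν hoν β (hα.mem hβ) e1 e2 e3
  rcases (ord_sub_iff hoν (hα.mem hβ)).1 h2 with h3 | h3
  · exact hα.trans h3 hβ
  · rw [h3]; exact hβ

theorem dec_bound {α : M} (hα : Ord α) : dB α ⊆ α ∧ dC α ⊆ α :=
  ⟨sub_trans (sub_un_left _ _) (un_sub hα), sub_trans (sub_un_right _ _) (un_sub hα)⟩

theorem dec_bound' {α : M} (hα : Ord α) (h : dI α ≠ emp) : dB α ∈ α ∧ dC α ∈ α := by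
  have ht := dec_tri hα
  have h0 : Tri emp (dB α) (dC α) := ⟨z11, ht.2.1, ht.2.2⟩
  have hI : dI α ∈ (omega : M) := by
    obtain ⟨j, -, hj⟩ := mem_num.1 ht.1
    rw [hj]; exact num_mem j
  have h1 : (emp : M) ∈ dI α := (eq_emp_or_emp_mem hI).resolve_left h
  have h2 : TLt emp (dB α) (dC α) (dI α) (dB α) (dC α) := by
    rw [tlt_iff h0 ht]
    exact Or.inr ⟨rfl, Or.inr ⟨rfl, Or.inr ⟨rfl, h1⟩⟩⟩
  obtain ⟨β, hβ, e1, e2, e3⟩ := dec_init hα h0 h2
  have hoβ := hα.mem hβ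
  obtain ⟨b1, b2⟩ := dec_bound hoβ
  rw [e2] at b1
  rw [e3] at b2
  have key : ∀ x, Ord x → x ⊆ β → x ∈ α := by
    intro x hx hxs
    rcases (ord_sub_iff hx hoβ).1 hxs with h3 | h3
    · exact hα.trans h3 hβ
    · rw [h3]; exact hβ
  exact ⟨key _ ht.2.1 b1, key _ ht.2.2 b2⟩

/-- Uniqueness of the enumeration, for functions defined on an ordinal `θ`. -/
theorem dec_uniq {θ : M} (hθ : Ord θ) (I B C : M → M) [F1 I] [F1 B] [F1 C]
    (h0 : ∀ α, α ∈ θ → Tri (I α) (B α) (C α))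
    (h1 : ∀ β, β ∈ θ → ∀ α, α ∈ β → TLt (I α) (B α) (C α) (I β) (B β) (C β))
    (h2 : ∀ α, α ∈ θ → ∀ i b c, Tri i b c → TLt i b c (I α) (B α) (C α) →
      ∃ β, β ∈ α ∧ I β = i ∧ B β = b ∧ C β = c) :
    ∀ α, α ∈ θ → dI α = I α ∧ dB α = B α ∧ dC α = C α := by
  have key : ∀ α : M, Ord α → α ∈ θ → dI α = I α ∧ dB α = B α ∧ dC α = C α := by
    apply ord_induction (fun α => α ∈ θ → dI α = I α ∧ dB α = B α ∧ dC α = C α)
    intro α hα ih hαθ
    have hta := h0 α hαθ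
    rcases tlt_tri hta (dec_tri hα) with h3 | ⟨e1, e2, e3⟩ | h3
    · obtain ⟨β, hβ, f1, f2, f3⟩ := dec_init hα hta h3
      obtain ⟨g1, g2, g3⟩ := ih β hβ (hθ.trans hβ hαθ)
      have h4 := h1 α hαθ β hβ
      rw [← g1, ← g2, ← g3, f1, f2, f3] at h4
      exact absurd h4 (tlt_irrefl hta)
    · exact ⟨e1.symm, e2.symm, e3.symm⟩
    · obtain ⟨β, hβ, f1, f2, f3⟩ := h2 α hαθ _ _ _ (dec_tri hα) h3
      obtain ⟨g1, g2, g3⟩ := ih β hβ (hθ.trans hβ hαθ)
      have h4 := dec_lt hα hβ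
      rw [g1, g2, g3, f1, f2, f3] at h4
      exact absurd h4 (tlt_irrefl (dec_tri hα))
  exact fun α hα => key α (hθ.mem hα) hα

end Pool.Agent.ZFIter.NPA
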