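import Pool.Agent.NPA.BDec

/-!
# NPA/BHier: the hierarchy `hF`

`hF_eq`: `erec_eq` and `ap_mkseq` (for `dI α = 0` the operation does not depend on the two sets, for
`dI α ≠ 0` use `dec_bound'`). `hF_congr`: induction on `α`; only operation 9 mentions `A`.
The sets `RG A α = {hF A β : β < α}`: the value of the operation 0.
`inL_op`: for `X = hF A b`, `Y = hF A c` and `α` with `dec α = (i, b, c)` (`dec_surj`) the set `hF A α` is
`{w ∈ RG A α : OpMem ..}`, and all elements of `X` are in `RG A b ⊆ RG A α`.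
-/

universe u

namespace Pool.Agent.ZFIter.NPA

open Pool.Agent.H78.ZF Pool.Agent.ZFIter

variable {M : Type u} [ZFM M] {ι : Type}

/-- The set of all `hF A β`, `β < α`. -/
noncomputable def RG (A α : M) : M := img α (fun β => hF A β)

instance DF.RG (A s : (ι → M) → M) [DF A] [DF s] : DF (fun v => RG (A v) (s v)) := by
  unfold NPA.RG; infer_instance

theorem mem_RG {A α x : M} : x ∈ RG A α ↔ ∃ β, β ∈ α ∧ x = hF A β := by
  unfold RG
  rw [mem_img]

/-- the operation 0 is always true -/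
theorem opMem_zero (A α X Y w : M) : OpMem A α emp X Y w := Or.inl rfl

theorem hF_eq (A : M) {α : M} (hα : Ord α) :
    hF A α = sep (RG A α) (fun w => OpMem A α (dI α) (hF A (dB α)) (hF A (dC α)) w) := by
  have h1 : hF A α = hStep A α (mkseq α (fun y => hF A y)) := by
    unfold hF
    exact erec_eq (G := fun α g => hStep A α g) α
  rw [h1]
  unfold hStep
  apply ext
  intro w
  rw [mem_sep, mem_sep, mem_img, mem_RG]
  have hr : (∃ x, x ∈ α ∧ w = ap (mkseq α (fun y => hF A y)) x) ↔ ∃ β, β ∈ α ∧ w = hF A β := by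
    constructor
    · rintro ⟨x, hx, rfl⟩
      exact ⟨x, hx, ap_mkseq hx⟩
    · rintro ⟨x, hx, rfl⟩
      exact ⟨x, hx, (ap_mkseq (F := fun y => hF A y) hx).symm⟩
  rw [hr]
  by_cases h0 : dI α = emp
  · rw [h0]
    exact ⟨fun h => ⟨h.1, opMem_zero _ _ _ _ _⟩, fun h => ⟨h.1, opMem_zero _ _ _ _ _⟩⟩
  · obtain ⟨hb, hc⟩ := dec_bound' hα h0
    rw [ap_mkseq (F := fun y => hF A y) hb, ap_mkseq (F := fun y => hF A y) hc]

theorem mem_hF {A α x : M} (hα : Ord α) : x ∈ hF A α ↔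
    (∃ β, β ∈ α ∧ x = hF A β) ∧ OpMem A α (dI α) (hF A (dB α)) (hF A (dC α)) x := by
  rw [hF_eq A hα, mem_sep, mem_RG]

theorem hF_congr {A B θ : M} (hθ : Ord θ)
    (h : ∀ d k, d ∈ θ → k ∈ (omega : M) → (opair d k ∈ A ↔ opair d k ∈ B)) :
    ∀ α, α ⊆ θ → Ord α → hF A α = hF B α := by
  intro α hαθ hα
  refine ord_induction (fun α => α ⊆ θ → hF A α = hF B α) ?_ α hα hαθ
  intro α hα ih hαθ
  have ih' : ∀ β, β ∈ α → hF A β = hF B β := fun β hβ => ih β hβ (hθ.1 β (hαθ β hβ))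
  apply ext
  intro w
  rw [mem_hF hα, mem_hF hα]
  have hr : (∃ β, β ∈ α ∧ w = hF A β) ↔ ∃ β, β ∈ α ∧ w = hF B β := by
    constructor
    · rintro ⟨x, hx, rfl⟩
      exact ⟨x, hx, ih' x hx⟩
    · rintro ⟨x, hx, rfl⟩
      exact ⟨x, hx, (ih' x hx).symm⟩
  rw [hr]
  by_cases h0 : dI α = emp
  · rw [h0]
    exact ⟨fun h => ⟨h.1, opMem_zero _ _ _ _ _⟩, fun h => ⟨h.1, opMem_zero _ _ _ _ _⟩⟩
  · obtain ⟨hb, hc⟩ := dec_bound' hα h0
    rw [ih' _ hb, ih' _ hc]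
    have h9 : (w ∈ A ∧ ∃ d k, d ∈ α ∧ k ∈ (omega : M) ∧ w = opair d k) ↔
        (w ∈ B ∧ ∃ d k, d ∈ α ∧ k ∈ (omega : M) ∧ w = opair d k) := by
      constructor
      · rintro ⟨h1, d, k, hd, hk, rfl⟩
        exact ⟨(h d k (hαθ d hd) hk).1 h1, d, k, hd, hk, rfl⟩
      · rintro ⟨h1, d, k, hd, hk, rfl⟩
        exact ⟨(h d k (hαθ d hd) hk).2 h1, d, k, hd, hk, rfl⟩
    unfold OpMem
    rw [h9]

theorem inL_hF (A : M) {α : M} (hα : Ord α) : InL A (hF A α) := ⟨α, hα, rfl⟩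

theorem inL_trans {A x y : M} (hy : InL A y) (h : x ∈ y) : InL A x := by
  obtain ⟨α, hα, rfl⟩ := hy
  obtain ⟨⟨β, hβ, rfl⟩, _⟩ := (mem_hF hα).1 h
  exact ⟨β, hα.mem hβ, rfl⟩

theorem RG_mono {A α β : M} (h : α ⊆ β) : RG A α ⊆ RG A β := by
  intro x hx
  rw [mem_RG] at hx ⊢
  obtain ⟨γ, hγ, rfl⟩ := hx
  exact ⟨γ, h γ hγ, rfl⟩

theorem hF_sub_RG {A α : M} (hα : Ord α) : hF A α ⊆ RG A α := by
  intro x hx
  rw [mem_RG]
  exact ((mem_hF hα).1 hx).1

/-- operation 0 -/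
theorem hF_zero {A α : M} (hα : Ord α) (h : dI α = emp) : hF A α = RG A α := by
  apply ext
  intro w
  rw [mem_hF hα, mem_RG, h]
  exact ⟨fun h => h.1, fun h => ⟨h, opMem_zero _ _ _ _ _⟩⟩

theorem num_mem_eleven {i : ℕ} (hi : i < 11) : (num i : M) ∈ (num 11 : M) :=
  mem_num.2 ⟨i, hi, rfl⟩

/-- the stage of an operation -/
theorem exists_stage (A : M) {b c : M} (hb : Ord b) (hc : Ord c) (i : ℕ) (hi0 : i ≠ 0) (hi : i < 11) :
    ∃ α, Ord α ∧ b ∈ α ∧ c ∈ α ∧ ∀ w, w ∈ hF A α ↔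
      w ∈ RG A α ∧ OpMem A α (num i) (hF A b) (hF A c) w := by
  obtain ⟨α, hα, h1, h2, h3⟩ := dec_surj (i := (num i : M)) (b := b) (c := c)
    ⟨num_mem_eleven hi, hb, hc⟩
  have hne : dI α ≠ emp := by
    rw [h1]
    exact num_ne (M := M) (j := i) (k := 0) hi0
  obtain ⟨h4, h5⟩ := dec_bound' hα hne
  rw [h2] at h4
  rw [h3] at h5
  refine ⟨α, hα, h4, h5, fun w => ?_⟩
  rw [mem_hF hα, mem_RG, h1, h2, h3]

theorem inL_stage {A X Y : M} (hX : InL A X) (hY : InL A Y) (i : ℕ) (hi0 : i ≠ 0) (hi : i < 11) :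
    ∃ α, Ord α ∧ X ∈ RG A α ∧ Y ∈ RG A α ∧ X ⊆ RG A α ∧ Y ⊆ RG A α ∧ ∀ w, w ∈ hF A α ↔
      w ∈ RG A α ∧ OpMem A α (num i) X Y w := by
  obtain ⟨b, hb, rfl⟩ := hX
  obtain ⟨c, hc, rfl⟩ := hY
  obtain ⟨α, hα, h1, h2, h3⟩ := exists_stage A hb hc i hi0 hi
  refine ⟨α, hα, mem_RG.2 ⟨b, h1, rfl⟩, mem_RG.2 ⟨c, h2, rfl⟩, ?_, ?_, h3⟩
  · exact sub_trans (hF_sub_RG hb) (RG_mono (hα.1 b h1))
  · exact sub_trans (hF_sub_RG hc) (RG_mono (hα.1 c h2))

theorem inL_upair {A x y : M} (hx : InL A x) (hy : InL A y) : InL A (upair x y) := by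
  obtain ⟨α, hα, h1, h2, _, _, h3⟩ := inL_stage hx hy 1 (by norm_num) (by norm_num)
  refine ⟨α, hα, ext fun w => ?_⟩
  rw [h3 w, mem_upair]
  constructor
  · rintro (rfl | rfl)
    · exact ⟨h1, Or.inr (Or.inl ⟨rfl, Or.inl rfl⟩)⟩
    · exact ⟨h2, Or.inr (Or.inl ⟨rfl, Or.inr rfl⟩)⟩
  · rintro ⟨_, h⟩
    simp [OpMem, (num_ne (M := M) (j := 1) (k := 0) (by norm_num)),
      (num_ne (M := M) (j := 1) (k := 2) (by norm_num)),
      (num_ne (M := M) (j := 1) (k := 3) (by norm_num)),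
      (num_ne (M := M) (j := 1) (k := 4) (by norm_num)),
      (num_ne (M := M) (j := 1) (k := 5) (by norm_num)),
      (num_ne (M := M) (j := 1) (k := 6) (by norm_num)),
      (num_ne (M := M) (j := 1) (k := 7) (by norm_num)),
      (num_ne (M := M) (j := 1) (k := 8) (by norm_num)),
      (num_ne (M := M) (j := 1) (k := 9) (by norm_num)),
      (num_ne (M := M) (j := 1) (k := 10) (by norm_num))] at h
    exact h

theorem inL_opair {A x y : M} (hx : InL A x) (hy : InL A y) : InL A (opair x y) := by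
  unfold opair sing
  exact inL_upair (inL_upair hx hx) (inL_upair hx hy)

theorem inL_of_opair {A x y : M} (h : InL A (opair x y)) : InL A x ∧ InL A y := by
  have h1 : InL A (upair x y) := inL_trans h (by unfold opair; rw [mem_upair]; right; rfl)
  exact ⟨inL_trans h1 (by rw [mem_upair]; left; rfl), inL_trans h1 (by rw [mem_upair]; right; rfl)⟩

/-- the values of `OpMem` -/
theorem opMem_num {A α X Y w : M} (i : ℕ) : OpMem A α (num i) X Y w ↔
    (i = 0 ∨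
    (i = 1 ∧ (w = X ∨ w = Y)) ∨
    (i = 2 ∧ w ∈ X ∧ w ∉ Y) ∨
    (i = 3 ∧ w ∈ X ∧ ∃ u v, w = opair u v ∧ u ∈ v) ∨
    (i = 4 ∧ w ∈ X ∧ ∃ u v, w = opair u v ∧ v ∈ Y) ∨
    (i = 5 ∧ w ∈ X ∧ ∃ u v, w = opair u v ∧ opair v u ∈ Y) ∨
    (i = 6 ∧ w ∈ X ∧ ∃ v, opair w v ∈ Y) ∨
    (i = 7 ∧ w ∈ X ∧ ∃ t y x, w = opair (opair t y) x ∧ opair y x ∈ Y) ∨
    (i = 8 ∧ w ∈ X ∧ ∃ t y x, w = opair (opair t y) x ∧ opair t x ∈ Y) ∨
    (i = 9 ∧ w ∈ X ∧ w ∈ A ∧ ∃ d k, d ∈ α ∧ k ∈ (omega : M) ∧ w = opair d k) ∨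
    (i = 10 ∧ w ∈ X ∧ ∃ u, w = opair u u)) := by
  have hn : ∀ j k : ℕ, (num j : M) = num k ↔ j = k := fun j k => ⟨num_inj, fun h => by rw [h]⟩
  unfold OpMem
  simp only [hn]

/-- the operations 2, 3, 4, 5, 6, 7, 8, 10 -/
theorem inL_diff {A X Y : M} (hX : InL A X) (hY : InL A Y) : InL A (sep X (fun w => w ∉ Y)) := by
  obtain ⟨α, hα, _, _, h1, _, h3⟩ := inL_stage hX hY 2 (by norm_num) (by norm_num)
  refine ⟨α, hα, ext fun w => ?_⟩
  rw [h3 w, mem_sep, opMem_num]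
  simp
  exact fun h _ => h1 w h

theorem inL_op3 {A X : M} (hX : InL A X) :
    InL A (sep X (fun w => ∃ u v, w = opair u v ∧ u ∈ v)) := by
  obtain ⟨α, hα, _, _, h1, _, h3⟩ := inL_stage hX hX 3 (by norm_num) (by norm_num)
  refine ⟨α, hα, ext fun w => ?_⟩
  rw [h3 w, mem_sep, opMem_num]
  have := h1 w
  simp only [OfNat.ofNat_ne_zero, OfNat.ofNat_ne_one, false_and, false_or, true_and, Nat.reduceEqDiff,
    or_false]
  tauto

theorem inL_op4 {A X Y : M} (hX : InL A X) (hY : InL A Y) :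
    InL A (sep X (fun w => ∃ u v, w = opair u v ∧ v ∈ Y)) := by
  obtain ⟨α, hα, _, _, h1, _, h3⟩ := inL_stage hX hY 4 (by norm_num) (by norm_num)
  refine ⟨α, hα, ext fun w => ?_⟩
  rw [h3 w, mem_sep, opMem_num]
  have := h1 w
  simp only [OfNat.ofNat_ne_zero, OfNat.ofNat_ne_one, false_and, false_or, true_and, Nat.reduceEqDiff,
    or_false]
  tauto

theorem inL_op5 {A X Y : M} (hX : InL A X) (hY : InL A Y) :
    InL A (sep X (fun w => ∃ u v, w = opair u v ∧ opair v u ∈ Y)) := by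
  obtain ⟨α, hα, _, _, h1, _, h3⟩ := inL_stage hX hY 5 (by norm_num) (by norm_num)
  refine ⟨α, hα, ext fun w => ?_⟩
  rw [h3 w, mem_sep, opMem_num]
  have := h1 w
  simp only [OfNat.ofNat_ne_zero, OfNat.ofNat_ne_one, false_and, false_or, true_and, Nat.reduceEqDiff,
    or_false]
  tauto

theorem inL_op6 {A X Y : M} (hX : InL A X) (hY : InL A Y) :
    InL A (sep X (fun w => ∃ v, opair w v ∈ Y)) := by
  obtain ⟨α, hα, _, _, h1, _, h3⟩ := inL_stage hX hY 6 (by norm_num) (by norm_num)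
  refine ⟨α, hα, ext fun w => ?_⟩
  rw [h3 w, mem_sep, opMem_num]
  have := h1 w
  simp only [OfNat.ofNat_ne_zero, OfNat.ofNat_ne_one, false_and, false_or, true_and, Nat.reduceEqDiff,
    or_false]
  tauto

theorem inL_op7 {A X Y : M} (hX : InL A X) (hY : InL A Y) :
    InL A (sep X (fun w => ∃ t y x, w = opair (opair t y) x ∧ opair y x ∈ Y)) := by
  obtain ⟨α, hα, _, _, h1, _, h3⟩ := inL_stage hX hY 7 (by norm_num) (by norm_num)
  refine ⟨α, hα, ext fun w => ?_⟩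
  rw [h3 w, mem_sep, opMem_num]
  have := h1 w
  simp only [OfNat.ofNat_ne_zero, OfNat.ofNat_ne_one, false_and, false_or, true_and, Nat.reduceEqDiff,
    or_false]
  tauto

theorem inL_op8 {A X Y : M} (hX : InL A X) (hY : InL A Y) :
    InL A (sep X (fun w => ∃ t y x, w = opair (opair t y) x ∧ opair t x ∈ Y)) := by
  obtain ⟨α, hα, _, _, h1, _, h3⟩ := inL_stage hX hY 8 (by norm_num) (by norm_num)
  refine ⟨α, hα, ext fun w => ?_⟩
  rw [h3 w, mem_sep, opMem_num]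
  have := h1 w
  simp only [OfNat.ofNat_ne_zero, OfNat.ofNat_ne_one, false_and, false_or, true_and, Nat.reduceEqDiff,
    or_false]
  tauto

theorem inL_op10 {A X : M} (hX : InL A X) : InL A (sep X (fun w => ∃ u, w = opair u u)) := by
  obtain ⟨α, hα, _, _, h1, _, h3⟩ := inL_stage hX hX 10 (by norm_num) (by norm_num)
  refine ⟨α, hα, ext fun w => ?_⟩
  rw [h3 w, mem_sep, opMem_num]
  have := h1 w
  simp only [OfNat.ofNat_ne_zero, OfNat.ofNat_ne_one, false_and, false_or, true_and, Nat.reduceEqDiff,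
    or_false]
  tauto

/-- arbitrarily late stages of the operation 0 -/
theorem exists_zero_stage (A : M) {μ : M} (hμ : Ord μ) :
    ∃ γ, Ord γ ∧ μ ⊆ γ ∧ hF A γ = RG A γ := by
  obtain ⟨γ, hγ, h1, h2, _⟩ := dec_surj (i := (num 0 : M)) (b := μ) (c := μ)
    ⟨num_mem_eleven (by norm_num), hμ, hμ⟩
  refine ⟨γ, hγ, ?_, hF_zero hγ h1⟩
  have := (dec_bound hγ).1
  rwa [h2] at this

theorem inL_un {A X Y : M} (hX : InL A X) (hY : InL A Y) : InL A (un X Y) := by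
  obtain ⟨b, hb, rfl⟩ := hX
  obtain ⟨c, hc, rfl⟩ := hY
  have hbc : Ord (un b c) := by
    rcases ord_un_cases hb hc with h | h <;> rw [h.1]
    · exact hb
    · exact hc
  obtain ⟨γ, hγ, h1, h2⟩ := exists_zero_stage A hbc
  have hZ : InL A (RG A γ) := h2 ▸ inL_hF A hγ
  have h3 := inL_diff hZ (inL_diff (inL_diff hZ (inL_hF A hb)) (inL_hF A hc))
  have h4 : sep (RG A γ) (fun w => w ∉ sep (sep (RG A γ) (fun w => w ∉ hF A b)) (fun w => w ∉ hF A c)) =
      un (hF A b) (hF A c) := by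
    apply ext
    intro w
    rw [mem_sep, mem_sep, mem_sep, mem_un]
    have hb' : w ∈ hF A b → w ∈ RG A γ := fun h =>
      RG_mono (sub_trans (sub_un_left b c) h1) w (hF_sub_RG hb w h)
    have hc' : w ∈ hF A c → w ∈ RG A γ := fun h =>
      RG_mono (sub_trans (sub_un_right b c) h1) w (hF_sub_RG hc w h)
    tauto
  rwa [h4] at h3

theorem succ_of_dI {α : M} (hα : Ord α) (h : dI α ≠ emp) : ∃ β, α = succ β := by
  obtain ⟨hT, hTri⟩ := dec_spec hα
  obtain ⟨j, hj, hj'⟩ := mem_num.1 hTri.1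
  obtain ⟨i, rfl⟩ : ∃ i, j = i + 1 := by
    rcases j with _ | i
    · exact absurd hj' h
    · exact ⟨i, rfl⟩
  have hi : (num i : M) ∈ (num (i + 1) : M) := mem_num.2 ⟨i, by omega, rfl⟩
  have hTi : Tri (num i : M) (dB α) (dC α) := ⟨num_mem_eleven (by omega), hTri.2⟩
  have hlt : TLt (num i) (dB α) (dC α) (dI α) (dB α) (dC α) := by
    rw [tlt_iff hTi hTri]
    exact Or.inr ⟨rfl, Or.inr ⟨rfl, Or.inr ⟨rfl, by rw [hj']; exact hi⟩⟩⟩
  obtain ⟨β, hβ, b1, b2, b3⟩ := dec_init hα hTi hlt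
  have hβo := hα.mem hβ
  refine ⟨β, ?_⟩
  rcases ord_trichotomy hα hβo.succ with h1 | h1 | h1
  · rw [mem_succ] at h1
    rcases h1 with h1 | h1
    · exact absurd (hα.trans h1 hβ) (not_mem_self α)
    · rw [h1] at hβ; exact absurd hβ (not_mem_self β)
  · exact h1
  · exfalso
    have hsβ := hβo.succ
    have hTs := (dec_spec hsβ).2
    have l1 := dec_lt hsβ (show β ∈ succ β by rw [mem_succ]; right; rfl)
    have l2 := dec_lt hα h1
    rw [b1, b2, b3, tlt_iff hTi hTs] at l1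
    rw [tlt_iff hTs hTri] at l2
    have ho1 : Ord (un (dB α) (dC α)) := by
      rcases ord_un_cases hTri.2.1 hTri.2.2 with h | h <;> rw [h.1]
      · exact hTri.2.1
      · exact hTri.2.2
    have ho2 : Ord (un (dB (succ β)) (dC (succ β))) := by
      rcases ord_un_cases hTs.2.1 hTs.2.2 with h | h <;> rw [h.1]
      · exact hTs.2.1
      · exact hTs.2.2
    rcases l1 with l1 | ⟨e1, l1⟩
    · rcases l2 with l2 | ⟨e2, l2⟩
      · exact ho1.asymm l2 l1
      · rw [e2] at l1; exact not_mem_self _ l1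
    rcases l2 with l2 | ⟨e2, l2⟩
    · rw [e1] at l2; exact not_mem_self _ l2
    rcases l1 with l1 | ⟨e1', l1⟩
    · rcases l2 with l2 | ⟨e2', l2⟩
      · exact hTri.2.1.asymm l2 l1
      · rw [e2'] at l1; exact not_mem_self _ l1
    rcases l2 with l2 | ⟨e2', l2⟩
    · rw [e1'] at l2; exact not_mem_self _ l2
    rcases l1 with l1 | ⟨e1'', l1⟩
    · rcases l2 with l2 | ⟨e2'', l2⟩
      · exact hTri.2.2.asymm l2 l1
      · rw [e2''] at l1; exact not_mem_self _ l1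
    rcases l2 with l2 | ⟨e2'', l2⟩
    · rw [e1''] at l2; exact not_mem_self _ l2
    -- `num i ∈ dI (succ β) ∈ dI α = num (i + 1)`
    rw [hj'] at l2
    have l3 : dI (succ β) ∈ (num i : M) ∨ dI (succ β) = num i := (mem_succ _ _).1 l2
    have hio : Ord (num i : M) := ord_nat (num_mem i)
    rcases l3 with l3 | l3
    · exact hio.asymm l3 l1
    · rw [l3] at l1; exact not_mem_self _ l1

theorem inL_RG (A : M) {α : M} (hα : Ord α) : InL A (RG A α) := by
  refine ord_induction (fun α => InL A (RG A α)) ?_ α hα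
  intro α hα ih
  by_cases h0 : dI α = emp
  · exact hF_zero hα h0 ▸ inL_hF A hα
  · obtain ⟨β, rfl⟩ := succ_of_dI hα h0
    have hβ : Ord β := hα.mem (by rw [mem_succ]; right; rfl)
    have h1 := inL_un (ih β (by rw [mem_succ]; right; rfl)) (inL_upair (inL_hF A hβ) (inL_hF A hβ))
    have h2 : un (RG A β) (upair (hF A β) (hF A β)) = RG A (succ β) := by
      apply ext
      intro w
      rw [mem_un, mem_upair, mem_RG, mem_RG]
      constructor
      · rintro (⟨γ, hγ, rfl⟩ | h)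
        · exact ⟨γ, by rw [mem_succ]; left; exact hγ, rfl⟩
        · exact ⟨β, by rw [mem_succ]; right; rfl, by rcases h with h | h <;> exact h⟩
      · rintro ⟨γ, hγ, rfl⟩
        rw [mem_succ] at hγ
        rcases hγ with hγ | rfl
        · exact Or.inl ⟨γ, hγ, rfl⟩
        · exact Or.inr (Or.inl rfl)
    rwa [h2] at h1

/-- every set of constructible sets is included in some `RG A α` -/
theorem inL_bound (A s : M) (h : ∀ x, x ∈ s → InL A x) : ∃ α, Ord α ∧ s ⊆ RG A α := by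
  have hF1 : F1 (fun x : M => leastO (fun α => x = hF A α)) := by infer_instance
  obtain ⟨α, hα, h1⟩ := exists_ord_gt (img s (fun x => leastO (fun α => x = hF A α)))
  refine ⟨α, hα, fun x hx => ?_⟩
  obtain ⟨β, hβ, e⟩ := h x hx
  have h2 := leastO_spec (fun α => x = NPA.hF A α) ⟨β, hβ, e⟩
  rw [mem_RG]
  refine ⟨leastO (fun α => x = NPA.hF A α), h1 _ ?_ h2.1, h2.2.1⟩
  rw [mem_img]
  exact ⟨x, hx, rfl⟩

/-- ordinals appear late -/
theorem ord_hF_le {A α : M} (hα : Ord α) (h : Ord (hF A α)) : hF A α ⊆ α := by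
  refine ord_induction (fun α => Ord (hF A α) → hF A α ⊆ α) ?_ α hα h
  intro α hα ih h x hx
  obtain ⟨⟨β, hβ, rfl⟩, _⟩ := (mem_hF hα).1 hx
  have hxo : Ord (hF A β) := h.mem hx
  have h1 := ih β hβ hxo
  have hβo := hα.mem hβ
  rcases (ord_sub_iff hxo hβo).1 h1 with h2 | h2
  · exact hα.trans h2 hβ
  · rw [h2]; exact hβ

/-- a set `A` of pairs `(ordinal below θ, natural number)` which is included in `L[A]` belongs to
`L[A]` -/
theorem inL_self {A θ : M} (hθ : Ord θ) (hA : A ⊆ prod θ omega) (h : ∀ x, x ∈ A → InL A x) :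
    InL A A := by
  obtain ⟨μ, hμ, h1⟩ := inL_bound A A h
  have hun : Ord (un μ θ) := by
    rcases ord_un_cases hμ hθ with h | h <;> rw [h.1]
    · exact hμ
    · exact hθ
  obtain ⟨γ, hγ, h2, h3⟩ := exists_zero_stage A hun
  obtain ⟨α, hα, h4, _, h5⟩ := exists_stage A hγ hγ 9 (by norm_num) (by norm_num)
  refine ⟨α, hα, ext fun w => ?_⟩
  rw [h5 w, opMem_num, h3]
  have hγα := hα.1 γ h4
  have hsub : w ∈ A → w ∈ RG A γ := fun hw => RG_mono (sub_trans (sub_un_left μ θ) h2) w (h1 w hw)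
  have hsub' : w ∈ A → w ∈ RG A α := fun hw => RG_mono hγα w (hsub hw)
  have hpair : w ∈ A → ∃ d k, d ∈ α ∧ k ∈ (omega : M) ∧ w = opair d k := by
    intro hw
    obtain ⟨d, hd, k, hk, e⟩ := (mem_prod _ _ _).1 (hA w hw)
    exact ⟨d, k, hγα d (h2 d (sub_un_right μ θ d hd)), hk, e⟩
  simp only [OfNat.ofNat_ne_zero, OfNat.ofNat_ne_one, false_and, false_or, true_and, Nat.reduceEqDiff,
    or_false]
  tauto

end Pool.Agent.ZFIter.NPA
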