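import Pool.Agent.NPA.BAC
import Pool.Agent.NPA.AOm1
import Pool.Agent.NPA.AWo

/-!
# NPA/BMin: Theorem A, the base model

`exists_star`: inject `RS` into an ordinal by `f` (AC), `A = {(f x, pr n (x n)) : x ∈ RS, n ∈ omega}`;
`x` is definable in `Sub (InL A)` from `A, f x` (`inL_sep`).
`exists_shape`: `B = {z ∈ A : z = (d, k), d an ordinal, k ∈ omega}`, `hF_congr`.
`oL A` = the ordinals which are countable in `L[A]`.
`thmA`: choose (`exists_leastO`) `A ⊆ θ × omega` with `Det (RL A) k` and `oL A` least (it is an ordinal: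
a transitive subset of `om1`). `W = Sub (InL A)`, `ac_L`; `(RS : W).1 = RL A` and `abs_Det` give
`Det (RS : W) k`. `Mini W k`: let `A' : W` with `Det (RL A') k` and `Ctb (RL A')`. By `abs_Det, abs_RL` the
reals of `L[A'.1]` satisfy `Det` in `M`; replace `A'.1` by `B ⊆ θ' × omega` with the same hierarchy
(`exists_shape`); by minimality `oL A ⊆ oL B`. But `oL B` is countable in `W`: in `W`, the set of
the ordinals countable in `L[A']` is the image of `RL A'` under the functional relation `WOc`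
(`ctb_image`; `exists_WOc, WOc_uniq` inside the model `Sub (InL A')` of `W`, absoluteness), so
it is an element of `oL A`; contradiction (`not_mem_self`).
-/

universe u

namespace Pool.Agent.ZFIter.NPA

open Pool.Agent.H78.ZF Pool.Agent.ZFIter

variable {M : Type u} [ZFM M] {ι : Type}

theorem exists_star (hAC : AC M) :
    ∃ A θ : M, Ord θ ∧ A ⊆ prod θ omega ∧ ∀ x, x ∈ (RS : M) → InL A x := by
  obtain ⟨θ, f, hθ, hf⟩ := hAC (RS : M)
  obtain ⟨A, hAdef⟩ : ∃ A : M, ∀ z, z ∈ A ↔ z ∈ prod θ omega ∧ ∃ x, x ∈ (RS : M) ∧ ∃ n,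
      n ∈ (omega : M) ∧ z = opair (ap f x) (pr n (ap x n)) :=
    exists_sep (fun z => ∃ x, x ∈ (RS : M) ∧ ∃ n,
      n ∈ (omega : M) ∧ z = opair (ap f x) (pr n (ap x n))) (prod θ omega)
  have hA : A ⊆ prod θ omega := fun z hz => ((hAdef z).1 hz).1
  refine ⟨A, θ, hθ, hA, fun x hx => ?_⟩
  have hA' := inL_self' hθ hA
  have hfx : ap f x ∈ θ := hf.fun.ap_mem hx
  have hδ' : InL A (ap f x) := Inner.ord (K := InL A) _ (hθ.mem hfx)
  obtain ⟨A', hA''⟩ : ∃ A' : Sub (InL A), A'.1 = A := ⟨⟨A, hA'⟩, rfl⟩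
  obtain ⟨δ', hδ''⟩ : ∃ δ' : Sub (InL A), δ'.1 = ap f x := ⟨⟨_, hδ'⟩, rfl⟩
  have hxf := mem_RS.1 hx
  have hmem : ∀ i, i ∈ (omega : M) → ∀ v, v ∈ (omega : M) →
      (opair (ap f x) (pr i v) ∈ A ↔ v = ap x i) := by
    intro i hi v hv
    rw [hAdef, opair_mem_prod]
    constructor
    · rintro ⟨_, x', hx', n, hn, e⟩
      obtain ⟨e1, e2⟩ := opair_inj e
      have hxx : x = x' := hf.ap_inj hx hx' e1
      subst hxx
      obtain ⟨e3, e4⟩ := pr_inj hi hv hn (RS_ap hx hn) e2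
      rw [e3, e4]
    · rintro rfl
      exact ⟨⟨hfx, pr_mem hi hv⟩, x, hx, i, hi, rfl⟩
  apply inL_sep (prod omega omega : Sub (InL A)) (fun z => ∃ i v, z = opair i v ∧
    opair δ' (pr i v) ∈ A') x
  intro z
  rw [abs_prod, abs_omega]
  constructor
  · intro hz
    obtain ⟨i, hi, v, hv, rfl⟩ := hxf.1 z hz
    refine ⟨by rw [opair_mem_prod]; exact ⟨hi, hv⟩, ?_⟩
    have hi' : InL A i := Inner.ord (K := InL A) i (ord_nat hi)
    have hv' : InL A v := Inner.ord (K := InL A) v (ord_nat hv)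
    refine ⟨inL_opair hi' hv', ⟨i, hi'⟩, ⟨v, hv'⟩, ?_, ?_⟩
    · apply sub_inj
      rw [abs_opair]
    · rw [sub_mem, abs_opair, abs_pr, hδ'', hA'']
      exact (hmem i hi v hv).2 (hxf.ap_eq hz).symm
  · rintro ⟨hz, h1, i, v, e, h2⟩
    have e' := congrArg Subtype.val e
    rw [abs_opair] at e'
    simp only at e'
    subst e'
    rw [opair_mem_prod] at hz
    rw [sub_mem, abs_opair, abs_pr, hδ'', hA''] at h2
    rw [(hmem i.1 hz.1 v.1 hz.2).1 h2]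
    exact hxf.opair_ap hz.1

theorem exists_shape (A : M) :
    ∃ B θ : M, Ord θ ∧ B ⊆ prod θ omega ∧ ∀ α, Ord α → hF B α = hF A α := by
  obtain ⟨θ, hθ, hθ'⟩ := exists_ord_gt (sUn (sUn A))
  obtain ⟨B, hB⟩ : ∃ B : M, ∀ z, z ∈ B ↔ z ∈ A ∧ ∃ d k, z = opair d k ∧ Ord d ∧
      k ∈ (omega : M) := exists_sep (fun z => ∃ d k, z = opair d k ∧ Ord d ∧ k ∈ (omega : M)) A
  refine ⟨B, θ, hθ, ?_, ?_⟩
  · intro z hz
    obtain ⟨hzA, d, k, rfl, hd, hk⟩ := (hB z).1 hz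
    rw [opair_mem_prod]
    refine ⟨hθ' d ?_ hd, hk⟩
    rw [mem_sUn]
    refine ⟨sing d, ?_, by simp⟩
    rw [mem_sUn]
    refine ⟨opair d k, hzA, ?_⟩
    unfold opair
    rw [mem_upair]
    exact Or.inl rfl
  · intro α hα
    refine (hF_congr hα (A := A) (B := B) ?_ α (sub_refl α) hα).symm
    intro d k hd hk
    rw [hB]
    exact ⟨fun h => ⟨h, d, k, rfl, hα.mem hd, hk⟩, fun h => h.1⟩

/-- The ordinals which are countable in `L[A]`. -/
noncomputable def oL (A : M) : M := sep om1 (fun α => ∃ f, InL A f ∧ Inj f α omega)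

instance DF.oL (A : (ι → M) → M) [DF A] : DF (fun v => oL (A v)) := by
  unfold NPA.oL; infer_instance

theorem mem_oL {A α : M} : α ∈ oL A ↔ Ord α ∧ ∃ f, InL A f ∧ Inj f α omega := by
  unfold oL
  rw [mem_sep, mem_om1]
  constructor
  · rintro ⟨h1, h2⟩
    exact ⟨h1.1, h2⟩
  · rintro ⟨h1, f, h2, h3⟩
    exact ⟨⟨h1, f, h3⟩, f, h2, h3⟩

private theorem mem_om1_sub {A : M} (α : Sub (InL A)) :
    α ∈ (om1 : Sub (InL A)) ↔ Ord α.1 ∧ ∃ f : Sub (InL A), Inj f.1 α.1 (omega : M) := by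
  rw [mem_om1]
  constructor
  · rintro ⟨h1, f, h2⟩
    have h3 := abs_Inj.1 h2
    rw [abs_omega] at h3
    exact ⟨abs_Ord.1 h1, f, h3⟩
  · rintro ⟨h1, f, h2⟩
    refine ⟨abs_Ord.2 h1, f, abs_Inj.2 ?_⟩
    rw [abs_omega]
    exact h2

private theorem oL_eq (A : M) : oL A = (om1 : Sub (InL A)).1 := by
  apply Pool.Agent.H78.ZF.ext
  intro α
  rw [mem_oL]
  constructor
  · rintro ⟨h1, f, h2, h3⟩
    have hα : InL A α := Inner.ord (K := InL A) α h1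
    obtain ⟨α', hα'⟩ : ∃ α' : Sub (InL A), α'.1 = α := ⟨⟨α, hα⟩, rfl⟩
    subst hα'
    exact (mem_om1_sub α').2 ⟨h1, ⟨f, h2⟩, h3⟩
  · intro h
    have hα : InL A α := sub_of_mem (K := InL A) h
    obtain ⟨α', hα'⟩ : ∃ α' : Sub (InL A), α'.1 = α := ⟨⟨α, hα⟩, rfl⟩
    subst hα'
    obtain ⟨h1, f, h2⟩ := (mem_om1_sub α').1 h
    exact ⟨h1, f.1, f.2, h2⟩

private theorem ord_oL (A : M) : Ord (oL A) := by
  rw [oL_eq]
  exact abs_Ord.1 ord_om1

private theorem inL_congr {A B : M} (h : ∀ α, Ord α → hF B α = hF A α) (x : M) :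
    InL B x ↔ InL A x := by
  constructor
  · rintro ⟨α, hα, rfl⟩
    exact ⟨α, hα, h α hα⟩
  · rintro ⟨α, hα, rfl⟩
    exact ⟨α, hα, (h α hα).symm⟩

private theorem mem_RL {A x : M} : x ∈ RL A ↔ x ∈ (RS : M) ∧ InL A x := by
  unfold RL
  rw [mem_sep]

/-- `WOc` is upward absolute. -/
private theorem WOc_up {K : M → Prop} [Inner K] {x α : Sub K} (h : WOc x α) : WOc x.1 α.1 := by
  obtain ⟨f, hf, h⟩ := h
  have hf' := abs_Inj.1 hf
  rw [abs_omega] at hf'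
  refine ⟨f.1, hf', fun m hm n hn => ?_⟩
  obtain ⟨m', rfl⟩ : ∃ m' : Sub K, m'.1 = m := ⟨⟨m, Inner.ord m (ord_nat hm)⟩, rfl⟩
  obtain ⟨n', rfl⟩ : ∃ n' : Sub K, n'.1 = n := ⟨⟨n, Inner.ord n (ord_nat hn)⟩, rfl⟩
  have hm' : m' ∈ (omega : Sub K) := by rw [sub_mem, abs_omega]; exact hm
  have hn' : n' ∈ (omega : Sub K) := by rw [sub_mem, abs_omega]; exact hn
  have h1 : ap x.1 (pr m'.1 n'.1) = emp ↔ ap x (pr m' n') = emp := by
    rw [← abs_pr, ← abs_ap, ← abs_emp (K := K)]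
    exact ⟨fun e => sub_inj e, fun e => by rw [e]⟩
  rw [h1, h m' hm' n' hn']
  constructor
  · rintro ⟨β, hβ, γ, hγ, h2, h3, h4⟩
    refine ⟨β.1, hβ, γ.1, hγ, h2.imp id (fun e => by rw [e]), ?_, ?_⟩
    · rw [← abs_ap, h3]
    · rw [← abs_ap, h4]
  · rintro ⟨β, hβ, γ, hγ, h2, h3, h4⟩
    refine ⟨⟨β, sub_of_mem hβ⟩, hβ, ⟨γ, sub_of_mem hγ⟩, hγ, h2.imp id (fun e => sub_inj e), ?_, ?_⟩
    · apply sub_inj; rw [abs_ap]; exact h3
    · apply sub_inj; rw [abs_ap]; exact h4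

/-- countability of `oL A` in a model in which the reals of `L[A]` are countable -/
private theorem ctb_oL {A : M} (h : Ctb (RL A)) : Ctb (oL A) := by
  apply ctb_image h (fun x α => Ord α ∧ WOc x α)
  · intro α hα
    rw [oL_eq] at hα
    have hα1 : InL A α := sub_of_mem (K := InL A) hα
    obtain ⟨α', hα'⟩ : ∃ α' : Sub (InL A), α'.1 = α := ⟨⟨α, hα1⟩, rfl⟩
    subst hα'
    have h' : α' ∈ (om1 : Sub (InL A)) := hα
    rw [mem_om1] at h'
    obtain ⟨x, hx, hx'⟩ := exists_WOc h'.1 h'.2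
    exact ⟨x.1, mem_RL.2 ⟨abs_RS.1 hx, x.2⟩, abs_Ord.1 h'.1, WOc_up hx'⟩
  · intro x α β _ _ h1 h2
    exact WOc_uniq h1.1 h2.1 h1.2 h2.2

/-- The relation between the values of `oL` in `L[A]` and in `M`. -/
private theorem abs_oL {A : M} (A' : Sub (InL A)) : (oL A').1 = oL A'.1 := by
  apply Pool.Agent.H78.ZF.ext
  intro α
  constructor
  · intro h
    have hα1 : InL A α := sub_of_mem (K := InL A) h
    obtain ⟨α', hα'⟩ : ∃ α' : Sub (InL A), α'.1 = α := ⟨⟨α, hα1⟩, rfl⟩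
    subst hα'
    have h' : α' ∈ oL A' := h
    rw [mem_oL] at h'
    obtain ⟨h1, f, h2, h3⟩ := h'
    have h4 := abs_Inj.1 h3
    rw [abs_omega] at h4
    exact mem_oL.2 ⟨abs_Ord.1 h1, f.1, abs_InL.1 h2, h4⟩
  · intro h
    obtain ⟨h1, f, h2, h3⟩ := mem_oL.1 h
    obtain ⟨α', hα'⟩ : ∃ α' : Sub (InL A), α'.1 = α := ⟨⟨α, Inner.ord (K := InL A) α h1⟩, rfl⟩
    subst hα'
    obtain ⟨f', hf'⟩ : ∃ f' : Sub (InL A), f'.1 = f := ⟨⟨f, inL_in A' h2⟩, rfl⟩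
    subst hf'
    have : α' ∈ oL A' := by
      rw [mem_oL]
      refine ⟨abs_Ord.2 h1, f', abs_InL.2 h2, abs_Inj.2 ?_⟩
      rw [abs_omega]
      exact h3
    exact this

/-- **Theorem A.** -/
theorem thmA (k : ℕ) (hAC : AC M) (hD : Det (RS : M) k) :
    ∃ (W : Type u) (_ : ZFM W), AC W ∧ Det (RS : W) k ∧ Mini W k := by
  have hex : ∃ β : M, Ord β ∧ ∃ A θ : M, Ord θ ∧ A ⊆ prod θ omega ∧ Det (RL A) k ∧ oL A = β := by
    obtain ⟨A, θ, hθ, hA, h⟩ := exists_star hAC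
    refine ⟨oL A, ord_oL A, A, θ, hθ, hA, ?_, rfl⟩
    have : RL A = RS := by
      apply Pool.Agent.H78.ZF.ext
      intro x
      rw [mem_RL]
      exact ⟨fun h => h.1, fun hx => ⟨hx, h x hx⟩⟩
    rw [this]
    exact hD
  obtain ⟨β, hβ, ⟨A, θ, hθ, hA, hDet, hoL⟩, hmin⟩ := exists_leastO
    (fun β : M => ∃ A θ : M, Ord θ ∧ A ⊆ prod θ omega ∧ Det (RL A) k ∧ oL A = β) hex
  refine ⟨Sub (InL A), inferInstance, ac_L hθ hA, ?_, ?_⟩
  · rw [abs_Det]
    have : (RS : Sub (InL A)).1 = RL A := by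
      apply Pool.Agent.H78.ZF.ext
      intro x
      rw [mem_RL]
      constructor
      · intro h
        have hx : InL A x := sub_of_mem (K := InL A) h
        obtain ⟨x', hx'⟩ : ∃ x' : Sub (InL A), x'.1 = x := ⟨⟨x, hx⟩, rfl⟩
        subst hx'
        exact ⟨abs_RS.1 h, hx⟩
      · rintro ⟨h, hx⟩
        obtain ⟨x', hx'⟩ : ∃ x' : Sub (InL A), x'.1 = x := ⟨⟨x, hx⟩, rfl⟩
        subst hx'
        exact abs_RS.2 h
    rw [this]
    exact hDet
  · intro A' hD' hctb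
    rw [abs_Det, abs_RL] at hD'
    obtain ⟨B, θ', hθ', hB, hh⟩ := exists_shape A'.1
    have hc : ∀ x, InL B x ↔ InL A'.1 x := inL_congr hh
    have hRL : RL B = RL A'.1 := by
      apply Pool.Agent.H78.ZF.ext
      intro x
      rw [mem_RL, mem_RL, hc]
    have hoB : oL B = oL A'.1 := by
      apply Pool.Agent.H78.ZF.ext
      intro x
      rw [mem_oL, mem_oL]
      simp only [hc]
    have h1 := ctb_oL hctb
    obtain ⟨f, hf⟩ := h1
    have hf' := abs_Inj.1 hf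
    rw [abs_omega, abs_oL, ← hoB] at hf'
    have h2 : oL B ∈ β := by
      rw [← hoL, mem_oL]
      exact ⟨ord_oL B, f.1, f.2, hf'⟩
    exact hmin _ h2 ⟨B, θ', hθ', hB, by rw [hRL]; exact hD', rfl⟩

end Pool.Agent.ZFIter.NPA
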