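import Pool.Agent.NPA.Defs5

/-!
# NPA/BRel: relativization of formulas to a definable class

`K` is a definable class, `{x // K x}` carries the structure `strK K` (restricted membership).
`rel_real`: induction on the formula (terms are variables, since `LSet` has no function symbols; the
relation symbol is `MemSymb.mem`); the quantifier step is `DR.all` relativized: the variable of the
quantifier is the last one, `Fin.snoc`; reindex with `DR.weaken`.
`def_formula`: this is `key` in the proof of `isZFModel_of` in ZFIter/SymExist (copy it).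
`rel_def`: combine the two; the parameters `a : Fin n → {x // K x}` are substituted as constants
(`DR.subst`). The last two theorems are the special cases used most.
-/

universe u

namespace Pool.Agent.ZFIter.NPA

open Pool.Agent.H78.ZF Pool.Agent.ZFIter

variable {M : Type u} [ZFM M] {ι : Type}

open FirstOrder Set

/-- The membership structure on the class `K`. -/
@[reducible] def strK (K : M → Prop) : LSet.Structure {x : M // K x} :=
  structOf (fun x y : {x : M // K x} => x.1 ∈ y.1)

private theorem DR_forall {κ : Type} [Finite κ] (P : κ → (ι → M) → Prop) (h : ∀ i, DR (P i)) :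
    DR (fun v => ∀ i, P i v) := by
  cases nonempty_fintype κ
  constructor
  have := Set.definable_biInter_finset (f := fun i => {v : ι → M | P i v}) (fun i => (h i).out)
    Finset.univ
  convert this using 1
  ext v
  simp

private theorem DR_congr {P Q : (ι → M) → Prop} (h : DR P) (e : ∀ v, P v ↔ Q v) : DR Q := by
  have : P = Q := funext fun v => propext (e v)
  rwa [← this]

private theorem term_var {α : Type} (t : LSet.Term α) : ∃ a, t = FirstOrder.Language.Term.var a := by
  cases t with
  | var a => exact ⟨a, rfl⟩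
  | func f _ => exact nomatch f

theorem rel_real (K : M → Prop) [D1 K] {N m : ℕ} (φ : LSet.BoundedFormula (Fin N) m) :
    letI := strK K
    DR (M := M) (ι := Fin N ⊕ Fin m) (fun v => ∃ h : ∀ i, K (v i),
      φ.Realize (fun i => (⟨v (Sum.inl i), h _⟩ : {x : M // K x}))
        (fun j => (⟨v (Sum.inr j), h _⟩ : {x : M // K x}))) := by
  letI := strK K
  have hK : ∀ m : ℕ, DR (M := M) (ι := Fin N ⊕ Fin m) (fun v => ∀ i, K (v i)) := fun m =>
    DR_forall (fun i v => K (v i)) (fun i => inferInstance)
  have hval : ∀ {m : ℕ} (v : Fin N ⊕ Fin m → M) (h : ∀ i, K (v i)) (a : Fin N ⊕ Fin m),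
      Sum.elim (fun i => (⟨v (Sum.inl i), h _⟩ : {x : M // K x}))
        (fun j => (⟨v (Sum.inr j), h _⟩ : {x : M // K x})) a = ⟨v a, h a⟩ := by
    intro m v h a
    cases a <;> rfl
  induction φ with
  | falsum =>
    refine DR_congr (DR.const (M := M) False) fun v => ⟨fun h => h.elim, ?_⟩
    rintro ⟨_, h⟩
    exact h
  | @equal m t₁ t₂ =>
    obtain ⟨a, rfl⟩ := term_var t₁
    obtain ⟨b, rfl⟩ := term_var t₂
    refine DR_congr (P := fun v => (∀ i, K (v i)) ∧ v a = v b) ?_ fun v => ?_
    · have := hK m
      infer_instance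
    · constructor
      · rintro ⟨h, e⟩
        refine ⟨h, ?_⟩
        simp only [Language.BoundedFormula.Realize, Language.Term.realize_var, hval]
        exact Subtype.ext e
      · rintro ⟨h, e⟩
        refine ⟨h, ?_⟩
        simp only [Language.BoundedFormula.Realize, Language.Term.realize_var, hval] at e
        exact congrArg Subtype.val e
  | @rel m l R ts =>
    cases R
    obtain ⟨a, ha⟩ := term_var (ts 0)
    obtain ⟨b, hb⟩ := term_var (ts 1)
    refine DR_congr (P := fun v => (∀ i, K (v i)) ∧ v a ∈ v b) ?_ fun v => ?_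
    · have := hK m
      infer_instance
    · have key : ∀ h : ∀ i, K (v i), (Language.BoundedFormula.rel MemSymb.mem ts).Realize
          (fun i => (⟨v (Sum.inl i), h _⟩ : {x : M // K x}))
          (fun j => (⟨v (Sum.inr j), h _⟩ : {x : M // K x})) ↔ v a ∈ v b := by
        intro h
        have e : ∀ w : Fin 2 → {x : M // K x},
            (Language.Structure.RelMap (L := LSet) MemSymb.mem w ↔ (w 0).1 ∈ (w 1).1) :=
          fun w => Iff.rfl
        simp only [Language.BoundedFormula.Realize, e, ha, hb, Language.Term.realize_var, hval]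
      constructor
      · rintro ⟨h, e⟩
        exact ⟨h, (key h).2 e⟩
      · rintro ⟨h, e⟩
        exact ⟨h, (key h).1 e⟩
  | @imp m f g ihf ihg =>
    refine DR_congr (P := fun v => (∀ i, K (v i)) ∧ ((∃ h : ∀ i, K (v i),
      f.Realize (fun i => (⟨v (Sum.inl i), h _⟩ : {x : M // K x}))
        (fun j => (⟨v (Sum.inr j), h _⟩ : {x : M // K x}))) → (∃ h : ∀ i, K (v i),
      g.Realize (fun i => (⟨v (Sum.inl i), h _⟩ : {x : M // K x}))
        (fun j => (⟨v (Sum.inr j), h _⟩ : {x : M // K x}))))) ?_ fun v => ?_
    · have := hK m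
      infer_instance
    · constructor
      · rintro ⟨h, e⟩
        refine ⟨h, ?_⟩
        intro hf
        obtain ⟨_, hg⟩ := e ⟨h, hf⟩
        exact hg
      · rintro ⟨h, e⟩
        refine ⟨h, ?_⟩
        rintro ⟨_, hf⟩
        exact ⟨h, e hf⟩
  | @all m f ih =>
    -- the formula with the last variable split off
    have h1 : DR (M := M) (ι := Option (Fin N ⊕ Fin m)) (fun w => ∃ h : ∀ i, K
        (w (Sum.elim (fun i => some (Sum.inl i)) (Fin.snoc (α := fun _ => Option (Fin N ⊕ Fin m))
          (fun j => some (Sum.inr j)) none) i)),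
      f.Realize (fun i => (⟨w (some (Sum.inl i)), h (Sum.inl i)⟩ : {x : M // K x}))
        (fun j => (⟨w (Fin.snoc (α := fun _ => Option (Fin N ⊕ Fin m))
          (fun j => some (Sum.inr j)) none j), h (Sum.inr j)⟩ : {x : M // K x}))) :=
      DR.weaken (M := M) (fun v : Fin N ⊕ Fin (m + 1) → M => ∃ h : ∀ i, K (v i),
        f.Realize (fun i => (⟨v (Sum.inl i), h _⟩ : {x : M // K x}))
        (fun j => (⟨v (Sum.inr j), h _⟩ : {x : M // K x})))
        (Sum.elim (fun i => some (Sum.inl i)) (Fin.snoc (α := fun _ => Option (Fin N ⊕ Fin m))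
          (fun j => some (Sum.inr j)) none)) (h := ih)
    refine DR_congr (P := fun v => (∀ i, K (v i)) ∧ ∀ x : M, K x → (∃ h : ∀ i, K
        ((fun o : Option (Fin N ⊕ Fin m) => o.elim x v) (Sum.elim (fun i => some (Sum.inl i))
          (Fin.snoc (α := fun _ => Option (Fin N ⊕ Fin m)) (fun j => some (Sum.inr j)) none) i)),
      f.Realize (fun i => (⟨(fun o : Option (Fin N ⊕ Fin m) => o.elim x v) (some (Sum.inl i)),
          h (Sum.inl i)⟩ : {x : M // K x}))
        (fun j => (⟨(fun o : Option (Fin N ⊕ Fin m) => o.elim x v)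
          (Fin.snoc (α := fun _ => Option (Fin N ⊕ Fin m))
          (fun j => some (Sum.inr j)) none j), h (Sum.inr j)⟩ : {x : M // K x})))) ?_ fun v => ?_
    · have hk := hK m
      have h2 : DR (M := M) (ι := Fin N ⊕ Fin m) (fun v => ∀ x : M, K x → (∃ h : ∀ i, K
        ((fun o : Option (Fin N ⊕ Fin m) => o.elim x v) (Sum.elim (fun i => some (Sum.inl i))
          (Fin.snoc (α := fun _ => Option (Fin N ⊕ Fin m)) (fun j => some (Sum.inr j)) none) i)),
        f.Realize (fun i => (⟨(fun o : Option (Fin N ⊕ Fin m) => o.elim x v) (some (Sum.inl i)),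
          h (Sum.inl i)⟩ : {x : M // K x}))
        (fun j => (⟨(fun o : Option (Fin N ⊕ Fin m) => o.elim x v)
          (Fin.snoc (α := fun _ => Option (Fin N ⊕ Fin m))
          (fun j => some (Sum.inr j)) none j), h (Sum.inr j)⟩ : {x : M // K x})))) := by
        refine @DR.all M _ _ _ ?_
        refine @DR.imp M _ _ _ _ inferInstance ?_
        refine DR_congr h1 fun w => ?_
        have hw : (fun o : Option (Fin N ⊕ Fin m) => o.elim (w none) fun i => w (some i)) = w := by
          funext o
          cases o <;> rfl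
        rw [hw]
      exact @DR.and M _ _ _ _ hk h2
    · constructor
      · rintro ⟨h, e⟩
        refine ⟨h, ?_⟩
        rw [Language.BoundedFormula.realize_all]
        intro a
        obtain ⟨hh, e'⟩ := e a.1 a.2
        have e1 : (Fin.snoc (fun j => (⟨v (Sum.inr j), h _⟩ : {x : M // K x})) a :
            Fin (m + 1) → {x : M // K x}) = fun j =>
            (⟨(fun o : Option (Fin N ⊕ Fin m) => o.elim a.1 v)
              (Fin.snoc (α := fun _ => Option (Fin N ⊕ Fin m))
              (fun j => some (Sum.inr j)) none j), hh (Sum.inr j)⟩ : {x : M // K x}) := by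
          funext j
          apply Subtype.ext
          refine Fin.lastCases ?_ (fun j => ?_) j
          · simp
          · simp
        rw [e1]
        exact e'
      · rintro ⟨h, e⟩
        refine ⟨h, fun x hx => ?_⟩
        rw [Language.BoundedFormula.realize_all] at e
        have hh : ∀ i, K ((fun o : Option (Fin N ⊕ Fin m) => o.elim x v)
            (Sum.elim (fun i => some (Sum.inl i))
          (Fin.snoc (α := fun _ => Option (Fin N ⊕ Fin m)) (fun j => some (Sum.inr j)) none) i)) := by
          rintro (i | j)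
          · exact h _
          · refine Fin.lastCases ?_ (fun j => ?_) j
            · simpa using hx
            · simpa using h (Sum.inr j)
        refine ⟨hh, ?_⟩
        have e' := e ⟨x, hx⟩
        have e1 : (Fin.snoc (fun j => (⟨v (Sum.inr j), h _⟩ : {x : M // K x})) ⟨x, hx⟩ :
            Fin (m + 1) → {x : M // K x}) = fun j =>
            (⟨(fun o : Option (Fin N ⊕ Fin m) => o.elim x v)
              (Fin.snoc (α := fun _ => Option (Fin N ⊕ Fin m))
              (fun j => some (Sum.inr j)) none j), hh (Sum.inr j)⟩ : {x : M // K x}) := by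
          funext j
          apply Subtype.ext
          refine Fin.lastCases ?_ (fun j => ?_) j
          · simp
          · simp
        rw [e1] at e'
        exact e'

theorem def_formula {S : Type u} [LSet.Structure S] (k : ℕ) (s : Set (Fin k → S))
    (hs : (Set.univ : Set S).Definable LSet s) :
    ∃ (n : ℕ) (φ : LSet.Formula (Fin k ⊕ Fin n)) (a : Fin n → S),
      s = {v | φ.Realize (Sum.elim v a)} := by
  obtain ⟨A0, _, hs'⟩ := Set.definable_iff_finitely_definable.1 hs
  obtain ⟨φ, hφ⟩ := Set.definable_iff_exists_formula_sum.1 hs'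
  obtain ⟨n, ⟨e⟩⟩ := Finite.exists_equiv_fin (A0 : Set S)
  refine ⟨n, φ.relabel (fun x => x.elim (fun a => Sum.inr (e a)) Sum.inl),
    fun i => (e.symm i : S), ?_⟩
  rw [hφ]
  ext v
  simp only [Set.mem_ofPred_eq, Language.Formula.realize_relabel]
  have : (Sum.elim v (fun i => ((e.symm i : (A0 : Set S)) : S))) ∘
      (fun x : (A0 : Set S) ⊕ Fin k => x.elim (fun a => Sum.inr (e a)) Sum.inl) =
      Sum.elim (fun a : (A0 : Set S) => (a : S)) v := by
    funext x
    rcases x with a | i
    · simp
    · simp
  rw [this]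

theorem rel_def (K : M → Prop) [D1 K] {k : ℕ} (P : (Fin k → {x : M // K x}) → Prop)
    (hP : letI := strK K; (Set.univ : Set {x : M // K x}).Definable LSet {v | P v}) :
    DR (M := M) (ι := Fin k) (fun v => ∃ h : ∀ i, K (v i), P (fun i => ⟨v i, h i⟩)) := by
  letI := strK K
  obtain ⟨n, φ, a, hφ⟩ := def_formula k _ hP
  have hP' : ∀ v : Fin k → {x : M // K x}, P v ↔ φ.Realize (Sum.elim v a) := by
    intro v
    have : v ∈ {v | P v} ↔ v ∈ {v | φ.Realize (Sum.elim v a)} := by rw [hφ]
    exact this
  have h1 := rel_real K (N := k + n) (m := 0) (φ.relabel (finSumFinEquiv : Fin k ⊕ Fin n → Fin (k + n)))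
  set F : Fin (k + n) ⊕ Fin 0 → (Fin k → M) → M := fun o v =>
    Sum.elim (fun i => Sum.elim v (fun j => (a j).1) (finSumFinEquiv.symm i)) (fun j => j.elim0) o
    with hF
  have hFD : ∀ i, DF (F i) := by
    rintro (i | j)
    · simp only [hF, Sum.elim_inl]
      rcases finSumFinEquiv.symm i with i | j
      · simp only [Sum.elim_inl]
        infer_instance
      · simp only [Sum.elim_inr]
        infer_instance
    · exact j.elim0
  have h2 := @DR.subst M _ (Fin k) (Fin (k + n) ⊕ Fin 0) _ _ h1 F hFD
  refine DR_congr h2 fun v => ?_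
  have key : ∀ (h : ∀ i, K (v i)) (h' : ∀ i, K (F i v)),
      (φ.relabel (finSumFinEquiv : Fin k ⊕ Fin n → Fin (k + n))).Realize
        (fun i => (⟨F (Sum.inl i) v, h' _⟩ : {x : M // K x}))
        ↔ P (fun i => ⟨v i, h i⟩) := by
    intro h h'
    rw [hP', Language.Formula.realize_relabel]
    have : ((fun i => (⟨F (Sum.inl i) v, h' _⟩ : {x : M // K x})) ∘
        (finSumFinEquiv : Fin k ⊕ Fin n → Fin (k + n))) =
        Sum.elim (fun i => (⟨v i, h i⟩ : {x : M // K x})) a := by
      funext x
      apply Subtype.ext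
      rcases x with i | j
      · simp [hF]
      · simp [hF]
    rw [this]
  constructor
  · rintro ⟨h', e⟩
    have h : ∀ i, K (v i) := by
      intro i
      have := h' (Sum.inl (finSumFinEquiv (Sum.inl i)))
      simpa [hF] using this
    refine ⟨h, (key h h').1 ?_⟩
    rw [Language.Formula.Realize]
    exact (congrArg (fun z => Language.BoundedFormula.Realize _ _ z)
      (funext fun j => j.elim0 : (default : Fin 0 → {x : M // K x}) = _)).mpr e
  · rintro ⟨h, e⟩
    have h' : ∀ i, K (F i v) := by
      rintro (i | j)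
      · simp only [hF, Sum.elim_inl]
        rcases finSumFinEquiv.symm i with i | j
        · exact h i
        · exact (a j).2
      · exact j.elim0
    refine ⟨h', ?_⟩
    have e' := (key h h').2 e
    rw [Language.Formula.Realize] at e'
    exact (congrArg (fun z => Language.BoundedFormula.Realize _ _ z)
      (funext fun j => j.elim0 : (default : Fin 0 → {x : M // K x}) = _)).mp e'

theorem rel_def1 (K : M → Prop) [D1 K] (P : {x : M // K x} → Prop)
    (hP : letI := strK K; (Set.univ : Set {x : M // K x}).Definable₁ LSet {x | P x}) :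
    D1 (M := M) (fun x => ∃ h : K x, P ⟨x, h⟩) := by
  have h1 := rel_def K (k := 1) (fun v => P (v 0)) hP
  have h2 := DR.weaken (M := M) (κ := Unit) _ (fun _ : Fin 1 => ()) (h := h1)
  refine ⟨DR_congr h2 fun v => ?_⟩
  constructor
  · rintro ⟨h, e⟩
    exact ⟨h 0, e⟩
  · rintro ⟨h, e⟩
    exact ⟨fun _ => h, e⟩

theorem rel_def2 (K : M → Prop) [D1 K] (P : {x : M // K x} → {x : M // K x} → Prop)
    (hP : letI := strK K; (Set.univ : Set {x : M // K x}).Definable₂ LSet {p | P p.1 p.2}) :
    D2 (M := M) (fun x y => ∃ (h : K x) (h' : K y), P ⟨x, h⟩ ⟨y, h'⟩) := by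
  have h1 := rel_def K (k := 2) (fun v => P (v 0) (v 1)) hP
  refine ⟨DR_congr h1 fun v => ?_⟩
  constructor
  · rintro ⟨h, e⟩
    exact ⟨h 0, h 1, e⟩
  · rintro ⟨h, h', e⟩
    refine ⟨fun i => ?_, e⟩
    fin_cases i
    · exact h
    · exact h'

end Pool.Agent.ZFIter.NPA
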