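import Pool.Agent.NPA.BHier
import Pool.Agent.NPA.BRel

/-!
# NPA/BSep: separation for formulas in `L[A]`

`tup n v` = the nested tuple `((..(emp, v 0), v 1)..., v (n-1))`; `pw X n` = the set of all nested
`n`-tuples of elements of `X`. For every formula and every `X ∈ L[A]` the set of all tuples from `X` for
which the formula holds in `L[A]` is in `L[A]`.

Proof by induction on the formula, for all `X` at once; write `n = N + m`. Everything is a subset of
`pw X n ∈ L[A]` (`prod X Y ∈ L[A]` by `inL_op4, inL_op5` applied inside a large `RG A α ∈ L[A]`, see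
`inL_bound`: `{w ∈ RG : w = (u,v), v ∈ Y}` and `{w ∈ RG : w = (u,v), (v,u) ∈ {z ∈ RG : z = (v', u'), u' ∈ X}}`;
intersections are differences). Boolean connectives: `inL_diff`.
Atomic formulas `x_i ∈ x_j`, `x_i = x_j` (terms are variables): let `E = {(u,v) : u ∈ v}` or
`{(u,u)}` inside `prod X X` (`inL_op3, inL_op10`), for `i < j`; the set of `(t, u, v)` (= `((t,u),v)`)
with `t ∈ pw X i`, `(u,v) ∈ E` is `inL_op7`; then insert the coordinates between `i` and `j` one by one with
`inL_op8`, and add the coordinates after `j` by products. For `i > j` start from the converse of `E`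
(`inL_op5`), for `i = j` from the empty set or everything.
Quantifier: `∀ y φ(t, y)`. By `rel_real`, replacement and the least index there is `Y = RG A β ⊇ X` such
that for every `t ∈ pw X n` with a counterexample `y ∈ L[A]` there is one in `Y`; by the induction
hypothesis for `Y` the set `{s ∈ pw Y (n+1) : φ s}` is in `L[A]`; take its complement in `pw Y (n+1)`,
project it (`inL_op6`) to `pw X n` and take the complement.
-/

universe u

namespace Pool.Agent.ZFIter.NPA

open Pool.Agent.H78.ZF Pool.Agent.ZFIter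

variable {M : Type u} [ZFM M] {ι : Type}

open FirstOrder

/-- first coordinate -/
private noncomputable def pfst (w : M) : M := iota (fun x => ∃ y, w = opair x y)

/-- second coordinate -/
private noncomputable def psnd (w : M) : M := iota (fun y => ∃ x, w = opair x y)

private instance DF_pfst (s : (ι → M) → M) [DF s] : DF (fun v => pfst (s v)) := by
  unfold pfst
  infer_instance

private instance DF_psnd (s : (ι → M) → M) [DF s] : DF (fun v => psnd (s v)) := by
  unfold psnd
  infer_instance

private theorem pfst_opair (x y : M) : pfst (opair x y) = x :=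
  iota_eq ⟨y, rfl⟩ (by rintro z ⟨w, e⟩; exact (Pool.Agent.H78.ZF.opair_inj e).1.symm)

private theorem psnd_opair (x y : M) : psnd (opair x y) = y :=
  iota_eq ⟨x, rfl⟩ (by rintro z ⟨w, e⟩; exact (Pool.Agent.H78.ZF.opair_inj e).2.symm)

/-- nested tuples -/
noncomputable def tup : (n : ℕ) → (Fin n → M) → M
  | 0, _ => emp
  | n + 1, v => opair (tup n (fun i => v i.castSucc)) (v (Fin.last n))

/-- the set of all nested tuples with entries in `X` -/
noncomputable def pw (X : M) : ℕ → M
  | 0 => sing emp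
  | n + 1 => prod (pw X n) X

/-- the coordinates of a nested tuple -/
private noncomputable def untup : (n : ℕ) → M → (Fin n → M)
  | 0, _ => Fin.elim0
  | n + 1, t => Fin.snoc (α := fun _ => M) (untup n (pfst t)) (psnd t)

private theorem DF_untup (n : ℕ) : ∀ (s : (ι → M) → M) [DF s] (i : Fin n),
    DF (fun v => untup n (s v) i) := by
  induction n with
  | zero => intro s _ i; exact i.elim0
  | succ n ih =>
    intro s _ i
    refine Fin.lastCases ?_ (fun i => ?_) i
    · simp only [untup, Fin.snoc_last]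
      infer_instance
    · simp only [untup, Fin.snoc_castSucc]
      exact ih (fun v => pfst (s v)) i

private theorem untup_tup (n : ℕ) (v : Fin n → M) : untup n (tup n v) = v := by
  induction n with
  | zero => funext i; exact i.elim0
  | succ n ih =>
    funext i
    refine Fin.lastCases ?_ (fun i => ?_) i
    · simp only [untup, tup, Fin.snoc_last, psnd_opair]
    · simp only [untup, tup, Fin.snoc_castSucc, pfst_opair]
      rw [ih]

private theorem tup_mem_pw {X : M} (n : ℕ) (v : Fin n → M) :
    tup n v ∈ pw X n ↔ ∀ i, v i ∈ X := by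
  induction n with
  | zero => simp [tup, pw]
  | succ n ih =>
    simp only [tup, pw, opair_mem_prod]
    rw [ih, Fin.forall_fin_succ']

private theorem pw_eq {X : M} (n : ℕ) {t : M} (h : t ∈ pw X n) : tup n (untup n t) = t := by
  induction n generalizing t with
  | zero =>
    simp only [pw, mem_sing] at h
    simp [tup, h]
  | succ n ih =>
    simp only [pw, mem_prod] at h
    obtain ⟨t', ht', x, hx, rfl⟩ := h
    simp only [tup, untup, Fin.snoc_castSucc, Fin.snoc_last, pfst_opair, psnd_opair]
    rw [ih ht']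

section inL
variable {A : M}

private theorem inL_emp {X : M} (hX : InL A X) : InL A (emp : M) := by
  have h := inL_diff hX hX
  have e : sep X (fun w => w ∉ X) = emp := eq_emp fun z hz => by
    rw [mem_sep] at hz
    exact hz.2 hz.1
  rwa [e] at h

private theorem inL_inter {X Y : M} (hX : InL A X) (hY : InL A Y) :
    InL A (sep X (fun w => w ∈ Y)) := by
  have h := inL_diff hX (inL_diff hX hY)
  have e : sep X (fun w => w ∉ sep X (fun w => w ∉ Y)) = sep X (fun w => w ∈ Y) := by
    apply ext
    intro w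
    rw [mem_sep, mem_sep, mem_sep]
    tauto
  rwa [e] at h

private theorem inL_prod {X Y : M} (hX : InL A X) (hY : InL A Y) : InL A (prod X Y) := by
  obtain ⟨α, hα, h1⟩ := inL_bound A (un (prod X Y) (prod Y X)) (by
    intro x hx
    rw [mem_un, mem_prod, mem_prod] at hx
    rcases hx with ⟨u, hu, v, hv, rfl⟩ | ⟨u, hu, v, hv, rfl⟩
    · exact inL_opair (inL_trans hX hu) (inL_trans hY hv)
    · exact inL_opair (inL_trans hY hu) (inL_trans hX hv))
  have hZ := inL_RG A hα
  have h2 := inL_inter (inL_op4 hZ hY) (inL_op5 hZ (inL_op4 hZ hX))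
  have e : sep (sep (RG A α) (fun w => ∃ u v, w = opair u v ∧ v ∈ Y))
      (fun w => w ∈ sep (RG A α) (fun w => ∃ u v, w = opair u v ∧ opair v u ∈
        sep (RG A α) (fun w => ∃ u v, w = opair u v ∧ v ∈ X))) = prod X Y := by
    apply ext
    intro w
    simp only [mem_sep, mem_prod]
    constructor
    · rintro ⟨⟨_, u, v, rfl, hv⟩, _, u', v', e1, _, u'', v'', e2, hv''⟩
      obtain ⟨rfl, rfl⟩ := opair_inj e1
      obtain ⟨rfl, rfl⟩ := opair_inj e2
      exact ⟨u, hv'', v, hv, rfl⟩
    · rintro ⟨u, hu, v, hv, rfl⟩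
      have m1 : opair u v ∈ RG A α := h1 _ (by rw [mem_un]; left; simp [hu, hv])
      have m2 : opair v u ∈ RG A α := h1 _ (by rw [mem_un]; right; simp [hu, hv])
      exact ⟨⟨m1, u, v, rfl, hv⟩, m1, u, v, rfl, m2, v, u, rfl, hu⟩
  rwa [e] at h2

private theorem inL_pw {X : M} (hX : InL A X) (n : ℕ) : InL A (pw X n) := by
  induction n with
  | zero => exact inL_upair (inL_emp hX) (inL_emp hX)
  | succ n ih => exact inL_prod ih hX

/-- the set of tuples with the property `R` is in `L[A]` -/
private def SepR (A : M) (n : ℕ) (R : (Fin n → M) → Prop) : Prop :=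
  ∀ X, InL A X → ∃ D, InL A D ∧ D ⊆ pw X n ∧
    ∀ v : Fin n → M, (∀ i, v i ∈ X) → (tup n v ∈ D ↔ R v)

private theorem sepR_of {n : ℕ} {R : (Fin n → M) → Prop} (h : ∀ X, InL A X → ∃ D, InL A D ∧
    ∀ v : Fin n → M, (∀ i, v i ∈ X) → (tup n v ∈ D ↔ R v)) : SepR A n R := by
  intro X hX
  obtain ⟨D, hD, h1⟩ := h X hX
  refine ⟨sep (pw X n) (fun w => w ∈ D), inL_inter (inL_pw hX n) hD, fun w hw => ?_, fun v hv => ?_⟩
  · rw [mem_sep] at hw; exact hw.1
  · rw [mem_sep, h1 v hv]
    exact ⟨fun h => h.2, fun h => ⟨(tup_mem_pw n v).2 hv, h⟩⟩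

private theorem SepR.congr {n : ℕ} {R R' : (Fin n → M) → Prop} (h : SepR A n R)
    (e : ∀ v, (∀ i, InL A (v i)) → (R v ↔ R' v)) : SepR A n R' := by
  intro X hX
  obtain ⟨D, hD, h1, h2⟩ := h X hX
  exact ⟨D, hD, h1, fun v hv => (h2 v hv).trans (e v fun i => inL_trans hX (hv i))⟩

private theorem sepR_false (n : ℕ) : SepR A n (fun _ => False) :=
  sepR_of fun X hX => ⟨emp, inL_emp hX, fun v _ => by simp⟩

private theorem sepR_imp {n : ℕ} {R R' : (Fin n → M) → Prop} (h : SepR A n R) (h' : SepR A n R') :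
    SepR A n (fun v => R v → R' v) := by
  refine sepR_of fun X hX => ?_
  obtain ⟨D, hD, _, h1⟩ := h X hX
  obtain ⟨D', hD', _, h1'⟩ := h' X hX
  refine ⟨_, inL_diff (inL_pw hX n) (inL_diff hD hD'), fun v hv => ?_⟩
  rw [mem_sep, mem_sep, h1 v hv, h1' v hv]
  have := (tup_mem_pw n v).2 hv
  tauto

private theorem sepR_true (n : ℕ) : SepR A n (fun _ => True) :=
  (sepR_imp (sepR_false n) (sepR_false n)).congr fun v _ => by simp

/-- binary relations -/
private def BinR (A : M) (E : M → M → Prop) : Prop :=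
  ∀ X, InL A X → ∃ S, InL A S ∧ ∀ u v, u ∈ X → v ∈ X → (opair u v ∈ S ↔ E u v)

private theorem binR_mem : BinR A (fun u v => u ∈ v) := by
  intro X hX
  refine ⟨_, inL_op3 (inL_prod hX hX), fun u v hu hv => ?_⟩
  rw [mem_sep]
  constructor
  · rintro ⟨_, u', v', e, h⟩
    obtain ⟨rfl, rfl⟩ := opair_inj e
    exact h
  · intro h
    exact ⟨by simp [hu, hv], u, v, rfl, h⟩

private theorem binR_eq : BinR A (fun u v => u = v) := by
  intro X hX
  refine ⟨_, inL_op10 (inL_prod hX hX), fun u v hu hv => ?_⟩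
  rw [mem_sep]
  constructor
  · rintro ⟨_, u', e⟩
    obtain ⟨rfl, rfl⟩ := opair_inj e
    rfl
  · rintro rfl
    exact ⟨by simp [hu], u, rfl⟩

private theorem BinR.swap {E : M → M → Prop} (h : BinR A E) : BinR A (fun u v => E v u) := by
  intro X hX
  obtain ⟨S, hS, h1⟩ := h X hX
  refine ⟨_, inL_op5 (inL_prod hX hX) hS, fun u v hu hv => ?_⟩
  change _ ↔ E v u
  rw [mem_sep, ← h1 v u hv hu]
  constructor
  · rintro ⟨_, u', v', e, h⟩
    obtain ⟨rfl, rfl⟩ := opair_inj e
    exact h
  · intro h
    exact ⟨by simp [hu, hv], u, v, rfl, h⟩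

private theorem sepR_last {E : M → M → Prop} (h : BinR A E) : ∀ (n : ℕ) (i : Fin n),
    SepR A (n + 1) (fun v => E (v i.castSucc) (v (Fin.last n))) := by
  intro n
  induction n with
  | zero => intro i; exact i.elim0
  | succ n ih =>
    intro i
    refine Fin.lastCases ?_ (fun i => ?_) i
    · refine sepR_of fun X hX => ?_
      obtain ⟨S, hS, h1⟩ := h X hX
      refine ⟨_, inL_op7 (inL_pw hX (n + 2)) hS, fun v hv => ?_⟩
      rw [mem_sep, ← h1 _ _ (hv _) (hv _)]
      constructor
      · rintro ⟨_, t, y, x, e, h⟩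
        simp only [tup] at e
        obtain ⟨e1, rfl⟩ := opair_inj e
        obtain ⟨_, rfl⟩ := opair_inj e1
        exact h
      · intro h
        exact ⟨(tup_mem_pw _ _).2 hv, _, _, _, rfl, h⟩
    · refine sepR_of fun X hX => ?_
      obtain ⟨D, hD, _, h1⟩ := ih i X hX
      refine ⟨_, inL_op8 (inL_pw hX (n + 2)) hD, fun v hv => ?_⟩
      have h2 := h1 (Fin.snoc (α := fun _ => M) (fun k => v k.castSucc.castSucc) (v (Fin.last (n + 1))))
        (by
          intro k
          refine Fin.lastCases ?_ (fun k => ?_) k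
          · rw [Fin.snoc_last]; exact hv _
          · rw [Fin.snoc_castSucc]; exact hv _)
      simp only [tup, Fin.snoc_castSucc, Fin.snoc_last] at h2
      rw [mem_sep, ← h2]
      constructor
      · rintro ⟨_, t, y, x, e, h⟩
        simp only [tup] at e
        obtain ⟨e1, rfl⟩ := opair_inj e
        obtain ⟨rfl, _⟩ := opair_inj e1
        exact h
      · intro h
        exact ⟨(tup_mem_pw _ _).2 hv, _, _, _, rfl, h⟩

private theorem sepR_lt {E : M → M → Prop} (h : BinR A E) : ∀ (n : ℕ) (i j : Fin n), i < j →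
    SepR A n (fun v => E (v i) (v j)) := by
  intro n
  induction n with
  | zero => intro i; exact i.elim0
  | succ n ih =>
    intro i j
    refine Fin.lastCases ?_ (fun j => ?_) j
    · intro hij
      have hi : i ≠ Fin.last n := hij.ne
      obtain ⟨i', rfl⟩ := Fin.exists_castSucc_eq.2 hi
      exact sepR_last h n i'
    · intro hij
      have hi : i ≠ Fin.last n := (hij.trans (Fin.castSucc_lt_last j)).ne
      obtain ⟨i', rfl⟩ := Fin.exists_castSucc_eq.2 hi
      refine sepR_of fun X hX => ?_
      obtain ⟨D, hD, _, h1⟩ := ih i' j (by simpa using hij) X hX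
      refine ⟨prod D X, inL_prod hD hX, fun v hv => ?_⟩
      simp only [tup, opair_mem_prod]
      rw [h1 _ (fun k => hv k.castSucc)]
      exact ⟨fun h => h.1, fun h => ⟨h, hv _⟩⟩

private theorem sepR_mem (n : ℕ) (i j : Fin n) : SepR A n (fun v => v i ∈ v j) := by
  rcases lt_trichotomy i j with h | rfl | h
  · exact sepR_lt binR_mem n i j h
  · exact (sepR_false n).congr fun v _ => by simp [not_mem_self]
  · exact sepR_lt binR_mem.swap n j i h

private theorem sepR_eq (n : ℕ) (i j : Fin n) : SepR A n (fun v => v i = v j) := by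
  rcases lt_trichotomy i j with h | rfl | h
  · exact sepR_lt binR_eq n i j h
  · exact (sepR_true n).congr fun v _ => by simp
  · exact sepR_lt binR_eq.swap n j i h

private theorem sepR_all {n : ℕ} (R : (Fin (n + 1) → M) → Prop) [hR : DR R] (h : SepR A (n + 1) R) :
    SepR A n (fun v => ∀ y, InL A y → R (Fin.snoc (α := fun _ => M) v y)) := by
  refine sepR_of fun X hX => ?_
  obtain ⟨α, hα, rfl⟩ := hX
  -- the bound
  have hc0 : DR (M := M) (ι := Option Unit) (fun w =>
      ¬ R (Fin.snoc (α := fun _ => M) (untup n (w (some ()))) (hF A (w none)))) := by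
    have h1 : DR (M := M) (ι := Option Unit) (fun w =>
        R (fun i => Fin.snoc (α := fun _ => M) (untup n (w (some ()))) (hF A (w none)) i)) := by
      refine @DR.subst M _ (Option Unit) (Fin (n + 1)) _ R hR
        (fun i w => Fin.snoc (α := fun _ => M) (untup n (w (some ()))) (hF A (w none)) i) ?_
      intro i
      refine Fin.lastCases ?_ (fun i => ?_) i
      · simp only [Fin.snoc_last]
        infer_instance
      · simp only [Fin.snoc_castSucc]
        exact DF_untup n (fun w : Option Unit → M => w (some ())) i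
    exact @DR.not M _ _ _ h1
  have hc1 : F1 (fun t : M => leastO (fun a =>
      ¬ R (Fin.snoc (α := fun _ => M) (untup n t) (hF A a)))) := by
    refine ⟨?_⟩
    exact @DF.leastO M _ Unit (fun a (w : Unit → M) =>
      ¬ R (Fin.snoc (α := fun _ => M) (untup n (w ())) (hF A a))) hc0
  have hc2 : ∀ t : M, D1 (fun a => ¬ R (Fin.snoc (α := fun _ => M) (untup n t) (hF A a))) := by
    intro t
    refine ⟨?_⟩
    have h2 := @DR.subst M _ Unit (Option Unit) _ _ hc0
      (fun o w => o.elim (w ()) (fun _ => t)) (by rintro (_ | _) <;> simp <;> infer_instance)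
    exact h2
  obtain ⟨β, hβ, hb⟩ := exists_ord_gt (img (pw (hF A α) n) (fun t => leastO (fun a =>
      ¬ R (Fin.snoc (α := fun _ => M) (untup n t) (hF A a)))))
  have hun : Ord (un α β) := by
    rcases ord_un_cases hα hβ with h | h <;> rw [h.1]
    · exact hα
    · exact hβ
  set Y := RG A (un α β) with hY
  have hYL : InL A Y := inL_RG A hun
  have hXY : hF A α ⊆ Y := sub_trans (hF_sub_RG hα) (RG_mono (sub_un_left α β))
  obtain ⟨D, hD, _, h1⟩ := h Y hYL
  have hN := inL_diff (inL_pw hYL (n + 1)) hD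
  have hP := inL_op6 (inL_pw (inL_hF A hα) n) hN
  refine ⟨_, inL_diff (inL_pw (inL_hF A hα) n) hP, fun v hv => ?_⟩
  have hvp := (tup_mem_pw n v).2 hv
  have hsn : ∀ y, tup (n + 1) (Fin.snoc (α := fun _ => M) v y) = opair (tup n v) y := by
    intro y
    simp only [tup, Fin.snoc_castSucc, Fin.snoc_last]
  have hsY : ∀ y, y ∈ Y → ∀ i, (Fin.snoc (α := fun _ => M) v y : Fin (n + 1) → M) i ∈ Y := by
    intro y hy i
    refine Fin.lastCases ?_ (fun i => ?_) i
    · rw [Fin.snoc_last]; exact hy
    · rw [Fin.snoc_castSucc]; exact hXY _ (hv i)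
  rw [mem_sep]
  constructor
  · rintro ⟨_, hn⟩ y hy
    by_contra hc
    obtain ⟨γ, hγ, rfl⟩ := hy
    have := hc2 (tup n v)
    have h3 := leastO_spec (fun a => ¬ R (Fin.snoc (α := fun _ => M) (untup n (tup n v)) (hF A a)))
      ⟨γ, hγ, by rw [untup_tup]; exact hc⟩
    have h4 := hb _ (by
      rw [mem_img]
      exact ⟨tup n v, hvp, rfl⟩) h3.1
    set δ := leastO (fun a => ¬ R (Fin.snoc (α := fun _ => M) (untup n (tup n v)) (hF A a))) with hδ
    have h5 := h3.2.1
    rw [untup_tup] at h5
    have hdY : hF A δ ∈ Y := mem_RG.2 ⟨δ, sub_un_right α β _ h4, rfl⟩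
    apply hn
    rw [mem_sep]
    refine ⟨hvp, hF A δ, ?_⟩
    rw [mem_sep, ← hsn]
    refine ⟨(tup_mem_pw _ _).2 (hsY _ hdY), ?_⟩
    rw [h1 _ (hsY _ hdY)]
    exact h5
  · intro hall
    refine ⟨hvp, ?_⟩
    rw [mem_sep]
    rintro ⟨_, y, hy⟩
    rw [mem_sep, ← hsn] at hy
    obtain ⟨hy1, hy2⟩ := hy
    have hyY : y ∈ Y := by
      have := (tup_mem_pw _ _).1 hy1 (Fin.last n)
      rwa [Fin.snoc_last] at this
    rw [h1 _ (hsY _ hyY)] at hy2
    exact hy2 (hall y (inL_trans hYL hyY))

/-- the relation on tuples defined by a formula -/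
private def RF (A : M) {N m : ℕ} (φ : LSet.BoundedFormula (Fin N) m) (w : Fin (N + m) → M) : Prop :=
  letI := strK (InL A)
  ∃ h : ∀ i, InL A (w i), φ.Realize (fun i => (⟨w (Fin.castAdd m i), h _⟩ : {x : M // InL A x}))
    (fun j => (⟨w (Fin.natAdd N j), h _⟩ : {x : M // InL A x}))

private theorem DR_congr' {P Q : (ι → M) → Prop} (h : DR P) (e : ∀ v, P v ↔ Q v) : DR Q := by
  have : P = Q := funext fun v => propext (e v)
  rwa [← this]

private theorem DR_RF (A : M) {N m : ℕ} (φ : LSet.BoundedFormula (Fin N) m) : DR (RF A φ) := by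
  letI := strK (InL A)
  have h1 := rel_real (InL A) φ
  have h2 := DR.weaken (M := M) _ (finSumFinEquiv : Fin N ⊕ Fin m → Fin (N + m)) (h := h1)
  refine DR_congr' h2 fun w => ?_
  constructor
  · rintro ⟨h, e⟩
    refine ⟨fun i => ?_, e⟩
    obtain ⟨j, rfl⟩ := (finSumFinEquiv (m := N) (n := m)).surjective i
    exact h j
  · rintro ⟨h, e⟩
    exact ⟨fun i => h _, e⟩

private theorem tup_append_zero {n : ℕ} (w : Fin (n + 1) → M) (z : Fin 0 → M) :
    tup (n + 1 + 0) (@Fin.append (n + 1) 0 M w z) = tup (n + 1) w := by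
  have e : (@Fin.append (n + 1) 0 M w z : Fin (n + 1) → M) = w := by
    funext i
    exact @Fin.append_left (n + 1) 0 M w z i
  change tup (n + 1) (@Fin.append (n + 1) 0 M w z) = _
  rw [e]

private theorem mem_of_eq₂ {x x' y y' : M} (h1 : x = x') (h2 : y = y') (h : x' ∈ y') : x ∈ y := by
  rw [h1, h2]
  exact h

private theorem sepR_formula (A : M) {N m : ℕ} (φ : LSet.BoundedFormula (Fin N) m) :
    SepR A (N + m) (RF A φ) := by
  letI := strK (InL A)
  have hvar : ∀ {m : ℕ} (a : Fin N ⊕ Fin m) (w : Fin (N + m) → M) (h : ∀ i, InL A (w i)),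
      (Sum.elim (fun i => (⟨w (Fin.castAdd m i), h _⟩ : {x : M // InL A x}))
        (fun j => (⟨w (Fin.natAdd N j), h _⟩ : {x : M // InL A x})) a).1 =
        w (finSumFinEquiv a) := by
    intro m a w h
    cases a <;> rfl
  have tv : ∀ {α : Type} (t : LSet.Term α), ∃ a, t = FirstOrder.Language.Term.var a := by
    intro α t
    cases t with
    | var a => exact ⟨a, rfl⟩
    | func f _ => exact nomatch f
  induction φ with
  | falsum =>
    refine (sepR_false _).congr fun v _ => ⟨fun h => h.elim, ?_⟩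
    rintro ⟨_, h⟩
    exact h
  | @equal m t₁ t₂ =>
    obtain ⟨a, rfl⟩ := tv t₁
    obtain ⟨b, rfl⟩ := tv t₂
    refine (sepR_eq (N + m) (finSumFinEquiv a) (finSumFinEquiv b)).congr fun v hv => ?_
    constructor
    · intro e
      refine ⟨hv, ?_⟩
      simp only [Language.BoundedFormula.Realize, Language.Term.realize_var]
      apply Subtype.ext
      exact (hvar a v hv).trans (e.trans (hvar b v hv).symm)
    · rintro ⟨h, e⟩
      simp only [Language.BoundedFormula.Realize, Language.Term.realize_var] at e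
      have := congrArg Subtype.val e
      exact (hvar a v h).symm.trans (this.trans (hvar b v h))
  | @rel m l R ts =>
    cases R
    obtain ⟨a, ha⟩ := tv (ts 0)
    obtain ⟨b, hb⟩ := tv (ts 1)
    have e : ∀ w : Fin 2 → {x : M // InL A x},
        (Language.Structure.RelMap (L := LSet) MemSymb.mem w ↔ (w 0).1 ∈ (w 1).1) :=
      fun w => Iff.rfl
    refine (sepR_mem (N + m) (finSumFinEquiv a) (finSumFinEquiv b)).congr fun v hv => ?_
    constructor
    · intro e1
      refine ⟨hv, ?_⟩
      simp only [Language.BoundedFormula.Realize, e, ha, hb, Language.Term.realize_var]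
      have h1 := hvar a v hv
      have h2 := hvar b v hv
      exact mem_of_eq₂ h1 h2 e1
    · rintro ⟨h, e1⟩
      simp only [Language.BoundedFormula.Realize, e, ha, hb, Language.Term.realize_var] at e1
      exact mem_of_eq₂ (hvar a v h).symm (hvar b v h).symm e1
  | @imp m f g ihf ihg =>
    refine (sepR_imp ihf ihg).congr fun v hv => ?_
    constructor
    · intro e
      refine ⟨hv, fun hf => ?_⟩
      obtain ⟨_, hg⟩ := e ⟨hv, hf⟩
      exact hg
    · rintro ⟨h, e⟩ ⟨_, hf⟩
      exact ⟨hv, e hf⟩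
  | @all m f ih =>
    have hD := DR_RF A f
    refine (@sepR_all _ _ A (N + m) (RF (N := N) (m := m + 1) A f) hD ih).congr fun v hv => ?_
    have hs : ∀ (a : M) (ha : InL A a) (i : Fin (N + (m + 1))),
        InL A ((Fin.snoc (α := fun _ => M) v a : Fin (N + m + 1) → M) i) := by
      intro a ha i
      refine Fin.lastCases (n := N + m) ?_ (fun i => ?_) i
      · rw [Fin.snoc_last]; exact ha
      · rw [Fin.snoc_castSucc]; exact hv i
    have key : ∀ (a : M) (ha : InL A a) (h : ∀ i : Fin (N + (m + 1)),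
        InL A ((Fin.snoc (α := fun _ => M) v a : Fin (N + m + 1) → M) i)),
        (f.Realize (fun i => (⟨(Fin.snoc (α := fun _ => M) v a : Fin (N + m + 1) → M)
            (Fin.castAdd (m + 1) i), h _⟩ : {x : M // InL A x}))
          (fun j => (⟨(Fin.snoc (α := fun _ => M) v a : Fin (N + m + 1) → M)
            (Fin.natAdd N j), h _⟩ : {x : M // InL A x}))) ↔
        f.Realize (fun i => (⟨v (Fin.castAdd m i), hv _⟩ : {x : M // InL A x}))
          (Fin.snoc (fun j => (⟨v (Fin.natAdd N j), hv _⟩ : {x : M // InL A x})) ⟨a, ha⟩) := by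
      intro a ha h
      have e1 : (fun i => (⟨(Fin.snoc (α := fun _ => M) v a : Fin (N + m + 1) → M)
            (Fin.castAdd (m + 1) i), h _⟩ : {x : M // InL A x})) =
          fun i => (⟨v (Fin.castAdd m i), hv _⟩ : {x : M // InL A x}) := by
        funext i
        apply Subtype.ext
        change (Fin.snoc (α := fun _ => M) v a : Fin (N + m + 1) → M) (Fin.castSucc (Fin.castAdd m i)) = _
        rw [Fin.snoc_castSucc]
      have e2 : (fun j => (⟨(Fin.snoc (α := fun _ => M) v a : Fin (N + m + 1) → M)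
            (Fin.natAdd N j), h _⟩ : {x : M // InL A x})) =
          Fin.snoc (fun j => (⟨v (Fin.natAdd N j), hv _⟩ : {x : M // InL A x})) ⟨a, ha⟩ := by
        funext j
        apply Subtype.ext
        refine Fin.lastCases ?_ (fun j => ?_) j
        · rw [Fin.snoc_last]
          change (Fin.snoc (α := fun _ => M) v a : Fin (N + m + 1) → M) (Fin.last (N + m)) = _
          rw [Fin.snoc_last]
        · rw [Fin.snoc_castSucc]
          change (Fin.snoc (α := fun _ => M) v a : Fin (N + m + 1) → M)
            (Fin.castSucc (Fin.natAdd N j)) = _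
          rw [Fin.snoc_castSucc]
      rw [e1, e2]
    constructor
    · intro e
      refine ⟨hv, ?_⟩
      rw [Language.BoundedFormula.realize_all]
      intro a
      obtain ⟨h, e'⟩ := e a.1 a.2
      exact (key a.1 a.2 h).1 e'
    · rintro ⟨h, e⟩ a ha
      rw [Language.BoundedFormula.realize_all] at e
      exact ⟨hs a ha, (key a ha (hs a ha)).2 (e ⟨a, ha⟩)⟩

end inL

theorem sep_formula (A : M) {N m : ℕ} (φ : LSet.BoundedFormula (Fin N) m) :
    letI := strK (InL A)
    ∀ X, InL A X → ∃ D, InL A D ∧ D ⊆ pw X (N + m) ∧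
      ∀ (v : Fin N → {x : M // InL A x}) (xs : Fin m → {x : M // InL A x}),
        (∀ i, (v i).1 ∈ X) → (∀ i, (xs i).1 ∈ X) →
        (tup (N + m) (Fin.append (fun i => (v i).1) (fun i => (xs i).1)) ∈ D ↔ φ.Realize v xs) := by
  letI := strK (InL A)
  intro X hX
  obtain ⟨D, hD, h1, h2⟩ := sepR_formula A φ X hX
  refine ⟨D, hD, h1, fun v xs hv hxs => ?_⟩
  have hap : ∀ i, Fin.append (fun i => (v i).1) (fun i => (xs i).1) i ∈ X := by
    intro i
    refine Fin.addCases (fun i => ?_) (fun i => ?_) i
    · rw [Fin.append_left]; exact hv i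
    · rw [Fin.append_right]; exact hxs i
  rw [h2 _ hap]
  have e1 : ∀ h : ∀ i, InL A (Fin.append (fun i => (v i).1) (fun i => (xs i).1) i),
      (fun i => (⟨Fin.append (fun i => (v i).1) (fun i => (xs i).1) (Fin.castAdd m i), h _⟩ :
        {x : M // InL A x})) = v := by
    intro h
    funext i
    apply Subtype.ext
    simp only [Fin.append_left]
  have e2 : ∀ h : ∀ i, InL A (Fin.append (fun i => (v i).1) (fun i => (xs i).1) i),
      (fun j => (⟨Fin.append (fun i => (v i).1) (fun i => (xs i).1) (Fin.natAdd N j), h _⟩ :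
        {x : M // InL A x})) = xs := by
    intro h
    funext i
    apply Subtype.ext
    simp only [Fin.append_right]
  constructor
  · rintro ⟨h, e⟩
    rwa [e1 h, e2 h] at e
  · intro e
    have h : ∀ i, InL A (Fin.append (fun i => (v i).1) (fun i => (xs i).1) i) := fun i =>
      inL_trans hX (hap i)
    refine ⟨h, ?_⟩
    rw [e1 h, e2 h]
    exact e

/-- Separation in `L[A]`. -/
theorem sep_inL (A : M) (P : {x : M // InL A x} → Prop)
    (hP : letI := strK (InL A); (Set.univ : Set {x : M // InL A x}).Definable₁ LSet {x | P x})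
    (X : M) (hX : InL A X) :
    ∃ D, InL A D ∧ ∀ x : {x : M // InL A x}, x.1 ∈ D ↔ x.1 ∈ X ∧ P x := by
  letI := strK (InL A)
  obtain ⟨n, φ, a, hφ⟩ := def_formula 1 _ hP
  have hP' : ∀ x : {x : M // InL A x}, P x ↔ φ.Realize (Sum.elim (fun _ => x) a) := by
    intro x
    have : (fun _ : Fin 1 => x) ∈ {v : Fin 1 → {x : M // InL A x} | v 0 ∈ {x | P x}} ↔
        (fun _ : Fin 1 => x) ∈ {v | φ.Realize (Sum.elim v a)} := by rw [hφ]
    exact this
  -- a set containing the parameters and `X`
  have hX' : ∀ (n : ℕ) (a : Fin n → {x : M // InL A x}), ∃ X', InL A X' ∧ X ⊆ X' ∧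
      ∀ i, (a i).1 ∈ X' := by
    intro n
    induction n with
    | zero => exact fun a => ⟨X, hX, sub_refl X, fun i => i.elim0⟩
    | succ n ih =>
      intro a
      obtain ⟨X', h1, h2, h3⟩ := ih (fun i => a i.castSucc)
      refine ⟨un X' (sing (a (Fin.last n)).1), inL_un h1 (inL_upair (a _).2 (a _).2),
        sub_trans h2 (sub_un_left _ _), fun i => ?_⟩
      refine Fin.lastCases ?_ (fun i => ?_) i
      · exact sub_un_right _ _ _ (by simp)
      · exact sub_un_left _ _ _ (h3 i)
  obtain ⟨X', hX'L, hXX', haX'⟩ := hX' n a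
  set g : Fin 1 ⊕ Fin n → Fin (n + 1) := Sum.elim (fun _ => Fin.last n) Fin.castSucc with hg
  obtain ⟨D, hD, _, h2⟩ := sep_formula A (N := n + 1) (m := 0) (φ.relabel g) X' hX'L
  have htL : ∀ (n : ℕ) (a : Fin n → {x : M // InL A x}), InL A (tup n (fun i => (a i).1)) := by
    intro n
    induction n with
    | zero => exact fun a => inL_emp hX
    | succ n ih => exact fun a => inL_opair (ih (fun i => a i.castSucc)) (a _).2
  set t := tup n (fun i => (a i).1) with ht
  have h3 := inL_op6 hX (inL_op5 (inL_prod hX (inL_upair (htL n a) (htL n a))) hD)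
  refine ⟨_, h3, fun x => ?_⟩
  rw [mem_sep]
  have key : x.1 ∈ X → (opair t x.1 ∈ D ↔ P x) := by
    intro hx
    have h4 := h2 (Fin.snoc (α := fun _ => {x : M // InL A x}) a x) Fin.elim0 (by
      intro i
      refine Fin.lastCases ?_ (fun i => ?_) i
      · rw [Fin.snoc_last]; exact hXX' _ hx
      · rw [Fin.snoc_castSucc]; exact haX' i) (fun i => i.elim0)
    have e1 : tup (n + 1 + 0) (Fin.append (fun i => ((Fin.snoc (α := fun _ => {x : M // InL A x}) a x :
        Fin (n + 1) → {x : M // InL A x}) i).1) (fun i => ((Fin.elim0 : Fin 0 →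
          {x : M // InL A x}) i).1)) = opair t x.1 := by
      rw [tup_append_zero]
      simp only [tup, Fin.snoc_last, Fin.snoc_castSucc, ht]
    rw [e1] at h4
    rw [h4, hP']
    have e4 : (φ.relabel g).Realize (Fin.snoc (α := fun _ => {x : M // InL A x}) a x) ↔
        φ.Realize (Sum.elim (fun _ => x) a) := by
      rw [Language.Formula.realize_relabel]
      have : (Fin.snoc (α := fun _ => {x : M // InL A x}) a x : Fin (n + 1) → {x : M // InL A x}) ∘ g =
          Sum.elim (fun _ => x) a := by
        funext i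
        rcases i with i | i
        · simp [hg]
        · simp [hg]
      rw [this]
    rw [← e4]
    rw [Language.Formula.Realize]
    have e5 : (Fin.elim0 : Fin 0 → {x : M // InL A x}) = default := Subsingleton.elim _ _
    rw [e5]
  constructor
  · rintro ⟨hx, v, hv⟩
    rw [mem_sep, opair_mem_prod] at hv
    obtain ⟨⟨_, hv1⟩, u', v', e, hv2⟩ := hv
    obtain ⟨rfl, rfl⟩ := opair_inj e
    have hvt : v = t := by simpa using hv1
    rw [hvt] at hv2
    exact ⟨hx, (key hx).1 hv2⟩
  · rintro ⟨hx, hPx⟩
    refine ⟨hx, t, ?_⟩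
    rw [mem_sep, opair_mem_prod]
    exact ⟨⟨hx, by simp [ht]⟩, x.1, t, rfl, (key hx).2 hPx⟩

end Pool.Agent.ZFIter.NPA
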