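import Pool.Agent.NPA.AOrd
import Pool.Agent.NPA.ANum

/-!
# NPA/BTri: the order of triples is a set-like well-order

For triples `(i, b, c)` with `i ∈ num 11` and `b, c` ordinals; `TLt` = lexicographic order of
`(un b c, b, c, i)` (`maxLt_ord`, ordinals are linearly ordered). `tlt_min`: choose successively the least
`un b c`, then `b`, then `c`, then `i` (`exists_leastO`).
-/

universe u

namespace Pool.Agent.ZFIter.NPA

open Pool.Agent.H78.ZF Pool.Agent.ZFIter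

variable {M : Type u} [ZFM M] {ι : Type}

/-- valid triples -/
def Tri (i b c : M) : Prop := i ∈ (num 11 : M) ∧ Ord b ∧ Ord c

instance DR.Tri (i b c : (ι → M) → M) [DF i] [DF b] [DF c] :
    DR (fun v => Tri (i v) (b v) (c v)) := by
  unfold NPA.Tri; infer_instance

theorem tri_inj {i b c i' b' c' : M} (h : tri i b c = tri i' b' c') : i = i' ∧ b = b' ∧ c = c' := by
  unfold tri at h
  obtain ⟨h1, h2⟩ := opair_inj h
  obtain ⟨h2, h3⟩ := opair_inj h2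
  exact ⟨h1, h2, h3⟩

private theorem ord_un {b c : M} (hb : Ord b) (hc : Ord c) : Ord (un b c) := by
  rcases ord_un_cases hb hc with ⟨e, _⟩ | ⟨e, _⟩
  · rw [e]; exact hb
  · rw [e]; exact hc

private theorem ord_idx {i : M} (h : i ∈ (num 11 : M)) : Ord i := (ord_nat (num_mem 11)).mem h

theorem tlt_iff {i b c i' b' c' : M} (h : Tri i b c) (h' : Tri i' b' c') :
    TLt i b c i' b' c' ↔ un b c ∈ un b' c' ∨ (un b c = un b' c' ∧
      (b ∈ b' ∨ (b = b' ∧ (c ∈ c' ∨ (c = c' ∧ i ∈ i'))))) := by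
  unfold TLt TL
  rw [maxLt_ord h.2.1 h.2.2 h'.2.1 h'.2.2, maxLt_ord h'.2.1 h'.2.2 h.2.1 h.2.2]
  have h1 := ord_un h.2.1 h.2.2
  have h2 := ord_un h'.2.1 h'.2.2
  constructor
  · rintro (h3 | ⟨h3, h4⟩)
    · exact Or.inl h3
    · rcases ord_trichotomy h1 h2 with h5 | h5 | h5
      · exact Or.inl h5
      · exact Or.inr ⟨h5, h4⟩
      · exact absurd h5 h3
  · rintro (h3 | ⟨h3, h4⟩)
    · exact Or.inl h3
    · right
      refine ⟨?_, h4⟩
      rw [h3]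
      exact not_mem_self _

theorem tlt_irrefl {i b c : M} (h : Tri i b c) : ¬ TLt i b c i b c := by
  rw [tlt_iff h h]
  rintro (h1 | ⟨_, h1 | ⟨_, h1 | ⟨_, h1⟩⟩⟩) <;> exact not_mem_self _ h1

theorem tlt_trans {i b c i' b' c' i'' b'' c'' : M} (h : Tri i b c) (h' : Tri i' b' c')
    (h'' : Tri i'' b'' c'') (h1 : TLt i b c i' b' c') (h2 : TLt i' b' c' i'' b'' c'') :
    TLt i b c i'' b'' c'' := by
  rw [tlt_iff h h'] at h1
  rw [tlt_iff h' h''] at h2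
  rw [tlt_iff h h'']
  have hu := ord_un h''.2.1 h''.2.2
  rcases h1 with h1 | ⟨e1, h1⟩
  · rcases h2 with h2 | ⟨e2, h2⟩
    · exact Or.inl (hu.trans h1 h2)
    · rw [e2] at h1; exact Or.inl h1
  · rcases h2 with h2 | ⟨e2, h2⟩
    · rw [← e1] at h2; exact Or.inl h2
    · refine Or.inr ⟨e1.trans e2, ?_⟩
      rcases h1 with h1 | ⟨e3, h1⟩
      · rcases h2 with h2 | ⟨e4, h2⟩
        · exact Or.inl (h''.2.1.trans h1 h2)
        · rw [e4] at h1; exact Or.inl h1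
      · rcases h2 with h2 | ⟨e4, h2⟩
        · rw [← e3] at h2; exact Or.inl h2
        · refine Or.inr ⟨e3.trans e4, ?_⟩
          rcases h1 with h1 | ⟨e5, h1⟩
          · rcases h2 with h2 | ⟨e6, h2⟩
            · exact Or.inl (h''.2.2.trans h1 h2)
            · rw [e6] at h1; exact Or.inl h1
          · rcases h2 with h2 | ⟨e6, h2⟩
            · rw [← e5] at h2; exact Or.inl h2
            · exact Or.inr ⟨e5.trans e6, (ord_idx h''.1).trans h1 h2⟩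

theorem tlt_tri {i b c i' b' c' : M} (h : Tri i b c) (h' : Tri i' b' c') :
    TLt i b c i' b' c' ∨ (i = i' ∧ b = b' ∧ c = c') ∨ TLt i' b' c' i b c := by
  rw [tlt_iff h h', tlt_iff h' h]
  rcases ord_trichotomy (ord_un h.2.1 h.2.2) (ord_un h'.2.1 h'.2.2) with h1 | h1 | h1
  · exact Or.inl (Or.inl h1)
  · rcases ord_trichotomy h.2.1 h'.2.1 with h2 | h2 | h2
    · exact Or.inl (Or.inr ⟨h1, Or.inl h2⟩)
    · rcases ord_trichotomy h.2.2 h'.2.2 with h3 | h3 | h3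
      · exact Or.inl (Or.inr ⟨h1, Or.inr ⟨h2, Or.inl h3⟩⟩)
      · rcases ord_trichotomy (ord_idx h.1) (ord_idx h'.1) with h4 | h4 | h4
        · exact Or.inl (Or.inr ⟨h1, Or.inr ⟨h2, Or.inr ⟨h3, h4⟩⟩⟩)
        · exact Or.inr (Or.inl ⟨h4, h2, h3⟩)
        · exact Or.inr (Or.inr (Or.inr ⟨h1.symm, Or.inr ⟨h2.symm, Or.inr ⟨h3.symm, h4⟩⟩⟩))
      · exact Or.inr (Or.inr (Or.inr ⟨h1.symm, Or.inr ⟨h2.symm, Or.inl h3⟩⟩))
    · exact Or.inr (Or.inr (Or.inr ⟨h1.symm, Or.inl h2⟩))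
  · exact Or.inr (Or.inr (Or.inl h1))

/-- least elements of nonempty definable classes of triples -/
theorem tlt_min (P : M → M → M → Prop) [D3 P] (h : ∃ i b c, Tri i b c ∧ P i b c) :
    ∃ i b c, Tri i b c ∧ P i b c ∧ ∀ i' b' c', Tri i' b' c' → P i' b' c' → ¬ TLt i' b' c' i b c := by
  obtain ⟨u, hu, ⟨b1, hu1⟩, hu2⟩ :=
    exists_leastO (fun u => ∃ b i c, Tri i b c ∧ P i b c ∧ un b c = u) (by
      obtain ⟨i, b, c, h1, h2⟩ := h
      exact ⟨un b c, ord_un h1.2.1 h1.2.2, b, i, c, h1, h2, rfl⟩)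
  obtain ⟨b, hb, ⟨c1, hb1⟩, hb2⟩ :=
    exists_leastO (fun b => ∃ c i, Tri i b c ∧ P i b c ∧ un b c = u) (by
      obtain ⟨i, c, h1, h2, h3⟩ := hu1
      exact ⟨b1, h1.2.1, c, i, h1, h2, h3⟩)
  obtain ⟨c, hc, ⟨i1, hc1⟩, hc2⟩ :=
    exists_leastO (fun c => ∃ i, Tri i b c ∧ P i b c ∧ un b c = u) (by
      obtain ⟨i, h1, h2, h3⟩ := hb1
      exact ⟨c1, h1.2.2, i, h1, h2, h3⟩)
  obtain ⟨i, hi, hi1, hi2⟩ :=
    exists_leastO (fun i => Tri i b c ∧ P i b c ∧ un b c = u)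
      ⟨i1, ord_idx hc1.1.1, hc1⟩
  refine ⟨i, b, c, hi1.1, hi1.2.1, ?_⟩
  intro i' b' c' h1 h2 h3
  rw [tlt_iff h1 hi1.1, hi1.2.2] at h3
  rcases h3 with h3 | ⟨e, h3⟩
  · exact hu2 _ h3 ⟨b', i', c', h1, h2, rfl⟩
  · rcases h3 with h3 | ⟨e1, h3⟩
    · exact hb2 _ h3 ⟨c', i', h1, h2, e⟩
    · subst e1
      rcases h3 with h3 | ⟨e2, h3⟩
      · exact hc2 _ h3 ⟨i', h1, h2, e⟩
      · subst e2
        exact hi2 _ h3 ⟨h1, h2, e⟩

end Pool.Agent.ZFIter.NPA
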