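import Pool.Agent.NPA.BSep

/-!
# NPA/BZF: `L[A]` is an inner model of ZF

Extensionality, foundation: from `M` and transitivity. Pairing: `inL_upair`. Union, power set:
`sUn x` and `{y ∈ pow x : InL A y}` are sets of constructible sets, hence included in some
`RG A α ∈ L[A]` (`inL_bound`, `inL_RG`); then separation (`sep_inL`, the defining property is definable
in the structure `L[A]`: use that `{x // InL A x}` with `strK` has definable membership, e.g. build the
definable sets with Mathlib's `Set.Definable` closure lemmas, or with explicit formulas).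
Replacement: the image is a set of `M` by `rel_def2` and `exists_repl`; it is included in some
`RG A α`; then separation (the property `∃ x ∈ a, F x y` is definable in `L[A]`).
Ordinals: if some ordinal is not in `L[A]`, let `β` be the least one; all ordinals in `L[A]` are
`< β` (transitivity), `β ⊆ L[A]`, so `β ⊆ RG A α` and `β = {x ∈ RG A α : Ord x}`, in `L[A]` by
`sep_inL`. Infinity: `omega ∈ L[A]`.
-/

universe u

set_option linter.style.haveILetI false

namespace Pool.Agent.ZFIter.NPA

open Pool.Agent.H78.ZF Pool.Agent.ZFIter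

variable {M : Type u} [ZFM M] {ι : Type}

/-! ### Definability in an arbitrary structure -/

section gen

variable {S : Type u} (E : S → S → Prop) {κ κ' : Type}

private class GR (P : (κ → S) → Prop) : Prop where
  out : letI := structOf E; (Set.univ : Set S).Definable LSet {v | P v}

private class GF (t : (κ → S) → S) : Prop where
  out : letI := structOf E; (Set.univ : Set S).DefinableFun LSet t

private instance GF.var (i : κ) : GF E (fun v : κ → S => v i) := by
  letI := structOf E
  exact ⟨Set.DefinableFun.proj LSet⟩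

private instance GF.const (c : S) : GF (κ := κ) E (fun _ => c) := by
  letI := structOf E
  exact ⟨FirstOrder.Language.definableFun_const LSet κ (Set.mem_univ c)⟩

private instance GR.eq (s t : (κ → S) → S) [hs : GF E s] [ht : GF E t] :
    GR E (fun v => s v = t v) := by
  letI := structOf E
  exact ⟨hs.out.ofPred_eq ht.out⟩

private instance GR.mem (s t : (κ → S) → S) [hs : GF E s] [ht : GF E t] :
    GR E (fun v => E (s v) (t v)) := by
  letI := structOf E
  constructor
  have hF : (Set.univ : Set S).DefinableMap LSet (fun v : κ → S => ![s v, t v]) := by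
    intro i
    fin_cases i
    · exact hs.out
    · exact ht.out
  have h2 : (Set.univ : Set S).Definable LSet {v : Fin 2 → S | E (v 0) (v 1)} := by
    refine ⟨FirstOrder.Language.Relations.formula₂
      (L := FirstOrder.Language.withConstants LSet (Set.univ : Set S)) (Sum.inl MemSymb.mem)
      (FirstOrder.Language.Term.var 0) (FirstOrder.Language.Term.var 1), ?_⟩
    ext v
    simp [FirstOrder.Language.Formula.realize_rel₂]
    rfl
  exact h2.preimage_map hF

private instance GR.not (P : (κ → S) → Prop) [h : GR E P] : GR E (fun v => ¬ P v) := by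
  letI := structOf E
  exact ⟨h.out.compl⟩

private instance GR.and (P Q : (κ → S) → Prop) [h : GR E P] [h' : GR E Q] :
    GR E (fun v => P v ∧ Q v) := by
  letI := structOf E
  exact ⟨h.out.inter h'.out⟩

private instance GR.or (P Q : (κ → S) → Prop) [h : GR E P] [h' : GR E Q] :
    GR E (fun v => P v ∨ Q v) := by
  letI := structOf E
  exact ⟨h.out.union h'.out⟩

private instance GR.imp (P Q : (κ → S) → Prop) [h : GR E P] [h' : GR E Q] :
    GR E (fun v => P v → Q v) := by
  have := GR.or E (fun v => ¬ P v) Q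
  simpa [imp_iff_not_or] using this

private instance GR.ex (P : S → (κ → S) → Prop)
    [h : GR (κ := Option κ) E (fun v => P (v none) (fun i => v (some i)))] :
    GR E (fun v => ∃ x, P x v) := by
  letI := structOf E
  constructor
  have h1 := h.out
  have h2 : (Set.univ : Set S).Definable LSet
      {w : κ ⊕ Unit → S | P (w (Sum.inr ())) (fun i => w (Sum.inl i))} :=
    h1.preimage_comp (fun o : Option κ =>
      (match o with | none => Sum.inr () | some i => Sum.inl i : κ ⊕ Unit))
  have h3 := h2.exists_of_finite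
  convert h3 using 1
  ext v
  constructor
  · rintro ⟨x, hx⟩
    exact ⟨fun _ => x, by simpa using hx⟩
  · rintro ⟨u, hu⟩
    exact ⟨u (), by simpa using hu⟩

private instance GR.all (P : S → (κ → S) → Prop)
    [h : GR (κ := Option κ) E (fun v => P (v none) (fun i => v (some i)))] :
    GR E (fun v => ∀ x, P x v) := by
  have h1 : GR E (fun v : κ → S => ¬ ∃ x, ¬ P x v) := by
    have := GR.ex E (fun x (v : κ → S) => ¬ P x v)
    infer_instance
  simpa using h1

private theorem GR.of_pair {F : Set (S × S)}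
    (hF : letI := structOf E; (Set.univ : Set S).Definable₂ LSet F) (s t : (κ → S) → S)
    [hs : GF E s] [ht : GF E t] : GR E (fun v => (s v, t v) ∈ F) := by
  letI := structOf E
  constructor
  have hm : (Set.univ : Set S).DefinableMap LSet (fun v : κ → S => ![s v, t v]) := by
    intro i
    fin_cases i
    · exact hs.out
    · exact ht.out
  exact (show (Set.univ : Set S).Definable LSet {v : Fin 2 → S | (v 0, v 1) ∈ F} from
    hF).preimage_map hm

private theorem GR.def1 (P : S → Prop) [h : GR (κ := Fin 1) E (fun v => P (v 0))] :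
    letI := structOf E; (Set.univ : Set S).Definable₁ LSet {x | P x} := h.out

end gen

/-- `K` is a transitive inner model of ZF (a definable class with parameters) which contains all
ordinals. -/
class Inner (K : M → Prop) : Prop where
  defn : D1 K
  trans : ∀ x y, K y → x ∈ y → K x
  zf : IsZFModel (fun x y : {x : M // K x} => x.1 ∈ y.1)
  ord : ∀ α, Ord α → K α

/-- all ordinals are in `L[A]` -/
private theorem inL_ord (A : M) : ∀ α, Ord α → InL A α := by
  by_contra hcon
  push Not at hcon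
  obtain ⟨β, hβ, hn, hmin⟩ := exists_leastO (fun α => ¬ InL A α) hcon
  have hmin' : ∀ γ, γ ∈ β → InL A γ := fun γ hγ => by
    by_contra h
    exact hmin γ hγ h
  obtain ⟨γ, hγ, hsub⟩ := inL_bound A β hmin'
  set E : {x : M // InL A x} → {x : M // InL A x} → Prop := fun x y => x.1 ∈ y.1 with hE
  obtain ⟨D, hD, hD'⟩ := sep_inL A (fun x : {x : M // InL A x} =>
      (∀ y, E y x → ∀ z, E z y → E z x) ∧ ∀ y, E y x → ∀ z, E z y → ∀ w, E w z → E w y)
    (GR.def1 E _) (RG A γ) (inL_RG A hγ)
  have hordK : ∀ x : {x : M // InL A x}, ((∀ y, E y x → ∀ z, E z y → E z x) ∧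
      ∀ y, E y x → ∀ z, E z y → ∀ w, E w z → E w y) ↔ Ord x.1 := by
    intro x
    constructor
    · rintro ⟨h1, h2⟩
      refine ⟨fun y hy z hz => ?_, fun y hy z hz w hw => ?_⟩
      · exact h1 ⟨y, inL_trans x.2 hy⟩ hy ⟨z, inL_trans (inL_trans x.2 hy) hz⟩ hz
      · exact h2 ⟨y, inL_trans x.2 hy⟩ hy ⟨z, inL_trans (inL_trans x.2 hy) hz⟩ hz
          ⟨w, inL_trans (inL_trans (inL_trans x.2 hy) hz) hw⟩ hw
    · rintro ⟨h1, h2⟩
      exact ⟨fun y hy z hz => h1 y.1 hy z.1 hz, fun y hy z hz w hw => h2 y.1 hy z.1 hz w.1 hw⟩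
  apply hn
  have : D = β := by
    apply sub_antisymm
    · intro z hz
      have hz' : InL A z := inL_trans hD hz
      have h1 := (hD' ⟨z, hz'⟩).1 hz
      have h2 : Ord z := (hordK ⟨z, hz'⟩).1 h1.2
      rcases ord_trichotomy h2 hβ with h3 | h3 | h3
      · exact h3
      · rw [h3] at hz'
        exact absurd hz' hn
      · exact absurd (inL_trans hz' h3) hn
    · intro z hz
      have hz' := hmin' z hz
      exact (hD' ⟨z, hz'⟩).2 ⟨hsub z hz, (hordK ⟨z, hz'⟩).2 (hβ.mem hz)⟩
  rw [← this]
  exact hD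

instance inner_L (A : M) : Inner (InL A) := by
  refine ⟨inferInstance, fun x y hy hx => inL_trans hy hx, ?_, inL_ord A⟩
  set E : {x : M // InL A x} → {x : M // InL A x} → Prop := fun x y => x.1 ∈ y.1 with hE
  refine ⟨?_, ?_, ?_, ?_, ?_, ?_, ?_, ?_⟩
  · intro x y h
    apply Subtype.ext
    apply Pool.Agent.H78.ZF.ext
    intro z
    exact ⟨fun hz => (h ⟨z, inL_trans x.2 hz⟩).1 hz, fun hz => (h ⟨z, inL_trans y.2 hz⟩).2 hz⟩
  · rintro x ⟨y, hy⟩
    obtain ⟨z, hz, hz'⟩ := foundation x.1 (ne_emp_iff.2 ⟨y.1, hy⟩)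
    exact ⟨⟨z, inL_trans x.2 hz⟩, hz, fun w hw hwx => hz' w.1 hw hwx⟩
  · intro x y
    refine ⟨⟨upair x.1 y.1, inL_upair x.2 y.2⟩, fun w => ?_⟩
    change w.1 ∈ upair x.1 y.1 ↔ _
    rw [mem_upair, Subtype.ext_iff, Subtype.ext_iff]
  · intro x
    have hel : ∀ w, w ∈ sUn x.1 → InL A w := by
      intro w hw
      rw [mem_sUn] at hw
      obtain ⟨y, hy, hw⟩ := hw
      exact inL_trans (inL_trans x.2 hy) hw
    obtain ⟨γ, hγ, hsub⟩ := inL_bound A _ hel
    obtain ⟨D, hD, hD'⟩ := sep_inL A (fun w : {x : M // InL A x} => ∃ y, E y x ∧ E w y)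
      (GR.def1 E _) (RG A γ) (inL_RG A hγ)
    refine ⟨⟨D, hD⟩, fun w => ?_⟩
    change w.1 ∈ D ↔ _
    rw [hD']
    constructor
    · exact fun h => h.2
    · rintro ⟨y, hy, hw⟩
      exact ⟨hsub _ (by rw [mem_sUn]; exact ⟨y.1, hy, hw⟩), y, hy, hw⟩
  · intro x
    have hel : ∀ w, w ∈ sep (pow x.1) (fun w => InL A w) → InL A w := by
      intro w hw
      rw [mem_sep] at hw
      exact hw.2
    obtain ⟨γ, hγ, hsub⟩ := inL_bound A _ hel
    obtain ⟨D, hD, hD'⟩ := sep_inL A (fun w : {x : M // InL A x} => ∀ z, E z w → E z x)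
      (GR.def1 E _) (RG A γ) (inL_RG A hγ)
    refine ⟨⟨D, hD⟩, fun w => ?_⟩
    change w.1 ∈ D ↔ _
    rw [hD']
    constructor
    · exact fun h => h.2
    · intro h
      refine ⟨hsub _ ?_, h⟩
      rw [mem_sep, mem_pow]
      exact ⟨fun z hz => h ⟨z, inL_trans w.2 hz⟩ hz, w.2⟩
  · refine ⟨⟨omega, inL_ord A omega ord_omega⟩, ⟨⟨emp, inL_trans (inL_ord A omega ord_omega)
      emp_mem_omega⟩, emp_mem_omega, fun z hz => not_mem_emp _ hz⟩, fun y hy => ?_⟩
    refine ⟨⟨succ y.1, inL_trans (inL_ord A omega ord_omega) (succ_mem_omega hy)⟩,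
      succ_mem_omega hy, fun z => ?_⟩
    change z.1 ∈ succ y.1 ↔ _
    rw [mem_succ, Subtype.ext_iff]
  · intro s hs a
    obtain ⟨D, hD, hD'⟩ := sep_inL A (fun x => x ∈ s) hs a.1 a.2
    exact ⟨⟨D, hD⟩, fun x => hD' x⟩
  · intro F hF a hfun
    have h2 := rel_def2 (InL A) (fun x y => (x, y) ∈ F) hF
    obtain ⟨b, hb⟩ := exists_repl (fun x y => ∃ (h : InL A x) (h' : InL A y),
      ((⟨x, h⟩, ⟨y, h'⟩) : {x : M // InL A x} × {x : M // InL A x}) ∈ F) a.1 (by
        intro x hx
        obtain ⟨y, hy, hy'⟩ := hfun ⟨x, inL_trans a.2 hx⟩ hx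
        refine ⟨y.1, ⟨inL_trans a.2 hx, y.2, hy⟩, ?_⟩
        rintro z ⟨h, h', hz⟩
        exact congrArg Subtype.val (hy' ⟨z, h'⟩ hz))
    have hel : ∀ w, w ∈ b → InL A w := by
      intro w hw
      obtain ⟨x, _, _, h', _⟩ := (hb w).1 hw
      exact h'
    obtain ⟨γ, hγ, hsub⟩ := inL_bound A _ hel
    have hdef : GR (κ := Fin 1) E (fun v => ∃ x, E x a ∧ (x, v 0) ∈ F) := by
      have : GR (κ := Option (Fin 1)) E (fun v => (v none, v (some 0)) ∈ F) :=
        GR.of_pair E hF (fun v => v none) (fun v => v (some 0))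
      infer_instance
    obtain ⟨D, hD, hD'⟩ := sep_inL A (fun y : {x : M // InL A x} => ∃ x, E x a ∧ (x, y) ∈ F)
      (GR.def1 E _) (RG A γ) (inL_RG A hγ)
    refine ⟨⟨D, hD⟩, fun y => ?_⟩
    change y.1 ∈ D ↔ _
    rw [hD']
    constructor
    · exact fun h => h.2
    · rintro ⟨x, hx, hxy⟩
      exact ⟨hsub _ ((hb _).2 ⟨x.1, hx, x.2, y.2, hxy⟩), x, hx, hxy⟩

/-- The inner model as a type. -/
def Sub (K : M → Prop) : Type u := {x : M // K x}

instance instZFMSub (K : M → Prop) [h : Inner K] : ZFM (Sub K) := ⟨fun x y => x.1 ∈ y.1, h.zf⟩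

end Pool.Agent.ZFIter.NPA
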