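import Pool.Agent.NPA.CCong

/-!
# NPA/CCol: the collapse of a code

`kp c a = {kp c w : cLt c w a, cE c w a}` by recursion along `cLt`: define it with `erec` on the rank:
`kpO c α = {kpO c β : β ∈ α, cE c (element of rank β) (element of rank α)}`, `kp c a = kpO c (rk c a)`.
Proofs (all by induction along `cLt`, `code_ind`; use the clause `CMem`: every element `w` of `a` is
`cEq` to some `w'` with `cLt c w' a`, and `cE_congr`):
(1) `cEq c a b → kp c a = kp c b`; (2) `kp c a = kp c b → cEq c a b`: if `cE c w a`, take `w' < a` with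
`cEq c w' w`; `kp c w' ∈ kp c a = kp c b`, so `kp c w' = kp c w''` with `w'' < b`, `cE c w'' b`; by the
induction hypothesis (on pairs) `cEq c w' w''`, hence `cE c w b`. (3) `cE c w a ↔ kp c w ∈ kp c a`.
(4) `cUp c p a b ↔ kp c p = upair (kp c a) (kp c b)`; (5) `cPr c p a b ↔ kp c p = opair ..`
(elements of the collapse of `a` are collapses of elements).
-/

universe u

namespace Pool.Agent.ZFIter.NPA

open Pool.Agent.H78.ZF Pool.Agent.ZFIter

variable {M : Type u} [ZFM M] {ι : Type}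

/-- The collapse, as a function of the rank. -/
noncomputable def kpO (c α : M) : M :=
  erec (fun α g => img (sep α (fun β => ∃ m, m ∈ (omega : M) ∧ ∃ n, n ∈ (omega : M) ∧
    rk c m = β ∧ rk c n = α ∧ cE c m n)) (fun β => ap g β)) α

instance DF.kpO (c s : (ι → M) → M) [DF c] [DF s] : DF (fun v => kpO (c v) (s v)) := by
  unfold NPA.kpO; infer_instance

/-- The collapse of a code. -/
noncomputable def kp (c a : M) : M := kpO c (rk c a)

instance DF.kp (c s : (ι → M) → M) [DF c] [DF s] : DF (fun v => kp (c v) (s v)) := by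
  unfold NPA.kp; infer_instance

section
variable {c : M} (hc : Code c)
include hc

theorem mem_kp {a x : M} (ha : a ∈ (omega : M)) :
    x ∈ kp c a ↔ ∃ w, w ∈ (omega : M) ∧ cLt c w a ∧ cE c w a ∧ x = kp c w := by
  unfold kp
  have h1 : kpO c (rk c a) = img (sep (rk c a) (fun β => ∃ m, m ∈ (omega : M) ∧ ∃ n,
      n ∈ (omega : M) ∧ rk c m = β ∧ rk c n = rk c a ∧ cE c m n))
      (fun β => ap (mkseq (rk c a) (fun β => kpO c β)) β) := by
    conv_lhs => unfold kpO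
    rw [erec_eq]
    rfl
  rw [h1, mem_img]
  constructor
  · rintro ⟨β, hβ, rfl⟩
    rw [mem_sep] at hβ
    obtain ⟨hβ, m, hm, n, hn, rfl, h2, h3⟩ := hβ
    have h4 : n = a := rk_inj hc hn ha h2
    subst h4
    exact ⟨m, hm, (rk_lt_iff hc hm hn).1 hβ, h3, ap_mkseq hβ⟩
  · rintro ⟨w, hw, h2, h3, rfl⟩
    have h4 : rk c w ∈ rk c a := (rk_lt_iff hc hw ha).2 h2
    exact ⟨rk c w, by rw [mem_sep]; exact ⟨h4, w, hw, a, ha, rfl, rfl, h3⟩, (ap_mkseq h4).symm⟩

/-- Every element of `a` in the sense of `c` is equal to one which is below `a`. -/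
theorem kp_below {w a : M} (hw : w ∈ (omega : M)) (ha : a ∈ (omega : M)) (h : cE c w a) :
    ∃ w', w' ∈ (omega : M) ∧ cLt c w' a ∧ cEq c w' w ∧ cE c w' a := by
  obtain ⟨⟨w', h1, h2, h3⟩, _⟩ := (hc.1.mem a ha w hw).1 h
  exact ⟨w', h1, h2, h3, (cE_congr hc ha h1 hw h3).2 h⟩

theorem kp_eq_of_cEq : ∀ a, a ∈ (omega : M) → ∀ b, b ∈ (omega : M) → cEq c a b →
    kp c a = kp c b := by
  apply code_ind hc (fun a => ∀ b, b ∈ (omega : M) → cEq c a b → kp c a = kp c b)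
  intro a ha ih b hb h
  apply Pool.Agent.H78.ZF.ext
  intro x
  rw [mem_kp hc ha, mem_kp hc hb]
  constructor
  · rintro ⟨w, hw, h1, h2, rfl⟩
    obtain ⟨w', h3, h4, h5, h6⟩ := kp_below hc hw hb ((h w hw).1 h2)
    exact ⟨w', h3, h4, h6, ih w hw h1 w' h3 (cEq_symm h5)⟩
  · rintro ⟨w, hw, h1, h2, rfl⟩
    obtain ⟨w', h3, h4, h5, h6⟩ := kp_below hc hw ha ((h w hw).2 h2)
    exact ⟨w', h3, h4, h6, (ih w' h3 h4 w hw h5).symm⟩

theorem cEq_of_kp_eq : ∀ a, a ∈ (omega : M) → ∀ b, b ∈ (omega : M) → kp c a = kp c b →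
    cEq c a b := by
  apply code_ind hc (fun a => ∀ b, b ∈ (omega : M) → kp c a = kp c b → cEq c a b)
  intro a ha ih b hb h w hw
  constructor
  · intro h1
    obtain ⟨w', h3, h4, h5, h6⟩ := kp_below hc hw ha h1
    have h7 : kp c w' ∈ kp c b := by
      rw [← h, mem_kp hc ha]
      exact ⟨w', h3, h4, h6, rfl⟩
    rw [mem_kp hc hb] at h7
    obtain ⟨w2, h8, h9, h10, h11⟩ := h7
    have h12 := ih w' h3 h4 w2 h8 h11
    exact (cE_congr hc hb h8 hw (cEq_trans (cEq_symm h12) h5)).1 h10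
  · intro h1
    obtain ⟨w', h3, h4, h5, h6⟩ := kp_below hc hw hb h1
    have h7 : kp c w' ∈ kp c a := by
      rw [h, mem_kp hc hb]
      exact ⟨w', h3, h4, h6, rfl⟩
    rw [mem_kp hc ha] at h7
    obtain ⟨w2, h8, h9, h10, h11⟩ := h7
    have h12 := ih w2 h8 h9 w' h3 h11.symm
    exact (cE_congr hc ha h8 hw (cEq_trans h12 h5)).1 h10

theorem kp_eq_iff {a b : M} (ha : a ∈ (omega : M)) (hb : b ∈ (omega : M)) :
    kp c a = kp c b ↔ cEq c a b :=
  ⟨cEq_of_kp_eq hc a ha b hb, kp_eq_of_cEq hc a ha b hb⟩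

theorem kp_mem_iff {w a : M} (hw : w ∈ (omega : M)) (ha : a ∈ (omega : M)) :
    kp c w ∈ kp c a ↔ cE c w a := by
  constructor
  · intro h
    rw [mem_kp hc ha] at h
    obtain ⟨w', h1, _, h3, h4⟩ := h
    exact (cE_congr hc ha hw h1 ((kp_eq_iff hc hw h1).1 h4)).2 h3
  · intro h
    obtain ⟨w', h3, h4, h5, h6⟩ := kp_below hc hw ha h
    rw [mem_kp hc ha]
    exact ⟨w', h3, h4, h6, (kp_eq_iff hc hw h3).2 (cEq_symm h5)⟩

theorem kp_trans {a x : M} (ha : a ∈ (omega : M)) (hx : x ∈ kp c a) :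
    ∃ w, w ∈ (omega : M) ∧ cLt c w a ∧ x = kp c w := by
  obtain ⟨w, h1, h2, _, h4⟩ := (mem_kp hc ha).1 hx
  exact ⟨w, h1, h2, h4⟩

theorem kp_up {p a b : M} (hp : p ∈ (omega : M)) (ha : a ∈ (omega : M)) (hb : b ∈ (omega : M)) :
    cUp c p a b ↔ kp c p = upair (kp c a) (kp c b) := by
  constructor
  · intro h
    apply Pool.Agent.H78.ZF.ext
    intro x
    rw [mem_upair]
    constructor
    · intro hx
      obtain ⟨w, h1, _, h3, rfl⟩ := (mem_kp hc hp).1 hx
      exact ((h w h1).1 h3).imp (kp_eq_iff hc h1 ha).2 (kp_eq_iff hc h1 hb).2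
    · rintro (rfl | rfl)
      · exact (kp_mem_iff hc ha hp).2 ((h a ha).2 (Or.inl (cEq_refl c a)))
      · exact (kp_mem_iff hc hb hp).2 ((h b hb).2 (Or.inr (cEq_refl c b)))
  · intro h w hw
    rw [← kp_mem_iff hc hw hp, h, mem_upair, kp_eq_iff hc hw ha, kp_eq_iff hc hw hb]

theorem kp_pr {p a b : M} (hp : p ∈ (omega : M)) (ha : a ∈ (omega : M)) (hb : b ∈ (omega : M)) :
    cPr c p a b ↔ kp c p = opair (kp c a) (kp c b) := by
  constructor
  · rintro ⟨u, hu, v, hv, h1, h2, h3⟩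
    rw [kp_up hc hu ha ha] at h1
    rw [kp_up hc hv ha hb] at h2
    rw [kp_up hc hp hu hv] at h3
    rw [h3, h1, h2]
    rfl
  · intro h
    have h1 : sing (kp c a) ∈ kp c p := by rw [h]; simp [opair]
    have h2 : upair (kp c a) (kp c b) ∈ kp c p := by rw [h]; simp [opair]
    obtain ⟨u, hu, _, h3⟩ := kp_trans hc hp h1
    obtain ⟨v, hv, _, h4⟩ := kp_trans hc hp h2
    refine ⟨u, hu, v, hv, (kp_up hc hu ha ha).2 h3.symm, (kp_up hc hv ha hb).2 h4.symm,
      (kp_up hc hp hu hv).2 ?_⟩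
    rw [h, ← h3, ← h4]
    rfl

theorem kp_of_opair {p x y : M} (hp : p ∈ (omega : M)) (h : kp c p = opair x y) :
    ∃ a, a ∈ (omega : M) ∧ ∃ b, b ∈ (omega : M) ∧ x = kp c a ∧ y = kp c b ∧ cPr c p a b := by
  have h2 : upair x y ∈ kp c p := by rw [h]; simp [opair]
  obtain ⟨v, hv, _, h4⟩ := kp_trans hc hp h2
  have h5 : x ∈ kp c v := by rw [← h4]; simp
  have h6 : y ∈ kp c v := by rw [← h4]; simp
  obtain ⟨a, ha, _, h7⟩ := kp_trans hc hv h5
  obtain ⟨b, hb, _, h8⟩ := kp_trans hc hv h6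
  exact ⟨a, ha, b, hb, h7, h8, (kp_pr hc hp ha hb).2 (by rw [h, h7, h8])⟩

theorem kp_O_aux : ∀ d, d ∈ (omega : M) → ∀ u, u ∈ (omega : M) →
    (cO c u d ↔ kp c u = rk c d) := by
  apply code_ind hc (fun d => ∀ u, u ∈ (omega : M) → (cO c u d ↔ kp c u = rk c d))
  intro d hd ih u hu
  rw [hc.1.ord u hu d hd]
  constructor
  · rintro ⟨h1, h2⟩
    apply Pool.Agent.H78.ZF.ext
    intro x
    constructor
    · intro hx
      obtain ⟨w, hw, _, h3, rfl⟩ := (mem_kp hc hu).1 hx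
      obtain ⟨e, he, h4, h5⟩ := h1 w hw h3
      rw [(ih e he h4 w hw).1 h5]
      exact (rk_lt_iff hc he hd).2 h4
    · intro hx
      obtain ⟨e, he, h4, rfl⟩ := rk_surj hc hd hx
      obtain ⟨w, hw, h5, h6⟩ := h2 e he h4
      rw [← (ih e he h4 w hw).1 h6]
      exact (kp_mem_iff hc hw hu).2 h5
  · intro h
    constructor
    · intro w hw h3
      have h4 : kp c w ∈ rk c d := by rw [← h]; exact (kp_mem_iff hc hw hu).2 h3
      obtain ⟨e, he, h5, h6⟩ := rk_surj hc hd h4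
      exact ⟨e, he, h5, (ih e he h5 w hw).2 h6.symm⟩
    · intro e he h5
      have h4 : rk c e ∈ kp c u := by rw [h]; exact (rk_lt_iff hc he hd).2 h5
      obtain ⟨w, hw, _, h7, h8⟩ := (mem_kp hc hu).1 h4
      exact ⟨w, hw, h7, (ih e he h5 w hw).2 h8.symm⟩

theorem kp_O {u d : M} (hu : u ∈ (omega : M)) (hd : d ∈ (omega : M)) :
    cO c u d ↔ kp c u = rk c d := kp_O_aux hc d hd u hu

end

end Pool.Agent.ZFIter.NPA
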