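import Pool.Agent.NPA.BHier
import Pool.Agent.NPA.ACl
import Pool.Agent.NPA.ACh

/-!
# NPA/CHull: countable hulls

Every countable set `X` of ordinals is included in a countable set `Y` with `YCl A Y`.
Take the closure `cl S (X ∪ omega)` of `X ∪ omega` under a class function `S` and let `Y` be the set of the
ordinals in it. `S a b` is the union of finitely many countable sets: it contains `opair a b`
(so that functions of several variables can be used) and, for each closure condition of `YCl`, the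
least witness (`leastO`; for pairs of witnesses e.g. in `op6`: the least `v`, then the index of the
pair; `v` is `hF A` of an ordinal since `L[A]` is transitive, `inL_of_opair`), the components
`dB a, dC a`, for `a` of the form `tri i b c` the ordinal `d` with `dec d = tri i b c`, the least index of a
constructible set, and `hF A a` itself. All these are definable and singletons or empty. `ctb_cl`
gives countability. (`init`: use `dec_surj`, `dec_spec`.)
-/

universe u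

namespace Pool.Agent.ZFIter.NPA

open Pool.Agent.H78.ZF Pool.Agent.ZFIter

variable {M : Type u} [ZFM M] {ι : Type}

/-- The closure function for a list of relations: it contains the pair and the least witnesses. -/
private noncomputable def hSL : List (M → M → Prop) → M → M → M
  | [] => fun a b => sing (opair a b)
  | P :: L => fun a b => ins (hSL L a b) (leastO (fun x => P a x))

private theorem hSL_F2 : ∀ L : List (M → M → Prop), (∀ P, P ∈ L → D2 P) → F2 (hSL L)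
  | [], _ => by
    have : DF (fun v : Fin 2 → M => sing (opair (v 0) (v 1))) := by infer_instance
    exact ⟨this⟩
  | P :: L, h => by
    have : D2 P := h P (List.mem_cons_self)
    have : F2 (hSL L) := hSL_F2 L fun Q hQ => h Q (List.mem_cons_of_mem _ hQ)
    have : DF (fun v : Fin 2 → M => ins (hSL L (v 0) (v 1)) (leastO (fun x => P (v 0) x))) := by
      infer_instance
    exact ⟨this⟩

private theorem hSL_ctb (a b : M) : ∀ L : List (M → M → Prop), Ctb (hSL L a b)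
  | [] => ctb_sing _
  | _ :: L => ctb_ins (hSL_ctb a b L)

private theorem hSL_pair (a b : M) : ∀ L : List (M → M → Prop), opair a b ∈ hSL L a b
  | [] => by unfold hSL; rw [mem_sing]
  | P :: L => by unfold hSL; rw [mem_ins]; exact Or.inl (hSL_pair a b L)

private theorem hSL_least (a b : M) : ∀ (L : List (M → M → Prop)) (P : M → M → Prop), P ∈ L →
    leastO (fun x => P a x) ∈ hSL L a b
  | [], P, h => by simp at h
  | Q :: L, P, h => by
    unfold hSL
    rw [mem_ins]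
    rcases List.mem_cons.1 h with h | h
    · subst h; exact Or.inr rfl
    · exact Or.inl (hSL_least a b L P h)

/-- Closure of a countable set of ordinals under least witnesses for finitely many definable
relations. -/
private theorem hull_gen (hDC : DC M) (L : List (M → M → Prop)) (hL : ∀ P, P ∈ L → D2 P) {X : M}
    (hX : Ctb X) (h : ∀ x, x ∈ X → Ord x) :
    ∃ Y Z : M, X ⊆ Y ∧ omega ⊆ Y ∧ Ctb Y ∧ (∀ a, a ∈ Y → Ord a) ∧ Y ⊆ Z ∧
      (∀ a, a ∈ Z → ∀ b, b ∈ Z → opair a b ∈ Z) ∧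
      ∀ P, P ∈ L → ∀ z, z ∈ Z → (∃ u, Ord u ∧ P z u) → ∃ u, u ∈ Y ∧ P z u := by
  have := hSL_F2 L hL
  obtain ⟨Z, hZ⟩ : ∃ Z : M, Z = cl (hSL L) (un X omega) := ⟨_, rfl⟩
  have hcl : ClS (hSL L) Z := by rw [hZ]; exact cl_closed (hSL L) _
  have hsub : un X omega ⊆ Z := by rw [hZ]; exact sub_cl (hSL L) _
  refine ⟨sep Z (fun x => Ord x), Z, ?_, ?_, ?_, ?_, ?_, ?_, ?_⟩
  · intro x hx
    rw [mem_sep]
    exact ⟨hsub x ((mem_un _ _ _).2 (Or.inl hx)), h x hx⟩
  · intro x hx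
    rw [mem_sep]
    exact ⟨hsub x ((mem_un _ _ _).2 (Or.inr hx)), ord_omega.mem hx⟩
  · refine ctb_sub (b := Z) ?_ ?_
    · rw [hZ]; exact ctb_cl (hSL L) hDC (fun a b => hSL_ctb a b L) (ctb_un hX ctb_omega)
    · intro x hx
      rw [mem_sep] at hx
      exact hx.1
  · intro x hx
    rw [mem_sep] at hx
    exact hx.2
  · intro x hx
    rw [mem_sep] at hx
    exact hx.1
  · intro a ha b hb
    exact hcl a ha b hb _ (hSL_pair a b L)
  · intro P hP z hz hex
    have : D2 P := hL P hP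
    have h1 := leastO_spec (fun x => P z x) hex
    refine ⟨leastO (fun x => P z x), ?_, h1.2.1⟩
    rw [mem_sep]
    exact ⟨hcl z hz z hz _ (hSL_least z z L P hP), h1.1⟩

private def q1 (_A z u : M) : Prop := u = dB z
private def q2 (_A z u : M) : Prop := u = dC z
private def q3 (_A z u : M) : Prop := z = tri (dI u) (dB u) (dC u)
private def q4 (A z u : M) : Prop := ∃ a b, z = opair a b ∧ hF A u ∈ hF A a ∧ hF A u ∉ hF A b
private def q5 (A z u : M) : Prop := ∃ p a b, z = tri p a b ∧ hF A u ∈ hF A p ∧ hF A u ≠ hF A a ∧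
  hF A u ≠ hF A b
private def q6 (A z u : M) : Prop := ∃ w a, z = opair w a ∧ u ∈ a ∧ hF A u = hF A w
private def q7a (A z u : M) : Prop := ∃ y, hF A z = opair (hF A u) y
private def q7b (A z u : M) : Prop := ∃ x, hF A z = opair x (hF A u)
private def q7c (A z u : M) : Prop := ∃ x y, hF A z = opair x y ∧ hF A u = sing x
private def q7d (A z u : M) : Prop := ∃ x y, hF A z = opair x y ∧ hF A u = upair x y
private def q8 (A z u : M) : Prop := ∃ w c, z = opair w c ∧ opair (hF A w) (hF A u) ∈ hF A c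
private def q9 (A z u : M) : Prop := ∃ a b, z = opair a b ∧ hF A u = opair (hF A a) (hF A b)
private def q10 (A z u : M) : Prop := u = hF A z
private def q11 (A z u : M) : Prop := hF A u = z
private def q12 (A z u : M) : Prop := ∃ a d, z = opair a d ∧ hF A u ∈ hF A a ∧ hF A u ∉ d
private def q13 (A z u : M) : Prop := ∃ a d, z = opair a d ∧ u ∈ d ∧ u ∉ hF A a

private instance q1_D2 (A : M) : D2 (q1 A) :=
  ⟨(by unfold q1; infer_instance : DR (fun v : Fin 2 → M => q1 A (v 0) (v 1)))⟩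
private instance q2_D2 (A : M) : D2 (q2 A) :=
  ⟨(by unfold q2; infer_instance : DR (fun v : Fin 2 → M => q2 A (v 0) (v 1)))⟩
private instance q3_D2 (A : M) : D2 (q3 A) :=
  ⟨(by unfold q3; infer_instance : DR (fun v : Fin 2 → M => q3 A (v 0) (v 1)))⟩
private instance q4_D2 (A : M) : D2 (q4 A) :=
  ⟨(by unfold q4; infer_instance : DR (fun v : Fin 2 → M => q4 A (v 0) (v 1)))⟩
private instance q5_D2 (A : M) : D2 (q5 A) :=
  ⟨(by unfold q5; infer_instance : DR (fun v : Fin 2 → M => q5 A (v 0) (v 1)))⟩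
private instance q6_D2 (A : M) : D2 (q6 A) :=
  ⟨(by unfold q6; infer_instance : DR (fun v : Fin 2 → M => q6 A (v 0) (v 1)))⟩
private instance q7a_D2 (A : M) : D2 (q7a A) :=
  ⟨(by unfold q7a; infer_instance : DR (fun v : Fin 2 → M => q7a A (v 0) (v 1)))⟩
private instance q7b_D2 (A : M) : D2 (q7b A) :=
  ⟨(by unfold q7b; infer_instance : DR (fun v : Fin 2 → M => q7b A (v 0) (v 1)))⟩
private instance q7c_D2 (A : M) : D2 (q7c A) :=
  ⟨(by unfold q7c; infer_instance : DR (fun v : Fin 2 → M => q7c A (v 0) (v 1)))⟩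
private instance q7d_D2 (A : M) : D2 (q7d A) :=
  ⟨(by unfold q7d; infer_instance : DR (fun v : Fin 2 → M => q7d A (v 0) (v 1)))⟩
private instance q8_D2 (A : M) : D2 (q8 A) :=
  ⟨(by unfold q8; infer_instance : DR (fun v : Fin 2 → M => q8 A (v 0) (v 1)))⟩
private instance q9_D2 (A : M) : D2 (q9 A) :=
  ⟨(by unfold q9; infer_instance : DR (fun v : Fin 2 → M => q9 A (v 0) (v 1)))⟩
private instance q10_D2 (A : M) : D2 (q10 A) :=
  ⟨(by unfold q10; infer_instance : DR (fun v : Fin 2 → M => q10 A (v 0) (v 1)))⟩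
private instance q11_D2 (A : M) : D2 (q11 A) :=
  ⟨(by unfold q11; infer_instance : DR (fun v : Fin 2 → M => q11 A (v 0) (v 1)))⟩
private instance q12_D2 (A : M) : D2 (q12 A) :=
  ⟨(by unfold q12; infer_instance : DR (fun v : Fin 2 → M => q12 A (v 0) (v 1)))⟩
private instance q13_D2 (A : M) : D2 (q13 A) :=
  ⟨(by unfold q13; infer_instance : DR (fun v : Fin 2 → M => q13 A (v 0) (v 1)))⟩

private theorem tri_inj' {a b c a' b' c' : M} (h : tri a b c = tri a' b' c') :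
    a = a' ∧ b = b' ∧ c = c' := by
  unfold tri at h
  obtain ⟨h1, h2⟩ := opair_inj h
  exact ⟨h1, opair_inj h2⟩

private theorem mem_hF_ex {A α x : M} (hα : Ord α) (h : x ∈ hF A α) :
    ∃ β, β ∈ α ∧ Ord β ∧ x = hF A β := by
  obtain ⟨⟨β, hβ, e⟩, _⟩ := (mem_hF hα).1 h
  exact ⟨β, hβ, hα.mem hβ, e⟩

theorem exists_hull (hAC : AC M) (A : M) {X : M} (hX : Ctb X) (h : ∀ x, x ∈ X → Ord x) :
    ∃ Y, X ⊆ Y ∧ Ctb Y ∧ YCl A Y := by
  obtain ⟨Y, Z, hXY, hom, hctb, hord, hYZ, hpair, hcl⟩ := hull_gen (dc_of_ac hAC)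
    [q1 A, q2 A, q3 A, q4 A, q5 A, q6 A, q7a A, q7b A, q7c A, q7d A, q8 A, q9 A, q10 A, q11 A,
      q12 A, q13 A] (by
        intro P hP
        simp only [List.mem_cons, List.not_mem_nil, or_false] at hP
        rcases hP with h | h | h | h | h | h | h | h | h | h | h | h | h | h | h | h <;>
          (rw [h]; infer_instance)) hX h
  have p2 : ∀ a, a ∈ Y → ∀ b, b ∈ Y → opair a b ∈ Z := fun a ha b hb =>
    hpair a (hYZ a ha) b (hYZ b hb)
  have p3 : ∀ a, a ∈ Y → ∀ b, b ∈ Y → ∀ c, c ∈ Y → tri a b c ∈ Z := fun a ha b hb c hc =>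
    hpair a (hYZ a ha) _ (p2 b hb c hc)
  have c1 := hcl (q1 A) (by simp)
  have c2 := hcl (q2 A) (by simp)
  have c3 := hcl (q3 A) (by simp)
  have c4 := hcl (q4 A) (by simp)
  have c5 := hcl (q5 A) (by simp)
  have c6 := hcl (q6 A) (by simp)
  have c7a := hcl (q7a A) (by simp)
  have c7b := hcl (q7b A) (by simp)
  have c7c := hcl (q7c A) (by simp)
  have c7d := hcl (q7d A) (by simp)
  have c8 := hcl (q8 A) (by simp)
  have c9 := hcl (q9 A) (by simp)
  have c10 := hcl (q10 A) (by simp)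
  have c11 := hcl (q11 A) (by simp)
  have c12 := hcl (q12 A) (by simp)
  have c13 := hcl (q13 A) (by simp)
  refine ⟨Y, hXY, hctb, ?_⟩
  constructor
  · exact hord
  · exact hom
  · intro a ha
    have ho := (dec_spec (hord a ha)).2
    obtain ⟨u, hu, e⟩ := c1 a (hYZ a ha) ⟨dB a, ho.2.1, rfl⟩
    obtain ⟨v, hv, e'⟩ := c2 a (hYZ a ha) ⟨dC a, ho.2.2, rfl⟩
    unfold q1 at e
    unfold q2 at e'
    rw [← e, ← e']
    exact ⟨hu, hv⟩
  · intro a ha i hi b hb c hc _
    have hiY : i ∈ Y := hom i (by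
      obtain ⟨k, hk, e⟩ := mem_num.1 hi
      rw [e]; exact num_mem k)
    obtain ⟨d, hd, e1, e2, e3⟩ := dec_surj (i := i) (b := b) (c := c) ⟨hi, hord b hb, hord c hc⟩
    obtain ⟨u, hu, e⟩ := c3 (tri i b c) (p3 i hiY b hb c hc) ⟨d, hd, by
      unfold q3; rw [e1, e2, e3]⟩
    unfold q3 at e
    obtain ⟨f1, f2, f3⟩ := tri_inj' e
    exact ⟨u, hu, f1.symm, f2.symm, f3.symm⟩
  · rintro a ha b hb ⟨w, hw, hw'⟩
    obtain ⟨β, _, hβ, rfl⟩ := mem_hF_ex (hord a ha) hw
    obtain ⟨u, hu, a', b', e, h1, h2⟩ := c4 (opair a b) (p2 a ha b hb) ⟨β, hβ, a, b, rfl, hw, hw'⟩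
    obtain ⟨rfl, rfl⟩ := opair_inj e
    exact ⟨u, hu, h1, h2⟩
  · rintro p hp a ha b hb ⟨w, hw, hw', hw''⟩
    obtain ⟨β, _, hβ, rfl⟩ := mem_hF_ex (hord p hp) hw
    obtain ⟨u, hu, p', a', b', e, h1, h2, h3⟩ := c5 (tri p a b) (p3 p hp a ha b hb)
      ⟨β, hβ, p, a, b, rfl, hw, hw', hw''⟩
    obtain ⟨rfl, rfl, rfl⟩ := tri_inj' e
    exact ⟨u, hu, h1, h2, h3⟩
  · intro w hw a ha hwa
    obtain ⟨β, hβa, hβ, e⟩ := mem_hF_ex (hord a ha) hwa
    obtain ⟨u, hu, w', a', e', h1, h2⟩ := c6 (opair w a) (p2 w hw a ha)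
      ⟨β, hβ, w, a, rfl, hβa, e.symm⟩
    obtain ⟨rfl, rfl⟩ := opair_inj e'
    exact ⟨u, hu, h1, h2⟩
  · intro w hw x y e
    have hL := inL_of_opair (e ▸ inL_hF A (hord w hw))
    obtain ⟨α, hα, ex⟩ := hL.1
    obtain ⟨β, hβ, ey⟩ := hL.2
    obtain ⟨γ, hγ, es⟩ : InL A (sing x) := inL_upair hL.1 hL.1
    obtain ⟨δ, hδ, eu⟩ := inL_upair hL.1 hL.2
    have hwZ := hYZ w hw
    obtain ⟨u, hu, y', k1⟩ := c7a w hwZ ⟨α, hα, y, by rw [e, ex]⟩
    obtain ⟨v, hv, x', k2⟩ := c7b w hwZ ⟨β, hβ, x, by rw [e, ey]⟩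
    obtain ⟨p, hp, x1, y1, k3, k3'⟩ := c7c w hwZ ⟨γ, hγ, x, y, e, es.symm⟩
    obtain ⟨q, hq, x2, y2, k4, k4'⟩ := c7d w hwZ ⟨δ, hδ, x, y, e, eu.symm⟩
    rw [e] at k1 k2 k3 k4
    refine ⟨u, hu, (opair_inj k1).1.symm, v, hv, (opair_inj k2).2.symm, p, hp, ?_, q, hq, ?_⟩
    · rw [k3', (opair_inj k3).1]
    · rw [k4', (opair_inj k4).1, (opair_inj k4).2]
  · rintro w hw c hc ⟨v, hv⟩
    have hL := inL_of_opair (inL_trans (inL_hF A (hord c hc)) hv)
    obtain ⟨β, hβ, ev⟩ := hL.2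
    obtain ⟨v', hv', w', c', e, k⟩ := c8 (opair w c) (p2 w hw c hc)
      ⟨β, hβ, w, c, rfl, by rw [← ev]; exact hv⟩
    obtain ⟨rfl, rfl⟩ := opair_inj e
    obtain ⟨ζ, hζ, eζ⟩ := inL_trans (inL_hF A (hord c hc)) k
    obtain ⟨z, hz, a', b', e', k'⟩ := c9 (opair w v') (p2 w hw v' hv')
      ⟨ζ, hζ, w, v', rfl, eζ.symm⟩
    obtain ⟨rfl, rfl⟩ := opair_inj e'
    exact ⟨v', hv', z, hz, k', by rw [k']; exact k⟩
  · intro u hu v hv c hc hc'
    obtain ⟨ζ, hζ, eζ⟩ := inL_trans (inL_hF A (hord c hc)) hc'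
    obtain ⟨z, hz, a', b', e', k'⟩ := c9 (opair u v) (p2 u hu v hv) ⟨ζ, hζ, u, v, rfl, eζ.symm⟩
    obtain ⟨rfl, rfl⟩ := opair_inj e'
    exact ⟨z, hz, k'⟩
  · intro w hw ho
    obtain ⟨u, hu, e⟩ := c10 w (hYZ w hw) ⟨hF A w, ho, rfl⟩
    unfold q10 at e
    rw [← e]; exact hu
  · intro u hu d hd hdu
    obtain ⟨β, _, hβ, e⟩ := mem_hF_ex (hord u hu) hdu
    exact c11 d (hYZ d hd) ⟨β, hβ, e.symm⟩
  · rintro u hu d hd ⟨x, hx, hx'⟩
    obtain ⟨β, _, hβ, rfl⟩ := mem_hF_ex (hord u hu) hx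
    obtain ⟨w, hw, a', d', e, h1, h2⟩ := c12 (opair u d) (p2 u hu d hd)
      ⟨β, hβ, u, d, rfl, hx, hx'⟩
    obtain ⟨rfl, rfl⟩ := opair_inj e
    exact ⟨w, hw, h1, h2⟩
  · rintro u hu d hd ⟨x, hx, hx'⟩
    obtain ⟨w, hw, a', d', e, h1, h2⟩ := c13 (opair u d) (p2 u hu d hd)
      ⟨x, (hord d hd).mem hx, u, d, rfl, hx, hx'⟩
    obtain ⟨rfl, rfl⟩ := opair_inj e
    exact ⟨w, hw, h1, h2⟩

end Pool.Agent.ZFIter.NPA
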