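import Pool.Agent.NPA.CCol
import Pool.Agent.NPA.BHier

/-!
# NPA/CRig: rigidity of codes

`kp_hF`: `kp c a = hF (cSet c) (rk c a)`, by `code_ind`. By `mem_hF` and `code_dec`, the elements of
the right side are the `x = hF (cSet c) β = kp c w` (`β = rk c w < rk c a`, induction hypothesis) with
`OpMem (cSet c) (rk c a) (cI c a) (kp c (cB c a)) (kp c (cC c a)) x` (for `cI c a = 0` the last two sets do not
matter, else `code_below`). By `CMem` it remains to show for `w < a` that `cOp c a w` is equivalent to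
this; case by case with `kp_eq_iff, kp_mem_iff, kp_pr, kp_of_opair` and in case 9 with `kp_O, rk_cN`,
`mem_cSet`. The corollaries follow.
-/

universe u

namespace Pool.Agent.ZFIter.NPA

open Pool.Agent.H78.ZF Pool.Agent.ZFIter

variable {M : Type u} [ZFM M] {ι : Type}

private theorem sUn_succ' {n : M} (hn : n ∈ (omega : M)) : sUn (succ n) = n := by
  apply Pool.Agent.H78.ZF.ext
  intro z
  rw [mem_sUn]
  constructor
  · rintro ⟨y, hy, hz⟩
    rw [mem_succ] at hy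
    rcases hy with hy | rfl
    · exact lt_trans hn hz hy
    · exact hz
  · intro hz
    exact ⟨n, by simp, hz⟩

/-! ### Values of `bs` -/

private theorem bs_zero_val (A δ k : M) : iota (fun y : M => ((emp : M) = emp ∧ y = k) ∨
    ((emp : M) ≠ emp ∧ sUn emp ∈ hF A δ ∧ y = emp) ∨
    ((emp : M) ≠ emp ∧ sUn emp ∉ hF A δ ∧ y = num 1)) = k := by
  apply iota_eq
  · exact Or.inl ⟨rfl, rfl⟩
  · rintro x (⟨_, h⟩ | ⟨h, _⟩ | ⟨h, _⟩)
    · exact h
    · exact absurd rfl h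
    · exact absurd rfl h

private theorem bs_succ_in (A δ k : M) {n : M} (hn : n ∈ (omega : M)) (h : n ∈ hF A δ) :
    iota (fun y : M => (succ n = emp ∧ y = k) ∨
    (succ n ≠ emp ∧ sUn (succ n) ∈ hF A δ ∧ y = emp) ∨
    (succ n ≠ emp ∧ sUn (succ n) ∉ hF A δ ∧ y = num 1)) = emp := by
  rw [sUn_succ' hn]
  apply iota_eq
  · exact Or.inr (Or.inl ⟨succ_ne_emp n, h, rfl⟩)
  · rintro x (⟨h1, _⟩ | ⟨_, _, h1⟩ | ⟨_, h1, _⟩)
    · exact absurd h1 (succ_ne_emp n)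
    · exact h1
    · exact absurd h h1

private theorem bs_succ_out (A δ k : M) {n : M} (hn : n ∈ (omega : M)) (h : n ∉ hF A δ) :
    iota (fun y : M => (succ n = emp ∧ y = k) ∨
    (succ n ≠ emp ∧ sUn (succ n) ∈ hF A δ ∧ y = emp) ∨
    (succ n ≠ emp ∧ sUn (succ n) ∉ hF A δ ∧ y = num 1)) = num 1 := by
  rw [sUn_succ' hn]
  apply iota_eq
  · exact Or.inr (Or.inr ⟨succ_ne_emp n, h, rfl⟩)
  · rintro x (⟨h1, _⟩ | ⟨_, h1, _⟩ | ⟨_, _, h1⟩)
    · exact absurd h1 (succ_ne_emp n)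
    · exact absurd h1 h
    · exact h1

private theorem bs_maps {A δ k : M} (hk : k ∈ (omega : M)) (n : M) (hn : n ∈ (omega : M)) :
    iota (fun y : M => (n = emp ∧ y = k) ∨ (n ≠ emp ∧ sUn n ∈ hF A δ ∧ y = emp) ∨
    (n ≠ emp ∧ sUn n ∉ hF A δ ∧ y = num 1)) ∈ (omega : M) := by
  rcases eq_emp_or_succ hn with rfl | ⟨m, hm, rfl⟩
  · rw [bs_zero_val]; exact hk
  · by_cases h : m ∈ hF A δ
    · rw [bs_succ_in A δ k hm h]; exact emp_mem_omega
    · rw [bs_succ_out A δ k hm h]; exact succ_mem_omega emp_mem_omega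

private theorem ap_bs' {A δ k n : M} (hk : k ∈ (omega : M)) (hn : n ∈ (omega : M)) :
    ap (bs A δ k) n = iota (fun y : M => (n = emp ∧ y = k) ∨ (n ≠ emp ∧ sUn n ∈ hF A δ ∧ y = emp) ∨
      (n ≠ emp ∧ sUn n ∉ hF A δ ∧ y = num 1)) := by
  unfold bs
  rw [ap_mkf (F := fun n => iota (fun y : M => (n = emp ∧ y = k) ∨
    (n ≠ emp ∧ sUn n ∈ hF A δ ∧ y = emp) ∨
    (n ≠ emp ∧ sUn n ∉ hF A δ ∧ y = num 1))) (fun n hn => bs_maps hk n hn) hn]

private theorem ap_bs_zero' {A δ k : M} (hk : k ∈ (omega : M)) : ap (bs A δ k) emp = k := by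
  rw [ap_bs' hk emp_mem_omega, bs_zero_val]

private theorem ap_bs_in' {A δ k n : M} (hk : k ∈ (omega : M)) (hn : n ∈ (omega : M))
    (h : n ∈ hF A δ) : ap (bs A δ k) (succ n) = emp := by
  rw [ap_bs' hk (succ_mem_omega hn), bs_succ_in A δ k hn h]

private theorem ap_bs_out' {A δ k n : M} (hk : k ∈ (omega : M)) (hn : n ∈ (omega : M))
    (h : n ∉ hF A δ) : ap (bs A δ k) (succ n) = num 1 := by
  rw [ap_bs' hk (succ_mem_omega hn), bs_succ_out A δ k hn h]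

section
variable {c : M} (hc : Code c)
include hc

/-- pairs in a collapsed set -/
private theorem pr_mem_iff {x y g : M} (hx : x ∈ (omega : M)) (hy : y ∈ (omega : M))
    (hg : g ∈ (omega : M)) : (∃ z, z ∈ (omega : M) ∧ cPr c z x y ∧ cE c z g) ↔
      opair (kp c x) (kp c y) ∈ kp c g := by
  constructor
  · rintro ⟨z, hz, h1, h2⟩
    rw [← (kp_pr hc hz hx hy).1 h1]
    exact (kp_mem_iff hc hz hg).2 h2
  · intro h
    obtain ⟨z, hz, _, e⟩ := kp_trans hc hg h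
    refine ⟨z, hz, (kp_pr hc hz hx hy).2 e.symm, (kp_mem_iff hc hz hg).1 ?_⟩
    rw [← e]; exact h

/-- the main step -/
theorem cOp_iff {a w : M} (ha : a ∈ (omega : M)) (hw : w ∈ (omega : M)) :
    cOp c a w ↔ OpMem (cSet c) (rk c a) (cI c a) (kp c (cB c a)) (kp c (cC c a)) (kp c w) := by
  have hB := cB_mem hc a
  have hC := cC_mem hc a
  have e3 : (∃ u, u ∈ (omega : M) ∧ ∃ v, v ∈ (omega : M) ∧ cPr c w u v ∧ cE c u v) ↔
      ∃ u v, kp c w = opair u v ∧ u ∈ v := by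
    constructor
    · rintro ⟨u, hu, v, hv, h1, h2⟩
      exact ⟨kp c u, kp c v, (kp_pr hc hw hu hv).1 h1, (kp_mem_iff hc hu hv).2 h2⟩
    · rintro ⟨u, v, h1, h2⟩
      obtain ⟨u', hu', v', hv', rfl, rfl, h3⟩ := kp_of_opair hc hw h1
      exact ⟨u', hu', v', hv', h3, (kp_mem_iff hc hu' hv').1 h2⟩
  have e4 : (∃ u, u ∈ (omega : M) ∧ ∃ v, v ∈ (omega : M) ∧ cPr c w u v ∧ cE c v (cC c a)) ↔
      ∃ u v, kp c w = opair u v ∧ v ∈ kp c (cC c a) := by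
    constructor
    · rintro ⟨u, hu, v, hv, h1, h2⟩
      exact ⟨kp c u, kp c v, (kp_pr hc hw hu hv).1 h1, (kp_mem_iff hc hv hC).2 h2⟩
    · rintro ⟨u, v, h1, h2⟩
      obtain ⟨u', hu', v', hv', rfl, rfl, h3⟩ := kp_of_opair hc hw h1
      exact ⟨u', hu', v', hv', h3, (kp_mem_iff hc hv' hC).1 h2⟩
  have e5 : (∃ u, u ∈ (omega : M) ∧ ∃ v, v ∈ (omega : M) ∧
      cPr c w u v ∧ ∃ z, z ∈ (omega : M) ∧ cPr c z v u ∧ cE c z (cC c a)) ↔
      ∃ u v, kp c w = opair u v ∧ opair v u ∈ kp c (cC c a) := by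
    constructor
    · rintro ⟨u, hu, v, hv, h1, h2⟩
      exact ⟨kp c u, kp c v, (kp_pr hc hw hu hv).1 h1, (pr_mem_iff hc hv hu hC).1 h2⟩
    · rintro ⟨u, v, h1, h2⟩
      obtain ⟨u', hu', v', hv', rfl, rfl, h3⟩ := kp_of_opair hc hw h1
      exact ⟨u', hu', v', hv', h3, (pr_mem_iff hc hv' hu' hC).2 h2⟩
  have e6 : (∃ v, v ∈ (omega : M) ∧ ∃ z, z ∈ (omega : M) ∧ cPr c z w v ∧ cE c z (cC c a)) ↔
      ∃ v, opair (kp c w) v ∈ kp c (cC c a) := by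
    constructor
    · rintro ⟨v, hv, h⟩
      exact ⟨kp c v, (pr_mem_iff hc hw hv hC).1 h⟩
    · rintro ⟨v, h⟩
      obtain ⟨z, hz, _, e⟩ := kp_trans hc hC h
      obtain ⟨w', hw', v', hv', e1, rfl, h3⟩ := kp_of_opair hc hz e.symm
      exact ⟨v', hv', (pr_mem_iff hc hw hv' hC).2 h⟩
  have e7 : (∃ s, s ∈ (omega : M) ∧ ∃ x, x ∈ (omega : M) ∧
      ∃ t, t ∈ (omega : M) ∧ ∃ y, y ∈ (omega : M) ∧ cPr c w s x ∧ cPr c s t y ∧
      ∃ z, z ∈ (omega : M) ∧ cPr c z y x ∧ cE c z (cC c a)) ↔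
      ∃ t y x, kp c w = opair (opair t y) x ∧ opair y x ∈ kp c (cC c a) := by
    constructor
    · rintro ⟨s, hs, x, hx, t, ht, y, hy, h1, h2, h3⟩
      refine ⟨kp c t, kp c y, kp c x, ?_, (pr_mem_iff hc hy hx hC).1 h3⟩
      rw [(kp_pr hc hw hs hx).1 h1, (kp_pr hc hs ht hy).1 h2]
    · rintro ⟨t, y, x, h1, h2⟩
      obtain ⟨s, hs, x', hx', e1, rfl, h3⟩ := kp_of_opair hc hw h1
      obtain ⟨t', ht', y', hy', rfl, rfl, h4⟩ := kp_of_opair hc hs e1.symm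
      exact ⟨s, hs, x', hx', t', ht', y', hy', h3, h4, (pr_mem_iff hc hy' hx' hC).2 h2⟩
  have e8 : (∃ s, s ∈ (omega : M) ∧ ∃ x, x ∈ (omega : M) ∧
      ∃ t, t ∈ (omega : M) ∧ ∃ y, y ∈ (omega : M) ∧ cPr c w s x ∧ cPr c s t y ∧
      ∃ z, z ∈ (omega : M) ∧ cPr c z t x ∧ cE c z (cC c a)) ↔
      ∃ t y x, kp c w = opair (opair t y) x ∧ opair t x ∈ kp c (cC c a) := by
    constructor
    · rintro ⟨s, hs, x, hx, t, ht, y, hy, h1, h2, h3⟩
      refine ⟨kp c t, kp c y, kp c x, ?_, (pr_mem_iff hc ht hx hC).1 h3⟩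
      rw [(kp_pr hc hw hs hx).1 h1, (kp_pr hc hs ht hy).1 h2]
    · rintro ⟨t, y, x, h1, h2⟩
      obtain ⟨s, hs, x', hx', e1, rfl, h3⟩ := kp_of_opair hc hw h1
      obtain ⟨t', ht', y', hy', rfl, rfl, h4⟩ := kp_of_opair hc hs e1.symm
      exact ⟨s, hs, x', hx', t', ht', y', hy', h3, h4, (pr_mem_iff hc ht' hx' hC).2 h2⟩
  have e9 : (∃ d, d ∈ (omega : M) ∧ ∃ k, k ∈ (omega : M) ∧
      cLt c d a ∧ cA c d k ∧ ∃ u, u ∈ (omega : M) ∧ ∃ v, v ∈ (omega : M) ∧ cPr c w u v ∧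
      cO c u d ∧ cO c v (cN c k)) ↔
      kp c w ∈ cSet c ∧ ∃ d k, d ∈ rk c a ∧ k ∈ (omega : M) ∧ kp c w = opair d k := by
    constructor
    · rintro ⟨d, hd, k, hk, h1, h2, u, hu, v, hv, h3, h4, h5⟩
      have e : kp c w = opair (rk c d) k := by
        rw [(kp_pr hc hw hu hv).1 h3, (kp_O hc hu hd).1 h4, (kp_O hc hv (cN_mem hc hk)).1 h5,
          rk_cN hc hk]
      refine ⟨?_, rk c d, k, (rk_lt_iff hc hd ha).2 h1, hk, e⟩
      rw [e]
      exact (code_A hc hd hk).2 h2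
    · rintro ⟨h1, d, k, hd, hk, e⟩
      obtain ⟨d', hd', hlt, rfl⟩ := rk_surj hc ha hd
      have hA : cA c d' k := by
        rw [e] at h1
        exact (code_A hc hd' hk).1 h1
      obtain ⟨u, hu, v, hv, e1, e2, h3⟩ := kp_of_opair hc hw e
      refine ⟨d', hd', k, hk, hlt, hA, u, hu, v, hv, h3, (kp_O hc hu hd').2 e1.symm, ?_⟩
      rw [kp_O hc hv (cN_mem hc hk), rk_cN hc hk]
      exact e2.symm
  have e10 : (∃ u, u ∈ (omega : M) ∧ cPr c w u u) ↔ ∃ u, kp c w = opair u u := by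
    constructor
    · rintro ⟨u, hu, h⟩
      exact ⟨kp c u, (kp_pr hc hw hu hu).1 h⟩
    · rintro ⟨u, h⟩
      obtain ⟨u', hu', v', hv', e1, e2, _⟩ := kp_of_opair hc hw h
      refine ⟨u', hu', (kp_pr hc hw hu' hu').2 ?_⟩
      rw [← e1]; exact h
  unfold cOp OpMem
  rw [e3, e4, e5, e6, e7, e8, e9, e10, kp_mem_iff hc hw hB, kp_mem_iff hc hw hC,
    kp_eq_iff hc hw hB, kp_eq_iff hc hw hC]

theorem kp_hF {a : M} (ha : a ∈ (omega : M)) : kp c a = hF (cSet c) (rk c a) := by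
  apply code_ind hc (fun a => kp c a = hF (cSet c) (rk c a)) _ a ha
  intro a ha ih
  obtain ⟨d1, d2, d3⟩ := code_dec hc ha
  have hop : ∀ x, OpMem (cSet c) (rk c a) (dI (rk c a)) (hF (cSet c) (dB (rk c a)))
      (hF (cSet c) (dC (rk c a))) x ↔
      OpMem (cSet c) (rk c a) (cI c a) (kp c (cB c a)) (kp c (cC c a)) x := by
    intro x
    rw [d1, d2, d3]
    by_cases h0 : cI c a = emp
    · have h0' : cI c a = num 0 := h0
      exact ⟨fun _ => Or.inl h0', fun _ => Or.inl h0'⟩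
    · obtain ⟨h1, h2⟩ := code_below hc ha h0
      rw [ih _ (cB_mem hc a) h1, ih _ (cC_mem hc a) h2]
  apply Pool.Agent.H78.ZF.ext
  intro x
  rw [mem_kp hc ha, mem_hF (rk_ord hc ha), hop]
  constructor
  · rintro ⟨w, hw, h1, h2, rfl⟩
    refine ⟨⟨rk c w, (rk_lt_iff hc hw ha).2 h1, ih w hw h1⟩, ?_⟩
    exact (cOp_iff hc ha hw).1 ((hc.1.mem a ha w hw).1 h2).2
  · rintro ⟨⟨β, hβ, rfl⟩, h2⟩
    obtain ⟨w, hw, hlt, rfl⟩ := rk_surj hc ha hβ
    rw [← ih w hw hlt] at h2 ⊢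
    refine ⟨w, hw, hlt, ?_, rfl⟩
    exact (hc.1.mem a ha w hw).2 ⟨⟨w, hw, hlt, cEq_refl c w⟩, (cOp_iff hc ha hw).2 h2⟩

theorem code_E {m n : M} (hm : m ∈ (omega : M)) (hn : n ∈ (omega : M)) :
    cE c m n ↔ hF (cSet c) (rk c m) ∈ hF (cSet c) (rk c n) := by
  rw [← kp_hF hc hm, ← kp_hF hc hn, kp_mem_iff hc hm hn]

theorem code_Eq {m n : M} (hm : m ∈ (omega : M)) (hn : n ∈ (omega : M)) :
    cEq c m n ↔ hF (cSet c) (rk c m) = hF (cSet c) (rk c n) := by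
  rw [← kp_hF hc hm, ← kp_hF hc hn, kp_eq_iff hc hm hn]

theorem code_O {m n : M} (hm : m ∈ (omega : M)) (hn : n ∈ (omega : M)) :
    cO c m n ↔ hF (cSet c) (rk c m) = rk c n := by
  rw [← kp_hF hc hm, kp_O hc hm hn]

theorem code_CS {m : M} (hm : m ∈ (omega : M)) : cCS c m ↔ CS (cSet c) (rk c m) := by
  rw [hc.1.stg m hm]
  unfold CS
  apply and_congr
  · rw [← kp_hF hc hm]
    constructor
    · intro h x hx
      obtain ⟨w, hw, _, h1, rfl⟩ := (mem_kp hc hm).1 hx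
      obtain ⟨k, hk, h2⟩ := h w hw h1
      rw [(kp_O hc hw (cN_mem hc hk)).1 h2, rk_cN hc hk]
      exact hk
    · intro h w hw h1
      have h2 := h _ ((kp_mem_iff hc hw hm).2 h1)
      refine ⟨kp c w, h2, (kp_O hc hw (cN_mem hc h2)).2 ?_⟩
      rw [rk_cN hc h2]
  · constructor
    · intro h β hβ
      obtain ⟨w, hw, hlt, rfl⟩ := rk_surj hc hm hβ
      exact fun e => h w hw hlt ((code_Eq hc hw hm).2 e)
    · intro h w hw hlt e
      exact h _ ((rk_lt_iff hc hw hm).2 hlt) ((code_Eq hc hw hm).1 e)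

theorem code_NE {m n : M} (hm : m ∈ (omega : M)) (hn : n ∈ (omega : M)) :
    cNE c n m ↔ n ∈ hF (cSet c) (rk c m) := by
  rw [← kp_hF hc hm]
  unfold cNE
  constructor
  · rintro ⟨w, hw, h1, h2⟩
    have h3 := (kp_mem_iff hc hw hm).2 h1
    rwa [(kp_O hc hw (cN_mem hc hn)).1 h2, rk_cN hc hn] at h3
  · intro h
    obtain ⟨w, hw, _, h1, e⟩ := (mem_kp hc hm).1 h
    refine ⟨w, hw, h1, (kp_O hc hw (cN_mem hc hn)).2 ?_⟩
    rw [rk_cN hc hn]
    exact e.symm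

theorem code_Q {m k n : M} (hm : m ∈ (omega : M)) (hk : k ∈ (omega : M)) (hn : n ∈ (omega : M)) :
    cQ c m k n = sq (bs (cSet c) (rk c m) k) n := by
  obtain ⟨h0, h1, h2⟩ := hc.1.seq m hm k hk
  have key : ∀ n, n ∈ (omega : M) → cQ c m k (succ n) = sq (bs (cSet c) (rk c m) k) (succ n) := by
    apply omega_induction (fun n => cQ c m k (succ n) = sq (bs (cSet c) (rk c m) k) (succ n))
    · rw [sq_succ _ emp_mem_omega, sq_emp, ap_bs_zero' hk]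
      exact h1
    · intro n hn ih
      rw [sq_succ _ (succ_mem_omega hn), ← ih]
      by_cases h : cNE c n m
      · rw [(h2 n hn).1 h, ap_bs_in' hk hn ((code_NE hc hm hn).1 h)]
      · rw [(h2 n hn).2 h, ap_bs_out' hk hn (fun h' => h ((code_NE hc hm hn).2 h'))]
  rcases eq_emp_or_succ hn with rfl | ⟨n', hn', rfl⟩
  · rw [sq_emp]; exact h0
  · exact key n' hn'

end

end Pool.Agent.ZFIter.NPA
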