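import Pool.Agent.NPA.CEx
import Pool.Agent.NPA.CHull
import Pool.Agent.NPA.CRig
import Pool.Agent.NPA.ACtb

/-!
# NPA/CCond: condensation

Let `A ⊆ λ × omega`, `λ` countable, `s = hF A α ⊆ omega`. Take a hull `Y ⊇ λ ∪ {α}` (`exists_hull`; note
`omega ⊆ Y`), a bijection `e` (`ctb_bij`), the code `c` (`exists_code`). Since `λ ⊆ Y`, `otp Y` is the
identity on `λ` (`otp_id`), so `cSet c = A` (`mem_cSet`). Let `e m = α` and `ᾱ = rk c m = otp Y α`, a
countable ordinal. Then `hF A ᾱ = s`: `hF A ᾱ = kp c m = {kp c w : cE c w m}` (`kp_hF`, `mem_kp`), and for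
`n ∈ omega` with `e w` an index of `n` in `Y` (`YCl.ord2` / `low`) `kp c w = n` (`kp_O`, `rk_cN`; `omega ⊆ Y`).
-/

universe u

namespace Pool.Agent.ZFIter.NPA

open Pool.Agent.H78.ZF Pool.Agent.ZFIter

variable {M : Type u} [ZFM M] {ι : Type}

theorem cond_real (hAC : AC M) {A l s : M} (hl : Ord l) (hc : Ctb l) (hA : A ⊆ prod l omega)
    (hs : s ⊆ omega) (h : InL A s) : ∃ α, Ord α ∧ Ctb α ∧ hF A α = s := by
  obtain ⟨α0, hα0, rfl⟩ := h
  obtain ⟨Y, hXY, hYc, hY⟩ := exists_hull hAC A (X := ins l α0) (ctb_ins hc) (fun x hx => by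
    rw [mem_ins] at hx
    rcases hx with hx | rfl
    · exact hl.mem hx
    · exact hα0)
  have hlY : l ⊆ Y := fun z hz => hXY z (by rw [mem_ins]; exact Or.inl hz)
  have hαY : α0 ∈ Y := hXY α0 (by rw [mem_ins]; exact Or.inr rfl)
  obtain ⟨e, he⟩ := ctb_bij hYc hY.om
  have he' := bij_iff.1 he
  obtain ⟨c, hcode, hrk, hcA, hcLt, hcE, hcO, -⟩ := exists_code hY he emp_mem_omega emp_mem_omega
    emp_mem_omega emp_mem_omega
  have eY : ∀ m, m ∈ (omega : M) → ap e m ∈ Y := fun m hm => he.fun.ap_mem hm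
  have hid : ∀ x, x ∈ l → otp Y x = x := fun x hx =>
    otp_id hY.ords (hl.mem hx) (sub_trans (hl.1 x hx) hlY)
  have hidn : ∀ x, x ∈ (omega : M) → otp Y x = x := fun x hx =>
    otp_id hY.ords (ord_nat hx) (sub_trans (omega_sub hx) hY.om)
  have hset : cSet c = A := by
    apply Pool.Agent.H78.ZF.ext
    intro z
    rw [mem_cSet hcode]
    constructor
    · rintro ⟨m, hm, k, hk, rfl, h⟩
      have h1 := (hcA m hm k hk).1 h
      have h2 := hA _ h1
      rw [opair_mem_prod] at h2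
      rw [hrk m hm, hid _ h2.1]
      exact h1
    · intro hz
      have hz' := hA z hz
      rw [mem_prod] at hz'
      obtain ⟨d, hd, k, hk, rfl⟩ := hz'
      obtain ⟨m, hm, hmd⟩ := he'.2.2 d (hlY d hd)
      refine ⟨m, hm, k, hk, ?_, (hcA m hm k hk).2 (by rw [hmd]; exact hz)⟩
      rw [hrk m hm, hmd, hid d hd]
  obtain ⟨m, hm, hmα⟩ := he'.2.2 α0 hαY
  refine ⟨rk c m, rk_ord hcode hm, ctb_rk hcode hm, ?_⟩
  have hkp := kp_hF hcode hm
  rw [hset] at hkp
  rw [← hkp]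
  -- for a number n and an index w of n
  have hval : ∀ w, w ∈ (omega : M) → ∀ n, n ∈ (omega : M) → hF A (ap e w) = n → kp c w = n := by
    intro w hw n hn hwn
    obtain ⟨j, hj, hjn⟩ := he'.2.2 n (hY.om n hn)
    have h1 : cO c w j := (hcO w hw j hj).2 (by rw [hwn, hjn])
    rw [(kp_O hcode hw hj).1 h1, hrk j hj, hjn, hidn n hn]
  apply Pool.Agent.H78.ZF.ext
  intro x
  rw [mem_kp hcode hm]
  constructor
  · rintro ⟨w, hw, -, hE, rfl⟩
    have h1 := (hcE w hw m hm).1 hE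
    rw [hmα] at h1
    rw [hval w hw _ (hs _ h1) rfl]
    exact h1
  · intro hx
    have hxo := hs x hx
    obtain ⟨w0, hw0, hw0x⟩ := hY.ord2 α0 hαY x (hY.om x hxo) hx
    obtain ⟨w1, hw1, hw1α, hw1x⟩ := hY.low w0 hw0 α0 hαY (by rw [hw0x]; exact hx)
    obtain ⟨w, hw, hww⟩ := he'.2.2 w1 hw1
    refine ⟨w, hw, ?_, ?_, ?_⟩
    · rw [hcLt w hw m hm, hww, hmα]
      exact hw1α
    · rw [hcE w hw m hm, hww, hmα, hw1x, hw0x]
      exact hx
    · rw [hval w hw x hxo (by rw [hww, hw1x, hw0x])]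

end Pool.Agent.ZFIter.NPA
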