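import Pool.Agent.NPA.CDecR

/-!
# NPA/CCong: `cE` respects `cEq` on the left

By `code_ind` on `a`: `cE c w a ↔ (∃ z, cLt c z a ∧ cEq c z w) ∧ cOp c a w` (`CMem`). The first part is
invariant since `cEq c` is an equivalence relation. `cOp c a w`: the relations `cEq c w _` and
`cPr c w u v`, `cPr c z w v` depend on `w` only up to `cEq` (`cUp` is formulated with `cEq` and the elements
of `w`), `cE c w (cB c a)` and `cE c w (cC c a)`: induction hypothesis and `code_below`;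
`cO c u d` does not involve `w`.
-/

universe u

namespace Pool.Agent.ZFIter.NPA

open Pool.Agent.H78.ZF Pool.Agent.ZFIter

variable {M : Type u} [ZFM M] {ι : Type}

theorem cEq_refl (c a : M) : cEq c a a := fun _ _ => Iff.rfl
theorem cEq_symm {c a b : M} (h : cEq c a b) : cEq c b a := fun w hw => (h w hw).symm
theorem cEq_trans {c a b d : M} (h : cEq c a b) (h' : cEq c b d) : cEq c a d :=
  fun w hw => (h w hw).trans (h' w hw)

theorem cUp_congr1 {c p p' a b : M} (h : cEq c p p') (hp : cUp c p a b) : cUp c p' a b :=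
  fun w hw => (h w hw).symm.trans (hp w hw)

theorem cUp_congr2 {c p a a' b : M} (h : cEq c a a') (hp : cUp c p a b) : cUp c p a' b := by
  intro w hw
  rw [hp w hw]
  constructor
  · rintro (h1 | h1)
    · exact Or.inl (cEq_trans h1 h)
    · exact Or.inr h1
  · rintro (h1 | h1)
    · exact Or.inl (cEq_trans h1 (cEq_symm h))
    · exact Or.inr h1

theorem cUp_comm {c p a b : M} (hp : cUp c p a b) : cUp c p b a := by
  intro w hw
  rw [hp w hw]
  exact or_comm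

theorem cPr_congr1 {c p p' a b : M} (h : cEq c p p') (hp : cPr c p a b) : cPr c p' a b := by
  obtain ⟨u, hu, v, hv, h1, h2, h3⟩ := hp
  exact ⟨u, hu, v, hv, h1, h2, cUp_congr1 h h3⟩

theorem cPr_congr2 {c p a a' b : M} (h : cEq c a a') (hp : cPr c p a b) : cPr c p a' b := by
  obtain ⟨u, hu, v, hv, h1, h2, h3⟩ := hp
  exact ⟨u, hu, v, hv, cUp_comm (cUp_congr2 h (cUp_comm (cUp_congr2 h h1))), cUp_congr2 h h2, h3⟩

theorem cPr_congr3 {c p a b b' : M} (h : cEq c b b') (hp : cPr c p a b) : cPr c p a b' := by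
  obtain ⟨u, hu, v, hv, h1, h2, h3⟩ := hp
  exact ⟨u, hu, v, hv, h1, cUp_comm (cUp_congr2 h (cUp_comm h2)), h3⟩

theorem cOp_congr {c a w w' : M} (hB : cI c a ≠ emp → (cE c w (cB c a) ↔ cE c w' (cB c a)))
    (hC : cI c a ≠ emp → (cE c w (cC c a) ↔ cE c w' (cC c a))) (h : cEq c w w')
    (ho : cOp c a w) : cOp c a w' := by
  have key : ∀ k : ℕ, cI c a = num (k + 1) → cI c a ≠ emp := fun k hk => by
    rw [hk]; exact succ_ne_emp _
  rcases ho with ho | ⟨h0, ho⟩ | ⟨h0, h1, h2⟩ | ⟨h0, h1, u, hu, v, hv, h2, h3⟩ |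
    ⟨h0, h1, u, hu, v, hv, h2, h3⟩ | ⟨h0, h1, u, hu, v, hv, h2, h3⟩ | ⟨h0, h1, v, hv, z, hz, h2, h3⟩ |
    ⟨h0, h1, s, hs, x, hx, t, ht, y, hy, h2, h3⟩ | ⟨h0, h1, s, hs, x, hx, t, ht, y, hy, h2, h3⟩ |
    ⟨h0, h1, d, hd, k, hk, h2, h3, u, hu, v, hv, h4, h5⟩ | ⟨h0, h1, u, hu, h2⟩
  · exact Or.inl ho
  · refine Or.inr (Or.inl ⟨h0, ?_⟩)
    rcases ho with ho | ho
    · exact Or.inl (cEq_trans (cEq_symm h) ho)
    · exact Or.inr (cEq_trans (cEq_symm h) ho)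
  · exact Or.inr (Or.inr (Or.inl ⟨h0, (hB (key _ h0)).1 h1, fun h3 => h2 ((hC (key _ h0)).2 h3)⟩))
  · exact Or.inr (Or.inr (Or.inr (Or.inl ⟨h0, (hB (key _ h0)).1 h1, u, hu, v, hv,
      cPr_congr1 h h2, h3⟩)))
  · exact Or.inr (Or.inr (Or.inr (Or.inr (Or.inl ⟨h0, (hB (key _ h0)).1 h1, u, hu, v, hv,
      cPr_congr1 h h2, h3⟩))))
  · exact Or.inr (Or.inr (Or.inr (Or.inr (Or.inr (Or.inl ⟨h0, (hB (key _ h0)).1 h1, u, hu, v, hv,
      cPr_congr1 h h2, h3⟩)))))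
  · exact Or.inr (Or.inr (Or.inr (Or.inr (Or.inr (Or.inr (Or.inl ⟨h0, (hB (key _ h0)).1 h1, v, hv, z,
      hz, cPr_congr2 h h2, h3⟩))))))
  · exact Or.inr (Or.inr (Or.inr (Or.inr (Or.inr (Or.inr (Or.inr (Or.inl ⟨h0, (hB (key _ h0)).1 h1,
      s, hs, x, hx, t, ht, y, hy, cPr_congr1 h h2, h3⟩)))))))
  · exact Or.inr (Or.inr (Or.inr (Or.inr (Or.inr (Or.inr (Or.inr (Or.inr (Or.inl ⟨h0,
      (hB (key _ h0)).1 h1, s, hs, x, hx, t, ht, y, hy, cPr_congr1 h h2, h3⟩))))))))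
  · exact Or.inr (Or.inr (Or.inr (Or.inr (Or.inr (Or.inr (Or.inr (Or.inr (Or.inr (Or.inl ⟨h0,
      (hB (key _ h0)).1 h1, d, hd, k, hk, h2, h3, u, hu, v, hv, cPr_congr1 h h4, h5⟩)))))))))
  · exact Or.inr (Or.inr (Or.inr (Or.inr (Or.inr (Or.inr (Or.inr (Or.inr (Or.inr (Or.inr ⟨h0,
      (hB (key _ h0)).1 h1, u, hu, cPr_congr1 h h2⟩)))))))))

theorem cE_congr_all {c a : M} (hc : Code c) (ha : a ∈ (omega : M)) :
    ∀ w, w ∈ (omega : M) → ∀ w', w' ∈ (omega : M) → cEq c w w' → (cE c w a ↔ cE c w' a) := by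
  revert a
  apply code_ind hc (fun a => ∀ w, w ∈ (omega : M) → ∀ w', w' ∈ (omega : M) → cEq c w w' →
    (cE c w a ↔ cE c w' a))
  intro a ha ih
  have main : ∀ w, w ∈ (omega : M) → ∀ w', w' ∈ (omega : M) → cEq c w w' → cE c w a → cE c w' a := by
    intro w hw w' hw' h h1
    have h2 := (hc.1.mem a ha w hw).1 h1
    refine (hc.1.mem a ha w' hw').2 ⟨?_, ?_⟩
    · obtain ⟨z, hz, hz1, hz2⟩ := h2.1
      exact ⟨z, hz, hz1, cEq_trans hz2 h⟩
    · exact cOp_congr (fun hne => ih _ (cB_mem hc a) (code_below hc ha hne).1 w hw w' hw' h)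
        (fun hne => ih _ (cC_mem hc a) (code_below hc ha hne).2 w hw w' hw' h) h h2.2
  intro w hw w' hw' h
  exact ⟨main w hw w' hw' h, main w' hw' w hw (cEq_symm h)⟩

theorem cE_congr {c a w w' : M} (hc : Code c) (ha : a ∈ (omega : M)) (hw : w ∈ (omega : M))
    (hw' : w' ∈ (omega : M)) (h : cEq c w w') : cE c w a ↔ cE c w' a :=
  cE_congr_all hc ha w hw w' hw' h

end Pool.Agent.ZFIter.NPA
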