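import Pool.Agent.NPA.CRk
import Pool.Agent.NPA.BDec

/-!
# NPA/CDecR: `dec` along a code

`code_dec`: fix `m` and apply `dec_uniq` on `θ = succ (rk c m)` to the functions
`I α = cI c n`, `B α = rk c (cB c n)`, `C α = rk c (cC c n)` where `n` is the element with `rk c n = α`
(`iota`; `rk_surj, rk_inj`). `cTL` for `cLt c` corresponds to `TLt` for the ranks (`rk_lt_iff`). In the
third hypothesis of `dec_uniq` a triple `(i, b, g)` of ordinals below `(I α, B α, C α)` has
`b, g ⊆ un (B α) (C α)`, so `b` and `g` are ranks of elements.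
-/

universe u

namespace Pool.Agent.ZFIter.NPA

open Pool.Agent.H78.ZF Pool.Agent.ZFIter

variable {M : Type u} [ZFM M] {ι : Type}

/-- the element of rank `α` -/
private noncomputable def inv (c α : M) : M := iota (fun n => n ∈ (omega : M) ∧ rk c n = α)

private instance DF.inv' (c α : (ι → M) → M) [DF c] [DF α] : DF (fun v => inv (c v) (α v)) := by
  unfold inv
  infer_instance

private theorem inv_rk {c n : M} (hc : Code c) (hn : n ∈ (omega : M)) : inv c (rk c n) = n := by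
  unfold inv
  exact iota_eq ⟨hn, rfl⟩ (fun k hk => rk_inj hc hk.1 hn hk.2)

private theorem rk_eq_iff {c m n : M} (hc : Code c) (hm : m ∈ (omega : M)) (hn : n ∈ (omega : M)) :
    rk c m = rk c n ↔ m = n := ⟨rk_inj hc hm hn, fun h => by rw [h]⟩

private theorem cTL_iff {c i b g i' b' g' : M} (hc : Code c) (hb : b ∈ (omega : M))
    (hg : g ∈ (omega : M)) (hb' : b' ∈ (omega : M)) (hg' : g' ∈ (omega : M)) :
    TLt i (rk c b) (rk c g) i' (rk c b') (rk c g') ↔ cTL c i b g i' b' g' := by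
  unfold TLt cTL TL MaxLt
  beta_reduce
  rw [rk_lt_iff hc hb hb', rk_lt_iff hc hb hg', rk_lt_iff hc hg hb', rk_lt_iff hc hg hg',
    rk_lt_iff hc hb' hb, rk_lt_iff hc hb' hg, rk_lt_iff hc hg' hb, rk_lt_iff hc hg' hg,
    rk_eq_iff hc hb hb', rk_eq_iff hc hg hg']

theorem code_dec {c m : M} (hc : Code c) (hm : m ∈ (omega : M)) :
    dI (rk c m) = cI c m ∧ dB (rk c m) = rk c (cB c m) ∧ dC (rk c m) = rk c (cC c m) := by
  have hom : Ord (rk c m) := rk_ord hc hm
  have hsurj : ∀ α, α ∈ succ (rk c m) → ∃ n, n ∈ (omega : M) ∧ rk c n = α := by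
    intro α hα
    rw [mem_succ] at hα
    rcases hα with h | h
    · obtain ⟨n, hn, -, h1⟩ := rk_surj hc hm h
      exact ⟨n, hn, h1⟩
    · exact ⟨m, hm, h.symm⟩
  have hb := fun n => cB_mem hc n
  have hg := fun n => cC_mem hc n
  have hdec := hc.1.dec
  have hI : F1 (fun α => cI c (inv c α)) := by infer_instance
  have hB : F1 (fun α => rk c (cB c (inv c α))) := by infer_instance
  have hC : F1 (fun α => rk c (cC c (inv c α))) := by infer_instance
  have hT : ∀ n, n ∈ (omega : M) → Tri (cI c n) (rk c (cB c n)) (rk c (cC c n)) := fun n hn =>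
    ⟨hdec.1 n hn, rk_ord hc (hb n), rk_ord hc (hg n)⟩
  have key := dec_uniq (θ := succ (rk c m)) hom.succ (fun α => cI c (inv c α))
    (fun α => rk c (cB c (inv c α))) (fun α => rk c (cC c (inv c α))) ?_ ?_ ?_ (rk c m)
    (by rw [mem_succ]; exact Or.inr rfl)
  · simp only [inv_rk hc hm] at key
    exact key
  · intro α hα
    obtain ⟨n, hn, rfl⟩ := hsurj α hα
    simp only [inv_rk hc hn]
    exact hT n hn
  · intro β hβ α hα
    obtain ⟨n, hn, rfl⟩ := hsurj β hβ
    obtain ⟨k, hk, rfl⟩ := hsurj α (hom.succ.trans hα hβ)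
    simp only [inv_rk hc hn, inv_rk hc hk]
    rw [cTL_iff hc (hb k) (hg k) (hb n) (hg n)]
    exact hdec.2.1 k hk n hn ((rk_lt_iff hc hk hn).1 hα)
  · intro α hα i b g ht hlt
    obtain ⟨n, hn, rfl⟩ := hsurj α hα
    simp only [inv_rk hc hn] at hlt
    -- the entries of the smaller triple are ranks
    have hμ : ∃ x, x ∈ (omega : M) ∧ un (rk c (cB c n)) (rk c (cC c n)) = rk c x := by
      rcases ord_un_cases (rk_ord hc (hb n)) (rk_ord hc (hg n)) with ⟨h, -⟩ | ⟨h, -⟩
      · exact ⟨_, hb n, h⟩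
      · exact ⟨_, hg n, h⟩
    obtain ⟨x, hx, hxe⟩ := hμ
    have hox := rk_ord hc hx
    have h1 := (tlt_iff ht (hT n hn)).1 hlt
    rw [hxe] at h1
    have h2 : un b g ⊆ rk c x := by
      rcases h1 with h1 | ⟨h1, -⟩
      · exact hox.1 _ h1
      · rw [h1]; exact sub_refl _
    have h3 : ∀ y, Ord y → y ⊆ rk c x → ∃ k, k ∈ (omega : M) ∧ rk c k = y := by
      intro y hy hyx
      rcases (ord_sub_iff hy hox).1 hyx with h | h
      · obtain ⟨k, hk, -, h4⟩ := rk_surj hc hx h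
        exact ⟨k, hk, h4⟩
      · exact ⟨x, hx, h.symm⟩
    obtain ⟨b', hb', rfl⟩ := h3 b ht.2.1 (fun z hz => h2 z (by rw [mem_un]; exact Or.inl hz))
    obtain ⟨g', hg', rfl⟩ := h3 g ht.2.2 (fun z hz => h2 z (by rw [mem_un]; exact Or.inr hz))
    rw [cTL_iff hc hb' hg' (hb n) (hg n)] at hlt
    obtain ⟨d, hd, h4, h5, h6, h7⟩ := hdec.2.2 n hn i ht.1 b' hb' g' hg' hlt
    refine ⟨rk c d, (rk_lt_iff hc hd hn).2 h4, ?_⟩
    simp only [inv_rk hc hd]
    rw [h5, h6, h7]
    exact ⟨rfl, rfl, rfl⟩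

theorem code_below {c m : M} (hc : Code c) (hm : m ∈ (omega : M)) (h : cI c m ≠ emp) :
    cLt c (cB c m) m ∧ cLt c (cC c m) m := by
  obtain ⟨h1, h2, h3⟩ := code_dec hc hm
  have h4 := dec_bound' (rk_ord hc hm) (by rw [h1]; exact h)
  rw [h2, h3] at h4
  exact ⟨(rk_lt_iff hc (cB_mem hc m) hm).1 h4.1, (rk_lt_iff hc (cC_mem hc m) hm).1 h4.2⟩

end Pool.Agent.ZFIter.NPA
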