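import Pool.Agent.NPA.CMkc

/-!
# NPA/CEx: closed sets of ordinals give codes

Let `Y` satisfy `YCl A Y` and let `e` be a bijection of `omega` with `Y`. Apply `exists_mkc` to
`L m n: e m ∈ e n`; `E m n: hF A (e m) ∈ hF A (e n)`; `A m k: (e m, k) ∈ A`; `O m n: hF A (e m) = e n`;
`I a = dI (e a)`, `B a` = the number with `e (B a) = dB (e a)` (`YCl.comp`), `C` similarly; `N n` = the number
with `e (N n) = n` (`YCl.om`); `G d`: the right side of the clause `CStg` in terms of `E, O, N`, i.e.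
(`hF A (e d)`'s elements with index in `Y` are natural numbers, and no `w` with `e w < e d` has the
same value) (formulate it so that `CStg` holds); `Q (pr (pr d k) n)` = the code of the sequence
prescribed by `CSeq` (a real `b_{d,k}`: `k`, then the characteristic function of
`{n : exists w, E w d, O w (N n)}`; `Q = sq b n`).
Verification of the clauses: `cEq c a b ↔ hF A (e a) = hF A (e b)` (`YCl.ex`);
`cUp c p a b ↔ hF (e p) = upair ..` (`ex2`, `ex`); `cPr` similarly (`pair`); `CLin`: clear; `CDec`: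
`dec_lt`, `YCl.init` (`dec_inj` not needed), `dec_spec`; `CNum`: `omega ⊆ Y`, `Y` consists of
ordinals; `CMem`: `mem_hF`, `YCl.low`, and for the operations `pair, op5, op6, ord1`;
`COrd`: `ord1 .. ord4`; `CWf`: ordinals are well-founded. `rk c m = otp Y (e m)`: `rk_uniq`, `otp_eq`.
-/

universe u

namespace Pool.Agent.ZFIter.NPA

open Pool.Agent.H78.ZF Pool.Agent.ZFIter

variable {M : Type u} [ZFM M] {ι : Type}

/-- the number of an element of the range of `e` -/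
private noncomputable def nb (e x : M) : M := iota (fun m => m ∈ (omega : M) ∧ ap e m = x)

private instance instDFnb (e x : (ι → M) → M) [DF e] [DF x] : DF (fun v => nb (e v) (x v)) := by
  unfold nb; infer_instance

private def Gd (A e d : M) : Prop :=
  (∀ w, w ∈ (omega : M) → hF A (ap e w) ∈ hF A (ap e d) → ∃ k, k ∈ (omega : M) ∧ hF A (ap e w) = k) ∧
  ∀ w, w ∈ (omega : M) → ap e w ∈ ap e d → ¬ hF A (ap e w) = hF A (ap e d)

private instance instDRGd (A e d : (ι → M) → M) [DF A] [DF e] [DF d] :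
    DR (fun v => Gd (A v) (e v) (d v)) := by
  unfold Gd; infer_instance

private def Nd (A e n d : M) : Prop :=
  ∃ w, w ∈ (omega : M) ∧ hF A (ap e w) ∈ hF A (ap e d) ∧ hF A (ap e w) = n

private instance instDRNd (A e n d : (ι → M) → M) [DF A] [DF e] [DF n] [DF d] :
    DR (fun v => Nd (A v) (e v) (n v) (d v)) := by
  unfold Nd; infer_instance

private noncomputable def bqv (A e d k i : M) : M :=
  iota (fun v => (i = emp ∧ v = k) ∨ ∃ n, n ∈ (omega : M) ∧ i = succ n ∧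
    ((Nd A e n d ∧ v = emp) ∨ (¬ Nd A e n d ∧ v = num 1)))

private instance instDFbqv (A e d k i : (ι → M) → M) [DF A] [DF e] [DF d] [DF k] [DF i] :
    DF (fun v => bqv (A v) (e v) (d v) (k v) (i v)) := by
  unfold bqv; infer_instance

private noncomputable def bq (A e d k : M) : M := mkf omega omega (fun i => bqv A e d k i)

private instance instDFbq (A e d k : (ι → M) → M) [DF A] [DF e] [DF d] [DF k] :
    DF (fun v => bq (A v) (e v) (d v) (k v)) := by
  unfold bq; infer_instance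

private noncomputable def Qv (A e q : M) : M :=
  iota (fun z => ∃ d, d ∈ (omega : M) ∧ ∃ k, k ∈ (omega : M) ∧ ∃ n, n ∈ (omega : M) ∧
    q = pr (pr d k) n ∧ z = sq (bq A e d k) n)

private instance instDFQv (A e q : (ι → M) → M) [DF A] [DF e] [DF q] :
    DF (fun v => Qv (A v) (e v) (q v)) := by
  unfold Qv; infer_instance

private theorem bqv_emp (A e d k : M) : bqv A e d k emp = k := by
  unfold bqv
  refine iota_eq (Or.inl ⟨rfl, rfl⟩) ?_
  rintro x (h | ⟨n, -, h, -⟩)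
  · exact h.2
  · exact absurd h.symm (succ_ne_emp n)

private theorem bqv_succ_pos {A e d k n : M} (hn : n ∈ (omega : M)) (h : Nd A e n d) :
    bqv A e d k (succ n) = emp := by
  unfold bqv
  refine iota_eq (Or.inr ⟨n, hn, rfl, Or.inl ⟨h, rfl⟩⟩) ?_
  rintro x (h' | ⟨m, hm, e', h'⟩)
  · exact absurd h'.1 (succ_ne_emp n)
  · have := succ_inj hn hm e'
    subst this
    rcases h' with h' | h'
    · exact h'.2
    · exact absurd h h'.1

private theorem bqv_succ_neg {A e d k n : M} (hn : n ∈ (omega : M)) (h : ¬ Nd A e n d) :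
    bqv A e d k (succ n) = num 1 := by
  unfold bqv
  refine iota_eq (Or.inr ⟨n, hn, rfl, Or.inr ⟨h, rfl⟩⟩) ?_
  rintro x (h' | ⟨m, hm, e', h'⟩)
  · exact absurd h'.1 (succ_ne_emp n)
  · have := succ_inj hn hm e'
    subst this
    rcases h' with h' | h'
    · exact absurd h'.1 h
    · exact h'.2

private theorem bqv_mem {A e d k i : M} (hk : k ∈ (omega : M)) (hi : i ∈ (omega : M)) :
    bqv A e d k i ∈ (omega : M) := by
  rcases eq_emp_or_succ hi with rfl | ⟨n, hn, rfl⟩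
  · rw [bqv_emp]; exact hk
  · by_cases h : Nd A e n d
    · rw [bqv_succ_pos hn h]; exact emp_mem_omega
    · rw [bqv_succ_neg hn h]; exact num_mem 1

private theorem bq_mem {A e d k : M} (hk : k ∈ (omega : M)) : bq A e d k ∈ (RS : M) :=
  mem_RS.2 (mkf_fun fun _ hi => bqv_mem hk hi)

private theorem ap_bq {A e d k i : M} (hk : k ∈ (omega : M)) (hi : i ∈ (omega : M)) :
    ap (bq A e d k) i = bqv A e d k i :=
  ap_mkf (F := fun i => bqv A e d k i) (fun _ hi => bqv_mem hk hi) hi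

private theorem Qv_eq {A e d k n : M} (hd : d ∈ (omega : M)) (hk : k ∈ (omega : M))
    (hn : n ∈ (omega : M)) : Qv A e (pr (pr d k) n) = sq (bq A e d k) n := by
  unfold Qv
  refine iota_eq ⟨d, hd, k, hk, n, hn, rfl, rfl⟩ ?_
  rintro z ⟨d', hd', k', hk', n', hn', h, rfl⟩
  obtain ⟨h1, h2⟩ := pr_inj (pr_mem hd hk) hn (pr_mem hd' hk') hn' h
  obtain ⟨h3, h4⟩ := pr_inj hd hk hd' hk' h1
  subst h2 h3 h4
  rfl

private theorem Qv_mem {A e q : M} (hq : q ∈ (omega : M)) : Qv A e q ∈ (omega : M) := by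
  obtain ⟨a, ha, n, hn, rfl⟩ := pr_surj hq
  obtain ⟨d, hd, k, hk, rfl⟩ := pr_surj ha
  rw [Qv_eq hd hk hn]
  exact sq_mem (bq_mem hk) hn

/-- The facts about the code `c` used in the verification. -/
private structure Tr (A e c : M) : Prop where
  real : c ∈ (RS : M)
  lt : ∀ m, m ∈ (omega : M) → ∀ n, n ∈ (omega : M) → (cLt c m n ↔ ap e m ∈ ap e n)
  el : ∀ m, m ∈ (omega : M) → ∀ n, n ∈ (omega : M) →
    (cE c m n ↔ hF A (ap e m) ∈ hF A (ap e n))
  ar : ∀ m, m ∈ (omega : M) → ∀ n, n ∈ (omega : M) → (cA c m n ↔ opair (ap e m) n ∈ A)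
  oo : ∀ m, m ∈ (omega : M) → ∀ n, n ∈ (omega : M) → (cO c m n ↔ hF A (ap e m) = ap e n)
  cmp : ∀ a, a ∈ (omega : M) → cI c a = dI (ap e a) ∧ cB c a = nb e (dB (ap e a)) ∧
    cC c a = nb e (dC (ap e a)) ∧ cN c a = nb e a
  gg : ∀ d, d ∈ (omega : M) → (cCS c d ↔ Gd A e d)
  qq : ∀ d, d ∈ (omega : M) → ∀ k, k ∈ (omega : M) → ∀ n, n ∈ (omega : M) →
    cQ c d k n = Qv A e (pr (pr d k) n)

set_option linter.unusedSectionVars false

section
variable {A Y e c : M} (hY : YCl A Y) (he : Bij e omega Y) (hc : Tr A e c)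

include he in
private theorem ap_Y {m : M} (hm : m ∈ (omega : M)) : ap e m ∈ Y := he.fun.ap_mem hm

include hY he in
private theorem ap_O {m : M} (hm : m ∈ (omega : M)) : Ord (ap e m) := hY.ords _ (ap_Y he hm)

include he in
private theorem ap_inj' {m n : M} (hm : m ∈ (omega : M)) (hn : n ∈ (omega : M))
    (h : ap e m = ap e n) : m = n := he.inj.ap_inj hm hn h

include he in
private theorem nb_spec {x : M} (hx : x ∈ Y) : nb e x ∈ (omega : M) ∧ ap e (nb e x) = x := by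
  obtain ⟨m, hm, h⟩ := (bij_iff.1 he).2.2 x hx
  have : ∃! m, m ∈ (omega : M) ∧ ap e m = x :=
    ⟨m, ⟨hm, h⟩, fun n hn => ap_inj' he hn.1 hm (hn.2.trans h.symm)⟩
  exact iota_spec this

include he in
private theorem nb_ap {m : M} (hm : m ∈ (omega : M)) : nb e (ap e m) = m :=
  ap_inj' he (nb_spec he (ap_Y he hm)).1 hm (nb_spec he (ap_Y he hm)).2

include hY he hc

private theorem apB {a : M} (ha : a ∈ (omega : M)) :
    cB c a ∈ (omega : M) ∧ ap e (cB c a) = dB (ap e a) := by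
  rw [(hc.cmp a ha).2.1]
  exact nb_spec he (hY.comp _ (ap_Y he ha)).1

private theorem apC {a : M} (ha : a ∈ (omega : M)) :
    cC c a ∈ (omega : M) ∧ ap e (cC c a) = dC (ap e a) := by
  rw [(hc.cmp a ha).2.2.1]
  exact nb_spec he (hY.comp _ (ap_Y he ha)).2

private theorem apN {a : M} (ha : a ∈ (omega : M)) :
    cN c a ∈ (omega : M) ∧ ap e (cN c a) = a := by
  rw [(hc.cmp a ha).2.2.2]
  exact nb_spec he (hY.om a ha)

private theorem tEq {a b : M} (ha : a ∈ (omega : M)) (hb : b ∈ (omega : M)) :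
    cEq c a b ↔ hF A (ap e a) = hF A (ap e b) := by
  have key : ∀ x y, x ∈ (omega : M) → y ∈ (omega : M) →
      (∀ w, w ∈ (omega : M) → (cE c w x ↔ cE c w y)) → hF A (ap e x) ⊆ hF A (ap e y) := by
    intro x y hx hy h w hw
    by_contra hcon
    obtain ⟨w', hw'Y, h1, h2⟩ := hY.ex _ (ap_Y he hx) _ (ap_Y he hy) ⟨w, hw, hcon⟩
    obtain ⟨hn, hn'⟩ := nb_spec he hw'Y
    rw [← hn'] at h1 h2
    rw [← hc.el _ hn _ hx] at h1
    rw [← hc.el _ hn _ hy] at h2
    exact h2 ((h _ hn).1 h1)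
  constructor
  · intro h
    exact sub_antisymm (key a b ha hb h) (key b a hb ha fun w hw => (h w hw).symm)
  · intro h w hw
    rw [hc.el _ hw _ ha, hc.el _ hw _ hb, h]

private theorem tUp {p a b : M} (hp : p ∈ (omega : M)) (ha : a ∈ (omega : M))
    (hb : b ∈ (omega : M)) :
    cUp c p a b ↔ hF A (ap e p) = upair (hF A (ap e a)) (hF A (ap e b)) := by
  unfold cUp
  constructor
  · intro h
    refine Pool.Agent.H78.ZF.ext fun z => ?_
    rw [mem_upair]
    constructor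
    · intro hz
      by_contra hcon
      push Not at hcon
      obtain ⟨w, hwY, h1, h2, h3⟩ := hY.ex2 _ (ap_Y he hp) _ (ap_Y he ha) _ (ap_Y he hb)
        ⟨z, hz, hcon.1, hcon.2⟩
      obtain ⟨hn, hn'⟩ := nb_spec he hwY
      rw [← hn'] at h1 h2 h3
      rw [← hc.el _ hn _ hp, h _ hn, tEq hY he hc hn ha, tEq hY he hc hn hb] at h1
      rcases h1 with h1 | h1
      · exact h2 h1
      · exact h3 h1
    · rintro (rfl | rfl)
      · rw [← hc.el _ ha _ hp, h _ ha]
        exact Or.inl fun _ _ => Iff.rfl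
      · rw [← hc.el _ hb _ hp, h _ hb]
        exact Or.inr fun _ _ => Iff.rfl
  · intro h w hw
    rw [hc.el _ hw _ hp, tEq hY he hc hw ha, tEq hY he hc hw hb, h, mem_upair]

private theorem tPr {p a b : M} (hp : p ∈ (omega : M)) (ha : a ∈ (omega : M))
    (hb : b ∈ (omega : M)) :
    cPr c p a b ↔ hF A (ap e p) = opair (hF A (ap e a)) (hF A (ap e b)) := by
  unfold cPr
  constructor
  · rintro ⟨u, hu, v, hv, h1, h2, h3⟩
    rw [tUp hY he hc hu ha ha] at h1
    rw [tUp hY he hc hv ha hb] at h2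
    rw [tUp hY he hc hp hu hv] at h3
    rw [h3, h1, h2]
    rfl
  · intro h
    obtain ⟨-, -, -, -, -, -, p', hp', h1, q, hq, h2⟩ := hY.pair _ (ap_Y he hp) _ _ h
    obtain ⟨hn, hn'⟩ := nb_spec he hp'
    obtain ⟨hk, hk'⟩ := nb_spec he hq
    refine ⟨nb e p', hn, nb e q, hk, ?_, ?_, ?_⟩
    · rw [tUp hY he hc hn ha ha, hn']; exact h1
    · rw [tUp hY he hc hk ha hb, hk']; exact h2
    · rw [tUp hY he hc hp hn hk, hn', hk', h, h1, h2]
      rfl

/-- the components of a pair -/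
private theorem tpair {w x y : M} (hw : w ∈ (omega : M)) (h : hF A (ap e w) = opair x y) :
    ∃ u, u ∈ (omega : M) ∧ hF A (ap e u) = x ∧ ∃ v, v ∈ (omega : M) ∧ hF A (ap e v) = y := by
  obtain ⟨u, hu, h1, v, hv, h2, -⟩ := hY.pair _ (ap_Y he hw) _ _ h
  obtain ⟨hn, hn'⟩ := nb_spec he hu
  obtain ⟨hk, hk'⟩ := nb_spec he hv
  exact ⟨nb e u, hn, by rw [hn']; exact h1, nb e v, hk, by rw [hk']; exact h2⟩

private theorem top5 {u v a : M} (hu : u ∈ (omega : M)) (hv : v ∈ (omega : M)) (ha : a ∈ (omega : M))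
    (h : opair (hF A (ap e u)) (hF A (ap e v)) ∈ hF A (dC (ap e a))) :
    ∃ z, z ∈ (omega : M) ∧ cPr c z u v ∧ cE c z (cC c a) := by
  obtain ⟨z, hz, h1⟩ := hY.op5 _ (ap_Y he hu) _ (ap_Y he hv) _ (hY.comp _ (ap_Y he ha)).2 h
  obtain ⟨hn, hn'⟩ := nb_spec he hz
  refine ⟨nb e z, hn, ?_, ?_⟩
  · rw [tPr hY he hc hn hu hv, hn']; exact h1
  · rw [hc.el _ hn _ (apC hY he hc ha).1, hn', (apC hY he hc ha).2, h1]; exact h

private theorem tOp {a w : M} (ha : a ∈ (omega : M)) (hw : w ∈ (omega : M)) :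
    cOp c a w ↔ OpMem A (ap e a) (dI (ap e a)) (hF A (dB (ap e a))) (hF A (dC (ap e a)))
      (hF A (ap e w)) := by
  obtain ⟨hB, hB'⟩ := apB hY he hc ha
  obtain ⟨hC, hC'⟩ := apC hY he hc ha
  have hI := (hc.cmp a ha).1
  have eB : cE c w (cB c a) ↔ hF A (ap e w) ∈ hF A (dB (ap e a)) := by
    rw [hc.el _ hw _ hB, hB']
  have eC : ∀ z, z ∈ (omega : M) → (cE c z (cC c a) ↔ hF A (ap e z) ∈ hF A (dC (ap e a))) := by
    intro z hz
    rw [hc.el _ hz _ hC, hC']
  unfold cOp OpMem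
  rw [hI]
  refine or_congr Iff.rfl (or_congr (and_congr Iff.rfl ?_) (or_congr (and_congr Iff.rfl
    (and_congr eB (not_congr (eC w hw)))) (or_congr (and_congr Iff.rfl (and_congr eB ?_))
    (or_congr (and_congr Iff.rfl (and_congr eB ?_)) (or_congr (and_congr Iff.rfl (and_congr eB ?_))
    (or_congr (and_congr Iff.rfl (and_congr eB ?_)) (or_congr (and_congr Iff.rfl (and_congr eB ?_))
    (or_congr (and_congr Iff.rfl (and_congr eB ?_)) (or_congr (and_congr Iff.rfl (and_congr eB ?_))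
    (and_congr Iff.rfl (and_congr eB ?_)))))))))))
  · rw [tEq hY he hc hw hB, tEq hY he hc hw hC, hB', hC']
  · -- operation 3
    constructor
    · rintro ⟨u, hu, v, hv, h1, h2⟩
      rw [tPr hY he hc hw hu hv] at h1
      rw [hc.el _ hu _ hv] at h2
      exact ⟨_, _, h1, h2⟩
    · rintro ⟨x, y, h1, h2⟩
      obtain ⟨u, hu, rfl, v, hv, rfl⟩ := tpair hY he hc hw h1
      exact ⟨u, hu, v, hv, (tPr hY he hc hw hu hv).2 h1, (hc.el _ hu _ hv).2 h2⟩
  · -- operation 4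
    constructor
    · rintro ⟨u, hu, v, hv, h1, h2⟩
      rw [tPr hY he hc hw hu hv] at h1
      rw [eC v hv] at h2
      exact ⟨_, _, h1, h2⟩
    · rintro ⟨x, y, h1, h2⟩
      obtain ⟨u, hu, rfl, v, hv, rfl⟩ := tpair hY he hc hw h1
      exact ⟨u, hu, v, hv, (tPr hY he hc hw hu hv).2 h1, (eC v hv).2 h2⟩
  · -- operation 5
    constructor
    · rintro ⟨u, hu, v, hv, h1, z, hz, h2, h3⟩
      rw [tPr hY he hc hw hu hv] at h1
      rw [tPr hY he hc hz hv hu] at h2
      rw [eC z hz, h2] at h3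
      exact ⟨_, _, h1, h3⟩
    · rintro ⟨x, y, h1, h2⟩
      obtain ⟨u, hu, rfl, v, hv, rfl⟩ := tpair hY he hc hw h1
      exact ⟨u, hu, v, hv, (tPr hY he hc hw hu hv).2 h1, top5 hY he hc hv hu ha h2⟩
  · -- operation 6
    constructor
    · rintro ⟨v, hv, z, hz, h1, h2⟩
      rw [tPr hY he hc hz hw hv] at h1
      rw [eC z hz, h1] at h2
      exact ⟨_, h2⟩
    · intro h
      obtain ⟨v, hv, z, hz, h1, h2⟩ := hY.op6 _ (ap_Y he hw) _ (hY.comp _ (ap_Y he ha)).2 h
      obtain ⟨hn, hn'⟩ := nb_spec he hv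
      obtain ⟨hk, hk'⟩ := nb_spec he hz
      refine ⟨nb e v, hn, nb e z, hk, ?_, ?_⟩
      · rw [tPr hY he hc hk hw hn, hn', hk']; exact h1
      · rw [eC _ hk, hk']; exact h2
  · -- operation 7
    constructor
    · rintro ⟨s, hs, x, hx, t, ht, y, hy, h1, h2, z, hz, h3, h4⟩
      rw [tPr hY he hc hw hs hx] at h1
      rw [tPr hY he hc hs ht hy] at h2
      rw [tPr hY he hc hz hy hx] at h3
      rw [eC z hz, h3] at h4
      rw [h2] at h1
      exact ⟨_, _, _, h1, h4⟩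
    · rintro ⟨t, y, x, h1, h2⟩
      obtain ⟨s, hs, e1, x', hx', rfl⟩ := tpair hY he hc hw h1
      obtain ⟨t', ht', rfl, y', hy', rfl⟩ := tpair hY he hc hs e1
      refine ⟨s, hs, x', hx', t', ht', y', hy', (tPr hY he hc hw hs hx').2 (by rw [e1]; exact h1),
        (tPr hY he hc hs ht' hy').2 e1, top5 hY he hc hy' hx' ha h2⟩
  · -- operation 8
    constructor
    · rintro ⟨s, hs, x, hx, t, ht, y, hy, h1, h2, z, hz, h3, h4⟩
      rw [tPr hY he hc hw hs hx] at h1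
      rw [tPr hY he hc hs ht hy] at h2
      rw [tPr hY he hc hz ht hx] at h3
      rw [eC z hz, h3] at h4
      rw [h2] at h1
      exact ⟨_, _, _, h1, h4⟩
    · rintro ⟨t, y, x, h1, h2⟩
      obtain ⟨s, hs, e1, x', hx', rfl⟩ := tpair hY he hc hw h1
      obtain ⟨t', ht', rfl, y', hy', rfl⟩ := tpair hY he hc hs e1
      refine ⟨s, hs, x', hx', t', ht', y', hy', (tPr hY he hc hw hs hx').2 (by rw [e1]; exact h1),
        (tPr hY he hc hs ht' hy').2 e1, top5 hY he hc ht' hx' ha h2⟩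
  · -- operation 9
    constructor
    · rintro ⟨d, hd, k, hk, h1, h2, u, hu, v, hv, h3, h4, h5⟩
      rw [tPr hY he hc hw hu hv] at h3
      rw [hc.oo _ hu _ hd] at h4
      rw [hc.oo _ hv _ (apN hY he hc hk).1, (apN hY he hc hk).2] at h5
      rw [hc.lt _ hd _ ha] at h1
      rw [hc.ar _ hd _ hk] at h2
      rw [h4, h5] at h3
      exact ⟨by rw [h3]; exact h2, ap e d, k, h1, hk, h3⟩
    · rintro ⟨h1, δ, k, hδ, hk, h2⟩
      obtain ⟨u, hu, eu, v, hv, ev⟩ := tpair hY he hc hw h2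
      have hδO : Ord δ := (ap_O hY he ha).mem hδ
      have hδY : δ ∈ Y := by
        have := hY.ord1 _ (ap_Y he hu) (by rw [eu]; exact hδO)
        rw [eu] at this
        exact this
      obtain ⟨hn, hn'⟩ := nb_spec he hδY
      refine ⟨nb e δ, hn, k, hk, ?_, ?_, u, hu, v, hv, ?_, ?_, ?_⟩
      · rw [hc.lt _ hn _ ha, hn']; exact hδ
      · rw [hc.ar _ hn _ hk, hn', ← h2]; exact h1
      · rw [tPr hY he hc hw hu hv, eu, ev]; exact h2
      · rw [hc.oo _ hu _ hn, hn']; exact eu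
      · rw [hc.oo _ hv _ (apN hY he hc hk).1, (apN hY he hc hk).2]; exact ev
  · -- operation 10
    constructor
    · rintro ⟨u, hu, h1⟩
      rw [tPr hY he hc hw hu hu] at h1
      exact ⟨_, h1⟩
    · rintro ⟨x, h1⟩
      obtain ⟨u, hu, rfl, -⟩ := tpair hY he hc hw h1
      exact ⟨u, hu, (tPr hY he hc hw hu hu).2 h1⟩

private theorem tTL {i b g i' b' g' : M} (hb : b ∈ (omega : M)) (hg : g ∈ (omega : M))
    (hb' : b' ∈ (omega : M)) (hg' : g' ∈ (omega : M)) :
    cTL c i b g i' b' g' ↔ TLt i (ap e b) (ap e g) i' (ap e b') (ap e g') := by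
  have eq1 : b = b' ↔ ap e b = ap e b' := ⟨fun h => by rw [h], ap_inj' he hb hb'⟩
  have eq2 : g = g' ↔ ap e g = ap e g' := ⟨fun h => by rw [h], ap_inj' he hg hg'⟩
  unfold cTL TLt TL MaxLt
  rw [hc.lt _ hb _ hb', hc.lt _ hb _ hg', hc.lt _ hg _ hb', hc.lt _ hg _ hg', hc.lt _ hb' _ hb,
    hc.lt _ hb' _ hg, hc.lt _ hg' _ hb, hc.lt _ hg' _ hg, eq1, eq2]

private theorem vLin : CLin c := by
  refine ⟨?_, ?_, ?_⟩
  · intro a ha h
    rw [hc.lt _ ha _ ha] at h
    exact not_mem_self _ h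
  · intro a ha b hb d hd h1 h2
    rw [hc.lt _ ha _ hb] at h1
    rw [hc.lt _ hb _ hd] at h2
    rw [hc.lt _ ha _ hd]
    exact (ap_O hY he hd).trans h1 h2
  · intro a ha b hb
    rw [hc.lt _ ha _ hb, hc.lt _ hb _ ha]
    rcases ord_trichotomy (ap_O hY he ha) (ap_O hY he hb) with h | h | h
    · exact Or.inl h
    · exact Or.inr (Or.inl (ap_inj' he ha hb h))
    · exact Or.inr (Or.inr h)

private theorem vDec : CDec c := by
  refine ⟨?_, ?_, ?_⟩
  · intro a ha
    rw [(hc.cmp a ha).1]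
    exact (dec_spec (ap_O hY he ha)).2.1
  · intro a ha b hb h
    obtain ⟨h1, h2⟩ := apB hY he hc ha
    obtain ⟨h3, h4⟩ := apC hY he hc ha
    obtain ⟨h5, h6⟩ := apB hY he hc hb
    obtain ⟨h7, h8⟩ := apC hY he hc hb
    rw [hc.lt _ ha _ hb] at h
    rw [tTL hY he hc h1 h3 h5 h7, h2, h4, h6, h8, (hc.cmp a ha).1, (hc.cmp b hb).1]
    exact dec_lt (ap_O hY he hb) h
  · intro a ha i hi b hb g hg h
    obtain ⟨h1, h2⟩ := apB hY he hc ha
    obtain ⟨h3, h4⟩ := apC hY he hc ha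
    rw [tTL hY he hc hb hg h1 h3, h2, h4, (hc.cmp a ha).1] at h
    obtain ⟨d, hd, e1, e2, e3⟩ := hY.init _ (ap_Y he ha) i hi _ (ap_Y he hb) _ (ap_Y he hg) h
    obtain ⟨hn, hn'⟩ := nb_spec he hd
    refine ⟨nb e d, hn, ?_, ?_, ?_, ?_⟩
    · rw [hc.lt _ hn _ ha, hn', ← dec_lt_iff (hY.ords d hd) (ap_O hY he ha), e1, e2, e3]
      exact h
    · rw [(hc.cmp _ hn).1, hn', e1]
    · rw [(hc.cmp _ hn).2.1, hn', e2, nb_ap he hb]
    · rw [(hc.cmp _ hn).2.2.1, hn', e3, nb_ap he hg]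

private theorem vNum : CNum c := by
  refine ⟨?_, ?_⟩
  · intro a ha h
    obtain ⟨h1, h2⟩ := apN hY he hc (emp_mem_omega : (emp : M) ∈ (omega : M))
    rw [hc.lt _ ha _ h1, h2] at h
    exact not_mem_emp _ h
  · intro n hn
    obtain ⟨h1, h2⟩ := apN hY he hc hn
    obtain ⟨h3, h4⟩ := apN hY he hc (succ_mem_omega hn)
    refine ⟨?_, ?_⟩
    · rw [hc.lt _ h1 _ h3, h2, h4]
      simp
    · rintro a ha ⟨h5, h6⟩
      rw [hc.lt _ h1 _ ha, h2] at h5
      rw [hc.lt _ ha _ h3, h4, mem_succ] at h6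
      rcases h6 with h6 | h6
      · exact (ap_O hY he ha).asymm h5 h6
      · rw [h6] at h5
        exact not_mem_self _ h5

private theorem vMem : CMem c := by
  intro a ha w hw
  rw [hc.el _ hw _ ha, mem_hF (ap_O hY he ha), tOp hY he hc ha hw]
  constructor
  · rintro ⟨h1, h2⟩
    have h3 : hF A (ap e w) ∈ hF A (ap e a) := (mem_hF (ap_O hY he ha)).2 ⟨h1, h2⟩
    obtain ⟨w', hw', h4, h5⟩ := hY.low _ (ap_Y he hw) _ (ap_Y he ha) h3
    obtain ⟨hn, hn'⟩ := nb_spec he hw'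
    refine ⟨⟨nb e w', hn, ?_, ?_⟩, h2⟩
    · rw [hc.lt _ hn _ ha, hn']; exact h4
    · rw [tEq hY he hc hn hw, hn']; exact h5
  · rintro ⟨⟨w', hw', h1, h3⟩, h2⟩
    rw [hc.lt _ hw' _ ha] at h1
    rw [tEq hY he hc hw' hw] at h3
    exact ⟨⟨_, h1, h3.symm⟩, h2⟩

private theorem tON {w k : M} (hw : w ∈ (omega : M)) (hk : k ∈ (omega : M)) :
    cO c w (cN c k) ↔ hF A (ap e w) = k := by
  rw [hc.oo _ hw _ (apN hY he hc hk).1, (apN hY he hc hk).2]

private theorem vStg : CStg c := by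
  intro d hd
  rw [hc.gg _ hd]
  unfold Gd
  refine and_congr ?_ ?_
  · refine forall_congr' fun w => ?_
    refine imp_congr_right fun hw => ?_
    rw [hc.el _ hw _ hd]
    refine imp_congr_right fun _ => ?_
    refine exists_congr fun k => ?_
    refine and_congr_right fun hk => ?_
    rw [tON hY he hc hw hk]
  · refine forall_congr' fun w => ?_
    refine imp_congr_right fun hw => ?_
    rw [hc.lt _ hw _ hd, tEq hY he hc hw hd]

private theorem vOrd : COrd c := by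
  intro u hu d hd
  rw [hc.oo _ hu _ hd]
  constructor
  · intro h
    refine ⟨?_, ?_⟩
    · intro w hw hwu
      rw [hc.el _ hw _ hu, h] at hwu
      have ho : Ord (hF A (ap e w)) := (ap_O hY he hd).mem hwu
      obtain ⟨hn, hn'⟩ := nb_spec he (hY.ord1 _ (ap_Y he hw) ho)
      refine ⟨_, hn, ?_, ?_⟩
      · rw [hc.lt _ hn _ hd, hn']; exact hwu
      · rw [hc.oo _ hw _ hn, hn']
    · intro e' he' h1
      rw [hc.lt _ he' _ hd, ← h] at h1
      obtain ⟨w, hw, h2⟩ := hY.ord2 _ (ap_Y he hu) _ (ap_Y he he') h1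
      obtain ⟨hn, hn'⟩ := nb_spec he hw
      refine ⟨nb e w, hn, ?_, ?_⟩
      · rw [hc.el _ hn _ hu, hn', h2]; exact h1
      · rw [hc.oo _ hn _ he', hn']; exact h2
  · rintro ⟨h1, h2⟩
    apply sub_antisymm
    · intro x hx
      by_contra hcon
      obtain ⟨w, hw, h3, h4⟩ := hY.ord3 _ (ap_Y he hu) _ (ap_Y he hd) ⟨x, hx, hcon⟩
      obtain ⟨hn, hn'⟩ := nb_spec he hw
      obtain ⟨e', he', h5, h6⟩ := h1 _ hn (by rw [hc.el _ hn _ hu, hn']; exact h3)
      rw [hc.oo _ hn _ he', hn'] at h6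
      rw [hc.lt _ he' _ hd, ← h6] at h5
      exact h4 h5
    · intro x hx
      by_contra hcon
      obtain ⟨y, hy, h3, h4⟩ := hY.ord4 _ (ap_Y he hu) _ (ap_Y he hd) ⟨x, hx, hcon⟩
      obtain ⟨hn, hn'⟩ := nb_spec he hy
      obtain ⟨w, hw, h5, h6⟩ := h2 _ hn (by rw [hc.lt _ hn _ hd, hn']; exact h3)
      rw [hc.oo _ hw _ hn, hn'] at h6
      rw [hc.el _ hw _ hu, h6] at h5
      exact h4 h5

private theorem tNE {n d : M} (hn : n ∈ (omega : M)) (hd : d ∈ (omega : M)) :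
    cNE c n d ↔ Nd A e n d := by
  unfold cNE Nd
  refine exists_congr fun w => ?_
  refine and_congr_right fun hw => ?_
  rw [hc.el _ hw _ hd, tON hY he hc hw hn]

private theorem vSeq : CSeq c := by
  intro d hd k hk
  have hs : ∀ n, n ∈ (omega : M) → cQ c d k n = sq (bq A e d k) n := by
    intro n hn
    rw [hc.qq d hd k hk n hn, Qv_eq hd hk hn]
  refine ⟨?_, ?_, ?_⟩
  · rw [hs _ emp_mem_omega, sq_emp]
  · have h1 : (num 1 : M) = succ emp := rfl
    rw [h1, hs _ (succ_mem_omega emp_mem_omega), sq_succ _ emp_mem_omega, sq_emp,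
      ap_bq hk emp_mem_omega, bqv_emp]
  · intro n hn
    have hn1 := succ_mem_omega hn
    rw [hs _ (succ_mem_omega hn1), hs _ hn1, sq_succ _ hn1, ap_bq hk hn1, tNE hY he hc hn hd]
    refine ⟨fun h => ?_, fun h => ?_⟩
    · rw [bqv_succ_pos hn h]
    · rw [bqv_succ_neg hn h]

private theorem vWf : CWf c := by
  intro v hv
  by_contra hcon
  push Not at hcon
  obtain ⟨y, hy, h⟩ := foundation (img omega (fun n => ap e (ap v n)))
    (ne_emp_iff.2 ⟨_, by rw [mem_img]; exact ⟨emp, emp_mem_omega, rfl⟩⟩)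
  rw [mem_img] at hy
  obtain ⟨n, hn, rfl⟩ := hy
  have h1 := hcon n hn
  rw [hc.lt _ (RS_ap hv (succ_mem_omega hn)) _ (RS_ap hv hn)] at h1
  refine h _ h1 ?_
  rw [mem_img]
  exact ⟨succ n, succ_mem_omega hn, rfl⟩

private theorem vCode : Code c :=
  ⟨⟨hc.real, vLin hY he hc, vDec hY he hc, vNum hY he hc, vMem hY he hc, vOrd hY he hc,
    vStg hY he hc, vSeq hY he hc⟩, vWf hY he hc⟩

private theorem vRk : ∀ m, m ∈ (omega : M) → rk c m = otp Y (ap e m) := by
  apply rk_uniq (vCode hY he hc) (fun m => otp Y (ap e m))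
  intro m hm γ
  rw [mem_otp]
  constructor
  · rintro ⟨β, hβ, h1, rfl⟩
    obtain ⟨hn, hn'⟩ := nb_spec he hβ
    refine ⟨nb e β, hn, ?_, ?_⟩
    · rw [hc.lt _ hn _ hm, hn']; exact h1
    · rw [hn']
  · rintro ⟨n, hn, h1, rfl⟩
    rw [hc.lt _ hn _ hm] at h1
    exact ⟨_, ap_Y he hn, h1, rfl⟩

end

theorem exists_code {A Y e s u j t : M} (hY : YCl A Y) (he : Bij e omega Y)
    (hs : s ∈ (omega : M)) (hu : u ∈ (omega : M)) (hj : j ∈ (omega : M)) (ht : t ∈ (omega : M)) :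
    ∃ c, Code c ∧ (∀ m, m ∈ (omega : M) → rk c m = otp Y (ap e m)) ∧
      (∀ m, m ∈ (omega : M) → ∀ k, k ∈ (omega : M) → (cA c m k ↔ opair (ap e m) k ∈ A)) ∧
      (∀ m, m ∈ (omega : M) → ∀ n, n ∈ (omega : M) → (cLt c m n ↔ ap e m ∈ ap e n)) ∧
      (∀ m, m ∈ (omega : M) → ∀ n, n ∈ (omega : M) →
        (cE c m n ↔ hF A (ap e m) ∈ hF A (ap e n))) ∧
      (∀ m, m ∈ (omega : M) → ∀ n, n ∈ (omega : M) → (cO c m n ↔ hF A (ap e m) = ap e n)) ∧
      cS c = s ∧ cU c = u ∧ cJ c = j ∧ cT c = t := by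
  have hap : ∀ a, a ∈ (omega : M) → ap e a ∈ Y := fun a ha => he.fun.ap_mem ha
  obtain ⟨c, h0, h1, h2, h3, h4, h5, h6, h7, h8, h9, h10, h11⟩ := exists_mkc
    (fun m n => ap e m ∈ ap e n) (fun m n => hF A (ap e m) ∈ hF A (ap e n))
    (fun m k => opair (ap e m) k ∈ A) (fun m n => hF A (ap e m) = ap e n)
    (fun a => dI (ap e a)) (fun a => nb e (dB (ap e a))) (fun a => nb e (dC (ap e a)))
    (fun a => nb e a) (fun d => Gd A e d) (fun q => Qv A e q)
    (fun a ha => by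
      obtain ⟨j, -, hj⟩ := mem_num.1 (dec_spec (hY.ords _ (hap a ha))).2.1
      rw [hj]; exact num_mem j)
    (fun a ha => (nb_spec he (hY.comp _ (hap a ha)).1).1)
    (fun a ha => (nb_spec he (hY.comp _ (hap a ha)).2).1)
    (fun a ha => (nb_spec he (hY.om a ha)).1)
    (fun a ha => Qv_mem ha) hs hu hj ht
  have hc : Tr A e c := ⟨h0, h1, h2, h3, h4, h5, h6, h7⟩
  exact ⟨c, vCode hY he hc, vRk hY he hc, h3, h1, h2, h4, h8, h9, h10, h11⟩

end Pool.Agent.ZFIter.NPA
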