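import Pool.Agent.NPA.BHier

/-!
# NPA/COrdY: infinite ordinals satisfy the closure conditions

All witnesses have smaller indices: elements of `hF A a` are `hF A w`, `w < a` (`mem_hF`), `dB a, dC a ≤ a`
(`dec_bound`), `dec_init`, the components of a pair `hF A w` are elements of elements of it,
`ord_hF_le` for `ord1` (`hF A w ⊆ w`).
-/

universe u

namespace Pool.Agent.ZFIter.NPA

open Pool.Agent.H78.ZF Pool.Agent.ZFIter

variable {M : Type u} [ZFM M] {ι : Type}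

private theorem sub_mem {θ a b : M} (hθ : Ord θ) (ha : Ord a) (hb : b ∈ θ) (h : a ⊆ b) : a ∈ θ := by
  rcases (ord_sub_iff ha (hθ.mem hb)).1 h with h1 | h1
  · exact hθ.trans h1 hb
  · exact h1 ▸ hb

private theorem idx {A θ a x : M} (hθ : Ord θ) (ha : a ∈ θ) (h : x ∈ hF A a) :
    ∃ b, b ∈ θ ∧ b ∈ a ∧ hF A b = x := by
  obtain ⟨⟨b, hb, hx⟩, -⟩ := (mem_hF (hθ.mem ha)).1 h
  exact ⟨b, hθ.trans hb ha, hb, hx.symm⟩

private theorem idx_pair {A θ w x y : M} (hθ : Ord θ) (hw : w ∈ θ) (h : hF A w = opair x y) :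
    ∃ u, u ∈ θ ∧ hF A u = x ∧ ∃ v, v ∈ θ ∧ hF A v = y ∧
    ∃ p, p ∈ θ ∧ hF A p = sing x ∧ ∃ q, q ∈ θ ∧ hF A q = upair x y := by
  have h1 : sing x ∈ hF A w := by rw [h]; unfold opair; rw [mem_upair]; exact Or.inl rfl
  have h2 : upair x y ∈ hF A w := by rw [h]; unfold opair; rw [mem_upair]; exact Or.inr rfl
  obtain ⟨p, hp, -, hpx⟩ := idx hθ hw h1
  obtain ⟨q, hq, -, hqx⟩ := idx hθ hw h2
  have h3 : x ∈ hF A p := by rw [hpx, mem_sing]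
  have h4 : y ∈ hF A q := by rw [hqx, mem_upair]; exact Or.inr rfl
  obtain ⟨u, hu, -, hux⟩ := idx hθ hp h3
  obtain ⟨v, hv, -, hvy⟩ := idx hθ hq h4
  exact ⟨u, hu, hux, v, hv, hvy, p, hp, hpx, q, hq, hqx⟩

theorem ord_YCl (A : M) {θ : M} (hθ : Ord θ) (h : omega ⊆ θ) : YCl A θ where
  ords := fun a ha => hθ.mem ha
  om := h
  comp := fun a ha => by
    have h1 := (dec_spec (hθ.mem ha)).2
    have h2 := dec_bound (hθ.mem ha)
    exact ⟨sub_mem hθ h1.2.1 ha h2.1, sub_mem hθ h1.2.2 ha h2.2⟩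
  init := fun a ha i hi b hb c hc hlt => by
    obtain ⟨β, hβ, h1⟩ := dec_init (hθ.mem ha) ⟨hi, hθ.mem hb, hθ.mem hc⟩ hlt
    exact ⟨β, hθ.trans hβ ha, h1⟩
  ex := fun a ha b hb => by
    rintro ⟨w, hw, hw'⟩
    obtain ⟨v, hv, -, hvw⟩ := idx hθ ha hw
    exact ⟨v, hv, hvw ▸ hw, hvw ▸ hw'⟩
  ex2 := fun p hp a _ b _ => by
    rintro ⟨w, hw, h1, h2⟩
    obtain ⟨v, hv, -, hvw⟩ := idx hθ hp hw
    exact ⟨v, hv, hvw ▸ hw, hvw ▸ h1, hvw ▸ h2⟩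
  low := fun w _ a ha hwa => by
    obtain ⟨v, hv, hva, hvw⟩ := idx hθ ha hwa
    exact ⟨v, hv, hva, hvw⟩
  pair := fun w hw x y hxy => idx_pair hθ hw hxy
  op6 := fun w _ c hc => by
    rintro ⟨v, hv⟩
    obtain ⟨z, hz, -, hzw⟩ := idx hθ hc hv
    obtain ⟨-, -, -, v', hv', hvv, -⟩ := idx_pair hθ hz hzw
    exact ⟨v', hv', z, hz, by rw [hvv]; exact hzw, by rw [hzw]; exact hv⟩
  op5 := fun u _ v _ c hc huv => by
    obtain ⟨z, hz, -, hzw⟩ := idx hθ hc huv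
    exact ⟨z, hz, hzw⟩
  ord1 := fun w hw ho => sub_mem hθ ho hw (ord_hF_le (hθ.mem hw) ho)
  ord2 := fun u hu d _ hdu => by
    obtain ⟨w, hw, -, hwd⟩ := idx hθ hu hdu
    exact ⟨w, hw, hwd⟩
  ord3 := fun u hu d _ => by
    rintro ⟨x, hx, hxd⟩
    obtain ⟨w, hw, -, hwx⟩ := idx hθ hu hx
    exact ⟨w, hw, hwx ▸ hx, hwx ▸ hxd⟩
  ord4 := fun u _ d hd => by
    rintro ⟨e, he, heu⟩
    exact ⟨e, hθ.trans he hd, he, heu⟩

end Pool.Agent.ZFIter.NPA
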