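import Pool.Agent.NPA.CRig
import Pool.Agent.NPA.ACtb

/-!
# NPA/CSpec: the condition coded by a code, and conversely

`isCond_spec`: `cTh c = rk c (cT c)`; all elements other than the top are below the top, so the ranks
are exactly the elements of `succ (cTh c)`; `omega ⊆ cTh c` since the order is infinite
(`rk_cN`; `cTh c` is an infinite ordinal: `n < rk (cN (n+1)) ≤ cTh c`). `code_CS`. `cPm c ⊆ cSet c`
by definition, finite: image of the entries of a finite sequence.
-/

universe u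

namespace Pool.Agent.ZFIter.NPA

open Pool.Agent.H78.ZF Pool.Agent.ZFIter

variable {M : Type u} [ZFM M] {ι : Type}

private theorem cT_mem {c : M} (hc : Code c) : cT c ∈ (omega : M) := by
  unfold cT
  exact RS_ap' hc.1.real _

/-- the elements of the order of a condition -/
theorem rk_range {c γ : M} (h : IsCond c) :
    (∃ m, m ∈ (omega : M) ∧ rk c m = γ) ↔ γ ∈ succ (cTh c) := by
  obtain ⟨hc, -, hT, -⟩ := h
  have hTm := cT_mem hc
  rw [mem_succ]
  constructor
  · rintro ⟨m, hm, rfl⟩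
    rcases hT m hm with h1 | h1
    · right; rw [h1]; rfl
    · left; exact (rk_lt_iff hc hm hTm).2 h1
  · rintro (h1 | h1)
    · obtain ⟨n, hn, -, e⟩ := rk_surj hc hTm h1
      exact ⟨n, hn, e⟩
    · exact ⟨cT c, hTm, h1.symm⟩

theorem mem_cPm {c z : M} (h : IsCond c) : z ∈ cPm c ↔
    ∃ m, m ∈ (omega : M) ∧ ∃ k, k ∈ (omega : M) ∧ z = opair (rk c m) k ∧ ∃ j, Ent (cU c) j (pr m k) := by
  obtain ⟨hc, -, -, -, -, -, hU⟩ := h
  unfold cPm
  rw [mem_sep]
  constructor
  · exact fun h => h.2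
  · intro h
    refine ⟨?_, h⟩
    obtain ⟨m, hm, k, hk, rfl, j, hj⟩ := h
    obtain ⟨m', hm', k', hk', e, hA⟩ := hU j _ hj
    obtain ⟨rfl, rfl⟩ := pr_inj hm hk hm' hk' e
    exact (code_A hc hm hk).2 hA

private theorem fin_cPm {c : M} : FinM (cPm c) := by
  by_cases hex : ∃ j v, Ent (cU c) j v
  · obtain ⟨j0, v0, x, hx, n, hn, hs, -, -⟩ := hex
    have hfin : FinM (sep (cSet c) (fun z => ∃ j, j ∈ n ∧ ∃ m, m ∈ (omega : M) ∧
        ∃ k, k ∈ (omega : M) ∧ z = opair (rk c m) k ∧ ap x j = pr m k)) := by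
      apply fin_bunion (cSet c) (fun z j => ∃ m, m ∈ (omega : M) ∧
        ∃ k, k ∈ (omega : M) ∧ z = opair (rk c m) k ∧ ap x j = pr m k) (nat_fin hn)
      intro j _
      by_cases h2 : ∃ z, ∃ m, m ∈ (omega : M) ∧
        ∃ k, k ∈ (omega : M) ∧ z = opair (rk c m) k ∧ ap x j = pr m k
      · obtain ⟨z0, m0, hm0, k0, hk0, e0, e0'⟩ := h2
        apply fin_sub (fin_sing z0)
        intro z hz
        rw [mem_sep] at hz
        obtain ⟨-, m, hm, k, hk, e, e'⟩ := hz
        obtain ⟨rfl, rfl⟩ := pr_inj hm0 hk0 hm hk (e0'.symm.trans e')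
        rw [mem_sing, e, e0]
      · apply fin_sub fin_emp
        intro z hz
        rw [mem_sep] at hz
        exact absurd ⟨z, hz.2⟩ h2
    apply fin_sub hfin
    intro z hz
    unfold cPm at hz
    rw [mem_sep] at hz
    obtain ⟨hz1, m, hm, k, hk, e, j, x', hx', n', hn', hs', hj, hv⟩ := hz
    rw [mem_sep]
    refine ⟨hz1, j, ?_, m, hm, k, hk, e, ?_⟩
    · obtain ⟨h1, -⟩ := sq_inj hx' hx hn' hn (hs'.symm.trans hs)
      rw [← h1]; exact hj
    · obtain ⟨-, h2⟩ := sq_inj hx' hx hn' hn (hs'.symm.trans hs)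
      rw [← h2 j hj]; exact hv
  · apply fin_sub fin_emp
    intro z hz
    unfold cPm at hz
    rw [mem_sep] at hz
    obtain ⟨-, m, hm, k, hk, -, j, hj⟩ := hz
    exact absurd ⟨j, _, hj⟩ hex

theorem isCond_spec {c : M} (h : IsCond c) :
    Cond0 (cSet c) (cTh c) ∧ Bin (cS c) ∧ Promise (cSet c) (cPm c) := by
  obtain ⟨hc, hSup, hT, hTS, hTA, hB, -⟩ := h
  have hTm := cT_mem hc
  refine ⟨⟨rk_ord hc hTm, ?_, ctb_rk hc hTm, ?_, (code_CS hc hTm).1 hTS, ?_⟩, hB, fin_cPm, ?_⟩
  · intro n hn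
    have h1 := rk_cN hc hn
    have h2 := rk_cN hc (succ_mem_omega hn)
    rcases hT _ (cN_mem hc hn) with h3 | h3
    · -- then `n = cTh c`, impossible
      exfalso
      rcases hT _ (cN_mem hc (succ_mem_omega hn)) with h4 | h4
      · rw [h3] at h1
        rw [h4] at h2
        have h5 : n = succ n := h1.symm.trans h2
        have h6 : n ∈ succ n := by simp
        rw [← h5] at h6
        exact not_mem_self n h6
      · have h5 := (rk_lt_iff hc (cN_mem hc (succ_mem_omega hn)) hTm).2 h4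
        rw [h2, ← h3, h1] at h5
        have h6 : n ∈ succ n := by simp
        exact (ord_nat hn).asymm h5 h6
    · have h5 := (rk_lt_iff hc (cN_mem hc hn) hTm).2 h3
      rw [h1] at h5
      exact h5
  · intro z hz
    rw [mem_cSet hc] at hz
    obtain ⟨m, hm, k, hk, rfl, hA⟩ := hz
    rw [opair_mem_prod]
    refine ⟨?_, hk⟩
    rcases hT m hm with h3 | h3
    · rw [h3] at hA
      exact absurd hA (hTA k hk)
    · exact (rk_lt_iff hc hm hTm).2 h3
  · intro δ k hδ
    rw [mem_cSet hc] at hδ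
    obtain ⟨m, hm, k', hk', e, hA⟩ := hδ
    obtain ⟨rfl, rfl⟩ := opair_inj e
    exact (code_CS hc hm).1 (hSup m hm k hk' hA)
  · intro z hz
    unfold cPm at hz
    rw [mem_sep] at hz
    exact hz.1

end Pool.Agent.ZFIter.NPA
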