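import Pool.Agent.NPA.CEx
import Pool.Agent.NPA.COrdY
import Pool.Agent.NPA.CSpec

/-!
# NPA/CMake: every condition has a code

Let `Y = succ θ` (`ord_YCl`), `e` a bijection (`ctb_bij`), `t` the number of `θ`, `j` the number of `ρ`,
`u` the code of a finite sequence enumerating the numbers `pr m k` with `(e m, k) ∈ F` (`F` is finite:
bijection with a natural number; extend by `0` to a real), `s` the stem. `exists_code`; `otp` is the
identity on `succ θ` (`otp_id`), so `rk c m = e m`. Then `cSet c = A` (`mem_cSet`), `cTh c = θ`,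
`cPm c = F`, `CSup`, `CTop` by `code_CS` and `Cond0`.
-/

universe u

namespace Pool.Agent.ZFIter.NPA

open Pool.Agent.H78.ZF Pool.Agent.ZFIter

variable {M : Type u} [ZFM M] {ι : Type}

/-- the entries of a given code -/
private theorem ent_iff {x n j v : M} (hx : x ∈ (RS : M)) (hn : n ∈ (omega : M)) :
    Ent (sq x n) j v ↔ j ∈ n ∧ ap x j = v := by
  constructor
  · rintro ⟨x', hx', n', hn', h1, hj, hv⟩
    obtain ⟨h2, h3⟩ := sq_inj hx hx' hn hn' h1
    subst h2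
    exact ⟨hj, (h3 j hj).trans hv⟩
  · rintro ⟨hj, hv⟩
    exact ⟨x, hx, n, hn, rfl, hj, hv⟩

/-- a finite subset of `Y x omega`, `Y` enumerated by `e`, is enumerated by a finite sequence code -/
private theorem exists_enum {e Y F : M} (he : Bij e omega Y) (hF : FinM F)
    (hFY : ∀ z, z ∈ F → ∃ δ k, δ ∈ Y ∧ k ∈ (omega : M) ∧ z = opair δ k) :
    ∃ u, u ∈ (omega : M) ∧
      (∀ m k, m ∈ (omega : M) → k ∈ (omega : M) →
        ((∃ j, Ent u j (pr m k)) ↔ opair (ap e m) k ∈ F)) ∧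
      ∀ j v, Ent u j v → ∃ m, m ∈ (omega : M) ∧ ∃ k, k ∈ (omega : M) ∧ v = pr m k := by
  obtain ⟨n, hn, f, hf⟩ := hF
  obtain ⟨hfe, hinj, hsurj⟩ := bij_iff.1 he
  obtain ⟨hff, hfinj, hfsurj⟩ := bij_iff.1 hf
  set X : M → M := fun i => iota (fun v => ∃ m, m ∈ (omega : M) ∧ ∃ k, k ∈ (omega : M) ∧
    v = pr m k ∧ opair (opair (ap e m) k) i ∈ f) with hX
  have hXF : F1 X := by rw [hX]; infer_instance
  have hXmem : ∀ i, i ∈ (omega : M) → X i ∈ (omega : M) := by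
    intro i _
    by_cases hu : ∃! v, ∃ m, m ∈ (omega : M) ∧ ∃ k, k ∈ (omega : M) ∧
        v = pr m k ∧ opair (opair (ap e m) k) i ∈ f
    · obtain ⟨m, hm, k, hk, hv, _⟩ := iota_spec hu
      show iota _ ∈ _
      rw [hv]
      exact pr_mem hm hk
    · show iota _ ∈ _
      rw [iota_neg hu]
      exact emp_mem_omega
  have hXval : ∀ m k i, m ∈ (omega : M) → k ∈ (omega : M) → opair (opair (ap e m) k) i ∈ f →
      X i = pr m k := by
    intro m k i hm hk hi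
    apply iota_eq
    · exact ⟨m, hm, k, hk, rfl, hi⟩
    · rintro v ⟨m', hm', k', hk', rfl, hi'⟩
      have h1 := hf.1.2 _ _ _ hi' hi
      obtain ⟨h2, h3⟩ := opair_inj h1
      rw [hinj m' m hm' hm h2, h3]
  have hx : mkf omega omega X ∈ (RS : M) := mem_RS.2 (mkf_fun hXmem)
  have hap : ∀ i, i ∈ (omega : M) → ap (mkf omega omega X) i = X i := fun i hi => ap_mkf hXmem hi
  have hval : ∀ i, i ∈ n → ∃ m, m ∈ (omega : M) ∧ ∃ k, k ∈ (omega : M) ∧
      opair (ap e m) k ∈ F ∧ opair (opair (ap e m) k) i ∈ f ∧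
      ap (mkf omega omega X) i = pr m k := by
    intro i hi
    obtain ⟨z, hz, hzi⟩ := hfsurj i hi
    obtain ⟨δ, k, hδ, hk, rfl⟩ := hFY z hz
    obtain ⟨m, hm, rfl⟩ := hsurj δ hδ
    have h1 : opair (opair (ap e m) k) i ∈ f := by
      rw [hff.opair_iff]; exact ⟨hz, hzi.symm⟩
    exact ⟨m, hm, k, hk, hz, h1, by
      rw [hap i (mem_omega_of_mem hi hn)]; exact hXval m k i hm hk h1⟩
  refine ⟨sq (mkf omega omega X) n, sq_mem hx hn, ?_, ?_⟩
  · intro m k hm hk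
    constructor
    · rintro ⟨j, hj⟩
      rw [ent_iff hx hn] at hj
      obtain ⟨m', hm', k', hk', h1, _, h2⟩ := hval j hj.1
      rw [hj.2] at h2
      obtain ⟨h3, h4⟩ := pr_inj hm hk hm' hk' h2
      rw [h3, h4]
      exact h1
    · intro h
      have h1 := hff.opair_ap h
      refine ⟨ap f (opair (ap e m) k), (ent_iff hx hn).2 ⟨hff.ap_mem h, ?_⟩⟩
      rw [hap _ (mem_omega_of_mem (hff.ap_mem h) hn)]
      exact hXval m k _ hm hk h1
  · intro j v hj
    rw [ent_iff hx hn] at hj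
    obtain ⟨m, hm, k, hk, _, _, h2⟩ := hval j hj.1
    exact ⟨m, hm, k, hk, hj.2.symm.trans h2⟩

theorem exists_cond {A θ s F ρ : M} (h : Cond0 A θ) (hs : Bin s) (hF : Promise A F) (hρ : ρ ∈ succ θ) :
    ∃ c, IsCond c ∧ cSet c = A ∧ cTh c = θ ∧ cS c = s ∧ cPm c = F ∧ rk c (cJ c) = ρ := by
  obtain ⟨hθ, hω, hctb, hA, hCS, hsup⟩ := h
  have hωY : omega ⊆ succ θ := fun z hz => by rw [mem_succ]; exact Or.inl (hω z hz)
  have hY : YCl A (succ θ) := ord_YCl A hθ.succ hωY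
  obtain ⟨e, he⟩ := ctb_bij (ctb_succ hctb) hωY
  obtain ⟨hfe, hinj, hsurj⟩ := bij_iff.1 he
  obtain ⟨t, ht, hte⟩ := hsurj θ (by rw [mem_succ]; exact Or.inr rfl)
  obtain ⟨j, hj, hje⟩ := hsurj ρ hρ
  have hsω : s ∈ (omega : M) := by
    obtain ⟨x, hx, n, hn, rfl, _⟩ := hs
    exact sq_mem hx hn
  have hAY : ∀ z, z ∈ A → ∃ δ k, δ ∈ θ ∧ k ∈ (omega : M) ∧ z = opair δ k := by
    intro z hz
    obtain ⟨δ, hδ, k, hk, e1⟩ := (mem_prod _ _ _).1 (hA z hz)
    exact ⟨δ, k, hδ, hk, e1⟩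
  obtain ⟨w, hw, hw1, hw2⟩ := exists_enum (Y := succ θ) he hF.1 (fun z hz => by
    obtain ⟨δ, k, hδ, hk, e1⟩ := hAY z (hF.2 z hz)
    exact ⟨δ, k, by rw [mem_succ]; exact Or.inl hδ, hk, e1⟩)
  obtain ⟨c, hc, hrk, hcA, hLt, -, -, hcS, hcU, hcJ, hcT⟩ := exists_code hY he hsω hw hj ht
  have hrk' : ∀ m, m ∈ (omega : M) → rk c m = ap e m := by
    intro m hm
    have h1 := hfe.ap_mem hm
    rw [hrk m hm, otp_id (fun y hy => hθ.succ.mem hy) (hθ.succ.mem h1) (hθ.succ.1 _ h1)]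
  have hset : cSet c = A := by
    apply ext
    intro z
    rw [mem_cSet hc]
    constructor
    · rintro ⟨m, hm, k, hk, rfl, h1⟩
      rw [hrk' m hm]
      exact (hcA m hm k hk).1 h1
    · intro hz
      obtain ⟨δ, k, hδ, hk, rfl⟩ := hAY z hz
      obtain ⟨m, hm, rfl⟩ := hsurj δ (by rw [mem_succ]; exact Or.inl hδ)
      exact ⟨m, hm, k, hk, by rw [hrk' m hm], (hcA m hm k hk).2 hz⟩
  have hTh : cTh c = θ := by
    unfold cTh
    rw [hcT, hrk' t ht, hte]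
  have hPm : cPm c = F := by
    apply ext
    intro z
    unfold cPm
    rw [mem_sep, hset, hcU]
    constructor
    · rintro ⟨_, m, hm, k, hk, rfl, h1⟩
      rw [hrk' m hm]
      exact (hw1 m k hm hk).1 h1
    · intro hz
      have hzA := hF.2 z hz
      obtain ⟨δ, k, hδ, hk, rfl⟩ := hAY z hzA
      obtain ⟨m, hm, rfl⟩ := hsurj δ (by rw [mem_succ]; exact Or.inl hδ)
      exact ⟨hzA, m, hm, k, hk, by rw [hrk' m hm], (hw1 m k hm hk).2 hz⟩
  have hCSm : ∀ m, m ∈ (omega : M) → (cCS c m ↔ CS A (ap e m)) := by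
    intro m hm
    rw [code_CS hc hm, hset, hrk' m hm]
  refine ⟨c, ⟨hc, ?_, ?_⟩, hset, hTh, hcS, hPm, ?_⟩
  · intro d hd k hk h1
    rw [hCSm d hd]
    exact hsup _ _ ((hcA d hd k hk).1 h1)
  · refine ⟨?_, ?_, ?_, ?_, ?_⟩
    · intro a ha
      rw [hcT, hLt a ha t ht, hte]
      have h1 := hfe.ap_mem ha
      rw [mem_succ] at h1
      rcases h1 with h1 | h1
      · exact Or.inr h1
      · exact Or.inl (hinj a t ha ht (h1.trans hte.symm))
    · rw [hcT, hCSm t ht, hte]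
      exact hCS
    · intro k hk h1
      rw [hcT, hcA t ht k hk, hte] at h1
      obtain ⟨δ, k', hδ, _, e1⟩ := hAY _ h1
      rw [← (opair_inj e1).1] at hδ
      exact not_mem_self _ hδ
    · rw [hcS]; exact hs
    · intro i v hi
      rw [hcU] at hi
      obtain ⟨m, hm, k, hk, rfl⟩ := hw2 i v hi
      exact ⟨m, hm, k, hk, rfl, (hcA m hm k hk).2 (hF.2 _ ((hw1 m k hm hk).1 ⟨i, hi⟩))⟩
  · rw [hcJ, hrk' j hj, hje]

end Pool.Agent.ZFIter.NPA
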