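import Pool.Agent.NPA.CRk
import Pool.Agent.NPA.BHier
import Pool.Agent.NPA.AOtp

/-!
# NPA/CMkc: a real with prescribed code components

`mkc` builds a real `c` from the class relations and functions: for each number `p = pr t x` with
`t = num 0, ..., num 13` prescribe the value (`pr_surj, pr_inj, num_ne`), e.g.
`c (pr 0 (pr m n)) = 0` if `L m n`, `1` otherwise. The real is built by recursion over the number of
tags (`CMkc.multi`). The hypotheses are only used for natural number arguments.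
-/

universe u

namespace Pool.Agent.ZFIter.NPA

open Pool.Agent.H78.ZF Pool.Agent.ZFIter

variable {M : Type u} [ZFM M] {ι : Type}

namespace CMkc

/-- A real whose component with the tag `num t` is the class function `F t`, for all `t < k`. -/
theorem multi (F : ℕ → M → M) (h1 : ∀ t, F1 (F t))
    (hF : ∀ t a, a ∈ (omega : M) → F t a ∈ (omega : M)) (k : ℕ) :
    ∃ c, c ∈ (RS : M) ∧ ∀ t, t < k → ∀ x, x ∈ (omega : M) → ap c (pr (num t) x) = F t x := by
  induction k with
  | zero =>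
    have hval : ∀ p, p ∈ (omega : M) → (fun _ => emp) p ∈ (omega : M) := fun _ _ => emp_mem_omega
    exact ⟨mkf omega omega (fun _ => emp), mem_RS.2 (mkf_fun hval), fun t ht => absurd ht (by omega)⟩
  | succ k ih =>
    obtain ⟨c, hc, hk⟩ := ih
    haveI := h1 k
    let G : M → M := fun p => iota (fun y =>
      (∃ x, x ∈ (omega : M) ∧ p = pr (num k) x ∧ y = F k x) ∨
      ((¬ ∃ x, x ∈ (omega : M) ∧ p = pr (num k) x) ∧ y = ap c p))
    have hG1 : ∀ x, x ∈ (omega : M) → G (pr (num k) x) = F k x := by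
      intro x hx
      apply iota_eq
      · exact Or.inl ⟨x, hx, rfl, rfl⟩
      · rintro y (⟨x', hx', e, rfl⟩ | ⟨h, _⟩)
        · obtain ⟨_, e2⟩ := pr_inj (num_mem k) hx (num_mem k) hx' e
          rw [e2]
        · exact absurd ⟨x, hx, rfl⟩ h
    have hG2 : ∀ p, (¬ ∃ x, x ∈ (omega : M) ∧ p = pr (num k) x) → G p = ap c p := by
      intro p hp
      apply iota_eq
      · exact Or.inr ⟨hp, rfl⟩
      · rintro y (⟨x, hx, e, _⟩ | ⟨_, h⟩)
        · exact absurd ⟨x, hx, e⟩ hp
        · exact h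
    have hval : ∀ p, p ∈ (omega : M) → G p ∈ (omega : M) := by
      intro p _
      by_cases hp : ∃ x, x ∈ (omega : M) ∧ p = pr (num k) x
      · obtain ⟨x, hx, rfl⟩ := hp
        rw [hG1 x hx]
        exact hF k x hx
      · rw [hG2 p hp]
        exact RS_ap' hc p
    haveI : F1 G := by
      have : DF (fun v : Unit → M => G (v ())) := by
        show DF (fun v : Unit → M => iota (fun y =>
          (∃ x, x ∈ (omega : M) ∧ v () = pr (num k) x ∧ y = F k x) ∨
          ((¬ ∃ x, x ∈ (omega : M) ∧ v () = pr (num k) x) ∧ y = ap c (v ()))))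
        infer_instance
      infer_instance
    refine ⟨mkf omega omega G, mem_RS.2 (mkf_fun hval), fun t ht x hx => ?_⟩
    rw [ap_mkf hval (pr_mem (num_mem t) hx)]
    by_cases htk : t = k
    · subst htk
      exact hG1 x hx
    · rw [hG2, hk t (by omega) x hx]
      rintro ⟨x', hx', e⟩
      obtain ⟨e1, _⟩ := pr_inj (num_mem t) hx (num_mem k) hx' e
      exact num_ne htk e1

/-- The class function which is `emp` on the pairs in the relation `L`, and `num 1` otherwise. -/
theorem relF (L : M → M → Prop) [D2 L] : ∃ F : M → M, F1 F ∧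
    (∀ a, a ∈ (omega : M) → F a ∈ (omega : M)) ∧
    ∀ m, m ∈ (omega : M) → ∀ n, n ∈ (omega : M) → (F (pr m n) = emp ↔ L m n) := by
  let F : M → M := fun p => iota (fun y =>
    ((∃ m, m ∈ (omega : M) ∧ ∃ n, n ∈ (omega : M) ∧ p = pr m n ∧ L m n) ∧ y = emp) ∨
    ((¬ ∃ m, m ∈ (omega : M) ∧ ∃ n, n ∈ (omega : M) ∧ p = pr m n ∧ L m n) ∧ y = succ emp))
  have h1 : ∀ p, (∃ m, m ∈ (omega : M) ∧ ∃ n, n ∈ (omega : M) ∧ p = pr m n ∧ L m n) → F p = emp := by
    intro p hp
    apply iota_eq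
    · exact Or.inl ⟨hp, rfl⟩
    · rintro y (⟨_, h⟩ | ⟨h, _⟩)
      · exact h
      · exact absurd hp h
  have h2 : ∀ p, (¬ ∃ m, m ∈ (omega : M) ∧ ∃ n, n ∈ (omega : M) ∧ p = pr m n ∧ L m n) →
      F p = succ emp := by
    intro p hp
    apply iota_eq
    · exact Or.inr ⟨hp, rfl⟩
    · rintro y (⟨h, _⟩ | ⟨_, h⟩)
      · exact absurd h hp
      · exact h
  refine ⟨F, ?_, ?_, ?_⟩
  · have : DF (fun v : Unit → M => F (v ())) := by
      show DF (fun v : Unit → M => iota (fun y =>
        ((∃ m, m ∈ (omega : M) ∧ ∃ n, n ∈ (omega : M) ∧ v () = pr m n ∧ L m n) ∧ y = emp) ∨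
        ((¬ ∃ m, m ∈ (omega : M) ∧ ∃ n, n ∈ (omega : M) ∧ v () = pr m n ∧ L m n) ∧ y = succ emp)))
      infer_instance
    infer_instance
  · intro p _
    by_cases hp : ∃ m, m ∈ (omega : M) ∧ ∃ n, n ∈ (omega : M) ∧ p = pr m n ∧ L m n
    · rw [h1 p hp]; exact emp_mem_omega
    · rw [h2 p hp]; exact succ_mem_omega emp_mem_omega
  · intro m hm n hn
    constructor
    · intro e
      by_contra hL
      rw [h2] at e
      · exact succ_ne_emp _ e
      · rintro ⟨m', hm', n', hn', e', hL'⟩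
        obtain ⟨rfl, rfl⟩ := pr_inj hm hn hm' hn' e'
        exact hL hL'
    · intro hL
      exact h1 _ ⟨m, hm, n, hn, rfl, hL⟩

/-- The class function which is `emp` on the class `G`, and `num 1` otherwise. -/
theorem clF (G : M → Prop) [D1 G] : ∃ F : M → M, F1 F ∧
    (∀ a, a ∈ (omega : M) → F a ∈ (omega : M)) ∧ ∀ d, (F d = emp ↔ G d) := by
  let F : M → M := fun p => iota (fun y => (G p ∧ y = emp) ∨ (¬ G p ∧ y = succ emp))
  have h1 : ∀ p, G p → F p = emp := by
    intro p hp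
    apply iota_eq
    · exact Or.inl ⟨hp, rfl⟩
    · rintro y (⟨_, h⟩ | ⟨h, _⟩)
      · exact h
      · exact absurd hp h
  have h2 : ∀ p, ¬ G p → F p = succ emp := by
    intro p hp
    apply iota_eq
    · exact Or.inr ⟨hp, rfl⟩
    · rintro y (⟨h, _⟩ | ⟨_, h⟩)
      · exact absurd h hp
      · exact h
  refine ⟨F, ?_, ?_, ?_⟩
  · have : DF (fun v : Unit → M => F (v ())) := by
      show DF (fun v : Unit → M => iota (fun y =>
        (G (v ()) ∧ y = emp) ∨ (¬ G (v ()) ∧ y = succ emp)))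
      infer_instance
    infer_instance
  · intro p _
    by_cases hp : G p
    · rw [h1 p hp]; exact emp_mem_omega
    · rw [h2 p hp]; exact succ_mem_omega emp_mem_omega
  · intro d
    constructor
    · intro e
      by_contra hG
      rw [h2 d hG] at e
      exact succ_ne_emp _ e
    · exact h1 d

end CMkc

theorem exists_mkc (L E A O : M → M → Prop) [D2 L] [D2 E] [D2 A] [D2 O]
    (I B C N : M → M) [F1 I] [F1 B] [F1 C] [F1 N] (G : M → Prop) [D1 G] (Q : M → M) [F1 Q]
    (hI : ∀ a, a ∈ (omega : M) → I a ∈ (omega : M)) (hB : ∀ a, a ∈ (omega : M) → B a ∈ (omega : M))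
    (hC : ∀ a, a ∈ (omega : M) → C a ∈ (omega : M)) (hN : ∀ a, a ∈ (omega : M) → N a ∈ (omega : M))
    (hQ : ∀ a, a ∈ (omega : M) → Q a ∈ (omega : M))
    {s u j t : M} (hs : s ∈ (omega : M)) (hu : u ∈ (omega : M)) (hj : j ∈ (omega : M))
    (ht : t ∈ (omega : M)) :
    ∃ c, c ∈ (RS : M) ∧
      (∀ m, m ∈ (omega : M) → ∀ n, n ∈ (omega : M) → (cLt c m n ↔ L m n)) ∧
      (∀ m, m ∈ (omega : M) → ∀ n, n ∈ (omega : M) → (cE c m n ↔ E m n)) ∧
      (∀ m, m ∈ (omega : M) → ∀ n, n ∈ (omega : M) → (cA c m n ↔ A m n)) ∧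
      (∀ m, m ∈ (omega : M) → ∀ n, n ∈ (omega : M) → (cO c m n ↔ O m n)) ∧
      (∀ a, a ∈ (omega : M) → cI c a = I a ∧ cB c a = B a ∧ cC c a = C a ∧ cN c a = N a) ∧
      (∀ d, d ∈ (omega : M) → (cCS c d ↔ G d)) ∧
      (∀ d, d ∈ (omega : M) → ∀ k, k ∈ (omega : M) → ∀ n, n ∈ (omega : M) →
        cQ c d k n = Q (pr (pr d k) n)) ∧
      cS c = s ∧ cU c = u ∧ cJ c = j ∧ cT c = t := by
  obtain ⟨fL, fL1, fL2, fL3⟩ := CMkc.relF L
  obtain ⟨fE, fE1, fE2, fE3⟩ := CMkc.relF E
  obtain ⟨fA, fA1, fA2, fA3⟩ := CMkc.relF A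
  obtain ⟨fO, fO1, fO2, fO3⟩ := CMkc.relF O
  obtain ⟨fG, fG1, fG2, fG3⟩ := CMkc.clF G
  let F : ℕ → M → M := fun n => match n with
    | 0 => fL
    | 1 => fE
    | 2 => fA
    | 3 => I
    | 4 => B
    | 5 => C
    | 6 => N
    | 7 => fun _ => s
    | 8 => fun _ => u
    | 9 => fun _ => j
    | 10 => fG
    | 11 => Q
    | 12 => fun _ => t
    | _ + 13 => fO
  have hF1 : ∀ n, F1 (F n) := by
    intro n
    match n with
    | 0 => exact fL1
    | 1 => exact fE1
    | 2 => exact fA1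
    | 3 => show F1 I; infer_instance
    | 4 => show F1 B; infer_instance
    | 5 => show F1 C; infer_instance
    | 6 => show F1 N; infer_instance
    | 7 => show F1 (fun _ => s); infer_instance
    | 8 => show F1 (fun _ => u); infer_instance
    | 9 => show F1 (fun _ => j); infer_instance
    | 10 => exact fG1
    | 11 => show F1 Q; infer_instance
    | 12 => show F1 (fun _ => t); infer_instance
    | _ + 13 => exact fO1
  have hF2 : ∀ n a, a ∈ (omega : M) → F n a ∈ (omega : M) := by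
    intro n
    match n with
    | 0 => exact fL2
    | 1 => exact fE2
    | 2 => exact fA2
    | 3 => exact hI
    | 4 => exact hB
    | 5 => exact hC
    | 6 => exact hN
    | 7 => exact fun _ _ => hs
    | 8 => exact fun _ _ => hu
    | 9 => exact fun _ _ => hj
    | 10 => exact fG2
    | 11 => exact hQ
    | 12 => exact fun _ _ => ht
    | _ + 13 => exact fO2
  obtain ⟨c, hc, h⟩ := CMkc.multi F hF1 hF2 14
  refine ⟨c, hc, ?_, ?_, ?_, ?_, ?_, ?_, ?_, ?_, ?_, ?_, ?_⟩
  · intro m hm n hn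
    unfold cLt
    rw [h 0 (by norm_num) _ (pr_mem hm hn)]
    exact fL3 m hm n hn
  · intro m hm n hn
    unfold cE
    rw [h 1 (by norm_num) _ (pr_mem hm hn)]
    exact fE3 m hm n hn
  · intro m hm n hn
    unfold cA
    rw [h 2 (by norm_num) _ (pr_mem hm hn)]
    exact fA3 m hm n hn
  · intro m hm n hn
    unfold cO
    rw [h 13 (by norm_num) _ (pr_mem hm hn)]
    exact fO3 m hm n hn
  · intro a ha
    exact ⟨h 3 (by norm_num) a ha, h 4 (by norm_num) a ha, h 5 (by norm_num) a ha,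
      h 6 (by norm_num) a ha⟩
  · intro d hd
    unfold cCS
    rw [h 10 (by norm_num) d hd]
    exact fG3 d
  · intro d hd k hk n hn
    exact h 11 (by norm_num) _ (pr_mem (pr_mem hd hk) hn)
  · exact h 7 (by norm_num) _ emp_mem_omega
  · exact h 8 (by norm_num) _ emp_mem_omega
  · exact h 9 (by norm_num) _ emp_mem_omega
  · exact h 12 (by norm_num) _ emp_mem_omega

end Pool.Agent.ZFIter.NPA
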