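import Pool.Agent.NPA.AOrd
import Pool.Agent.NPA.ANum
import Pool.Agent.NPA.ASq

/-!
# NPA/CRk: the rank function of a code

`Code c = CArith c ∧ CWf c`. `code_min`: if `S ⊆ omega` is nonempty without `cLt`-least element, let
`v` be the sequence `v 0 ∈ S`, `v (n+1)` = the least (in the usual order of `omega`) element of `S` which
is `cLt`-below `v n` (recursion `recf` or `recc`), a real contradicting `CWf`.
Rank function: existence of `f` with `IsRk c f`: for each `m` there is a unique function `f_m` on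
`{n : cLt c n m or n = m}` with the recursion property (induction along `cLt` by `code_min` applied to the
set of counterexamples), take the union. Alternatively (shorter): let `Y` be... any method is fine.
The ranks: `rk c m = {rk c n : cLt c n m}`; these are ordinals, order isomorphism; `rk_surj`: elements
of `rk c m` are ranks. `rk_uniq`: any function satisfying the recursion is `rk`.
-/

universe u

namespace Pool.Agent.ZFIter.NPA

open Pool.Agent.H78.ZF Pool.Agent.ZFIter

variable {M : Type u} [ZFM M] {ι : Type}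

section
variable {c : M} (hc : Code c)
include hc

theorem code_min {S : M} (hS : S ⊆ omega) (hne : S ≠ emp) :
    ∃ a, a ∈ S ∧ ∀ b, b ∈ S → ¬ cLt c b a := by
  by_contra hcon
  have hcon' : ∀ a, a ∈ S → ∃ b, b ∈ S ∧ cLt c b a := by
    intro a ha
    by_contra hb
    exact hcon ⟨a, ha, fun b hb' hlt => hb ⟨b, hb', hlt⟩⟩
  obtain ⟨a₀, ha₀⟩ := ne_emp_iff.1 hne
  set F : M → M := fun z => least (fun b => b ∈ S ∧ cLt c b z) with hF
  have hF1 : F1 F := by rw [hF]; infer_instance
  have hFs : ∀ z, z ∈ S → F z ∈ S ∧ cLt c (F z) z := by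
    intro z hz
    obtain ⟨b, hb, hlt⟩ := hcon' z hz
    exact (least_spec (fun b => b ∈ S ∧ cLt c b z) ⟨b, hS b hb, hb, hlt⟩).2.1
  set G : M → M := fun n => recc F a₀ n with hG
  have hG1 : F1 G := by
    rw [hG, hF]; infer_instance
  have hGs : ∀ n, n ∈ (omega : M) → G n ∈ S := by
    apply omega_induction (fun n => G n ∈ S)
    · rw [hG]
      show recc F a₀ emp ∈ S
      rw [recc_zero]; exact ha₀
    · intro n hn ih
      show recc F a₀ (succ n) ∈ S
      rw [recc_succ hn]
      exact (hFs _ ih).1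
  have hGo : ∀ n, n ∈ (omega : M) → G n ∈ (omega : M) := fun n hn => hS _ (hGs n hn)
  have hv : mkf omega omega G ∈ (RS : M) := mem_RS.2 (mkf_fun hGo)
  obtain ⟨n, hn, hlt⟩ := hc.2 _ hv
  apply hlt
  rw [ap_mkf hGo (succ_mem_omega hn), ap_mkf hGo hn]
  show cLt c (recc F a₀ (succ n)) (recc F a₀ n)
  rw [recc_succ hn]
  exact (hFs _ (hGs n hn)).2

/-- Induction along the order of a code. -/
theorem code_ind (P : M → Prop) [D1 P]
    (h : ∀ a, a ∈ (omega : M) → (∀ b, b ∈ (omega : M) → cLt c b a → P b) → P a) :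
    ∀ a, a ∈ (omega : M) → P a := by
  by_contra hcon
  push Not at hcon
  obtain ⟨a, ha, hPa⟩ := hcon
  have h1 : sep omega (fun a => ¬ P a) ⊆ omega := fun z hz => by
    rw [mem_sep] at hz; exact hz.1
  obtain ⟨m, hm, hmin⟩ := code_min hc h1 (ne_emp_iff.2 ⟨a, by rw [mem_sep]; exact ⟨ha, hPa⟩⟩)
  rw [mem_sep] at hm
  refine hm.2 (h m hm.1 fun b hb hlt => ?_)
  by_contra hPb
  exact hmin b (by rw [mem_sep]; exact ⟨hb, hPb⟩) hlt

private theorem code_lt_trans {a b d : M} (ha : a ∈ (omega : M)) (hb : b ∈ (omega : M))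
    (hd : d ∈ (omega : M)) (h1 : cLt c a b) (h2 : cLt c b d) : cLt c a d :=
  hc.1.lin.2.1 a ha b hb d hd h1 h2

private theorem code_ext_ind (F G : M → M) [F1 F] [F1 G]
    (hF : ∀ m, m ∈ (omega : M) → F m = img (sep omega (fun n => cLt c n m)) (fun n => F n))
    (hG : ∀ m, m ∈ (omega : M) → G m = img (sep omega (fun n => cLt c n m)) (fun n => G n)) :
    ∀ m, m ∈ (omega : M) → F m = G m := by
  apply code_ind hc (fun m => F m = G m)
  intro m hm ih
  rw [hF m hm, hG m hm]
  apply Pool.Agent.H78.ZF.ext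
  intro z
  rw [mem_img, mem_img]
  constructor
  · rintro ⟨n, hn, rfl⟩
    have hn' := hn
    rw [mem_sep] at hn'
    exact ⟨n, hn, ih n hn'.1 hn'.2⟩
  · rintro ⟨n, hn, rfl⟩
    have hn' := hn
    rw [mem_sep] at hn'
    exact ⟨n, hn, (ih n hn'.1 hn'.2).symm⟩

set_option synthInstance.maxSize 100000 in
theorem exists_rk : ∃ f, IsRk c f := by
  -- attempts
  set D : M → M := fun m => sep omega (fun n => cLt c n m ∨ n = m) with hD
  have hD1 : F1 D := by rw [hD]; infer_instance
  have memD : ∀ m n, n ∈ D m ↔ n ∈ (omega : M) ∧ (cLt c n m ∨ n = m) := by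
    intro m n
    rw [hD]
    exact mem_sep _ _ _
  set h : M → M := fun m => iota (fun f => IsSeq f (sep omega (fun n => cLt c n m ∨ n = m)) ∧
    ∀ x, x ∈ (sep omega (fun n => cLt c n m ∨ n = m)) → ap f x = img (sep omega (fun n => cLt c n x)) (fun n => ap f n)) with hh
  have hh1 : F1 h := by rw [hh]; infer_instance
  have hsub : ∀ m, m ∈ (omega : M) → ∀ n, n ∈ (omega : M) → cLt c n m → D n ⊆ D m := by
    intro m hm n hn hnm z hz
    rw [memD] at hz ⊢
    refine ⟨hz.1, Or.inl ?_⟩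
    rcases hz.2 with h1 | h1
    · exact code_lt_trans hc hz.1 hn hm h1 hnm
    · rw [h1]; exact hnm
  have hself : ∀ m, m ∈ (omega : M) → m ∈ D m := fun m hm => by
    rw [memD]; exact ⟨hm, Or.inr rfl⟩
  -- uniqueness
  have huniq : ∀ m f m' f', m ∈ (omega : M) → m' ∈ (omega : M) → IsSeq f (D m) → IsSeq f' (D m') →
      (∀ x, x ∈ D m → ap f x = img (sep omega (fun n => cLt c n x)) (fun n => ap f n)) →
      (∀ x, x ∈ D m' → ap f' x = img (sep omega (fun n => cLt c n x)) (fun n => ap f' n)) →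
      ∀ x, x ∈ (omega : M) → x ∈ D m → x ∈ D m' → ap f x = ap f' x := by
    intro m f m' f' hm hm' hf hf' hr hr'
    apply code_ind hc (fun x => x ∈ D m → x ∈ D m' → ap f x = ap f' x)
    intro x hx ih hxm hxm'
    have key : ∀ n, n ∈ (omega : M) → cLt c n x → ap f n = ap f' n := by
      intro n hn hnx
      refine ih n hn hnx ?_ ?_
      · rw [memD] at hxm ⊢
        refine ⟨hn, Or.inl ?_⟩
        rcases hxm.2 with h1 | h1
        · exact code_lt_trans hc hn hx hm hnx h1
        · rw [← h1]; exact hnx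
      · rw [memD] at hxm' ⊢
        refine ⟨hn, Or.inl ?_⟩
        rcases hxm'.2 with h1 | h1
        · exact code_lt_trans hc hn hx hm' hnx h1
        · rw [← h1]; exact hnx
    rw [hr x hxm, hr' x hxm']
    apply Pool.Agent.H78.ZF.ext
    intro z
    rw [mem_img, mem_img]
    constructor
    · rintro ⟨n, hn, rfl⟩
      have hn' := hn
      rw [mem_sep] at hn'
      exact ⟨n, hn, key n hn'.1 hn'.2⟩
    · rintro ⟨n, hn, rfl⟩
      have hn' := hn
      rw [mem_sep] at hn'
      exact ⟨n, hn, (key n hn'.1 hn'.2).symm⟩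
  -- existence
  have hex : ∀ m, m ∈ (omega : M) → IsSeq (h m) (D m) ∧
      ∀ x, x ∈ D m → ap (h m) x = img (sep omega (fun n => cLt c n x)) (fun n => ap (h m) n) := by
    have hD1' : D1 (fun m => IsSeq (h m) (D m) ∧
        ∀ x, x ∈ D m → ap (h m) x = img (sep omega (fun n => cLt c n x)) (fun n => ap (h m) n)) := by
      infer_instance
    apply code_ind hc (fun m => IsSeq (h m) (D m) ∧
      ∀ x, x ∈ D m → ap (h m) x = img (sep omega (fun n => cLt c n x)) (fun n => ap (h m) n))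
    intro m hm ih
    set R : M → M := fun x => img (sep omega (fun n => cLt c n x)) (fun n => ap (h n) n) with hR
    have hR1 : F1 R := by rw [hR]; infer_instance
    -- `ap (h n) n = R n` below `m`
    have hRn : ∀ n, n ∈ (omega : M) → cLt c n m → ap (h n) n = R n := by
      intro n hn hnm
      have h1 := ih n hn hnm
      rw [h1.2 n (hself n hn), hR]
      apply Pool.Agent.H78.ZF.ext
      intro z
      have hk : ∀ k, k ∈ (omega : M) → cLt c k n → ap (h n) k = ap (h k) k := by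
        intro k hk hkn
        have h2 := ih k hk (code_lt_trans hc hk hn hm hkn hnm)
        exact huniq n (h n) k (h k) hn hk h1.1 h2.1 h1.2 h2.2 k hk
          (by rw [memD]; exact ⟨hk, Or.inl hkn⟩) (hself k hk)
      rw [mem_img, mem_img]
      constructor
      · rintro ⟨k, hk', rfl⟩
        have hk2 := hk'
        rw [mem_sep] at hk2
        exact ⟨k, hk', hk k hk2.1 hk2.2⟩
      · rintro ⟨k, hk', rfl⟩
        have hk2 := hk'
        rw [mem_sep] at hk2
        exact ⟨k, hk', (hk k hk2.1 hk2.2).symm⟩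
    have hg : IsSeq (mkseq (D m) R) (D m) := isSeq_mkseq
    have hg2 : ∀ x, x ∈ D m → ap (mkseq (D m) R) x =
        img (sep omega (fun n => cLt c n x)) (fun n => ap (mkseq (D m) R) n) := by
      intro x hx
      rw [ap_mkseq hx]
      apply Pool.Agent.H78.ZF.ext
      intro z
      have hk : ∀ k, k ∈ (omega : M) → cLt c k x → ap (mkseq (D m) R) k = ap (h k) k := by
        intro k hk hkx
        rw [memD] at hx
        have hkm : cLt c k m := by
          rcases hx.2 with h1 | h1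
          · exact code_lt_trans hc hk hx.1 hm hkx h1
          · rw [← h1]; exact hkx
        rw [ap_mkseq (by rw [memD]; exact ⟨hk, Or.inl hkm⟩), hRn k hk hkm]
      rw [hR]
      show z ∈ img _ _ ↔ _
      rw [mem_img, mem_img]
      constructor
      · rintro ⟨k, hk', rfl⟩
        have hk2 := hk'
        rw [mem_sep] at hk2
        exact ⟨k, hk', (hk k hk2.1 hk2.2).symm⟩
      · rintro ⟨k, hk', rfl⟩
        have hk2 := hk'
        rw [mem_sep] at hk2
        exact ⟨k, hk', hk k hk2.1 hk2.2⟩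
    have he : ∃! f, IsSeq f (sep omega (fun n => cLt c n m ∨ n = m)) ∧
        ∀ x, x ∈ (sep omega (fun n => cLt c n m ∨ n = m)) → ap f x = img (sep omega (fun n => cLt c n x)) (fun n => ap f n) := by
      refine ⟨mkseq (D m) R, ⟨hg, hg2⟩, ?_⟩
      rintro f ⟨hf, hf2⟩
      apply hf.ext hg
      intro x hx
      have hxo : x ∈ (omega : M) := ((memD m x).1 hx).1
      exact huniq m f m _ hm hm hf hg hf2 hg2 x hxo hx hx
    exact iota_spec he
  -- the rank function
  refine ⟨mkseq omega (fun x => ap (h x) x), isSeq_mkseq, fun m hm => ?_⟩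
  rw [ap_mkseq hm]
  have h1 := hex m hm
  rw [h1.2 m (hself m hm)]
  apply Pool.Agent.H78.ZF.ext
  intro z
  have hk : ∀ k, k ∈ (omega : M) → cLt c k m →
      ap (mkseq omega (fun x => ap (h x) x)) k = ap (h m) k := by
    intro k hk hkm
    rw [ap_mkseq hk]
    have h2 := hex k hk
    exact huniq k (h k) m (h m) hk hm h2.1 h1.1 h2.2 h1.2 k hk (hself k hk)
      (by rw [memD]; exact ⟨hk, Or.inl hkm⟩)
  rw [mem_img, mem_img]
  constructor
  · rintro ⟨k, hk', rfl⟩
    have hk2 := hk'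
    rw [mem_sep] at hk2
    exact ⟨k, hk', (hk k hk2.1 hk2.2).symm⟩
  · rintro ⟨k, hk', rfl⟩
    have hk2 := hk'
    rw [mem_sep] at hk2
    exact ⟨k, hk', hk k hk2.1 hk2.2⟩

theorem isRk_crk : IsRk c (crk c) := by
  have he : ∃! f, IsRk c f := by
    obtain ⟨f, hf⟩ := exists_rk hc
    refine ⟨f, hf, ?_⟩
    intro g hg
    apply hg.1.ext hf.1
    exact code_ext_ind hc (fun m => ap g m) (fun m => ap f m) hg.2 hf.2
  exact iota_spec he

theorem rk_eq {m : M} (hm : m ∈ (omega : M)) :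
    rk c m = img (sep omega (fun n => cLt c n m)) (fun n => rk c n) :=
  (isRk_crk hc).2 m hm

private theorem mem_rk {m z : M} (hm : m ∈ (omega : M)) :
    z ∈ rk c m ↔ ∃ n, n ∈ (omega : M) ∧ cLt c n m ∧ z = rk c n := by
  rw [rk_eq hc hm, mem_img]
  constructor
  · rintro ⟨n, hn, rfl⟩
    rw [mem_sep] at hn
    exact ⟨n, hn.1, hn.2, rfl⟩
  · rintro ⟨n, hn, hnm, rfl⟩
    exact ⟨n, by rw [mem_sep]; exact ⟨hn, hnm⟩, rfl⟩

theorem rk_ord {m : M} (hm : m ∈ (omega : M)) : Ord (rk c m) := by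
  apply code_ind hc (fun m => Ord (rk c m)) _ m hm
  intro m hm ih
  constructor
  · intro y hy z hz
    obtain ⟨n, hn, hnm, rfl⟩ := (mem_rk hc hm).1 hy
    obtain ⟨k, hk, hkn, rfl⟩ := (mem_rk hc hn).1 hz
    exact (mem_rk hc hm).2 ⟨k, hk, code_lt_trans hc hk hn hm hkn hnm, rfl⟩
  · intro y hy
    obtain ⟨n, hn, hnm, rfl⟩ := (mem_rk hc hm).1 hy
    exact (ih n hn hnm).1

private theorem rk_lt_of {m n : M} (hm : m ∈ (omega : M)) (hn : n ∈ (omega : M)) (h : cLt c m n) :
    rk c m ∈ rk c n := (mem_rk hc hn).2 ⟨m, hm, h, rfl⟩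

theorem rk_lt_iff {m n : M} (hm : m ∈ (omega : M)) (hn : n ∈ (omega : M)) :
    rk c m ∈ rk c n ↔ cLt c m n := by
  constructor
  · intro h
    rcases hc.1.lin.2.2 m hm n hn with h1 | h1 | h1
    · exact h1
    · rw [h1] at h; exact absurd h (not_mem_self _)
    · exact absurd h ((rk_ord hc hm).asymm (rk_lt_of hc hn hm h1))
  · exact rk_lt_of hc hm hn

theorem rk_inj {m n : M} (hm : m ∈ (omega : M)) (hn : n ∈ (omega : M)) (h : rk c m = rk c n) :
    m = n := by
  rcases hc.1.lin.2.2 m hm n hn with h1 | h1 | h1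
  · have h2 := rk_lt_of hc hm hn h1
    rw [h] at h2; exact absurd h2 (not_mem_self _)
  · exact h1
  · have h2 := rk_lt_of hc hn hm h1
    rw [h] at h2; exact absurd h2 (not_mem_self _)

theorem rk_surj {m γ : M} (hm : m ∈ (omega : M)) (h : γ ∈ rk c m) :
    ∃ n, n ∈ (omega : M) ∧ cLt c n m ∧ rk c n = γ := by
  obtain ⟨n, hn, hnm, rfl⟩ := (mem_rk hc hm).1 h
  exact ⟨n, hn, hnm, rfl⟩

theorem rk_uniq (F : M → M) [F1 F]
    (h : ∀ m, m ∈ (omega : M) → ∀ γ, γ ∈ F m ↔ ∃ n, n ∈ (omega : M) ∧ cLt c n m ∧ γ = F n) :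
    ∀ m, m ∈ (omega : M) → rk c m = F m := by
  apply code_ext_ind hc (fun m => rk c m) F (fun m hm => rk_eq hc hm)
  intro m hm
  apply Pool.Agent.H78.ZF.ext
  intro z
  rw [h m hm z, mem_img]
  constructor
  · rintro ⟨n, hn, hnm, rfl⟩
    exact ⟨n, by rw [mem_sep]; exact ⟨hn, hnm⟩, rfl⟩
  · rintro ⟨n, hn, rfl⟩
    rw [mem_sep] at hn
    exact ⟨n, hn.1, hn.2, rfl⟩

theorem ctb_rk {m : M} (hm : m ∈ (omega : M)) : Ctb (rk c m) := by
  rw [rk_eq hc hm]
  apply ctb_img
  apply ctb_sub ctb_omega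
  intro z hz
  rw [mem_sep] at hz
  exact hz.1

/-- `cN c n` is the `n`-th element of the order. -/
theorem cN_mem {n : M} (hn : n ∈ (omega : M)) : cN c n ∈ (omega : M) :=
  RS_ap' hc.1.real _

theorem rk_cN {n : M} (hn : n ∈ (omega : M)) : rk c (cN c n) = n := by
  have key : ∀ n, n ∈ (omega : M) → rk c (cN c n) = n := by
    apply omega_induction (fun n => rk c (cN c n) = n)
    · apply eq_emp
      intro z hz
      obtain ⟨k, hk, hlt, _⟩ := (mem_rk hc (cN_mem hc emp_mem_omega)).1 hz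
      exact hc.1.nm.1 k hk hlt
    · intro n hn ih
      have h1 := cN_mem hc hn
      have h2 := cN_mem hc (succ_mem_omega hn)
      obtain ⟨h3, h4⟩ := hc.1.nm.2 n hn
      apply Pool.Agent.H78.ZF.ext
      intro z
      rw [mem_rk hc h2, mem_succ]
      constructor
      · rintro ⟨k, hk, hlt, rfl⟩
        rcases hc.1.lin.2.2 k hk _ h1 with h5 | h5 | h5
        · left
          rw [← ih]
          conv_lhs => rw [ih]
          exact ih ▸ rk_lt_of hc hk h1 h5
        · right
          rw [h5, ih]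
        · exact absurd ⟨h5, hlt⟩ (h4 k hk)
      · rintro (hz | rfl)
        · rw [← ih] at hz
          obtain ⟨k, hk, hlt, rfl⟩ := (mem_rk hc h1).1 hz
          exact ⟨k, hk, code_lt_trans hc hk h1 h2 hlt h3, rfl⟩
        · exact ⟨_, h1, h3, ih.symm⟩
  exact key n hn

theorem cB_mem (a : M) : cB c a ∈ (omega : M) := RS_ap' hc.1.real _

theorem cC_mem (a : M) : cC c a ∈ (omega : M) := RS_ap' hc.1.real _

theorem mem_cSet {z : M} : z ∈ cSet c ↔
    ∃ m, m ∈ (omega : M) ∧ ∃ k, k ∈ (omega : M) ∧ z = opair (rk c m) k ∧ cA c m k := by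
  unfold cSet
  rw [mem_sep]
  constructor
  · exact fun h => h.2
  · rintro ⟨m, hm, k, hk, rfl, hA⟩
    refine ⟨?_, m, hm, k, hk, rfl, hA⟩
    rw [opair_mem_prod, mem_img]
    exact ⟨⟨m, hm, rfl⟩, hk⟩

theorem code_A {m k : M} (hm : m ∈ (omega : M)) (hk : k ∈ (omega : M)) :
    opair (rk c m) k ∈ cSet c ↔ cA c m k := by
  rw [mem_cSet hc]
  constructor
  · rintro ⟨m', hm', k', hk', e, hA⟩
    obtain ⟨e1, rfl⟩ := opair_inj e
    rw [rk_inj hc hm hm' e1]
    exact hA
  · intro hA
    exact ⟨m, hm, k, hk, rfl, hA⟩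

end

end Pool.Agent.ZFIter.NPA
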