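import Pool.Agent.NPA.DTool

/-!
# NPA/DArith: the arithmetical notions for codes are Borel
-/

universe u

namespace Pool.Agent.ZFIter.NPA

set_option synthInstance.maxSize 100000

open Pool.Agent.H78.ZF Pool.Agent.ZFIter

variable {M : Type u} [ZFM M] [HasAC M]

theorem Bo.rel3 (R : M → M → M → Prop) [hR : D3 R] (r s t : M → M) [hr : Nt r] [hs : Nt s]
    [ht : Nt t] : Bo (fun x => R (r x) (s x) (t x)) := by
  have h1 := hs.d
  have h2 := ht.d
  have h3 := hr.d
  exact Bo.sub (fun n x => R n (s x) (t x)) r fun n _ => Bo.rel2 (fun k m => R n k m) s t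

section
variable (c m n k : M → M) [hc : Ct c] [hm : Nt m] [hn : Nt n] [hk : Nt k]
instance Bo.cLt : Bo (fun x => cLt (c x) (m x) (n x)) := by unfold NPA.cLt; infer_instance
instance Bo.cE : Bo (fun x => cE (c x) (m x) (n x)) := by unfold NPA.cE; infer_instance
instance Bo.cA : Bo (fun x => cA (c x) (m x) (n x)) := by unfold NPA.cA; infer_instance
instance Nt.cI : Nt (fun x => cI (c x) (m x)) := by unfold NPA.cI; infer_instance
instance Nt.cB : Nt (fun x => cB (c x) (m x)) := by unfold NPA.cB; infer_instance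
instance Nt.cC : Nt (fun x => cC (c x) (m x)) := by unfold NPA.cC; infer_instance
instance Nt.cN : Nt (fun x => cN (c x) (m x)) := by unfold NPA.cN; infer_instance
instance Nt.cS : Nt (fun x => cS (c x)) := by unfold NPA.cS; infer_instance
instance Nt.cU : Nt (fun x => cU (c x)) := by unfold NPA.cU; infer_instance
instance Nt.cJ : Nt (fun x => cJ (c x)) := by unfold NPA.cJ; infer_instance
instance Bo.cCS : Bo (fun x => cCS (c x) (m x)) := by unfold NPA.cCS; infer_instance
instance Nt.cQ : Nt (fun x => cQ (c x) (m x) (n x) (k x)) := by unfold NPA.cQ; infer_instance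
instance Nt.cT : Nt (fun x => cT (c x)) := by unfold NPA.cT; infer_instance
instance Bo.cO : Bo (fun x => cO (c x) (m x) (n x)) := by unfold NPA.cO; infer_instance
end

section
variable (c p a b : M → M) [hc : Ct c] [hp : Nt p] [ha : Nt a] [hb : Nt b]
instance Bo.cEq : Bo (fun x => cEq (c x) (a x) (b x)) := by
  have := hc.d
  have := ha.d
  have := hb.d
  unfold NPA.cEq; infer_instance
instance Bo.cUp : Bo (fun x => cUp (c x) (p x) (a x) (b x)) := by
  have := hc.d
  have := ha.d
  have := hb.d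
  have := hp.d
  unfold NPA.cUp; infer_instance
instance Bo.cPr : Bo (fun x => cPr (c x) (p x) (a x) (b x)) := by
  have := hc.d
  have := ha.d
  have := hb.d
  have := hp.d
  unfold NPA.cPr; infer_instance
end

instance Bo.cOp (c a w : M → M) [hc : Ct c] [ha : Nt a] [hw : Nt w] :
    Bo (fun x => cOp (c x) (a x) (w x)) := by
  have := hc.d
  have := ha.d
  have := hw.d
  unfold NPA.cOp
  infer_instance

instance Bo.cTL (c i b g i' b' g' : M → M) [hc : Ct c] [hi : Nt i] [hb : Nt b] [hg : Nt g]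
    [hi' : Nt i'] [hb' : Nt b'] [hg' : Nt g'] :
    Bo (fun v => cTL (c v) (i v) (b v) (g v) (i' v) (b' v) (g' v)) := by
  have := hc.d
  have := hi.d
  have := hb.d
  have := hg.d
  have := hi'.d
  have := hb'.d
  have := hg'.d
  unfold NPA.cTL TL MaxLt
  infer_instance

section
variable (c : M → M) [hc : Ct c]

instance Bo.CLin : Bo (fun x => CLin (c x)) := by
  have := hc.d
  unfold NPA.CLin; infer_instance

instance Bo.CDec : Bo (fun x => CDec (c x)) := by
  have := hc.d
  unfold NPA.CDec; infer_instance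

instance Bo.CNum : Bo (fun x => CNum (c x)) := by
  have := hc.d
  unfold NPA.CNum; infer_instance

instance Bo.CMem : Bo (fun x => CMem (c x)) := by
  have := hc.d
  unfold NPA.CMem; infer_instance

instance Bo.cNE (n d : M → M) [hn : Nt n] [hd : Nt d] : Bo (fun x => cNE (c x) (n x) (d x)) := by
  have := hc.d
  have := hn.d
  have := hd.d
  unfold NPA.cNE; infer_instance

instance Bo.CStg : Bo (fun x => CStg (c x)) := by
  have := hc.d
  unfold NPA.CStg; infer_instance

instance Bo.COrd : Bo (fun x => COrd (c x)) := by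
  have := hc.d
  unfold NPA.COrd; infer_instance

instance Bo.CSeq : Bo (fun x => CSeq (c x)) := by
  have := hc.d
  unfold NPA.CSeq; infer_instance

instance Bo.CSup : Bo (fun x => CSup (c x)) := by
  have := hc.d
  unfold NPA.CSup; infer_instance

instance Bo.Bin (s : M → M) [Nt s] : Bo (fun x => Bin (s x)) := Bo.rel1 (fun n => NPA.Bin n) s

instance Bo.Ent (s j v : M → M) [Nt s] [Nt j] [Nt v] : Bo (fun x => Ent (s x) (j x) (v x)) :=
  Bo.rel3 (fun n j v => NPA.Ent n j v) s j v

instance Bo.Pfx (s t : M → M) [Nt s] [Nt t] : Bo (fun x => Pfx (s x) (t x)) :=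
  Bo.rel2 (fun n m => NPA.Pfx n m) s t

omit [HasAC M] in
private theorem ent_omega' {s j v : M} (h : NPA.Ent s j v) : j ∈ (omega : M) ∧ v ∈ (omega : M) := by
  obtain ⟨x, hx, n, hn, rfl, hj, rfl⟩ := h
  exact ⟨mem_omega_of_mem hj hn, RS_ap' hx j⟩

instance Bo.CTop : Bo (fun x => CTop (c x)) := by
  have := hc.d
  have h : Bo (fun x => (∀ a, a ∈ (omega : M) → a = NPA.cT (c x) ∨ NPA.cLt (c x) a (NPA.cT (c x))) ∧
      NPA.cCS (c x) (NPA.cT (c x)) ∧
      (∀ k, k ∈ (omega : M) → ¬ NPA.cA (c x) (NPA.cT (c x)) k) ∧ NPA.Bin (NPA.cS (c x)) ∧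
      ∀ j, j ∈ (omega : M) → ∀ v, v ∈ (omega : M) → NPA.Ent (NPA.cU (c x)) j v →
        ∃ m, m ∈ (omega : M) ∧ ∃ k, k ∈ (omega : M) ∧ v = H78.ZF.pr m k ∧ NPA.cA (c x) m k) := by
    infer_instance
  refine h.congr fun x hx => ?_
  unfold NPA.CTop
  constructor
  · rintro ⟨h1, h2, h3, h4, h5⟩
    exact ⟨h1, h2, h3, h4, fun j _ v _ h6 => h5 j v h6⟩
  · rintro ⟨h1, h2, h3, h4, h5⟩
    exact ⟨h1, h2, h3, h4, fun j v h6 => h5 j (ent_omega' h6).1 v (ent_omega' h6).2 h6⟩

instance Bo.CArith : Bo (fun x => CArith (c x)) := by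
  have := hc.d
  have h : Bo (fun x => NPA.CLin (c x) ∧ NPA.CDec (c x) ∧ NPA.CNum (c x) ∧ NPA.CMem (c x) ∧
      NPA.COrd (c x) ∧ NPA.CStg (c x) ∧ NPA.CSeq (c x)) := by
    infer_instance
  refine h.congr fun x hx => ?_
  rw [CArith_iff]
  exact ⟨fun h1 => h1.2, fun h1 => ⟨hc.mem x hx, h1⟩⟩

/-- Well-foundedness of the order is `Pi^1_1`. -/
theorem S1.not_CWf : S1 (fun x => ¬ CWf (c x)) := by
  have := hc.d
  have h1 := Ct.comp c (fun w : M => NPA.pL w)
  have h : S1 (fun x => ∃ v, v ∈ (RS : M) ∧ ∀ n, n ∈ (omega : M) →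
      NPA.cLt (c x) (H78.ZF.ap v (H78.ZF.succ n)) (H78.ZF.ap v n)) := by
    infer_instance
  refine h.congr fun x hx => ?_
  unfold NPA.CWf
  push Not
  rfl

instance S2.CWf : S2 (fun x => CWf (c x)) := by
  have := hc.d
  exact S2.of_pi _ (S1.not_CWf c)

end

end Pool.Agent.ZFIter.NPA
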