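import Pool.Agent.NPA.Defs5

/-!
# NPA/DDefs: arithmetical forms of the order and of the incompatibility of conditions
-/

universe u

namespace Pool.Agent.ZFIter.NPA

open Pool.Agent.H78.ZF Pool.Agent.ZFIter

variable {M : Type u} [ZFM M] {ι : Type}

/-- `h` is an isomorphism of the order of `d` onto an initial segment of the order of `c`. -/
def Emb (d c h : M) : Prop :=
  (∀ a, a ∈ (omega : M) → ∀ b, b ∈ (omega : M) → (cLt d a b ↔ cLt c (ap h a) (ap h b))) ∧
  ∀ a, a ∈ (omega : M) → ∀ e, e ∈ (omega : M) → cLt c e (ap h a) →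
    ∃ b, b ∈ (omega : M) ∧ e = ap h b

/-- The first parts of `d` and `c` agree below the top of `d`, via `h`. -/
def Agr (d c h : M) : Prop :=
  ∀ a, a ∈ (omega : M) → cLt d a (cT d) → ∀ k, k ∈ (omega : M) → (cA c (ap h a) k ↔ cA d a k)

/-- `(m, k)` is a promise of `c`. -/
def cPrm (c m k : M) : Prop := ∃ j, j ∈ (omega : M) ∧ Ent (cU c) j (pr m k)

/-- The promises of `d` are promises of `c`, via `h`. -/
def SPrm (d c h : M) : Prop :=
  ∀ m, m ∈ (omega : M) → ∀ k, k ∈ (omega : M) → cPrm d m k → cPrm c (ap h m) k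

/-- `t` extends the stem of `c` and respects the promises of `c`. -/
def cSE (c t : M) : Prop :=
  Pfx (cS c) t ∧ ∀ m, m ∈ (omega : M) → ∀ k, k ∈ (omega : M) → cPrm c m k →
    ∀ j, j ∈ (omega : M) → ∀ v, v ∈ (omega : M) → Ent t j v → v ≠ emp →
      (∃ w, w ∈ (omega : M) ∧ Ent (cS c) j w) ∨ ¬ ∃ n, n ∈ (omega : M) ∧ j = cQ c m k n

section
variable (c d h m k t : (ι → M) → M) [DF c] [DF d] [DF h] [DF m] [DF k] [DF t]
instance DR.Emb : DR (fun w => Emb (d w) (c w) (h w)) := by unfold NPA.Emb; infer_instance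
instance DR.Agr : DR (fun w => Agr (d w) (c w) (h w)) := by unfold NPA.Agr; infer_instance
instance DR.cPrm : DR (fun w => cPrm (c w) (m w) (k w)) := by unfold NPA.cPrm; infer_instance
instance DR.SPrm : DR (fun w => SPrm (d w) (c w) (h w)) := by unfold NPA.SPrm; infer_instance
set_option synthInstance.maxSize 100000 in
instance DR.cSE : DR (fun w => cSE (c w) (t w)) := by unfold NPA.cSE; infer_instance
end

end Pool.Agent.ZFIter.NPA
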