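import Pool.Agent.NPA.Defs5

/-!
# Auxiliary definitions for parts F and H
-/

universe u

namespace Pool.Agent.ZFIter.NPA

open Pool.Agent.H78.ZF Pool.Agent.ZFIter

variable {M : Type u} [ZFM M] {ι : Type}

/-- a decreasing sequence of conditions below `q` -/
def Brf (P R q f : M) : Prop :=
  Fun f omega P ∧ Le P R (ap f emp) q ∧
    ∀ n, n ∈ (omega : M) → Le P R (ap f (succ n)) (ap f n)

/-- the sequence `f` of conditions decides the name `N` to be the real `w` -/
def Dcf (f N w : M) : Prop :=
  w ∈ (RS : M) ∧ ∀ n, n ∈ (omega : M) → opair (ap f n) (opair n (ap w n)) ∈ N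

section
variable (P R q f N w : (ι → M) → M) [DF P] [DF R] [DF q] [DF f] [DF N] [DF w]
instance DR.Brf : DR (fun v => Brf (P v) (R v) (q v) (f v)) := by unfold NPA.Brf; infer_instance
instance DR.Dcf : DR (fun v => Dcf (f v) (N v) (w v)) := by unfold NPA.Dcf; infer_instance
end

/-- the components of `u = jn (jn (jn z r) x) (jn (jn c y) N)` -/
noncomputable def ur (u : M) : M := pR (pL (pL u))
noncomputable def ux (u : M) : M := pR (pL u)
noncomputable def uc (u : M) : M := pL (pL (pR u))
noncomputable def uy (u : M) : M := pR (pL (pR u))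
noncomputable def uN (u : M) : M := pR (pR u)

section
variable (u : (ι → M) → M) [DF u]
instance DF.ur : DF (fun v => ur (u v)) := by unfold NPA.ur; infer_instance
instance DF.ux : DF (fun v => ux (u v)) := by unfold NPA.ux; infer_instance
instance DF.uc : DF (fun v => uc (u v)) := by unfold NPA.uc; infer_instance
instance DF.uy : DF (fun v => uy (u v)) := by unfold NPA.uy; infer_instance
instance DF.uN : DF (fun v => uN (u v)) := by unfold NPA.uN; infer_instance
end

/-- the closed matrix, for tuples -/
def UV (C : M → Prop) (u : M) : Prop := UU C (ur u) (ux u) (uc u) (uy u) (uN u)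

instance UV_D1 (C : M → Prop) [D1 C] : D1 (UV C) := by
  have : DR (fun v : Unit → M => UV C (v ())) := by
    unfold UV UU
    infer_instance
  infer_instance

/-- The closed class `K`: `w = jn u v` belongs to it if the first `v 0` values of `u` are incompatible
with the closed matrix, or the sequence `v 1, v 2, ...` is descending in the order of the code. -/
def KK (C : M → Prop) (w : M) : Prop :=
  (∀ u', u' ∈ (RS : M) → sq u' (ap (pR w) emp) = sq (pL w) (ap (pR w) emp) → ¬ UV C u') ∨
  ∀ n, n ∈ (omega : M) → cLt (uc (pL w)) (ap (pR w) (succ (succ n))) (ap (pR w) (succ n))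

instance KK_D1 (C : M → Prop) [D1 C] : D1 (KK C) := by
  have : DR (fun v : Unit → M => KK C (v ())) := by
    unfold KK
    infer_instance
  infer_instance

/-- `C` is a closed class describing the arithmetical part of `Psi`. -/
structure CSpec (C : M → Prop) : Prop where
  df : D1 C
  cl : IsCl C
  spec : ∀ c, c ∈ (RS : M) →
    ((CArith c ∧ CSup c ∧ CTop c) ↔ ∃ y, y ∈ (RS : M) ∧ C (jn c y))

end Pool.Agent.ZFIter.NPA
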