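import Pool.Agent.NPA.DArith
import Pool.Agent.NPA.DDefs
import Pool.Agent.NPA.Defs6

/-!
# NPA/DBor: Borel classes connected with the order of the conditions
-/

universe u

namespace Pool.Agent.ZFIter.NPA

set_option synthInstance.maxSize 100000

open Pool.Agent.H78.ZF Pool.Agent.ZFIter

variable {M : Type u} [ZFM M] [HasAC M]

section
variable (c d h m k t : M → M) [hc : Ct c] [hd : Ct d] [hh : Ct h] [hm : Nt m] [hk : Nt k]
  [ht : Nt t]

instance Bo.Emb : Bo (fun x => Emb (d x) (c x) (h x)) := by
  have := hc.d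
  have := hd.d
  have := hh.d
  unfold NPA.Emb; infer_instance

instance Bo.Agr : Bo (fun x => Agr (d x) (c x) (h x)) := by
  have := hc.d
  have := hd.d
  have := hh.d
  unfold NPA.Agr; infer_instance

instance Bo.cPrm : Bo (fun x => cPrm (c x) (m x) (k x)) := by
  have := hc.d
  have := hm.d
  have := hk.d
  unfold NPA.cPrm; infer_instance

instance Bo.SPrm : Bo (fun x => SPrm (d x) (c x) (h x)) := by
  have := hc.d
  have := hd.d
  have := hh.d
  unfold NPA.SPrm; infer_instance

instance Bo.cSE : Bo (fun x => cSE (c x) (t x)) := by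
  have := hc.d
  have := ht.d
  unfold NPA.cSE; infer_instance

instance S2.IsCond : S2 (fun x => IsCond (c x)) := by
  have := hc.d
  unfold NPA.IsCond Code; infer_instance

end

/-- The order of the conditions, arithmetically in the additional real `h`. -/
def LeH (c d h : M) : Prop :=
  Emb d c h ∧ Agr d c h ∧ SPrm d c h ∧ cSE d (cS c)

/-- Incompatibility, when `h` compares the orders of `d` and `c`. -/
def IncH (c d h : M) : Prop :=
  Emb d c h ∧ (¬ Agr d c h ∨ ¬ (cSE d (cS c) ∨ cSE c (cS d)))

section
variable {ι : Type} (c d h : (ι → M) → M) [DF c] [DF d] [DF h]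
omit [HasAC M]
instance DR.LeH : DR (fun w => LeH (c w) (d w) (h w)) := by unfold NPA.LeH; infer_instance
instance DR.IncH : DR (fun w => IncH (c w) (d w) (h w)) := by unfold NPA.IncH; infer_instance
end

section
variable (c d h : M → M) [hc : Ct c] [hd : Ct d] [hh : Ct h]
instance Bo.LeH : Bo (fun x => LeH (c x) (d x) (h x)) := by
  have := hc.d
  have := hd.d
  have := hh.d
  unfold NPA.LeH; infer_instance

instance Bo.IncH : Bo (fun x => IncH (c x) (d x) (h x)) := by
  have := hc.d
  have := hd.d
  have := hh.d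
  unfold NPA.IncH; infer_instance
end

theorem s2_le : S2 (fun w : M => IsCond (pL w) ∧ IsCond (pR w) ∧
    ∃ h, h ∈ (RS : M) ∧ LeH (pL w) (pR w) h) := by
  infer_instance

theorem s2_inc : S2 (fun w : M => IsCond (pL w) ∧ IsCond (pR w) ∧
    ∃ h, h ∈ (RS : M) ∧ (IncH (pL w) (pR w) h ∨ IncH (pR w) (pL w) h)) := by
  infer_instance

end Pool.Agent.ZFIter.NPA
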