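import Pool.Agent.NPA.ESeq
import Pool.Agent.NPA.CMake
import Pool.Agent.NPA.ACtb

/-!
# NPA/EOrd: the order of the conditions

`RR` is the set of pairs. `stem_ext_trans`: the branches `OnB A δ k` for `(δ, k) ∈ F ⊆ A` are the
same for the end extension (`ext0_bs`). `le_stem`: lengthening the stem by an allowed
sequence. `le_amalg`: two conditions `c, d` with the same stem whose first parts are initial parts of
`(B, η)`: the condition `(B, η, s, cPm c ∪ cPm d)` (`exists_cond`, finite union `fin_un`) extends both.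
-/

universe u

namespace Pool.Agent.ZFIter.NPA

open Pool.Agent.H78.ZF Pool.Agent.ZFIter

variable {M : Type u} [ZFM M] {ι : Type}

theorem isCond_RS {c : M} (h : IsCond c) : c ∈ (RS : M) := h.1.1.real

theorem mem_PP {c : M} : c ∈ (PP : M) ↔ IsCond c := by
  unfold PP
  rw [mem_sep]
  exact ⟨fun h => h.2, fun h => ⟨isCond_RS h, h⟩⟩

theorem le_iff {c d : M} : Le PP RR c d ↔ IsCond c ∧ IsCond d ∧ CLe c d := by
  unfold Le RR
  rw [mem_PP, mem_PP, mem_sep, opair_mem_prod, mem_PP, mem_PP]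
  constructor
  · rintro ⟨hc, hd, _, c', d', e, h⟩
    obtain ⟨rfl, rfl⟩ := opair_inj e
    exact ⟨hc, hd, h⟩
  · rintro ⟨hc, hd, h⟩
    exact ⟨hc, hd, ⟨hc, hd⟩, c, d, rfl, h⟩

private theorem stem_refl {A F s : M} (h : Bin s) : StemExt A F s s :=
  ⟨pfx_refl h, fun _ _ _ v _ he _ => Or.inl ⟨v, he⟩⟩

private theorem ord_cTh {c : M} (h : IsCond c) : Ord (cTh c) := (isCond_spec h).1.1

private theorem cSet_sub {c : M} (h : IsCond c) : cSet c ⊆ prod (cTh c) omega :=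
  (isCond_spec h).1.2.2.2.1

private theorem bin_cS {c : M} (h : IsCond c) : Bin (cS c) := (isCond_spec h).2.1

private theorem cPm_fin {c : M} (h : IsCond c) : FinM (cPm c) := (isCond_spec h).2.2.1

private theorem cPm_sub {c : M} (h : IsCond c) : cPm c ⊆ cSet c := (isCond_spec h).2.2.2

/-- the first coordinates of promises -/
private theorem promise_lt {c δ k : M} (h : IsCond c) (hp : opair δ k ∈ cPm c) : δ ∈ cTh c := by
  have := cSet_sub h _ (cPm_sub h _ hp)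
  rw [opair_mem_prod] at this
  exact this.1

theorem cle_refl {c : M} (h : IsCond c) : CLe c c :=
  ⟨ext0_refl _ _, sub_refl _, stem_refl (bin_cS h)⟩

theorem cle_trans {c d e : M} (hc : IsCond c) (hd : IsCond d) (he : IsCond e) (h : CLe c d)
    (h' : CLe d e) : CLe c e := by
  refine ⟨ext0_trans h.1 h'.1, sub_trans h'.2.1 h.2.1, pfx_trans h'.2.2.1 h.2.2.1, ?_⟩
  intro δ k j v hp hv hne
  have hb : bs (cSet d) δ k = bs (cSet e) δ k :=
    ext0_bs (ord_cTh he) h'.1 δ (by rw [mem_succ]; exact Or.inl (promise_lt he hp)) k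
  rcases h.2.2.2 δ k j v (h'.2.1 _ hp) hv hne with ⟨w, hw⟩ | h1
  · have hwv : v = w := ent_uniq hv (pfx_ent h.2.2.1 hw)
    subst hwv
    exact h'.2.2.2 δ k j v hp hw hne
  · right
    intro h2
    apply h1
    unfold OnB at h2 ⊢
    rw [hb]
    exact h2

theorem le_refl' {c : M} (h : c ∈ (PP : M)) : Le PP RR c c :=
  le_iff.2 ⟨mem_PP.1 h, mem_PP.1 h, cle_refl (mem_PP.1 h)⟩

theorem le_trans' {c d e : M} (h : Le PP RR c d) (h' : Le PP RR d e) : Le PP RR c e := by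
  obtain ⟨hc, hd, h1⟩ := le_iff.1 h
  obtain ⟨_, he, h2⟩ := le_iff.1 h'
  exact le_iff.2 ⟨hc, he, cle_trans hc hd he h1 h2⟩

/-- the general amalgamation -/
private theorem amalg {c d B η s ρ : M} (hc : IsCond c) (hd : IsCond d) (hB : Cond0 B η)
    (h : Ext0 B η (cSet c) (cTh c)) (h' : Ext0 B η (cSet d) (cTh d)) (hs : Bin s)
    (hsc : StemExt (cSet c) (cPm c) (cS c) s) (hsd : StemExt (cSet d) (cPm d) (cS d) s)
    (hρ : ρ ∈ succ η) :
    ∃ e, IsCond e ∧ cSet e = B ∧ cTh e = η ∧ cS e = s ∧ cPm e = un (cPm c) (cPm d) ∧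
      rk e (cJ e) = ρ ∧ Le PP RR e c ∧ Le PP RR e d := by
  have hF : Promise B (un (cPm c) (cPm d)) := by
    refine ⟨fin_un (cPm_fin hc) (cPm_fin hd), ?_⟩
    intro z hz
    rw [mem_un] at hz
    rcases hz with hz | hz
    · exact ext0_sub (cSet_sub hc) h z (cPm_sub hc z hz)
    · exact ext0_sub (cSet_sub hd) h' z (cPm_sub hd z hz)
  obtain ⟨e, he, h1, h2, h3, h4, h5⟩ := exists_cond hB hs hF hρ
  refine ⟨e, he, h1, h2, h3, h4, h5, le_iff.2 ⟨he, hc, ?_⟩, le_iff.2 ⟨he, hd, ?_⟩⟩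
  · unfold CLe
    rw [h1, h2, h3, h4]
    exact ⟨h, sub_un_left _ _, hsc⟩
  · unfold CLe
    rw [h1, h2, h3, h4]
    exact ⟨h', sub_un_right _ _, hsd⟩

/-- amalgamation over an end extension of the first parts -/
theorem le_amalg {c d B η : M} (hc : IsCond c) (hd : IsCond d) (hB : Cond0 B η)
    (h : Ext0 B η (cSet c) (cTh c)) (h' : Ext0 B η (cSet d) (cTh d)) (hs : cS c = cS d) :
    ∃ e, IsCond e ∧ cSet e = B ∧ cTh e = η ∧ cS e = cS c ∧ cPm e = un (cPm c) (cPm d) ∧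
      Le PP RR e c ∧ Le PP RR e d := by
  obtain ⟨e, h1, h2, h3, h4, h5, _, h6, h7⟩ := amalg (s := cS c) (ρ := η) hc hd hB h h' (bin_cS hc)
    (stem_refl (bin_cS hc)) (by rw [hs]; exact stem_refl (bin_cS hd)) (by simp)
  exact ⟨e, h1, h2, h3, h4, h5, h6, h7⟩

/-- changing the stem: if `s` lies between the stems of `d` and of an extension `e` of `d`, then
`d` with the stem `s` is a condition between -/
theorem le_stem {d e s : M} (h : Le PP RR e d) (h1 : Pfx (cS d) s) (h2 : Pfx s (cS e)) :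
    ∃ d', IsCond d' ∧ cSet d' = cSet d ∧ cTh d' = cTh d ∧ cS d' = s ∧ cPm d' = cPm d ∧
      Le PP RR d' d := by
  obtain ⟨he, hd, hle⟩ := le_iff.1 h
  have hs : Bin s := by
    obtain ⟨x, hx, n, hn, m, hm, hmn, rfl, h3⟩ := h2
    obtain ⟨x', hx', n', hn', h4, h5⟩ := bin_cS he
    obtain ⟨rfl, h6⟩ := sq_inj hx hx' hn hn' (h3.symm.trans h4)
    exact ⟨x, hx, m, hm, rfl, fun j hj => by rw [h6 j (hmn j hj)]; exact h5 j (hmn j hj)⟩
  obtain ⟨d', hd', e1, e2, e3, e4, _⟩ := exists_cond (ρ := cTh d) (isCond_spec hd).1 hs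
    (isCond_spec hd).2.2 (by simp)
  refine ⟨d', hd', e1, e2, e3, e4, le_iff.2 ⟨hd', hd, ?_⟩⟩
  unfold CLe
  rw [e1, e2, e3, e4]
  exact ⟨ext0_refl _ _, sub_refl _, h1, fun δ k j v hp hv hne =>
    hle.2.2.2 δ k j v hp (pfx_ent h2 hv) hne⟩

/-- strengthening the first part -/
theorem le_first {c B η ρ : M} (hc : IsCond c) (hB : Cond0 B η) (h : Ext0 B η (cSet c) (cTh c))
    (hρ : ρ ∈ succ η) :
    ∃ e, IsCond e ∧ cSet e = B ∧ cTh e = η ∧ cS e = cS c ∧ cPm e = cPm c ∧ rk e (cJ e) = ρ ∧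
      Le PP RR e c := by
  have hF : Promise B (cPm c) := ⟨cPm_fin hc, fun z hz => ext0_sub (cSet_sub hc) h z (cPm_sub hc z hz)⟩
  obtain ⟨e, he, h1, h2, h3, h4, h5⟩ := exists_cond hB (bin_cS hc) hF hρ
  refine ⟨e, he, h1, h2, h3, h4, h5, le_iff.2 ⟨he, hc, ?_⟩⟩
  unfold CLe
  rw [h1, h2, h3, h4]
  exact ⟨h, sub_refl _, stem_refl (bin_cS hc)⟩

/-- incompatibility of two conditions, described by the first parts, stems and promises -/
theorem compat_iff {c d : M} (hc : IsCond c) (hd : IsCond d) :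
    (∃ e, Le PP RR e c ∧ Le PP RR e d) ↔
      (Ext0 (cSet c) (cTh c) (cSet d) (cTh d) ∨ Ext0 (cSet d) (cTh d) (cSet c) (cTh c)) ∧
      (StemExt (cSet d) (cPm d) (cS d) (cS c) ∨ StemExt (cSet c) (cPm c) (cS c) (cS d)) := by
  constructor
  · rintro ⟨e, h1, h2⟩
    obtain ⟨he, _, h1⟩ := le_iff.1 h1
    obtain ⟨_, _, h2⟩ := le_iff.1 h2
    refine ⟨(ext0_comp (ord_cTh hc) (ord_cTh hd) h1.1 h2.1).symm, ?_⟩
    rcases pfx_comp h1.2.2.1 h2.2.2.1 with h3 | h3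
    · right
      exact ⟨h3, fun δ k j v hp hv hne => h1.2.2.2 δ k j v hp (pfx_ent h2.2.2.1 hv) hne⟩
    · left
      exact ⟨h3, fun δ k j v hp hv hne => h2.2.2.2 δ k j v hp (pfx_ent h1.2.2.1 hv) hne⟩
  · rintro ⟨h1, h2⟩
    obtain ⟨B, η, hB, hBc, hBd⟩ : ∃ B η, Cond0 B η ∧ Ext0 B η (cSet c) (cTh c) ∧
        Ext0 B η (cSet d) (cTh d) := by
      rcases h1 with h1 | h1
      · exact ⟨_, _, (isCond_spec hc).1, ext0_refl _ _, h1⟩
      · exact ⟨_, _, (isCond_spec hd).1, h1, ext0_refl _ _⟩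
    obtain ⟨s, hs, hsc, hsd⟩ : ∃ s, Bin s ∧ StemExt (cSet c) (cPm c) (cS c) s ∧
        StemExt (cSet d) (cPm d) (cS d) s := by
      rcases h2 with h2 | h2
      · exact ⟨_, bin_cS hc, stem_refl (bin_cS hc), h2⟩
      · exact ⟨_, bin_cS hd, h2, stem_refl (bin_cS hd)⟩
    obtain ⟨e, _, _, _, _, _, _, h6, h7⟩ := amalg (ρ := η) hc hd hB hBc hBd hs hsc hsd (by simp)
    exact ⟨e, h6, h7⟩

end Pool.Agent.ZFIter.NPA
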