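import Pool.Agent.NPA.DDefs
import Pool.Agent.NPA.EOrd

/-!
# NPA/DEmb: comparison of the orders of two conditions

`emb_rk`: `rk_uniq` for the order of `d` and `F m = rk c (ap h m)`. `exists_emb`: `h m` = the number
`n` with `rk c n = rk d m` (`rk_range`, `rk_inj`). `ext0_emb`, `prm_emb`: use `mem_cSet`, `mem_cPm`,
`rk_surj`, `rk_lt_iff`, `code_A`.
-/

universe u

namespace Pool.Agent.ZFIter.NPA

open Pool.Agent.H78.ZF Pool.Agent.ZFIter

variable {M : Type u} [ZFM M] {ι : Type}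

private theorem cTm {c : M} (hc : IsCond c) : cT c ∈ (omega : M) := by
  unfold cT
  exact RS_ap' hc.1.1.real _

theorem emb_rk {c d h : M} (hc : IsCond c) (hd : IsCond d) (hh : h ∈ (RS : M)) (he : Emb d c h) :
    ∀ m, m ∈ (omega : M) → rk d m = rk c (ap h m) := by
  apply rk_uniq hd.1 (fun m => rk c (ap h m))
  intro m hm γ
  constructor
  · intro hγ
    obtain ⟨n', hn', h1, h2⟩ := rk_surj hc.1 (RS_ap hh hm) hγ
    obtain ⟨b, hb, rfl⟩ := he.2 m hm n' hn' h1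
    exact ⟨b, hb, (he.1 b hb m hm).2 h1, h2.symm⟩
  · rintro ⟨n, hn, h1, rfl⟩
    exact (rk_lt_iff hc.1 (RS_ap hh hn) (RS_ap hh hm)).2 ((he.1 n hn m hm).1 h1)

theorem emb_sub {c d h : M} (hc : IsCond c) (hd : IsCond d) (hh : h ∈ (RS : M)) (he : Emb d c h) :
    cTh d ⊆ cTh c := by
  have hT := cTm hd
  have h1 : rk c (ap h (cT d)) ∈ succ (cTh c) := (rk_range hc).1 ⟨_, RS_ap hh hT, rfl⟩
  rw [← emb_rk hc hd hh he _ hT, mem_succ] at h1
  have h2 : Ord (cTh c) := (isCond_spec hc).1.1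
  rcases h1 with h1 | h1
  · exact h2.1 _ h1
  · unfold cTh at h1 ⊢
    rw [h1]
    exact sub_refl _

/-- the embedding -/
private noncomputable def embF (c d m : M) : M := iota (fun n => n ∈ (omega : M) ∧ rk c n = rk d m)

private instance embF_F1 (c d : M) : F1 (embF c d) := by
  have : DF (fun w : Unit → M => embF c d (w ())) := by
    unfold embF; infer_instance
  infer_instance

theorem exists_emb {c d : M} (hc : IsCond c) (hd : IsCond d) (h : cTh d ⊆ cTh c) :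
    ∃ h, h ∈ (RS : M) ∧ Emb d c h := by
  have hoc : Ord (cTh c) := (isCond_spec hc).1.1
  have hod : Ord (cTh d) := (isCond_spec hd).1.1
  have key : ∀ m, m ∈ (omega : M) → embF c d m ∈ (omega : M) ∧ rk c (embF c d m) = rk d m := by
    intro m hm
    have h1 : rk d m ∈ succ (cTh d) := (rk_range hd).1 ⟨m, hm, rfl⟩
    have h2 : rk d m ∈ succ (cTh c) := by
      rw [mem_succ] at h1 ⊢
      rcases h1 with h1 | h1
      · exact Or.inl (h _ h1)
      · rw [h1]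
        exact (ord_sub_iff hod hoc).1 h
    obtain ⟨n, hn, e⟩ := (rk_range hc).2 h2
    have h3 : ∃! n, n ∈ (omega : M) ∧ rk c n = rk d m :=
      ⟨n, ⟨hn, e⟩, fun n' hn' => rk_inj hc.1 hn'.1 hn (hn'.2.trans e.symm)⟩
    exact iota_spec h3
  have hm' : ∀ m, m ∈ (omega : M) → embF c d m ∈ (omega : M) := fun m hm => (key m hm).1
  refine ⟨mkf omega omega (embF c d), mem_RS.2 (mkf_fun hm'), ?_, ?_⟩
  · intro a ha b hb
    rw [ap_mkf hm' ha, ap_mkf hm' hb, ← rk_lt_iff hd.1 ha hb,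
      ← rk_lt_iff hc.1 (hm' a ha) (hm' b hb), (key a ha).2, (key b hb).2]
  · intro a ha e he h1
    rw [ap_mkf hm' ha] at h1
    have h2 := (rk_lt_iff hc.1 he (hm' a ha)).2 h1
    rw [(key a ha).2] at h2
    obtain ⟨b, hb, -, h3⟩ := rk_surj hd.1 ha h2
    refine ⟨b, hb, ?_⟩
    rw [ap_mkf hm' hb]
    apply rk_inj hc.1 he (hm' b hb)
    rw [(key b hb).2, h3]

private theorem cSet_om {c δ k : M} (hc : IsCond c) (h : opair δ k ∈ cSet c) : k ∈ (omega : M) := by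
  obtain ⟨m, hm, k', hk', e, -⟩ := (mem_cSet hc.1).1 h
  rw [(opair_inj e).2]
  exact hk'

theorem ext0_emb {c d h : M} (hc : IsCond c) (hd : IsCond d) (hh : h ∈ (RS : M)) (he : Emb d c h) :
    Ext0 (cSet c) (cTh c) (cSet d) (cTh d) ↔ Agr d c h := by
  have hT := cTm hd
  constructor
  · intro hE a ha h1 k hk
    have h2 : rk d a ∈ cTh d := (rk_lt_iff hd.1 ha hT).2 h1
    have h3 := hE.2 (rk d a) k h2
    rw [code_A hd.1 ha hk, emb_rk hc hd hh he a ha, code_A hc.1 (RS_ap hh ha) hk] at h3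
    exact h3
  · intro hA
    refine ⟨emb_sub hc hd hh he, fun δ k hδ => ?_⟩
    obtain ⟨n, hn, h1, rfl⟩ := rk_surj hd.1 hT hδ
    have key : k ∈ (omega : M) → (opair (rk d n) k ∈ cSet c ↔ opair (rk d n) k ∈ cSet d) := by
      intro hk
      rw [code_A hd.1 hn hk, emb_rk hc hd hh he n hn, code_A hc.1 (RS_ap hh hn) hk]
      exact hA n hn h1 k hk
    exact ⟨fun h2 => (key (cSet_om hc h2)).1 h2, fun h2 => (key (cSet_om hd h2)).2 h2⟩

/-- the disjunction as in `compat_iff` -/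
theorem ext0_emb' {c d h : M} (hc : IsCond c) (hd : IsCond d) (hh : h ∈ (RS : M)) (he : Emb d c h) :
    (Ext0 (cSet c) (cTh c) (cSet d) (cTh d) ∨ Ext0 (cSet d) (cTh d) (cSet c) (cTh c)) ↔
      Agr d c h := by
  have hs := emb_sub hc hd hh he
  constructor
  · rintro (h1 | h1)
    · exact (ext0_emb hc hd hh he).1 h1
    · exact (ext0_emb hc hd hh he).1 ⟨hs, fun δ k hδ => (h1.2 δ k (hs _ hδ)).symm⟩
  · intro h1
    exact Or.inl ((ext0_emb hc hd hh he).2 h1)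

theorem prm_emb {c d h : M} (hc : IsCond c) (hd : IsCond d) (hh : h ∈ (RS : M)) (he : Emb d c h) :
    cPm d ⊆ cPm c ↔ SPrm d c h := by
  constructor
  · rintro hs m hm k hk ⟨j, -, hj⟩
    have h1 : opair (rk d m) k ∈ cPm d := (mem_cPm hd).2 ⟨m, hm, k, hk, rfl, j, hj⟩
    obtain ⟨m', hm', k', hk', e, j', hj'⟩ := (mem_cPm hc).1 (hs _ h1)
    obtain ⟨e1, rfl⟩ := opair_inj e
    rw [emb_rk hc hd hh he m hm] at e1
    have e2 := rk_inj hc.1 (RS_ap hh hm) hm' e1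
    subst e2
    refine ⟨j', ?_, hj'⟩
    obtain ⟨x, hx, n, hn, -, hjn, -⟩ := hj'
    exact mem_omega_of_mem hjn hn
  · intro hS z hz
    obtain ⟨m, hm, k, hk, rfl, j, hj⟩ := (mem_cPm hd).1 hz
    have hjω : j ∈ (omega : M) := by
      obtain ⟨x, hx, n, hn, -, hjn, -⟩ := hj
      exact mem_omega_of_mem hjn hn
    obtain ⟨j', -, hj'⟩ := hS m hm k hk ⟨j, hjω, hj⟩
    exact (mem_cPm hc).2 ⟨ap h m, RS_ap hh hm, k, hk, by rw [emb_rk hc hd hh he m hm], j', hj'⟩

end Pool.Agent.ZFIter.NPA
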