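import Pool.Agent.NPA.DTool

/-!
# NPA/DMono: determinacy of `Pi^1_k` games for `k ≥ 2` implies `Pi^1_2`-determinacy
-/

universe u

namespace Pool.Agent.ZFIter.NPA

open Pool.Agent.H78.ZF Pool.Agent.ZFIter

variable {M : Type u} [ZFM M]

theorem pi_lift : ∀ (m : ℕ) {o : M}, o ∈ (RS : M) → ∃ o', o' ∈ (RS : M) ∧
    ∀ x, x ∈ (RS : M) → (Pi RS m o x ↔ Pi RS (m + 1) o' x)
  | 0, o, ho => by
    have hc : IsCl (fun w : M => ap o (sq (pL w) (ap (pR w) emp)) = emp) := by
      refine IsCl.dep (Q := fun k w => ap o (sq (pL w) k) = emp) (fun w => pR w) emp_mem_omega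
        fun k hk => ?_
      intro x hx h
      obtain ⟨m, hm, hm'⟩ := Ct.unif (fun w : M => pL w) hx k hk
      obtain ⟨y, hy, h1, h2⟩ := h m hm
      have h3 : sq (pL y) k = sq (pL x) k := sq_congr hk (hm' y hy ((sq_eq_iff hx hy hm).1 h2))
      rw [← h3]
      exact h1
    obtain ⟨o', ho', h'⟩ := isCl_code _ hc
    refine ⟨o', ho', fun x hx => ?_⟩
    rw [pi_zero_iff, pi_succ_iff]
    constructor
    · intro h y hy h1
      have h2 := (h' _ (jn_mem hx hy)).2 h1
      rw [pL_jn hx hy, pR_jn hx hy] at h2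
      exact h _ (RS_ap' hy _) h2
    · intro h n hn h1
      obtain ⟨y, hy, e, _⟩ := exists_cons hn hx
      refine h y hy ((h' _ (jn_mem hx hy)).1 ?_)
      rw [pL_jn hx hy, pR_jn hx hy, e]
      exact h1
  | m + 1, o, ho => by
    obtain ⟨o', ho', h'⟩ := pi_lift m ho
    refine ⟨o', ho', fun x hx => ?_⟩
    rw [pi_succ_iff, pi_succ_iff]
    constructor
    · intro h y hy h1
      exact h y hy ((h' _ (jn_mem hx hy)).2 h1)
    · intro h y hy h1
      exact h y hy ((h' _ (jn_mem hx hy)).1 h1)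

theorem det_step {m : ℕ} (h : Det (RS : M) (m + 1)) : Det (RS : M) m := by
  intro o ho
  obtain ⟨o', ho', h'⟩ := pi_lift m ho
  rcases h o' ho' with ⟨s, hs, hw⟩ | ⟨t, ht, hw⟩
  · left
    exact ⟨s, hs, fun x hx hf => (h' x hx).2 (hw x hx hf)⟩
  · right
    exact ⟨t, ht, fun x hx hf h1 => hw x hx hf ((h' x hx).1 h1)⟩

theorem det_mono {k : ℕ} (hk : 2 ≤ k) (h : Det (RS : M) k) : Det (RS : M) 2 := by
  induction k, hk using Nat.le_induction with
  | base => exact h
  | succ n _ ih => exact ih (det_step h)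

end Pool.Agent.ZFIter.NPA
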