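import Pool.Agent.NPA.DDefs
import Pool.Agent.NPA.EOrd

/-!
# NPA/DStem: the relation `StemExt` in terms of codes

`mem_cPm`, `code_Q`; entries and their indices are natural numbers.
-/

universe u

namespace Pool.Agent.ZFIter.NPA

open Pool.Agent.H78.ZF Pool.Agent.ZFIter

variable {M : Type u} [ZFM M] {ι : Type}

/-- indices and entries are numbers -/
theorem ent_omega {s j v : M} (h : Ent s j v) : j ∈ (omega : M) ∧ v ∈ (omega : M) := by
  obtain ⟨x, hx, n, hn, -, hj, rfl⟩ := h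
  have hj' : j ∈ (omega : M) := mem_omega_of_mem hj hn
  exact ⟨hj', RS_ap hx hj'⟩

theorem stemExt_iff {c t : M} (hc : IsCond c) :
    StemExt (cSet c) (cPm c) (cS c) t ↔ cSE c t := by
  unfold StemExt cSE
  refine and_congr_right fun _ => ?_
  constructor
  · intro h m hm k hk hp j hj v hv he hne
    obtain ⟨i, hi, hi'⟩ := hp
    have h1 : opair (rk c m) k ∈ cPm c := (mem_cPm hc).2 ⟨m, hm, k, hk, rfl, i, hi'⟩
    rcases h _ _ j v h1 he hne with ⟨w, hw⟩ | h2
    · exact Or.inl ⟨w, (ent_omega hw).2, hw⟩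
    · right
      rintro ⟨n, hn, rfl⟩
      exact h2 ⟨n, hn, code_Q hc.1 hm hk hn⟩
  · intro h δ k j v hp he hne
    obtain ⟨m, hm, k', hk', e, i, hi⟩ := (mem_cPm hc).1 hp
    obtain ⟨rfl, rfl⟩ := opair_inj e
    rcases h m hm k hk' ⟨i, (ent_omega hi).1, hi⟩ j (ent_omega he).1 v (ent_omega he).2 he hne with
      ⟨w, _, hw⟩ | h2
    · exact Or.inl ⟨w, hw⟩
    · right
      rintro ⟨n, hn, rfl⟩
      exact h2 ⟨n, hn, (code_Q hc.1 hm hk' hn).symm⟩

end Pool.Agent.ZFIter.NPA
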