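import Pool.Agent.NPA.CCond
import Pool.Agent.NPA.BAC
import Pool.Agent.NPA.EOrd

/-!
# NPA/EExt: extending a condition of the first part, and the first condition

`exists_CS`: if `A ⊆ λ × omega`, `λ` countable, and some `s ⊆ omega` in `L[A]` is different from all
`hF A δ`, `δ < λ'`, then the least index of `s` (or of the least-indexed such set) is a coding stage
`≥ λ'`; it is countable by `cond_real`.
`ext_step`: let `B = A ∪ {(θ, pr 0 (pr i (y i)))} ∪ {(θ, pr 1 (pr n k)) : k ∈ s_n}` where `s_n`, `n ∈ omega`,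
enumerates all subsets of `omega` among the `hF A δ`, `δ ≤ θ` (countably many, `ctb_enum`). Then
`hF B δ = hF A δ` for `δ ≤ θ`. The diagonal set `d = {n ∈ omega : (θ, pr 1 (pr n n)) ∉ B}` is in
`L[B]` (`inL_sep` with `a = omega` and the property defined in the model `Sub (InL B)` from `B`
(`inL_self'`), `θ` and `pr`; absoluteness `abs_opair, abs_pr`) and different from all `s_n`.
So there is a countable coding stage `η > θ` for `B`; check `Cond0 B η`.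
`exists_Cond0`: `A = ∅`: `L[∅]` has a subset of `omega` which is not `hF ∅ δ`, `δ < omega`: inside
`Sub (InL ∅)`, `n ↦ hF ∅ n` (`abs_hF`) is a function on `omega`, diagonalize; take the least coding
stage `≥ omega`, countable by `cond_real`.
-/

universe u

namespace Pool.Agent.ZFIter.NPA

open Pool.Agent.H78.ZF Pool.Agent.ZFIter

variable {M : Type u} [ZFM M] {ι : Type}

theorem exists_CS (hAC : AC M) {A l l' s : M} (hl : Ord l) (hc : Ctb l) (hA : A ⊆ prod l omega)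
    (hl' : Ord l') (hs : s ⊆ omega) (h : InL A s) (hne : ∀ δ, δ ∈ l' → hF A δ ≠ s) :
    ∃ θ, Ord θ ∧ l' ⊆ θ ∧ Ctb θ ∧ CS A θ := by
  obtain ⟨α, hα, hαc, hαs⟩ := cond_real hAC hl hc hA hs h
  obtain ⟨θ, hθ, h1, h2⟩ := exists_leastO (fun β => hF A β = s) ⟨α, hα, hαs⟩
  refine ⟨θ, hθ, ?_, ?_, ?_⟩
  · rcases ord_le_or_lt hl' hθ with h3 | h3
    · exact h3
    · exact absurd h1 (hne θ h3)
  · apply ctb_sub hαc
    rcases ord_le_or_lt hθ hα with h3 | h3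
    · exact h3
    · exact absurd hαs (h2 α h3)
  · refine ⟨by rw [h1]; exact hs, fun β hβ e => h2 β hβ ?_⟩
    rw [e, h1]

/-- The set of the new points at `θ`. -/
private theorem exists_pts (θ y e : M) (A : M) : ∃ C : M, ∀ z, z ∈ C ↔ z ∈ prod (sing θ) omega ∧
    ((∃ i, i ∈ (omega : M) ∧ z = opair θ (pr emp (pr i (ap y i)))) ∨
      (∃ n, n ∈ (omega : M) ∧ ∃ k, k ∈ (omega : M) ∧ z = opair θ (pr (num 1) (pr n k)) ∧
        k ∈ hF A (ap e n))) := by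
  refine ⟨sep (prod (sing θ) omega) (fun z =>
    (∃ i, i ∈ (omega : M) ∧ z = opair θ (pr emp (pr i (ap y i)))) ∨
      (∃ n, n ∈ (omega : M) ∧ ∃ k, k ∈ (omega : M) ∧ z = opair θ (pr (num 1) (pr n k)) ∧
        k ∈ hF A (ap e n))), fun z => ?_⟩
  rw [mem_sep]

/-- The diagonal set is constructible. -/
private theorem inL_diag {B θ : M} (hθ : Ord θ) (hB : B ⊆ prod (succ θ) omega) :
    InL B (sep omega (fun n => opair θ (pr (num 1) (pr n n)) ∉ B)) := by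
  have hB' := inL_self' hθ.succ hB
  have hθ' : InL B θ := Inner.ord (K := InL B) θ hθ
  obtain ⟨B', hB''⟩ : ∃ B' : Sub (InL B), B'.1 = B := ⟨⟨B, hB'⟩, rfl⟩
  obtain ⟨θ', hθ''⟩ : ∃ θ' : Sub (InL B), θ'.1 = θ := ⟨⟨θ, hθ'⟩, rfl⟩
  have key : ∀ z : Sub (InL B), (opair θ' (pr (num 1) (pr z z)) ∉ B' ↔
      opair θ (pr (num 1) (pr z.1 z.1)) ∉ B) := by
    intro z
    rw [sub_mem, abs_opair, abs_pr, abs_pr, abs_num, hθ'', hB'']
  apply inL_sep (omega : Sub (InL B)) (fun n => opair θ' (pr (num 1) (pr n n)) ∉ B')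
  intro x
  rw [mem_sep, abs_omega]
  refine and_congr_right fun hx => ?_
  have hx' : InL B x := Inner.ord (K := InL B) x (ord_nat hx)
  exact ⟨fun h => ⟨hx', (key ⟨x, hx'⟩).2 h⟩, fun ⟨h1, h⟩ => (key ⟨x, h1⟩).1 h⟩

theorem ext_step (hAC : AC M) {A θ y : M} (h : Cond0 A θ) (hy : y ∈ (RS : M)) :
    ∃ B η, Cond0 B η ∧ Ext0 B η A θ ∧ θ ∈ η ∧ BlkR B θ y := by
  obtain ⟨hθ, hω, hctb, hA, hCS, hsup⟩ := h
  have h1ω : (num 1 : M) ∈ (omega : M) := num_mem 1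
  have h10 : (emp : M) ≠ num 1 := num_ne (M := M) (j := 0) (k := 1) (by norm_num)
  have hθs : θ ∈ succ θ := by rw [mem_succ]; exact Or.inr rfl
  obtain ⟨e, he, hesurj⟩ := ctb_enum (ctb_succ hctb) (ne_emp_iff.2 ⟨θ, hθs⟩)
  obtain ⟨C, hC⟩ := exists_pts θ y e A
  have hmemB : ∀ z, z ∈ un A C ↔ z ∈ A ∨ z ∈ C := fun z => by rw [mem_un]
  obtain ⟨B, hB⟩ : ∃ B, B = un A C := ⟨_, rfl⟩
  rw [← hB] at hmemB
  have hθA : ∀ k, opair θ k ∉ A := by
    intro k hk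
    have := hA _ hk
    rw [opair_mem_prod] at this
    exact not_mem_self _ this.1
  have hBsub : B ⊆ prod (succ θ) omega := by
    intro z hz
    rcases (hmemB z).1 hz with h1 | h1
    · obtain ⟨d, hd, k, hk, rfl⟩ := (mem_prod _ _ _).1 (hA z h1)
      rw [opair_mem_prod]
      exact ⟨by rw [mem_succ]; exact Or.inl hd, hk⟩
    · obtain ⟨d, hd, k, hk, rfl⟩ := (mem_prod _ _ _).1 ((hC z).1 h1).1
      rw [opair_mem_prod]
      rw [mem_sing] at hd
      exact ⟨by rw [mem_succ]; exact Or.inr hd, hk⟩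
  have hBA : ∀ δ k, δ ∈ θ → (opair δ k ∈ B ↔ opair δ k ∈ A) := by
    intro δ k hδ
    rw [hmemB]
    constructor
    · rintro (h1 | h1)
      · exact h1
      · have h2 := ((hC _).1 h1).1
        rw [opair_mem_prod, mem_sing] at h2
        rw [h2.1] at hδ
        exact absurd hδ (not_mem_self _)
    · exact Or.inl
  have hBθ : ∀ k, opair θ k ∈ B ↔ k ∈ (omega : M) ∧
      ((∃ i, i ∈ (omega : M) ∧ k = pr emp (pr i (ap y i))) ∨
      (∃ n, n ∈ (omega : M) ∧ ∃ k', k' ∈ (omega : M) ∧ k = pr (num 1) (pr n k') ∧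
        k' ∈ hF A (ap e n))) := by
    intro k
    rw [hmemB, hC, opair_mem_prod, mem_sing]
    constructor
    · rintro (h1 | ⟨⟨_, h1⟩, h2⟩)
      · exact absurd h1 (hθA k)
      · refine ⟨h1, ?_⟩
        rcases h2 with ⟨i, hi, h2⟩ | ⟨n, hn, k', hk', h2, h3⟩
        · exact Or.inl ⟨i, hi, (opair_inj h2).2⟩
        · exact Or.inr ⟨n, hn, k', hk', (opair_inj h2).2, h3⟩
    · rintro ⟨h1, h2⟩
      refine Or.inr ⟨⟨rfl, h1⟩, ?_⟩
      rcases h2 with ⟨i, hi, h2⟩ | ⟨n, hn, k', hk', h2, h3⟩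
      · exact Or.inl ⟨i, hi, by rw [h2]⟩
      · exact Or.inr ⟨n, hn, k', hk', by rw [h2], h3⟩
  have hext0 : Ext0 B θ A θ := ⟨sub_refl _, hBA⟩
  have hhF : ∀ δ, δ ∈ succ θ → hF B δ = hF A δ := ext0_hF hθ hext0
  have hhCS : ∀ δ, δ ∈ succ θ → (CS B δ ↔ CS A δ) := ext0_CS hθ hext0
  have hdL := inL_diag hθ hBsub
  have hdne : ∀ δ, δ ∈ succ θ → hF B δ ≠ sep omega (fun n => opair θ (pr (num 1) (pr n n)) ∉ B) := by
    intro δ hδ e1
    obtain ⟨n, hn, hen⟩ := hesurj δ hδ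
    have h2 : n ∈ hF B δ ↔ n ∈ sep omega (fun n => opair θ (pr (num 1) (pr n n)) ∉ B) := by
      rw [e1]
    rw [mem_sep, hBθ, hhF δ hδ] at h2
    have hk : pr (num 1 : M) (pr n n) ∈ (omega : M) := pr_mem h1ω (pr_mem hn hn)
    by_cases h3 : n ∈ hF A δ
    · exact (h2.1 h3).2 ⟨hk, Or.inr ⟨n, hn, n, hn, rfl, by rw [hen]; exact h3⟩⟩
    · apply h3
      rw [h2]
      refine ⟨hn, ?_⟩
      rintro ⟨_, ⟨i, hi, h4⟩ | ⟨n', hn', k', hk', h4, h5⟩⟩
      · have := (pr_inj h1ω (pr_mem hn hn) emp_mem_omega (pr_mem hi (RS_ap hy hi)) h4).1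
        exact h10 this.symm
      · have h6 := (pr_inj h1ω (pr_mem hn hn) h1ω (pr_mem hn' hk') h4).2
        obtain ⟨h7, h8⟩ := pr_inj hn hn hn' hk' h6
        rw [← h7, ← h8, hen] at h5
        exact h3 h5
  obtain ⟨η, hη, h1, h2, h3⟩ := exists_CS hAC hθ.succ (ctb_succ hctb) hBsub hθ.succ
    (fun z hz => ((mem_sep _ _ _).1 hz).1) hdL hdne
  have hθη : θ ∈ η := h1 θ hθs
  refine ⟨B, η, ⟨hη, fun z hz => h1 z (by rw [mem_succ]; exact Or.inl (hω z hz)), h2, ?_, h3, ?_⟩,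
    ⟨hη.1 θ hθη, hBA⟩, hθη, ?_⟩
  · intro z hz
    obtain ⟨d, hd, k, hk, rfl⟩ := (mem_prod _ _ _).1 (hBsub z hz)
    rw [opair_mem_prod]
    exact ⟨h1 d hd, hk⟩
  · intro δ k hδk
    have hd : δ ∈ succ θ := by
      have := hBsub _ hδk
      rw [opair_mem_prod] at this
      exact this.1
    rw [hhCS δ hd]
    rw [mem_succ] at hd
    rcases hd with hd | rfl
    · exact hsup δ k ((hBA δ k hd).1 hδk)
    · exact hCS
  · intro i hi v hv
    rw [hBθ]
    constructor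
    · rintro ⟨_, ⟨i', hi', h4⟩ | ⟨n', hn', k', hk', h4, h5⟩⟩
      · have h6 := (pr_inj emp_mem_omega (pr_mem hi hv) emp_mem_omega
          (pr_mem hi' (RS_ap hy hi')) h4).2
        obtain ⟨h7, h8⟩ := pr_inj hi hv hi' (RS_ap hy hi') h6
        rw [h7, h8]
      · exact absurd (pr_inj emp_mem_omega (pr_mem hi hv) h1ω (pr_mem hn' hk') h4).1 h10
    · rintro rfl
      exact ⟨pr_mem emp_mem_omega (pr_mem hi hv), Or.inl ⟨i, hi, rfl⟩⟩

theorem exists_Cond0 (hAC : AC M) : ∃ A θ : M, Cond0 A θ := by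
  have hsub : (emp : M) ⊆ prod emp omega := emp_sub _
  have hd : InL (emp : M) (sep omega (fun n => n ∉ hF emp n)) := by
    have key : ∀ z : Sub (InL (emp : M)), (z ∉ hF emp z ↔ z.1 ∉ hF emp z.1) := by
      intro z
      rw [sub_mem, abs_hF, abs_emp]
    apply inL_sep (omega : Sub (InL (emp : M))) (fun n => n ∉ hF emp n)
    intro x
    rw [mem_sep, abs_omega]
    refine and_congr_right fun hx => ?_
    have hx' : InL (emp : M) x := Inner.ord (K := InL (emp : M)) x (ord_nat hx)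
    exact ⟨fun h => ⟨hx', (key ⟨x, hx'⟩).2 h⟩, fun ⟨h1, h⟩ => (key ⟨x, h1⟩).1 h⟩
  obtain ⟨θ, h1, h2, h3, h4⟩ := exists_CS hAC ord_emp ctb_emp hsub ord_omega
    (fun z hz => ((mem_sep _ _ _).1 hz).1) hd (by
      intro δ hδ e
      have h5 : δ ∈ hF emp δ ↔ δ ∈ sep omega (fun n => n ∉ hF (emp : M) n) := by rw [e]
      rw [mem_sep] at h5
      by_cases h6 : δ ∈ hF emp δ
      · exact (h5.1 h6).2 h6
      · exact h6 (h5.2 ⟨hδ, h6⟩))
  exact ⟨emp, θ, h1, h2, h3, emp_sub _, h4, fun δ k h => absurd h (not_mem_emp _)⟩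

theorem PP_ne (hAC : AC M) : (PP : M) ≠ emp := by
  obtain ⟨A, θ, h⟩ := exists_Cond0 hAC
  have hx : mkf omega omega (fun _ : M => emp) ∈ (RS : M) :=
    mem_RS.2 (mkf_fun fun _ _ => emp_mem_omega)
  obtain ⟨c, hc, _⟩ := exists_cond (s := emp) (F := emp) (ρ := θ) h
    ⟨_, hx, emp, emp_mem_omega, (sq_emp _).symm, fun j hj => absurd hj (not_mem_emp _)⟩
    ⟨fin_emp, emp_sub _⟩ (by rw [mem_succ]; exact Or.inr rfl)
  exact ne_emp_iff.2 ⟨c, mem_PP.2 hc⟩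

end Pool.Agent.ZFIter.NPA
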