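import Pool.Agent.NPA.Defs6
import Pool.Agent.NPA.EExt
import Pool.Agent.NPA.DMono
import Pool.Agent.NPA.DBor
import Pool.Agent.NPA.DEmb
import Pool.Agent.NPA.DStem

/-!
# NPA/DMain: targets of part D (owner: helper65)
-/

universe u

namespace Pool.Agent.ZFIter.NPA

open Pool.Agent.H78.ZF Pool.Agent.ZFIter

variable {M : Type u} [ZFM M] {ι : Type}

theorem exists_C (hAC : AC M) : ∃ C : M → Prop, CSpec C := by
  have : HasAC M := ⟨hAC⟩
  have h : Bo (fun c : M => CArith c ∧ CSup c ∧ CTop c) :=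
    Bo.and _ _ (hP := Bo.CArith (fun x => x))
      (hQ := Bo.and _ _ (hP := Bo.CSup (fun x => x)) (hQ := Bo.CTop (fun x => x)))
  have h' := h.pos
  obtain ⟨C, h1, h2, h3⟩ := S1.exists_cl (fun c : M => CArith c ∧ CSup c ∧ CTop c)
  exact ⟨C, ⟨h1, h2, h3⟩⟩

theorem cle_iff {c d : M} (hc : IsCond c) (hd : IsCond d) :
    CLe c d ↔ ∃ h, h ∈ (RS : M) ∧ LeH c d h := by
  unfold CLe
  rw [stemExt_iff hd]
  constructor
  · rintro ⟨h1, h2, h3⟩
    obtain ⟨h, hh, he⟩ := exists_emb hc hd h1.1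
    exact ⟨h, hh, he, (ext0_emb hc hd hh he).1 h1, (prm_emb hc hd hh he).1 h2, h3⟩
  · rintro ⟨h, hh, he, h1, h2, h3⟩
    exact ⟨(ext0_emb hc hd hh he).2 h1, (prm_emb hc hd hh he).2 h2, h3⟩

theorem inc_iff {c d : M} (hc : IsCond c) (hd : IsCond d) :
    (¬ ∃ r, Le PP RR r c ∧ Le PP RR r d) ↔
      ∃ h, h ∈ (RS : M) ∧ (IncH c d h ∨ IncH d c h) := by
  rw [compat_iff hc hd, stemExt_iff hd, stemExt_iff hc]
  constructor
  · intro h
    rcases ord_le_or_lt (isCond_spec hd).1.1 (isCond_spec hc).1.1 with h1 | h1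
    · obtain ⟨h', hh, he⟩ := exists_emb hc hd h1
      refine ⟨h', hh, Or.inl ⟨he, ?_⟩⟩
      rw [ext0_emb' hc hd hh he, not_and_or] at h
      exact h
    · obtain ⟨h', hh, he⟩ := exists_emb hd hc ((isCond_spec hd).1.1.1 _ h1)
      refine ⟨h', hh, Or.inr ⟨he, ?_⟩⟩
      rw [or_comm (a := Ext0 (cSet c) (cTh c) (cSet d) (cTh d)), ext0_emb' hd hc hh he,
        not_and_or, or_comm (a := cSE d (cS c))] at h
      exact h
  · rintro ⟨h, hh, ⟨he, h1⟩ | ⟨he, h1⟩⟩ ⟨h2, h3⟩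
    · rw [ext0_emb' hc hd hh he] at h2
      rcases h1 with h1 | h1
      · exact h1 h2
      · exact h1 h3
    · rw [or_comm, ext0_emb' hd hc hh he] at h2
      rcases h1 with h1 | h1
      · exact h1 h2
      · exact h1 h3.symm

theorem sg_of_s2 {P : M → Prop} (h : S2 P) : Sg 2 P := h.sg

theorem sg2_of_s2 {S : M → M → Prop} (h : S2 (fun w => S (pL w) (pR w))) : Sg2 2 S := by
  obtain ⟨o, ho, h'⟩ := h.sg
  refine ⟨o, ho, fun x hx y hy => ?_⟩
  have h1 : S (pL (jn x y)) (pR (jn x y)) ↔ _ := h' _ (jn_mem hx hy)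
  rw [pL_jn hx hy, pR_jn hx hy] at h1
  exact h1

theorem sforc_PP (hAC : AC M) : SForc (PP : M) RR := by
  have : HasAC M := ⟨hAC⟩
  refine ⟨fun x hx => isCond_RS (mem_PP.1 hx), PP_ne hAC, fun p hp => le_refl' hp,
    fun p q r h1 h2 => le_trans' h1 h2, ?_, ?_, ?_⟩
  · have h : S2 (fun x : M => IsCond x) := S2.IsCond (fun x => x)
    exact (h.congr (Q := fun x => x ∈ (PP : M)) fun x _ => mem_PP).sg
  · apply sg2_of_s2
    refine s2_le.congr fun w _ => ?_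
    rw [le_iff]
    constructor
    · rintro ⟨h1, h2, h3⟩
      exact ⟨h1, h2, (cle_iff h1 h2).1 h3⟩
    · rintro ⟨h1, h2, h3⟩
      exact ⟨h1, h2, (cle_iff h1 h2).2 h3⟩
  · apply sg2_of_s2
    have : D1 (fun w : M => Inc PP RR (pL w) (pR w)) := by
      unfold Inc
      infer_instance
    refine s2_inc.congr fun w _ => ?_
    unfold Inc
    rw [mem_PP, mem_PP]
    constructor
    · rintro ⟨h1, h2, h3⟩
      exact ⟨h1, h2, (inc_iff h1 h2).1 h3⟩
    · rintro ⟨h1, h2, h3⟩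
      exact ⟨h1, h2, (inc_iff h1 h2).2 h3⟩

end Pool.Agent.ZFIter.NPA
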