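import Pool.Agent.NPA.DTop

/-!
# NPA/DTool: the toolkit for the pointclasses

`S1 P`: the class `P` of reals is `Sigma^1_1`; `Bo P`: both `P` and its complement are
`Sigma^1_1`; `Nt t`: `t` is a number valued Borel function; `Ct f` (DTop): `f` is continuous.
All are type classes, so that big arithmetical predicates are handled by inference.
-/

universe u

namespace Pool.Agent.ZFIter.NPA

open Pool.Agent.H78.ZF Pool.Agent.ZFIter

variable {M : Type u} [ZFM M] {ι : Type}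

/-- The axiom of choice holds in the model. -/
class HasAC (M : Type u) [ZFM M] : Prop where
  ac : AC M

/-- `P` is `Sigma^1_1`. -/
class S1 (P : M → Prop) : Prop where
  d : D1 P
  sg : Sg 1 P

/-- `P` and its complement are `Sigma^1_1`. -/
class Bo (P : M → Prop) : Prop where
  pos : S1 P
  neg : S1 (fun x => ¬ P x)

/-- Borel number valued functions. -/
class Nt (t : M → M) : Prop where
  d : F1 t
  mem : ∀ x, x ∈ (RS : M) → t x ∈ (omega : M)
  bo : ∀ b, b ∈ (omega : M) → Bo (fun x => t x = b)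

instance (priority := low) S1.of_bo (P : M → Prop) [h : Bo P] : S1 P := h.pos

theorem pi_zero_iff {R o x : M} : Pi R 0 o x ↔ ∀ n, n ∈ (omega : M) → ap o (sq x n) ≠ emp := Iff.rfl

theorem pi_succ_iff {R o x : M} {m : ℕ} : Pi R (m + 1) o x ↔ ∀ y, y ∈ R → ¬ Pi R m o (jn x y) :=
  Iff.rfl

theorem sg1_iff {P : M → Prop} : Sg 1 P ↔ ∃ o, o ∈ (RS : M) ∧ ∀ x, x ∈ (RS : M) →
    (P x ↔ ∃ y, y ∈ (RS : M) ∧ Pi RS 0 o (jn x y)) := by
  unfold Sg
  constructor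
  · rintro ⟨o, ho, h⟩
    refine ⟨o, ho, fun x hx => ?_⟩
    rw [h x hx, pi_succ_iff]
    push Not
    rfl
  · rintro ⟨o, ho, h⟩
    refine ⟨o, ho, fun x hx => ?_⟩
    rw [h x hx, pi_succ_iff]
    push Not
    rfl

/-- The basic way to show that a class is `Sigma^1_1`. -/
theorem S1.mk' {P : M → Prop} [hP : D1 P] (C : M → Prop) [D1 C] (hC : IsCl C)
    (h : ∀ x, x ∈ (RS : M) → (P x ↔ ∃ y, y ∈ (RS : M) ∧ C (jn x y))) : S1 P := by
  refine ⟨hP, sg1_iff.2 ?_⟩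
  obtain ⟨o, ho, ho'⟩ := isCl_code C hC
  refine ⟨o, ho, fun x hx => ?_⟩
  rw [h x hx]
  constructor
  · rintro ⟨y, hy, h1⟩
    exact ⟨y, hy, (ho' _ (jn_mem hx hy)).1 h1⟩
  · rintro ⟨y, hy, h1⟩
    exact ⟨y, hy, (ho' _ (jn_mem hx hy)).2 h1⟩

/-- Every `Sigma^1_1` class has a closed matrix. -/
theorem S1.exists_cl (P : M → Prop) [h : S1 P] : ∃ C : M → Prop, D1 C ∧ IsCl C ∧
    ∀ x, x ∈ (RS : M) → (P x ↔ ∃ y, y ∈ (RS : M) ∧ C (jn x y)) := by
  obtain ⟨o, ho, h'⟩ := sg1_iff.1 h.sg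
  exact ⟨fun x => Pi RS 0 o x, inferInstance, isCl_pi0 o, h'⟩

theorem S1.congr {P Q : M → Prop} [hQ : D1 Q] (hP : S1 P)
    (h : ∀ x, x ∈ (RS : M) → (Q x ↔ P x)) : S1 Q := by
  obtain ⟨C, hC, hC1, hC2⟩ := hP.exists_cl
  exact S1.mk' C hC1 fun x hx => by rw [h x hx, hC2 x hx]

theorem Bo.congr {P Q : M → Prop} [hQ : D1 Q] (hP : Bo P)
    (h : ∀ x, x ∈ (RS : M) → (Q x ↔ P x)) : Bo Q := by
  have := hP.pos.d
  exact ⟨hP.pos.congr h, hP.neg.congr fun x hx => by rw [h x hx]⟩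

/-- Closed classes are `Sigma^1_1`. -/
theorem S1.of_cl {P : M → Prop} [D1 P] (h : IsCl P) : S1 P := by
  refine S1.mk' (fun w => P (pL w)) (h.comp (fun w => pL w)) fun x hx => ?_
  constructor
  · intro hx'
    exact ⟨x, hx, by rw [pL_jn hx hx]; exact hx'⟩
  · rintro ⟨y, hy, h1⟩
    rw [pL_jn hx hy] at h1
    exact h1

theorem Bo.d (P : M → Prop) [h : Bo P] : D1 P := h.pos.d

instance Bo.const (p : Prop) : Bo (fun _ : M => p) :=
  ⟨S1.of_cl (fun _ _ h => (h emp emp_mem_omega).choose_spec.2.1),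
    S1.of_cl (fun _ _ h => (h emp emp_mem_omega).choose_spec.2.1)⟩

instance Bo.not (P : M → Prop) [h : Bo P] : Bo (fun x => ¬ P x) := by
  have := h.pos.d
  refine ⟨h.neg, h.pos.congr fun x _ => not_not⟩

/-- Countable unions of `Sigma^1_1` classes. -/
theorem S1.exC [hAC : HasAC M] {B : M} (hB : Ctb B) (Q : M → M → Prop) [hQ : D2 Q]
    (h : ∀ n, n ∈ B → S1 (Q n)) : S1 (fun x => ∃ n, n ∈ B ∧ Q n x) := by
  by_cases hne : B = emp
  · refine (Bo.const (M := M) False).pos.congr fun x _ => ?_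
    constructor
    · rintro ⟨n, hn, _⟩
      rw [hne] at hn
      exact absurd hn (not_mem_emp n)
    · exact False.elim
  obtain ⟨e, he⟩ := ctb_enum hB hne
  -- choice of codes
  obtain ⟨o, ho, ho'⟩ := ac_rel hAC.ac B (RS : M) (fun n o => ∀ x, x ∈ (RS : M) →
    (Q n x ↔ ∃ y, y ∈ (RS : M) ∧ Pi RS 0 o (jn x y))) (fun n hn => sg1_iff.1 (h n hn).sg)
  refine S1.mk' (fun w => Pi RS 0 (ap o (ap e (ap (pR w) emp))) (jn (pL w) (shS (pR w)))) ?_ ?_
  · exact IsCl.dep (Q := fun k w => Pi RS 0 (ap o (ap e k)) (jn (pL w) (shS (pR w))))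
      (fun w => pR w) emp_mem_omega fun k hk =>
        (isCl_pi0 (ap o (ap e k))).comp (fun w => jn (pL w) (shS (pR w)))
  · intro x hx
    constructor
    · rintro ⟨n, hn, hQn⟩
      obtain ⟨y, hy, h1⟩ := (ho' n hn x hx).1 hQn
      obtain ⟨k, hk, e1⟩ := he.2 n hn
      obtain ⟨z, hz, e2, e3⟩ := exists_cons hk hy
      refine ⟨z, hz, ?_⟩
      rw [pL_jn hx hz, pR_jn hx hz, e2, e3, e1]
      exact h1
    · rintro ⟨z, hz, h1⟩
      rw [pL_jn hx hz, pR_jn hx hz] at h1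
      have h2 := he.1.ap_mem (RS_ap' hz emp)
      exact ⟨_, h2, (ho' _ h2 x hx).2 ⟨_, shS_mem hz, h1⟩⟩

/-- Countable intersections of `Sigma^1_1` classes. -/
theorem S1.allC [hAC : HasAC M] {B : M} (hB : Ctb B) (Q : M → M → Prop) [hQ : D2 Q]
    (h : ∀ n, n ∈ B → S1 (Q n)) : S1 (fun x => ∀ n, n ∈ B → Q n x) := by
  by_cases hne : B = emp
  · refine (Bo.const (M := M) True).pos.congr fun x _ => ?_
    constructor
    · exact fun _ => trivial
    · intro _ n hn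
      rw [hne] at hn
      exact absurd hn (not_mem_emp n)
  obtain ⟨e, he⟩ := ctb_enum hB hne
  obtain ⟨o, ho, ho'⟩ := ac_rel hAC.ac B (RS : M) (fun n o => ∀ x, x ∈ (RS : M) →
    (Q n x ↔ ∃ y, y ∈ (RS : M) ∧ Pi RS 0 o (jn x y))) (fun n hn => sg1_iff.1 (h n hn).sg)
  refine S1.mk' (fun w => ∀ k, k ∈ (omega : M) →
    Pi RS 0 (ap o (ap e k)) (jn (pL w) (col (pR w) k))) ?_ ?_
  · refine IsCl.ball fun k hk => ?_
    have : NatM k := ⟨hk⟩
    exact (isCl_pi0 (ap o (ap e k))).comp (fun w => jn (pL w) (col (pR w) k))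
  · intro x hx
    constructor
    · intro hQ'
      obtain ⟨Y, hY, hY'⟩ := ac_rel hAC.ac (omega : M) (RS : M)
        (fun k y => Pi RS 0 (ap o (ap e k)) (jn x y))
        (fun k hk => (ho' _ (he.1.ap_mem hk) x hx).1 (hQ' _ (he.1.ap_mem hk)))
      obtain ⟨z, hz, hz'⟩ := exists_cols hY
      refine ⟨z, hz, fun k hk => ?_⟩
      rw [pL_jn hx hz, pR_jn hx hz, hz' k hk]
      exact hY' k hk
    · rintro ⟨z, hz, h1⟩ n hn
      obtain ⟨k, hk, e1⟩ := he.2 n hn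
      have h2 := h1 k hk
      rw [pL_jn hx hz, pR_jn hx hz, e1] at h2
      exact (ho' n hn x hx).2 ⟨_, col_mem k hz, h2⟩

instance S1.exn [HasAC M] (Q : M → M → Prop) [D2 Q] [h : ∀ n : NatT M, S1 (fun x => Q n.v x)] :
    S1 (fun x => ∃ n, n ∈ (omega : M) ∧ Q n x) :=
  S1.exC ctb_omega Q fun n hn => h ⟨n, hn⟩

instance S1.alln [HasAC M] (Q : M → M → Prop) [D2 Q] [h : ∀ n : NatT M, S1 (fun x => Q n.v x)] :
    S1 (fun x => ∀ n, n ∈ (omega : M) → Q n x) :=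
  S1.allC ctb_omega Q fun n hn => h ⟨n, hn⟩

instance S1.or [HasAC M] (P Q : M → Prop) [hP : S1 P] [hQ : S1 Q] : S1 (fun x => P x ∨ Q x) := by
  have := hP.d
  have := hQ.d
  have h := S1.exC (ctb_omega : Ctb (omega : M)) (fun n x => (n = emp ∧ P x) ∨ (n ≠ emp ∧ Q x)) (by
    intro n hn
    by_cases h : n = emp
    · exact hP.congr fun x _ => by simp [h]
    · exact hQ.congr fun x _ => by simp [h])
  refine h.congr fun x _ => ?_
  constructor
  · rintro (h1 | h1)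
    · exact ⟨emp, emp_mem_omega, Or.inl ⟨rfl, h1⟩⟩
    · exact ⟨succ emp, succ_mem_omega emp_mem_omega, Or.inr ⟨succ_ne_emp emp, h1⟩⟩
  · rintro ⟨n, _, h1 | h1⟩
    · exact Or.inl h1.2
    · exact Or.inr h1.2

instance S1.and [HasAC M] (P Q : M → Prop) [hP : S1 P] [hQ : S1 Q] : S1 (fun x => P x ∧ Q x) := by
  have := hP.d
  have := hQ.d
  have h := S1.allC (ctb_omega : Ctb (omega : M)) (fun n x => (n = emp ∧ P x) ∨ (n ≠ emp ∧ Q x)) (by
    intro n hn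
    by_cases h : n = emp
    · exact hP.congr fun x _ => by simp [h]
    · exact hQ.congr fun x _ => by simp [h])
  refine h.congr fun x _ => ?_
  constructor
  · rintro ⟨h1, h2⟩ n hn
    by_cases h : n = emp
    · exact Or.inl ⟨h, h1⟩
    · exact Or.inr ⟨h, h2⟩
  · intro h1
    constructor
    · rcases h1 emp emp_mem_omega with h2 | h2
      · exact h2.2
      · exact absurd rfl h2.1
    · rcases h1 (succ emp) (succ_mem_omega emp_mem_omega) with h2 | h2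
      · exact absurd h2.1 (succ_ne_emp emp)
      · exact h2.2

/-- Real existential quantifiers. -/
theorem S1.exr (P : M → Prop) [hP : S1 P] : S1 (fun x => ∃ y, y ∈ (RS : M) ∧ P (jn x y)) := by
  have := hP.d
  obtain ⟨C, hC, hC1, hC2⟩ := hP.exists_cl
  refine S1.mk' (fun w => C (jn (jn (pL w) (pL (pR w))) (pR (pR w))))
    (hC1.comp (fun w => jn (jn (pL w) (pL (pR w))) (pR (pR w)))) fun x hx => ?_
  constructor
  · rintro ⟨y, hy, h1⟩
    obtain ⟨z, hz, h2⟩ := (hC2 _ (jn_mem hx hy)).1 h1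
    refine ⟨jn y z, jn_mem hy hz, ?_⟩
    rw [pL_jn hx (jn_mem hy hz), pR_jn hx (jn_mem hy hz), pL_jn hy hz, pR_jn hy hz]
    exact h2
  · rintro ⟨v, hv, h1⟩
    rw [pL_jn hx hv, pR_jn hx hv] at h1
    exact ⟨pL v, pL_mem hv, (hC2 _ (jn_mem hx (pL_mem hv))).2 ⟨pR v, pR_mem hv, h1⟩⟩

instance S1.exr' (Q : M → M → Prop) [hQ : D2 Q] [h : S1 (fun w => Q (pL w) (pR w))] :
    S1 (fun x => ∃ y, y ∈ (RS : M) ∧ Q x y) := by
  have h1 := S1.exr (fun w => Q (pL w) (pR w))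
  refine h1.congr fun x hx => ?_
  constructor
  · rintro ⟨y, hy, h2⟩
    exact ⟨y, hy, by rw [pL_jn hx hy, pR_jn hx hy]; exact h2⟩
  · rintro ⟨y, hy, h2⟩
    rw [pL_jn hx hy, pR_jn hx hy] at h2
    exact ⟨y, hy, h2⟩

/-- Composition with a continuous function. -/
theorem S1.comp (P : M → Prop) [hP : S1 P] (f : M → M) [hf : Ct f] : S1 (fun x => P (f x)) := by
  have := hP.d
  have := hf.d
  obtain ⟨C, hC, hC1, hC2⟩ := hP.exists_cl
  refine S1.mk' (fun w => C (jn (f (pL w)) (pR w))) ?_ fun x hx => ?_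
  · have h1 : Ct (fun w => f (pL w)) := Ct.comp f (fun w => pL w)
    exact hC1.comp (fun w => jn (f (pL w)) (pR w))
  · rw [hC2 _ (hf.mem x hx)]
    constructor
    · rintro ⟨y, hy, h1⟩
      exact ⟨y, hy, by rw [pL_jn hx hy, pR_jn hx hy]; exact h1⟩
    · rintro ⟨y, hy, h1⟩
      rw [pL_jn hx hy, pR_jn hx hy] at h1
      exact ⟨y, hy, h1⟩

theorem Bo.comp (P : M → Prop) [hP : Bo P] (f : M → M) [hf : Ct f] : Bo (fun x => P (f x)) := by
  have h1 := hP.pos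
  have h2 := hP.neg
  exact ⟨S1.comp P f, S1.comp (fun x => ¬ P x) f⟩

section
variable [HasAC M]

theorem Bo.exC {B : M} (hB : Ctb B) (Q : M → M → Prop) [hQ : D2 Q]
    (h : ∀ n, n ∈ B → Bo (Q n)) : Bo (fun x => ∃ n, n ∈ B ∧ Q n x) := by
  refine ⟨S1.exC hB Q fun n hn => (h n hn).pos, ?_⟩
  have h1 := S1.allC hB (fun n x => ¬ Q n x) fun n hn => (h n hn).neg
  exact h1.congr fun x _ => by push Not; rfl

theorem Bo.allC {B : M} (hB : Ctb B) (Q : M → M → Prop) [hQ : D2 Q]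
    (h : ∀ n, n ∈ B → Bo (Q n)) : Bo (fun x => ∀ n, n ∈ B → Q n x) := by
  refine ⟨S1.allC hB Q fun n hn => (h n hn).pos, ?_⟩
  have h1 := S1.exC hB (fun n x => ¬ Q n x) fun n hn => (h n hn).neg
  exact h1.congr fun x _ => by push Not; rfl

instance Bo.exn (Q : M → M → Prop) [D2 Q] [h : ∀ n : NatT M, Bo (fun x => Q n.v x)] :
    Bo (fun x => ∃ n, n ∈ (omega : M) ∧ Q n x) :=
  Bo.exC ctb_omega Q fun n hn => h ⟨n, hn⟩

instance Bo.alln (Q : M → M → Prop) [D2 Q] [h : ∀ n : NatT M, Bo (fun x => Q n.v x)] :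
    Bo (fun x => ∀ n, n ∈ (omega : M) → Q n x) :=
  Bo.allC ctb_omega Q fun n hn => h ⟨n, hn⟩

omit [HasAC M] in
theorem ctb_num (k : ℕ) : Ctb (num k : M) := ctb_nat (num_mem k)

instance Bo.exk (k : ℕ) (Q : M → M → Prop) [D2 Q] [h : ∀ n : NatT M, Bo (fun x => Q n.v x)] :
    Bo (fun x => ∃ n, n ∈ (num k : M) ∧ Q n x) :=
  Bo.exC (ctb_num k) Q fun n hn => h ⟨n, mem_omega_of_mem hn (num_mem k)⟩

instance Bo.allk (k : ℕ) (Q : M → M → Prop) [D2 Q] [h : ∀ n : NatT M, Bo (fun x => Q n.v x)] :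
    Bo (fun x => ∀ n, n ∈ (num k : M) → Q n x) :=
  Bo.allC (ctb_num k) Q fun n hn => h ⟨n, mem_omega_of_mem hn (num_mem k)⟩

instance Bo.and (P Q : M → Prop) [hP : Bo P] [hQ : Bo Q] : Bo (fun x => P x ∧ Q x) := by
  have := hP.pos
  have := hQ.pos
  have := hP.neg
  have := hQ.neg
  have := hP.d
  have := hQ.d
  refine ⟨inferInstance, ?_⟩
  have h : S1 (fun x => ¬ P x ∨ ¬ Q x) := inferInstance
  exact h.congr fun x _ => by rw [not_and_or]

instance Bo.or (P Q : M → Prop) [hP : Bo P] [hQ : Bo Q] : Bo (fun x => P x ∨ Q x) := by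
  have := hP.pos
  have := hQ.pos
  have := hP.neg
  have := hQ.neg
  have := hP.d
  have := hQ.d
  refine ⟨inferInstance, ?_⟩
  have h : S1 (fun x => ¬ P x ∧ ¬ Q x) := inferInstance
  exact h.congr fun x _ => by rw [not_or]

instance Bo.imp (P Q : M → Prop) [hP : Bo P] [hQ : Bo Q] : Bo (fun x => P x → Q x) := by
  have := hP.d
  have := hQ.d
  have h : Bo (fun x => ¬ P x ∨ Q x) := inferInstance
  exact h.congr fun x _ => imp_iff_not_or

instance Bo.iff (P Q : M → Prop) [hP : Bo P] [hQ : Bo Q] : Bo (fun x => P x ↔ Q x) := by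
  have := hP.d
  have := hQ.d
  have h : Bo (fun x => (P x → Q x) ∧ (Q x → P x)) := inferInstance
  exact h.congr fun x _ => iff_iff_implies_and_implies

/-- An `S1` class may be used as a hypothesis of an implication if it is Borel. -/
instance (priority := low) S1.imp (P Q : M → Prop) [hP : Bo P] [hQ : S1 Q] :
    S1 (fun x => P x → Q x) := by
  have := hP.d
  have := hQ.d
  have := hP.neg
  have h : S1 (fun x => ¬ P x ∨ Q x) := inferInstance
  exact h.congr fun x _ => imp_iff_not_or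

end

/-! ### Number terms -/

/-- The basic clopen conditions. -/
theorem Bo.val (R : M → Prop) [hR : D1 R] (f : M → M) [hf : Ct f] (t : M) :
    Bo (fun x => R (ap (f x) t)) := by
  have := hf.d
  by_cases ht : t ∈ (omega : M)
  · exact ⟨S1.of_cl (isCl_val R f ht), S1.of_cl (isCl_val (fun z => ¬ R z) f ht)⟩
  · exact (Bo.const (M := M) (R emp)).congr fun x hx => by rw [RS_ap_out (hf.mem x hx) ht]

instance Nt.const (n : M) [hn : NatM n] : Nt (fun _ : M => n) :=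
  ⟨inferInstance, fun _ _ => hn.h, fun b _ => Bo.const (n = b)⟩

section
variable [HasAC M]

/-- Substitution of a number term. -/
theorem Bo.sub (Q : M → M → Prop) [hQ : D2 Q] (t : M → M) [ht : Nt t]
    (h : ∀ n, n ∈ (omega : M) → Bo (Q n)) : Bo (fun x => Q (t x) x) := by
  have h1 := ht.d
  have h2 := Bo.exC (ctb_omega : Ctb (omega : M)) (fun n x => t x = n ∧ Q n x) (by
    intro n hn
    have h3 := ht.bo n hn
    have h4 := h n hn
    infer_instance)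
  refine h2.congr fun x hx => ?_
  constructor
  · intro h3
    exact ⟨t x, ht.mem x hx, rfl, h3⟩
  · rintro ⟨n, _, rfl, h3⟩
    exact h3

/-- Definable conditions on number terms. -/
theorem Bo.rel1 (R : M → Prop) [hR : D1 R] (s : M → M) [hs : Nt s] : Bo (fun x => R (s x)) := by
  have h1 := hs.d
  exact Bo.sub (fun n _ => R n) s fun n _ => Bo.const (R n)

theorem Bo.rel2 (R : M → M → Prop) [hR : D2 R] (s t : M → M) [hs : Nt s] [ht : Nt t] :
    Bo (fun x => R (s x) (t x)) := by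
  have h1 := hs.d
  have h2 := ht.d
  exact Bo.sub (fun n x => R n (t x)) s fun n _ => Bo.rel1 (fun m => R n m) t

instance Bo.eq (s t : M → M) [Nt s] [Nt t] : Bo (fun x => s x = t x) :=
  Bo.rel2 (fun a b => a = b) s t

instance Bo.mem (s t : M → M) [Nt s] [Nt t] : Bo (fun x => s x ∈ t x) :=
  Bo.rel2 (fun a b => a ∈ b) s t

instance Bo.subset (s t : M → M) [Nt s] [Nt t] : Bo (fun x => s x ⊆ t x) :=
  Bo.rel2 (fun a b => a ⊆ b) s t

/-- Definable functions of number terms. -/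
theorem Nt.map1 (G : M → M) [hG : F1 G] (hG' : ∀ n, n ∈ (omega : M) → G n ∈ (omega : M))
    (s : M → M) [hs : Nt s] : Nt (fun x => G (s x)) := by
  have h1 := hs.d
  exact ⟨inferInstance, fun x hx => hG' _ (hs.mem x hx), fun b _ => Bo.rel1 (fun n => G n = b) s⟩

theorem Nt.map2 (G : M → M → M) [hG : F2 G]
    (hG' : ∀ m n, m ∈ (omega : M) → n ∈ (omega : M) → G m n ∈ (omega : M))
    (s t : M → M) [hs : Nt s] [ht : Nt t] : Nt (fun x => G (s x) (t x)) := by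
  have h1 := hs.d
  have h2 := ht.d
  exact ⟨inferInstance, fun x hx => hG' _ _ (hs.mem x hx) (ht.mem x hx),
    fun b _ => Bo.rel2 (fun m n => G m n = b) s t⟩

instance Nt.succ (s : M → M) [Nt s] : Nt (fun x => H78.ZF.succ (s x)) :=
  Nt.map1 (fun n => H78.ZF.succ n) (fun _ hn => succ_mem_omega hn) s

instance Nt.ev (s : M → M) [Nt s] : Nt (fun x => NPA.ev (s x)) :=
  Nt.map1 (fun n => NPA.ev n) (fun _ hn => ev_mem hn) s

instance Nt.pr (s t : M → M) [Nt s] [Nt t] : Nt (fun x => H78.ZF.pr (s x) (t x)) :=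
  Nt.map2 (fun m n => H78.ZF.pr m n) (fun _ _ hm hn => pr_mem hm hn) s t

instance Nt.add (s t : M → M) [Nt s] [Nt t] : Nt (fun x => NPA.add (s x) (t x)) :=
  Nt.map2 (fun m n => NPA.add m n) (fun _ _ hm hn => add_mem hm hn) s t

instance Nt.ap (f t : M → M) [hf : Ct f] [ht : Nt t] : Nt (fun x => H78.ZF.ap (f x) (t x)) := by
  have h1 := hf.d
  have h2 := ht.d
  exact ⟨inferInstance, fun x hx => RS_ap' (hf.mem x hx) _, fun b _ =>
    Bo.sub (fun n x => H78.ZF.ap (f x) n = b) t fun n _ => Bo.val (fun z => z = b) f n⟩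

omit [HasAC M] in
theorem Nt.sq_aux (f : M → M) [hf : Ct f] (n : M) (hn : n ∈ (omega : M)) :
    Nt (fun x => NPA.sq (f x) n) := by
  have h1 := hf.d
  refine ⟨inferInstance, fun x hx => sq_mem (hf.mem x hx) hn, fun b _ => ?_⟩
  have hcl : ∀ (R : M → Prop) [D1 R], IsCl (fun x => R (NPA.sq (f x) n)) := by
    intro R _ x hx h
    obtain ⟨m, hm, hm'⟩ := Ct.unif f hx n hn
    obtain ⟨y, hy, h2, h3⟩ := h m hm
    have h4 : NPA.sq (f y) n = NPA.sq (f x) n :=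
      sq_congr hn (hm' y hy ((sq_eq_iff hx hy hm).1 h3))
    rw [← h4]
    exact h2
  exact ⟨S1.of_cl (hcl (fun z => z = b)), S1.of_cl (hcl (fun z => ¬ z = b))⟩

instance Nt.sq (f t : M → M) [hf : Ct f] [ht : Nt t] : Nt (fun x => NPA.sq (f x) (t x)) := by
  have h1 := hf.d
  have h2 := ht.d
  exact ⟨inferInstance, fun x hx => sq_mem (hf.mem x hx) (ht.mem x hx), fun b hb =>
    Bo.sub (fun n x => NPA.sq (f x) n = b) t fun n hn => (Nt.sq_aux f n hn).bo b hb⟩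

end

/-! ### `Sigma^1_2` -/

/-- `P` is `Sigma^1_2`. -/
class S2 (P : M → Prop) : Prop where
  d : D1 P
  sg : Sg 2 P

theorem sg2_iff {P : M → Prop} : Sg 2 P ↔ ∃ o, o ∈ (RS : M) ∧ ∀ x, x ∈ (RS : M) →
    (P x ↔ ∃ y, y ∈ (RS : M) ∧ ¬ ∃ z, z ∈ (RS : M) ∧ Pi RS 0 o (jn (jn x y) z)) := by
  unfold Sg
  constructor
  · rintro ⟨o, ho, h⟩
    refine ⟨o, ho, fun x hx => ?_⟩
    rw [h x hx, pi_succ_iff]
    push Not
    rfl
  · rintro ⟨o, ho, h⟩
    refine ⟨o, ho, fun x hx => ?_⟩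
    rw [h x hx, pi_succ_iff]
    push Not
    rfl

/-- The basic way to show that a class is `Sigma^1_2`. -/
theorem S2.mk' {P : M → Prop} [hP : D1 P] (Q : M → Prop) [hQ : S1 Q]
    (h : ∀ x, x ∈ (RS : M) → (P x ↔ ∃ y, y ∈ (RS : M) ∧ ¬ Q (jn x y))) : S2 P := by
  refine ⟨hP, sg2_iff.2 ?_⟩
  obtain ⟨o, ho, ho'⟩ := sg1_iff.1 hQ.sg
  refine ⟨o, ho, fun x hx => ?_⟩
  rw [h x hx]
  constructor
  · rintro ⟨y, hy, h1⟩
    exact ⟨y, hy, fun h2 => h1 ((ho' _ (jn_mem hx hy)).2 h2)⟩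
  · rintro ⟨y, hy, h1⟩
    exact ⟨y, hy, fun h2 => h1 ((ho' _ (jn_mem hx hy)).1 h2)⟩

theorem S2.exists_mx (P : M → Prop) [h : S2 P] : ∃ Q : M → Prop, S1 Q ∧
    ∀ x, x ∈ (RS : M) → (P x ↔ ∃ y, y ∈ (RS : M) ∧ ¬ Q (jn x y)) := by
  obtain ⟨o, ho, h'⟩ := sg2_iff.1 h.sg
  refine ⟨fun w => ∃ z, z ∈ (RS : M) ∧ Pi RS 0 o (jn w z), ?_, h'⟩
  exact S1.mk' (fun w => Pi RS 0 o w) (isCl_pi0 o) fun x _ => Iff.rfl

theorem S2.congr {P Q : M → Prop} [hQ : D1 Q] (hP : S2 P)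
    (h : ∀ x, x ∈ (RS : M) → (Q x ↔ P x)) : S2 Q := by
  obtain ⟨R, hR, hR'⟩ := hP.exists_mx
  exact S2.mk' R fun x hx => by rw [h x hx, hR' x hx]

/-- `Pi^1_1` classes are `Sigma^1_2`. -/
theorem S2.of_pi (P : M → Prop) [hd : D1 P] (h : S1 (fun x => ¬ P x)) : S2 P := by
  have := S1.comp (fun x => ¬ P x) (fun w => pL w)
  refine S2.mk' (fun w => ¬ P (pL w)) fun x hx => ?_
  constructor
  · intro h1
    exact ⟨x, hx, by rw [pL_jn hx hx]; exact not_not.2 h1⟩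
  · rintro ⟨y, hy, h1⟩
    rw [pL_jn hx hy] at h1
    exact not_not.1 h1

instance (priority := low) S2.of_s1 [HasAC M] (P : M → Prop) [h : S1 P] : S2 P := by
  have := h.d
  obtain ⟨C, hC, hC1, hC2⟩ := h.exists_cl
  have hB : S1 (fun w => ¬ C w) := by
    -- the complement of a closed class is open, hence `Sigma^1_1`
    obtain ⟨o, ho, ho'⟩ := isCl_code C hC1
    have : RealM o := ⟨ho⟩
    have h2 : Bo (fun x => ∃ n, n ∈ (omega : M) ∧ ap o (sq x n) = emp) := inferInstance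
    refine h2.pos.congr fun x hx => ?_
    rw [ho' x hx, pi_zero_iff]
    push Not
    rfl
  refine S2.mk' (fun w => ¬ C w) fun x hx => ?_
  rw [hC2 x hx]
  constructor
  · rintro ⟨y, hy, h1⟩
    exact ⟨y, hy, not_not.2 h1⟩
  · rintro ⟨y, hy, h1⟩
    exact ⟨y, hy, not_not.1 h1⟩

/-- Real existential quantifiers. -/
theorem S2.exr (P : M → Prop) [hP : S2 P] : S2 (fun x => ∃ y, y ∈ (RS : M) ∧ P (jn x y)) := by
  have := hP.d
  obtain ⟨Q, hQ, hQ'⟩ := hP.exists_mx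
  have := S1.comp Q (fun w => jn (jn (pL w) (pL (pR w))) (pR (pR w)))
  refine S2.mk' (fun w => Q (jn (jn (pL w) (pL (pR w))) (pR (pR w)))) fun x hx => ?_
  constructor
  · rintro ⟨y, hy, h1⟩
    obtain ⟨z, hz, h2⟩ := (hQ' _ (jn_mem hx hy)).1 h1
    refine ⟨jn y z, jn_mem hy hz, ?_⟩
    rw [pL_jn hx (jn_mem hy hz), pR_jn hx (jn_mem hy hz), pL_jn hy hz, pR_jn hy hz]
    exact h2
  · rintro ⟨v, hv, h1⟩
    rw [pL_jn hx hv, pR_jn hx hv] at h1
    exact ⟨pL v, pL_mem hv, (hQ' _ (jn_mem hx (pL_mem hv))).2 ⟨pR v, pR_mem hv, h1⟩⟩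

instance S2.exr' (Q : M → M → Prop) [hQ : D2 Q] [h : S2 (fun w => Q (pL w) (pR w))] :
    S2 (fun x => ∃ y, y ∈ (RS : M) ∧ Q x y) := by
  have h1 := S2.exr (fun w => Q (pL w) (pR w))
  refine h1.congr fun x hx => ?_
  constructor
  · rintro ⟨y, hy, h2⟩
    exact ⟨y, hy, by rw [pL_jn hx hy, pR_jn hx hy]; exact h2⟩
  · rintro ⟨y, hy, h2⟩
    rw [pL_jn hx hy, pR_jn hx hy] at h2
    exact ⟨y, hy, h2⟩

/-- Composition with a continuous function. -/
theorem S2.comp (P : M → Prop) [hP : S2 P] (f : M → M) [hf : Ct f] : S2 (fun x => P (f x)) := by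
  have := hP.d
  have := hf.d
  obtain ⟨Q, hQ, hQ'⟩ := hP.exists_mx
  have h1 : Ct (fun w => f (pL w)) := Ct.comp f (fun w => pL w)
  have := S1.comp Q (fun w => jn (f (pL w)) (pR w))
  refine S2.mk' (fun w => Q (jn (f (pL w)) (pR w))) fun x hx => ?_
  rw [hQ' _ (hf.mem x hx)]
  constructor
  · rintro ⟨y, hy, h2⟩
    exact ⟨y, hy, by rw [pL_jn hx hy, pR_jn hx hy]; exact h2⟩
  · rintro ⟨y, hy, h2⟩
    rw [pL_jn hx hy, pR_jn hx hy] at h2
    exact ⟨y, hy, h2⟩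

section
variable [hAC : HasAC M]

instance S2.exn (Q : M → M → Prop) [hd : D2 Q] [h : ∀ n : NatT M, S2 (fun x => Q n.v x)] :
    S2 (fun x => ∃ n, n ∈ (omega : M) ∧ Q n x) := by
  obtain ⟨o, ho, ho'⟩ := ac_rel hAC.ac (omega : M) (RS : M) (fun n o => ∀ x, x ∈ (RS : M) →
    (Q n x ↔ ∃ y, y ∈ (RS : M) ∧ ¬ ∃ z, z ∈ (RS : M) ∧ Pi RS 0 o (jn (jn x y) z)))
    (fun n hn => sg2_iff.1 (h ⟨n, hn⟩).sg)
  have hQ1 : S1 (fun w => ∃ z, z ∈ (RS : M) ∧
      Pi RS 0 (ap o (ap (pR w) emp)) (jn (jn (pL w) (shS (pR w))) z)) := by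
    refine S1.mk' (fun v => Pi RS 0 (ap o (ap (pR (pL v)) emp))
      (jn (jn (pL (pL v)) (shS (pR (pL v)))) (pR v))) ?_ ?_
    · exact IsCl.dep (Q := fun k v => Pi RS 0 (ap o k)
        (jn (jn (pL (pL v)) (shS (pR (pL v)))) (pR v))) (fun v => pR (pL v)) emp_mem_omega
        fun k hk => (isCl_pi0 (ap o k)).comp
          (fun v => jn (jn (pL (pL v)) (shS (pR (pL v)))) (pR v))
    · intro x hx
      constructor
      · rintro ⟨z, hz, h1⟩
        exact ⟨z, hz, by rw [pL_jn hx hz, pR_jn hx hz]; exact h1⟩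
      · rintro ⟨z, hz, h1⟩
        rw [pL_jn hx hz, pR_jn hx hz] at h1
        exact ⟨z, hz, h1⟩
  refine S2.mk' (fun w => ∃ z, z ∈ (RS : M) ∧
      Pi RS 0 (ap o (ap (pR w) emp)) (jn (jn (pL w) (shS (pR w))) z)) fun x hx => ?_
  constructor
  · rintro ⟨n, hn, h1⟩
    obtain ⟨y, hy, h2⟩ := (ho' n hn x hx).1 h1
    obtain ⟨v, hv, e1, e2⟩ := exists_cons hn hy
    refine ⟨v, hv, ?_⟩
    rw [pL_jn hx hv, pR_jn hx hv, e1, e2]
    exact h2
  · rintro ⟨v, hv, h1⟩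
    rw [pL_jn hx hv, pR_jn hx hv] at h1
    exact ⟨_, RS_ap' hv emp, (ho' _ (RS_ap' hv emp) x hx).2 ⟨_, shS_mem hv, h1⟩⟩

instance S2.alln (Q : M → M → Prop) [hd : D2 Q] [h : ∀ n : NatT M, S2 (fun x => Q n.v x)] :
    S2 (fun x => ∀ n, n ∈ (omega : M) → Q n x) := by
  obtain ⟨o, ho, ho'⟩ := ac_rel hAC.ac (omega : M) (RS : M) (fun n o => ∀ x, x ∈ (RS : M) →
    (Q n x ↔ ∃ y, y ∈ (RS : M) ∧ ¬ ∃ z, z ∈ (RS : M) ∧ Pi RS 0 o (jn (jn x y) z)))
    (fun n hn => sg2_iff.1 (h ⟨n, hn⟩).sg)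
  have hQ1 : S1 (fun w => ∃ n, n ∈ (omega : M) ∧ ∃ z, z ∈ (RS : M) ∧
      Pi RS 0 (ap o n) (jn (jn (pL w) (col (pR w) n)) z)) := by
    refine S1.exC ctb_omega (fun n w => ∃ z, z ∈ (RS : M) ∧
      Pi RS 0 (ap o n) (jn (jn (pL w) (col (pR w) n)) z)) fun n hn => ?_
    have : NatM n := ⟨hn⟩
    refine S1.mk' (fun v => Pi RS 0 (ap o n)
      (jn (jn (pL (pL v)) (col (pR (pL v)) n)) (pR v))) ?_ ?_
    · exact (isCl_pi0 (ap o n)).comp
          (fun v => jn (jn (pL (pL v)) (col (pR (pL v)) n)) (pR v))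
    · intro x hx
      constructor
      · rintro ⟨z, hz, h1⟩
        exact ⟨z, hz, by rw [pL_jn hx hz, pR_jn hx hz]; exact h1⟩
      · rintro ⟨z, hz, h1⟩
        rw [pL_jn hx hz, pR_jn hx hz] at h1
        exact ⟨z, hz, h1⟩
  refine S2.mk' (fun w => ∃ n, n ∈ (omega : M) ∧ ∃ z, z ∈ (RS : M) ∧
      Pi RS 0 (ap o n) (jn (jn (pL w) (col (pR w) n)) z)) fun x hx => ?_
  constructor
  · intro h1
    obtain ⟨Y, hY, hY'⟩ := ac_rel hAC.ac (omega : M) (RS : M)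
      (fun k y => ¬ ∃ z, z ∈ (RS : M) ∧ Pi RS 0 (ap o k) (jn (jn x y) z))
      (fun k hk => (ho' _ hk x hx).1 (h1 _ hk))
    obtain ⟨v, hv, hv'⟩ := exists_cols hY
    refine ⟨v, hv, ?_⟩
    rw [pL_jn hx hv, pR_jn hx hv]
    rintro ⟨n, hn, h2⟩
    rw [hv' n hn] at h2
    exact hY' n hn h2
  · rintro ⟨v, hv, h1⟩ n hn
    rw [pL_jn hx hv, pR_jn hx hv] at h1
    exact (ho' n hn x hx).2 ⟨_, col_mem n hv, fun h2 => h1 ⟨n, hn, h2⟩⟩

instance S2.or (P Q : M → Prop) [hP : S2 P] [hQ : S2 Q] : S2 (fun x => P x ∨ Q x) := by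
  have := hP.d
  have := hQ.d
  have hh : ∀ n : NatT M, S2 (fun x => (n.v = emp ∧ P x) ∨ (n.v ≠ emp ∧ Q x)) := by
    intro n
    by_cases h : n.v = emp
    · exact hP.congr fun x _ => by simp [h]
    · exact hQ.congr fun x _ => by simp [h]
  have h := S2.exn (fun n x => (n = emp ∧ P x) ∨ (n ≠ emp ∧ Q x))
  refine h.congr fun x _ => ?_
  constructor
  · rintro (h1 | h1)
    · exact ⟨emp, emp_mem_omega, Or.inl ⟨rfl, h1⟩⟩
    · exact ⟨succ emp, succ_mem_omega emp_mem_omega, Or.inr ⟨succ_ne_emp emp, h1⟩⟩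
  · rintro ⟨n, _, h1 | h1⟩
    · exact Or.inl h1.2
    · exact Or.inr h1.2

instance S2.and (P Q : M → Prop) [hP : S2 P] [hQ : S2 Q] : S2 (fun x => P x ∧ Q x) := by
  have := hP.d
  have := hQ.d
  have hh : ∀ n : NatT M, S2 (fun x => (n.v = emp ∧ P x) ∨ (n.v ≠ emp ∧ Q x)) := by
    intro n
    by_cases h : n.v = emp
    · exact hP.congr fun x _ => by simp [h]
    · exact hQ.congr fun x _ => by simp [h]
  have h := S2.alln (fun n x => (n = emp ∧ P x) ∨ (n ≠ emp ∧ Q x))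
  refine h.congr fun x _ => ?_
  constructor
  · rintro ⟨h1, h2⟩ n hn
    by_cases h : n = emp
    · exact Or.inl ⟨h, h1⟩
    · exact Or.inr ⟨h, h2⟩
  · intro h1
    constructor
    · rcases h1 emp emp_mem_omega with h2 | h2
      · exact h2.2
      · exact absurd rfl h2.1
    · rcases h1 (succ emp) (succ_mem_omega emp_mem_omega) with h2 | h2
      · exact absurd h2.1 (succ_ne_emp emp)
      · exact h2.2

end

end Pool.Agent.ZFIter.NPA
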