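import Pool.Agent.NPA.ANum
import Pool.Agent.NPA.ASq

/-!
# NPA/GGame: the undetermined game

A run must be strictly increasing; the first player who violates this loses. If the payoff class `A`
changes under shifts of odd length, no player has a winning strategy.
-/

universe u

namespace Pool.Agent.ZFIter.NPA

open Pool.Agent.H78.ZF Pool.Agent.ZFIter

variable {M : Type u} [ZFM M] {ι : Type}

/-- the move number `n + 1` is larger than the move number `n` -/
def Leg (x n : M) : Prop := ap x n ∈ ap x (succ n)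

instance DR.Leg (x n : (ι → M) → M) [DF x] [DF n] : DR (fun v => Leg (x v) (n v)) := by
  unfold NPA.Leg
  infer_instance

/-- strictly increasing -/
def SInc (x : M) : Prop := ∀ n, n ∈ (omega : M) → Leg x n

instance DR.SInc (x : (ι → M) → M) [DF x] : DR (fun v => SInc (x v)) := by
  unfold NPA.SInc
  infer_instance

/-- the first violation (if any) is one of player II -/
def VioII (x : M) : Prop :=
  ∃ k, k ∈ (omega : M) ∧ Evn k ∧ ¬ Leg x k ∧ ∀ i, i ∈ k → Leg x i

instance DR.VioII (x : (ι → M) → M) [DF x] : DR (fun v => VioII (x v)) := by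
  unfold NPA.VioII
  infer_instance

/-- the payoff class of player I -/
def Pay (A : M → Prop) (x : M) : Prop := (SInc x ∧ A x) ∨ VioII x

section
variable {A : M → Prop} {x : M}

theorem leg_I (h : Pay A x) {n : M} (hn : n ∈ (omega : M)) (hodd : ¬ Evn n)
    (hl : ∀ i, i ∈ n → Evn i → Leg x i) : Leg x n := by
  rcases h with h | ⟨k, hk, h1, h2, h3⟩
  · exact h.1 n hn
  · rcases trichotomy hn hk with h | h | h
    · exact h3 n h
    · rw [h] at hodd; exact absurd h1 hodd
    · exact absurd (hl k h h1) h2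

theorem leg_II (h : ¬ Pay A x) {n : M} (hn : n ∈ (omega : M)) (hev : Evn n)
    (hl : ∀ i, i ∈ n → ¬ Evn i → Leg x i) : Leg x n := by
  by_contra hc
  obtain ⟨k, hk, ⟨hk1, hk2, hk3⟩, hk4⟩ := exists_least
    (fun k => k ∈ succ n ∧ Evn k ∧ ¬ Leg x k) ⟨n, hn, by simp, hev, hc⟩
  apply h
  right
  refine ⟨k, hk, hk2, hk3, fun i hi => ?_⟩
  have hkn : k ⊆ n := (lt_succ_iff hk hn).1 hk1
  by_contra h'
  by_cases he : Evn i
  · exact hk4 i hi ⟨by rw [mem_succ]; left; exact hkn i hi, he, h'⟩
  · exact h' (hl i (hkn i hi) he)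

end

/-- a real defined by recursion -/
theorem exists_rec (G : M → M → M) [F2 G] (hG : ∀ n g, n ∈ (omega : M) → G n g ∈ (omega : M)) :
    ∃ x, x ∈ (RS : M) ∧ ∀ n, n ∈ (omega : M) → ap x n = G n (res x n) := by
  have h1 : ∀ n, n ∈ (omega : M) → erec G n ∈ (omega : M) := by
    intro n hn
    rw [erec_eq]
    exact hG n _ hn
  have hx : Fun (mkf omega omega (fun n => erec G n)) omega (omega : M) := mkf_fun h1
  refine ⟨mkf omega omega (fun n => erec G n), mem_RS.2 hx, fun n hn => ?_⟩
  rw [ap_mkf h1 hn, erec_eq]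
  congr 1
  have hs : IsSeq (mkf omega omega (fun n => erec G n)) (omega : M) := by
    constructor
    · intro p hp
      obtain ⟨a, ha, b, hb, rfl⟩ := hx.1 p hp
      exact ⟨a, ha, b, rfl⟩
    · exact hx.2
  refine isSeq_mkseq.ext (hs.res (omega_sub hn)) fun i hi => ?_
  rw [ap_mkseq hi, ap_res hs (omega_sub hn) hi, ap_mkf h1 (mem_omega_of_mem hi hn)]

/-- definition by cases -/
noncomputable def sel (P : Prop) (a b : M) : M := iota (fun y => (P ∧ y = a) ∨ (¬ P ∧ y = b))

instance DF.sel (P : (ι → M) → Prop) (a b : (ι → M) → M) [DR P] [DF a] [DF b] :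
    DF (fun v => sel (P v) (a v) (b v)) := by
  unfold NPA.sel
  infer_instance

theorem sel_pos {P : Prop} {a b : M} (h : P) : sel P a b = a := by
  refine iota_eq (P := fun y => (P ∧ y = a) ∨ (¬ P ∧ y = b)) (Or.inl ⟨h, rfl⟩) ?_
  rintro x (hx | hx)
  · exact hx.2
  · exact absurd h hx.1

theorem sel_neg {P : Prop} {a b : M} (h : ¬ P) : sel P a b = b := by
  refine iota_eq (P := fun y => (P ∧ y = a) ∨ (¬ P ∧ y = b)) (Or.inr ⟨h, rfl⟩) ?_
  rintro x (hx | hx)
  · exact absurd hx.1 h
  · exact hx.2

theorem sUn_succ {m : M} (hm : m ∈ (omega : M)) : sUn (succ m) = m := by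
  apply H78.ZF.ext
  intro z
  rw [mem_sUn]
  constructor
  · rintro ⟨y, hy, hz⟩
    rw [mem_succ] at hy
    rcases hy with hy | rfl
    · exact lt_trans hm hz hy
    · exact hz
  · intro hz
    exact ⟨m, by simp, hz⟩

theorem succ_lt_succ {i m : M} (hm : m ∈ (omega : M)) (hi : i ∈ m) : succ i ∈ succ m := by
  have hi' := mem_omega_of_mem hi hm
  rw [lt_succ_iff (succ_mem_omega hi') hm, succ_le_iff hm]
  exact hi

/-- `x` shifted by one place -/
noncomputable def shS (x : M) : M := mkseq omega (fun i => ap x (succ i))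

instance DF.shS (x : (ι → M) → M) [DF x] : DF (fun v => shS (x v)) := by
  unfold NPA.shS
  infer_instance

theorem ap_shS {x i : M} (hi : i ∈ (omega : M)) : ap (shS x) i = ap x (succ i) := ap_mkseq hi

theorem shS_mem {x : M} (hx : x ∈ (RS : M)) : shS x ∈ (RS : M) := by
  rw [mem_RS]
  constructor
  · intro p hp
    unfold shS at hp
    rw [mem_mkseq] at hp
    obtain ⟨i, hi, rfl⟩ := hp
    exact ⟨i, hi, _, RS_ap' hx _, rfl⟩
  · intro i hi
    exact isSeq_mkseq.2 i hi

/-- `x(0), x(2), x(3), ...` -/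
noncomputable def skS (x : M) : M := mkseq omega (fun i => sel (i = emp) (ap x emp) (ap x (succ i)))

instance DF.skS (x : (ι → M) → M) [DF x] : DF (fun v => skS (x v)) := by
  unfold NPA.skS
  infer_instance

theorem ap_skS_emp {x : M} : ap (skS x) emp = ap x emp := by
  unfold skS
  rw [ap_mkseq emp_mem_omega, sel_pos rfl]

theorem ap_skS {x i : M} (hi : i ∈ (omega : M)) (h0 : i ≠ emp) : ap (skS x) i = ap x (succ i) := by
  unfold skS
  rw [ap_mkseq hi, sel_neg h0]

theorem skS_mem {x : M} (hx : x ∈ (RS : M)) : skS x ∈ (RS : M) := by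
  rw [mem_RS]
  have hv : ∀ i, sel (i = emp) (ap x emp) (ap x (succ i)) ∈ (omega : M) := by
    intro i
    by_cases h : i = emp
    · rw [sel_pos h]; exact RS_ap' hx _
    · rw [sel_neg h]; exact RS_ap' hx _
  constructor
  · intro p hp
    unfold skS at hp
    rw [mem_mkseq] at hp
    obtain ⟨i, hi, rfl⟩ := hp
    exact ⟨i, hi, _, hv i, rfl⟩
  · intro i hi
    exact isSeq_mkseq.2 i hi

/-- `A` changes under shifts of odd length. -/
def Alt (A : M → Prop) : Prop :=
  ∀ x, x ∈ (RS : M) → ∀ y, y ∈ (RS : M) → SInc x → SInc y →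
    ∀ a, a ∈ (omega : M) → ∀ b, b ∈ (omega : M) → ¬ Evn (add a b) →
      (∀ i, i ∈ (omega : M) → ap x (add a i) = ap y (add b i)) → (A x ↔ ¬ A y)

theorem isSeq_RS {x : M} (hx : x ∈ (RS : M)) : IsSeq x (omega : M) := by
  have h := mem_RS.1 hx
  constructor
  · intro p hp
    obtain ⟨a, ha, b, hb, rfl⟩ := h.1 p hp
    exact ⟨a, ha, b, rfl⟩
  · exact h.2

theorem add_one {i : M} (hi : i ∈ (omega : M)) : add (succ emp) i = succ i := by
  rw [succ_add emp_mem_omega hi, add_comm' emp_mem_omega hi, add_emp]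

theorem add_two {i : M} (hi : i ∈ (omega : M)) : add (succ (succ emp)) i = succ (succ i) := by
  rw [succ_add (succ_mem_omega emp_mem_omega) hi, add_one hi]

theorem sq_res {x n : M} (hx : x ∈ (RS : M)) (hn : n ∈ (omega : M)) : sq (res x n) n = sq x n :=
  sq_congr hn fun i hi => ap_res (isSeq_RS hx) (omega_sub hn) hi

theorem no_winII {A : M → Prop} (hA : Alt A) {t : M} (ht : t ∈ (RS : M)) :
    ¬ ∀ x, x ∈ (RS : M) → (∀ n, n ∈ (omega : M) → ap x (succ (ev n)) = ap t (sq x (succ (ev n)))) →
      ¬ Pay A x := by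
  intro hw
  obtain ⟨G, hG⟩ : ∃ G : M → M → M, G = fun n g =>
    sel (Evn n) (ap t (sq (shS g) (sUn n))) (ap t (sq g n)) := ⟨_, rfl⟩
  have iG : F2 G := by rw [hG]; infer_instance
  obtain ⟨x, hx, hxr⟩ := exists_rec G (by
    intro n g _
    rw [hG]
    by_cases h : Evn n
    · simp only [sel_pos h]; exact RS_ap' ht _
    · simp only [sel_neg h]; exact RS_ap' ht _)
  have hodd : ∀ n, n ∈ (omega : M) → ¬ Evn n → ap x n = ap t (sq x n) := by
    intro n hn h
    rw [hxr n hn, hG]
    simp only [sel_neg h]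
    rw [sq_res hx hn]
  have heven : ∀ m, m ∈ (omega : M) → ¬ Evn m → ap x (succ m) = ap t (sq (shS x) m) := by
    intro m hm h
    have h' : Evn (succ m) := (evn_succ hm).2 h
    rw [hxr _ (succ_mem_omega hm), hG]
    simp only [sel_pos h']
    rw [sUn_succ hm]
    congr 1
    apply sq_congr hm
    intro i hi
    have hi' := mem_omega_of_mem hi hm
    rw [ap_shS hi', ap_shS hi', ap_res (isSeq_RS hx) (omega_sub (succ_mem_omega hm))
      (succ_lt_succ hm hi)]
  have hoev : ∀ n, n ∈ (omega : M) → ¬ Evn (succ (ev n)) := by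
    intro n hn h
    rw [evn_succ (ev_mem hn)] at h
    exact h ⟨n, hn, rfl⟩
  have hX : ¬ Pay A x := hw x hx fun n hn => hodd _ (succ_mem_omega (ev_mem hn)) (hoev n hn)
  have hY : ¬ Pay A (shS x) := hw _ (shS_mem hx) fun n hn => by
    rw [ap_shS (succ_mem_omega (ev_mem hn))]
    exact heven _ (succ_mem_omega (ev_mem hn)) (hoev n hn)
  have hlegy : ∀ i, i ∈ (omega : M) → (Leg (shS x) i ↔ Leg x (succ i)) := by
    intro i hi
    unfold Leg
    rw [ap_shS hi, ap_shS (succ_mem_omega hi)]
  have key : ∀ n, n ∈ (omega : M) → ∀ i, i ∈ n → Leg x i := by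
    apply omega_induction (fun n => ∀ i, i ∈ n → Leg x i)
    · intro i hi; exact absurd hi (not_mem_emp i)
    · intro n hn ih i hi
      rw [mem_succ] at hi
      rcases hi with hi | rfl
      · exact ih i hi
      · by_cases he : Evn i
        · exact leg_II hX hn he (fun j hj _ => ih j hj)
        · rcases eq_emp_or_succ hn with rfl | ⟨m, hm, rfl⟩
          · exact absurd evn_emp he
          · have hm' : Evn m := by
              by_contra h
              exact he ((evn_succ hm).2 h)
            have h1 : Leg (shS x) m := leg_II hY hm hm' (fun j hj _ => by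
              rw [hlegy j (mem_omega_of_mem hj hm)]
              exact ih _ (succ_lt_succ hm hj))
            exact (hlegy m hm).1 h1
  have hSx : SInc x := fun n hn => key (succ n) (succ_mem_omega hn) n (by simp)
  have hSy : SInc (shS x) := fun n hn => (hlegy n hn).2 (hSx _ (succ_mem_omega hn))
  have h1 : ¬ A x := fun h => hX (Or.inl ⟨hSx, h⟩)
  have h2 : ¬ A (shS x) := fun h => hY (Or.inl ⟨hSy, h⟩)
  have h3 := hA x hx (shS x) (shS_mem hx) hSx hSy (succ emp) (succ_mem_omega emp_mem_omega)
    emp emp_mem_omega (by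
      rw [add_emp, evn_succ emp_mem_omega]
      exact fun h => h evn_emp) (by
      intro i hi
      rw [add_one hi, add_comm' emp_mem_omega hi, add_emp, ap_shS hi])
  exact h1 (h3.2 h2)

theorem no_winI {A : M → Prop} (hA : Alt A) {s : M} (hs : s ∈ (RS : M)) :
    ¬ ∀ x, x ∈ (RS : M) → (∀ n, n ∈ (omega : M) → ap x (ev n) = ap s (sq x (ev n))) →
      Pay A x := by
  intro hw
  obtain ⟨G, hG⟩ : ∃ G : M → M → M, G = fun n g =>
    sel (Evn n) (ap s (sq g n)) (sel (n = succ emp) (succ (ap s emp))
      (ap s (sq (skS g) (sUn n)))) := ⟨_, rfl⟩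
  have iG : F2 G := by rw [hG]; infer_instance
  obtain ⟨x, hx, hxr⟩ := exists_rec G (by
    intro n g _
    rw [hG]
    by_cases h : Evn n
    · simp only [sel_pos h]; exact RS_ap' hs _
    · simp only [sel_neg h]
      by_cases h' : n = succ emp
      · simp only [sel_pos h']; exact succ_mem_omega (RS_ap' hs _)
      · simp only [sel_neg h']; exact RS_ap' hs _)
  have heven : ∀ n, n ∈ (omega : M) → Evn n → ap x n = ap s (sq x n) := by
    intro n hn h
    rw [hxr n hn, hG]
    simp only [sel_pos h]
    rw [sq_res hx hn]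
  have hone : ap x (succ emp) = succ (ap s emp) := by
    have h : ¬ Evn (succ (emp : M)) := by
      rw [evn_succ emp_mem_omega]; exact fun h => h evn_emp
    rw [hxr _ (succ_mem_omega emp_mem_omega), hG]
    simp only [sel_neg h]
    exact sel_pos trivial
  have hzero : ap x emp = ap s emp := by
    rw [heven emp emp_mem_omega evn_emp, sq_emp]
  have hodd : ∀ m, m ∈ (omega : M) → m ≠ emp → Evn m → ap x (succ m) = ap s (sq (skS x) m) := by
    intro m hm h0 h
    have h' : ¬ Evn (succ m) := by rw [evn_succ hm]; exact fun h' => h' h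
    have h1 : succ m ≠ succ emp := fun e => h0 (succ_inj hm emp_mem_omega e)
    rw [hxr _ (succ_mem_omega hm), hG]
    simp only [sel_neg h', sel_neg h1]
    rw [sUn_succ hm]
    congr 1
    apply sq_congr hm
    intro i hi
    have hi' := mem_omega_of_mem hi hm
    by_cases h2 : i = emp
    · rw [h2, ap_skS_emp, ap_skS_emp, ap_res (isSeq_RS hx) (omega_sub (succ_mem_omega hm))]
      exact (eq_emp_or_emp_mem (succ_mem_omega hm)).resolve_left (succ_ne_emp m)
    · rw [ap_skS hi' h2, ap_skS hi' h2, ap_res (isSeq_RS hx) (omega_sub (succ_mem_omega hm))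
        (succ_lt_succ hm hi)]
  have hX : Pay A x := hw x hx fun n hn => heven _ (ev_mem hn) ⟨n, hn, rfl⟩
  have hY : Pay A (skS x) := hw _ (skS_mem hx) fun n hn => by
    by_cases h0 : ev n = emp
    · rw [h0, ap_skS_emp, sq_emp, hzero]
    · rw [ap_skS (ev_mem hn) h0]
      exact hodd _ (ev_mem hn) h0 ⟨n, hn, rfl⟩
  have hlegy : ∀ i, i ∈ (omega : M) → i ≠ emp → (Leg (skS x) i ↔ Leg x (succ i)) := by
    intro i hi h0
    unfold Leg
    rw [ap_skS hi h0, ap_skS (succ_mem_omega hi) (succ_ne_emp i)]
  have hleg0 : Leg x emp := by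
    unfold Leg
    rw [hzero, hone]
    simp
  have hlegy0 : Leg x (succ emp) → Leg (skS x) emp := by
    intro h
    unfold Leg at h hleg0 ⊢
    rw [ap_skS_emp, ap_skS (succ_mem_omega emp_mem_omega) (succ_ne_emp emp)]
    exact lt_trans (RS_ap' hx _) hleg0 h
  have key : ∀ n, n ∈ (omega : M) → ∀ i, i ∈ n → Leg x i := by
    apply omega_induction (fun n => ∀ i, i ∈ n → Leg x i)
    · intro i hi; exact absurd hi (not_mem_emp i)
    · intro n hn ih i hi
      rw [mem_succ] at hi
      rcases hi with hi | rfl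
      · exact ih i hi
      · by_cases he : Evn i
        · rcases eq_emp_or_succ hn with rfl | ⟨m, hm, rfl⟩
          · exact hleg0
          · have hm' : ¬ Evn m := (evn_succ hm).1 he
            have hm0 : m ≠ emp := by
              rintro rfl
              exact hm' evn_emp
            have h1 : Leg (skS x) m := leg_I hY hm hm' (fun j hj _ => by
              by_cases hj0 : j = emp
              · rw [hj0]
                apply hlegy0
                apply ih
                rw [← hj0]
                exact succ_lt_succ hm hj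
              · rw [hlegy j (mem_omega_of_mem hj hm) hj0]
                exact ih _ (succ_lt_succ hm hj))
            exact (hlegy m hm hm0).1 h1
        · exact leg_I hX hn he (fun j hj _ => ih j hj)
  have hSx : SInc x := fun n hn => key (succ n) (succ_mem_omega hn) n (by simp)
  have hSy : SInc (skS x) := fun n hn => by
    by_cases h0 : n = emp
    · rw [h0]; exact hlegy0 (hSx _ (succ_mem_omega emp_mem_omega))
    · exact (hlegy n hn h0).2 (hSx _ (succ_mem_omega hn))
  have h1 : A x := by
    rcases hX with h | ⟨k, hk, _, h, _⟩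
    · exact h.2
    · exact absurd (hSx k hk) h
  have h2 : A (skS x) := by
    rcases hY with h | ⟨k, hk, _, h, _⟩
    · exact h.2
    · exact absurd (hSy k hk) h
  have h3 := hA x hx (skS x) (skS_mem hx) hSx hSy (succ (succ emp))
    (succ_mem_omega (succ_mem_omega emp_mem_omega)) (succ emp) (succ_mem_omega emp_mem_omega) (by
      rw [add_two (succ_mem_omega emp_mem_omega), evn_succ (succ_mem_omega (succ_mem_omega
        emp_mem_omega)), evn_succ (succ_mem_omega emp_mem_omega), evn_succ emp_mem_omega]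
      exact fun h => h (fun h => h evn_emp)) (by
      intro i hi
      rw [add_two hi, add_one hi, ap_skS (succ_mem_omega hi) (succ_ne_emp i)])
  exact h3.1 h1 h2

end Pool.Agent.ZFIter.NPA
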