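import Pool.Agent.NPA.ASq
import Pool.Agent.NPA.ACh
import Pool.Agent.NPA.ACtb
import Pool.Agent.NPA.GGame

/-!
# NPA/DTop: closed sets and continuous functions on the reals of the model
-/

universe u

namespace Pool.Agent.ZFIter.NPA

open Pool.Agent.H78.ZF Pool.Agent.ZFIter

variable {M : Type u} [ZFM M] {ι : Type}

theorem sq_eq_iff {x y n : M} (hx : x ∈ (RS : M)) (hy : y ∈ (RS : M)) (hn : n ∈ (omega : M)) :
    sq y n = sq x n ↔ ∀ j, j ∈ n → ap y j = ap x j := by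
  constructor
  · intro h
    exact (sq_inj hy hx hn hn h).2
  · intro h
    exact sq_congr hn h

/-- Numbers of the model. -/
class NatM (n : M) : Prop where
  h : n ∈ (omega : M)

/-- The type of the numbers of the model (used in instances for number quantifiers). -/
structure NatT (M : Type u) [ZFM M] where
  v : M
  h : v ∈ (omega : M)

/-- Reals of the model. -/
class RealM (r : M) : Prop where
  h : r ∈ (RS : M)

instance : NatM (emp : M) := ⟨emp_mem_omega⟩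
instance (n : NatT M) : NatM n.v := ⟨n.h⟩
instance (k : ℕ) : NatM (num k : M) := ⟨num_mem k⟩
instance (n : M) [NatM n] : NatM (succ n) := ⟨succ_mem_omega NatM.h⟩
instance (m n : M) [NatM m] [NatM n] : NatM (pr m n) := ⟨pr_mem NatM.h NatM.h⟩
instance (n : M) [NatM n] : NatM (ev n) := ⟨ev_mem NatM.h⟩
instance (m n : M) [NatM m] [NatM n] : NatM (add m n) := ⟨add_mem NatM.h NatM.h⟩
instance (r n : M) [RealM r] : NatM (ap r n) := ⟨RS_ap' RealM.h n⟩
instance (r n : M) [RealM r] [NatM n] : NatM (sq r n) := ⟨sq_mem RealM.h NatM.h⟩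
instance (r s : M) [RealM r] [RealM s] : RealM (jn r s) := ⟨jn_mem RealM.h RealM.h⟩
instance (r : M) [RealM r] : RealM (pL r) := ⟨pL_mem RealM.h⟩
instance (r : M) [RealM r] : RealM (pR r) := ⟨pR_mem RealM.h⟩
instance (r : M) [RealM r] : RealM (shS r) := ⟨shS_mem RealM.h⟩

/-- Continuous functions on the reals. -/
class Ct (f : M → M) : Prop where
  d : F1 f
  mem : ∀ x, x ∈ (RS : M) → f x ∈ (RS : M)
  ct : ∀ x, x ∈ (RS : M) → ∀ i, i ∈ (omega : M) → ∃ m, m ∈ (omega : M) ∧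
    ∀ y, y ∈ (RS : M) → (∀ j, j ∈ m → ap y j = ap x j) → ap (f y) i = ap (f x) i

theorem Ct.unif (f : M → M) [hf : Ct f] {x : M} (hx : x ∈ (RS : M)) : ∀ n, n ∈ (omega : M) →
    ∃ m, m ∈ (omega : M) ∧ ∀ y, y ∈ (RS : M) → (∀ j, j ∈ m → ap y j = ap x j) →
      ∀ i, i ∈ n → ap (f y) i = ap (f x) i := by
  have := hf.d
  apply omega_induction (fun n => ∃ m, m ∈ (omega : M) ∧ ∀ y, y ∈ (RS : M) →
    (∀ j, j ∈ m → ap y j = ap x j) → ∀ i, i ∈ n → ap (f y) i = ap (f x) i)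
  · exact ⟨emp, emp_mem_omega, fun y _ _ i hi => absurd hi (not_mem_emp i)⟩
  · rintro n hn ⟨m, hm, ih⟩
    obtain ⟨m', hm', h'⟩ := hf.ct x hx n hn
    refine ⟨un m m', un_omega hm hm', fun y hy hag i hi => ?_⟩
    rw [mem_succ] at hi
    rcases hi with hi | rfl
    · exact ih y hy (fun j hj => hag j (sub_un_left m m' j hj)) i hi
    · exact h' y hy (fun j hj => hag j (sub_un_right m m' j hj))

instance Ct.id : Ct (fun x : M => x) := by
  refine ⟨inferInstance, fun x hx => hx, fun x hx i hi => ⟨succ i, succ_mem_omega hi, ?_⟩⟩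
  intro y _ h
  exact h i (by simp [mem_succ])

instance Ct.const (r : M) [hr : RealM r] : Ct (fun _ : M => r) := by
  refine ⟨inferInstance, fun x _ => hr.h, fun x _ i _ => ⟨emp, emp_mem_omega, ?_⟩⟩
  intro y _ _
  rfl

/-- Composition. -/
theorem Ct.comp (g f : M → M) [hg : Ct g] [hf : Ct f] : Ct (fun x => g (f x)) := by
  have h1 := hg.d
  have h2 := hf.d
  refine ⟨inferInstance, fun x hx => hg.mem _ (hf.mem x hx), fun x hx i hi => ?_⟩
  obtain ⟨m, hm, h⟩ := hg.ct (f x) (hf.mem x hx) i hi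
  obtain ⟨m', hm', h'⟩ := Ct.unif f hx m hm
  exact ⟨m', hm', fun y hy hag => h (f y) (hf.mem y hy) (h' y hy hag)⟩

/-- A function given pointwise by a class function of one value. -/
theorem Ct.pt (f : M → M) [hd : F1 f] (hm : ∀ x, x ∈ (RS : M) → f x ∈ (RS : M))
    (h : ∀ i, i ∈ (omega : M) → ∃ j, j ∈ (omega : M) ∧ ∀ x y, x ∈ (RS : M) → y ∈ (RS : M) →
      ap y j = ap x j → ap (f y) i = ap (f x) i) : Ct f := by
  refine ⟨hd, hm, fun x hx i hi => ?_⟩
  obtain ⟨j, hj, h'⟩ := h i hi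
  exact ⟨succ j, succ_mem_omega hj, fun y hy hag => h' x y hx hy (hag j (by simp [mem_succ]))⟩

instance Ct.pL0 : Ct (fun x : M => pL x) := by
  refine Ct.pt _ (fun x hx => pL_mem hx) fun i hi => ⟨i, hi, fun x y hx hy h => ?_⟩
  have e1 : jn (pL x) (pR x) = x := jn_pL_pR hx
  have e2 : jn (pL y) (pR y) = y := jn_pL_pR hy
  rw [← e1, ← e2, ap_jn (pL_mem hx) (pR_mem hx) hi, ap_jn (pL_mem hy) (pR_mem hy) hi] at h
  exact (pr_inj (RS_ap (pL_mem hy) hi) (RS_ap (pR_mem hy) hi) (RS_ap (pL_mem hx) hi)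
    (RS_ap (pR_mem hx) hi) h).1

instance Ct.pR0 : Ct (fun x : M => pR x) := by
  refine Ct.pt _ (fun x hx => pR_mem hx) fun i hi => ⟨i, hi, fun x y hx hy h => ?_⟩
  have e1 : jn (pL x) (pR x) = x := jn_pL_pR hx
  have e2 : jn (pL y) (pR y) = y := jn_pL_pR hy
  rw [← e1, ← e2, ap_jn (pL_mem hx) (pR_mem hx) hi, ap_jn (pL_mem hy) (pR_mem hy) hi] at h
  exact (pr_inj (RS_ap (pL_mem hy) hi) (RS_ap (pR_mem hy) hi) (RS_ap (pL_mem hx) hi)
    (RS_ap (pR_mem hx) hi) h).2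

instance Ct.shS0 : Ct (fun x : M => shS x) := by
  refine Ct.pt _ (fun x hx => shS_mem hx) fun i hi => ⟨succ i, succ_mem_omega hi,
    fun x y hx hy h => ?_⟩
  rw [ap_shS hi, ap_shS hi, h]

instance Ct.pL (f : M → M) [hf : Ct f] : Ct (fun x => NPA.pL (f x)) :=
  Ct.comp (fun x : M => NPA.pL x) f

instance Ct.pR (f : M → M) [hf : Ct f] : Ct (fun x => NPA.pR (f x)) :=
  Ct.comp (fun x : M => NPA.pR x) f

instance Ct.shS (f : M → M) [hf : Ct f] : Ct (fun x => NPA.shS (f x)) :=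
  Ct.comp (fun x : M => NPA.shS x) f

instance Ct.jn (f g : M → M) [hf : Ct f] [hg : Ct g] : Ct (fun x => NPA.jn (f x) (g x)) := by
  have h1 := hg.d
  have h2 := hf.d
  refine ⟨inferInstance, fun x hx => jn_mem (hf.mem x hx) (hg.mem x hx), fun x hx i hi => ?_⟩
  obtain ⟨m, hm, h⟩ := hf.ct x hx i hi
  obtain ⟨m', hm', h'⟩ := hg.ct x hx i hi
  refine ⟨un m m', un_omega hm hm', fun y hy hag => ?_⟩
  rw [ap_jn (hf.mem y hy) (hg.mem y hy) hi, ap_jn (hf.mem x hx) (hg.mem x hx) hi,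
    h y hy (fun j hj => hag j (sub_un_left m m' j hj)),
    h' y hy (fun j hj => hag j (sub_un_right m m' j hj))]

/-- The `k`-th column of a real. -/
noncomputable def col (z k : M) : M := mkf omega omega (fun i => ap z (pr k i))

instance DF.col (s t : (ι → M) → M) [DF s] [DF t] : DF (fun v => col (s v) (t v)) := by
  unfold NPA.col; infer_instance

theorem ap_col {z k i : M} (hz : z ∈ (RS : M)) (hi : i ∈ (omega : M)) :
    ap (col z k) i = ap z (pr k i) := ap_mkf (fun _ _ => RS_ap' hz _) hi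

theorem col_mem {z : M} (k : M) (hz : z ∈ (RS : M)) : col z k ∈ (RS : M) :=
  mem_RS.2 (mkf_fun fun _ _ => RS_ap' hz _)

instance (r k : M) [RealM r] : RealM (col r k) := ⟨col_mem k RealM.h⟩

instance Ct.col0 (k : M) [hk : NatM k] : Ct (fun x : M => col x k) := by
  refine Ct.pt _ (fun x hx => col_mem k hx) fun i hi => ⟨pr k i, pr_mem hk.h hi,
    fun x y hx hy h => ?_⟩
  rw [ap_col hx hi, ap_col hy hi, h]

instance Ct.col (f : M → M) [hf : Ct f] (k : M) [hk : NatM k] : Ct (fun x => NPA.col (f x) k) :=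
  Ct.comp (fun x : M => NPA.col x k) f

/-- Every sequence of reals is the sequence of the columns of a real. -/
theorem exists_cols {Y : M} (hY : Fun Y omega RS) : ∃ z, z ∈ (RS : M) ∧
    ∀ k, k ∈ (omega : M) → col z k = ap Y k := by
  have hz : ∀ n, n ∈ (omega : M) → iota (fun v => ∃ a, a ∈ (omega : M) ∧ ∃ b, b ∈ (omega : M) ∧
      n = pr a b ∧ v = ap (ap Y a) b) ∈ (omega : M) := by
    intro n hn
    obtain ⟨a, ha, b, hb, rfl⟩ := pr_surj hn
    rw [iota_eq (a := ap (ap Y a) b)]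
    · exact RS_ap (hY.ap_mem ha) hb
    · exact ⟨a, ha, b, hb, rfl, rfl⟩
    · rintro x ⟨a', ha', b', hb', e, rfl⟩
      obtain ⟨rfl, rfl⟩ := pr_inj ha hb ha' hb' e
      rfl
  have hval : ∀ a b, a ∈ (omega : M) → b ∈ (omega : M) → iota (fun v => ∃ a', a' ∈ (omega : M) ∧
      ∃ b', b' ∈ (omega : M) ∧ pr a b = pr a' b' ∧ v = ap (ap Y a') b') = ap (ap Y a) b := by
    intro a b ha hb
    apply iota_eq
    · exact ⟨a, ha, b, hb, rfl, rfl⟩
    · rintro x ⟨a', ha', b', hb', e, rfl⟩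
      obtain ⟨rfl, rfl⟩ := pr_inj ha hb ha' hb' e
      rfl
  refine ⟨mkf omega omega (fun n => iota (fun v => ∃ a, a ∈ (omega : M) ∧ ∃ b, b ∈ (omega : M) ∧
      n = pr a b ∧ v = ap (ap Y a) b)), mem_RS.2 (mkf_fun hz), fun k hk => ?_⟩
  refine RS_ext (col_mem k (mem_RS.2 (mkf_fun hz))) (hY.ap_mem hk) fun i hi => ?_
  rw [ap_col (mem_RS.2 (mkf_fun hz)) hi, ap_mkf hz (pr_mem hk hi), hval k i hk hi]

/-- The real with first value `k` and shift `y`. -/
theorem exists_cons {k y : M} (hk : k ∈ (omega : M)) (hy : y ∈ (RS : M)) :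
    ∃ z, z ∈ (RS : M) ∧ ap z emp = k ∧ shS z = y := by
  set G : M → M := fun n => sel (n = emp) k (ap y (sUn n)) with hG
  have hG1 : F1 G := by rw [hG]; infer_instance
  have hGm : ∀ n, n ∈ (omega : M) → G n ∈ (omega : M) := by
    intro n hn
    rw [hG]
    by_cases h : n = emp
    · simp only [sel_pos h]; exact hk
    · simp only [sel_neg h]; exact RS_ap' hy _
  have hz : mkf omega omega G ∈ (RS : M) := mem_RS.2 (mkf_fun hGm)
  refine ⟨mkf omega omega G, hz, ?_, ?_⟩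
  · rw [ap_mkf hGm emp_mem_omega, hG]
    exact sel_pos rfl
  · refine RS_ext (shS_mem hz) hy fun i hi => ?_
    rw [ap_shS hi, ap_mkf hGm (succ_mem_omega hi), hG]
    simp only [sel_neg (succ_ne_emp i), sUn_succ hi]

/-! ### Closed classes -/

theorem isCl_pi0 (o : M) : IsCl (fun x => Pi RS 0 o x) := by
  intro x hx h n hn
  obtain ⟨y, hy, h1, h2⟩ := h n hn
  rw [← h2]
  exact h1 n hn

theorem IsCl.comp {P : M → Prop} (hP : IsCl P) (f : M → M) [hf : Ct f] :
    IsCl (fun x => P (f x)) := by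
  intro x hx h
  refine hP (f x) (hf.mem x hx) fun n hn => ?_
  obtain ⟨m, hm, h'⟩ := Ct.unif f hx n hn
  obtain ⟨y, hy, h1, h2⟩ := h m hm
  exact ⟨f y, hf.mem y hy, h1, (sq_eq_iff (hf.mem x hx) (hf.mem y hy) hn).2
    (h' y hy ((sq_eq_iff hx hy hm).1 h2))⟩

theorem IsCl.all {ι : Sort*} {Q : ι → M → Prop} (h : ∀ i, IsCl (Q i)) :
    IsCl (fun x => ∀ i, Q i x) := by
  intro x hx hx' i
  refine h i x hx fun n hn => ?_
  obtain ⟨y, hy, h1, h2⟩ := hx' n hn
  exact ⟨y, hy, h1 i, h2⟩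

theorem IsCl.ball {B : M} {Q : M → M → Prop} (h : ∀ i, i ∈ B → IsCl (Q i)) :
    IsCl (fun x => ∀ i, i ∈ B → Q i x) := by
  intro x hx hx' i hi
  refine h i hi x hx fun n hn => ?_
  obtain ⟨y, hy, h1, h2⟩ := hx' n hn
  exact ⟨y, hy, h1 i hi, h2⟩

theorem IsCl.and {P Q : M → Prop} (hP : IsCl P) (hQ : IsCl Q) : IsCl (fun x => P x ∧ Q x) := by
  intro x hx h
  constructor
  · refine hP x hx fun n hn => ?_
    obtain ⟨y, hy, h1, h2⟩ := h n hn
    exact ⟨y, hy, h1.1, h2⟩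
  · refine hQ x hx fun n hn => ?_
    obtain ⟨y, hy, h1, h2⟩ := h n hn
    exact ⟨y, hy, h1.2, h2⟩

/-- A closed condition which may depend on one value of the real. -/
theorem IsCl.dep {Q : M → M → Prop} (f : M → M) [hf : Ct f] {t : M} (ht : t ∈ (omega : M))
    (h : ∀ k, k ∈ (omega : M) → IsCl (Q k)) : IsCl (fun x => Q (ap (f x) t) x) := by
  intro x hx hx'
  obtain ⟨m, hm, hm'⟩ := hf.ct x hx t ht
  refine h _ (RS_ap' (hf.mem x hx) t) x hx fun n hn => ?_
  obtain ⟨y, hy, h1, h2⟩ := hx' (un n m) (un_omega hn hm)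
  have h3 := (sq_eq_iff hx hy (un_omega hn hm)).1 h2
  have h4 : ap (f y) t = ap (f x) t := hm' y hy fun j hj => h3 j (sub_un_right n m j hj)
  refine ⟨y, hy, ?_, (sq_eq_iff hx hy hn).2 fun j hj => h3 j (sub_un_left n m j hj)⟩
  rw [← h4]
  exact h1

/-- A condition on one value is closed. -/
theorem isCl_val (R : M → Prop) (f : M → M) [hf : Ct f] {t : M} (ht : t ∈ (omega : M)) :
    IsCl (fun x => R (ap (f x) t)) := by
  intro x hx hx'
  obtain ⟨m, hm, hm'⟩ := hf.ct x hx t ht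
  obtain ⟨y, hy, h1, h2⟩ := hx' m hm
  have h3 := (sq_eq_iff hx hy hm).1 h2
  have h4 : ap (f y) t = ap (f x) t := hm' y hy h3
  rw [← h4]
  exact h1

/-- Closed classes have codes. -/
theorem isCl_code (C : M → Prop) [D1 C] (h : IsCl C) :
    ∃ o, o ∈ (RS : M) ∧ ∀ x, x ∈ (RS : M) → (C x ↔ Pi RS 0 o x) := by
  set G : M → M := fun s => sel (∃ y, y ∈ (RS : M) ∧ C y ∧ ∃ n, n ∈ (omega : M) ∧ s = sq y n)
    (num 1) emp with hG
  have hG1 : F1 G := by rw [hG]; infer_instance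
  have hGm : ∀ n, n ∈ (omega : M) → G n ∈ (omega : M) := by
    intro n hn
    rw [hG]
    by_cases h : ∃ y, y ∈ (RS : M) ∧ C y ∧ ∃ m, m ∈ (omega : M) ∧ n = sq y m
    · simp only [sel_pos h]; exact num_mem 1
    · simp only [sel_neg h]; exact emp_mem_omega
  have ho : mkf omega omega G ∈ (RS : M) := mem_RS.2 (mkf_fun hGm)
  refine ⟨mkf omega omega G, ho, fun x hx => ?_⟩
  have hne : ∀ n, n ∈ (omega : M) → (ap (mkf omega omega G) (sq x n) ≠ emp ↔
      ∃ y, y ∈ (RS : M) ∧ C y ∧ ∃ m, m ∈ (omega : M) ∧ sq x n = sq y m) := by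
    intro n hn
    rw [ap_mkf hGm (sq_mem hx hn), hG]
    by_cases h : ∃ y, y ∈ (RS : M) ∧ C y ∧ ∃ m, m ∈ (omega : M) ∧ sq x n = sq y m
    · simp only [sel_pos h]
      exact ⟨fun _ => h, fun _ => num_ne (M := M) (j := 1) (k := 0) (by norm_num)⟩
    · simp only [sel_neg h]
      exact ⟨fun h' => absurd rfl h', fun h' => absurd h' h⟩
  constructor
  · intro hC n hn
    exact (hne n hn).2 ⟨x, hx, hC, n, hn, rfl⟩
  · intro hP
    refine h x hx fun n hn => ?_
    obtain ⟨y, hy, hC, m, hm, e⟩ := (hne n hn).1 (hP n hn)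
    have e1 := (sq_inj hx hy hn hm e).1
    rw [← e1] at e
    exact ⟨y, hy, hC, e.symm⟩

end Pool.Agent.ZFIter.NPA
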