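import Pool.Agent.NPA.Rec

/-!
# Basic definitions, part 1: numbers, sequence codes, reals, projective classes, determinacy, choice

Everything is inside a model `M` of ZF. Real numbers are the functions from `omega` to `omega`.
-/

universe u

namespace Pool.Agent.ZFIter.NPA

open Pool.Agent.H78.ZF Pool.Agent.ZFIter

variable {M : Type u} [ZFM M] {ι κ : Type}

/-- The numeral `k` of the model. -/
noncomputable def num : ℕ → M
  | 0 => emp
  | k + 1 => succ (num k)

/-- Addition of natural numbers. -/
noncomputable def add (m n : M) : M := recc (fun z => succ z) m n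

instance DF.add (s t : (ι → M) → M) [DF s] [DF t] : DF (fun v => add (s v) (t v)) := by
  unfold NPA.add
  infer_instance

/-- The number `2n`. -/
noncomputable def ev (n : M) : M := recc (fun z => succ (succ z)) emp n

instance DF.ev (s : (ι → M) → M) [DF s] : DF (fun v => ev (s v)) := by
  unfold NPA.ev
  infer_instance

/-- The recursion step for `sq`. -/
noncomputable def sqStep (x n g : M) : M :=
  iota (fun s => (n = emp ∧ s = emp) ∨ (n ≠ emp ∧ s = succ (pr (ap g (sUn n)) (ap x (sUn n)))))

instance DF.sqStep (x n g : (ι → M) → M) [DF x] [DF n] [DF g] :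
    DF (fun v => sqStep (x v) (n v) (g v)) := by
  unfold NPA.sqStep
  infer_instance

/-- The code of the finite sequence `x(0), ..., x(n-1)`:
`sq x 0 = 0` and `sq x (n+1) = succ (pr (sq x n) (x n))`. -/
noncomputable def sq (x n : M) : M := erec (fun n g => sqStep x n g) n

instance DF.sq (x n : (ι → M) → M) [DF x] [DF n] : DF (fun v => sq (x v) (n v)) := by
  unfold NPA.sq
  infer_instance

/-- The set of all reals of the model: the functions from `omega` to `omega`. -/
noncomputable def RS : M := sep (pow (prod omega omega)) (fun x => Fun x omega omega)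

/-- The real `k ↦ pr (x k) (y k)` coding the pair of `x` and `y`. -/
noncomputable def jn (x y : M) : M := mkf omega omega (fun k => pr (ap x k) (ap y k))

instance DF.jn (s t : (ι → M) → M) [DF s] [DF t] : DF (fun v => jn (s v) (t v)) := by
  unfold NPA.jn
  infer_instance

/-- `Pi R 0 o x`: `x` belongs to the closed set coded by `o`, that is, `o` is nonzero at the codes of
all initial segments of `x`.
`Pi R m o x`: `x` belongs to the boldface `Pi^1_m` set coded by `o`, where all real quantifiers
range over the set `R` of reals. -/
def Pi (R : M) : ℕ → M → M → Prop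
  | 0, o, x => ∀ n, n ∈ (omega : M) → ap o (sq x n) ≠ emp
  | m + 1, o, x => ∀ y, y ∈ R → ¬ Pi R m o (jn x y)

theorem DR.Pi_aux (m : ℕ) : ∀ {ι : Type} (R o x : (ι → M) → M) [DF R] [DF o] [DF x],
    DR (fun v => Pi (R v) m (o v) (x v)) := by
  induction m with
  | zero =>
    intro ι R o x _ _ _
    simp only [Pi]
    infer_instance
  | succ m ih =>
    intro ι R o x _ _ _
    simp only [Pi]
    have h : DR (ι := Option ι) (fun v => Pi (R fun i => v (some i)) m (o fun i => v (some i))
        (jn (x fun i => v (some i)) (v none))) := ih _ _ _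
    infer_instance

instance DR.Pi (m : ℕ) (R o x : (ι → M) → M) [DF R] [DF o] [DF x] :
    DR (fun v => Pi (R v) m (o v) (x v)) := DR.Pi_aux m R o x

/-- `sg` is a winning strategy for the first player in the game on `omega` whose payoff set for the
first player is the `Pi^1_m` set coded by `o` (relative to `R`): every run `x` in which the first
player follows `sg` is in the payoff set. The players move alternately; the first player chooses
`x(0), x(2), ...` and the second `x(1), x(3), ...`. -/
def WinI (R : M) (m : ℕ) (o sg : M) : Prop :=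
  ∀ x, x ∈ R → (∀ n, n ∈ (omega : M) → ap x (ev n) = ap sg (sq x (ev n))) → Pi R m o x

/-- `ta` is a winning strategy for the second player. -/
def WinII (R : M) (m : ℕ) (o ta : M) : Prop :=
  ∀ x, x ∈ R → (∀ n, n ∈ (omega : M) → ap x (succ (ev n)) = ap ta (sq x (succ (ev n)))) →
    ¬ Pi R m o x

instance DR.WinI (m : ℕ) (R o s : (ι → M) → M) [DF R] [DF o] [DF s] :
    DR (fun v => WinI (R v) m (o v) (s v)) := by
  unfold NPA.WinI
  infer_instance

instance DR.WinII (m : ℕ) (R o s : (ι → M) → M) [DF R] [DF o] [DF s] :
    DR (fun v => WinII (R v) m (o v) (s v)) := by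
  unfold NPA.WinII
  infer_instance

/-- Determinacy of all `Pi^1_m` games, relative to the set `R` of reals. For `R = RS` this is
boldface `Pi^1_m`-determinacy. -/
def Det (R : M) (m : ℕ) : Prop :=
  ∀ o, o ∈ R → (∃ s, s ∈ R ∧ WinI R m o s) ∨ (∃ t, t ∈ R ∧ WinII R m o t)

instance DR.Det (m : ℕ) (R : (ι → M) → M) [DF R] : DR (fun v => Det (R v) m) := by
  unfold NPA.Det
  infer_instance

variable (M) in
/-- The axiom of choice, in the form: every set injects into an ordinal. -/
def AC : Prop := ∀ x : M, ∃ a f, Ord a ∧ Inj f x a

end Pool.Agent.ZFIter.NPA
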