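import Pool.Agent.NPA.Defs1

/-!
# Basic definitions, part 2: the constructible hierarchy relative to `A`

`hF A α` is the `α`-th set in Goedel's enumeration of the sets constructible from `A`.
-/

universe u

namespace Pool.Agent.ZFIter.NPA

open Pool.Agent.H78.ZF Pool.Agent.ZFIter

variable {M : Type u} [ZFM M] {ι κ : Type}

/-- For a linear order `L`: the maximum of `b, c` is below the maximum of `b', c'`. -/
def MaxLt (L : M → M → Prop) (b c b' c' : M) : Prop := (L b b' ∨ L b c') ∧ (L c b' ∨ L c c')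

/-- The order of the triples `(i, b, c)`: by maximum of `b, c`, then by `b`, by `c`, by `i`. -/
def TL (L : M → M → Prop) (i b c i' b' c' : M) : Prop :=
  MaxLt L b c b' c' ∨ (¬ MaxLt L b' c' b c ∧ (L b b' ∨ (b = b' ∧ (L c c' ∨ (c = c' ∧ i ∈ i')))))

/-- The order of triples whose last two entries are ordinals. -/
def TLt (i b c i' b' c' : M) : Prop := TL (fun x y => x ∈ y) i b c i' b' c'

instance DR.TLt (i b c i' b' c' : (ι → M) → M) [DF i] [DF b] [DF c] [DF i'] [DF b'] [DF c'] :
    DR (fun v => TLt (i v) (b v) (c v) (i' v) (b' v) (c' v)) := by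
  unfold NPA.TLt TL MaxLt
  infer_instance

/-- Triples. -/
noncomputable def tri (i b c : M) : M := opair i (opair b c)

instance DF.tri (i b c : (ι → M) → M) [DF i] [DF b] [DF c] :
    DF (fun v => tri (i v) (b v) (c v)) := by
  unfold NPA.tri
  infer_instance

/-- The recursion step for `dec`. -/
noncomputable def decStep (α g : M) : M :=
  iota (fun t => ∃ i b c, t = tri i b c ∧ i ∈ (num 11 : M) ∧ Ord b ∧ Ord c ∧
    ∀ i' b' c', i' ∈ (num 11 : M) → Ord b' → Ord c' →
      (TLt i' b' c' i b c ↔ ∃ β, β ∈ α ∧ ap g β = tri i' b' c'))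

instance DF.decStep (α g : (ι → M) → M) [DF α] [DF g] : DF (fun v => decStep (α v) (g v)) := by
  unfold NPA.decStep
  infer_instance

/-- `dec α` is the `α`-th triple `(i, b, c)`, `i < 11`, `b` and `c` ordinals, in the order `TLt`. -/
noncomputable def dec (α : M) : M := erec (fun α g => decStep α g) α

instance DF.dec (s : (ι → M) → M) [DF s] : DF (fun v => dec (s v)) := by
  unfold NPA.dec
  infer_instance

/-- The three components of `dec α`. -/
noncomputable def dI (α : M) : M := iota (fun i => ∃ b c, dec α = tri i b c)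
noncomputable def dB (α : M) : M := iota (fun b => ∃ i c, dec α = tri i b c)
noncomputable def dC (α : M) : M := iota (fun c => ∃ i b, dec α = tri i b c)

instance DF.dI (s : (ι → M) → M) [DF s] : DF (fun v => dI (s v)) := by
  unfold NPA.dI
  infer_instance

instance DF.dB (s : (ι → M) → M) [DF s] : DF (fun v => dB (s v)) := by
  unfold NPA.dB
  infer_instance

instance DF.dC (s : (ι → M) → M) [DF s] : DF (fun v => dC (s v)) := by
  unfold NPA.dC
  infer_instance

/-- Membership of `w` in the value of the operation number `i` at the stage `α`, applied to the sets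
`X` and `Y`. -/
def OpMem (A α i X Y w : M) : Prop :=
  i = num 0 ∨
  (i = num 1 ∧ (w = X ∨ w = Y)) ∨
  (i = num 2 ∧ w ∈ X ∧ w ∉ Y) ∨
  (i = num 3 ∧ w ∈ X ∧ ∃ u v, w = opair u v ∧ u ∈ v) ∨
  (i = num 4 ∧ w ∈ X ∧ ∃ u v, w = opair u v ∧ v ∈ Y) ∨
  (i = num 5 ∧ w ∈ X ∧ ∃ u v, w = opair u v ∧ opair v u ∈ Y) ∨
  (i = num 6 ∧ w ∈ X ∧ ∃ v, opair w v ∈ Y) ∨
  (i = num 7 ∧ w ∈ X ∧ ∃ t y x, w = opair (opair t y) x ∧ opair y x ∈ Y) ∨
  (i = num 8 ∧ w ∈ X ∧ ∃ t y x, w = opair (opair t y) x ∧ opair t x ∈ Y) ∨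
  (i = num 9 ∧ w ∈ X ∧ w ∈ A ∧ ∃ d k, d ∈ α ∧ k ∈ (omega : M) ∧ w = opair d k) ∨
  (i = num 10 ∧ w ∈ X ∧ ∃ u, w = opair u u)

set_option synthInstance.maxSize 100000 in
instance DR.OpMem (A α i X Y w : (ι → M) → M) [DF A] [DF α] [DF i] [DF X] [DF Y] [DF w] :
    DR (fun v => OpMem (A v) (α v) (i v) (X v) (Y v) (w v)) := by
  unfold NPA.OpMem
  infer_instance

/-- The recursion step for `hF`. -/
noncomputable def hStep (A α g : M) : M :=
  sep (img α (fun β => ap g β))
    (fun w => OpMem A α (dI α) (ap g (dB α)) (ap g (dC α)) w)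

instance DF.hStep (A α g : (ι → M) → M) [DF A] [DF α] [DF g] :
    DF (fun v => hStep (A v) (α v) (g v)) := by
  unfold NPA.hStep
  infer_instance

/-- Goedel's enumeration of the sets constructible relative to `A`:
`hF A α = {w ∈ {hF A β : β < α} : OpMem A α i (hF A b) (hF A c) w}` where `dec α = (i, b, c)`. -/
noncomputable def hF (A α : M) : M := erec (fun α g => hStep A α g) α

instance DF.hF (A s : (ι → M) → M) [DF A] [DF s] : DF (fun v => hF (A v) (s v)) := by
  unfold NPA.hF
  infer_instance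

/-- The class `L[A]`. -/
def InL (A x : M) : Prop := ∃ α, Ord α ∧ x = hF A α

instance DR.InL (A x : (ι → M) → M) [DF A] [DF x] : DR (fun v => InL (A v) (x v)) := by
  unfold NPA.InL
  infer_instance

/-- The set of all reals in `L[A]`. -/
noncomputable def RL (A : M) : M := sep RS (fun x => InL A x)

instance DF.RL (A : (ι → M) → M) [DF A] : DF (fun v => RL (A v)) := by
  unfold NPA.RL
  infer_instance

/-- The minimality property of the base model (for `Pi^1_m`-determinacy): an inner model `L[A]`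
whose reals satisfy `Pi^1_m`-determinacy has uncountably many reals. -/
def Mini (M : Type u) [ZFM M] (m : ℕ) : Prop := ∀ A : M, Det (RL A) m → ¬ Ctb (RL A)

/-- `δ` is a coding stage for `A`: `hF A δ` is a new subset of `omega`. -/
def CS (A δ : M) : Prop := hF A δ ⊆ omega ∧ ∀ β, β ∈ δ → hF A β ≠ hF A δ

instance DR.CS (A δ : (ι → M) → M) [DF A] [DF δ] : DR (fun v => CS (A v) (δ v)) := by
  unfold NPA.CS
  infer_instance

end Pool.Agent.ZFIter.NPA
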