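import Pool.Agent.NPA.Defs2

/-!
# Basic definitions, part 3: codes

A code is a real `c`. Its domain is `omega`, and it codes
* a linear order `cLt c` of `omega`,
* the relation `cE c` (to be thought of as `hF A α ∈ hF A β`),
* the predicate `cA c m k` (to be thought of as `(m, k) ∈ A`),
* the three components `cI, cB, cC` of the function `dec`,
* the enumeration `cN` of the first `omega` elements of the order,
* a number `cS` (the code of a finite sequence, the stem), a number `cU` (the code of the finite set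
  of promises), a number `cJ` (the index of a block), the last element `cT` of the order,
* the predicate `cCS` (coding stages), the relation `cO c u d` (to be thought of as
  `hF A α = δ` for the ordinals `α`, `δ` which `u`, `d` stand for), and the numbers `cQ c d k n`, which are the codes of the
  initial segments of the reals used for the almost disjoint coding.
-/

universe u

namespace Pool.Agent.ZFIter.NPA

open Pool.Agent.H78.ZF Pool.Agent.ZFIter

variable {M : Type u} [ZFM M] {ι κ : Type}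

def cLt (c m n : M) : Prop := ap c (pr (num 0) (pr m n)) = emp
def cE (c m n : M) : Prop := ap c (pr (num 1) (pr m n)) = emp
def cA (c m k : M) : Prop := ap c (pr (num 2) (pr m k)) = emp
noncomputable def cI (c a : M) : M := ap c (pr (num 3) a)
noncomputable def cB (c a : M) : M := ap c (pr (num 4) a)
noncomputable def cC (c a : M) : M := ap c (pr (num 5) a)
noncomputable def cN (c n : M) : M := ap c (pr (num 6) n)
noncomputable def cS (c : M) : M := ap c (pr (num 7) emp)
noncomputable def cU (c : M) : M := ap c (pr (num 8) emp)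
noncomputable def cJ (c : M) : M := ap c (pr (num 9) emp)
def cCS (c d : M) : Prop := ap c (pr (num 10) d) = emp
noncomputable def cQ (c d k n : M) : M := ap c (pr (num 11) (pr (pr d k) n))
noncomputable def cT (c : M) : M := ap c (pr (num 12) emp)
def cO (c u d : M) : Prop := ap c (pr (num 13) (pr u d)) = emp

section
variable (c m n k : (ι → M) → M) [DF c] [DF m] [DF n] [DF k]
instance DR.cLt : DR (fun v => cLt (c v) (m v) (n v)) := by unfold NPA.cLt; infer_instance
instance DR.cE : DR (fun v => cE (c v) (m v) (n v)) := by unfold NPA.cE; infer_instance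
instance DR.cA : DR (fun v => cA (c v) (m v) (n v)) := by unfold NPA.cA; infer_instance
instance DF.cI : DF (fun v => cI (c v) (m v)) := by unfold NPA.cI; infer_instance
instance DF.cB : DF (fun v => cB (c v) (m v)) := by unfold NPA.cB; infer_instance
instance DF.cC : DF (fun v => cC (c v) (m v)) := by unfold NPA.cC; infer_instance
instance DF.cN : DF (fun v => cN (c v) (m v)) := by unfold NPA.cN; infer_instance
instance DF.cS : DF (fun v => cS (c v)) := by unfold NPA.cS; infer_instance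
instance DF.cU : DF (fun v => cU (c v)) := by unfold NPA.cU; infer_instance
instance DF.cJ : DF (fun v => cJ (c v)) := by unfold NPA.cJ; infer_instance
instance DR.cCS : DR (fun v => cCS (c v) (m v)) := by unfold NPA.cCS; infer_instance
instance DF.cQ : DF (fun v => cQ (c v) (m v) (n v) (k v)) := by unfold NPA.cQ; infer_instance
instance DF.cT : DF (fun v => cT (c v)) := by unfold NPA.cT; infer_instance
instance DR.cO : DR (fun v => cO (c v) (m v) (n v)) := by unfold NPA.cO; infer_instance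
end

/-- `a` and `b` have the same `cE`-elements. -/
def cEq (c a b : M) : Prop := ∀ w, w ∈ (omega : M) → (cE c w a ↔ cE c w b)

/-- `p = {a, b}` in the sense of `c`. -/
def cUp (c p a b : M) : Prop := ∀ w, w ∈ (omega : M) → (cE c w p ↔ cEq c w a ∨ cEq c w b)

section
variable (c p a b : (ι → M) → M) [DF c] [DF p] [DF a] [DF b]
instance DR.cEq : DR (fun v => cEq (c v) (a v) (b v)) := by unfold NPA.cEq; infer_instance
instance DR.cUp : DR (fun v => cUp (c v) (p v) (a v) (b v)) := by unfold NPA.cUp; infer_instance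
end

/-- `p = (a, b)` in the sense of `c`. -/
def cPr (c p a b : M) : Prop :=
  ∃ u, u ∈ (omega : M) ∧ ∃ v, v ∈ (omega : M) ∧ cUp c u a a ∧ cUp c v a b ∧ cUp c p u v

section
variable (c p a b : (ι → M) → M) [DF c] [DF p] [DF a] [DF b]
instance DR.cPr : DR (fun v => cPr (c v) (p v) (a v) (b v)) := by unfold NPA.cPr; infer_instance
end

/-- Membership of `w` in the value of the operation at `a`, in the sense of `c`. -/
def cOp (c a w : M) : Prop :=
  cI c a = num 0 ∨
  (cI c a = num 1 ∧ (cEq c w (cB c a) ∨ cEq c w (cC c a))) ∨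
  (cI c a = num 2 ∧ cE c w (cB c a) ∧ ¬ cE c w (cC c a)) ∨
  (cI c a = num 3 ∧ cE c w (cB c a) ∧ ∃ u, u ∈ (omega : M) ∧ ∃ v, v ∈ (omega : M) ∧
    cPr c w u v ∧ cE c u v) ∨
  (cI c a = num 4 ∧ cE c w (cB c a) ∧ ∃ u, u ∈ (omega : M) ∧ ∃ v, v ∈ (omega : M) ∧
    cPr c w u v ∧ cE c v (cC c a)) ∨
  (cI c a = num 5 ∧ cE c w (cB c a) ∧ ∃ u, u ∈ (omega : M) ∧ ∃ v, v ∈ (omega : M) ∧
    cPr c w u v ∧ ∃ z, z ∈ (omega : M) ∧ cPr c z v u ∧ cE c z (cC c a)) ∨
  (cI c a = num 6 ∧ cE c w (cB c a) ∧ ∃ v, v ∈ (omega : M) ∧ ∃ z, z ∈ (omega : M) ∧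
    cPr c z w v ∧ cE c z (cC c a)) ∨
  (cI c a = num 7 ∧ cE c w (cB c a) ∧ ∃ s, s ∈ (omega : M) ∧ ∃ x, x ∈ (omega : M) ∧
    ∃ t, t ∈ (omega : M) ∧ ∃ y, y ∈ (omega : M) ∧ cPr c w s x ∧ cPr c s t y ∧
    ∃ z, z ∈ (omega : M) ∧ cPr c z y x ∧ cE c z (cC c a)) ∨
  (cI c a = num 8 ∧ cE c w (cB c a) ∧ ∃ s, s ∈ (omega : M) ∧ ∃ x, x ∈ (omega : M) ∧
    ∃ t, t ∈ (omega : M) ∧ ∃ y, y ∈ (omega : M) ∧ cPr c w s x ∧ cPr c s t y ∧
    ∃ z, z ∈ (omega : M) ∧ cPr c z t x ∧ cE c z (cC c a)) ∨
  (cI c a = num 9 ∧ cE c w (cB c a) ∧ ∃ d, d ∈ (omega : M) ∧ ∃ k, k ∈ (omega : M) ∧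
    cLt c d a ∧ cA c d k ∧ ∃ u, u ∈ (omega : M) ∧ ∃ v, v ∈ (omega : M) ∧ cPr c w u v ∧
    cO c u d ∧ cO c v (cN c k)) ∨
  (cI c a = num 10 ∧ cE c w (cB c a) ∧ ∃ u, u ∈ (omega : M) ∧ cPr c w u u)

set_option synthInstance.maxSize 100000 in
instance DR.cOp (c a w : (ι → M) → M) [DF c] [DF a] [DF w] :
    DR (fun v => cOp (c v) (a v) (w v)) := by
  unfold NPA.cOp
  infer_instance

/-- The order of triples in the sense of `c`. -/
def cTL (c i b g i' b' g' : M) : Prop := TL (cLt c) i b g i' b' g'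

set_option synthInstance.maxSize 100000 in
instance DR.cTL (c i b g i' b' g' : (ι → M) → M) [DF c] [DF i] [DF b] [DF g] [DF i'] [DF b'] [DF g'] :
    DR (fun v => cTL (c v) (i v) (b v) (g v) (i' v) (b' v) (g' v)) := by
  unfold NPA.cTL TL MaxLt
  infer_instance

/-- `c` codes a strict linear order of `omega`. -/
def CLin (c : M) : Prop :=
  (∀ a, a ∈ (omega : M) → ¬ cLt c a a) ∧
  (∀ a, a ∈ (omega : M) → ∀ b, b ∈ (omega : M) → ∀ d, d ∈ (omega : M) →
    cLt c a b → cLt c b d → cLt c a d) ∧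
  (∀ a, a ∈ (omega : M) → ∀ b, b ∈ (omega : M) → cLt c a b ∨ a = b ∨ cLt c b a)

/-- The functions `cI, cB, cC` enumerate an initial segment of the order of triples. -/
def CDec (c : M) : Prop :=
  (∀ a, a ∈ (omega : M) → cI c a ∈ (num 11 : M)) ∧
  (∀ a, a ∈ (omega : M) → ∀ b, b ∈ (omega : M) → cLt c a b →
    cTL c (cI c a) (cB c a) (cC c a) (cI c b) (cB c b) (cC c b)) ∧
  (∀ a, a ∈ (omega : M) → ∀ i, i ∈ (num 11 : M) → ∀ b, b ∈ (omega : M) → ∀ g, g ∈ (omega : M) →
    cTL c i b g (cI c a) (cB c a) (cC c a) →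
      ∃ d, d ∈ (omega : M) ∧ cLt c d a ∧ cI c d = i ∧ cB c d = b ∧ cC c d = g)

/-- `cN` enumerates the first elements of the order. -/
def CNum (c : M) : Prop :=
  (∀ a, a ∈ (omega : M) → ¬ cLt c a (cN c emp)) ∧
  (∀ n, n ∈ (omega : M) → cLt c (cN c n) (cN c (succ n)) ∧
    ∀ a, a ∈ (omega : M) → ¬ (cLt c (cN c n) a ∧ cLt c a (cN c (succ n))))

/-- The defining clause of `cE`. -/
def CMem (c : M) : Prop :=
  ∀ a, a ∈ (omega : M) → ∀ w, w ∈ (omega : M) →
    (cE c w a ↔ (∃ w', w' ∈ (omega : M) ∧ cLt c w' a ∧ cEq c w' w) ∧ cOp c a w)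

/-- `n` is an element of `d` in the sense of `c`. -/
def cNE (c n d : M) : Prop := ∃ w, w ∈ (omega : M) ∧ cE c w d ∧ cO c w (cN c n)

instance DR.cNE (c n d : (ι → M) → M) [DF c] [DF n] [DF d] :
    DR (fun v => cNE (c v) (n v) (d v)) := by
  unfold NPA.cNE
  infer_instance

/-- The coding stages are correct. -/
def CStg (c : M) : Prop :=
  ∀ d, d ∈ (omega : M) → (cCS c d ↔
    (∀ w, w ∈ (omega : M) → cE c w d → ∃ k, k ∈ (omega : M) ∧ cO c w (cN c k)) ∧
    ∀ w, w ∈ (omega : M) → cLt c w d → ¬ cEq c w d)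

/-- The relation `cO` is correct. -/
def COrd (c : M) : Prop :=
  ∀ u, u ∈ (omega : M) → ∀ d, d ∈ (omega : M) → (cO c u d ↔
    (∀ w, w ∈ (omega : M) → cE c w u → ∃ e, e ∈ (omega : M) ∧ cLt c e d ∧ cO c w e) ∧
    ∀ e, e ∈ (omega : M) → cLt c e d → ∃ w, w ∈ (omega : M) ∧ cE c w u ∧ cO c w e)

/-- The numbers `cQ` are correct. -/
def CSeq (c : M) : Prop :=
  ∀ d, d ∈ (omega : M) → ∀ k, k ∈ (omega : M) →
    cQ c d k emp = emp ∧ cQ c d k (num 1) = succ (pr emp k) ∧
    ∀ n, n ∈ (omega : M) →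
      (cNE c n d → cQ c d k (succ (succ n)) = succ (pr (cQ c d k (succ n)) emp)) ∧
      (¬ cNE c n d → cQ c d k (succ (succ n)) = succ (pr (cQ c d k (succ n)) (num 1)))

instance DR.CLin (c : (ι → M) → M) [DF c] : DR (fun v => CLin (c v)) := by
  unfold NPA.CLin; infer_instance
instance DR.CDec (c : (ι → M) → M) [DF c] : DR (fun v => CDec (c v)) := by
  unfold NPA.CDec; infer_instance
instance DR.CNum (c : (ι → M) → M) [DF c] : DR (fun v => CNum (c v)) := by
  unfold NPA.CNum; infer_instance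
instance DR.CMem (c : (ι → M) → M) [DF c] : DR (fun v => CMem (c v)) := by
  unfold NPA.CMem; infer_instance
instance DR.CStg (c : (ι → M) → M) [DF c] : DR (fun v => CStg (c v)) := by
  unfold NPA.CStg; infer_instance
instance DR.COrd (c : (ι → M) → M) [DF c] : DR (fun v => COrd (c v)) := by
  unfold NPA.COrd; infer_instance
instance DR.CSeq (c : (ι → M) → M) [DF c] : DR (fun v => CSeq (c v)) := by
  unfold NPA.CSeq; infer_instance

/-- The arithmetical part of the definition of a code. -/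
structure CArith (c : M) : Prop where
  real : c ∈ (RS : M)
  lin : CLin c
  dec : CDec c
  nm : CNum c
  mem : CMem c
  ord : COrd c
  stg : CStg c
  seq : CSeq c

theorem CArith_iff (c : M) : CArith c ↔
    c ∈ (RS : M) ∧ CLin c ∧ CDec c ∧ CNum c ∧ CMem c ∧ COrd c ∧ CStg c ∧ CSeq c :=
  ⟨fun h => ⟨h.1, h.2, h.3, h.4, h.5, h.6, h.7, h.8⟩, fun h => ⟨h.1, h.2.1, h.2.2.1, h.2.2.2.1,
    h.2.2.2.2.1, h.2.2.2.2.2.1, h.2.2.2.2.2.2.1, h.2.2.2.2.2.2.2⟩⟩

instance DR.CArith (c : (ι → M) → M) [DF c] : DR (fun v => CArith (c v)) := by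
  simp only [CArith_iff]; infer_instance

/-- The order of `c` is a well-order. -/
def CWf (c : M) : Prop :=
  ∀ v, v ∈ (RS : M) → ∃ n, n ∈ (omega : M) ∧ ¬ cLt c (ap v (succ n)) (ap v n)

instance DR.CWf (c : (ι → M) → M) [DF c] : DR (fun v => CWf (c v)) := by
  unfold NPA.CWf; infer_instance

/-- Codes. -/
def Code (c : M) : Prop := CArith c ∧ CWf c

instance DR.Code (c : (ι → M) → M) [DF c] : DR (fun v => Code (c v)) := by
  unfold NPA.Code; infer_instance

/-- `f` is the rank function of the order of `c`. -/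
def IsRk (c f : M) : Prop :=
  IsSeq f omega ∧ ∀ m, m ∈ (omega : M) →
    ap f m = img (sep omega (fun n => cLt c n m)) (fun n => ap f n)

set_option synthInstance.maxSize 100000 in
instance DR.IsRk (c f : (ι → M) → M) [DF c] [DF f] : DR (fun v => IsRk (c v) (f v)) := by
  unfold NPA.IsRk; infer_instance

/-- The rank function of the order of `c`. -/
noncomputable def crk (c : M) : M := iota (fun f => IsRk c f)

instance DF.crk (c : (ι → M) → M) [DF c] : DF (fun v => crk (c v)) := by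
  unfold NPA.crk; infer_instance

/-- The ordinal `m` stands for. -/
noncomputable def rk (c m : M) : M := ap (crk c) m

instance DF.rk (c m : (ι → M) → M) [DF c] [DF m] : DF (fun v => rk (c v) (m v)) := by
  unfold NPA.rk; infer_instance

/-- The subset of (ordinals) x `omega` coded by `c`. -/
noncomputable def cSet (c : M) : M :=
  sep (prod (img omega (fun m => rk c m)) omega)
    (fun z => ∃ m, m ∈ (omega : M) ∧ ∃ k, k ∈ (omega : M) ∧ z = opair (rk c m) k ∧ cA c m k)

instance DF.cSet (c : (ι → M) → M) [DF c] : DF (fun v => cSet (c v)) := by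
  unfold NPA.cSet; infer_instance

end Pool.Agent.ZFIter.NPA
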