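import Pool.Agent.NPA.Defs3

/-!
# Basic definitions, part 4: the forcing, names of reals, the forcing relation, properness
-/

universe u

namespace Pool.Agent.ZFIter.NPA

open Pool.Agent.H78.ZF Pool.Agent.ZFIter

variable {M : Type u} [ZFM M] {ι κ : Type}

/-! ### Sequence codes -/

/-- `s` is the code of an initial segment of the sequence with code `t`. -/
def Pfx (s t : M) : Prop :=
  ∃ x, x ∈ (RS : M) ∧ ∃ n, n ∈ (omega : M) ∧ ∃ m, m ∈ (omega : M) ∧ m ⊆ n ∧ s = sq x m ∧ t = sq x n

/-- the `j`-th entry of the sequence with code `s` is `v` (in particular `j < length of s`) -/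
def Ent (s j v : M) : Prop :=
  ∃ x, x ∈ (RS : M) ∧ ∃ n, n ∈ (omega : M) ∧ s = sq x n ∧ j ∈ n ∧ ap x j = v

/-- `s` is the code of a finite sequence of zeros and ones. -/
def Bin (s : M) : Prop :=
  ∃ x, x ∈ (RS : M) ∧ ∃ n, n ∈ (omega : M) ∧ s = sq x n ∧ ∀ j, j ∈ n → ap x j ∈ (num 2 : M)

section
variable (s t j v : (ι → M) → M) [DF s] [DF t] [DF j] [DF v]
instance DR.Pfx : DR (fun w => Pfx (s w) (t w)) := by unfold NPA.Pfx; infer_instance
instance DR.Ent : DR (fun w => Ent (s w) (j w) (v w)) := by unfold NPA.Ent; infer_instance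
instance DR.Bin : DR (fun w => Bin (s w)) := by unfold NPA.Bin; infer_instance
end

/-! ### The conditions as sets -/

/-- `(A, θ)` is a condition of the first part: `θ` is a countable coding stage for `A ⊆ θ × omega`, and
`A` has points only above coding stages. -/
def Cond0 (A θ : M) : Prop :=
  Ord θ ∧ omega ⊆ θ ∧ Ctb θ ∧ A ⊆ prod θ omega ∧ CS A θ ∧ ∀ δ k, opair δ k ∈ A → CS A δ

/-- The real used for coding the bit `(δ, k)`: it is `k` followed by the characteristic function of
`hF A δ` (value `0` on the elements). -/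
noncomputable def bs (A δ k : M) : M :=
  mkf omega omega (fun n => iota (fun y => (n = emp ∧ y = k) ∨
    (n ≠ emp ∧ sUn n ∈ hF A δ ∧ y = emp) ∨ (n ≠ emp ∧ sUn n ∉ hF A δ ∧ y = num 1)))

/-- `j` is (the code of) an initial segment of the real `bs A δ k`. -/
def OnB (A δ k j : M) : Prop := ∃ n, n ∈ (omega : M) ∧ j = sq (bs A δ k) n

section
variable (A θ δ k j : (ι → M) → M) [DF A] [DF θ] [DF δ] [DF k] [DF j]
instance DR.Cond0 : DR (fun w => Cond0 (A w) (θ w)) := by unfold NPA.Cond0; infer_instance
instance DF.bs : DF (fun w => bs (A w) (δ w) (k w)) := by unfold NPA.bs; infer_instance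
instance DR.OnB : DR (fun w => OnB (A w) (δ w) (k w) (j w)) := by unfold NPA.OnB; infer_instance
end

/-- `F` is a finite set of promises for `A`. -/
def Promise (A F : M) : Prop := FinM F ∧ F ⊆ A

/-- The order of the first part: `(B, η)` is stronger than `(A, θ)`. -/
def Ext0 (B η A θ : M) : Prop :=
  θ ⊆ η ∧ ∀ δ k, δ ∈ θ → (opair δ k ∈ B ↔ opair δ k ∈ A)

/-- `t` extends the stem `s` and respects the promises `F ⊆ A`. -/
def StemExt (A F s t : M) : Prop :=
  Pfx s t ∧ ∀ δ k j v, opair δ k ∈ F → Ent t j v → v ≠ emp → (∃ w, Ent s j w) ∨ ¬ OnB A δ k j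

section
variable (A θ B η F s t : (ι → M) → M) [DF A] [DF θ] [DF B] [DF η] [DF F] [DF s] [DF t]
instance DR.Ext0 : DR (fun w => Ext0 (B w) (η w) (A w) (θ w)) := by unfold NPA.Ext0; infer_instance
set_option synthInstance.maxSize 100000 in
instance DR.StemExt : DR (fun w => StemExt (A w) (F w) (s w) (t w)) := by
  unfold NPA.StemExt; infer_instance
end

/-! ### The conditions as reals -/

/-- The set of promises coded by `c`. -/
noncomputable def cPm (c : M) : M :=
  sep (cSet c) (fun z => ∃ m, m ∈ (omega : M) ∧ ∃ k, k ∈ (omega : M) ∧ z = opair (rk c m) k ∧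
    ∃ j, Ent (cU c) j (pr m k))

/-- The ordinal of the top element. -/
noncomputable def cTh (c : M) : M := rk c (cT c)

/-- `cA` lives on coding stages. -/
def CSup (c : M) : Prop :=
  ∀ d, d ∈ (omega : M) → ∀ k, k ∈ (omega : M) → cA c d k → cCS c d

/-- The additional clauses for codes of conditions: the order has a top element, which is a coding
stage and carries no point of `cA`; the stem is a finite sequence of zeros and ones; the promises
are points of `cA`. -/
def CTop (c : M) : Prop :=
  (∀ a, a ∈ (omega : M) → a = cT c ∨ cLt c a (cT c)) ∧ cCS c (cT c) ∧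
  (∀ k, k ∈ (omega : M) → ¬ cA c (cT c) k) ∧ Bin (cS c) ∧
  ∀ j v, Ent (cU c) j v → ∃ m, m ∈ (omega : M) ∧ ∃ k, k ∈ (omega : M) ∧ v = pr m k ∧ cA c m k

/-- `c` is (the code of) a condition. -/
def IsCond (c : M) : Prop := Code c ∧ CSup c ∧ CTop c

/-- The set of conditions. -/
noncomputable def PP : M := sep RS (fun c => IsCond c)

/-- The order of the conditions: `c` is stronger than `d`. -/
def CLe (c d : M) : Prop :=
  Ext0 (cSet c) (cTh c) (cSet d) (cTh d) ∧ cPm d ⊆ cPm c ∧ StemExt (cSet d) (cPm d) (cS d) (cS c)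

section
variable (c d : (ι → M) → M) [DF c] [DF d]
set_option synthInstance.maxSize 100000 in
instance DF.cPm : DF (fun w => cPm (c w)) := by unfold NPA.cPm; infer_instance
instance DF.cTh : DF (fun w => cTh (c w)) := by unfold NPA.cTh; infer_instance
set_option synthInstance.maxSize 100000 in
instance DR.CTop : DR (fun w => CTop (c w)) := by unfold NPA.CTop; infer_instance
instance DR.CSup : DR (fun w => CSup (c w)) := by unfold NPA.CSup; infer_instance
instance DR.IsCond : DR (fun w => IsCond (c w)) := by unfold NPA.IsCond; infer_instance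
instance DR.CLe : DR (fun w => CLe (c w) (d w)) := by unfold NPA.CLe; infer_instance
end

/-- The order relation as a set of pairs. -/
noncomputable def RR : M := sep (prod PP PP) (fun z => ∃ c d, z = opair c d ∧ CLe c d)

/-! ### Names of reals and the forcing relation for projective statements -/

/-- `N` is a `P`-name of a real: a set of triples `(q, n, m)`, read as `q ⊩ N(n) = m`. -/
def Nm (P R N : M) : Prop :=
  (∀ z, z ∈ N → ∃ q n m, q ∈ P ∧ n ∈ (omega : M) ∧ m ∈ (omega : M) ∧ z = opair q (opair n m)) ∧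
  (∀ q p n m, opair p (opair n m) ∈ N → Le P R q p → opair q (opair n m) ∈ N) ∧
  (∀ q n m m', opair q (opair n m) ∈ N → opair q (opair n m') ∈ N → m = m') ∧
  (∀ p n, p ∈ P → n ∈ (omega : M) → ∃ q m, Le P R q p ∧ opair q (opair n m) ∈ N)

/-- `q` decides the first `n` values of the name `N`; the code of this finite sequence is `s`. -/
def Decd (q N n s : M) : Prop :=
  ∃ x, x ∈ (RS : M) ∧ s = sq x n ∧ ∀ i, i ∈ n → opair q (opair i (ap x i)) ∈ N

/-- The name of the pair. -/
noncomputable def jnN (P N N' : M) : M :=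
  sep (prod P (prod omega omega)) (fun z => ∃ q n a b, z = opair q (opair n (pr a b)) ∧
    opair q (opair n a) ∈ N ∧ opair q (opair n b) ∈ N')

/-- The canonical name of a real of the ground model. -/
noncomputable def chk (P x : M) : M := prod P x

section
variable (P R N N' q n s x : (ι → M) → M) [DF P] [DF R] [DF N] [DF N'] [DF q] [DF n] [DF s] [DF x]
set_option synthInstance.maxSize 100000 in
instance DR.Nm : DR (fun w => Nm (P w) (R w) (N w)) := by unfold NPA.Nm; infer_instance
instance DR.Decd : DR (fun w => Decd (q w) (N w) (n w) (s w)) := by unfold NPA.Decd; infer_instance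
instance DF.jnN : DF (fun w => jnN (P w) (N w) (N' w)) := by unfold NPA.jnN; infer_instance
instance DF.chk : DF (fun w => chk (P w) (x w)) := by unfold NPA.chk; infer_instance
end

/-- `FPi P R m o p N`: the condition `p` forces that the real named by `N` belongs to the `Pi^1_m` set
coded by `o` (evaluated in the generic extension). -/
def FPi (P R : M) : ℕ → M → M → M → Prop
  | 0, o, p, N => ∀ q, Le P R q p → ∀ n, n ∈ (omega : M) → ∀ s, Decd q N n s → ap o s ≠ emp
  | m + 1, o, p, N => ∀ N', Nm P R N' → ∀ q, Le P R q p → ¬ FPi P R m o q (jnN P N N')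

theorem DR.FPi_aux (m : ℕ) : ∀ {ι : Type} (P R o p N : (ι → M) → M) [DF P] [DF R] [DF o] [DF p]
    [DF N], DR (fun v => FPi (P v) (R v) m (o v) (p v) (N v)) := by
  induction m with
  | zero =>
    intro ι P R o p N _ _ _ _ _
    simp only [FPi]
    infer_instance
  | succ m ih =>
    intro ι P R o p N _ _ _ _ _
    simp only [FPi]
    have h : DR (ι := Option (Option ι)) (fun v => FPi (P fun i => v (some (some i)))
        (R fun i => v (some (some i))) m (o fun i => v (some (some i))) (v none)
        (jnN (P fun i => v (some (some i))) (N fun i => v (some (some i))) (v (some none)))) :=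
      ih _ _ _ _ _
    infer_instance

instance DR.FPi (m : ℕ) (P R o p N : (ι → M) → M) [DF P] [DF R] [DF o] [DF p] [DF N] :
    DR (fun v => FPi (P v) (R v) m (o v) (p v) (N v)) := DR.FPi_aux m P R o p N

/-! ### Properness -/

/-- `C` is a closed unbounded family of countable subsets of `H`. -/
def Club (C H : M) : Prop :=
  (∀ X, X ∈ C → X ⊆ H ∧ Ctb X) ∧
  (∀ Y : M, Y ⊆ H → Ctb Y → ∃ X, X ∈ C ∧ Y ⊆ X) ∧
  (∀ f, Fun f omega C → (∀ n, n ∈ (omega : M) → ap f n ⊆ ap f (succ n)) →
    sUn (img omega (fun n => ap f n)) ∈ C)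

/-- `D` is a dense subset of `(P, R)`. -/
def Dense (P R D : M) : Prop := D ⊆ P ∧ ∀ p, p ∈ P → ∃ q, q ∈ D ∧ Le P R q p

/-- `q` is `(X, P)`-generic: every dense set `D ∈ X` is met by `D ∩ X` predensely below `q`. -/
def Gen (P R X q : M) : Prop :=
  ∀ D, D ∈ X → Dense P R D → ∀ r, Le P R r q → ∃ d, d ∈ D ∧ d ∈ X ∧ ∃ s, Le P R s r ∧ Le P R s d

/-- `(P, R)` is proper: for every set `H` including `P` there are club many countable `X ⊆ H` such
that every condition in `X` has an `(X, P)`-generic extension. -/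
def Proper (P R : M) : Prop :=
  ∀ H : M, P ⊆ H → ∃ C, Club C H ∧ ∀ X, X ∈ C → ∀ p, p ∈ X → p ∈ P → ∃ q, Le P R q p ∧ Gen P R X q

section
variable (P R C H D X q : (ι → M) → M) [DF P] [DF R] [DF C] [DF H] [DF D] [DF X] [DF q]
instance DR.Club : DR (fun w => Club (C w) (H w)) := by unfold NPA.Club; infer_instance
instance DR.Dense : DR (fun w => Dense (P w) (R w) (D w)) := by unfold NPA.Dense; infer_instance
instance DR.Gen : DR (fun w => Gen (P w) (R w) (X w) (q w)) := by unfold NPA.Gen; infer_instance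
instance DR.Proper : DR (fun w => Proper (P w) (R w)) := by unfold NPA.Proper; infer_instance
end

/-! ### Boldface pointclasses -/

/-- The class `P` of reals is boldface `Sigma^1_m` (for `m ≥ 1`). -/
def Sg (m : ℕ) (P : M → Prop) : Prop :=
  ∃ o, o ∈ (RS : M) ∧ ∀ x, x ∈ (RS : M) → (P x ↔ ¬ Pi RS m o x)

/-- The binary relation `S` on reals is boldface `Sigma^1_m`. -/
def Sg2 (m : ℕ) (S : M → M → Prop) : Prop :=
  ∃ o, o ∈ (RS : M) ∧ ∀ x, x ∈ (RS : M) → ∀ y, y ∈ (RS : M) → (S x y ↔ ¬ Pi RS m o (jn x y))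

/-- Incompatibility. -/
def Inc (P R p q : M) : Prop := p ∈ P ∧ q ∈ P ∧ ¬ ∃ r, Le P R r p ∧ Le P R r q

/-- `(P, R)` is a `Sigma^1_2` forcing: `P` is a nonempty set of reals, `R` is a preorder of `P`, and
`P`, the order and the incompatibility relation are boldface `Sigma^1_2`. -/
structure SForc (P R : M) : Prop where
  sub : P ⊆ RS
  ne : P ≠ emp
  refl : ∀ p, p ∈ P → Le P R p p
  trans : ∀ p q r, Le P R p q → Le P R q r → Le P R p r
  sP : Sg 2 (fun x => x ∈ P)
  sR : Sg2 2 (fun x y => Le P R x y)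
  sI : Sg2 2 (fun x y => Inc P R x y)

end Pool.Agent.ZFIter.NPA
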