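import Pool.Agent.NPA.Defs4

/-!
# Auxiliary definitions (used in the proofs only, not in the final statement)
-/

universe u

namespace Pool.Agent.ZFIter.NPA

open Pool.Agent.H78.ZF Pool.Agent.ZFIter

variable {M : Type u} [ZFM M] {ι κ : Type}

/-- The least ordinal with a property. -/
noncomputable def leastO (P : M → Prop) : M := iota (fun α => Ord α ∧ P α ∧ ∀ β, β ∈ α → ¬ P β)

instance DF.leastO (P : M → (ι → M) → Prop)
    [h : DR (ι := Option ι) (fun v => P (v none) (fun i => v (some i)))] :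
    DF (fun v => leastO (fun x => P x v)) := by
  have hw : DR (ι := Option (Option ι)) (fun v => P (v none) (fun i => v (some (some i)))) :=
    DR.weaken (fun w : Option ι → M => P (w none) (fun i => w (some i)))
      (fun o : Option ι => (match o with | none => none | some i => some (some i) :
        Option (Option ι)))
  unfold NPA.leastO
  infer_instance

/-- Even numbers. -/
def Evn (n : M) : Prop := ∃ k, k ∈ (omega : M) ∧ n = ev k

instance DR.Evn (s : (ι → M) → M) [DF s] : DR (fun v => Evn (s v)) := by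
  unfold NPA.Evn; infer_instance

/-- The two components of a real coding a pair of reals. -/
noncomputable def pL (w : M) : M :=
  mkf omega omega (fun k => iota (fun a => ∃ b, b ∈ (omega : M) ∧ a ∈ (omega : M) ∧ ap w k = pr a b))
noncomputable def pR (w : M) : M :=
  mkf omega omega (fun k => iota (fun b => ∃ a, a ∈ (omega : M) ∧ b ∈ (omega : M) ∧ ap w k = pr a b))

instance DF.pL (s : (ι → M) → M) [DF s] : DF (fun v => pL (s v)) := by
  unfold NPA.pL; infer_instance
instance DF.pR (s : (ι → M) → M) [DF s] : DF (fun v => pR (s v)) := by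
  unfold NPA.pR; infer_instance

/-! ### Closure of a set under a set-valued binary class function -/

/-- `X` is closed under `S`. -/
def ClS (S : M → M → M) (X : M) : Prop := ∀ a, a ∈ X → ∀ b, b ∈ X → S a b ⊆ X

/-- One closure step. -/
noncomputable def clStep (S : M → M → M) (Z : M) : M :=
  un Z (sUn (img Z (fun a => sUn (img Z (fun b => S a b)))))

/-- The closure of `X` under `S`. -/
noncomputable def cl (S : M → M → M) (X : M) : M :=
  sUn (img omega (fun n => recc (fun Z => clStep S Z) X n))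

instance clStep_F1 (S : M → M → M) [F2 S] : F1 (clStep S) := by
  have : DF (fun v : Unit → M => clStep S (v ())) := by
    unfold clStep; infer_instance
  infer_instance

instance cl_F1 (S : M → M → M) [F2 S] : F1 (cl S) := by
  have : DF (fun v : Unit → M => cl S (v ())) := by
    unfold cl; infer_instance
  infer_instance

/-! ### Order types -/

/-- The order type of `{β ∈ Y : β < α}` (for a set `Y` of ordinals). -/
noncomputable def otp (Y α : M) : M :=
  erec (fun α g => img (sep Y (fun β => β ∈ α)) (fun β => ap g β)) α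

instance DF.otp (Y s : (ι → M) → M) [DF Y] [DF s] : DF (fun v => otp (Y v) (s v)) := by
  unfold NPA.otp
  infer_instance

/-! ### Sets of ordinals closed under witnesses for the clauses of codes -/

/-- The closure conditions on a set `Y` of ordinals, which make
`({hF A α : α ∈ Y}, ∈)` and the order of `Y` into a code. -/
structure YCl (A Y : M) : Prop where
  ords : ∀ a, a ∈ Y → Ord a
  om : omega ⊆ Y
  comp : ∀ a, a ∈ Y → dB a ∈ Y ∧ dC a ∈ Y
  init : ∀ a, a ∈ Y → ∀ i, i ∈ (num 11 : M) → ∀ b, b ∈ Y → ∀ c, c ∈ Y →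
    TLt i b c (dI a) (dB a) (dC a) → ∃ d, d ∈ Y ∧ dI d = i ∧ dB d = b ∧ dC d = c
  ex : ∀ a, a ∈ Y → ∀ b, b ∈ Y → (∃ w, w ∈ hF A a ∧ w ∉ hF A b) →
    ∃ w, w ∈ Y ∧ hF A w ∈ hF A a ∧ hF A w ∉ hF A b
  ex2 : ∀ p, p ∈ Y → ∀ a, a ∈ Y → ∀ b, b ∈ Y →
    (∃ w, w ∈ hF A p ∧ w ≠ hF A a ∧ w ≠ hF A b) →
    ∃ w, w ∈ Y ∧ hF A w ∈ hF A p ∧ hF A w ≠ hF A a ∧ hF A w ≠ hF A b
  low : ∀ w, w ∈ Y → ∀ a, a ∈ Y → hF A w ∈ hF A a → ∃ w', w' ∈ Y ∧ w' ∈ a ∧ hF A w' = hF A w
  pair : ∀ w, w ∈ Y → ∀ x y, hF A w = opair x y →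
    ∃ u, u ∈ Y ∧ hF A u = x ∧ ∃ v, v ∈ Y ∧ hF A v = y ∧
    ∃ p, p ∈ Y ∧ hF A p = sing x ∧ ∃ q, q ∈ Y ∧ hF A q = upair x y
  op6 : ∀ w, w ∈ Y → ∀ c, c ∈ Y → (∃ v, opair (hF A w) v ∈ hF A c) →
    ∃ v, v ∈ Y ∧ ∃ z, z ∈ Y ∧ hF A z = opair (hF A w) (hF A v) ∧ hF A z ∈ hF A c
  op5 : ∀ u, u ∈ Y → ∀ v, v ∈ Y → ∀ c, c ∈ Y → opair (hF A u) (hF A v) ∈ hF A c →
    ∃ z, z ∈ Y ∧ hF A z = opair (hF A u) (hF A v)
  ord1 : ∀ w, w ∈ Y → Ord (hF A w) → hF A w ∈ Y
  ord2 : ∀ u, u ∈ Y → ∀ d, d ∈ Y → d ∈ hF A u → ∃ w, w ∈ Y ∧ hF A w = d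
  ord3 : ∀ u, u ∈ Y → ∀ d, d ∈ Y → (∃ x, x ∈ hF A u ∧ x ∉ d) →
    ∃ w, w ∈ Y ∧ hF A w ∈ hF A u ∧ hF A w ∉ d
  ord4 : ∀ u, u ∈ Y → ∀ d, d ∈ Y → (∃ e, e ∈ d ∧ e ∉ hF A u) → ∃ e, e ∈ Y ∧ e ∈ d ∧ e ∉ hF A u

/-! ### The arithmetical matrix of the `Sigma^1_4` statement -/

/-- The real `r` (a set of numbers: the numbers where it is nonzero) matches the code `c`: for coding
stages `d` below the top, `cA c d k` holds iff `r` has only finitely many points on the branch. -/
def Mat (r c : M) : Prop :=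
  ∀ d, d ∈ (omega : M) → cLt c d (cT c) → cCS c d → ∀ k, k ∈ (omega : M) →
    (cA c d k ↔ ∃ N, N ∈ (omega : M) ∧ ∀ n, n ∈ (omega : M) → N ⊆ n → ap r (cQ c d k n) = emp)

/-- The `k`-th value of the real coded by the block `j` of `c` and by `r` is `v`: for all large `n` the
table in the block has the value `v`, and no other value, at `k` and the first `n` values of `r`. -/
def Zr (r c j k v : M) : Prop :=
  ∃ N, N ∈ (omega : M) ∧ ∀ n, n ∈ (omega : M) → N ⊆ n → ∀ w, w ∈ (omega : M) →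
    (cA c j (pr emp (pr (pr k (sq r n)) (succ w))) ↔ v = w)

/-- `x` is coded by the block `j` of `c` and by `r`. -/
def Zt (r c x : M) : Prop := ∀ k, k ∈ (omega : M) → Zr r c (cJ c) k (ap x k)

instance DR.Mat (r c : (ι → M) → M) [DF r] [DF c] : DR (fun v => Mat (r v) (c v)) := by
  unfold NPA.Mat; infer_instance
instance DR.Zr (r c j k w : (ι → M) → M) [DF r] [DF c] [DF j] [DF k] [DF w] :
    DR (fun v => Zr (r v) (c v) (j v) (k v) (w v)) := by
  unfold NPA.Zr; infer_instance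
instance DR.Zt (r c x : (ι → M) → M) [DF r] [DF c] [DF x] : DR (fun v => Zt (r v) (c v) (x v)) := by
  unfold NPA.Zt; infer_instance

/-- The matrix: `c` is a code of a condition (without well-foundedness) which matches `r` and codes
`x`. -/
def Psi (r x c : M) : Prop := CArith c ∧ CSup c ∧ CTop c ∧ Mat r c ∧ Zt r c x

instance DR.Psi (r x c : (ι → M) → M) [DF r] [DF c] [DF x] : DR (fun v => Psi (r v) (x v) (c v)) := by
  unfold NPA.Psi; infer_instance

/-- The conditions on the Skolem function: `m` is a correct value at `k`. -/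
def BB (r x c k m : M) : Prop :=
  (∀ d i, d ∈ (omega : M) → i ∈ (omega : M) → k = pr (num 0) (pr d i) →
    cLt c d (cT c) → cCS c d → cA c d i →
      ∀ n, n ∈ (omega : M) → m ⊆ n → ap r (cQ c d i n) = emp) ∧
  (∀ d i l, d ∈ (omega : M) → i ∈ (omega : M) → l ∈ (omega : M) → k = pr (num 1) (pr (pr d i) l) →
    cLt c d (cT c) → cCS c d → ¬ cA c d i → l ⊆ m ∧ ap r (cQ c d i m) ≠ emp) ∧
  (∀ i, i ∈ (omega : M) → k = pr (num 2) i →
    ∀ n, n ∈ (omega : M) → m ⊆ n → ∀ w, w ∈ (omega : M) →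
      (cA c (cJ c) (pr emp (pr (pr i (sq r n)) (succ w))) ↔ ap x i = w))

set_option synthInstance.maxSize 100000 in
instance DR.BB (r x c k m : (ι → M) → M) [DF r] [DF x] [DF c] [DF k] [DF m] :
    DR (fun v => BB (r v) (x v) (c v) (k v) (m v)) := by
  unfold NPA.BB; infer_instance

/-- The closed matrix; `C` is a closed class of reals such that the first part of `Psi` holds for `c`
iff `C (jn c y)` for some `y`. -/
def UU (C : M → Prop) (r x c y N : M) : Prop :=
  C (jn c y) ∧ ∀ k, k ∈ (omega : M) → BB r x c k (ap N k)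

/-- The class `P` of reals is closed. -/
def IsCl (P : M → Prop) : Prop :=
  ∀ x, x ∈ (RS : M) → (∀ n, n ∈ (omega : M) → ∃ y, y ∈ (RS : M) ∧ P y ∧ sq y n = sq x n) → P x

/-- `P` and its complement are boldface `Sigma^1_1`. -/
def Bi (P : M → Prop) : Prop := Sg 1 P ∧ Sg 1 (fun x => ¬ P x)

/-- `w` is the real obtained from the name `N` by a decreasing sequence of conditions below `q`
which decides all values of `N`. -/
def Brn (P R q N w : M) : Prop :=
  w ∈ (RS : M) ∧ ∃ f, Fun f omega P ∧ Le P R (ap f emp) q ∧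
    (∀ n, n ∈ (omega : M) → Le P R (ap f (succ n)) (ap f n)) ∧
    ∀ n, n ∈ (omega : M) → opair (ap f n) (opair n (ap w n)) ∈ N

/-- The name of the generic real. -/
noncomputable def rN : M :=
  sep (prod PP (prod omega omega)) (fun z => ∃ q j v, z = opair q (opair j v) ∧ Ent (cS q) j v)

/-- The real `y` is coded in the block of `A` at `δ`. -/
def BlkR (A δ y : M) : Prop :=
  ∀ i, i ∈ (omega : M) → ∀ v, v ∈ (omega : M) →
    (opair δ (pr emp (pr i v)) ∈ A ↔ ap y i = v)

instance DR.BlkR (A δ y : (ι → M) → M) [DF A] [DF δ] [DF y] :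
    DR (fun v => BlkR (A v) (δ v) (y v)) := by
  unfold NPA.BlkR; infer_instance

end Pool.Agent.ZFIter.NPA
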