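import Pool.Agent.NPA.Defs4

/-!
# Definitions for the final statement: generic filters, stationary sets
-/

universe u

namespace Pool.Agent.ZFIter.NPA

open Pool.Agent.H78.ZF Pool.Agent.ZFIter

variable {M : Type u} [ZFM M] {ι : Type}

/-- `G` is a `(P, R)`-generic filter over the model `M` (an external object: a set of elements
of `M`): it meets every dense set of the model. -/
def GFil (P R : M) (G : Set M) : Prop :=
  (∀ p, p ∈ G → p ∈ P) ∧ (∃ p, p ∈ G) ∧ (∀ p q, p ∈ G → Le P R p q → q ∈ G) ∧
  (∀ p q, p ∈ G → q ∈ G → ∃ r, r ∈ G ∧ Le P R r p ∧ Le P R r q) ∧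
  ∀ D, Dense P R D → ∃ p, p ∈ D ∧ p ∈ G

/-- Truth of projective statements in the generic extension `M[G]`: the real named by `N` (its value
at `n` is the `m` with `(q, n, m) ∈ N` for some `q ∈ G`) belongs to the `Pi^1_m` set coded by `o`, the real
quantifiers ranging over all reals of `M[G]`, that is, over all names. -/
def TPi (P R : M) (G : Set M) : ℕ → M → M → Prop
  | 0, o, N => ∀ q, q ∈ G → ∀ n, n ∈ (omega : M) → ∀ s, Decd q N n s → ap o s ≠ emp
  | m + 1, o, N => ∀ N', Nm P R N' → ¬ TPi P R G m o (jnN P N N')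

/-- The set of all finite sequences of elements of `L`. -/
noncomputable def FinSq (L : M) : M :=
  sep (pow (prod omega L)) (fun s => ∃ n, n ∈ (omega : M) ∧ Fun s n L)

instance DF.FinSq (L : (ι → M) → M) [DF L] : DF (fun v => FinSq (L v)) := by
  unfold NPA.FinSq; infer_instance

/-- `S` is a stationary family of countable subsets of `L`: for every function `g` from the finite
sequences of elements of `L` to `L` some `X ∈ S` is closed under `g`. -/
def Stat (S L : M) : Prop :=
  (∀ X, X ∈ S → X ⊆ L ∧ Ctb X) ∧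
  ∀ g, Fun g (FinSq L) L → ∃ X, X ∈ S ∧ ∀ s, s ∈ FinSq X → ap g s ∈ X

/-- `F` is a `P`-name of a function from `A` to `B`: a set of triples `(q, a, b)`, read as
`q ⊩ F(a) = b`. -/
def FunNm (P R A B F : M) : Prop :=
  (∀ z, z ∈ F → ∃ q a b, q ∈ P ∧ a ∈ A ∧ b ∈ B ∧ z = opair q (opair a b)) ∧
  (∀ q p a b, opair p (opair a b) ∈ F → Le P R q p → opair q (opair a b) ∈ F) ∧
  (∀ q a b b', opair q (opair a b) ∈ F → opair q (opair a b') ∈ F → b = b') ∧
  (∀ p a, p ∈ P → a ∈ A → ∃ q b, Le P R q p ∧ opair q (opair a b) ∈ F)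

/-- `(P, R)` preserves stationary sets: if `S` is a stationary family of countable subsets of `L`, then
this remains true in the generic extension: for every name `F` of a function from the finite
sequences of elements of `L` to `L` and every condition `p` there are an extension `q` of `p` and
`X ∈ S` such that `q` forces that `X` is closed under `F`. -/
def StatPres (P R : M) : Prop :=
  ∀ L S, Stat S L → ∀ F, FunNm P R (FinSq L) L F → ∀ p, p ∈ P →
    ∃ q X, Le P R q p ∧ X ∈ S ∧
      ∀ s, s ∈ FinSq X → ∀ q' b, Le P R q' q → opair q' (opair s b) ∈ F → b ∈ X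

section
variable (S L P R A B F : (ι → M) → M) [DF S] [DF L] [DF P] [DF R] [DF A] [DF B] [DF F]
instance DR.Stat : DR (fun v => Stat (S v) (L v)) := by unfold NPA.Stat; infer_instance
set_option synthInstance.maxSize 100000 in
instance DR.FunNm : DR (fun v => FunNm (P v) (R v) (A v) (B v) (F v)) := by
  unfold NPA.FunNm; infer_instance
end

end Pool.Agent.ZFIter.NPA
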