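import Pool.Agent.NPA.ESeq
import Pool.Agent.NPA.ACh
import Pool.Agent.NPA.ACtb
import Pool.Agent.NPA.AOrd

/-!
# NPA/EChn: chains of conditions and their unions

`chain_union`: `A = ⋃ A_n`, `λ = ⋃ θ_n`. `Ext0 A λ A_n θ_n`; hence `hF A δ = hF A_n δ` for `δ ≤ θ_n`
(`ext0_hF`), the points of `A` are above coding stages.
-/

universe u

namespace Pool.Agent.ZFIter.NPA

open Pool.Agent.H78.ZF Pool.Agent.ZFIter

variable {M : Type u} [ZFM M] {ι : Type}

private noncomputable def e1 (p : M) : M := iota (fun x => ∃ y, p = opair x y)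

private noncomputable def e2 (p : M) : M := iota (fun y => ∃ x, p = opair x y)

private instance e1_DF (s : (ι → M) → M) [DF s] : DF (fun v => e1 (s v)) := by
  unfold NPA.e1
  infer_instance

private instance e2_DF (s : (ι → M) → M) [DF s] : DF (fun v => e2 (s v)) := by
  unfold NPA.e2
  infer_instance

private theorem e1_opair (x y : M) : e1 (opair x y) = x := by
  unfold e1
  apply iota_eq
  · exact ⟨y, rfl⟩
  · rintro z ⟨w, h⟩
    exact (opair_inj h).1.symm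

private theorem e2_opair (x y : M) : e2 (opair x y) = y := by
  unfold e2
  apply iota_eq
  · exact ⟨x, rfl⟩
  · rintro z ⟨w, h⟩
    exact (opair_inj h).2.symm

/-- the union of a chain of first parts; `f n = opair A_n θ_n` -/
theorem chain_union {f : M} (hAC : AC M)
    (hf : ∀ n, n ∈ (omega : M) → ∃ A θ, ap f n = opair A θ ∧ Cond0 A θ)
    (hs : ∀ n, n ∈ (omega : M) → ∀ A θ B η, ap f n = opair A θ → ap f (succ n) = opair B η →
      Ext0 B η A θ) :
    ∃ A l, Ord l ∧ omega ⊆ l ∧ Ctb l ∧ A ⊆ prod l omega ∧ (∀ δ k, opair δ k ∈ A → CS A δ) ∧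
      (∀ n, n ∈ (omega : M) → ∀ A' θ', ap f n = opair A' θ' → Ext0 A l A' θ') ∧
      (∀ δ, δ ∈ l → ∃ n A' θ', n ∈ (omega : M) ∧ ap f n = opair A' θ' ∧ δ ∈ θ') := by
  have hpq : ∀ n, n ∈ (omega : M) → ap f n = opair (e1 (ap f n)) (e2 (ap f n)) ∧
      Cond0 (e1 (ap f n)) (e2 (ap f n)) := by
    intro n hn
    obtain ⟨A, θ, e, hc⟩ := hf n hn
    rw [e, e1_opair, e2_opair]
    exact ⟨rfl, hc⟩
  have heq : ∀ n, n ∈ (omega : M) → ∀ A' θ', ap f n = opair A' θ' →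
      e1 (ap f n) = A' ∧ e2 (ap f n) = θ' := by
    intro n _ A' θ' e
    rw [e, e1_opair, e2_opair]
    exact ⟨rfl, rfl⟩
  have hmono : ∀ m, m ∈ (omega : M) → ∀ n, n ∈ (omega : M) → m ⊆ n →
      (e2 (ap f m) ⊆ e2 (ap f n) ∧ ∀ δ k, δ ∈ e2 (ap f m) →
        (opair δ k ∈ e1 (ap f n) ↔ opair δ k ∈ e1 (ap f m))) := by
    intro m hm
    apply omega_induction (fun n => m ⊆ n → (e2 (ap f m) ⊆ e2 (ap f n) ∧
      ∀ δ k, δ ∈ e2 (ap f m) → (opair δ k ∈ e1 (ap f n) ↔ opair δ k ∈ e1 (ap f m))))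
    · intro h
      have : m = emp := sub_antisymm h (emp_sub _)
      rw [this]
      exact ⟨sub_refl _, fun _ _ _ => Iff.rfl⟩
    · intro n hn ih h
      rcases le_or_lt hm hn with h1 | h1
      · have h2 := ih h1
        have h3 : Ext0 (e1 (ap f (succ n))) (e2 (ap f (succ n))) (e1 (ap f n)) (e2 (ap f n)) :=
          hs n hn _ _ _ _ (hpq n hn).1 (hpq _ (succ_mem_omega hn)).1
        exact ext0_trans h3 h2
      · have h4 : m = succ n := by
          rcases (ord_sub_iff (ord_omega.mem hm) (ord_omega.mem (succ_mem_omega hn))).1 h with h5 | h5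
          · rw [mem_succ] at h5
            rcases h5 with h5 | h5
            · exact absurd (lt_trans hn h1 h5) (not_mem_self n)
            · exact absurd (h5 ▸ h1) (not_mem_self n)
          · exact h5
        rw [h4]
        exact ⟨sub_refl _, fun _ _ _ => Iff.rfl⟩
  have hle : ∀ n, n ∈ (omega : M) → Ext0 (sUn (img omega (fun n => e1 (ap f n))))
      (sUn (img omega (fun n => e2 (ap f n)))) (e1 (ap f n)) (e2 (ap f n)) := by
    intro n hn
    refine ⟨fun z hz => ?_, fun δ k hδ => ⟨fun h => ?_, fun h => ?_⟩⟩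
    · rw [mem_sUn]
      exact ⟨_, (mem_img _ _ _).2 ⟨n, hn, rfl⟩, hz⟩
    · rw [mem_sUn] at h
      obtain ⟨y, hy, h⟩ := h
      rw [mem_img] at hy
      obtain ⟨m, hm, rfl⟩ := hy
      rcases le_or_lt hn hm with h1 | h1
      · exact ((hmono n hn m hm h1).2 δ k hδ).1 h
      · have h2 : m ⊆ n := (ord_omega.mem hn).1 m h1
        have h3 : δ ∈ e2 (ap f m) :=
          ((opair_mem_prod _ _ _ _).1 ((hpq m hm).2.2.2.2.1 _ h)).1
        exact ((hmono m hm n hn h2).2 δ k h3).2 h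
    · rw [mem_sUn]
      exact ⟨_, (mem_img _ _ _).2 ⟨n, hn, rfl⟩, h⟩
  refine ⟨sUn (img omega (fun n => e1 (ap f n))), sUn (img omega (fun n => e2 (ap f n))),
    ?_, ?_, ?_, ?_, ?_, ?_, ?_⟩
  · apply ord_sUn
    intro y hy
    rw [mem_img] at hy
    obtain ⟨n, hn, rfl⟩ := hy
    exact (hpq n hn).2.1
  · intro z hz
    exact (hle emp emp_mem_omega).1 z ((hpq emp emp_mem_omega).2.2.1 z hz)
  · apply ctb_sUn (dc_of_ac hAC) (ctb_img ctb_omega _)
    intro y hy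
    rw [mem_img] at hy
    obtain ⟨n, hn, rfl⟩ := hy
    exact (hpq n hn).2.2.2.1
  · intro z hz
    rw [mem_sUn] at hz
    obtain ⟨y, hy, hz⟩ := hz
    rw [mem_img] at hy
    obtain ⟨n, hn, rfl⟩ := hy
    obtain ⟨a, ha, b, hb, rfl⟩ := (mem_prod _ _ _).1 ((hpq n hn).2.2.2.2.1 z hz)
    exact (opair_mem_prod _ _ _ _).2 ⟨(hle n hn).1 a ha, hb⟩
  · intro δ k h
    rw [mem_sUn] at h
    obtain ⟨y, hy, h⟩ := h
    rw [mem_img] at hy
    obtain ⟨n, hn, rfl⟩ := hy
    have h3 : δ ∈ e2 (ap f n) := ((opair_mem_prod _ _ _ _).1 ((hpq n hn).2.2.2.2.1 _ h)).1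
    have h4 : δ ∈ succ (e2 (ap f n)) := by rw [mem_succ]; exact Or.inl h3
    exact (ext0_CS (hpq n hn).2.1 (hle n hn) δ h4).2 ((hpq n hn).2.2.2.2.2.2 δ k h)
  · intro n hn A' θ' e
    obtain ⟨h1, h2⟩ := heq n hn A' θ' e
    rw [← h1, ← h2]
    exact hle n hn
  · intro δ hδ
    rw [mem_sUn] at hδ
    obtain ⟨y, hy, h⟩ := hδ
    rw [mem_img] at hy
    obtain ⟨n, hn, rfl⟩ := hy
    exact ⟨n, _, _, hn, (hpq n hn).1, h⟩

end Pool.Agent.ZFIter.NPA
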