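import Pool.Agent.NPA.ACh
import Pool.Agent.NPA.ACtb
import Pool.Agent.NPA.ASq

/-!
# NPA/EDet: determinacy reflects to the reals of a closed countable set

`S a b` contains `jn a b` and, for each of the finitely many formulas `Pi RS m o (jn x y)`, `m < k`, a
chosen `y ∈ RS` with `Pi RS m a (jn b y)` if there is one (choice function `f` for `RS`, `ac_fun`:
`ap f {y ∈ RS : Pi RS m a (jn b y)}`), and chosen winning strategies `ap f {s ∈ RS : WinI RS k a s}`,
`ap f {t ∈ RS : WinII RS k a t}`. Let `R = {x ∈ RS : x ∈ X}`. By induction on `m ≤ k`: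
`Pi R m o x ↔ Pi RS m o x` for `o, x ∈ R`. A strategy in `R` winning against `RS` wins against `R`.
(Definition of `S` for external `k`: recursion on `k`, union.)
-/

universe u

namespace Pool.Agent.ZFIter.NPA

open Pool.Agent.H78.ZF Pool.Agent.ZFIter

variable {M : Type u} [ZFM M] {ι : Type}

/-- Chosen witnesses for the first `k` formulas. -/
private noncomputable def edS (f : M) : ℕ → M → M → M
  | 0, _, _ => emp
  | m + 1, a, b => un (edS f m a b) (sing (ap f (sep RS (fun y => Pi RS m a (jn b y)))))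

private theorem edS_DF (f : M) (k : ℕ) : ∀ {ι : Type} (a b : (ι → M) → M) [DF a] [DF b],
    DF (fun v => edS f k (a v) (b v)) := by
  induction k with
  | zero =>
    intro ι a b _ _
    simp only [edS]
    infer_instance
  | succ m ih =>
    intro ι a b _ _
    simp only [edS]
    have h := ih a b
    infer_instance

private theorem mem_edS (f : M) {m k : ℕ} (h : m < k) (a b : M) :
    ap f (sep RS (fun y => Pi RS m a (jn b y))) ∈ edS f k a b := by
  induction k with
  | zero => omega
  | succ k ih =>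
    simp only [edS, mem_un, mem_sing]
    rcases Nat.lt_succ_iff_lt_or_eq.1 h with h | rfl
    · exact Or.inl (ih h)
    · exact Or.inr rfl

private theorem edS_ctb (f : M) (k : ℕ) (a b : M) : Ctb (edS f k a b) := by
  induction k with
  | zero => simp only [edS]; exact ctb_emp
  | succ k ih => simp only [edS]; exact ctb_un ih (ctb_sing _)

private noncomputable def edT (f : M) (k : ℕ) (a b : M) : M :=
  un (un (edS f k a b) (sing (jn a b)))
    (un (sing (ap f (sep RS (fun s => WinI RS k a s)))) (sing (ap f (sep RS (fun t => WinII RS k a t)))))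

private theorem edT_F2 (f : M) (k : ℕ) : F2 (edT f k) := by
  have h : DF (fun v : Fin 2 → M => edT f k (v 0) (v 1)) := by
    unfold edT
    have := edS_DF f k (fun v : Fin 2 → M => v 0) (fun v => v 1)
    infer_instance
  infer_instance

theorem det_reflect (hAC : AC M) (k : ℕ) (hD : Det (RS : M) k) :
    ∃ S : M → M → M, F2 S ∧ (∀ a b, Ctb (S a b)) ∧
      ∀ X, ClS S X → Det (sep RS (fun x => x ∈ X)) k := by
  obtain ⟨f, hf⟩ := ac_fun hAC RS
  refine ⟨edT f k, edT_F2 f k, fun a b => ?_, fun X hX => ?_⟩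
  · unfold edT
    exact ctb_un (ctb_un (edS_ctb f k a b) (ctb_sing _)) (ctb_un (ctb_sing _) (ctb_sing _))
  set R : M := sep RS (fun x => x ∈ X) with hR
  have memR : ∀ x, x ∈ R ↔ x ∈ (RS : M) ∧ x ∈ X := fun x => by rw [hR, mem_sep]
  have hjn : ∀ a b, a ∈ R → b ∈ R → jn a b ∈ R := by
    intro a b ha hb
    rw [memR] at ha hb ⊢
    refine ⟨jn_mem ha.1 hb.1, hX a ha.2 b hb.2 _ ?_⟩
    unfold edT
    simp
  have hch : ∀ (P : M → Prop) [D1 P], (∃ y, y ∈ (RS : M) ∧ P y) →
      ap f (sep RS P) ∈ (RS : M) ∧ P (ap f (sep RS P)) := by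
    intro P _ ⟨y, hy, hP⟩
    have := hf (sep RS P) (fun z hz => ((mem_sep _ _ _).1 hz).1)
      (ne_emp_iff.2 ⟨y, (mem_sep _ _ _).2 ⟨hy, hP⟩⟩)
    exact (mem_sep _ _ _).1 this
  have key : ∀ m, m ≤ k → ∀ o x, o ∈ R → x ∈ R → (Pi R m o x ↔ Pi RS m o x) := by
    intro m
    induction m with
    | zero => intro _ o x _ _; exact Iff.rfl
    | succ m ih =>
      intro hm o x ho hx
      constructor
      · intro h y hy hP
        have h1 := hch (fun y => Pi RS m o (jn x y)) ⟨y, hy, hP⟩
        have h2 : ap f (sep RS (fun y => Pi RS m o (jn x y))) ∈ R := by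
          rw [memR]
          refine ⟨h1.1, hX o ((memR o).1 ho).2 x ((memR x).1 hx).2 _ ?_⟩
          unfold edT
          rw [mem_un, mem_un]
          exact Or.inl (Or.inl (mem_edS f (by omega) o x))
        exact h _ h2 ((ih (by omega) o _ ho (hjn _ _ hx h2)).2 h1.2)
      · intro h y hy hP
        exact h y ((memR y).1 hy).1 ((ih (by omega) o _ ho (hjn _ _ hx hy)).1 hP)
  intro o ho
  have hoX := ((memR o).1 ho).2
  rcases hD o ((memR o).1 ho).1 with hs | ht
  · left
    have h1 := hch (fun s => WinI RS k o s) hs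
    refine ⟨ap f (sep RS (fun s => WinI RS k o s)), (memR _).2 ⟨h1.1, hX o hoX o hoX _ ?_⟩, ?_⟩
    · unfold edT
      simp
    · intro x hx hfol
      exact (key k le_rfl o x ho hx).2 (h1.2 x ((memR x).1 hx).1 hfol)
  · right
    have h1 := hch (fun t => WinII RS k o t) ht
    refine ⟨ap f (sep RS (fun t => WinII RS k o t)), (memR _).2 ⟨h1.1, hX o hoX o hoX _ ?_⟩, ?_⟩
    · unfold edT
      simp
    · intro x hx hfol hP
      exact h1.2 x ((memR x).1 hx).1 hfol ((key k le_rfl o x ho hx).1 hP)

end Pool.Agent.ZFIter.NPA
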