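import Pool.Agent.NPA.ETot
import Pool.Agent.NPA.EOrd

/-!
# NPA/EGen: generic lower bounds for the forcing

`tot_gen` with `Φ z A θ`: `z = opair D s` and there is `d ∈ D`, `IsCond d`, `cSet d = A`, `cTh d = θ`,
`cS d = s`. `S` is the `S` of `tot_gen` together with: `cSet a, cTh a, cS a`; `opair a b`; the elements
of `omega`; for `a = opair D s`, `b = opair A θ` a chosen such `d` (`ac_fun` for `RS`).
Let `D ∈ X` be dense and `r ∈ PP` with `Ext0 (cSet r) (cTh r) B η`. Take `r' ∈ D`, `r' ≤ r`, `s = cS r'`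
(a natural number, so in `X`), `z = opair D s`. The alternative 'no extension satisfies `Φ`' is false
since `(cSet r', cTh r')` extends `(A', θ')`. So there is `d ∈ D` with first part `(A', θ')` and stem
`s`, and we may choose `d ∈ X`. `r'` and `d` are compatible: `le_amalg` over `(cSet r', cTh r')`.
-/

universe u

namespace Pool.Agent.ZFIter.NPA

open Pool.Agent.H78.ZF Pool.Agent.ZFIter

variable {M : Type u} [ZFM M] {ι : Type}

/-- the relation to be decided by the generic sequence -/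
private def gPhi (z A θ : M) : Prop :=
  ∃ D s d, z = opair D s ∧ d ∈ D ∧ IsCond d ∧ cSet d = A ∧ cTh d = θ ∧ cS d = s

set_option synthInstance.maxSize 100000 in
private instance DR_gPhi (z A θ : (ι → M) → M) [DF z] [DF A] [DF θ] :
    DR (fun v => gPhi (z v) (A v) (θ v)) := by
  unfold gPhi; infer_instance

/-- the set of the conditions in `D` with first part `(A, θ)` and stem `s`, for `a = (D, s)` and
`b = (A, θ)` -/
private noncomputable def gQ (a b : M) : M :=
  sep RS (fun d => ∃ D s A θ, a = opair D s ∧ b = opair A θ ∧ d ∈ D ∧ IsCond d ∧ cSet d = A ∧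
    cTh d = θ ∧ cS d = s)

set_option synthInstance.maxSize 100000 in
private instance DF_gQ (a b : (ι → M) → M) [DF a] [DF b] : DF (fun v => gQ (a v) (b v)) := by
  unfold gQ; infer_instance

private noncomputable def gS (S : M → M → M) (f a b : M) : M :=
  un (S a b) (un (un (upair (cSet a) (cTh a)) (upair (cS a) (opair a b)))
    (un omega (sing (ap f (gQ a b)))))

private instance F2_gS (S : M → M → M) [F2 S] (f : M) : F2 (gS S f) := by
  have : DF (fun v : Fin 2 → M => gS S f (v 0) (v 1)) := by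
    unfold gS; infer_instance
  exact ⟨this⟩

theorem gen_dense {k : ℕ} (hAC : AC M) (hD : Det (RS : M) k) (hM : Mini M k) :
    ∃ S : M → M → M, F2 S ∧ (∀ a b, Ctb (S a b)) ∧
      ∀ X, Ctb X → ClS S X → ∀ p, p ∈ X → p ∈ (PP : M) →
        ∃ B η, Cond0 B η ∧ Ext0 B η (cSet p) (cTh p) ∧
          ∀ D, D ∈ X → Dense PP RR D → ∀ r, r ∈ (PP : M) → Ext0 (cSet r) (cTh r) B η →
            ∃ d, d ∈ D ∧ d ∈ X ∧ Ext0 B η (cSet d) (cTh d) ∧
              ∃ e, Le PP RR e r ∧ Le PP RR e d := by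
  obtain ⟨S, hS2, hSc, hS⟩ := tot_gen (k := k) hAC hD hM (fun z A θ : M => gPhi z A θ)
  obtain ⟨f, hf⟩ := ac_fun hAC (RS : M)
  have mem1 : ∀ a b x : M, x ∈ gS S f a b ↔ x ∈ S a b ∨ ((x = cSet a ∨ x = cTh a) ∨
      (x = cS a ∨ x = opair a b)) ∨ x ∈ (omega : M) ∨ x = ap f (gQ a b) := by
    intro a b x
    unfold gS
    simp only [mem_un, mem_upair, mem_sing]
  refine ⟨gS S f, F2_gS S f, ?_, ?_⟩
  · intro a b
    refine ctb_un (hSc a b) (ctb_un (ctb_un ?_ ?_) (ctb_un ctb_omega (ctb_sing _)))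
    · refine ctb_sub (ctb_un (ctb_sing (cSet a)) (ctb_sing (cTh a))) ?_
      intro x hx
      rw [mem_un, mem_sing, mem_sing]
      exact (mem_upair _ _ _).1 hx
    · refine ctb_sub (ctb_un (ctb_sing (cS a)) (ctb_sing (opair a b))) ?_
      intro x hx
      rw [mem_un, mem_sing, mem_sing]
      exact (mem_upair _ _ _).1 hx
  · intro X hX hcl p hp hpP
    have hcl1 : ClS S X := fun a ha b hb x hx => hcl a ha b hb x ((mem1 a b x).2 (Or.inl hx))
    have hset : ∀ a, a ∈ X → cSet a ∈ X := fun a ha =>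
      hcl a ha a ha _ ((mem1 a a _).2 (Or.inr (Or.inl (Or.inl (Or.inl rfl)))))
    have hth : ∀ a, a ∈ X → cTh a ∈ X := fun a ha =>
      hcl a ha a ha _ ((mem1 a a _).2 (Or.inr (Or.inl (Or.inl (Or.inr rfl)))))
    have hop : ∀ a, a ∈ X → ∀ b, b ∈ X → opair a b ∈ X := fun a ha b hb =>
      hcl a ha b hb _ ((mem1 a b _).2 (Or.inr (Or.inl (Or.inr (Or.inr rfl)))))
    have hom : ∀ n, n ∈ (omega : M) → n ∈ X := fun n hn =>
      hcl p hp p hp n ((mem1 p p n).2 (Or.inr (Or.inr (Or.inl hn))))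
    have hch : ∀ a, a ∈ X → ∀ b, b ∈ X → ap f (gQ a b) ∈ X := fun a ha b hb =>
      hcl a ha b hb _ ((mem1 a b _).2 (Or.inr (Or.inr (Or.inr rfl))))
    have hpc : IsCond p := mem_PP.1 hpP
    obtain ⟨B, η, hB, hBp, hz⟩ := hS X hX hcl1 (cSet p) (cTh p) (isCond_spec hpc).1
      (hset p hp) (hth p hp)
    refine ⟨B, η, hB, hBp, ?_⟩
    intro D hDX hDd r hr hrB
    obtain ⟨r', hr'D, hr'r⟩ := hDd.2 r hr
    have hr'c : IsCond r' := (le_iff.1 hr'r).1
    have hs : cS r' ∈ (omega : M) := by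
      obtain ⟨x, hx, n, hn, e, -⟩ := (isCond_spec hr'c).2.1
      rw [e]
      exact sq_mem hx hn
    have hzX : opair D (cS r') ∈ X := hop D hDX _ (hom _ hs)
    obtain ⟨A', θ', hA', hθ', hc', hp', hB', halt⟩ := hz _ hzX
    have hext : Ext0 (cSet r') (cTh r') A' θ' :=
      ext0_trans (le_iff.1 hr'r).2.2.1 (ext0_trans hrB hB')
    have hPhi : gPhi (opair D (cS r')) A' θ' := by
      rcases halt with h | h
      · exact h
      · exact absurd (⟨D, cS r', r', rfl, hr'D, hr'c, rfl, rfl, rfl⟩ :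
          gPhi (opair D (cS r')) (cSet r') (cTh r')) (h _ _ (isCond_spec hr'c).1 hext)
    have hne : gQ (opair D (cS r')) (opair A' θ') ≠ emp := by
      obtain ⟨D', s', d, e, hd, hdc, h1, h2, h3⟩ := hPhi
      obtain ⟨rfl, rfl⟩ := opair_inj e
      refine ne_emp_iff.2 ⟨d, (mem_sep _ _ _).2 ⟨isCond_RS hdc, D, cS r', A', θ', rfl, rfl, hd, hdc,
        h1, h2, h3⟩⟩
    have hd := hf _ (fun x hx => ((mem_sep _ _ _).1 hx).1) hne
    have hdX := hch _ hzX _ (hop _ hA' _ hθ')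
    obtain ⟨-, D', s', A'', θ'', e1, e2, hdD, hdc, h1, h2, h3⟩ := (mem_sep _ _ _).1 hd
    obtain ⟨rfl, rfl⟩ := opair_inj e1
    obtain ⟨rfl, rfl⟩ := opair_inj e2
    have key : ∀ d, d ∈ D → d ∈ X → IsCond d → cSet d = A' → cTh d = θ' → cS d = cS r' →
        ∃ d, d ∈ D ∧ d ∈ X ∧ Ext0 B η (cSet d) (cTh d) ∧
              ∃ e, Le PP RR e r ∧ Le PP RR e d := by
      intro d hdD hdX hdc h1 h2 h3
      refine ⟨d, hdD, hdX, by rw [h1, h2]; exact hB', ?_⟩
      obtain ⟨e, -, -, -, -, -, he1, he2⟩ := le_amalg hr'c hdc (isCond_spec hr'c).1 (ext0_refl _ _)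
        (by rw [h1, h2]; exact hext) h3.symm
      exact ⟨e, le_trans' he1 hr'r, he2⟩
    exact key _ hdD hdX hdc h1 h2 h3

end Pool.Agent.ZFIter.NPA
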