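import Pool.Agent.NPA.EExt
import Pool.Agent.NPA.EDet

/-!
# NPA/EKey: the key step, a coding stage above the limit

Suppose there is no countable coding stage `≥ λ`. Then every `s ⊆ omega` in `L[A]` is `hF A δ` for some
`δ < λ` (`exists_CS`), so `s ∈ X`. Hence `RL A = {x ∈ RS : x ∈ X}`: if `x ∈ RL A` then its graph
code `{pr i (x i)}` is in `L[A]` (`inL_graph`), so in `X`, so `x ∈ X`; conversely every real of `X` is coded
in a block of `A` below `λ`, so it is in `L[A]` (`inL_of_blk`). So `Det (RL A) k` and `Ctb (RL A)`, against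
`Mini M k`.
-/

universe u

namespace Pool.Agent.ZFIter.NPA

open Pool.Agent.H78.ZF Pool.Agent.ZFIter

variable {M : Type u} [ZFM M] {ι : Type}

theorem key_stage {k : ℕ} (hAC : AC M) (hM : Mini M k) {X A l : M} (hX : Ctb X)
    (hXD : Det (sep RS (fun x => x ∈ X)) k) (hl : Ord l) (hlc : Ctb l) (hA : A ⊆ prod l omega)
    (h1 : ∀ δ, δ ∈ l → hF A δ ⊆ omega → hF A δ ∈ X)
    (h2 : ∀ s x, s ∈ X → x ∈ (RS : M) →
      (∀ z, z ∈ s ↔ ∃ i, i ∈ (omega : M) ∧ z = pr i (ap x i)) → x ∈ X)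
    (h3 : ∀ y, y ∈ (RS : M) → y ∈ X → ∃ δ, δ ∈ l ∧ BlkR A δ y) :
    ∃ θ, Ord θ ∧ l ⊆ θ ∧ Ctb θ ∧ CS A θ := by
  by_contra hno
  have hall : ∀ s : M, s ⊆ omega → InL A s → s ∈ X := by
    intro s hs hL
    by_contra hsX
    apply hno
    apply exists_CS hAC hl hlc hA hl hs hL
    intro δ hδ e
    apply hsX
    rw [← e]
    exact h1 δ hδ (by rw [e]; exact hs)
  have heq : RL A = sep RS (fun x => x ∈ X) := by
    apply Pool.Agent.H78.ZF.ext
    intro x
    unfold RL
    rw [mem_sep, mem_sep]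
    constructor
    · rintro ⟨hx, hL⟩
      refine ⟨hx, ?_⟩
      have hs : ∀ z, z ∈ img omega (fun i => pr i (ap x i)) ↔
          ∃ i, i ∈ (omega : M) ∧ z = pr i (ap x i) := by
        intro z
        rw [mem_img]
      apply h2 (img omega (fun i => pr i (ap x i))) x _ hx hs
      apply hall _ _ (inL_graph hx hL hs)
      intro z hz
      rw [hs] at hz
      obtain ⟨i, hi, rfl⟩ := hz
      exact pr_mem hi (RS_ap hx hi)
    · rintro ⟨hx, hxX⟩
      obtain ⟨δ, hδ, hB⟩ := h3 x hx hxX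
      exact ⟨hx, inL_of_blk hl hA hδ hx hB⟩
  apply hM A
  · rw [heq]; exact hXD
  · rw [heq]
    apply ctb_sub hX
    intro x hx
    rw [mem_sep] at hx
    exact hx.2

end Pool.Agent.ZFIter.NPA
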