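import Pool.Agent.NPA.EGen

/-!
# NPA/EProp: the forcing is proper

`club_cl` for the `S` of `gen_dense`: club `C`; for `X ∈ C` let `X' ⊇ X` be closed, countable,
`X' ∩ H ⊆ X`. For `p ∈ X ∩ PP` let `(B, η)` be as in `gen_dense` (for `X'`), `q` = `(B, η, cS p, cPm p)`
(`le_first`). For `D ∈ X` dense and `r ≤ q`: `Ext0 (cSet r) (cTh r) B η`, so there is `d ∈ D ∩ X'`
compatible with `r`; `d ∈ PP ⊆ H`, so `d ∈ X`. Also the preorder facts for `SForc`.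
-/

universe u

namespace Pool.Agent.ZFIter.NPA

open Pool.Agent.H78.ZF Pool.Agent.ZFIter

variable {M : Type u} [ZFM M] {ι : Type}

theorem proper_PP {k : ℕ} (hAC : AC M) (hD : Det (RS : M) k) (hM : Mini M k) :
    Proper (PP : M) RR := by
  intro H hPH
  obtain ⟨S, hS, hctb, hgen⟩ := gen_dense hAC hD hM
  obtain ⟨C, hC, hcl⟩ := club_cl S (dc_of_ac hAC) hctb H
  refine ⟨C, hC, fun X hX p hp hpP => ?_⟩
  obtain ⟨X', hXX', hX'c, hX'cl, hX'H⟩ := hcl X hX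
  obtain ⟨B, η, hB, hBp, hg⟩ := hgen X' hX'c hX'cl p (hXX' p hp) hpP
  obtain ⟨q, hq, hq1, hq2, -, -, -, hqp⟩ := le_first (mem_PP.1 hpP) hB hBp
    (ρ := η) (by rw [mem_succ]; exact Or.inr rfl)
  refine ⟨q, hqp, fun D hDX hDd r hrq => ?_⟩
  have hrq' := le_iff.1 hrq
  have h1 : Ext0 (cSet r) (cTh r) B η := by
    have := hrq'.2.2.1
    rwa [hq1, hq2] at this
  obtain ⟨d, hdD, hdX, -, e, he⟩ := hg D (hXX' D hDX) hDd r hrq.1 h1
  exact ⟨d, hdD, hX'H d hdX (hPH d (hDd.1 d hdD)), e, he⟩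

end Pool.Agent.ZFIter.NPA
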