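import Pool.Agent.NPA.BHier
import Pool.Agent.NPA.ASq
import Pool.Agent.NPA.ANum

/-!
# NPA/ESeq: stems and end extensions

`Pfx`, `Ent`, `Bin` in terms of reals: use `sq_inj`. `ext0_hF`: `hF_congr` (for `δ ≤ θ` the set `hF A δ`
depends only on `A ∩ (δ × omega)`).
-/

universe u

namespace Pool.Agent.ZFIter.NPA

open Pool.Agent.H78.ZF Pool.Agent.ZFIter

variable {M : Type u} [ZFM M] {ι : Type}

theorem ent_sq {x n j v : M} (hx : x ∈ (RS : M)) (hn : n ∈ (omega : M)) :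
    Ent (sq x n) j v ↔ j ∈ n ∧ ap x j = v := by
  constructor
  · rintro ⟨y, hy, m, hm, e, hj, hv⟩
    obtain ⟨rfl, h⟩ := sq_inj hx hy hn hm e
    exact ⟨hj, by rw [h j hj]; exact hv⟩
  · rintro ⟨hj, hv⟩
    exact ⟨x, hx, n, hn, rfl, hj, hv⟩

theorem ent_uniq {s j v v' : M} (h : Ent s j v) (h' : Ent s j v') : v = v' := by
  obtain ⟨x, hx, n, hn, rfl, hj, hv⟩ := h
  rw [ent_sq hx hn] at h'
  exact hv.symm.trans h'.2

theorem pfx_refl {s : M} (h : Bin s) : Pfx s s := by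
  obtain ⟨x, hx, n, hn, rfl, -⟩ := h
  exact ⟨x, hx, n, hn, n, hn, sub_refl n, rfl, rfl⟩

theorem pfx_trans {s t u : M} (h : Pfx s t) (h' : Pfx t u) : Pfx s u := by
  obtain ⟨x, hx, n, hn, m, hm, hmn, rfl, rfl⟩ := h
  obtain ⟨y, hy, n', hn', m', hm', hmn', e, rfl⟩ := h'
  obtain ⟨rfl, h1⟩ := sq_inj hx hy hn hm' e
  exact ⟨y, hy, n', hn', m, hm, sub_trans hmn hmn', sq_congr hm (fun i hi => h1 i (hmn i hi)), rfl⟩

theorem pfx_ent {s t j v : M} (h : Pfx s t) (he : Ent s j v) : Ent t j v := by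
  obtain ⟨x, hx, n, hn, m, hm, hmn, rfl, rfl⟩ := h
  rw [ent_sq hx hm] at he
  rw [ent_sq hx hn]
  exact ⟨hmn j he.1, he.2⟩

/-- two initial segments of the same sequence are comparable -/
theorem pfx_comp {s t u : M} (h : Pfx s u) (h' : Pfx t u) : Pfx s t ∨ Pfx t s := by
  obtain ⟨x, hx, n, hn, m, hm, hmn, rfl, rfl⟩ := h
  obtain ⟨y, hy, n', hn', m', hm', hmn', rfl, e⟩ := h'
  obtain ⟨rfl, h1⟩ := sq_inj hx hy hn hn' e
  have e2 : sq y m' = sq x m' := sq_congr hm' (fun i hi => (h1 i (hmn' i hi)).symm)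
  rcases le_or_lt hm hm' with h2 | h2
  · exact Or.inl ⟨x, hx, m', hm', m, hm, h2, rfl, e2⟩
  · exact Or.inr ⟨x, hx, m, hm, m', hm', omega_trans hm m' h2, e2, rfl⟩

theorem pfx_sq {x n s : M} (hx : x ∈ (RS : M)) (hn : n ∈ (omega : M)) :
    Pfx s (sq x n) ↔ ∃ m, m ∈ (omega : M) ∧ m ⊆ n ∧ s = sq x m := by
  constructor
  · rintro ⟨y, hy, n', hn', m, hm, hmn, rfl, e⟩
    obtain ⟨rfl, h1⟩ := sq_inj hx hy hn hn' e
    exact ⟨m, hm, hmn, sq_congr hm (fun i hi => (h1 i (hmn i hi)).symm)⟩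
  · rintro ⟨m, hm, hmn, rfl⟩
    exact ⟨x, hx, n, hn, m, hm, hmn, rfl, rfl⟩

theorem ext0_refl (A θ : M) : Ext0 A θ A θ := ⟨sub_refl θ, fun _ _ _ => Iff.rfl⟩

theorem ext0_trans {A θ B η C ζ : M} (h : Ext0 C ζ B η) (h' : Ext0 B η A θ) : Ext0 C ζ A θ :=
  ⟨sub_trans h'.1 h.1, fun δ k hδ => (h.2 δ k (h'.1 δ hδ)).trans (h'.2 δ k hδ)⟩

theorem ext0_hF {A θ B η : M} (hθ : Ord θ) (h : Ext0 B η A θ) :
    ∀ δ, δ ∈ succ θ → hF B δ = hF A δ := by
  intro δ hδ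
  have hoδ : Ord δ := hθ.succ.mem hδ
  have hsub : δ ⊆ θ := by
    rw [mem_succ] at hδ
    exact (ord_sub_iff hoδ hθ).2 hδ
  exact hF_congr hθ (fun d k hd _ => h.2 d k hd) δ hsub hoδ

theorem ext0_CS {A θ B η : M} (hθ : Ord θ) (h : Ext0 B η A θ) :
    ∀ δ, δ ∈ succ θ → (CS B δ ↔ CS A δ) := by
  intro δ hδ
  unfold CS
  rw [ext0_hF hθ h δ hδ]
  have h1 : ∀ β, β ∈ δ → hF B β = hF A β := fun β hβ => ext0_hF hθ h β (hθ.succ.trans hβ hδ)
  constructor
  · rintro ⟨h2, h3⟩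
    exact ⟨h2, fun β hβ => by rw [← h1 β hβ]; exact h3 β hβ⟩
  · rintro ⟨h2, h3⟩
    exact ⟨h2, fun β hβ => by rw [h1 β hβ]; exact h3 β hβ⟩

theorem ext0_bs {A θ B η : M} (hθ : Ord θ) (h : Ext0 B η A θ) :
    ∀ δ, δ ∈ succ θ → ∀ k, bs B δ k = bs A δ k := by
  intro δ hδ k
  unfold bs
  rw [ext0_hF hθ h δ hδ]

/-- for conditions: `A ⊆ B` -/
theorem ext0_sub {A θ B η : M} (hA : A ⊆ prod θ omega) (h : Ext0 B η A θ) : A ⊆ B := by
  intro z hz
  obtain ⟨x, hx, y, hy, rfl⟩ := (mem_prod _ _ _).1 (hA z hz)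
  exact (h.2 x y hx).2 hz

/-- comparability of two first parts which are extended by the same first part -/
theorem ext0_comp {A θ B η C ζ : M} (hθ : Ord θ) (hη : Ord η) (h : Ext0 C ζ A θ) (h' : Ext0 C ζ B η) :
    Ext0 B η A θ ∨ Ext0 A θ B η := by
  rcases ord_le_or_lt hθ hη with h1 | h1
  · exact Or.inl ⟨h1, fun δ k hδ => (h'.2 δ k (h1 δ hδ)).symm.trans (h.2 δ k hδ)⟩
  · have h2 : η ⊆ θ := hθ.1 η h1
    exact Or.inr ⟨h2, fun δ k hδ => (h.2 δ k (h2 δ hδ)).symm.trans (h'.2 δ k hδ)⟩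

private theorem sUn_succ' {n : M} (hn : n ∈ (omega : M)) : sUn (succ n) = n := by
  apply Pool.Agent.H78.ZF.ext
  intro z
  rw [mem_sUn]
  constructor
  · rintro ⟨y, hy, hz⟩
    rw [mem_succ] at hy
    rcases hy with hy | rfl
    · exact lt_trans hn hz hy
    · exact hz
  · intro hz
    exact ⟨n, by simp, hz⟩

private noncomputable def bsv (A δ k n : M) : M :=
  iota (fun y => (n = emp ∧ y = k) ∨
    (n ≠ emp ∧ sUn n ∈ hF A δ ∧ y = emp) ∨ (n ≠ emp ∧ sUn n ∉ hF A δ ∧ y = num 1))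

private theorem bsv_emp (A δ k : M) : bsv A δ k emp = k := by
  unfold bsv
  apply iota_eq
  · exact Or.inl ⟨rfl, rfl⟩
  · rintro y (⟨-, h⟩ | ⟨h, -⟩ | ⟨h, -⟩)
    · exact h
    · exact absurd rfl h
    · exact absurd rfl h

private theorem bsv_in {A δ k n : M} (hn : n ∈ (omega : M)) (h : n ∈ hF A δ) :
    bsv A δ k (succ n) = emp := by
  unfold bsv
  rw [sUn_succ' hn]
  apply iota_eq
  · exact Or.inr (Or.inl ⟨succ_ne_emp n, h, rfl⟩)
  · rintro y (⟨h1, -⟩ | ⟨-, -, h1⟩ | ⟨-, h1, -⟩)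
    · exact absurd h1 (succ_ne_emp n)
    · exact h1
    · exact absurd h h1

private theorem bsv_out {A δ k n : M} (hn : n ∈ (omega : M)) (h : n ∉ hF A δ) :
    bsv A δ k (succ n) = num 1 := by
  unfold bsv
  rw [sUn_succ' hn]
  apply iota_eq
  · exact Or.inr (Or.inr ⟨succ_ne_emp n, h, rfl⟩)
  · rintro y (⟨h1, -⟩ | ⟨-, h1, -⟩ | ⟨-, -, h1⟩)
    · exact absurd h1 (succ_ne_emp n)
    · exact absurd h1 h
    · exact h1

private theorem bsv_mem {A δ k : M} (hk : k ∈ (omega : M)) :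
    ∀ n, n ∈ (omega : M) → bsv A δ k n ∈ (omega : M) := by
  intro n hn
  rcases eq_emp_or_succ hn with rfl | ⟨m, hm, rfl⟩
  · rw [bsv_emp]; exact hk
  · by_cases h : m ∈ hF A δ
    · rw [bsv_in hm h]; exact emp_mem_omega
    · rw [bsv_out hm h]; exact num_mem 1

private instance bsv_F1 (A δ k : M) : F1 (fun n => bsv A δ k n) := by
  unfold bsv
  infer_instance

private theorem bs_eq (A δ k : M) : bs A δ k = mkf omega omega (fun n => bsv A δ k n) := rfl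

private theorem ap_bs {A δ k n : M} (hk : k ∈ (omega : M)) (hn : n ∈ (omega : M)) :
    ap (bs A δ k) n = bsv A δ k n := by
  rw [bs_eq]
  exact ap_mkf (F := fun n => bsv A δ k n) (bsv_mem hk) hn

theorem bs_mem {A δ k : M} (hk : k ∈ (omega : M)) : bs A δ k ∈ (RS : M) := by
  rw [mem_RS, bs_eq]
  exact mkf_fun (bsv_mem hk)

/-- Different bits are coded by different reals. -/
theorem bs_ne {A δ k δ' k' : M} (hδ : Ord δ) (hδ' : Ord δ') (h : CS A δ) (h' : CS A δ')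
    (hk : k ∈ (omega : M)) (hk' : k' ∈ (omega : M)) (hne : δ ≠ δ' ∨ k ≠ k') :
    bs A δ k ≠ bs A δ' k' := by
  intro e
  have h0 : ∀ n, n ∈ (omega : M) → bsv A δ k n = bsv A δ' k' n := by
    intro n hn
    rw [← ap_bs hk hn, ← ap_bs hk' hn, e]
  have hkk : k = k' := by
    have := h0 emp emp_mem_omega
    rwa [bsv_emp, bsv_emp] at this
  have h01 : (emp : M) ≠ num 1 := fun h => num_ne (M := M) (j := 0) (k := 1) (by norm_num) h
  have hFF : hF A δ = hF A δ' := by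
    apply Pool.Agent.H78.ZF.ext
    intro n
    constructor
    · intro hn
      by_contra hc
      have hom := h.1 n hn
      have := h0 (succ n) (succ_mem_omega hom)
      rw [bsv_in hom hn, bsv_out hom hc] at this
      exact h01 this
    · intro hn
      by_contra hc
      have hom := h'.1 n hn
      have := h0 (succ n) (succ_mem_omega hom)
      rw [bsv_in hom hn, bsv_out hom hc] at this
      exact h01 this.symm
  rcases ord_trichotomy hδ hδ' with h1 | h1 | h1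
  · exact h'.2 δ h1 hFF
  · rcases hne with h2 | h2
    · exact h2 h1
    · exact h2 hkk
  · exact h.2 δ' h1 hFF.symm

end Pool.Agent.ZFIter.NPA
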