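import Pool.Agent.NPA.EKey
import Pool.Agent.NPA.EChn
import Pool.Agent.NPA.ACl
import Pool.Agent.NPA.AOm1

/-!
# NPA/ETot: total genericity of the first part

For a definable relation `Φ z A θ`. The class function `S a b` is the union of: the `S` of
`det_reflect`; `opair a b`; `a` itself if `a` is countable (`Ctb a`); `hF a b`; the two components of `a`
if it is a pair; the real `x` with graph code `a` if there is one; for `a = opair A θ` a condition and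
`b` arbitrary: a chosen (choice function on the set `Q` of all pairs `opair B η` with `Cond0 B η`, a subset
of `prod (pow (prod om1 omega)) om1`, see AOm1; or any bound) condition `(B, η)`
extending `(A, θ)` with `Φ b B η` if there is one, and a chosen condition `(B, η)` extending `(A, θ)` with
`θ ∈ η` and `BlkR B θ b` if `b ∈ RS` (`ext_step`).
Let `X` be closed and countable, `e : omega → X` onto (`ctb_enum`). Build `f : omega → X`,
`f 0 = opair A θ`, `f (n+1)` obtained from `f n` in two steps inside `X`: first meet `Φ (e n)` if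
possible, then code `e n` if it is a real (`dc_seq` with the relation: `f (n+1)` is in `X` and extends
`f n` as required). Union: `chain_union`, giving `(B', λ)`; `λ ⊆ X` (`θ_n` countable, `θ_n ∈ X`), so
`hF B' δ = hF A_n δ ∈ X`. `key_stage` gives a coding stage `η ≥ λ` for `B = B'`; so `Cond0 B η`.
For `z = e n`: the intermediate condition `(A', θ')` of step `n` is in `X`, between `f n` and
`f (n+1)`, and either satisfies `Φ z` or nothing above `f n` does (then take `(A', θ') = f n`).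
-/

universe u

namespace Pool.Agent.ZFIter.NPA

open Pool.Agent.H78.ZF Pool.Agent.ZFIter

variable {M : Type u} [ZFM M] {ι : Type}

/-! ### The set of all conditions of the first part -/

private noncomputable def etQ : M :=
  sep (prod (pow (prod om1 omega)) om1) (fun p => ∃ A θ, p = opair A θ ∧ Cond0 A θ)

private theorem mem_etQ {p : M} : p ∈ (etQ : M) ↔ ∃ A θ, p = opair A θ ∧ Cond0 A θ := by
  unfold etQ
  rw [mem_sep]
  refine ⟨fun h => h.2, fun h => ⟨?_, h⟩⟩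
  obtain ⟨A, θ, rfl, h⟩ := h
  rw [opair_mem_prod, mem_pow, mem_om1]
  refine ⟨fun z hz => ?_, h.1, h.2.2.1⟩
  have h1 := h.2.2.2.1 z hz
  rw [mem_prod] at h1 ⊢
  obtain ⟨x, hx, y, hy, e⟩ := h1
  exact ⟨x, mem_om1.2 ⟨h.1.mem hx, ctb_sub h.2.2.1 (h.1.1 x hx)⟩, y, hy, e⟩

private theorem opair_mem_etQ {A θ : M} : opair A θ ∈ (etQ : M) ↔ Cond0 A θ := by
  rw [mem_etQ]
  constructor
  · rintro ⟨A', θ', e, h⟩
    obtain ⟨rfl, rfl⟩ := opair_inj e
    exact h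
  · intro h
    exact ⟨A, θ, rfl, h⟩

/-! ### Deciding `Φ z` -/

private def Dcd (Φ : M → M → M → Prop) (z A θ : M) : Prop :=
  Φ z A θ ∨ ∀ A' θ', Cond0 A' θ' → Ext0 A' θ' A θ → ¬ Φ z A' θ'

private instance DR.Dcd (Φ : M → M → M → Prop) [D3 Φ] (z A θ : (ι → M) → M) [DF z] [DF A] [DF θ] :
    DR (fun v => Dcd Φ (z v) (A v) (θ v)) := by
  unfold NPA.Dcd
  infer_instance

private def etP (Φ : M → M → M → Prop) (a b q : M) : Prop :=
  ∃ A θ B η, a = opair A θ ∧ q = opair B η ∧ Ext0 B η A θ ∧ Φ b B η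

private instance DR.etP (Φ : M → M → M → Prop) [D3 Φ] (a b q : (ι → M) → M) [DF a] [DF b] [DF q] :
    DR (fun v => etP Φ (a v) (b v) (q v)) := by
  unfold NPA.etP
  infer_instance

private def etB (a b q : M) : Prop :=
  ∃ A θ B η, a = opair A θ ∧ q = opair B η ∧ Ext0 B η A θ ∧ θ ∈ η ∧ BlkR B θ b

private instance DR.etB (a b q : (ι → M) → M) [DF a] [DF b] [DF q] :
    DR (fun v => etB (a v) (b v) (q v)) := by
  unfold NPA.etB
  infer_instance

private def etR (a x : M) : Prop :=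
  x ∈ (RS : M) ∧ ∀ z, z ∈ a ↔ ∃ i, i ∈ (omega : M) ∧ z = pr i (ap x i)

private instance DR.etR (a x : (ι → M) → M) [DF a] [DF x] :
    DR (fun v => etR (a v) (x v)) := by
  unfold NPA.etR
  infer_instance

private noncomputable def etF (a : M) : M := iota (fun x => ∃ y, a = opair x y)
private noncomputable def etG (a : M) : M := iota (fun y => ∃ x, a = opair x y)

private instance DF.etF (a : (ι → M) → M) [DF a] : DF (fun v => etF (a v)) := by
  unfold NPA.etF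
  infer_instance

private instance DF.etG (a : (ι → M) → M) [DF a] : DF (fun v => etG (a v)) := by
  unfold NPA.etG
  infer_instance

private theorem etF_opair (x y : M) : etF (opair x y) = x := by
  unfold etF
  refine iota_eq ⟨y, rfl⟩ ?_
  rintro x' ⟨y', e⟩
  exact (opair_inj e).1.symm

private theorem etG_opair (x y : M) : etG (opair x y) = y := by
  unfold etG
  refine iota_eq ⟨x, rfl⟩ ?_
  rintro y' ⟨x', e⟩
  exact (opair_inj e).2.symm

/-- The additional closure function; `c` is a choice function. -/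
private noncomputable def etS (Φ : M → M → M → Prop) (c a b : M) : M :=
  un (sing (opair a b)) (un (sep a (fun _ => Ctb a)) (un (sing (hF a b)) (un (sing (etF a))
    (un (sing (etG a)) (un (sing (iota (fun x => etR a x)))
      (un (sing (ap c (sep etQ (fun q => etP Φ a b q))))
        (sing (ap c (sep etQ (fun q => etB a b q))))))))))

private instance etQ_DF : DF (ι := ι) (fun _ => (etQ : M)) := inferInstance

private instance etS_F2 (Φ : M → M → M → Prop) [D3 Φ] (c : M) : F2 (etS Φ c) := by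
  have : DF (fun v : Fin 2 → M => etS Φ c (v 0) (v 1)) := by
    unfold etS
    infer_instance
  exact ⟨this⟩

private theorem etS_ctb (Φ : M → M → M → Prop) (c a b : M) : Ctb (etS Φ c a b) := by
  unfold etS
  refine ctb_un (ctb_sing _) (ctb_un ?_ (ctb_un (ctb_sing _) (ctb_un (ctb_sing _)
    (ctb_un (ctb_sing _) (ctb_un (ctb_sing _) (ctb_un (ctb_sing _) (ctb_sing _)))))))
  by_cases h : Ctb a
  · exact ctb_sub h fun z hz => ((mem_sep _ _ _).1 hz).1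
  · exact ctb_sub ctb_emp fun z hz => absurd ((mem_sep _ _ _).1 hz).2 h

private theorem mem_etS {Φ : M → M → M → Prop} {c a b z : M} : z ∈ etS Φ c a b ↔
    z = opair a b ∨ (z ∈ a ∧ Ctb a) ∨ z = hF a b ∨ z = etF a ∨ z = etG a ∨
      z = iota (fun x => etR a x) ∨ z = ap c (sep etQ (fun q => etP Φ a b q)) ∨
      z = ap c (sep etQ (fun q => etB a b q)) := by
  unfold etS
  simp only [mem_un, mem_sing, mem_sep]

/-! ### Consequences of the closure -/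

section
variable {Φ : M → M → M → Prop} [D3 Φ] {c X : M}

private theorem et_pair (h : ClS (etS Φ c) X) {a b : M} (ha : a ∈ X) (hb : b ∈ X) :
    opair a b ∈ X := h a ha b hb _ (mem_etS.2 (Or.inl rfl))

private theorem et_sub (h : ClS (etS Φ c) X) {a : M} (ha : a ∈ X) (hc : Ctb a) : a ⊆ X :=
  fun z hz => h a ha a ha _ (mem_etS.2 (Or.inr (Or.inl ⟨hz, hc⟩)))

private theorem et_hF (h : ClS (etS Φ c) X) {a b : M} (ha : a ∈ X) (hb : b ∈ X) :
    hF a b ∈ X := h a ha b hb _ (mem_etS.2 (Or.inr (Or.inr (Or.inl rfl))))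

private theorem et_comp (h : ClS (etS Φ c) X) {x y : M} (ha : opair x y ∈ X) : x ∈ X ∧ y ∈ X := by
  constructor
  · have := h _ ha _ ha _ (mem_etS.2 (Or.inr (Or.inr (Or.inr (Or.inl rfl)))))
    rwa [etF_opair] at this
  · have := h _ ha _ ha _ (mem_etS.2 (Or.inr (Or.inr (Or.inr (Or.inr (Or.inl rfl))))))
    rwa [etG_opair] at this

private theorem et_real (h : ClS (etS Φ c) X) {s x : M} (hs : s ∈ X) (hx : x ∈ (RS : M))
    (he : ∀ z, z ∈ s ↔ ∃ i, i ∈ (omega : M) ∧ z = pr i (ap x i)) : x ∈ X := by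
  have h1 := h _ hs _ hs _ (mem_etS.2 (Or.inr (Or.inr (Or.inr (Or.inr (Or.inr (Or.inl rfl)))))))
  have h2 : iota (fun x => etR s x) = x := by
    refine iota_eq ⟨hx, he⟩ ?_
    rintro y ⟨hy, he'⟩
    apply RS_ext hy hx
    intro i hi
    obtain ⟨j, hj, e⟩ := (he' _).1 ((he _).2 ⟨i, hi, rfl⟩)
    obtain ⟨rfl, e2⟩ := pr_inj hi (RS_ap hx hi) hj (RS_ap hy hj) e
    exact e2.symm
  rwa [h2] at h1

private theorem et_dec (hc : ∀ s : M, s ⊆ etQ → s ≠ emp → ap c s ∈ s) (h : ClS (etS Φ c) X)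
    {A θ z : M} (hC : Cond0 A θ) (ha : opair A θ ∈ X) (hz : z ∈ X) :
    ∃ A' θ', opair A' θ' ∈ X ∧ Cond0 A' θ' ∧ Ext0 A' θ' A θ ∧ Dcd Φ z A' θ' := by
  by_cases hex : ∃ B η, Cond0 B η ∧ Ext0 B η A θ ∧ Φ z B η
  · obtain ⟨B, η, h1, h2, h3⟩ := hex
    have h4 := h _ ha _ hz _
      (mem_etS.2 (Or.inr (Or.inr (Or.inr (Or.inr (Or.inr (Or.inr (Or.inl rfl))))))))
    have h5 := hc (sep etQ (fun q => etP Φ (opair A θ) z q))
      (fun q hq => ((mem_sep _ _ _).1 hq).1)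
      (ne_emp_iff.2 ⟨opair B η, (mem_sep _ _ _).2
        ⟨opair_mem_etQ.2 h1, A, θ, B, η, rfl, rfl, h2, h3⟩⟩)
    obtain ⟨h6, A0, θ0, B', η', e1, e2, h7, h8⟩ := (mem_sep _ _ _).1 h5
    obtain ⟨rfl, rfl⟩ := opair_inj e1
    rw [e2] at h4 h6
    exact ⟨B', η', h4, opair_mem_etQ.1 h6, h7, Or.inl h8⟩
  · exact ⟨A, θ, ha, hC, ext0_refl A θ, Or.inr fun A' θ' h1 h2 h3 => hex ⟨A', θ', h1, h2, h3⟩⟩

private theorem et_blk (hAC : AC M) (hc : ∀ s : M, s ⊆ etQ → s ≠ emp → ap c s ∈ s)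
    (h : ClS (etS Φ c) X)
    {A θ z : M} (hC : Cond0 A θ) (ha : opair A θ ∈ X) (hz : z ∈ X) :
    ∃ A' θ', opair A' θ' ∈ X ∧ Cond0 A' θ' ∧ Ext0 A' θ' A θ ∧
      (z ∈ (RS : M) → ∃ δ, δ ∈ θ' ∧ BlkR A' δ z) := by
  by_cases hz' : z ∈ (RS : M)
  · obtain ⟨B, η, h1, h2, h3⟩ := ext_step hAC hC hz'
    have h4 := h _ ha _ hz _
      (mem_etS.2 (Or.inr (Or.inr (Or.inr (Or.inr (Or.inr (Or.inr (Or.inr rfl))))))))
    have h5 := hc (sep etQ (fun q => etB (opair A θ) z q))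
      (fun q hq => ((mem_sep _ _ _).1 hq).1)
      (ne_emp_iff.2 ⟨opair B η, (mem_sep _ _ _).2
        ⟨opair_mem_etQ.2 h1, A, θ, B, η, rfl, rfl, h2, h3⟩⟩)
    obtain ⟨h6, A0, θ0, B', η', e1, e2, h7, h8, h9⟩ := (mem_sep _ _ _).1 h5
    obtain ⟨rfl, rfl⟩ := opair_inj e1
    rw [e2] at h4 h6
    exact ⟨B', η', h4, opair_mem_etQ.1 h6, h7, fun _ => ⟨θ, h8, h9⟩⟩
  · exact ⟨A, θ, ha, hC, ext0_refl A θ, fun h => absurd h hz'⟩

end

/-- The step relation for the dependent choice. -/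
private def etStep (Φ : M → M → M → Prop) (X z p q : M) : Prop :=
  ∃ A θ A' θ' B η, p = opair A θ ∧ q = opair B η ∧ opair A' θ' ∈ X ∧ Cond0 A' θ' ∧
    Ext0 A' θ' A θ ∧ Ext0 B η A' θ' ∧ Dcd Φ z A' θ' ∧
    (z ∈ (RS : M) → ∃ δ, δ ∈ η ∧ BlkR B δ z)

set_option synthInstance.maxSize 100000 in
private instance DR.etStep (Φ : M → M → M → Prop) [D3 Φ] (X z p q : (ι → M) → M) [DF X] [DF z]
    [DF p] [DF q] : DR (fun v => etStep Φ (X v) (z v) (p v) (q v)) := by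
  unfold NPA.etStep
  infer_instance

theorem tot_gen {k : ℕ} (hAC : AC M) (hD : Det (RS : M) k) (hM : Mini M k)
    (Φ : M → M → M → Prop) [D3 Φ] :
    ∃ S : M → M → M, F2 S ∧ (∀ a b, Ctb (S a b)) ∧
      ∀ X, Ctb X → ClS S X → ∀ A θ, Cond0 A θ → A ∈ X → θ ∈ X →
        ∃ B η, Cond0 B η ∧ Ext0 B η A θ ∧
          ∀ z, z ∈ X → ∃ A' θ', A' ∈ X ∧ θ' ∈ X ∧ Cond0 A' θ' ∧ Ext0 A' θ' A θ ∧
            Ext0 B η A' θ' ∧
            (Φ z A' θ' ∨ ∀ A'' θ'', Cond0 A'' θ'' → Ext0 A'' θ'' A' θ' → ¬ Φ z A'' θ'') := by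
  obtain ⟨S0, hS0, hS0c, hS0D⟩ := det_reflect hAC k hD
  obtain ⟨c, hc⟩ := ac_fun hAC (etQ : M)
  obtain ⟨S, hS⟩ : ∃ S : M → M → M, S = fun a b => un (S0 a b) (etS Φ c a b) := ⟨_, rfl⟩
  have hF2 : F2 S := by
    rw [hS]
    have : DF (fun v : Fin 2 → M => un (S0 (v 0) (v 1)) (etS Φ c (v 0) (v 1))) := by
      infer_instance
    exact ⟨this⟩
  refine ⟨S, hF2, fun a b => by rw [hS]; exact ctb_un (hS0c a b) (etS_ctb Φ c a b), ?_⟩
  intro X hX hcl A θ hA hAX hθX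
  have hcl0 : ClS S0 X := fun a ha b hb z hz => hcl a ha b hb z (by rw [hS, mem_un]; exact Or.inl hz)
  have hcl1 : ClS (etS Φ c) X := fun a ha b hb z hz =>
    hcl a ha b hb z (by rw [hS, mem_un]; exact Or.inr hz)
  -- enumeration of `X`
  obtain ⟨e, he, hes⟩ := ctb_enum hX (ne_emp_iff.2 ⟨A, hAX⟩)
  -- the sequence
  obtain ⟨Z, hZ⟩ : ∃ Z : M, Z = sep X (fun p => ∃ A θ, p = opair A θ ∧ Cond0 A θ) := ⟨_, rfl⟩
  have memZ : ∀ p, p ∈ Z ↔ p ∈ X ∧ ∃ A θ, p = opair A θ ∧ Cond0 A θ := by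
    intro p
    rw [hZ, mem_sep]
  have hD3 : D3 (fun n p q : M => etStep Φ X (ap e n) p q) := by
    have : DR (fun v : Fin 3 → M => etStep Φ X (ap e (v 0)) (v 1) (v 2)) := by infer_instance
    exact ⟨this⟩
  obtain ⟨f, hf, hf0, hfs⟩ := dc_seq hAC Z (fun n p q => etStep Φ X (ap e n) p q) (opair A θ)
    ((memZ _).2 ⟨et_pair hcl1 hAX hθX, A, θ, rfl, hA⟩) (by
      intro n hn p hp
      obtain ⟨hpX, A1, θ1, rfl, hC⟩ := (memZ _).1 hp
      obtain ⟨A2, θ2, h1, h2, h3, h4⟩ := et_dec hc hcl1 hC hpX (he.ap_mem hn)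
      obtain ⟨B, η, h5, h6, h7, h8⟩ := et_blk hAC hc hcl1 h2 h1 (he.ap_mem hn)
      exact ⟨opair B η, (memZ _).2 ⟨h5, B, η, rfl, h6⟩, A1, θ1, A2, θ2, B, η, rfl, rfl, h1, h2, h3,
        h7, h4, h8⟩)
  have hfZ : ∀ n, n ∈ (omega : M) → ap f n ∈ X ∧ ∃ A θ, ap f n = opair A θ ∧ Cond0 A θ :=
    fun n hn => (memZ _).1 (hf.ap_mem hn)
  have hstep : ∀ n, n ∈ (omega : M) → ∀ A1 θ1 B1 η1, ap f n = opair A1 θ1 →
      ap f (succ n) = opair B1 η1 → ∃ A' θ', opair A' θ' ∈ X ∧ Cond0 A' θ' ∧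
        Ext0 A' θ' A1 θ1 ∧ Ext0 B1 η1 A' θ' ∧ Dcd Φ (ap e n) A' θ' ∧
        (ap e n ∈ (RS : M) → ∃ δ, δ ∈ η1 ∧ BlkR B1 δ (ap e n)) := by
    intro n hn A1 θ1 B1 η1 h1 h2
    obtain ⟨A0, θ0, A', θ', B, η, e1, e2, h3⟩ := hfs n hn
    obtain ⟨rfl, rfl⟩ := opair_inj (h1.symm.trans e1)
    obtain ⟨rfl, rfl⟩ := opair_inj (h2.symm.trans e2)
    exact ⟨A', θ', h3⟩
  -- the union
  obtain ⟨B, l, hl, hωl, hlc, hB, hBC, hBn, hBl⟩ := chain_union hAC (fun n hn => (hfZ n hn).2)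
    (fun n hn A1 θ1 B1 η1 h1 h2 => by
      obtain ⟨A', θ', _, _, h3, h4, _⟩ := hstep n hn A1 θ1 B1 η1 h1 h2
      exact ext0_trans h4 h3)
  -- the coding stage
  obtain ⟨η, hη, hlη, hηc, hηs⟩ := key_stage hAC hM hX (hS0D X hcl0) hl hlc hB (by
      intro δ hδ _
      obtain ⟨n, A1, θ1, hn, e1, hδ1⟩ := hBl δ hδ
      obtain ⟨h1, A2, θ2, e2, hC⟩ := hfZ n hn
      obtain ⟨rfl, rfl⟩ := opair_inj (e1.symm.trans e2)
      rw [e1] at h1
      have h2 := et_comp hcl1 h1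
      rw [ext0_hF hC.1 (hBn n hn _ _ e1) δ ((mem_succ _ _).2 (Or.inl hδ1))]
      exact et_hF hcl1 h2.1 (et_sub hcl1 h2.2 hC.2.2.1 δ hδ1))
    (fun s x hs hx he' => et_real hcl1 hs hx he')
    (by
      intro y hy hyX
      obtain ⟨n, hn, rfl⟩ := hes y hyX
      obtain ⟨_, A1, θ1, e1, _⟩ := hfZ n hn
      obtain ⟨_, B1, η1, e2, hC⟩ := hfZ (succ n) (succ_mem_omega hn)
      obtain ⟨A', θ', _, _, _, _, _, h3⟩ := hstep n hn _ _ _ _ e1 e2
      obtain ⟨δ, hδ, hblk⟩ := h3 hy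
      have h4 := hBn (succ n) (succ_mem_omega hn) _ _ e2
      refine ⟨δ, h4.1 δ hδ, fun i hi v hv => ?_⟩
      rw [h4.2 _ _ hδ]
      exact hblk i hi v hv)
  -- the condition
  have hCB : Cond0 B η := by
    refine ⟨hη, sub_trans hωl hlη, hηc, fun z hz => ?_, hηs, hBC⟩
    have h1 := hB z hz
    rw [mem_prod] at h1 ⊢
    obtain ⟨x, hx, y, hy, e1⟩ := h1
    exact ⟨x, hlη x hx, y, hy, e1⟩
  have hExt : ∀ n, n ∈ (omega : M) → ∀ A' θ', ap f n = opair A' θ' → Ext0 B η A' θ' := by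
    intro n hn A' θ' e1
    have h1 := hBn n hn _ _ e1
    exact ⟨sub_trans h1.1 hlη, h1.2⟩
  have hFrom : ∀ n, n ∈ (omega : M) → ∀ A' θ', ap f n = opair A' θ' → Ext0 A' θ' A θ := by
    apply omega_induction (fun n => ∀ A' θ', ap f n = opair A' θ' → Ext0 A' θ' A θ)
    · intro A' θ' e1
      obtain ⟨rfl, rfl⟩ := opair_inj (hf0.symm.trans e1)
      exact ext0_refl _ _
    · intro n hn ih A' θ' e1
      obtain ⟨_, A1, θ1, e2, _⟩ := hfZ n hn
      obtain ⟨A2, θ2, _, _, h3, h4, _⟩ := hstep n hn _ _ _ _ e2 e1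
      exact ext0_trans (ext0_trans h4 h3) (ih _ _ e2)
  refine ⟨B, η, hCB, hExt emp emp_mem_omega _ _ hf0, fun z hz => ?_⟩
  obtain ⟨n, hn, rfl⟩ := hes z hz
  obtain ⟨_, A1, θ1, e1, _⟩ := hfZ n hn
  obtain ⟨_, B1, η1, e2, _⟩ := hfZ (succ n) (succ_mem_omega hn)
  obtain ⟨A', θ', h1, h2, h3, h4, h5, _⟩ := hstep n hn _ _ _ _ e1 e2
  have h6 := et_comp hcl1 h1
  exact ⟨A', θ', h6.1, h6.2, h2, ext0_trans h3 (hFrom n hn _ _ e1),
    ext0_trans (hExt (succ n) (succ_mem_omega hn) _ _ e2) h4, h5⟩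

end Pool.Agent.ZFIter.NPA
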