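import Pool.Agent.NPA.FTab

/-!
# NPA/FBB: the matrix is forced

Let `q, ρ, t` be as in `exists_table`, `c = q`. For `e ≤ q` let `Φ e k m` be the conjunction of
(1) for all `d, i` with `k = pr 0 (pr d i)`, `cLt q d (cT q)`, `cCS q d`, `cA q d i`: for all `e' ≤ e`,
`n ≥ m`, `v`: `Ent (cS e') (cQ q d i n) v → v = 0`;
(2) for all `d, i, l` with `k = pr 1 (pr (pr d i) l)`, `cLt q d (cT q)`, `cCS q d`, `¬ cA q d i`: `l ⊆ m` and
`Ent (cS e) (cQ q d i m) v` for some `v ≠ 0`;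
(3) for all `i` with `k = pr 2 i` there is `v` with `(e, i, v) ∈ x` and for all `e' ≤ e`, `r`, `n ≥ m` with
`Pfx (sq r n) (cS e')`: `cA q (cJ q) (pr 0 (pr (pr i (sq r n)) (succ v)))`.
Give `Φ` its own definition with a D3 instance. Monotone: clear. Dense below `q`: (1)
`promise_add, promise_keep` (the first part of `e` is an end extension of that of `q`; `code_A`,
`code_Q`, `code_CS`, `ext0_bs` translate), (2) `dense_hit`, (3) `exists_table`, `BlkR`, `code_A`. Only one of the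
three cases concerns a given `k` (`num_ne`, `pr_inj`). `least_name` gives `N`.
Let `f, r', x', N'` be as in the statement, `k ∈ omega`: `(f k, k, N' k) ∈ N`, so `Φ (f k) k (N' k)`.
Deduce `BB r' x' q k (N' k)`: values `r' j` are decided by `f l` for large `l` (`dcf_mono`, `opair_mem_rN`,
`ent_uniq`), `sq r' n` is an initial segment of `cS (f l)` for large `l`, `x' i = v` by coherence.
-/

universe u

namespace Pool.Agent.ZFIter.NPA

open Pool.Agent.H78.ZF Pool.Agent.ZFIter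

variable {M : Type u} [ZFM M] {ι : Type}

private def P1 (c e k m : M) : Prop :=
  ∀ d, d ∈ (omega : M) → ∀ i, i ∈ (omega : M) → k = pr (num 0) (pr d i) →
    cLt c d (cT c) → cCS c d → cA c d i → ∀ n, n ∈ (omega : M) → m ⊆ n →
      ∀ e', Le PP RR e' e → ∀ v, Ent (cS e') (cQ c d i n) v → v = emp

private def P2 (c e k m : M) : Prop :=
  ∀ d, d ∈ (omega : M) → ∀ i, i ∈ (omega : M) → ∀ l, l ∈ (omega : M) →
    k = pr (num 1) (pr (pr d i) l) → cLt c d (cT c) → cCS c d → ¬ cA c d i →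
      l ⊆ m ∧ ∃ v, v ≠ emp ∧ Ent (cS e) (cQ c d i m) v

private def P3 (c x e k m : M) : Prop :=
  ∀ i, i ∈ (omega : M) → k = pr (num 2) i → ∃ v, opair e (opair i v) ∈ x ∧
    ∀ n, n ∈ (omega : M) → m ⊆ n → ∀ r, r ∈ (RS : M) → ∀ e', Le PP RR e' e →
      Pfx (sq r n) (cS e') → ∀ w, w ∈ (omega : M) →
        (cA c (cJ c) (pr emp (pr (pr i (sq r n)) (succ w))) ↔ v = w)

private def Ph (c x e k m : M) : Prop := P1 c e k m ∧ P2 c e k m ∧ P3 c x e k m

set_option synthInstance.maxSize 100000 in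
private instance P1_DR (c e k m : (ι → M) → M) [DF c] [DF e] [DF k] [DF m] :
    DR (fun v => P1 (c v) (e v) (k v) (m v)) := by
  unfold P1
  infer_instance

set_option synthInstance.maxSize 100000 in
private instance P2_DR (c e k m : (ι → M) → M) [DF c] [DF e] [DF k] [DF m] :
    DR (fun v => P2 (c v) (e v) (k v) (m v)) := by
  unfold P2
  infer_instance

set_option synthInstance.maxSize 100000 in
private instance P3_DR (c x e k m : (ι → M) → M) [DF c] [DF x] [DF e] [DF k] [DF m] :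
    DR (fun v => P3 (c v) (x v) (e v) (k v) (m v)) := by
  unfold P3
  infer_instance

private theorem Ph_D3 (c x : M) : D3 (fun e k m : M => Ph c x e k m) := by
  have : DR (fun v : Fin 3 → M => Ph c x (v 0) (v 1) (v 2)) := by
    unfold Ph; infer_instance
  exact ⟨this⟩

private theorem ph_mono {c x : M} (hx : Nm PP RR x) :
    ∀ p q n m, Ph c x p n m → Le PP RR q p → Ph c x q n m := by
  rintro p q n m ⟨h1, h2, h3⟩ hle
  refine ⟨?_, ?_, ?_⟩
  · intro d hd i hi hk ht hc hA n' hn' hm e' he' v hv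
    exact h1 d hd i hi hk ht hc hA n' hn' hm e' (le_trans' he' hle) v hv
  · intro d hd i hi l hl hk ht hc hA
    obtain ⟨h4, v, hv, h5⟩ := h2 d hd i hi l hl hk ht hc hA
    exact ⟨h4, v, hv, pfx_ent (le_iff.1 hle).2.2.2.2.1 h5⟩
  · intro i hi hk
    obtain ⟨v, hv, h4⟩ := h3 i hi hk
    exact ⟨v, hx.2.1 _ _ _ _ hv hle, fun n' hn' hm r hr e' he' hp =>
      h4 n' hn' hm r hr e' (le_trans' he' hle) hp⟩

private theorem ph_dens {c x ρ t : M} (hc : IsCond c)
    (hρ : rk c (cJ c) = ρ) (hblk : BlkR (cSet c) ρ t)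
    (htab : ∀ i, i ∈ (omega : M) → ∀ e, Le PP RR e c →
        ∃ e' m v, Le PP RR e' e ∧ m ∈ (omega : M) ∧ v ∈ (omega : M) ∧ opair e' (opair i v) ∈ x ∧
          ∀ e'' r n, Le PP RR e'' e' → r ∈ (RS : M) → n ∈ (omega : M) → m ⊆ n →
            Pfx (sq r n) (cS e'') → ap t (pr i (sq r n)) = succ v) :
    ∀ p k, Le PP RR p c → k ∈ (omega : M) →
      ∃ e m, Le PP RR e p ∧ m ∈ (omega : M) ∧ Ph c x e k m := by
  intro p k hpc hk
  have hC : Code c := hc.1
  have hpc' := le_iff.1 hpc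
  have hext : Ext0 (cSet p) (cTh p) (cSet c) (cTh c) := hpc'.2.2.1
  have hTm : cT c ∈ (omega : M) := RS_ap' hC.1.real _
  have hJm : cJ c ∈ (omega : M) := RS_ap' hC.1.real _
  have hord : Ord (cTh c) := (isCond_spec hc).1.1
  have n01 : (num 0 : M) ≠ num 1 := num_ne (by norm_num)
  have n02 : (num 0 : M) ≠ num 2 := num_ne (by norm_num)
  have n12 : (num 1 : M) ≠ num 2 := num_ne (by norm_num)
  have hn0 : (num 0 : M) ∈ (omega : M) := num_mem 0
  have hn1 : (num 1 : M) ∈ (omega : M) := num_mem 1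
  have hn2 : (num 2 : M) ∈ (omega : M) := num_mem 2
  by_cases hA : ∃ d, d ∈ (omega : M) ∧ ∃ i, i ∈ (omega : M) ∧ k = pr (num 0) (pr d i) ∧
      cLt c d (cT c) ∧ cCS c d ∧ cA c d i
  · obtain ⟨d, hd, i, hi, rfl, hdt, hds, hdA⟩ := hA
    have hδ : rk c d ∈ cTh c := (rk_lt_iff hC hd hTm).2 hdt
    have hδs : rk c d ∈ succ (cTh c) := by rw [mem_succ]; exact Or.inl hδ
    have h1 : opair (rk c d) i ∈ cSet p :=
      ext0_sub (isCond_spec hc).1.2.2.2.1 hext _ ((code_A hC hd hi).2 hdA)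
    obtain ⟨e, he, hep, heS, heT, -⟩ := promise_add hpc'.1 h1
    obtain ⟨N, hN, hkeep⟩ := promise_keep (le_iff.1 he).1 hep
    refine ⟨e, N, he, hN, ?_, ?_, ?_⟩
    · intro d' hd' i' hi' hk' _ _ _ n hn hNn e' he' v hv
      obtain ⟨-, e1⟩ := pr_inj hn0 (pr_mem hd hi) hn0 (pr_mem hd' hi') hk'
      obtain ⟨rfl, rfl⟩ := pr_inj hd hi hd' hi' e1
      rw [code_Q hC hd hi hn] at hv
      refine hkeep e' he' n hn hNn v ?_
      rw [heS, ext0_bs hord hext _ hδs]
      exact hv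
    · intro d' hd' i' hi' l' hl' hk'
      obtain ⟨e1, -⟩ := pr_inj hn0 (pr_mem hd hi) hn1 (pr_mem (pr_mem hd' hi') hl') hk'
      exact absurd e1 n01
    · intro i' hi' hk'
      obtain ⟨e1, -⟩ := pr_inj hn0 (pr_mem hd hi) hn2 hi' hk'
      exact absurd e1 n02
  · by_cases hB : ∃ d, d ∈ (omega : M) ∧ ∃ i, i ∈ (omega : M) ∧ ∃ l, l ∈ (omega : M) ∧
        k = pr (num 1) (pr (pr d i) l) ∧ cLt c d (cT c) ∧ cCS c d ∧ ¬ cA c d i
    · obtain ⟨d, hd, i, hi, l, hl, rfl, hdt, hds, hdA⟩ := hB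
      have hδ : rk c d ∈ cTh c := (rk_lt_iff hC hd hTm).2 hdt
      have hδs : rk c d ∈ succ (cTh c) := by rw [mem_succ]; exact Or.inl hδ
      obtain ⟨e, m, he, hm, hlm, -, hent⟩ := dense_hit (k := i) (l := l) hpc'.1 (hext.1 _ hδ)
        ((ext0_CS hord hext _ hδs).2 ((code_CS hC hd).1 hds)) hi
        (fun h => hdA ((code_A hC hd hi).1 ((hext.2 _ _ hδ).1 h))) hl
      refine ⟨e, m, he, hm, ?_, ?_, ?_⟩
      · intro d' hd' i' hi' hk'
        obtain ⟨e1, -⟩ := pr_inj hn1 (pr_mem (pr_mem hd hi) hl) hn0 (pr_mem hd' hi') hk'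
        exact absurd e1.symm n01
      · intro d' hd' i' hi' l' hl' hk' _ _ _
        obtain ⟨-, e1⟩ := pr_inj hn1 (pr_mem (pr_mem hd hi) hl) hn1
          (pr_mem (pr_mem hd' hi') hl') hk'
        obtain ⟨e2, rfl⟩ := pr_inj (pr_mem hd hi) hl (pr_mem hd' hi') hl' e1
        obtain ⟨rfl, rfl⟩ := pr_inj hd hi hd' hi' e2
        refine ⟨hlm, num 1, fun h => n01 h.symm, ?_⟩
        rw [code_Q hC hd hi hm, ← ext0_bs hord hext _ hδs]
        exact hent
      · intro i' hi' hk'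
        obtain ⟨e1, -⟩ := pr_inj hn1 (pr_mem (pr_mem hd hi) hl) hn2 hi' hk'
        exact absurd e1 n12
    · by_cases hC3 : ∃ i, i ∈ (omega : M) ∧ k = pr (num 2) i
      · obtain ⟨i, hi, rfl⟩ := hC3
        obtain ⟨e', m, v, he', hm, hv, hxv, hall⟩ := htab i hi p hpc
        refine ⟨e', m, he', hm, ?_, ?_, ?_⟩
        · intro d' hd' i' hi' hk'
          obtain ⟨e1, -⟩ := pr_inj hn2 hi hn0 (pr_mem hd' hi') hk'
          exact absurd e1.symm n02
        · intro d' hd' i' hi' l' hl' hk'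
          obtain ⟨e1, -⟩ := pr_inj hn2 hi hn1 (pr_mem (pr_mem hd' hi') hl') hk'
          exact absurd e1.symm n12
        · intro i' hi' hk'
          obtain ⟨-, rfl⟩ := pr_inj hn2 hi hn2 hi' hk'
          refine ⟨v, hxv, fun n hn hmn r hr e'' he'' hp w hw => ?_⟩
          have hs : pr i (sq r n) ∈ (omega : M) := pr_mem hi (sq_mem hr hn)
          have h1 := hall e'' r n he'' hr hn hmn hp
          have h2 := hblk (pr i (sq r n)) hs (succ w) (succ_mem_omega hw)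
          rw [← hρ, code_A hC hJm (pr_mem emp_mem_omega (pr_mem hs (succ_mem_omega hw))), h1] at h2
          exact h2.trans ⟨fun h => succ_inj hv hw h, fun h => by rw [h]⟩
      · refine ⟨p, emp, le_refl' hpc.1, emp_mem_omega, ?_, ?_, ?_⟩
        · intro d hd i hi hk' h1 h2 h3
          exact absurd ⟨d, hd, i, hi, hk', h1, h2, h3⟩ hA
        · intro d hd i hi l hl hk' h1 h2 h3
          exact absurd ⟨d, hd, i, hi, l, hl, hk', h1, h2, h3⟩ hB
        · intro i hi hk'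
          exact absurd ⟨i, hi, hk'⟩ hC3

/-- the values of the generic real are entries of the stems -/
private theorem dcf_ent {q f r' j l : M} (hf : Brf PP RR q f) (hr : Dcf f rN r')
    (hj : j ∈ (omega : M)) (hl : l ∈ (omega : M)) (hjl : j ⊆ l) :
    Ent (cS (ap f l)) j (ap r' j) :=
  (opair_mem_rN.1 (dcf_mono nm_rN hf hr hl hj hjl)).2.2.2

private theorem dcf_pfx {q f r' n l : M} (hf : Brf PP RR q f) (hr : Dcf f rN r')
    (hn : n ∈ (omega : M)) (hl : l ∈ (omega : M)) (hnl : n ⊆ l) :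
    Pfx (sq r' n) (cS (ap f l)) := by
  have hc : IsCond (ap f l) := (le_iff.1 (brf_le_q hf hl)).1
  obtain ⟨y, hy, L, hL, e, -⟩ : Bin (cS (ap f l)) := (isCond_spec hc).2.1
  have h1 : ∀ j, j ∈ n → j ∈ L ∧ ap y j = ap r' j := by
    intro j hj
    have hj' : j ∈ (omega : M) := omega_sub hn j hj
    have h2 := dcf_ent hf hr hj' hl (fun z hz => hnl z ((ord_nat hn).1 j hj z hz))
    rw [e, ent_sq hy hL] at h2
    exact h2
  have hnL : n ⊆ L := by
    rcases le_or_lt hn hL with h | h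
    · exact h
    · exact absurd (h1 L h).1 (not_mem_self _)
  rw [e, pfx_sq hy hL]
  exact ⟨n, hn, hnL, sq_congr hn (fun i hi => (h1 i hi).2.symm)⟩

theorem forced_BB {k : ℕ} (hAC : AC M) (hD : Det (RS : M) k) (hM : Mini M k) {x p : M}
    (hx : Nm PP RR x) (hp : p ∈ (PP : M)) :
    ∃ q N, Le PP RR q p ∧ Nm PP RR N ∧ ∀ f r' x' N', Brf PP RR q f → Dcf f rN r' → Dcf f x x' →
      Dcf f N N' → ∀ k, k ∈ (omega : M) → BB r' x' q k (ap N' k) := by
  obtain ⟨q, ρ, t, hqp, -, -, hρ, hblk, htab⟩ := exists_table hAC hD hM hx hp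
  have hq := le_iff.1 hqp
  have hD3 : D3 (fun e k m : M => Ph q x e k m) := Ph_D3 q x
  obtain ⟨N, hN, hNΦ⟩ := least_name (P := (PP : M)) (R := RR) (fun e k m : M => Ph q x e k m)
    (p0 := q) hqp.1 (ph_mono hx) (ph_dens hq.1 hρ hblk htab)
  refine ⟨q, N, hqp, hN, fun f r' x' N' hf hr hx' hN' k hk => ?_⟩
  obtain ⟨h1, h2, h3⟩ := hNΦ (ap f k) k (ap N' k) (brf_le_q hf hk) (hN'.2 k hk)
  have hQ : ∀ d i n, cQ q d i n ∈ (omega : M) := fun d i n => RS_ap' hq.1.1.1.real _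
  refine ⟨?_, ?_, ?_⟩
  · intro d i hd hi hk' hdt hds hdA n hn hmn
    have hl : pr k (cQ q d i n) ∈ (omega : M) := pr_mem hk (hQ d i n)
    exact h1 d hd i hi hk' hdt hds hdA n hn hmn _ (brf_le hf hl hk (pr_ge_left hk (hQ d i n))) _
      (dcf_ent hf hr (hQ d i n) hl (pr_ge_right hk (hQ d i n)))
  · intro d i l hd hi hl' hk' hdt hds hdA
    obtain ⟨h4, v, hv, h5⟩ := h2 d hd i hi l hl' hk' hdt hds hdA
    refine ⟨h4, ?_⟩
    have hl : pr k (cQ q d i (ap N' k)) ∈ (omega : M) := pr_mem hk (hQ d i _)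
    have h6 := dcf_ent hf hr (hQ d i (ap N' k)) hl (pr_ge_right hk (hQ d i _))
    have h7 := pfx_ent (le_iff.1 (brf_le hf hl hk (pr_ge_left hk (hQ d i _)))).2.2.2.2.1 h5
    rw [ent_uniq h6 h7]
    exact hv
  · intro i hi hk' n hn hmn
    obtain ⟨v, hv, h4⟩ := h3 i hi hk'
    have hxi : ap x' i = v := by
      have hl : pr k i ∈ (omega : M) := pr_mem hk hi
      have h5 := dcf_mono hx hf hx' hl hi (pr_ge_right hk hi)
      have h6 := hx.2.1 _ _ _ _ hv (brf_le hf hl hk (pr_ge_left hk hi))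
      exact hx.2.2.1 _ _ _ _ h5 h6
    rw [hxi]
    have hl : pr k n ∈ (omega : M) := pr_mem hk hn
    exact h4 n hn hmn r' hr.1 _ (brf_le hf hl hk (pr_ge_left hk hn))
      (dcf_pfx hf hr hn hl (pr_ge_right hk hn))

end Pool.Agent.ZFIter.NPA
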