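import Pool.Agent.NPA.Defs6
import Pool.Agent.NPA.ANum
import Pool.Agent.NPA.ASq

/-!
# NPA/FCl: the closed classes

`cl_code`: `o s = 1` if `s = sq x n` for some `x ∈ RS` with `P x`, else `0`.
`isCl_UV`: let `u` be in the closure. The values of `ur u, ux u, ...` at `n` depend only on `u n`
(`pL`, `pR`). `C (jn (uc u) (uy u))`: `C` is closed. `BB ..`: each instance of `BB` for given
`k, d, i, l, n` mentions only finitely many values of `u` (also `sq (ur u) n` depends on finitely many values),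
take `u'` with `UV C u'` which agrees with `u` on all of them.
`isCl_KK`: suppose `w` is in the closure of `KK C` and the first alternative fails for `w`; it depends
only on `w` up to `ap (pR w) 0 + 1`, so it fails for all `w'` close to `w`; so these satisfy the second
alternative, which is closed.
-/

universe u

namespace Pool.Agent.ZFIter.NPA

open Pool.Agent.H78.ZF Pool.Agent.ZFIter

variable {M : Type u} [ZFM M] {ι : Type}

/-- the code of the closed class `P` -/
private noncomputable def clC (P : M → Prop) (s : M) : M :=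
  iota (fun v => ((∃ y, y ∈ (RS : M) ∧ P y ∧ ∃ n, n ∈ (omega : M) ∧ s = sq y n) ∧ v = num 1) ∨
    (¬ (∃ y, y ∈ (RS : M) ∧ P y ∧ ∃ n, n ∈ (omega : M) ∧ s = sq y n) ∧ v = emp))

private instance clC_F1 (P : M → Prop) [D1 P] : F1 (clC P) := by
  have : DF (fun v : Unit → M => clC P (v ())) := by
    unfold clC; infer_instance
  infer_instance

private theorem clC_pos {P : M → Prop} {s : M}
    (h : ∃ y, y ∈ (RS : M) ∧ P y ∧ ∃ n, n ∈ (omega : M) ∧ s = sq y n) : clC P s = num 1 := by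
  unfold clC
  apply iota_eq
  · exact Or.inl ⟨h, rfl⟩
  · rintro x (⟨_, h1⟩ | ⟨h1, _⟩)
    · exact h1
    · exact absurd h h1

private theorem clC_neg {P : M → Prop} {s : M}
    (h : ¬ ∃ y, y ∈ (RS : M) ∧ P y ∧ ∃ n, n ∈ (omega : M) ∧ s = sq y n) : clC P s = emp := by
  unfold clC
  apply iota_eq
  · exact Or.inr ⟨h, rfl⟩
  · rintro x (⟨h1, _⟩ | ⟨_, h1⟩)
    · exact absurd h1 h
    · exact h1

theorem cl_code (P : M → Prop) [D1 P] (h : IsCl P) :
    ∃ o, o ∈ (RS : M) ∧ ∀ x, x ∈ (RS : M) → (P x ↔ Pi RS 0 o x) := by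
  have hm : ∀ s, s ∈ (omega : M) → clC P s ∈ (omega : M) := by
    intro s _
    by_cases hs : ∃ y, y ∈ (RS : M) ∧ P y ∧ ∃ n, n ∈ (omega : M) ∧ s = sq y n
    · rw [clC_pos hs]; exact num_mem 1
    · rw [clC_neg hs]; exact emp_mem_omega
  refine ⟨mkf omega omega (clC P), mem_RS.2 (mkf_fun hm), fun x hx => ?_⟩
  constructor
  · intro hP n hn
    rw [ap_mkf hm (sq_mem hx hn), clC_pos ⟨x, hx, hP, n, hn, rfl⟩]
    exact succ_ne_emp _
  · intro hP
    apply h x hx
    intro n hn
    have h1 := hP n hn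
    rw [ap_mkf hm (sq_mem hx hn)] at h1
    by_cases hs : ∃ y, y ∈ (RS : M) ∧ P y ∧ ∃ n', n' ∈ (omega : M) ∧ sq x n = sq y n'
    · obtain ⟨y, hy, hPy, n', hn', e⟩ := hs
      have e1 := (sq_inj hx hy hn hn' e).1
      subst e1
      exact ⟨y, hy, hPy, e.symm⟩
    · exact absurd (clC_neg hs) h1

/-- finitely many numbers are below some number -/
private theorem exists_ub (l : List M) (h : ∀ a, List.Mem a l → a ∈ (omega : M)) :
    ∃ n, n ∈ (omega : M) ∧ ∀ a, List.Mem a l → a ∈ n := by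
  induction l with
  | nil => exact ⟨emp, emp_mem_omega, fun a ha => by cases ha⟩
  | cons b l ih =>
    obtain ⟨n, hn, h1⟩ := ih (fun a ha => h a (List.Mem.tail _ ha))
    have hb : b ∈ (omega : M) := h b (List.Mem.head _)
    have hsb : succ b ∈ (omega : M) := succ_mem_omega hb
    rcases le_or_lt hsb hn with hle | hlt
    · refine ⟨n, hn, fun a ha => ?_⟩
      cases ha with
      | head => exact hle b (by simp)
      | tail _ ha => exact h1 a ha
    · refine ⟨succ b, hsb, fun a ha => ?_⟩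
      cases ha with
      | head => simp
      | tail _ ha => exact lt_trans hsb (h1 a ha) hlt

private theorem ap_pLR {w n : M} (hw : w ∈ (RS : M)) (hn : n ∈ (omega : M)) :
    ap w n = pr (ap (pL w) n) (ap (pR w) n) := by
  conv_lhs => rw [← jn_pL_pR hw]
  exact ap_jn (pL_mem hw) (pR_mem hw) hn

private theorem pL_agree {w w' n : M} (hw : w ∈ (RS : M)) (hw' : w' ∈ (RS : M))
    (hn : n ∈ (omega : M)) (h : ap w' n = ap w n) : ap (pL w') n = ap (pL w) n := by
  rw [ap_pLR hw hn, ap_pLR hw' hn] at h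
  exact (pr_inj (RS_ap (pL_mem hw') hn) (RS_ap (pR_mem hw') hn) (RS_ap (pL_mem hw) hn)
    (RS_ap (pR_mem hw) hn) h).1

private theorem pR_agree {w w' n : M} (hw : w ∈ (RS : M)) (hw' : w' ∈ (RS : M))
    (hn : n ∈ (omega : M)) (h : ap w' n = ap w n) : ap (pR w') n = ap (pR w) n := by
  rw [ap_pLR hw hn, ap_pLR hw' hn] at h
  exact (pr_inj (RS_ap (pL_mem hw') hn) (RS_ap (pR_mem hw') hn) (RS_ap (pL_mem hw) hn)
    (RS_ap (pR_mem hw) hn) h).2

/-- agreement of the components -/
private theorem agree {u u' N : M} (hu : u ∈ (RS : M)) (hu' : u' ∈ (RS : M)) (hN : N ∈ (omega : M))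
    (h : sq u' N = sq u N) : ∀ j, j ∈ N → ap (ur u') j = ap (ur u) j ∧ ap (ux u') j = ap (ux u) j ∧
      ap (uc u') j = ap (uc u) j ∧ ap (uy u') j = ap (uy u) j ∧ ap (uN u') j = ap (uN u) j := by
  intro j hj
  have hjω := mem_omega_of_mem hj hN
  have h0 := (sq_inj hu' hu hN hN h).2 j hj
  have hL := pL_agree hu hu' hjω h0
  have hR := pR_agree hu hu' hjω h0
  have hLL := pL_agree (pL_mem hu) (pL_mem hu') hjω hL
  have hLR := pR_agree (pL_mem hu) (pL_mem hu') hjω hL
  have hRL := pL_agree (pR_mem hu) (pR_mem hu') hjω hR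
  have hRR := pR_agree (pR_mem hu) (pR_mem hu') hjω hR
  refine ⟨?_, hLR, ?_, ?_, hRR⟩
  · exact pR_agree (pL_mem (pL_mem hu)) (pL_mem (pL_mem hu')) hjω hLL
  · exact pL_agree (pL_mem (pR_mem hu)) (pL_mem (pR_mem hu')) hjω hRL
  · exact pR_agree (pL_mem (pR_mem hu)) (pL_mem (pR_mem hu')) hjω hRL

private theorem ur_mem {u : M} (hu : u ∈ (RS : M)) : ur u ∈ (RS : M) := pR_mem (pL_mem (pL_mem hu))
private theorem ux_mem {u : M} (hu : u ∈ (RS : M)) : ux u ∈ (RS : M) := pR_mem (pL_mem hu)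
private theorem uc_mem {u : M} (hu : u ∈ (RS : M)) : uc u ∈ (RS : M) := pL_mem (pL_mem (pR_mem hu))
private theorem uy_mem {u : M} (hu : u ∈ (RS : M)) : uy u ∈ (RS : M) := pR_mem (pL_mem (pR_mem hu))
private theorem uN_mem {u : M} (hu : u ∈ (RS : M)) : uN u ∈ (RS : M) := pR_mem (pR_mem hu)

theorem isCl_UV {C : M → Prop} [D1 C] (hC : IsCl C) : IsCl (UV C) := by
  intro u hu hcl
  have hr := ur_mem hu
  have hx := ux_mem hu
  have hc := uc_mem hu
  have hy := uy_mem hu
  have hN := uN_mem hu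
  refine ⟨?_, ?_⟩
  · apply hC _ (jn_mem hc hy)
    intro n hn
    obtain ⟨u', hu', h1, h2⟩ := hcl n hn
    refine ⟨jn (uc u') (uy u'), jn_mem (uc_mem hu') (uy_mem hu'), h1.1, ?_⟩
    rw [sq_jn_iff (uc_mem hu') (uy_mem hu') hc hy hn]
    have h3 := agree hu hu' hn h2
    exact ⟨sq_congr hn fun i hi => (h3 i hi).2.2.1, sq_congr hn fun i hi => (h3 i hi).2.2.2.1⟩
  · intro k hk
    have key : ∀ l : List M, (∀ a, List.Mem a l → a ∈ (omega : M)) →
        ∃ n, n ∈ (omega : M) ∧ (∀ a, List.Mem a l → a ∈ n) ∧ ∃ u', u' ∈ (RS : M) ∧ UV C u' ∧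
          ∀ j, j ∈ n → ap (ur u') j = ap (ur u) j ∧ ap (ux u') j = ap (ux u) j ∧
            ap (uc u') j = ap (uc u) j ∧ ap (uN u') j = ap (uN u) j := by
      intro l hl
      obtain ⟨n, hn, h1⟩ := exists_ub l hl
      obtain ⟨u', hu', h2, h3⟩ := hcl n hn
      have h4 := agree hu hu' hn h3
      exact ⟨n, hn, h1, u', hu', h2, fun j hj =>
        ⟨(h4 j hj).1, (h4 j hj).2.1, (h4 j hj).2.2.1, (h4 j hj).2.2.2.2⟩⟩
    have hcT : cT (uc u) ∈ (omega : M) := RS_ap' hc _
    refine ⟨?_, ?_, ?_⟩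
    · intro d i hd hi ek h1 h2 h3 n hn hmn
      have hQ : cQ (uc u) d i n ∈ (omega : M) := RS_ap' hc _
      obtain ⟨n0, hn0, hmem, u', hu', hU, hag⟩ := key [k, pr (num 12) emp,
        pr (num 0) (pr d (cT (uc u))), pr (num 10) d, pr (num 2) (pr d i),
        pr (num 11) (pr (pr d i) n), cQ (uc u) d i n] (by
          intro a ha
          rcases ha with _ | ⟨_, _ | ⟨_, _ | ⟨_, _ | ⟨_, _ | ⟨_, _ | ⟨_, _ | ⟨_, ha⟩⟩⟩⟩⟩⟩⟩
          · exact hk
          · exact pr_mem (num_mem 12) emp_mem_omega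
          · exact pr_mem (num_mem 0) (pr_mem hd hcT)
          · exact pr_mem (num_mem 10) hd
          · exact pr_mem (num_mem 2) (pr_mem hd hi)
          · exact pr_mem (num_mem 11) (pr_mem (pr_mem hd hi) hn)
          · exact hQ
          · cases ha)
      have m1 := hmem _ (List.Mem.head _)
      have m2 := hmem _ (List.Mem.tail _ (List.Mem.head _))
      have m3 := hmem _ (List.Mem.tail _ (List.Mem.tail _ (List.Mem.head _)))
      have m4 := hmem _ (List.Mem.tail _ (List.Mem.tail _ (List.Mem.tail _ (List.Mem.head _))))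
      have m5 := hmem _ (List.Mem.tail _ (List.Mem.tail _ (List.Mem.tail _ (List.Mem.tail _
        (List.Mem.head _)))))
      have m6 := hmem _ (List.Mem.tail _ (List.Mem.tail _ (List.Mem.tail _ (List.Mem.tail _
        (List.Mem.tail _ (List.Mem.head _))))))
      have m7 := hmem _ (List.Mem.tail _ (List.Mem.tail _ (List.Mem.tail _ (List.Mem.tail _
        (List.Mem.tail _ (List.Mem.tail _ (List.Mem.head _)))))))
      have eT : cT (uc u') = cT (uc u) := (hag _ m2).2.2.1
      have eQ : cQ (uc u') d i n = cQ (uc u) d i n := (hag _ m6).2.2.1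
      have b := (hU.2 k hk).1 d i hd hi ek
        (by unfold cLt; rw [eT, (hag _ m3).2.2.1]; exact h1)
        (by unfold cCS; rw [(hag _ m4).2.2.1]; exact h2)
        (by unfold cA; rw [(hag _ m5).2.2.1]; exact h3) n hn
        (by rw [(hag _ m1).2.2.2]; exact hmn)
      rw [eQ, (hag _ m7).1] at b
      exact b
    · intro d i l hd hi hl ek h1 h2 h3
      have hm : ap (uN u) k ∈ (omega : M) := RS_ap' hN _
      have hQ : cQ (uc u) d i (ap (uN u) k) ∈ (omega : M) := RS_ap' hc _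
      obtain ⟨n0, hn0, hmem, u', hu', hU, hag⟩ := key [k, pr (num 12) emp,
        pr (num 0) (pr d (cT (uc u))), pr (num 10) d, pr (num 2) (pr d i),
        pr (num 11) (pr (pr d i) (ap (uN u) k)), cQ (uc u) d i (ap (uN u) k)] (by
          intro a ha
          rcases ha with _ | ⟨_, _ | ⟨_, _ | ⟨_, _ | ⟨_, _ | ⟨_, _ | ⟨_, _ | ⟨_, ha⟩⟩⟩⟩⟩⟩⟩
          · exact hk
          · exact pr_mem (num_mem 12) emp_mem_omega
          · exact pr_mem (num_mem 0) (pr_mem hd hcT)
          · exact pr_mem (num_mem 10) hd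
          · exact pr_mem (num_mem 2) (pr_mem hd hi)
          · exact pr_mem (num_mem 11) (pr_mem (pr_mem hd hi) hm)
          · exact hQ
          · cases ha)
      have m1 := hmem _ (List.Mem.head _)
      have m2 := hmem _ (List.Mem.tail _ (List.Mem.head _))
      have m3 := hmem _ (List.Mem.tail _ (List.Mem.tail _ (List.Mem.head _)))
      have m4 := hmem _ (List.Mem.tail _ (List.Mem.tail _ (List.Mem.tail _ (List.Mem.head _))))
      have m5 := hmem _ (List.Mem.tail _ (List.Mem.tail _ (List.Mem.tail _ (List.Mem.tail _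
        (List.Mem.head _)))))
      have m6 := hmem _ (List.Mem.tail _ (List.Mem.tail _ (List.Mem.tail _ (List.Mem.tail _
        (List.Mem.tail _ (List.Mem.head _))))))
      have m7 := hmem _ (List.Mem.tail _ (List.Mem.tail _ (List.Mem.tail _ (List.Mem.tail _
        (List.Mem.tail _ (List.Mem.tail _ (List.Mem.head _)))))))
      have eT : cT (uc u') = cT (uc u) := (hag _ m2).2.2.1
      have eN : ap (uN u') k = ap (uN u) k := (hag _ m1).2.2.2
      have eQ : cQ (uc u') d i (ap (uN u) k) = cQ (uc u) d i (ap (uN u) k) := (hag _ m6).2.2.1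
      have b := (hU.2 k hk).2.1 d i l hd hi hl ek
        (by unfold cLt; rw [eT, (hag _ m3).2.2.1]; exact h1)
        (by unfold cCS; rw [(hag _ m4).2.2.1]; exact h2)
        (by unfold cA; rw [(hag _ m5).2.2.1]; exact h3)
      rw [eN, eQ, (hag _ m7).1] at b
      exact b
    · intro i hi ek n hn hmn w hw
      have hJ : cJ (uc u) ∈ (omega : M) := RS_ap' hc _
      have hP : pr emp (pr (pr i (sq (ur u) n)) (succ w)) ∈ (omega : M) :=
        pr_mem emp_mem_omega (pr_mem (pr_mem hi (sq_mem hr hn)) (succ_mem_omega hw))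
      obtain ⟨n0, hn0, hmem, u', hu', hU, hag⟩ := key [k, i, n, pr (num 9) emp,
        pr (num 2) (pr (cJ (uc u)) (pr emp (pr (pr i (sq (ur u) n)) (succ w))))] (by
          intro a ha
          rcases ha with _ | ⟨_, _ | ⟨_, _ | ⟨_, _ | ⟨_, _ | ⟨_, ha⟩⟩⟩⟩⟩
          · exact hk
          · exact hi
          · exact hn
          · exact pr_mem (num_mem 9) emp_mem_omega
          · exact pr_mem (num_mem 2) (pr_mem hJ hP)
          · cases ha)
      have m1 := hmem _ (List.Mem.head _)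
      have m2 := hmem _ (List.Mem.tail _ (List.Mem.head _))
      have m3 := hmem _ (List.Mem.tail _ (List.Mem.tail _ (List.Mem.head _)))
      have m4 := hmem _ (List.Mem.tail _ (List.Mem.tail _ (List.Mem.tail _ (List.Mem.head _))))
      have m5 := hmem _ (List.Mem.tail _ (List.Mem.tail _ (List.Mem.tail _ (List.Mem.tail _
        (List.Mem.head _)))))
      have eN : ap (uN u') k = ap (uN u) k := (hag _ m1).2.2.2
      have eJ : cJ (uc u') = cJ (uc u) := (hag _ m4).2.2.1
      have ex : ap (ux u') i = ap (ux u) i := (hag _ m2).2.1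
      have es : sq (ur u') n = sq (ur u) n :=
        sq_congr hn fun j hj => (hag j (lt_trans hn0 hj m3)).1
      have b := (hU.2 k hk).2.2 i hi ek n hn (by rw [eN]; exact hmn) w hw
      rw [eJ, ex, es] at b
      unfold cA at b ⊢
      rw [(hag _ m5).2.2.1] at b
      exact b

theorem isCl_KK {C : M → Prop} [D1 C] (hC : IsCl C) : IsCl (KK C) := by
  intro w hw hcl
  by_cases h1 : ∀ u', u' ∈ (RS : M) → sq u' (ap (pR w) emp) = sq (pL w) (ap (pR w) emp) → ¬ UV C u'
  · exact Or.inl h1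
  refine Or.inr fun n hn => ?_
  push Not at h1
  obtain ⟨u', hu', h2, h3⟩ := h1
  have hL := pL_mem hw
  have hR := pR_mem hw
  have hl : ap (pR w) emp ∈ (omega : M) := RS_ap' hR _
  have ha : ap (pR w) (succ (succ n)) ∈ (omega : M) := RS_ap' hR _
  have hb : ap (pR w) (succ n) ∈ (omega : M) := RS_ap' hR _
  obtain ⟨n0, hn0, hmem⟩ := exists_ub [emp, ap (pR w) emp, succ n, succ (succ n),
    pr (num 0) (pr (ap (pR w) (succ (succ n))) (ap (pR w) (succ n)))] (by
      intro a ha'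
      rcases ha' with _ | ⟨_, _ | ⟨_, _ | ⟨_, _ | ⟨_, _ | ⟨_, ha'⟩⟩⟩⟩⟩
      · exact emp_mem_omega
      · exact hl
      · exact succ_mem_omega hn
      · exact succ_mem_omega (succ_mem_omega hn)
      · exact pr_mem (num_mem 0) (pr_mem ha hb)
      · cases ha')
  have m1 := hmem _ (List.Mem.head _)
  have m2 := hmem _ (List.Mem.tail _ (List.Mem.head _))
  have m3 := hmem _ (List.Mem.tail _ (List.Mem.tail _ (List.Mem.head _)))
  have m4 := hmem _ (List.Mem.tail _ (List.Mem.tail _ (List.Mem.tail _ (List.Mem.head _))))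
  have m5 := hmem _ (List.Mem.tail _ (List.Mem.tail _ (List.Mem.tail _ (List.Mem.tail _
    (List.Mem.head _)))))
  obtain ⟨w', hw', hK, h4⟩ := hcl n0 hn0
  have h5 := (sq_inj hw' hw hn0 hn0 h4).2
  have aL : ∀ j, j ∈ n0 → ap (pL w') j = ap (pL w) j := fun j hj =>
    pL_agree hw hw' (mem_omega_of_mem hj hn0) (h5 j hj)
  have aR : ∀ j, j ∈ n0 → ap (pR w') j = ap (pR w) j := fun j hj =>
    pR_agree hw hw' (mem_omega_of_mem hj hn0) (h5 j hj)
  have aC := fun j hj => (agree hL (pL_mem hw') hn0 (sq_congr hn0 aL) j hj).2.2.1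
  rcases hK with hK | hK
  · exfalso
    refine hK u' hu' ?_ h3
    rw [aR _ m1, h2]
    exact (sq_congr hl fun j hj => aL j (lt_trans hn0 hj m2)).symm
  · have h6 := hK n hn
    rw [aR _ m3, aR _ m4] at h6
    unfold cLt at h6 ⊢
    rw [aC _ m5] at h6
    exact h6

theorem u_comp {z r x c y N : M} (hz : z ∈ (RS : M)) (hr : r ∈ (RS : M)) (hx : x ∈ (RS : M))
    (hc : c ∈ (RS : M)) (hy : y ∈ (RS : M)) (hN : N ∈ (RS : M)) :
    ur (jn (jn (jn z r) x) (jn (jn c y) N)) = r ∧ ux (jn (jn (jn z r) x) (jn (jn c y) N)) = x ∧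
    uc (jn (jn (jn z r) x) (jn (jn c y) N)) = c ∧ uy (jn (jn (jn z r) x) (jn (jn c y) N)) = y ∧
    uN (jn (jn (jn z r) x) (jn (jn c y) N)) = N := by
  have h1 := jn_mem hz hr
  have h2 := jn_mem h1 hx
  have h3 := jn_mem hc hy
  have h4 := jn_mem h3 hN
  unfold ur ux uc uy uN
  rw [pL_jn h2 h4, pR_jn h2 h4, pL_jn h1 hx, pR_jn h1 hx, pR_jn hz hr, pL_jn h3 hN, pR_jn h3 hN,
    pL_jn hc hy, pR_jn hc hy]
  exact ⟨rfl, rfl, rfl, rfl, rfl⟩

private theorem sUn_succ' {n : M} (hn : n ∈ (omega : M)) : sUn (succ n) = n := by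
  apply Pool.Agent.H78.ZF.ext
  intro z
  rw [mem_sUn]
  constructor
  · rintro ⟨y, hy, hz⟩
    rw [mem_succ] at hy
    rcases hy with hy | rfl
    · exact lt_trans hn hz hy
    · exact hz
  · intro hz
    exact ⟨n, by simp, hz⟩

/-- the shifted real `0, v 0, v 1, ...` -/
private noncomputable def shv (v n : M) : M :=
  iota (fun y => (n = emp ∧ y = emp) ∨ (n ≠ emp ∧ y = ap v (sUn n)))

private instance shv_F1 (v : M) : F1 (shv v) := by
  have : DF (fun w : Unit → M => shv v (w ())) := by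
    unfold shv; infer_instance
  infer_instance

private theorem shv_emp (v : M) : shv v emp = emp := by
  unfold shv
  apply iota_eq
  · exact Or.inl ⟨rfl, rfl⟩
  · rintro x (⟨_, h1⟩ | ⟨h1, _⟩)
    · exact h1
    · exact absurd rfl h1

private theorem shv_succ (v : M) {n : M} (hn : n ∈ (omega : M)) : shv v (succ n) = ap v n := by
  unfold shv
  apply iota_eq
  · exact Or.inr ⟨succ_ne_emp n, by rw [sUn_succ' hn]⟩
  · rintro x (⟨h1, _⟩ | ⟨_, h1⟩)
    · exact absurd h1 (succ_ne_emp n)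
    · rw [h1, sUn_succ' hn]

/-- from the closed class back to the matrix -/
theorem KK_down {C : M → Prop} [D1 C] (hC : IsCl C) {u : M} (hu : u ∈ (RS : M))
    (h : ∀ v, v ∈ (RS : M) → ¬ KK C (jn u v)) : UV C u ∧ CWf (uc u) := by
  constructor
  · apply isCl_UV hC u hu
    intro n hn
    have hm : ∀ x, x ∈ (omega : M) → (fun _ : M => n) x ∈ (omega : M) := fun _ _ => hn
    have hv : mkf omega omega (fun _ => n) ∈ (RS : M) := mem_RS.2 (mkf_fun hm)
    have h1 := h _ hv
    unfold KK at h1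
    rw [pR_jn hu hv, pL_jn hu hv, ap_mkf hm emp_mem_omega] at h1
    push Not at h1
    obtain ⟨u', hu', h2, h3⟩ := h1.1
    exact ⟨u', hu', h3, h2⟩
  · intro v hv
    have hm : ∀ x, x ∈ (omega : M) → shv v x ∈ (omega : M) := by
      intro x hx
      rcases eq_emp_or_succ hx with rfl | ⟨y, hy, rfl⟩
      · rw [shv_emp]; exact emp_mem_omega
      · rw [shv_succ v hy]; exact RS_ap hv hy
    have hv' : mkf omega omega (shv v) ∈ (RS : M) := mem_RS.2 (mkf_fun hm)
    have h1 := h _ hv'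
    unfold KK at h1
    rw [pR_jn hu hv', pL_jn hu hv'] at h1
    push Not at h1
    obtain ⟨n, hn, h2⟩ := h1.2
    refine ⟨n, hn, ?_⟩
    rw [ap_mkf hm (succ_mem_omega (succ_mem_omega hn)), ap_mkf hm (succ_mem_omega hn),
      shv_succ v (succ_mem_omega hn), shv_succ v hn] at h2
    exact h2

theorem KK_up {C : M → Prop} {u v : M} (hu : u ∈ (RS : M)) (hv : v ∈ (RS : M))
    (h : UV C u) (h' : CWf (uc u)) : ¬ KK C (jn u v) := by
  intro hK
  unfold KK at hK
  rw [pR_jn hu hv, pL_jn hu hv] at hK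
  rcases hK with hK | hK
  · exact hK u hu rfl h
  · have hm : ∀ x, x ∈ (omega : M) → ap v (succ x) ∈ (omega : M) := fun x hx =>
      RS_ap hv (succ_mem_omega hx)
    have hv' : mkf omega omega (fun x => ap v (succ x)) ∈ (RS : M) := mem_RS.2 (mkf_fun hm)
    obtain ⟨n, hn, h1⟩ := h' _ hv'
    rw [ap_mkf (F := fun x => ap v (succ x)) hm (succ_mem_omega hn),
      ap_mkf (F := fun x => ap v (succ x)) hm hn] at h1
    exact h1 (hK n hn)

/-- the matrix gives `Psi` -/
theorem Psi_of_UU {C : M → Prop} (hC : CSpec C) {r x c y N : M} (hc : c ∈ (RS : M))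
    (hy : y ∈ (RS : M)) (hN : N ∈ (RS : M)) (h : UU C r x c y N) : Psi r x c := by
  have h1 := (hC.spec c hc).2 ⟨y, hy, h.1⟩
  refine ⟨h1.1, h1.2.1, h1.2.2, ?_, ?_⟩
  · intro d hd hd1 hd2 k hk
    constructor
    · intro hA
      have hk' : pr (num 0) (pr d k) ∈ (omega : M) := pr_mem (num_mem 0) (pr_mem hd hk)
      exact ⟨ap N (pr (num 0) (pr d k)), RS_ap' hN _, (h.2 _ hk').1 d k hd hk rfl hd1 hd2 hA⟩
    · rintro ⟨N1, hN1, h2⟩
      by_contra hA
      have hk' : pr (num 1) (pr (pr d k) N1) ∈ (omega : M) :=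
        pr_mem (num_mem 1) (pr_mem (pr_mem hd hk) hN1)
      have h3 := (h.2 _ hk').2.1 d k N1 hd hk hN1 rfl hd1 hd2 hA
      exact h3.2 (h2 _ (RS_ap' hN _) h3.1)
  · intro k hk
    have hk' : pr (num 2) k ∈ (omega : M) := pr_mem (num_mem 2) hk
    exact ⟨ap N (pr (num 2) k), RS_ap' hN _, (h.2 _ hk').2.2 k hk rfl⟩

end Pool.Agent.ZFIter.NPA
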