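import Pool.Agent.NPA.FBB
import Pool.Agent.NPA.FCl

/-!
# NPA/FFin: the statement is forced

Suppose `FPi PP RR 4 o p (chk PP z)`, `p ∈ PP`. Instantiate with `N' = rN`, `q = p`: not
`FPi 3 o p (jnN (chk z) rN)`; so there are a name `x` and `q ≤ p` with `FPi 2 o q (jnN .. x)`. By
`forced_BB` there are `q' ≤ q` and `N`; `c = q'` is a condition, `CSpec.spec` gives `y` with `C (jn c y)`.
`FPi 2 o q` instantiated with the name `jnN (jnN (chk c) (chk y)) N` and `q'` gives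
`¬ FPi 1 o q' (jnN (jnN (jnN (chk z) rN) x) (jnN (jnN (chk c) (chk y)) N))`. But `fpi_one` proves this
`FPi 1`: for a sequence `f` below `q'` with `Dcf f .. u`, `Dcf f N' v` we get `u = jn (jn (jn z r') x')
(jn (jn c y) N')` (`dcf_jn, dcf_chk`) and `UV C u` by `forced_BB` and `u_comp`, `CWf c` since `c` is a
condition; `KK_up`.
-/

universe u

namespace Pool.Agent.ZFIter.NPA

open Pool.Agent.H78.ZF Pool.Agent.ZFIter

variable {M : Type u} [ZFM M] {ι : Type}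

theorem forced_stmt {k : ℕ} (hAC : AC M) (hD : Det (RS : M) k) (hM : Mini M k) {C : M → Prop}
    (hC : CSpec C) {o z : M} (hz : z ∈ (RS : M))
    (ho : ∀ w, w ∈ (RS : M) → (KK C w ↔ Pi RS 0 o w)) :
    ∀ p, p ∈ (PP : M) → ¬ FPi PP RR 4 o p (chk PP z) := by
  intro p hp hF
  have h1 : ¬ FPi PP RR 3 o p (jnN PP (chk PP z) rN) := hF rN nm_rN p (le_refl' hp)
  have h2 : ∃ x q, Nm PP RR x ∧ Le PP RR q p ∧
      FPi PP RR 2 o q (jnN PP (jnN PP (chk PP z) rN) x) := by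
    by_contra hcon
    apply h1
    intro x hx q hq hF2
    exact hcon ⟨x, q, hx, hq, hF2⟩
  obtain ⟨x, q, hx, hq, h3⟩ := h2
  obtain ⟨c, N, hcq, hN, hBB⟩ := forced_BB hAC hD hM hx hq.1
  have hcc : IsCond c := (le_iff.1 hcq).1
  have hcR : c ∈ (RS : M) := hcc.1.1.real
  obtain ⟨y, hy, hCy⟩ := (hC.spec c hcR).1 ⟨hcc.1.1, hcc.2.1, hcc.2.2⟩
  have nz : Nm (PP : M) RR (chk PP z) := nm_chk hz
  have nzr : Nm (PP : M) RR (jnN PP (chk PP z) rN) := nm_jn nz nm_rN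
  have nzrx : Nm (PP : M) RR (jnN PP (jnN PP (chk PP z) rN) x) := nm_jn nzr hx
  have nc : Nm (PP : M) RR (chk PP c) := nm_chk hcR
  have ny : Nm (PP : M) RR (chk PP y) := nm_chk hy
  have ncy : Nm (PP : M) RR (jnN PP (chk PP c) (chk PP y)) := nm_jn nc ny
  have ncyN : Nm (PP : M) RR (jnN PP (jnN PP (chk PP c) (chk PP y)) N) := nm_jn ncy hN
  refine h3 _ ncyN c hcq ?_
  refine fpi_one hAC (KK C) ho (nm_jn nzrx ncyN) hcq.1 ?_
  intro N' f u v hN' hf hu hv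
  obtain ⟨u1, u2, hu1, hu2, rfl⟩ := dcf_jn nzrx ncyN hf hu
  obtain ⟨u3, x', hu3, hx', rfl⟩ := dcf_jn nzr hx hf hu1
  obtain ⟨z', r', hz', hr', rfl⟩ := dcf_jn nz nm_rN hf hu3
  obtain ⟨u4, N1, hu4, hN1, rfl⟩ := dcf_jn ncy hN hf hu2
  obtain ⟨c', y', hc', hy', rfl⟩ := dcf_jn nc ny hf hu4
  have ez : z' = z := dcf_chk hz hf hz'
  have ec : c' = c := dcf_chk hcR hf hc'
  have ey : y' = y := dcf_chk hy hf hy'
  subst ez ec ey
  obtain ⟨k1, k2, k3, k4, k5⟩ := u_comp hz hr'.1 hx'.1 hcR hy hN1.1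
  refine KK_up hu.1 hv.1 ?_ ?_
  · unfold UV
    rw [k1, k2, k3, k4, k5]
    exact ⟨hCy, hBB f r' x' N1 hf hr' hx' hN1⟩
  · rw [k3]
    exact hcc.1.2

end Pool.Agent.ZFIter.NPA
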