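import Pool.Agent.NPA.Defs6
import Pool.Agent.NPA.EOrd

/-!
# NPA/FGen: the generic real

`nm_rN`: values, monotone (`pfx_ent`), coherent (`ent_uniq`), total: lengthen the stem by zeros (this
respects all promises). `promise_keep`: `N` = the length of the stem of `q`; for `n ≥ N` the code
`sq b n ≥ n` (`sq_ge`) is not an index of the stem, so in every extension the entry there is `0`
(`StemExt`). `dense_hit`: the real `b = bs (cSet q) δ k` is different from the finitely many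
`bs (cSet q) δ' k'` with `(δ', k') ∈ cPm q` (`bs_ne`; the `δ'` are coding stages), so for large `m` the code
`sq b m` is on none of these branches (`sq_inj`: an initial segment of `b` longer than the splitting
points) and larger than the length of the stem; extend the stem by zeros and a one at `sq b m`.
-/

universe u

namespace Pool.Agent.ZFIter.NPA

open Pool.Agent.H78.ZF Pool.Agent.ZFIter

variable {M : Type u} [ZFM M] {ι : Type}

instance : Pre (PP : M) RR := ⟨le_refl', le_trans'⟩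

/-! ### Changing the stem and the promises of a condition -/

private theorem cOnd_ext {q s F : M} (hq : IsCond q) (hs : Bin s)
    (hse : StemExt (cSet q) (cPm q) (cS q) s) (hF : Promise (cSet q) F) (hF' : cPm q ⊆ F) :
    ∃ e, IsCond e ∧ cSet e = cSet q ∧ cTh e = cTh q ∧ cS e = s ∧ cPm e = F ∧ Le PP RR e q := by
  obtain ⟨e, he, h1, h2, h3, h4, _⟩ := exists_cond (ρ := cTh q) (isCond_spec hq).1 hs hF (by simp)
  refine ⟨e, he, h1, h2, h3, h4, le_iff.2 ⟨he, hq, ?_⟩⟩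
  unfold CLe
  rw [h1, h2, h3, h4]
  exact ⟨ext0_refl _ _, hF', hse⟩

private theorem prom_spec {q δ k : M} (hq : IsCond q) (h : opair δ k ∈ cPm q) :
    opair δ k ∈ cSet q ∧ δ ∈ cTh q ∧ k ∈ (omega : M) ∧ CS (cSet q) δ := by
  obtain ⟨⟨_, _, _, h1, _, h2⟩, _, h3⟩ := isCond_spec hq
  have h4 := h3.2 _ h
  have h5 := h1 _ h4
  rw [opair_mem_prod] at h5
  exact ⟨h4, h5.1, h5.2, h2 _ _ h4⟩

private noncomputable def fgV (j i : M) : M := iota (fun z => (i = j ∧ z = num 1) ∨ (i ≠ j ∧ z = emp))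

private theorem fgV_eq (j : M) : fgV j j = num 1 := by
  unfold fgV
  apply iota_eq
  · exact Or.inl ⟨rfl, rfl⟩
  · rintro z (⟨_, h⟩ | ⟨h, _⟩)
    · exact h
    · exact absurd rfl h

private theorem fgV_ne {j i : M} (h : i ≠ j) : fgV j i = emp := by
  unfold fgV
  apply iota_eq
  · exact Or.inr ⟨h, rfl⟩
  · rintro z (⟨h', _⟩ | ⟨_, h'⟩)
    · exact absurd h' h
    · exact h'

private instance fgV_F1 (j : M) : F1 (fun i => fgV j i) := by
  unfold fgV
  infer_instance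

/-- put zeros, and a one at the place `j`, which is not on a promised branch -/
private theorem cOnd_one {q j : M} (hq : IsCond q) (hj : j ∈ (omega : M))
    (hjs : ∀ v, ¬ Ent (cS q) j v)
    (hon : ∀ δ k, opair δ k ∈ cPm q → ¬ OnB (cSet q) δ k j) :
    ∃ e, Le PP RR e q ∧ cSet e = cSet q ∧ Ent (cS e) j (num 1) := by
  obtain ⟨_, ⟨x, hx, n, hn, hsx, hbin⟩, hP⟩ := isCond_spec hq
  obtain ⟨y, hy, hy1, hy2⟩ := exists_change hx hn (fun i => fgV j i) (fun i _ => by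
    by_cases h : i = j
    · rw [h, fgV_eq]; exact num_mem 1
    · rw [fgV_ne h]; exact emp_mem_omega)
  have hnj : n ⊆ j := by
    rcases le_or_lt hn hj with h | h
    · exact h
    · exact absurd (by rw [hsx, ent_sq hx hn]; exact ⟨h, rfl⟩) (hjs (ap x j))
  have hjn : j ∉ n := fun h => absurd (hnj j h) (not_mem_self j)
  have hyj : ap y j = num 1 := by
    rw [hy2 j hj hjn]; exact fgV_eq j
  have hsj := succ_mem_omega hj
  have hb : Bin (sq y (succ j)) := by
    refine ⟨y, hy, succ j, hsj, rfl, fun i hi => ?_⟩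
    have hio := mem_omega_of_mem hi hsj
    by_cases h : i ∈ n
    · rw [hy1 i h]; exact hbin i h
    · rw [hy2 i hio h]
      show fgV j i ∈ (num 2 : M)
      by_cases h' : i = j
      · rw [h', fgV_eq, mem_num]; exact ⟨1, by norm_num, rfl⟩
      · rw [fgV_ne h', mem_num]; exact ⟨0, by norm_num, rfl⟩
  have hse : StemExt (cSet q) (cPm q) (cS q) (sq y (succ j)) := by
    refine ⟨⟨y, hy, succ j, hsj, n, hn, ?_, ?_, rfl⟩, ?_⟩
    · intro z hz
      rw [mem_succ]; exact Or.inl (hnj z hz)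
    · rw [hsx]; exact sq_congr hn fun i hi => (hy1 i hi).symm
    · intro δ k i v hp hv hne
      rw [ent_sq hy hsj] at hv
      have hio := mem_omega_of_mem hv.1 hsj
      by_cases h : i ∈ n
      · left
        exact ⟨ap x i, by rw [hsx, ent_sq hx hn]; exact ⟨h, rfl⟩⟩
      · right
        by_cases h' : i = j
        · rw [h']; exact hon δ k hp
        · exfalso
          apply hne
          rw [← hv.2, hy2 i hio h]
          exact fgV_ne h'
  obtain ⟨e, he, h1, h2, h3, h4, h5⟩ := cOnd_ext hq hb hse hP (sub_refl _)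
  refine ⟨e, h5, h1, ?_⟩
  rw [h3, ent_sq hy hsj]
  exact ⟨by simp, hyj⟩

/-- lengthen the stem by zeros -/
private theorem cOnd_len {q j : M} (hq : IsCond q) (hj : j ∈ (omega : M)) :
    ∃ e v, Le PP RR e q ∧ v ∈ (omega : M) ∧ Ent (cS e) j v := by
  obtain ⟨_, ⟨x, hx, n, hn, hsx, hbin⟩, hP⟩ := isCond_spec hq
  by_cases hjn : j ∈ n
  · exact ⟨q, ap x j, le_refl' (mem_PP.2 hq), RS_ap hx hj, by rw [hsx, ent_sq hx hn]; exact ⟨hjn, rfl⟩⟩
  have hnj : n ⊆ j := by
    rcases le_or_lt hn hj with h | h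
    · exact h
    · exact absurd h hjn
  obtain ⟨y, hy, hy1, hy2⟩ := exists_change hx hn (fun _ => emp) (fun i _ => emp_mem_omega)
  have hsj := succ_mem_omega hj
  have hb : Bin (sq y (succ j)) := by
    refine ⟨y, hy, succ j, hsj, rfl, fun i hi => ?_⟩
    have hio := mem_omega_of_mem hi hsj
    by_cases h : i ∈ n
    · rw [hy1 i h]; exact hbin i h
    · rw [hy2 i hio h, mem_num]; exact ⟨0, by norm_num, rfl⟩
  have hse : StemExt (cSet q) (cPm q) (cS q) (sq y (succ j)) := by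
    refine ⟨⟨y, hy, succ j, hsj, n, hn, ?_, ?_, rfl⟩, ?_⟩
    · intro z hz
      rw [mem_succ]; exact Or.inl (hnj z hz)
    · rw [hsx]; exact sq_congr hn fun i hi => (hy1 i hi).symm
    · intro δ k i v hp hv hne
      rw [ent_sq hy hsj] at hv
      have hio := mem_omega_of_mem hv.1 hsj
      by_cases h : i ∈ n
      · left
        exact ⟨ap x i, by rw [hsx, ent_sq hx hn]; exact ⟨h, rfl⟩⟩
      · exfalso
        apply hne
        rw [← hv.2, hy2 i hio h]
  obtain ⟨e, he, h1, h2, h3, h4, h5⟩ := cOnd_ext hq hb hse hP (sub_refl _)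
  refine ⟨e, ap y j, h5, RS_ap hy hj, ?_⟩
  rw [h3, ent_sq hy hsj]
  exact ⟨by simp, rfl⟩

private theorem ent_om {s j v : M} (h : Ent s j v) : j ∈ (omega : M) ∧ v ∈ (omega : M) := by
  obtain ⟨x, hx, n, hn, _, hj, rfl⟩ := h
  have := mem_omega_of_mem hj hn
  exact ⟨this, RS_ap hx this⟩

theorem opair_mem_rN {q j v : M} :
    opair q (opair j v) ∈ (rN : M) ↔ IsCond q ∧ j ∈ (omega : M) ∧ v ∈ (omega : M) ∧ Ent (cS q) j v := by
  unfold rN
  rw [mem_sep, opair_mem_prod, opair_mem_prod, mem_PP]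
  constructor
  · rintro ⟨⟨hq, hj, hv⟩, q', j', v', e, h⟩
    obtain ⟨rfl, e2⟩ := opair_inj e
    obtain ⟨rfl, rfl⟩ := opair_inj e2
    exact ⟨hq, hj, hv, h⟩
  · rintro ⟨hq, hj, hv, h⟩
    exact ⟨⟨hq, hj, hv⟩, q, j, v, rfl, h⟩

theorem nm_rN : Nm (PP : M) RR rN := by
  refine ⟨?_, ?_, ?_, ?_⟩
  · intro z hz
    have hz' := hz
    unfold rN at hz'
    rw [mem_sep] at hz'
    obtain ⟨_, q, j, v, rfl, _⟩ := hz'
    obtain ⟨hq, hj, hv, _⟩ := opair_mem_rN.1 hz
    exact ⟨q, j, v, mem_PP.2 hq, hj, hv, rfl⟩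
  · intro q p n m h hle
    obtain ⟨_, hn, hm, he⟩ := opair_mem_rN.1 h
    obtain ⟨hq, _, h1⟩ := le_iff.1 hle
    exact opair_mem_rN.2 ⟨hq, hn, hm, pfx_ent h1.2.2.1 he⟩
  · intro q n m m' h h'
    exact ent_uniq (opair_mem_rN.1 h).2.2.2 (opair_mem_rN.1 h').2.2.2
  · intro p n hp hn
    obtain ⟨e, v, h1, h2, h3⟩ := cOnd_len (mem_PP.1 hp) hn
    exact ⟨e, v, h1, opair_mem_rN.2 ⟨(le_iff.1 h1).1, hn, h2, h3⟩⟩

theorem promise_add {q δ k : M} (hq : IsCond q) (h : opair δ k ∈ cSet q) :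
    ∃ e, Le PP RR e q ∧ opair δ k ∈ cPm e ∧ cSet e = cSet q ∧ cTh e = cTh q ∧ cS e = cS q := by
  obtain ⟨_, hs, hP⟩ := isCond_spec hq
  have hF : Promise (cSet q) (ins (cPm q) (opair δ k)) := by
    refine ⟨fin_ins hP.1 _, fun z hz => ?_⟩
    rw [mem_ins] at hz
    rcases hz with hz | rfl
    · exact hP.2 z hz
    · exact h
  obtain ⟨e, _, h1, h2, h3, h4, h5⟩ := cOnd_ext hq hs
    ⟨pfx_refl hs, fun _ _ _ v _ he _ => Or.inl ⟨v, he⟩⟩ hF
    (fun z hz => by rw [mem_ins]; exact Or.inl hz)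
  exact ⟨e, h5, by rw [h4]; simp, h1, h2, h3⟩

theorem promise_keep {q δ k : M} (hq : IsCond q) (h : opair δ k ∈ cPm q) :
    ∃ N, N ∈ (omega : M) ∧ ∀ e, Le PP RR e q → ∀ n, n ∈ (omega : M) → N ⊆ n →
      ∀ v, Ent (cS e) (sq (bs (cSet q) δ k) n) v → v = emp := by
  obtain ⟨_, ⟨x, hx, N, hN, hsx, _⟩, _⟩ := isCond_spec hq
  obtain ⟨_, _, hk, _⟩ := prom_spec hq h
  refine ⟨N, hN, fun e he n hn hNn v hv => ?_⟩
  by_contra hne
  obtain ⟨_, _, h1⟩ := le_iff.1 he
  rcases h1.2.2.2 δ k _ v h hv hne with ⟨w, hw⟩ | h2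
  · rw [hsx, ent_sq hx hN] at hw
    have h3 := sq_ge (bs_mem (A := cSet q) (δ := δ) hk) hn
    exact not_mem_self _ (h3 _ (hNn _ hw.1))
  · exact h2 ⟨n, hn, rfl⟩

theorem dense_hit {q δ k l : M} (hq : IsCond q) (hδ : δ ∈ cTh q) (hC : CS (cSet q) δ)
    (hk : k ∈ (omega : M)) (h : opair δ k ∉ cSet q) (hl : l ∈ (omega : M)) :
    ∃ e m, Le PP RR e q ∧ m ∈ (omega : M) ∧ l ⊆ m ∧ cSet e = cSet q ∧
      Ent (cS e) (sq (bs (cSet q) δ k) m) (num 1) := by
  obtain ⟨⟨hθ, _, _, _, _, _⟩, ⟨x, hx, n, hn, hsx, hbin⟩, hP⟩ := isCond_spec hq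
  have hbm := bs_mem (A := cSet q) (δ := δ) hk
  obtain ⟨b, hb, hb1⟩ := fin_bounded
    (fun y m => ∃ δ' k', y = opair δ' k' ∧ OnB (cSet q) δ' k' (sq (bs (cSet q) δ k) m)) hP.1 (by
      intro y hy
      obtain ⟨δ', _, k', _, rfl⟩ := (mem_prod _ _ _).1 ((isCond_spec hq).1.2.2.2.1 y (hP.2 y hy))
      obtain ⟨h1, h2, h3, h4⟩ := prom_spec hq hy
      have hne : bs (cSet q) δ k ≠ bs (cSet q) δ' k' := by
        apply bs_ne (hθ.mem hδ) (hθ.mem h2) hC h4 hk h3
        by_contra hc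
        push Not at hc
        obtain ⟨rfl, rfl⟩ := hc
        exact h h1
      have hbm' := bs_mem (A := cSet q) (δ := δ') h3
      obtain ⟨i, hi, hdi⟩ : ∃ i, i ∈ (omega : M) ∧
          ap (bs (cSet q) δ k) i ≠ ap (bs (cSet q) δ' k') i := by
        by_contra hc
        push Not at hc
        exact hne (RS_ext hbm hbm' hc)
      refine ⟨succ i, succ_mem_omega hi, fun m hm => ?_⟩
      rintro ⟨δ'', k'', e, m', hm', e'⟩
      obtain ⟨rfl, rfl⟩ := opair_inj e
      obtain ⟨_, h5⟩ := sq_inj hbm hbm' hm hm' e'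
      rcases le_or_lt hm hi with h6 | h6
      · exact (lt_succ_iff hm hi).2 h6
      · exact absurd (h5 i h6) hdi)
  obtain ⟨m, hm, hbm2, hlm, hnm⟩ : ∃ m, m ∈ (omega : M) ∧ b ⊆ m ∧ l ⊆ m ∧ n ⊆ m := by
    refine ⟨NPA.add b (NPA.add l n), add_mem hb (add_mem hl hn), sub_add hb (add_mem hl hn), ?_, ?_⟩
    · rw [add_comm' hb (add_mem hl hn), add_assoc' hl hn hb]
      exact sub_add hl (add_mem hn hb)
    · rw [← add_assoc' hb hl hn, add_comm' (add_mem hb hl) hn]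
      exact sub_add hn (add_mem hb hl)
  have hge := sq_ge hbm hm
  obtain ⟨e, h1, h2, h3⟩ := cOnd_one (j := sq (bs (cSet q) δ k) m) hq (sq_mem hbm hm) (by
      intro v hv
      rw [hsx, ent_sq hx hn] at hv
      exact not_mem_self _ (hge _ (hnm _ hv.1))) (by
      intro δ' k' hp hon
      have := hb1 _ hp m hm ⟨δ', k', rfl, hon⟩
      exact not_mem_self _ (hbm2 _ this))
  exact ⟨e, m, h1, hm, hlm, h2, h3⟩

end Pool.Agent.ZFIter.NPA
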