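import Pool.Agent.NPA.Defs6
import Pool.Agent.NPA.ASq
import Pool.Agent.NPA.ACh

/-!
# NPA/FNm: names of reals

`Pre P R` is the class of preorders (ZFIter/FBasic). `exists_branch`: `dc_seq`: `f (n+1) ≤ f n` decides
the value number `n + 1` of the name, then `w n` = the value decided by `f n`.
`fpi_one`: if `¬ FPi 1`, there are `N'`, `q' ≤ q` with `FPi 0 o q' (jnN P N N')`; take a branch
`(f, w)` of `jnN P N N'` below `q'`, `w = jn u v` with branches `u`, `v`; for all `n` some `f m` decides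
`w|n`, so `o (sq w n) ≠ 0`; hence `Pi RS 0 o w`, `K w`, contradiction.
`least_name`: put `Ψ q n m :<-> (q ≤ p0 and Φ q n m) or (q is incompatible with p0 and m = 0)`
and `N = {(q, n, m) : Ψ q n m and for all m' < m, q' ≤ q : not Ψ q' n m'}`.
-/

universe u

namespace Pool.Agent.ZFIter.NPA

open Pool.Agent.H78.ZF Pool.Agent.ZFIter

variable {M : Type u} [ZFM M] {ι : Type}

section
variable {P R : M} [hP : Pre P R]

omit hP in
private theorem nm_mem {N q n m : M} (hN : Nm P R N) (h : opair q (opair n m) ∈ N) :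
    q ∈ P ∧ n ∈ (omega : M) ∧ m ∈ (omega : M) := by
  obtain ⟨q', n', m', hq, hn, hm, e⟩ := hN.1 _ h
  obtain ⟨rfl, e2⟩ := opair_inj e
  obtain ⟨rfl, rfl⟩ := opair_inj e2
  exact ⟨hq, hn, hm⟩

theorem opair_mem_jnN {N N' q n m : M} (hN : Nm P R N) (hN' : Nm P R N') :
    opair q (opair n m) ∈ jnN P N N' ↔
      ∃ a b, a ∈ (omega : M) ∧ b ∈ (omega : M) ∧ m = pr a b ∧
        opair q (opair n a) ∈ N ∧ opair q (opair n b) ∈ N' := by
  unfold jnN
  rw [mem_sep]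
  constructor
  · rintro ⟨-, q', n', a, b, e, h1, h2⟩
    obtain ⟨rfl, e2⟩ := opair_inj e
    obtain ⟨rfl, rfl⟩ := opair_inj e2
    exact ⟨a, b, (nm_mem hN h1).2.2, (nm_mem hN' h2).2.2, rfl, h1, h2⟩
  · rintro ⟨a, b, ha, hb, rfl, h1, h2⟩
    have h := nm_mem hN h1
    exact ⟨(opair_mem_prod _ _ _ _).2 ⟨h.1, (opair_mem_prod _ _ _ _).2 ⟨h.2.1, pr_mem ha hb⟩⟩,
      q, n, a, b, rfl, h1, h2⟩

theorem nm_jn {N N' : M} (hN : Nm P R N) (hN' : Nm P R N') : Nm P R (jnN P N N') := by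
  refine ⟨?_, ?_, ?_, ?_⟩
  · intro z hz
    have h := ((mem_sep _ _ _).1 hz).1
    obtain ⟨q, hq, y, hy, rfl⟩ := (mem_prod _ _ _).1 h
    obtain ⟨n, hn, m, hm, rfl⟩ := (mem_prod _ _ _).1 hy
    exact ⟨q, n, m, hq, hn, hm, rfl⟩
  · intro q p n m h hle
    obtain ⟨a, b, ha, hb, rfl, h1, h2⟩ := (opair_mem_jnN hN hN').1 h
    exact (opair_mem_jnN hN hN').2 ⟨a, b, ha, hb, rfl, hN.2.1 _ _ _ _ h1 hle,
      hN'.2.1 _ _ _ _ h2 hle⟩
  · intro q n m m' h h'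
    obtain ⟨a, b, ha, hb, rfl, h1, h2⟩ := (opair_mem_jnN hN hN').1 h
    obtain ⟨a', b', ha', hb', rfl, h1', h2'⟩ := (opair_mem_jnN hN hN').1 h'
    rw [hN.2.2.1 _ _ _ _ h1 h1', hN'.2.2.1 _ _ _ _ h2 h2']
  · intro p n hp hn
    obtain ⟨q, a, hq, h1⟩ := hN.2.2.2 p n hp hn
    obtain ⟨r, b, hr, h2⟩ := hN'.2.2.2 q n hq.1 hn
    have h1' := hN.2.1 _ _ _ _ h1 hr
    exact ⟨r, pr a b, hP.trans hr hq, (opair_mem_jnN hN hN').2 ⟨a, b, (nm_mem hN h1).2.2,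
      (nm_mem hN' h2).2.2, rfl, h1', h2⟩⟩

omit hP in
private theorem mem_chk {x q n m : M} (hx : x ∈ (RS : M)) :
    opair q (opair n m) ∈ chk P x ↔ q ∈ P ∧ n ∈ (omega : M) ∧ m = ap x n := by
  unfold chk
  rw [opair_mem_prod, (mem_RS.1 hx).opair_iff]

theorem nm_chk {x : M} (hx : x ∈ (RS : M)) : Nm P R (chk P x) := by
  refine ⟨?_, ?_, ?_, ?_⟩
  · intro z hz
    obtain ⟨q, hq, y, hy, rfl⟩ := (mem_prod _ _ _).1 hz
    obtain ⟨n, hn, m, hm, rfl⟩ := (mem_RS.1 hx).1 _ hy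
    exact ⟨q, n, m, hq, hn, hm, rfl⟩
  · intro q p n m h hle
    have h1 := (mem_chk hx).1 h
    exact (mem_chk hx).2 ⟨hle.1, h1.2⟩
  · intro q n m m' h h'
    rw [((mem_chk hx).1 h).2.2, ((mem_chk hx).1 h').2.2]
  · intro p n hp hn
    exact ⟨p, ap x n, hP.refl hp, (mem_chk hx).2 ⟨hp, hn, rfl⟩⟩

theorem exists_branch (hAC : AC M) {N q : M} (hN : Nm P R N) (hq : q ∈ P) :
    ∃ f w, Brf P R q f ∧ Dcf f N w := by
  obtain ⟨x0, m0, hx0, hm0⟩ := hN.2.2.2 q emp hq emp_mem_omega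
  obtain ⟨f, hf, hf0, hfs⟩ := dc_seq hAC P
    (fun n x y => Le P R y x ∧ ∃ m, opair y (opair (succ n) m) ∈ N) x0 hx0.1 (by
      intro n hn x hx
      obtain ⟨y, m, hy, hm⟩ := hN.2.2.2 x (succ n) hx (succ_mem_omega hn)
      exact ⟨y, hy.1, hy, m, hm⟩)
  have hdec : ∀ n, n ∈ (omega : M) → ∃ m, opair (ap f n) (opair n m) ∈ N := by
    apply omega_induction (fun n => ∃ m, opair (ap f n) (opair n m) ∈ N)
    · exact ⟨m0, by rw [hf0]; exact hm0⟩
    · intro n hn _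
      exact (hfs n hn).2
  have hiota : ∀ n, n ∈ (omega : M) →
      opair (ap f n) (opair n (iota (fun m => opair (ap f n) (opair n m) ∈ N))) ∈ N := by
    intro n hn
    obtain ⟨m, hm⟩ := hdec n hn
    exact iota_spec (P := fun m => opair (ap f n) (opair n m) ∈ N)
      ⟨m, hm, fun m' hm' => hN.2.2.1 _ _ _ _ hm' hm⟩
  have hmem : ∀ n, n ∈ (omega : M) →
      iota (fun m => opair (ap f n) (opair n m) ∈ N) ∈ (omega : M) :=
    fun n hn => (nm_mem hN (hiota n hn)).2.2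
  refine ⟨f, mkf omega omega (fun n => iota (fun m => opair (ap f n) (opair n m) ∈ N)),
    ⟨hf, by rw [hf0]; exact hx0, fun n hn => (hfs n hn).1⟩, mem_RS.2 (mkf_fun hmem), ?_⟩
  intro n hn
  rw [ap_mkf hmem hn]
  exact hiota n hn

theorem brf_le {q f n m : M} (hf : Brf P R q f) (hn : n ∈ (omega : M)) (hm : m ∈ (omega : M))
    (h : m ⊆ n) : Le P R (ap f n) (ap f m) := by
  have key : ∀ n, n ∈ (omega : M) → (m ⊆ n → Le P R (ap f n) (ap f m)) := by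
    apply omega_induction (fun n => m ⊆ n → Le P R (ap f n) (ap f m))
    · intro h0
      have : m = emp := by
        apply Pool.Agent.H78.ZF.ext
        intro z
        exact ⟨fun hz => h0 z hz, fun hz => absurd hz (not_mem_emp z)⟩
      rw [this]
      exact hP.refl (hf.1.ap_mem emp_mem_omega)
    · intro n hn ih hmn
      rcases ord_trichotomy (ord_nat hm) (ord_nat (succ_mem_omega hn)) with h1 | h1 | h1
      · refine hP.trans (hf.2.2 n hn) (ih ?_)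
        rcases (mem_succ _ _).1 h1 with h2 | h2
        · exact fun z hz => (ord_nat hn).1 m h2 z hz
        · rw [h2]; exact fun z hz => hz
      · rw [h1]
        exact hP.refl (hf.1.ap_mem (succ_mem_omega hn))
      · exact absurd (hmn _ h1) (not_mem_self _)
  exact key n hn h

theorem brf_le_q {q f n : M} (hf : Brf P R q f) (hn : n ∈ (omega : M)) : Le P R (ap f n) q :=
  hP.trans (brf_le hf hn emp_mem_omega (fun z hz => absurd hz (not_mem_emp z))) hf.2.1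

/-- later conditions of the sequence also decide the value -/
theorem dcf_mono {q f N w n i : M} (hN : Nm P R N) (hf : Brf P R q f) (h : Dcf f N w)
    (hn : n ∈ (omega : M)) (hi : i ∈ (omega : M)) (hin : i ⊆ n) :
    opair (ap f n) (opair i (ap w i)) ∈ N :=
  hN.2.1 _ _ _ _ (h.2 i hi) (brf_le hf hn hi hin)

theorem dcf_jn {q f N N' w : M} (hN : Nm P R N) (hN' : Nm P R N') (hf : Brf P R q f)
    (h : Dcf f (jnN P N N') w) : ∃ u v, Dcf f N u ∧ Dcf f N' v ∧ w = jn u v := by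
  have hu := pL_mem h.1
  have hv := pR_mem h.1
  have key : ∀ n, n ∈ (omega : M) → opair (ap f n) (opair n (ap (pL w) n)) ∈ N ∧
      opair (ap f n) (opair n (ap (pR w) n)) ∈ N' := by
    intro n hn
    obtain ⟨a, b, ha, hb, e, h1, h2⟩ := (opair_mem_jnN hN hN').1 (h.2 n hn)
    have e2 : ap w n = pr (ap (pL w) n) (ap (pR w) n) := by
      conv_lhs => rw [← jn_pL_pR h.1]
      exact ap_jn hu hv hn
    obtain ⟨e3, e4⟩ := pr_inj (RS_ap hu hn) (RS_ap hv hn) ha hb (e2.symm.trans e)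
    rw [e3, e4]
    exact ⟨h1, h2⟩
  exact ⟨pL w, pR w, ⟨hu, fun n hn => (key n hn).1⟩, ⟨hv, fun n hn => (key n hn).2⟩,
    (jn_pL_pR h.1).symm⟩

theorem dcf_chk {q f x w : M} (hx : x ∈ (RS : M)) (hf : Brf P R q f) (h : Dcf f (chk P x) w) :
    w = x :=
  RS_ext h.1 hx (fun n hn => ((mem_chk hx).1 (h.2 n hn)).2.2)

theorem fpi_one (hAC : AC M) {o q N : M} (K : M → Prop) (hK : ∀ x, x ∈ (RS : M) → (K x ↔ Pi RS 0 o x))
    (hN : Nm P R N) (hq : q ∈ P)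
    (h : ∀ N' f u v, Nm P R N' → Brf P R q f → Dcf f N u → Dcf f N' v → ¬ K (jn u v)) :
    FPi P R 1 o q N := by
  intro N' hN' q' hq' hF
  obtain ⟨f, w, hf, hw⟩ := exists_branch hAC (nm_jn hN hN') hq'.1
  obtain ⟨u, v, hu, hv, e⟩ := dcf_jn hN hN' hf hw
  have hf' : Brf P R q f := ⟨hf.1, hP.trans hf.2.1 hq', hf.2.2⟩
  refine h N' f u v hN' hf' hu hv ?_
  rw [hK _ (jn_mem hu.1 hv.1), ← e]
  intro n hn
  refine hF (ap f n) (brf_le_q hf hn) n hn (sq w n) ⟨w, hw.1, rfl, ?_⟩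
  intro i hi
  have hi' : i ∈ (omega : M) := omega_sub hn i hi
  exact dcf_mono (nm_jn hN hN') hf hw hn hi' (fun z hz => (ord_nat hn).1 i hi z hz)

/-- the auxiliary relation for `least_name` -/
private def LNPsi (P R p0 : M) (Φ : M → M → M → Prop) (q n m : M) : Prop :=
  (Le P R q p0 ∧ Φ q n m) ∨ ((∀ r, Le P R r q → ¬ Le P R r p0) ∧ m = emp)

omit hP in
private theorem LNPsi_D3 (P R p0 : M) (Φ : M → M → M → Prop) [D3 Φ] :
    D3 (LNPsi P R p0 Φ) := by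
  have : DR (fun v : Fin 3 → M => LNPsi P R p0 Φ (v 0) (v 1) (v 2)) := by
    unfold LNPsi; infer_instance
  exact ⟨this⟩

/-- names given by least possible values -/
theorem least_name (Φ : M → M → M → Prop) [D3 Φ] {p0 : M} (hp0 : p0 ∈ P)
    (mono : ∀ p q n m, Φ p n m → Le P R q p → Φ q n m)
    (dens : ∀ p n, Le P R p p0 → n ∈ (omega : M) → ∃ q m, Le P R q p ∧ m ∈ (omega : M) ∧ Φ q n m) :
    ∃ N, Nm P R N ∧ ∀ q n m, Le P R q p0 → opair q (opair n m) ∈ N → Φ q n m := by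
  have hD : D3 (fun q n m : M => LNPsi P R p0 Φ q n m) := LNPsi_D3 P R p0 Φ
  have hmemN : ∀ q n m, opair q (opair n m) ∈ sep (prod P (prod omega omega)) (fun z =>
        ∃ q n m, z = opair q (opair n m) ∧ LNPsi P R p0 Φ q n m ∧
          ∀ m', m' ∈ m → ∀ q', Le P R q' q → ¬ LNPsi P R p0 Φ q' n m') ↔
      (q ∈ P ∧ n ∈ (omega : M) ∧ m ∈ (omega : M)) ∧ LNPsi P R p0 Φ q n m ∧
          ∀ m', m' ∈ m → ∀ q', Le P R q' q → ¬ LNPsi P R p0 Φ q' n m' := by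
    intro q n m
    rw [mem_sep, opair_mem_prod, opair_mem_prod]
    constructor
    · rintro ⟨h1, q', n', m', e, h2, h3⟩
      obtain ⟨rfl, e2⟩ := opair_inj e
      obtain ⟨rfl, rfl⟩ := opair_inj e2
      exact ⟨h1, h2, h3⟩
    · rintro ⟨h1, h2, h3⟩
      exact ⟨h1, q, n, m, rfl, h2, h3⟩
  have hmono : ∀ p q n m, LNPsi P R p0 Φ p n m → Le P R q p → LNPsi P R p0 Φ q n m := by
    rintro p q n m (⟨h1, h2⟩ | ⟨h1, h2⟩) hle
    · exact Or.inl ⟨hP.trans hle h1, mono p q n m h2 hle⟩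
    · exact Or.inr ⟨fun r hr hr' => h1 r (hP.trans hr hle) hr', h2⟩
  refine ⟨sep (prod P (prod omega omega)) (fun z =>
        ∃ q n m, z = opair q (opair n m) ∧ LNPsi P R p0 Φ q n m ∧
          ∀ m', m' ∈ m → ∀ q', Le P R q' q → ¬ LNPsi P R p0 Φ q' n m'), ⟨?_, ?_, ?_, ?_⟩, ?_⟩
  · intro z hz
    obtain ⟨q, hq, y, hy, rfl⟩ := (mem_prod _ _ _).1 ((mem_sep _ _ _).1 hz).1
    obtain ⟨n, hn, m, hm, rfl⟩ := (mem_prod _ _ _).1 hy
    exact ⟨q, n, m, hq, hn, hm, rfl⟩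
  · intro q p n m h hle
    rw [hmemN] at h ⊢
    exact ⟨⟨hle.1, h.1.2⟩, hmono p q n m h.2.1 hle,
      fun m' hm' q' hq' => h.2.2 m' hm' q' (hP.trans hq' hle)⟩
  · intro q n m m' h h'
    rw [hmemN] at h h'
    rcases ord_trichotomy (ord_nat h.1.2.2) (ord_nat h'.1.2.2) with h1 | h1 | h1
    · exact absurd h.2.1 (h'.2.2 m h1 q (hP.refl h.1.1))
    · exact h1
    · exact absurd h'.2.1 (h.2.2 m' h1 q (hP.refl h.1.1))
  · intro p n hp hn
    have hex : ∃ m, m ∈ (omega : M) ∧ ∃ q, Le P R q p ∧ LNPsi P R p0 Φ q n m := by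
      by_cases hc : ∃ r, Le P R r p ∧ Le P R r p0
      · obtain ⟨r, hr, hr'⟩ := hc
        obtain ⟨q, m, hq, hm, hΦ⟩ := dens r n hr' hn
        exact ⟨m, hm, q, hP.trans hq hr, Or.inl ⟨hP.trans hq hr', hΦ⟩⟩
      · refine ⟨emp, emp_mem_omega, p, hP.refl hp, Or.inr ⟨?_, rfl⟩⟩
        intro r hr hr'
        exact hc ⟨r, hr, hr'⟩
    obtain ⟨m, hm, hmin⟩ := foundation (sep (omega : M)
      (fun m => ∃ q, Le P R q p ∧ LNPsi P R p0 Φ q n m)) (by
        obtain ⟨m, hm, hq⟩ := hex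
        exact ne_emp_iff.2 ⟨m, (mem_sep _ _ _).2 ⟨hm, hq⟩⟩)
    obtain ⟨hmω, q, hq, hΨ⟩ := (mem_sep _ _ _).1 hm
    refine ⟨q, m, hq, (hmemN q n m).2 ⟨⟨hq.1, hn, hmω⟩, hΨ, ?_⟩⟩
    intro m' hm' q' hq' hΨ'
    exact hmin m' hm' ((mem_sep _ _ _).2 ⟨omega_sub hmω m' hm', q', hP.trans hq' hq, hΨ'⟩)
  · intro q n m hq h
    rcases ((hmemN q n m).1 h).2.1 with h1 | h1
    · exact h1.2
    · exact absurd hq (h1.1 q (hP.refl hq.1))

end

end Pool.Agent.ZFIter.NPA
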