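import Pool.Agent.NPA.FGen
import Pool.Agent.NPA.EGen
import Pool.Agent.NPA.EExt
import Pool.Agent.NPA.FNm

/-!
# NPA/FTab: the table of a name

Let `D_i = {d ∈ PP : ∃ v, (d, i, v) ∈ x}`, dense. Let `S` be as in `gen_dense`, `X = cl S` of the
countable set of `p` and the `D_i`, `(B, η)` the generic first part. Table: `t (pr i s) = succ v` if there
is `d ∈ PP` with `Ext0 B η (cSet d) (cTh d)`, `cS d = s`, `(d, i, v) ∈ x`, and `0` if there is none; `v` is
unique: two such `d, d'` are compatible (`le_amalg` over `(B, η)`) and `x` is coherent and monotone.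
`ext_step` for `(B, η)` and `t` gives `(B', η')`, `η ∈ η'`, `BlkR B' η t`; let `q` be `p` with the first
part `(B', η')` and `rk q (cJ q) = η` (`le_first`).
Let `e ≤ q`. `gen_dense` for `D_i` and `r = e` gives `d ∈ D_i`, `Ext0 B η (cSet d) (cTh d)`,
`e' ≤ e, d`; `(d, i, v) ∈ x`. Let `m` be the length of `cS e'`. If `e'' ≤ e'`, `n ≥ m` and `sq r n` is an
initial segment of `cS e''` then `cS d`, `cS e'` are initial segments of `sq r n` (`pfx_comp`), so `le_stem`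
(for `e'' ≤ d`) gives `d' ≤ d` with stem `sq r n` and the first part of `d`; `(d', i, v) ∈ x`. So
`t (pr i (sq r n)) = succ v`.
-/

universe u

namespace Pool.Agent.ZFIter.NPA

open Pool.Agent.H78.ZF Pool.Agent.ZFIter

variable {M : Type u} [ZFM M] {ι : Type}

/-- some condition with the stem `s` and the first part below `(B, η)` decides the value `v` at `i` -/
private def TabV (x B η i s v : M) : Prop :=
  ∃ d, IsCond d ∧ Ext0 B η (cSet d) (cTh d) ∧ cS d = s ∧ opair d (opair i v) ∈ x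

private instance TabV_DR (x B η i s v : (ι → M) → M) [DF x] [DF B] [DF η] [DF i] [DF s] [DF v] :
    DR (fun w => TabV (x w) (B w) (η w) (i w) (s w) (v w)) := by
  unfold TabV
  infer_instance

private def TabW (x B η n w : M) : Prop :=
  ∃ v, v ∈ (omega : M) ∧ w = succ v ∧ ∃ i, i ∈ (omega : M) ∧ ∃ s, s ∈ (omega : M) ∧ n = pr i s ∧
    TabV x B η i s v

private instance TabW_DR (x B η n w : (ι → M) → M) [DF x] [DF B] [DF η] [DF n] [DF w] :
    DR (fun v => TabW (x v) (B v) (η v) (n v) (w v)) := by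
  unfold TabW
  infer_instance

private theorem tabV_uniq {x B η i s v v' : M} (hx : Nm PP RR x) (hB : Cond0 B η)
    (h : TabV x B η i s v) (h' : TabV x B η i s v') : v = v' := by
  obtain ⟨d, hd, h1, h2, h3⟩ := h
  obtain ⟨d', hd', h1', h2', h3'⟩ := h'
  obtain ⟨e, -, -, -, -, -, h4, h5⟩ := le_amalg hd hd' hB h1 h1' (h2.trans h2'.symm)
  exact hx.2.2.1 e i v v' (hx.2.1 e d i v h3 h4) (hx.2.1 e d' i v' h3' h5)

theorem exists_table {k : ℕ} (hAC : AC M) (hD : Det (RS : M) k) (hM : Mini M k) {x p : M}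
    (hx : Nm PP RR x) (hp : p ∈ (PP : M)) :
    ∃ q ρ t, Le PP RR q p ∧ t ∈ (RS : M) ∧ ρ ∈ cTh q ∧ rk q (cJ q) = ρ ∧ BlkR (cSet q) ρ t ∧
      ∀ i, i ∈ (omega : M) → ∀ e, Le PP RR e q →
        ∃ e' m v, Le PP RR e' e ∧ m ∈ (omega : M) ∧ v ∈ (omega : M) ∧ opair e' (opair i v) ∈ x ∧
          ∀ e'' r n, Le PP RR e'' e' → r ∈ (RS : M) → n ∈ (omega : M) → m ⊆ n →
            Pfx (sq r n) (cS e'') → ap t (pr i (sq r n)) = succ v := by
  obtain ⟨S, hS, hctb, hgen⟩ := gen_dense hAC hD hM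
  obtain ⟨DD, hDD⟩ : ∃ DD : M → M, DD = fun i => sep PP (fun d => ∃ v, opair d (opair i v) ∈ x) :=
    ⟨_, rfl⟩
  have hDF : F1 DD := by rw [hDD]; infer_instance
  have memD : ∀ i d, d ∈ DD i ↔ d ∈ (PP : M) ∧ ∃ v, opair d (opair i v) ∈ x := by
    intro i d
    rw [hDD]
    show d ∈ sep PP (fun d => ∃ v, opair d (opair i v) ∈ x) ↔ _
    rw [mem_sep]
  have hdense : ∀ i, i ∈ (omega : M) → Dense PP RR (DD i) := by
    intro i hi
    refine ⟨fun d hd => ((memD i d).1 hd).1, fun a ha => ?_⟩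
    obtain ⟨b, v, hb, hv⟩ := hx.2.2.2 a i ha hi
    exact ⟨b, (memD i b).2 ⟨hb.1, v, hv⟩, hb⟩
  obtain ⟨Z, hZ⟩ : ∃ Z : M, Z = ins (img omega DD) p := ⟨_, rfl⟩
  have hZc : Ctb Z := by rw [hZ]; exact ctb_ins (ctb_img ctb_omega _)
  have hXc : Ctb (cl S Z) := ctb_cl S (dc_of_ac hAC) hctb hZc
  have hpX : p ∈ cl S Z := sub_cl S Z p (by rw [hZ, mem_ins]; exact Or.inr rfl)
  have hDX : ∀ i, i ∈ (omega : M) → DD i ∈ cl S Z := fun i hi =>
    sub_cl S Z _ (by rw [hZ, mem_ins, mem_img]; exact Or.inl ⟨i, hi, rfl⟩)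
  obtain ⟨B, η, hB, hBp, hg⟩ := hgen (cl S Z) hXc (cl_closed S Z) p hpX hp
  -- the table
  obtain ⟨T, hT⟩ : ∃ T : M → M, T = fun n => iota (fun w => TabW x B η n w) := ⟨_, rfl⟩
  have hTF : F1 T := by rw [hT]; infer_instance
  have hTval : ∀ i s v, i ∈ (omega : M) → s ∈ (omega : M) → v ∈ (omega : M) →
      TabV x B η i s v → T (pr i s) = succ v := by
    intro i s v hi hs hv h
    rw [hT]
    apply iota_eq
    · exact ⟨v, hv, rfl, i, hi, s, hs, rfl, h⟩
    · rintro w ⟨v', hv', rfl, i', hi', s', hs', e, h'⟩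
      obtain ⟨rfl, rfl⟩ := pr_inj hi hs hi' hs' e
      rw [tabV_uniq hx hB h h']
  have hTmem : ∀ n, n ∈ (omega : M) → T n ∈ (omega : M) := by
    intro n _
    rw [hT]
    by_cases hu : ∃! w, TabW x B η n w
    · obtain ⟨v, hv, he, -⟩ := iota_spec hu
      show iota _ ∈ _
      rw [he]
      exact succ_mem_omega hv
    · show iota _ ∈ _
      rw [iota_neg hu]
      exact emp_mem_omega
  have ht : mkf omega omega T ∈ (RS : M) := mem_RS.2 (mkf_fun hTmem)
  obtain ⟨B', η', hB', hBB, hηη, hblk⟩ := ext_step hAC hB ht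
  obtain ⟨q, hq, hq1, hq2, -, -, hq5, hqp⟩ := le_first (mem_PP.1 hp) hB' (ext0_trans hBB hBp)
    (ρ := η) (by rw [mem_succ]; exact Or.inl hηη)
  refine ⟨q, η, mkf omega omega T, hqp, ht, by rw [hq2]; exact hηη, hq5, by rw [hq1]; exact hblk,
    fun i hi e he => ?_⟩
  have he' := le_iff.1 he
  have h1 : Ext0 (cSet e) (cTh e) B η := by
    have h0 := he'.2.2.1
    rw [hq1, hq2] at h0
    exact ext0_trans h0 hBB
  obtain ⟨d, hdD, -, hdB, e', hee, hed⟩ := hg (DD i) (hDX i hi) (hdense i hi) e he.1 h1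
  obtain ⟨hdP, v, hdv⟩ := (memD i d).1 hdD
  have hv : v ∈ (omega : M) := by
    obtain ⟨a, b, c, -, -, hc, h0⟩ := hx.1 _ hdv
    obtain ⟨-, h2⟩ := opair_inj h0
    obtain ⟨-, h3⟩ := opair_inj h2
    rw [h3]; exact hc
  have hed' := le_iff.1 hed
  obtain ⟨y, hy, m, hm, hym, hbin⟩ : Bin (cS e') := (isCond_spec hed'.1).2.1
  refine ⟨e', m, v, hee, hm, hv, hx.2.1 e' d i v hdv hed, fun e'' r n he'' hr hn hmn hpf => ?_⟩
  have h2 := le_iff.1 he''
  have h3 : Pfx (cS e') (cS e'') := h2.2.2.2.2.1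
  have h4 : Pfx (cS d) (cS e') := hed'.2.2.2.2.1
  have h5 : Pfx (cS e') (sq r n) := by
    rcases pfx_comp hpf h3 with h | h
    · rw [hym, pfx_sq hy hm] at h
      obtain ⟨l, hl, hlm, e1⟩ := h
      obtain ⟨h6, -⟩ := sq_inj hr hy hn hl e1
      have h7 : n = m := sub_antisymm (by rw [h6]; exact hlm) hmn
      have h8 : l = m := h6.symm.trans h7
      rw [e1, h8, ← hym]
      exact pfx_refl ⟨y, hy, m, hm, hym, hbin⟩
    · exact h
  have h6 : Pfx (cS d) (sq r n) := pfx_trans h4 h5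
  obtain ⟨d', hd', hd1, hd2, hd3, -, hdd⟩ := le_stem (le_trans' he'' hed) h6 hpf
  have h7 : opair d' (opair i v) ∈ x := hx.2.1 d' d i v hdv hdd
  have hs : sq r n ∈ (omega : M) := sq_mem hr hn
  rw [ap_mkf hTmem (pr_mem hi hs)]
  exact hTval i (sq r n) v hi hs hv ⟨d', hd', by rw [hd1, hd2]; exact hdB, hd3, h7⟩

end Pool.Agent.ZFIter.NPA
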