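import Pool.Agent.NPA.GCoh

/-!
# NPA/GAlt: the payoff class changes under odd shifts

`H`: every real `x` has a condition `c` with `Psi r x c`.
-/

universe u

namespace Pool.Agent.ZFIter.NPA

open Pool.Agent.H78.ZF Pool.Agent.ZFIter

variable {M : Type u} [ZFM M] {ι : Type}

private theorem zr_uniq {r c j k v v' : M} (hv : v ∈ (omega : M))
    (h : Zr r c j k v) (h' : Zr r c j k v') : v = v' := by
  obtain ⟨N, hN, h1⟩ := h
  obtain ⟨N', hN', h2⟩ := h'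
  rcases le_or_lt hN hN' with hle | hlt
  · exact ((h2 N' hN' (fun z hz => hz) v hv).1 ((h1 N' hN' hle v hv).2 rfl)).symm
  · exact ((h2 N hN ((ord_nat hN).1 N' hlt) v hv).1 ((h1 N hN (fun z hz => hz) v hv).2 rfl)).symm

private theorem sinc_lt {x a : M} (hx : x ∈ (RS : M)) (hs : SInc x) :
    ∀ b, b ∈ (omega : M) → a ∈ b → ap x a ∈ ap x b := by
  apply omega_induction (fun b => a ∈ b → ap x a ∈ ap x b)
  · intro h
    exact absurd h (not_mem_emp _)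
  · intro n hn ih h
    rw [mem_succ] at h
    rcases h with h | rfl
    · exact lt_trans (RS_ap' hx _) (ih h) (hs n hn)
    · exact hs _ hn

private theorem sinc_inj {x a b : M} (hx : x ∈ (RS : M)) (hs : SInc x) (ha : a ∈ (omega : M))
    (hb : b ∈ (omega : M)) (h : ap x a = ap x b) : a = b := by
  rcases trichotomy ha hb with h1 | h1 | h1
  · have h2 := sinc_lt hx hs b hb h1
    rw [h] at h2
    exact absurd h2 (not_mem_self _)
  · exact h1
  · have h2 := sinc_lt hx hs a ha h1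
    rw [h] at h2
    exact absurd h2 (not_mem_self _)

theorem AE_or_AO {r x : M} (hr : r ∈ (RS : M)) (hx : x ∈ (RS : M))
    (H : ∃ c, Psi r x c ∧ CWf c) : AE r x ∨ AO r x := by
  obtain ⟨c, ⟨hA, hS, hT, hM, hZ⟩, hW⟩ := H
  have hC : Code c := ⟨hA, hW⟩
  have hK : KM r c := ⟨⟨hC, hS, hT⟩, hM⟩
  have hJ : cJ c ∈ (omega : M) := RS_ap' hA.real _
  have hTm : cT c ∈ (omega : M) := RS_ap' hA.real _
  have hlt : cLt c (cJ c) (cT c) := by
    rcases hT.1 (cJ c) hJ with h | h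
    · exfalso
      obtain ⟨N, hN, h1⟩ := hZ emp emp_mem_omega
      have hx0 : ap x emp ∈ (omega : M) := RS_ap' hx _
      have h2 := (h1 N hN (fun z hz => hz) _ hx0).2 rfl
      rw [h] at h2
      exact hT.2.2.1 _ (pr_mem emp_mem_omega (pr_mem (pr_mem emp_mem_omega (sq_mem hr hN))
        (succ_mem_omega hx0))) h2
    · exact h
  obtain ⟨S, hSd⟩ : ∃ S : M, S = sep omega (fun j => cLt c j (cT c) ∧ Tq r c j x) := ⟨_, rfl⟩
  have mS : ∀ j, j ∈ S ↔ j ∈ (omega : M) ∧ cLt c j (cT c) ∧ Tq r c j x := by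
    intro j
    rw [hSd, mem_sep]
  have hS0 : cJ c ∈ S := by
    refine (mS _).2 ⟨hJ, hlt, emp, emp_mem_omega, emp, emp_mem_omega, fun i hi => ?_⟩
    rw [emp_add hi]
    exact hZ i hi
  obtain ⟨j, hj, hmin⟩ := code_min hC (fun z hz => ((mS z).1 hz).1) (ne_emp_iff.2 ⟨_, hS0⟩)
  obtain ⟨hj, hjT, a, ha, b, hb, hTE⟩ := (mS j).1 hj
  have hL : Lst r c j x := ⟨hj, hjT, fun j' hj' hlt' ht =>
    hmin j' ((mS j').2 ⟨hj', hA.lin.2.1 j' hj' j hj _ hTm hlt' hjT, ht⟩) hlt'⟩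
  by_cases he : Evn (add a b)
  · exact Or.inl ⟨c, hA.real, hK, j, hj, hL, a, ha, b, hb, he, hTE⟩
  · exact Or.inr ⟨c, hA.real, hK, j, hj, hL, a, ha, b, hb, he, hTE⟩

private theorem rk_not_lt {r x c j d n : M} (hr : r ∈ (RS : M)) (hx : x ∈ (RS : M))
    (hc : KM r c) (hd : KM r d) (hj : Lst r c j x) (hn : Lst r d n x) (ht : Tq r c j x) :
    rk c j ∉ rk d n := by
  intro h
  obtain ⟨m, hm, hmn, e⟩ := rk_surj hd.1.1 hn.1 h
  have hTm : cT d ∈ (omega : M) := RS_ap' hd.1.1.1.real _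
  obtain ⟨a, ha, b, hb, hTE⟩ := ht
  exact hn.2.2 m hm hmn ⟨a, ha, b, hb, coh_TE hr hx hc hd hj.1 hm hj.2.1
    (hd.1.1.1.lin.2.1 m hm n hn.1 _ hTm hmn hn.2.1) e.symm ha hb hTE⟩

theorem not_both {r x : M} (hr : r ∈ (RS : M)) (hx : x ∈ (RS : M)) (hs : SInc x)
    (h1 : AE r x) (h2 : AO r x) : False := by
  obtain ⟨c, -, hc, j, hj, hL, a, ha, b, hb, he, hTE⟩ := h1
  obtain ⟨d, -, hd, n, hn, hL', a', ha', b', hb', he', hTE'⟩ := h2
  have e : rk c j = rk d n := by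
    rcases ord_trichotomy (rk_ord hc.1.1 hj) (rk_ord hd.1.1 hn) with h | h | h
    · exact absurd h (rk_not_lt hr hx hc hd hL hL' ⟨a, ha, b, hb, hTE⟩)
    · exact h
    · exact absurd h (rk_not_lt hr hx hd hc hL' hL ⟨a', ha', b', hb', hTE'⟩)
  have h3 := coh_TE hr hx hc hd hj hn hL.2.1 hL'.2.1 e ha hb hTE b' hb'
  have h4 := hTE' b hb
  rw [add_comm' hb' hb] at h4
  have h5 := sinc_inj hx hs (add_mem ha hb') (add_mem ha' hb) (zr_uniq (RS_ap' hx _) h3 h4)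
  have h6 := evn_add ha hb
  have h7 := evn_add ha' hb'
  have h8 := evn_add ha hb'
  have h9 := evn_add ha' hb
  rw [h5] at h8
  tauto

private theorem te_shift {r c j x y a b a₀ b₀ : M} (ha₀ : a₀ ∈ (omega : M)) (hb₀ : b₀ ∈ (omega : M))
    (ha : a ∈ (omega : M)) (hb : b ∈ (omega : M))
    (h : ∀ i, i ∈ (omega : M) → ap x (add a₀ i) = ap y (add b₀ i)) (hT : TE r c j x a b) :
    TE r c j y (add b₀ a) (add b a₀) := by
  intro i hi
  have h1 := hT (add a₀ i) (add_mem ha₀ hi)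
  rw [← add_assoc' ha ha₀ hi, add_comm' ha ha₀, add_assoc' ha₀ ha hi, h _ (add_mem ha hi),
    ← add_assoc' hb ha₀ hi, ← add_assoc' hb₀ ha hi] at h1
  exact h1

private theorem tq_shift {r c j x y a₀ b₀ : M} (ha₀ : a₀ ∈ (omega : M)) (hb₀ : b₀ ∈ (omega : M))
    (h : ∀ i, i ∈ (omega : M) → ap x (add a₀ i) = ap y (add b₀ i)) (hT : Tq r c j x) :
    Tq r c j y := by
  obtain ⟨a, ha, b, hb, h1⟩ := hT
  exact ⟨_, add_mem hb₀ ha, _, add_mem hb ha₀, te_shift ha₀ hb₀ ha hb h h1⟩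

private theorem lst_shift {r c j x y a₀ b₀ : M} (ha₀ : a₀ ∈ (omega : M)) (hb₀ : b₀ ∈ (omega : M))
    (h : ∀ i, i ∈ (omega : M) → ap x (add a₀ i) = ap y (add b₀ i)) (hL : Lst r c j x) :
    Lst r c j y :=
  ⟨hL.1, hL.2.1, fun j' hj' hlt ht => hL.2.2 j' hj' hlt
    (tq_shift hb₀ ha₀ (fun i hi => (h i hi).symm) ht)⟩

theorem alt_AE {r : M} (hr : r ∈ (RS : M)) (H : ∀ x, x ∈ (RS : M) → ∃ c, Psi r x c ∧ CWf c) :
    Alt (AE r) := by
  intro x hx y hy hsx hsy a₀ ha₀ b₀ hb₀ hodd h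
  have h0 := evn_add ha₀ hb₀
  constructor
  · rintro ⟨c, hc, hK, j, hj, hL, a, ha, b, hb, he, hTE⟩ hy'
    refine not_both hr hy hsy hy' ⟨c, hc, hK, j, hj, lst_shift ha₀ hb₀ h hL, add b₀ a,
      add_mem hb₀ ha, add b a₀, add_mem hb ha₀, ?_, te_shift ha₀ hb₀ ha hb h hTE⟩
    have h1 := evn_add ha hb
    have h2 := evn_add (add_mem hb₀ ha) (add_mem hb ha₀)
    have h3 := evn_add hb₀ ha
    have h4 := evn_add hb ha₀
    tauto
  · intro hy'
    rcases AE_or_AO hr hy (H y hy) with h1 | ⟨c, hc, hK, j, hj, hL, a, ha, b, hb, he, hTE⟩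
    · exact absurd h1 hy'
    · refine ⟨c, hc, hK, j, hj, lst_shift hb₀ ha₀ (fun i hi => (h i hi).symm) hL, add a₀ a,
        add_mem ha₀ ha, add b b₀, add_mem hb hb₀, ?_,
        te_shift hb₀ ha₀ ha hb (fun i hi => (h i hi).symm) hTE⟩
      have h1 := evn_add ha hb
      have h2 := evn_add (add_mem ha₀ ha) (add_mem hb hb₀)
      have h3 := evn_add ha₀ ha
      have h4 := evn_add hb hb₀
      tauto

end Pool.Agent.ZFIter.NPA
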