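import Pool.Agent.NPA.GDefs
import Pool.Agent.NPA.DMain

/-!
# NPA/GBor: the payoff class of part G is Pi^1_2

`AO r`, `AE r` are `S2` by the toolkit (`IsCond c` is `CArith, CSup, CTop` (Borel) and `CWf` (Pi^1_1));
`SInc`, `VioII` are Borel. Then `sg2_iff`.
-/

universe u

namespace Pool.Agent.ZFIter.NPA

set_option synthInstance.maxSize 100000

open Pool.Agent.H78.ZF Pool.Agent.ZFIter

variable {M : Type u} [ZFM M] {ι : Type}

section
variable [HasAC M]

instance Bo.Evn (s : M → M) [hs : Nt s] : Bo (fun x => Evn (s x)) :=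
  Bo.rel1 (fun n => NPA.Evn n) s

instance Bo.memOm (s : M → M) [hs : Nt s] : Bo (fun x => s x ∈ (omega : M)) :=
  Bo.rel1 (fun n => n ∈ (omega : M)) s

section
variable (r c x : M → M) (j k v a b n : M → M) [hr : Ct r] [hc : Ct c] [hx : Ct x] [hj : Nt j]
  [hk : Nt k] [hv : Nt v] [ha : Nt a] [hb : Nt b] [hn : Nt n]

instance Bo.Mat : Bo (fun w => Mat (r w) (c w)) := by
  have := hr.d
  have := hc.d
  unfold NPA.Mat; infer_instance

instance Bo.Zr : Bo (fun w => Zr (r w) (c w) (j w) (k w) (v w)) := by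
  have := hr.d
  have := hc.d
  have := hj.d
  have := hk.d
  have := hv.d
  unfold NPA.Zr; infer_instance

instance Bo.TE : Bo (fun w => TE (r w) (c w) (j w) (x w) (a w) (b w)) := by
  have := hr.d
  have := hc.d
  have := hx.d
  have := hj.d
  have := ha.d
  have := hb.d
  unfold NPA.TE; infer_instance

instance Bo.Tq : Bo (fun w => Tq (r w) (c w) (j w) (x w)) := by
  have := hr.d
  have := hc.d
  have := hx.d
  have := hj.d
  unfold NPA.Tq; infer_instance

instance Bo.TqO : Bo (fun w => TqO (r w) (c w) (j w) (x w)) := by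
  have := hr.d
  have := hc.d
  have := hx.d
  have := hj.d
  unfold NPA.TqO; infer_instance

instance Bo.Lst : Bo (fun w => Lst (r w) (c w) (j w) (x w)) := by
  have := hr.d
  have := hc.d
  have := hx.d
  have := hj.d
  unfold NPA.Lst; infer_instance

instance Bo.Leg : Bo (fun w => Leg (x w) (n w)) := by
  have := hx.d
  have := hn.d
  unfold NPA.Leg; infer_instance

instance Bo.SInc : Bo (fun w => SInc (x w)) := by
  have := hx.d
  unfold NPA.SInc; infer_instance

instance S2.KM : S2 (fun w => KM (r w) (c w)) := by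
  have := hr.d
  have := hc.d
  unfold NPA.KM; infer_instance

end

instance S2.AO {r : M} [hr : RealM r] : S2 (fun x => AO r x) := by
  unfold NPA.AO; infer_instance

theorem s2_vio : S1 (fun x : M => ¬ VioII x) := by
  have h : Bo (fun x : M => VioII x) := by
    have h : Bo (fun x : M => ∃ k, k ∈ (omega : M) ∧ (Evn k ∧ ¬ Leg x k ∧
        ∀ i, i ∈ (omega : M) → i ∈ k → Leg x i)) := by
      infer_instance
    refine h.congr fun x _ => ?_
    unfold NPA.VioII
    refine exists_congr fun k => and_congr_right fun hk => and_congr_right fun _ =>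
      and_congr_right fun _ => ?_
    exact ⟨fun h i _ hi => h i hi, fun h i hi => h i (mem_omega_of_mem hi hk) hi⟩
  have := h
  infer_instance

theorem pay_s2 {r : M} (hr : r ∈ (RS : M)) :
    S2 (fun x : M => (¬ SInc x ∨ AO r x) ∧ ¬ VioII x) := by
  have : RealM r := ⟨hr⟩
  have := s2_vio (M := M)
  have : Bo (fun x : M => SInc x) := Bo.SInc (fun x => x)
  infer_instance

end

theorem pay_code (hAC : AC M) {r : M} (hr : r ∈ (RS : M)) :
    ∃ o, o ∈ (RS : M) ∧ ∀ x, x ∈ (RS : M) →
      (((¬ SInc x ∨ AO r x) ∧ ¬ VioII x) ↔ ¬ Pi RS 2 o x) := by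
  have : HasAC M := ⟨hAC⟩
  exact (pay_s2 hr).sg

end Pool.Agent.ZFIter.NPA
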