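import Pool.Agent.NPA.GDefs

/-!
# NPA/GCoh: coherence of the matching conditions

By induction on the ordinal `δ < cTh c ∩ cTh d`: `hF (cSet c) δ = hF (cSet d) δ` (`hF_congr`, the sets
agree below `δ` by the induction hypothesis) and `(δ, k) ∈ cSet c ↔ (δ, k) ∈ cSet d` for all `k`: let
`m, n` be the numbers with `rk c m = δ = rk d n` (`rk_surj`). `CS (cSet c) δ ↔ CS (cSet d) δ`; if both hold
then `cCS c m` and `cCS d n` (`code_CS`), and `Mat r c`, `Mat r d` with `cQ c m k = cQ d n k` (`code_Q`, `bs` only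
depends on `hF A δ`) give `cA c m k ↔ cA d n k`; if both fail, then `CSup`. `code_A` translates.
-/

universe u

namespace Pool.Agent.ZFIter.NPA

open Pool.Agent.H78.ZF Pool.Agent.ZFIter

variable {M : Type u} [ZFM M] {ι : Type}

private theorem cT_mem {c : M} (hc : IsCond c) : cT c ∈ (omega : M) := by
  unfold cT
  exact RS_ap' hc.1.1.real _

private theorem coh_step {r c d δ : M} (hc : KM r c) (hd : KM r d)
    (ih : ∀ δ', δ' ∈ δ → ∀ k, k ∈ (omega : M) → (opair δ' k ∈ cSet c ↔ opair δ' k ∈ cSet d))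
    (h1 : δ ∈ cTh c) (h2 : δ ∈ cTh d) {k : M} (hk : k ∈ (omega : M))
    (h : opair δ k ∈ cSet c) : opair δ k ∈ cSet d := by
  obtain ⟨m, hm, hmT, rfl⟩ := rk_surj hc.1.1 (cT_mem hc.1) h1
  obtain ⟨n, hn, hnT, he⟩ := rk_surj hd.1.1 (cT_mem hd.1) h2
  have hOrd : Ord (rk c m) := rk_ord hc.1.1 hm
  have hF1 : ∀ α, α ⊆ rk c m → Ord α → hF (cSet c) α = hF (cSet d) α :=
    hF_congr hOrd (fun d' k' hd' hk' => ih d' hd' k' hk')
  have hF2 : hF (cSet c) (rk c m) = hF (cSet d) (rk c m) := hF1 _ (fun _ hx => hx) hOrd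
  have hA := (code_A hc.1.1 hm hk).1 h
  have hCS := hc.1.2.1 m hm k hk hA
  have hCS2 : CS (cSet c) (rk c m) := (code_CS hc.1.1 hm).1 hCS
  have hCS3 : CS (cSet d) (rk c m) := by
    refine ⟨?_, ?_⟩
    · rw [← hF2]; exact hCS2.1
    · intro β hβ
      have hβ1 : β ⊆ rk c m := hOrd.1 β hβ
      rw [← hF2, ← hF1 β hβ1 (hOrd.mem hβ)]
      exact hCS2.2 β hβ
  rw [← he] at hCS3
  have hCS4 : cCS d n := (code_CS hd.1.1 hn).2 hCS3
  rw [← he, code_A hd.1.1 hn hk, hd.2 n hn hnT hCS4 k hk]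
  obtain ⟨N, hN, hN2⟩ := (hc.2 m hm hmT hCS k hk).1 hA
  refine ⟨N, hN, ?_⟩
  intro i hi hNi
  rw [← hN2 i hi hNi, code_Q hc.1.1 hm hk hi, code_Q hd.1.1 hn hk hi, he]
  have hbs : bs (cSet c) (rk c m) k = bs (cSet d) (rk c m) k := by
    unfold bs
    rw [hF2]
  rw [hbs]

theorem coh {r c d : M} (hc : KM r c) (hd : KM r d) :
    ∀ δ, δ ∈ cTh c → δ ∈ cTh d → ∀ k, k ∈ (omega : M) →
      (opair δ k ∈ cSet c ↔ opair δ k ∈ cSet d) := by
  have hOc : Ord (cTh c) := rk_ord hc.1.1 (cT_mem hc.1)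
  have hOd : Ord (cTh d) := rk_ord hd.1.1 (cT_mem hd.1)
  apply mem_induction (fun δ => δ ∈ cTh c → δ ∈ cTh d → ∀ k, k ∈ (omega : M) →
      (opair δ k ∈ cSet c ↔ opair δ k ∈ cSet d))
  intro δ ih h1 h2 k hk
  have ih' : ∀ δ', δ' ∈ δ → ∀ k, k ∈ (omega : M) →
      (opair δ' k ∈ cSet c ↔ opair δ' k ∈ cSet d) := by
    intro δ' h3 k hk
    exact ih δ' h3 (hOc.1 δ h1 δ' h3) (hOd.1 δ h2 δ' h3) k hk
  constructor
  · exact fun h => coh_step hc hd ih' h1 h2 hk h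
  · exact fun h => coh_step hd hc (fun δ' h3 k hk => (ih' δ' h3 k hk).symm) h2 h1 hk h

theorem coh_A {r c d m n k : M} (hc : KM r c) (hd : KM r d) (hm : m ∈ (omega : M))
    (hn : n ∈ (omega : M)) (hm' : cLt c m (cT c)) (hn' : cLt d n (cT d)) (h : rk c m = rk d n)
    (hk : k ∈ (omega : M)) : cA c m k ↔ cA d n k := by
  have h1 : rk c m ∈ cTh c := (rk_lt_iff hc.1.1 hm (cT_mem hc.1)).2 hm'
  have h2 : rk c m ∈ cTh d := by
    rw [h]
    exact (rk_lt_iff hd.1.1 hn (cT_mem hd.1)).2 hn'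
  rw [← code_A hc.1.1 hm hk, ← code_A hd.1.1 hn hk, ← h]
  exact coh hc hd _ h1 h2 k hk

theorem coh_TE {r c d m n x a b : M} (hr : r ∈ (RS : M)) (hx : x ∈ (RS : M)) (hc : KM r c)
    (hd : KM r d) (hm : m ∈ (omega : M))
    (hn : n ∈ (omega : M)) (hm' : cLt c m (cT c)) (hn' : cLt d n (cT d)) (h : rk c m = rk d n)
    (ha : a ∈ (omega : M)) (hb : b ∈ (omega : M)) (h1 : TE r c m x a b) : TE r d n x a b := by
  intro i hi
  obtain ⟨N, hN, hN2⟩ := h1 i hi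
  refine ⟨N, hN, ?_⟩
  intro j hj hNj w hw
  rw [← hN2 j hj hNj w hw]
  symm
  apply coh_A hc hd hm hn hm' hn' h
  exact pr_mem emp_mem_omega (pr_mem (pr_mem (add_mem hb hi) (sq_mem hr hj)) (succ_mem_omega hw))

end Pool.Agent.ZFIter.NPA
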