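import Pool.Agent.NPA.GGame
import Pool.Agent.NPA.CSpec

/-!
# NPA/GDefs: definitions for part G

`KM r c`: `c` is a condition matching `r`. The block `j` of `c` codes (with `r`) the partial real
`{(k, v) : Zr r c j k v}`. `TE r c j x a b`: this partial real shifted by `b` is equal to `x` shifted by `a`.
`AP p r x`: the least block whose partial real is tail-equal to `x` is so with an even (`p` true) or odd
(`p` false) total shift.
-/

universe u

namespace Pool.Agent.ZFIter.NPA

open Pool.Agent.H78.ZF Pool.Agent.ZFIter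

variable {M : Type u} [ZFM M] {ι : Type}

def KM (r c : M) : Prop := IsCond c ∧ Mat r c

def TE (r c j x a b : M) : Prop := ∀ i, i ∈ (omega : M) → Zr r c j (add b i) (ap x (add a i))

/-- tail-equal -/
def Tq (r c j x : M) : Prop := ∃ a, a ∈ (omega : M) ∧ ∃ b, b ∈ (omega : M) ∧ TE r c j x a b

/-- tail-equal with an even shift -/
def TqE (r c j x : M) : Prop :=
  ∃ a, a ∈ (omega : M) ∧ ∃ b, b ∈ (omega : M) ∧ Evn (add a b) ∧ TE r c j x a b

/-- tail-equal with an odd shift -/
def TqO (r c j x : M) : Prop :=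
  ∃ a, a ∈ (omega : M) ∧ ∃ b, b ∈ (omega : M) ∧ ¬ Evn (add a b) ∧ TE r c j x a b

/-- `j` is the least block of `c` whose partial real is tail-equal to `x` -/
def Lst (r c j x : M) : Prop :=
  j ∈ (omega : M) ∧ cLt c j (cT c) ∧ ∀ j', j' ∈ (omega : M) → cLt c j' j → ¬ Tq r c j' x

def AE (r x : M) : Prop :=
  ∃ c, c ∈ (RS : M) ∧ KM r c ∧ ∃ j, j ∈ (omega : M) ∧ Lst r c j x ∧ TqE r c j x

def AO (r x : M) : Prop :=
  ∃ c, c ∈ (RS : M) ∧ KM r c ∧ ∃ j, j ∈ (omega : M) ∧ Lst r c j x ∧ TqO r c j x

section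
variable (r c j x a b : (ι → M) → M) [DF r] [DF c] [DF j] [DF x] [DF a] [DF b]
instance DR.KM : DR (fun v => KM (r v) (c v)) := by unfold NPA.KM; infer_instance
instance DR.TE : DR (fun v => TE (r v) (c v) (j v) (x v) (a v) (b v)) := by
  unfold NPA.TE; infer_instance
instance DR.Tq : DR (fun v => Tq (r v) (c v) (j v) (x v)) := by unfold NPA.Tq; infer_instance
instance DR.TqE : DR (fun v => TqE (r v) (c v) (j v) (x v)) := by unfold NPA.TqE; infer_instance
instance DR.TqO : DR (fun v => TqO (r v) (c v) (j v) (x v)) := by unfold NPA.TqO; infer_instance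
instance DR.Lst : DR (fun v => Lst (r v) (c v) (j v) (x v)) := by unfold NPA.Lst; infer_instance
instance DR.AE : DR (fun v => AE (r v) (x v)) := by unfold NPA.AE; infer_instance
instance DR.AO : DR (fun v => AO (r v) (x v)) := by unfold NPA.AO; infer_instance
end

end Pool.Agent.ZFIter.NPA
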