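import Pool.Agent.NPA.GAlt
import Pool.Agent.NPA.GBor

/-!
# NPA/GMain: target of part G
-/

universe u

namespace Pool.Agent.ZFIter.NPA

open Pool.Agent.H78.ZF Pool.Agent.ZFIter

variable {M : Type u} [ZFM M] {ι : Type}

theorem false_in_W {r : M} (hAC : AC M) (hD : Det (RS : M) 2) (hr : r ∈ (RS : M)) :
    ∃ x, x ∈ (RS : M) ∧ ∀ c, ¬ (Psi r x c ∧ CWf c) := by
  by_contra hcon
  push Not at hcon
  have H : ∀ x, x ∈ (RS : M) → ∃ c, Psi r x c ∧ CWf c := hcon
  have hAlt : Alt (AE r) := alt_AE hr H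
  obtain ⟨o, ho, h⟩ := pay_code hAC hr
  have hP : ∀ x, x ∈ (RS : M) → (Pay (AE r) x ↔ Pi RS 2 o x) := by
    intro x hx
    have h1 := h x hx
    rw [← not_iff_not, ← h1]
    unfold Pay
    constructor
    · intro h2
      push Not at h2
      refine ⟨?_, h2.2⟩
      by_cases hs : SInc x
      · right
        rcases AE_or_AO hr hx (H x hx) with h3 | h3
        · exact absurd h3 (h2.1 hs)
        · exact h3
      · exact Or.inl hs
    · rintro ⟨h2, h3⟩ (⟨h4, h5⟩ | h4)
      · rcases h2 with h2 | h2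
        · exact h2 h4
        · exact not_both hr hx h4 h5 h2
      · exact h3 h4
  rcases hD o ho with ⟨s, hs, h1⟩ | ⟨t, ht, h1⟩
  · exact no_winI hAlt hs fun x hx hx' => (hP x hx).2 (h1 x hx hx')
  · exact no_winII hAlt ht fun x hx hx' hp => h1 x hx hx' ((hP x hx).1 hp)

end Pool.Agent.ZFIter.NPA
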