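import Pool.Agent.NPA.HFsq
import Pool.Agent.NPA.FNm

/-!
# NPA/HStat: proper forcings preserve stationary sets

Let `S, L, F, p` be given. For `t ∈ FinSq L` let `D_t = {q ∈ P : ∃ b, (q, t, b) ∈ F}`, dense. Let
`H = P ∪ L ∪ {D_t : t ∈ FinSq L}` and `C` the club given by `Proper P R` for `H`. Choose for every
countable `Y ⊆ H` a set `χ Y ∈ C` with `Y ⊆ χ Y`. For a function `s` whose domain includes `k` put
`X_{s|k} = χ (B)`, `B = {p, b0} ∪ range (s|k) ∪ {D_t : t ∈ FinSq (range (s|k))} ∪ Z ∪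
{b : ∃ d ∈ Z, ∃ t ∈ FinSq (range (s|k)), (d, t, b) ∈ F}` where `Z = X_{s|(k-1)}` (empty for `k = 0`).
`g : FinSq L → L` enumerates: for `t` of length `l = pr j m` the value `g t` is the `j`-th element of
`X_{t|m} ∩ L`. By stationarity there is `X0 ∈ S` closed under `g`. Let `x : omega → X0` be onto,
`X = ⋃ X_{x|n} ∈ C`. Then `X ∩ L ⊆ X0`, `p ∈ X`, `D_t ∈ X` for `t ∈ FinSq X0`, and `b ∈ X0` whenever
`d ∈ X`, `t ∈ FinSq X0`, `(d, t, b) ∈ F`. Let `q ≤ p` be `(X, P)`-generic. If `q' ≤ q`, `t ∈ FinSq X0`,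
`(q', t, b) ∈ F`: there is `d ∈ D_t ∩ X` compatible with `q'`, `(d, t, b') ∈ F`, `b' = b` by coherence
at a common extension, so `b ∈ X0`.
-/

universe u

namespace Pool.Agent.ZFIter.NPA

open Pool.Agent.H78.ZF Pool.Agent.ZFIter

variable {M : Type u} [ZFM M] {ι : Type}

namespace HStat

/-- the dense set of the conditions deciding the value at `t` -/
noncomputable def hD (P F t : M) : M := sep P (fun q => ∃ b, opair q (opair t b) ∈ F)

/-- the range of `s` on `k` -/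
noncomputable def hr (s k : M) : M := img k (fun i => ap s i)

section
variable (P F s k t : (ι → M) → M) [DF P] [DF F] [DF s] [DF k] [DF t]
instance DF.hD : DF (fun v => hD (P v) (F v) (t v)) := by unfold HStat.hD; infer_instance
instance DF.hr : DF (fun v => hr (s v) (k v)) := by unfold HStat.hr; infer_instance
end

/-- the set of new elements -/
noncomputable def hB (P L F p b0 s k Z : M) : M :=
  un (un (ins (ins (hr s k) p) b0) (img (FinSq (hr s k)) (fun t => hD P F t)))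
    (un Z (sep L (fun b => ∃ d, d ∈ Z ∧ ∃ t, t ∈ FinSq (hr s k) ∧ opair d (opair t b) ∈ F)))

section
variable (P L F p b0 s k Z : (ι → M) → M) [DF P] [DF L] [DF F] [DF p] [DF b0] [DF s] [DF k] [DF Z]
set_option synthInstance.maxSize 100000 in
instance DF.hB : DF (fun v => hB (P v) (L v) (F v) (p v) (b0 v) (s v) (k v) (Z v)) := by
  unfold HStat.hB; infer_instance
end

/-- the sets `X_{s|k}` -/
noncomputable def hX (P L F p b0 χ s k : M) : M :=
  erec (fun k g => ap χ (hB P L F p b0 s k (ap g (sUn k)))) k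

section
variable (P L F p b0 χ s k : (ι → M) → M) [DF P] [DF L] [DF F] [DF p] [DF b0] [DF χ] [DF s] [DF k]
set_option synthInstance.maxSize 100000 in
instance DF.hX : DF (fun v => hX (P v) (L v) (F v) (p v) (b0 v) (χ v) (s v) (k v)) := by
  unfold HStat.hX; infer_instance
end

theorem sUn_succ' {n : M} (hn : n ∈ (omega : M)) : sUn (succ n) = n := by
  apply Pool.Agent.H78.ZF.ext
  intro z
  rw [mem_sUn]
  constructor
  · rintro ⟨y, hy, hz⟩
    rcases (mem_succ _ _).1 hy with h | h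
    · exact omega_trans hn y h z hz
    · rw [← h]; exact hz
  · intro hz
    exact ⟨n, (mem_succ _ _).2 (Or.inr rfl), hz⟩

theorem isSeq_of_fun' {f a b : M} (h : Fun f a b) : IsSeq f a :=
  ⟨fun z hz => by
    obtain ⟨x, hx, y, _, e⟩ := h.1 z hz
    exact ⟨x, hx, y, e⟩, h.2⟩

theorem ap_emp (z : M) : ap (emp : M) z = emp := by
  unfold ap
  apply iota_neg
  rintro ⟨y, hy, _⟩
  exact not_mem_emp _ hy

section
variable {P L F p b0 χ s : M}

theorem hX_emp : hX P L F p b0 χ s emp = ap χ (hB P L F p b0 s emp emp) := by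
  unfold hX
  rw [erec_eq]
  have e : mkseq (emp : M) (fun y => erec (fun k g => ap χ (hB P L F p b0 s k (ap g (sUn k)))) y)
      = emp := isSeq_emp_iff.1 isSeq_mkseq
  rw [e, ap_emp]

theorem hX_succ {n : M} (hn : n ∈ (omega : M)) :
    hX P L F p b0 χ s (succ n) = ap χ (hB P L F p b0 s (succ n) (hX P L F p b0 χ s n)) := by
  conv_lhs => unfold hX
  rw [erec_eq, sUn_succ' hn, ap_mkseq ((mem_succ _ _).2 (Or.inr rfl))]
  rfl

theorem hr_congr {s' k : M} (h : ∀ i, i ∈ k → ap s i = ap s' i) : hr s k = hr s' k := by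
  apply Pool.Agent.H78.ZF.ext
  intro z
  unfold hr
  rw [mem_img, mem_img]
  constructor
  · rintro ⟨i, hi, rfl⟩
    exact ⟨i, hi, h i hi⟩
  · rintro ⟨i, hi, rfl⟩
    exact ⟨i, hi, (h i hi).symm⟩

theorem hB_congr {s' k Z : M} (h : ∀ i, i ∈ k → ap s i = ap s' i) :
    hB P L F p b0 s k Z = hB P L F p b0 s' k Z := by
  unfold hB
  rw [hr_congr h]

theorem hX_congr {s' l : M} (h : ∀ i, i ∈ l → ap s i = ap s' i) :
    ∀ k, k ∈ (omega : M) → (k ⊆ l → hX P L F p b0 χ s k = hX P L F p b0 χ s' k) := by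
  apply omega_induction (fun k => k ⊆ l → hX P L F p b0 χ s k = hX P L F p b0 χ s' k)
  · intro _
    rw [hX_emp, hX_emp, hB_congr (fun i hi => absurd hi (not_mem_emp i))]
  · intro n hn ih hl
    rw [hX_succ hn, hX_succ hn, hB_congr (fun i hi => h i (hl i hi)),
      ih (fun z hz => hl z ((mem_succ _ _).2 (Or.inl hz)))]

theorem mem_hB {k Z z : M} : z ∈ hB P L F p b0 s k Z ↔
    (((z ∈ hr s k ∨ z = p) ∨ z = b0) ∨ ∃ t, t ∈ FinSq (hr s k) ∧ z = hD P F t) ∨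
      (z ∈ Z ∨ (z ∈ L ∧ ∃ d, d ∈ Z ∧ ∃ t, t ∈ FinSq (hr s k) ∧ opair d (opair t z) ∈ F)) := by
  unfold hB
  rw [mem_un, mem_un, mem_ins, mem_ins, mem_img, mem_un, mem_sep]

end

end HStat

open HStat

theorem statPres_of_proper (hAC : AC M) {P R : M} [hP : Pre P R] (h : Proper P R) :
    StatPres P R := by
  intro L S hS F hF p hp
  obtain ⟨hF1, hF2, hF3, hF4⟩ := hF
  -- an element of `L`
  obtain ⟨q0, b0, hq0, hb0F⟩ := hF4 p emp hp (emp_mem_FinSq L)
  have hFm : ∀ q a b, opair q (opair a b) ∈ F → q ∈ P ∧ a ∈ FinSq L ∧ b ∈ L := by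
    intro q a b hh
    obtain ⟨q', a', b', h1, h2, h3, e⟩ := hF1 _ hh
    obtain ⟨rfl, e2⟩ := opair_inj e
    obtain ⟨rfl, rfl⟩ := opair_inj e2
    exact ⟨h1, h2, h3⟩
  have hb0 : b0 ∈ L := (hFm _ _ _ hb0F).2.2
  -- the dense sets
  have hDm : ∀ t q, q ∈ hD P F t ↔ q ∈ P ∧ ∃ b, opair q (opair t b) ∈ F := by
    intro t q
    unfold hD
    rw [mem_sep]
  have hDd : ∀ t, t ∈ FinSq L → Dense P R (hD P F t) := by
    intro t ht
    refine ⟨fun z hz => ((hDm t z).1 hz).1, fun r hr => ?_⟩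
    obtain ⟨q, b, hq, hb⟩ := hF4 r t hr ht
    exact ⟨q, (hDm t q).2 ⟨hq.1, b, hb⟩, hq⟩
  -- the set `H` and the club `C`
  obtain ⟨H, hH⟩ : ∃ H : M, H = un (un P L) (img (FinSq L) (fun t => hD P F t)) := ⟨_, rfl⟩
  have hHm : ∀ z, z ∈ H ↔ (z ∈ P ∨ z ∈ L) ∨ ∃ t, t ∈ FinSq L ∧ z = hD P F t := by
    intro z
    rw [hH, mem_un, mem_un, mem_img]
  obtain ⟨C, ⟨hC1, hC2, hC3⟩, hgen⟩ := h H (fun z hz => (hHm z).2 (Or.inl (Or.inl hz)))
  -- choice of members of `C`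
  obtain ⟨χ, hχf, hχ⟩ := ac_rel hAC (sep (pow H) (fun Y => Ctb Y)) C (fun Y X => Y ⊆ X) (by
    intro Y hY
    obtain ⟨hY1, hY2⟩ := (mem_sep _ _ _).1 hY
    obtain ⟨X, hX, hX'⟩ := hC2 Y ((mem_pow _ _).1 hY1) hY2
    exact ⟨X, hX, hX'⟩)
  have hχ' : ∀ Y, Y ⊆ H → Ctb Y → ap χ Y ∈ C ∧ Y ⊆ ap χ Y := by
    intro Y h1 h2
    have hm : Y ∈ sep (pow H) (fun Y => Ctb Y) := (mem_sep _ _ _).2 ⟨(mem_pow _ _).2 h1, h2⟩
    exact ⟨hχf.ap_mem hm, hχ Y hm⟩
  -- enumerations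
  obtain ⟨e, hef, he⟩ := ac_rel hAC (sep C (fun Y => b0 ∈ Y)) (pow (prod omega L))
    (fun Y f => Fun f omega L ∧ ∀ a, a ∈ Y → a ∈ L → ∃ n, n ∈ (omega : M) ∧ ap f n = a) (by
      intro Y hY
      obtain ⟨hY1, hY2⟩ := (mem_sep _ _ _).1 hY
      obtain ⟨f, hf, hf'⟩ := ctb_enum (X := sep Y (fun a => a ∈ L))
        (ctb_sub (hC1 Y hY1).2 (fun z hz => ((mem_sep _ _ _).1 hz).1))
        (ne_emp_iff.2 ⟨b0, (mem_sep _ _ _).2 ⟨hY2, hb0⟩⟩)
      have hfL : Fun f omega L := hf.mono fun n hn => ((mem_sep _ _ _).1 (hf.ap_mem hn)).2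
      exact ⟨f, (mem_pow _ _).2 hfL.sub_prod, hfL, fun a ha haL =>
        hf' a ((mem_sep _ _ _).2 ⟨ha, haL⟩)⟩)
  -- the sets of new elements are countable subsets of `H`
  have hrL : ∀ s k, (∀ i, i ∈ k → ap s i ∈ L) → hr s k ⊆ L := by
    intro s k hs z hz
    unfold hr at hz
    obtain ⟨i, hi, rfl⟩ := (mem_img _ _ _).1 hz
    exact hs i hi
  have hBok : ∀ s k Z, k ∈ (omega : M) → (∀ i, i ∈ k → ap s i ∈ L) → Z ⊆ H → Ctb Z →
      hB P L F p b0 s k Z ⊆ H ∧ Ctb (hB P L F p b0 s k Z) := by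
    intro s k Z hk hs hZ hZc
    have hrs := hrL s k hs
    have hrc : Ctb (hr s k) := by
      unfold hr
      exact ctb_img (ctb_nat hk) _
    have hfc : Ctb (FinSq (hr s k)) := ctb_FinSq hAC hrc
    constructor
    · intro z hz
      rw [mem_hB] at hz
      rw [hHm]
      rcases hz with (((hz | hz) | hz) | hz) | (hz | hz)
      · exact Or.inl (Or.inr (hrs z hz))
      · rw [hz]; exact Or.inl (Or.inl hp)
      · rw [hz]; exact Or.inl (Or.inr hb0)
      · obtain ⟨t, ht, e⟩ := hz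
        exact Or.inr ⟨t, FinSq_mono hrs t ht, e⟩
      · exact (hHm z).1 (hZ z hz)
      · exact Or.inl (Or.inr hz.1)
    · unfold hB
      refine ctb_un (ctb_un (ctb_ins (ctb_ins hrc)) (ctb_img hfc _)) (ctb_un hZc ?_)
      refine ctb_image (ctb_prod hZc hfc)
        (fun w b => ∃ d t, w = opair d t ∧ opair d (opair t b) ∈ F) ?_ ?_
      · intro b hb
        obtain ⟨_, d, hd, t, ht, hh⟩ := (mem_sep _ _ _).1 hb
        exact ⟨opair d t, (opair_mem_prod _ _ _ _).2 ⟨hd, ht⟩, d, t, rfl, hh⟩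
      · rintro w b b' - - ⟨d, t, rfl, h1⟩ ⟨d', t', e, h2⟩
        obtain ⟨rfl, rfl⟩ := opair_inj e
        exact hF3 _ _ _ _ h1 h2
  -- the sets `X_{s|k}`
  have hXC : ∀ s l, (∀ i, i ∈ l → ap s i ∈ L) → ∀ k, k ∈ (omega : M) → (k ⊆ l →
      hX P L F p b0 χ s k ∈ C) := by
    intro s l hs
    apply omega_induction (fun k => k ⊆ l → hX P L F p b0 χ s k ∈ C)
    · intro _
      rw [hX_emp]
      have hb := hBok s emp emp emp_mem_omega (fun i hi => absurd hi (not_mem_emp i)) (emp_sub _)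
        ctb_emp
      exact (hχ' _ hb.1 hb.2).1
    · intro n hn ih hl
      rw [hX_succ hn]
      have hC' := ih (fun z hz => hl z ((mem_succ _ _).2 (Or.inl hz)))
      have hb := hBok s (succ n) _ (succ_mem_omega hn) (fun i hi => hs i (hl i hi))
        (hC1 _ hC').1 (hC1 _ hC').2
      exact (hχ' _ hb.1 hb.2).1
  have hXB0 : ∀ s, hB P L F p b0 s emp emp ⊆ hX P L F p b0 χ s emp := by
    intro s
    rw [hX_emp]
    have hb := hBok s emp emp emp_mem_omega (fun i hi => absurd hi (not_mem_emp i)) (emp_sub _)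
      ctb_emp
    exact (hχ' _ hb.1 hb.2).2
  have hXBs : ∀ s n, n ∈ (omega : M) → (∀ i, i ∈ succ n → ap s i ∈ L) →
      hB P L F p b0 s (succ n) (hX P L F p b0 χ s n) ⊆ hX P L F p b0 χ s (succ n) := by
    intro s n hn hs
    have hC' := hXC s (succ n) hs n hn (fun z hz => (mem_succ _ _).2 (Or.inl hz))
    rw [hX_succ hn]
    have hb := hBok s (succ n) _ (succ_mem_omega hn) hs (hC1 _ hC').1 (hC1 _ hC').2
    exact (hχ' _ hb.1 hb.2).2
  have hXb0 : ∀ s l, (∀ i, i ∈ l → ap s i ∈ L) → ∀ k, k ∈ (omega : M) → (k ⊆ l →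
      b0 ∈ hX P L F p b0 χ s k) := by
    intro s l hs
    apply omega_induction (fun k => k ⊆ l → b0 ∈ hX P L F p b0 χ s k)
    · intro _
      exact hXB0 s b0 (mem_hB.2 (Or.inl (Or.inl (Or.inr rfl))))
    · intro n hn _ hl
      exact hXBs s n hn (fun i hi => hs i (hl i hi)) b0 (mem_hB.2 (Or.inl (Or.inl (Or.inr rfl))))
  -- the function `g`
  obtain ⟨G, hG1, hG⟩ : ∃ G : M → M, F1 G ∧ G = fun t => iota (fun a => ∃ j, ∃ m,
      j ∈ (omega : M) ∧ m ∈ (omega : M) ∧ Fun t (pr j m) L ∧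
        a = ap (ap e (hX P L F p b0 χ t m)) j) := by
    refine ⟨_, ?_, rfl⟩
    infer_instance
  have hGv : ∀ t j m, j ∈ (omega : M) → m ∈ (omega : M) → Fun t (pr j m) L →
      G t = ap (ap e (hX P L F p b0 χ t m)) j := by
    intro t j m hj hm ht
    rw [hG]
    apply iota_eq (P := fun a => ∃ j, ∃ m, j ∈ (omega : M) ∧ m ∈ (omega : M) ∧
      Fun t (pr j m) L ∧ a = ap (ap e (hX P L F p b0 χ t m)) j)
    · exact ⟨j, m, hj, hm, ht, rfl⟩
    · rintro a ⟨j', m', hj', hm', ht', rfl⟩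
      obtain ⟨rfl, rfl⟩ := pr_inj hj' hm' hj hm (FinSq_len ht' ht)
      rfl
  have hev : ∀ t j m, j ∈ (omega : M) → m ∈ (omega : M) → Fun t (pr j m) L →
      hX P L F p b0 χ t m ∈ sep C (fun Y => b0 ∈ Y) := by
    intro t j m hj hm ht
    have hml := pr_ge_right hj hm
    exact (mem_sep _ _ _).2 ⟨hXC t (pr j m) (fun i hi => ht.ap_mem hi) m hm hml,
      hXb0 t (pr j m) (fun i hi => ht.ap_mem hi) m hm hml⟩
  have hGL : ∀ t, t ∈ FinSq L → G t ∈ L := by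
    intro t ht
    obtain ⟨l, hl, htl⟩ := mem_FinSq.1 ht
    obtain ⟨j, hj, m, hm, rfl⟩ := pr_surj hl
    rw [hGv t j m hj hm htl]
    exact (he _ (hev t j m hj hm htl)).1.ap_mem hj
  obtain ⟨X0, hX0S, hX0⟩ := hS.2 (mkf (FinSq L) L G) (mkf_fun hGL)
  obtain ⟨hX0L, hX0c⟩ := hS.1 X0 hX0S
  have hX0g : ∀ t, t ∈ FinSq X0 → G t ∈ X0 := by
    intro t ht
    have := hX0 t ht
    rwa [ap_mkf hGL (FinSq_mono hX0L t ht)] at this
  obtain ⟨x, hxf, hx⟩ := ctb_enum hX0c (ne_emp_iff.2 ⟨_, hX0g emp (emp_mem_FinSq _)⟩)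
  have hxL : ∀ i, i ∈ (omega : M) → ap x i ∈ L := fun i hi => hX0L _ (hxf.ap_mem hi)
  -- `X_{x|n} ∩ L ⊆ X0`
  have hXX0 : ∀ n, n ∈ (omega : M) → ∀ a, a ∈ hX P L F p b0 χ x n → a ∈ L → a ∈ X0 := by
    intro n hn a ha haL
    have hm : hX P L F p b0 χ x n ∈ sep C (fun Y => b0 ∈ Y) := (mem_sep _ _ _).2
      ⟨hXC x omega hxL n hn (omega_sub hn), hXb0 x omega hxL n hn (omega_sub hn)⟩
    obtain ⟨j, hj, hja⟩ := (he _ hm).2 a ha haL
    have hl : pr j n ∈ (omega : M) := pr_mem hj hn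
    have htf : Fun (res x (pr j n)) (pr j n) X0 := FinSq_res hxf (omega_sub hl)
    have htL : Fun (res x (pr j n)) (pr j n) L := htf.mono fun i hi => hX0L _ (htf.ap_mem hi)
    have h1 := hX0g _ (mem_FinSq.2 ⟨_, hl, htf⟩)
    rw [hGv _ j n hj hn htL] at h1
    have h2 : hX P L F p b0 χ (res x (pr j n)) n = hX P L F p b0 χ x n := by
      refine hX_congr (l := pr j n) ?_ n hn (pr_ge_right hj hn)
      intro i hi
      exact ap_res (isSeq_of_fun' hxf) (omega_sub hl) hi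
    rw [h2, hja] at h1
    exact h1
  -- the set `X`
  have hval : ∀ n, n ∈ (omega : M) → hX P L F p b0 χ x n ∈ C :=
    fun n hn => hXC x omega hxL n hn (omega_sub hn)
  have hmono1 : ∀ n, n ∈ (omega : M) → hX P L F p b0 χ x n ⊆ hX P L F p b0 χ x (succ n) := by
    intro n hn z hz
    refine hXBs x n hn (fun i hi => hxL i (omega_sub (succ_mem_omega hn) i hi)) z ?_
    exact mem_hB.2 (Or.inr (Or.inl hz))
  have hmono : ∀ m, m ∈ (omega : M) → ∀ n, n ∈ (omega : M) → n ⊆ m →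
      hX P L F p b0 χ x n ⊆ hX P L F p b0 χ x m := by
    intro m hm n hn
    revert m
    apply omega_induction (fun m => n ⊆ m → hX P L F p b0 χ x n ⊆ hX P L F p b0 χ x m)
    · intro h0
      have : n = emp := eq_emp fun z hz => not_mem_emp z (h0 z hz)
      rw [this]
      exact sub_refl _
    · intro m hm ih h1
      rcases le_or_lt hn hm with h2 | h2
      · exact sub_trans (ih h2) (hmono1 m hm)
      · have h3 : n = succ m := sub_antisymm h1 (by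
          rcases succ_le hn m h2 with h4 | h4
          · exact omega_trans hn _ h4
          · rw [h4]; exact sub_refl _)
        rw [h3]
        exact sub_refl _
  obtain ⟨X, hXdef⟩ : ∃ X : M, X = sUn (img omega (fun n =>
      ap (mkf omega C (fun n => hX P L F p b0 χ x n)) n)) := ⟨_, rfl⟩
  have hXm : ∀ z, z ∈ X ↔ ∃ n, n ∈ (omega : M) ∧ z ∈ hX P L F p b0 χ x n := by
    intro z
    rw [hXdef, mem_sUn]
    constructor
    · rintro ⟨y, hy, hz⟩
      obtain ⟨n, hn, rfl⟩ := (mem_img _ _ _).1 hy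
      rw [ap_mkf hval hn] at hz
      exact ⟨n, hn, hz⟩
    · rintro ⟨n, hn, hz⟩
      refine ⟨_, (mem_img _ _ _).2 ⟨n, hn, rfl⟩, ?_⟩
      rw [ap_mkf hval hn]
      exact hz
  have hXC' : X ∈ C := by
    rw [hXdef]
    refine hC3 _ (mkf_fun hval) ?_
    intro n hn
    rw [ap_mkf hval hn, ap_mkf hval (succ_mem_omega hn)]
    exact hmono1 n hn
  have hpX : p ∈ X := (hXm p).2 ⟨emp, emp_mem_omega, hXB0 x p
    (mem_hB.2 (Or.inl (Or.inl (Or.inl (Or.inr rfl)))))⟩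
  -- every finite sequence of elements of `X0` appears
  have hfin : ∀ t, t ∈ FinSq X0 → ∃ n, n ∈ (omega : M) ∧ t ∈ FinSq (hr x n) := by
    intro t ht
    exact FinSq_fin hxf hx ht
  have hrmono : ∀ n m, n ⊆ m → hr x n ⊆ hr x m := by
    intro n m hnm z hz
    unfold hr at hz ⊢
    obtain ⟨i, hi, rfl⟩ := (mem_img _ _ _).1 hz
    exact (mem_img _ _ _).2 ⟨i, hnm i hi, rfl⟩
  have hDX : ∀ t, t ∈ FinSq X0 → hD P F t ∈ X := by
    intro t ht
    obtain ⟨n, hn, htn⟩ := hfin t ht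
    refine (hXm _).2 ⟨succ n, succ_mem_omega hn, ?_⟩
    refine hXBs x n hn (fun i hi => hxL i (omega_sub (succ_mem_omega hn) i hi)) _ ?_
    refine mem_hB.2 (Or.inl (Or.inr ⟨t, ?_, rfl⟩))
    exact FinSq_mono (hrmono n (succ n) fun z hz => (mem_succ _ _).2 (Or.inl hz)) t htn
  have hbX : ∀ d t b, d ∈ X → t ∈ FinSq X0 → opair d (opair t b) ∈ F → b ∈ X0 := by
    intro d t b hd ht hdt
    obtain ⟨n, hn, htn⟩ := hfin t ht
    obtain ⟨m, hm, hdm⟩ := (hXm d).1 hd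
    have hbL : b ∈ L := (hFm _ _ _ hdt).2.2
    obtain ⟨k, hk, hnk, hmk⟩ : ∃ k, k ∈ (omega : M) ∧ n ⊆ k ∧ m ⊆ k := by
      rcases le_or_lt hn hm with h1 | h1
      · exact ⟨m, hm, h1, sub_refl _⟩
      · exact ⟨n, hn, sub_refl _, omega_trans hn m h1⟩
    refine hXX0 (succ k) (succ_mem_omega hk) b ?_ hbL
    refine hXBs x k hk (fun i hi => hxL i (omega_sub (succ_mem_omega hk) i hi)) _ ?_
    refine mem_hB.2 (Or.inr (Or.inr ⟨hbL, d, hmono k hk m hm hmk d hdm, t, ?_, hdt⟩))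
    exact FinSq_mono (hrmono n (succ k) fun z hz => (mem_succ _ _).2 (Or.inl (hnk z hz))) t htn
  -- the generic condition
  obtain ⟨q, hqp, hq⟩ := hgen X hXC' p hpX hp
  refine ⟨q, X0, hqp, hX0S, ?_⟩
  intro s hs q' b hq' hb
  obtain ⟨d, hdD, hdX, r, hrq, hrd⟩ := hq (hD P F s) (hDX s hs)
    (hDd s (FinSq_mono hX0L s hs)) q' hq'
  obtain ⟨_, b', hb'⟩ := (hDm s d).1 hdD
  have e1 := hF2 _ _ _ _ hb hrq
  have e2 := hF2 _ _ _ _ hb' hrd
  rw [hF3 _ _ _ _ e1 e2]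
  exact hbX d s b' hdX hs hb'

end Pool.Agent.ZFIter.NPA
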