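import Pool.Agent.NPA.Defs7
import Pool.Agent.NPA.FNm

/-!
# NPA/HTru: the truth lemma

Induction on `m`. `m = 0`, left to right: the set `{p ∈ P : FPi 0 o p N or (∃ n s, Decd p N n s and
o s = 0)}` is dense; right to left: two elements of `G` have a common extension in `G`, `Decd` is monotone.
`m + 1`: the set `{p ∈ P : FPi (m+1) o p N or FPi m o p (jnN P N N') for some name N'}` is dense, `FPi`
is monotone (`fpi_mono`), `nm_jn`.
-/

universe u

namespace Pool.Agent.ZFIter.NPA

open Pool.Agent.H78.ZF Pool.Agent.ZFIter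

variable {M : Type u} [ZFM M] {ι : Type}

section
variable {P R : M} [hP : Pre P R]

theorem fpi_mono (m : ℕ) {o p q N : M} (h : FPi P R m o p N) (hq : Le P R q p) :
    FPi P R m o q N := by
  cases m with
  | zero => exact fun r hr => h r (hP.trans hr hq)
  | succ m => exact fun N' hN' r hr => h N' hN' r (hP.trans hr hq)

theorem truth_lemma {G : Set M} (hG : GFil P R G) (m : ℕ) : ∀ {o N : M}, Nm P R N →
    (TPi P R G m o N ↔ ∃ p, p ∈ G ∧ p ∈ P ∧ FPi P R m o p N) := by
  obtain ⟨hGP, -, -, hGc, hGD⟩ := hG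
  induction m with
  | zero =>
    intro o N hN
    constructor
    · intro h
      obtain ⟨p, hpD, hpG⟩ := hGD
        (sep P (fun p => FPi P R 0 o p N ∨ ∃ n s, n ∈ (omega : M) ∧ Decd p N n s ∧ ap o s = emp))
        (by
          constructor
          · intro z hz
            rw [mem_sep] at hz
            exact hz.1
          · intro p hp
            by_cases hF : FPi P R 0 o p N
            · exact ⟨p, by rw [mem_sep]; exact ⟨hp, Or.inl hF⟩, hP.refl hp⟩
            · by_contra hcon
              apply hF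
              intro q hq n hn s hs he
              apply hcon
              exact ⟨q, by rw [mem_sep]; exact ⟨hq.1, Or.inr ⟨n, s, hn, hs, he⟩⟩, hq⟩)
      rw [mem_sep] at hpD
      rcases hpD with ⟨hpP, hF | ⟨n, s, hn, hs, he⟩⟩
      · exact ⟨p, hpG, hpP, hF⟩
      · exact absurd he (h p hpG n hn s hs)
    · rintro ⟨p, hpG, -, hF⟩ q hq n hn s hs
      obtain ⟨r, -, hrp, hrq⟩ := hGc p q hpG hq
      obtain ⟨x, hx, hsx, hx2⟩ := hs
      exact hF r hrp n hn s ⟨x, hx, hsx, fun i hi => hN.2.1 _ _ _ _ (hx2 i hi) hrq⟩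
  | succ m ih =>
    intro o N hN
    constructor
    · intro h
      obtain ⟨p, hpD, hpG⟩ := hGD
        (sep P (fun p => FPi P R (m + 1) o p N ∨ ∃ N', Nm P R N' ∧ FPi P R m o p (jnN P N N')))
        (by
          constructor
          · intro z hz
            rw [mem_sep] at hz
            exact hz.1
          · intro p hp
            by_cases hF : FPi P R (m + 1) o p N
            · exact ⟨p, by rw [mem_sep]; exact ⟨hp, Or.inl hF⟩, hP.refl hp⟩
            · by_contra hcon
              apply hF
              intro N' hN' q hq he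
              apply hcon
              exact ⟨q, by rw [mem_sep]; exact ⟨hq.1, Or.inr ⟨N', hN', he⟩⟩, hq⟩)
      rw [mem_sep] at hpD
      rcases hpD with ⟨hpP, hF | ⟨N', hN', hF⟩⟩
      · exact ⟨p, hpG, hpP, hF⟩
      · exact absurd ((ih (nm_jn hN hN')).2 ⟨p, hpG, hpP, hF⟩) (h N' hN')
    · rintro ⟨p, hpG, -, hF⟩ N' hN' hT
      obtain ⟨q, hqG, -, hq⟩ := (ih (nm_jn hN hN')).1 hT
      obtain ⟨r, -, hrp, hrq⟩ := hGc p q hpG hqG
      exact hF N' hN' r hrp (fpi_mono m hq hrq)

end

end Pool.Agent.ZFIter.NPA
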