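import Pool.Agent.NPA.FCl

/-!
# NPA/WFin: the statement is false in the ground model

`Pi RS 4 o z` says: for no `r` does `Pi RS 3 o (jn z r)` hold. If it holds, then for every `x` there is
`c'` with `Pi RS 1 o (jn (jn (jn z r) x) c')`, i.e. for all `v` not `KK C (jn u v)`; write
`c' = jn (jn c y) N` (`jn_pL_pR`); `KK_down`, `Psi_of_UU`. So `Psi r x c` and `CWf c`, contradicting the
hypothesis `hG` (part G).
-/

universe u

namespace Pool.Agent.ZFIter.NPA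

open Pool.Agent.H78.ZF Pool.Agent.ZFIter

variable {M : Type u} [ZFM M] {ι : Type}

theorem false_stmt {C : M → Prop} (hC : CSpec C) {o z : M} (hz : z ∈ (RS : M))
    (ho : ∀ w, w ∈ (RS : M) → (KK C w ↔ Pi RS 0 o w))
    (hG : ∀ r, r ∈ (RS : M) → ∃ x, x ∈ (RS : M) ∧ ∀ c, ¬ (Psi r x c ∧ CWf c)) :
    Pi RS 4 o z := by
  haveI := hC.df
  intro r hr h3
  obtain ⟨x, hx, hno⟩ := hG r hr
  have h2 : ¬ Pi RS 2 o (jn (jn z r) x) := h3 x hx
  apply h2
  intro c' hc' h1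
  have hcy := pL_mem hc'
  have hN := pR_mem hc'
  have hc := pL_mem hcy
  have hy := pR_mem hcy
  have e1 : jn (jn (pL (pL c')) (pR (pL c'))) (pR c') = c' := by
    rw [jn_pL_pR hcy, jn_pL_pR hc']
  have hu : jn (jn (jn z r) x) c' ∈ (RS : M) := jn_mem (jn_mem (jn_mem hz hr) hx) hc'
  obtain ⟨h4, h5⟩ := KK_down hC.cl hu (fun v hv hk => h1 v hv ((ho _ (jn_mem hu hv)).1 hk))
  obtain ⟨k1, k2, k3, k4, k5⟩ := u_comp hz hr hx hc hy hN
  rw [e1] at k1 k2 k3 k4 k5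
  unfold UV at h4
  rw [k1, k2, k3, k4, k5] at h4
  rw [k3] at h5
  exact hno _ ⟨Psi_of_UU hC hc hy hN h4, h5⟩

end Pool.Agent.ZFIter.NPA
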