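import Pool.Agent.NPA.Defs7
import Pool.Agent.NPA.DMain
import Pool.Agent.NPA.GMain
import Pool.Agent.NPA.BMin
import Pool.Agent.NPA.EProp
import Pool.Agent.NPA.FFin
import Pool.Agent.NPA.WFin
import Pool.Agent.NPA.HTru
import Pool.Agent.NPA.HStat

/-!
# NPA/HFin: assembly
-/

universe u

namespace Pool.Agent.ZFIter.NPA

open Pool.Agent.H78.ZF Pool.Agent.ZFIter

variable {M : Type u} [ZFM M] {ι : Type}

/-- `(P, R)` changes the truth value of a `Sigma^1_4` statement with real parameters `o, z`: it is false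
in the model, and every condition forces it; consequently it is true in every generic extension. -/
def Changes (P R : M) : Prop :=
  ∃ o z, o ∈ (RS : M) ∧ z ∈ (RS : M) ∧ Pi RS 4 o z ∧
    (∀ p, p ∈ P → ¬ FPi P R 4 o p (chk P z)) ∧
    ∀ G : Set M, GFil P R G → ¬ TPi P R G 4 o (chk P z)

theorem thmB {k : ℕ} (hk : 2 ≤ k) (hAC : AC M) (hD : Det (RS : M) k) (hM : Mini M k) :
    SForc (PP : M) RR ∧ Proper (PP : M) RR ∧ StatPres (PP : M) RR ∧ Changes (PP : M) RR := by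
  have hP := proper_PP hAC hD hM
  refine ⟨sforc_PP hAC, hP, statPres_of_proper hAC hP, ?_⟩
  obtain ⟨C, hC⟩ := exists_C hAC
  have hdf : D1 C := hC.df
  obtain ⟨o, ho, ho'⟩ := cl_code (KK C) (isCl_KK hC.cl)
  obtain ⟨z, hz, _⟩ := diag (M := M) emp
  have hf := forced_stmt hAC hD hM hC (o := o) hz ho'
  refine ⟨o, z, ho, hz, ?_, hf, ?_⟩
  · exact false_stmt hC hz ho' fun r hr => false_in_W hAC (det_mono hk hD) hr
  · intro G hG hT
    obtain ⟨p, _, hp, h⟩ := (truth_lemma hG 4 (nm_chk hz)).1 hT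
    exact hf p hp h

theorem main (k : ℕ) (hk : 2 ≤ k) (hAC : AC M) (hD : Det (RS : M) k) :
    ∃ (W : Type u) (_ : ZFM W), AC W ∧ Det (RS : W) k ∧
      ∃ P R : W, SForc P R ∧ Proper P R ∧ StatPres P R ∧ Changes P R := by
  obtain ⟨W, hW, h1, h2, h3⟩ := thmA k hAC hD
  exact ⟨W, hW, h1, h2, PP, RR, thmB hk h1 h2 h3⟩

end Pool.Agent.ZFIter.NPA
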