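import Pool.Agent.NPA.Defs7
import Pool.Agent.NPA.ACh
import Pool.Agent.NPA.ACtb
import Pool.Agent.NPA.APr

/-!
# NPA/HFsq: finite sequences

`ctb_FinSq`: `FinSq X` is the union over `n ∈ omega` of the sets of functions `n → X`; by induction these
are countable (a function on `succ n` is determined by its restriction and its last value, `ctb_prod`);
choice of the injections: `ctb_sUn` (DC), or without choice through an injection of `X` into
`omega` and the coding of finite sequences by numbers.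
-/

universe u

namespace Pool.Agent.ZFIter.NPA

open Pool.Agent.H78.ZF Pool.Agent.ZFIter

variable {M : Type u} [ZFM M] {ι : Type}

theorem isSeq_of_fun {f a b : M} (h : Fun f a b) : IsSeq f a := by
  constructor
  · intro z hz
    obtain ⟨x, hx, y, -, rfl⟩ := h.1 z hz
    exact ⟨x, hx, y, rfl⟩
  · exact h.2

theorem fun_of_isSeq {f a b : M} (h : IsSeq f a) (hb : ∀ x, x ∈ a → ap f x ∈ b) : Fun f a b := by
  constructor
  · intro z hz
    obtain ⟨x, hx, y, rfl⟩ := h.1 z hz
    obtain ⟨-, rfl⟩ := h.opair_iff.1 hz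
    exact ⟨x, hx, _, hb x hx, rfl⟩
  · exact h.2

theorem mem_FinSq {L s : M} : s ∈ FinSq L ↔ ∃ n, n ∈ (omega : M) ∧ Fun s n L := by
  unfold FinSq
  rw [mem_sep]
  constructor
  · exact fun h => h.2
  · rintro ⟨n, hn, h⟩
    refine ⟨?_, n, hn, h⟩
    rw [mem_pow]
    intro z hz
    obtain ⟨x, hx, y, hy, rfl⟩ := h.1 z hz
    rw [opair_mem_prod]
    exact ⟨omega_sub hn x hx, hy⟩

theorem FinSq_mono {L L' : M} (h : L ⊆ L') : FinSq L ⊆ FinSq L' := by
  intro s hs
  rw [mem_FinSq] at hs ⊢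
  obtain ⟨n, hn, hs⟩ := hs
  exact ⟨n, hn, hs.mono fun x hx => h _ (hs.ap_mem hx)⟩

theorem emp_mem_FinSq (L : M) : emp ∈ FinSq L := by
  rw [mem_FinSq]
  exact ⟨emp, emp_mem_omega, fun p hp => absurd hp (not_mem_emp p),
    fun x hx => absurd hx (not_mem_emp x)⟩

/-- the length of a finite sequence is determined -/
theorem FinSq_len {s n m L L' : M} (h : Fun s n L) (h' : Fun s m L') : n = m := by
  apply ext
  intro z
  constructor
  · intro hz
    exact (h'.mem_of_opair (h.opair_ap hz)).1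
  · intro hz
    exact (h.mem_of_opair (h'.opair_ap hz)).1

/-- restrictions of sequences -/
theorem FinSq_res {x n m X : M} (hx : Fun x m X) (h : n ⊆ m) : Fun (res x n) n X := by
  refine fun_of_isSeq ((isSeq_of_fun hx).res h) fun z hz => ?_
  rw [ap_res (isSeq_of_fun hx) h hz]
  exact hx.ap_mem (h z hz)

/-- The set of the functions from `n` to `X`. -/
noncomputable def FnSet (n X : M) : M := sep (pow (prod omega X)) (fun s => Fun s n X)

instance DF.FnSet (n L : (ι → M) → M) [DF n] [DF L] : DF (fun v => FnSet (n v) (L v)) := by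
  unfold NPA.FnSet; infer_instance

theorem mem_FnSet {n X s : M} (hn : n ∈ (omega : M)) : s ∈ FnSet n X ↔ Fun s n X := by
  unfold FnSet
  rw [mem_sep]
  refine ⟨fun h => h.2, fun h => ⟨?_, h⟩⟩
  rw [mem_pow]
  intro z hz
  obtain ⟨x, hx, y, hy, rfl⟩ := h.1 z hz
  rw [opair_mem_prod]
  exact ⟨omega_sub hn x hx, hy⟩

theorem ctb_FnSet {X : M} (h : Ctb X) : ∀ n, n ∈ (omega : M) → Ctb (FnSet n X) := by
  apply omega_induction (fun n => Ctb (FnSet n X))
  · refine ctb_sub (ctb_sing emp) fun s hs => ?_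
    rw [mem_FnSet emp_mem_omega] at hs
    rw [mem_sing]
    exact eq_emp fun z hz => by
      obtain ⟨x, hx, -⟩ := hs.1 z hz
      exact not_mem_emp x hx
  · intro n hn ih
    have hns : n ⊆ succ n := fun z hz => by rw [mem_succ]; exact Or.inl hz
    refine ctb_image (ctb_prod ih h) (fun p s => p = opair (res s n) (ap s n)) ?_ ?_
    · intro s hs
      rw [mem_FnSet (succ_mem_omega hn)] at hs
      refine ⟨_, ?_, rfl⟩
      rw [opair_mem_prod, mem_FnSet hn]
      exact ⟨FinSq_res hs hns, hs.ap_mem (by rw [mem_succ]; exact Or.inr rfl)⟩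
    · intro p s s' hs hs' e e'
      rw [mem_FnSet (succ_mem_omega hn)] at hs hs'
      obtain ⟨e1, e2⟩ := opair_inj (e.symm.trans e')
      refine hs.ext hs' fun x hx => ?_
      rw [mem_succ] at hx
      rcases hx with hx | rfl
      · rw [← ap_res (isSeq_of_fun hs) hns hx, ← ap_res (isSeq_of_fun hs') hns hx, e1]
      · exact e2

theorem ctb_FinSq (hAC : AC M) {X : M} (h : Ctb X) : Ctb (FinSq X) := by
  refine ctb_sub (ctb_union (dc_of_ac hAC) ctb_omega (fun n => FnSet n X)
    (fun n hn => ctb_FnSet h n hn)) fun s hs => ?_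
  rw [mem_FinSq] at hs
  obtain ⟨n, hn, hs⟩ := hs
  rw [mem_sUn]
  exact ⟨FnSet n X, (mem_img _ _ _).2 ⟨n, hn, rfl⟩, (mem_FnSet hn).2 hs⟩

/-- extending a finite sequence to a given length by repeating an element -/
theorem FinSq_pad {s n m X a : M} (hs : Fun s n X) (hn : n ∈ (omega : M)) (hm : m ∈ (omega : M))
    (h : n ⊆ m) (ha : a ∈ X) : ∃ t, Fun t m X ∧ res t n = s := by
  have hq := isSeq_of_fun hs
  refine ⟨glue n s m (fun _ => a), fun_of_isSeq (isSeq_glue hq h) fun z hz => ?_, res_glue hq h⟩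
  by_cases hzn : z ∈ n
  · rw [ap_glue_in hq h hzn]
    exact hs.ap_mem hzn
  · rw [ap_glue_out hq h hz hzn]
    exact ha

/-- every finite sequence from the range of `x : omega → X` is a finite sequence from the range of
some restriction -/
theorem FinSq_fin {x X s : M} (hx : Fun x omega X) (hsurj : ∀ a, a ∈ X → ∃ n, n ∈ (omega : M) ∧ ap x n = a)
    (hs : s ∈ FinSq X) : ∃ n, n ∈ (omega : M) ∧ s ∈ FinSq (img n (fun i => ap x i)) := by
  rw [mem_FinSq] at hs
  obtain ⟨n, hn, hs⟩ := hs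
  obtain ⟨b, hb, hb1⟩ := fin_bounded (fun i k => k = least (fun k => ap x k = ap s i)) (nat_fin hn)
    (fun i hi => ⟨succ (least (fun k => ap x k = ap s i)),
      succ_mem_omega (least_spec (fun k => ap x k = ap s i) (hsurj _ (hs.ap_mem hi))).1,
      fun k _ e => by rw [e]; simp⟩)
  refine ⟨b, hb, mem_FinSq.2 ⟨n, hn, hs.mono fun i hi => ?_⟩⟩
  rw [mem_img]
  obtain ⟨h1, h2, -⟩ := least_spec (fun k => ap x k = ap s i) (hsurj _ (hs.ap_mem hi))
  exact ⟨_, hb1 i hi _ h1 rfl, h2.symm⟩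

end Pool.Agent.ZFIter.NPA
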