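import Pool.Agent.ZFIter.Seq

/-!
# Recursion on membership inside a model of ZF

`erec G x = G x (the function y ↦ erec G y on x)` for a definable binary class function `G`
(`erec_eq`), with a definability instance `DF.erec` in which `G` may depend on parameters.
-/

universe u

namespace Pool.Agent.ZFIter.NPA

open Pool.Agent.H78.ZF Pool.Agent.ZFIter

variable {M : Type u} [ZFM M] {ι κ : Type}

/-- Substitution of a definable function for the first of two distinguished variables. -/
theorem DF.app2 (G : M → M → (ι → M) → M)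
    [h : DF (ι := Option (Option ι)) (fun v => G (v (some none)) (v none) (fun i => v (some (some i))))]
    (s t : (κ → M) → M) [DF s] [DF t] (e : ι → κ) :
    DF (fun v : κ → M => G (s v) (t v) (fun i => v (e i))) := by
  have h1 : ∀ {κ : Type} (s : (κ → M) → M) (e : Option ι → κ) [DF s],
      DF (fun v : κ → M => (fun (y : M) (w : Option ι → M) => G (w none) y (fun i => w (some i))) (s v)
        (fun i => v (e i))) := fun {κ} s e _ =>
    DF.app (fun (y : M) (w : Option ι → M) => G (w none) y (fun i => w (some i))) s e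
  have h2 : DF (ι := Option κ) (fun v : Option κ → M => G (v none) (t (fun i => v (some i)))
      (fun i => v (some (e i)))) :=
    h1 (κ := Option κ) (fun v => t (fun i => v (some i)))
      (fun o : Option ι => match o with | none => none | some i => some (e i))
  exact DF.app (ι := κ) (fun (x : M) (w : κ → M) => G x (t w) (fun i => w (e i))) s (fun i => i)

/-- `f` is the function on the transitive set `t` defined by the recursion `G`. -/
def RAtt (G : M → M → M) (t f : M) : Prop :=
  Trans t ∧ IsSeq f t ∧ ∀ x, x ∈ t → ap f x = G x (res f x)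

instance DR.RAtt (G : M → M → (ι → M) → M) (t f : (ι → M) → M) [DF t] [DF f]
    [h : DF (ι := Option (Option ι)) (fun v => G (v (some none)) (v none) (fun i => v (some (some i))))] :
    DR (fun v => RAtt (fun x y => G x y v) (t v) (f v)) := by
  unfold NPA.RAtt
  have hw : DF (ι := Option ι) (fun v => G (v none) (res (f (fun i => v (some i))) (v none))
      (fun i => v (some i))) :=
    DF.app2 G (κ := Option ι) (fun v => v none) (fun v => res (f (fun i => v (some i))) (v none))
      (fun i => some i)
  infer_instance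

/-- Recursion on membership. -/
noncomputable def erec (G : M → M → M) (x : M) : M :=
  iota (fun y => ∃ t f, RAtt G t f ∧ x ⊆ t ∧ y = G x (res f x))

instance DF.erec (G : M → M → (ι → M) → M) (s : (ι → M) → M) [DF s]
    [h : DF (ι := Option (Option ι)) (fun v => G (v (some none)) (v none) (fun i => v (some (some i))))] :
    DF (fun v => erec (fun x y => G x y v) (s v)) := by
  unfold NPA.erec
  have h1 : DF (ι := Option (Option (Option ι))) (fun v =>
      G (s (fun i => v (some (some (some i))))) (res (v none) (s (fun i => v (some (some (some i))))))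
        (fun i => v (some (some (some i))))) :=
    DF.app2 G (κ := Option (Option (Option ι))) (fun v => s (fun i => v (some (some (some i)))))
      (fun v => res (v none) (s (fun i => v (some (some (some i))))))
      (fun i => some (some (some i)))
  have h2 : DR (ι := Option (Option (Option ι))) (fun v =>
      NPA.RAtt (fun x y => G x y (fun i => v (some (some (some i))))) (v (some none)) (v none)) := by
    have h3 : DF (ι := Option (Option (Option (Option (Option ι))))) (fun v =>
        G (v (some none)) (v none) (fun i => v (some (some (some (some (some i))))))) :=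
      DF.app2 G (fun v => v (some none)) (fun v => v none)
        (fun i => some (some (some (some (some i)))))
    exact DR.RAtt (ι := Option (Option (Option ι))) (fun x y v => G x y (fun i => v (some (some (some i)))))
      (fun v => v (some none)) (fun v => v none)
  infer_instance

section
variable (G : M → M → M) [hG : F2 G]

instance : F1 (erec G) := by
  have : DF (fun v : Unit → M => erec G (v ())) := by
    have := DF.erec (ι := Unit) (fun x y _ => G x y) (fun v => v ())
    exact this
  infer_instance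

instance : D2 (RAtt G) := by
  have : DR (fun v : Fin 2 → M => RAtt G (v 0) (v 1)) := by
    have := DR.RAtt (ι := Fin 2) (fun x y _ => G x y) (fun v => v 0) (fun v => v 1)
    exact this
  infer_instance

variable {G}

theorem RAtt.uniq {t f t' f' : M} (h : RAtt G t f) (h' : RAtt G t' f') :
    ∀ x, x ∈ t → x ∈ t' → ap f x = ap f' x := by
  apply mem_induction (fun x => x ∈ t → x ∈ t' → ap f x = ap f' x)
  intro x ih hx hx'
  rw [h.2.2 x hx, h'.2.2 x hx']
  congr 1
  refine (h.2.1.res (h.1 x hx)).ext (h'.2.1.res (h'.1 x hx')) fun y hy => ?_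
  rw [ap_res h.2.1 (h.1 x hx) hy, ap_res h'.2.1 (h'.1 x hx') hy]
  exact ih y hy (h.1 x hx y hy) (h'.1 x hx' y hy)

theorem RAtt.res {t f s : M} (h : RAtt G t f) (hs : Trans s) (hst : s ⊆ t) : RAtt G s (res f s) := by
  refine ⟨hs, h.2.1.res hst, fun x hx => ?_⟩
  rw [ap_res h.2.1 hst hx, h.2.2 x (hst x hx), res_res (hs x hx)]

/-- the least transitive set containing `x` as an element -/
noncomputable def tcl (x : M) : M := ins (tc x) x

theorem trans_tcl (x : M) : Trans (tcl x) := by
  intro y hy z hz
  unfold tcl at hy ⊢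
  rw [mem_ins] at hy ⊢
  rcases hy with hy | rfl
  · exact Or.inl (trans_tc x y hy z hz)
  · exact Or.inl (sub_tc y z hz)

theorem self_mem_tcl (x : M) : x ∈ tcl x := by unfold tcl; simp

theorem exists_rAtt : ∀ x : M, ∃ t f, RAtt G t f ∧ x ∈ t := by
  apply mem_induction (fun x => ∃ t f, RAtt G t f ∧ x ∈ t)
  intro x ih
  -- the union of all attempts on the transitive closures of the elements
  set h : M → M := fun y => iota (fun f => ∃ t, RAtt G t f ∧ t = tcl y) with hh
  have hF : F1 h := by
    rw [hh]; unfold tcl; infer_instance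
  have hs : ∀ y, y ∈ x → RAtt G (tcl y) (h y) := by
    intro y hy
    obtain ⟨t, f, hf, hyt⟩ := ih y hy
    have hsub : tcl y ⊆ t := by
      intro z hz
      unfold tcl at hz
      rw [mem_ins] at hz
      rcases hz with hz | rfl
      · -- elements of the transitive closure
        have key : ∀ n, n ∈ (omega : M) → recc (fun z => sUn z) y n ⊆ t := by
          apply omega_induction (fun n => recc (fun z => sUn z) y n ⊆ t)
          · rw [recc_zero]; exact hf.1 y hyt
          · intro n hn ihn w hw
            rw [recc_succ hn, mem_sUn] at hw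
            obtain ⟨u, hu, hw⟩ := hw
            exact hf.1 u (ihn u hu) w hw
        unfold tc at hz
        rw [mem_sUn] at hz
        obtain ⟨w, hw, hzw⟩ := hz
        rw [mem_img] at hw
        obtain ⟨n, hn, rfl⟩ := hw
        exact key n hn z hzw
      · exact hyt
    have hr := hf.res (trans_tcl y) hsub
    have he : ∃! f, ∃ t, RAtt G t f ∧ t = tcl y := by
      refine ⟨ZFIter.res f (tcl y), ⟨tcl y, hr, rfl⟩, ?_⟩
      rintro g ⟨t', hg, rfl⟩
      exact hg.2.1.ext hr.2.1 (fun z hz => hg.uniq hr z hz hz)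
    obtain ⟨t', h1, h2⟩ := iota_spec he
    rw [← h2]
    exact h1
  set U : M := sUn (img x h) with hU
  have memU : ∀ p, p ∈ U ↔ ∃ y, y ∈ x ∧ p ∈ h y := by
    intro p
    rw [hU, mem_sUn]
    constructor
    · rintro ⟨w, hw, hp⟩
      rw [mem_img] at hw
      obtain ⟨y, hy, rfl⟩ := hw
      exact ⟨y, hy, hp⟩
    · rintro ⟨y, hy, hp⟩
      exact ⟨h y, by rw [mem_img]; exact ⟨y, hy, rfl⟩, hp⟩
  have htt : F1 (fun y : M => tcl y) := by unfold tcl; infer_instance
  set T : M := sUn (img x (fun y => tcl y)) with hT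
  have memT : ∀ z, z ∈ T ↔ ∃ y, y ∈ x ∧ z ∈ tcl y := by
    intro z
    rw [hT, mem_sUn]
    constructor
    · rintro ⟨w, hw, hp⟩
      rw [mem_img] at hw
      obtain ⟨y, hy, rfl⟩ := hw
      exact ⟨y, hy, hp⟩
    · rintro ⟨y, hy, hp⟩
      exact ⟨tcl y, by rw [mem_img]; exact ⟨y, hy, rfl⟩, hp⟩
  have hTt : Trans T := by
    intro z hz w hw
    obtain ⟨y, hy, hz⟩ := (memT z).1 hz
    exact (memT w).2 ⟨y, hy, trans_tcl y z hz w hw⟩
  have hxT : x ⊆ T := fun y hy => (memT y).2 ⟨y, hy, self_mem_tcl y⟩
  have hUs : IsSeq U T := by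
    constructor
    · intro p hp
      obtain ⟨y, hy, hp⟩ := (memU p).1 hp
      obtain ⟨z, hz, w, rfl⟩ := (hs y hy).2.1.1 p hp
      exact ⟨z, (memT z).2 ⟨y, hy, hz⟩, w, rfl⟩
    · intro z hz
      obtain ⟨y, hy, hz⟩ := (memT z).1 hz
      refine ⟨ap (h y) z, (memU _).2 ⟨y, hy, (hs y hy).2.1.opair_ap hz⟩, ?_⟩
      intro w hw
      obtain ⟨y', hy', hw⟩ := (memU _).1 hw
      have := (hs y' hy').2.1.opair_iff.1 hw
      rw [this.2]
      exact (hs y' hy').uniq (hs y hy) z this.1 hz
  have hUap : ∀ y, y ∈ x → ∀ z, z ∈ tcl y → ap U z = ap (h y) z := fun y hy z hz =>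
    hUs.ap_eq ((memU _).2 ⟨y, hy, (hs y hy).2.1.opair_ap hz⟩)
  have hUA : RAtt G T U := by
    refine ⟨hTt, hUs, fun z hz => ?_⟩
    obtain ⟨y, hy, hz'⟩ := (memT z).1 hz
    rw [hUap y hy z hz', (hs y hy).2.2 z hz']
    congr 1
    refine ((hs y hy).2.1.res (trans_tcl y z hz')).ext (hUs.res (hTt z hz)) fun w hw => ?_
    rw [ap_res (hs y hy).2.1 (trans_tcl y z hz') hw, ap_res hUs (hTt z hz) hw]
    exact (hUap y hy w (trans_tcl y z hz' w hw)).symm
  -- adjoin `x`
  by_cases hxT' : x ∈ T
  · exact ⟨T, U, hUA, hxT'⟩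
  have key : ∀ a b, opair a b ∈ ins U (opair x (G x (ZFIter.res U x))) ↔
      (a ∈ T ∧ b = ap U a) ∨ (a = x ∧ b = G x (ZFIter.res U x)) := by
    intro a b
    rw [mem_ins, hUs.opair_iff, opair_eq_iff]
  have hVs : IsSeq (ins U (opair x (G x (ZFIter.res U x)))) (ins T x) := by
    constructor
    · intro p hp
      rw [mem_ins] at hp
      rcases hp with hp | rfl
      · obtain ⟨z, hz, w, rfl⟩ := hUs.1 p hp
        exact ⟨z, by rw [mem_ins]; exact Or.inl hz, w, rfl⟩
      · exact ⟨x, by simp, _, rfl⟩
    · intro z hz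
      rw [mem_ins] at hz
      rcases hz with hz | rfl
      · refine ⟨ap U z, (key _ _).2 (Or.inl ⟨hz, rfl⟩), fun w hw => ?_⟩
        rcases (key _ _).1 hw with h1 | h1
        · exact h1.2
        · rw [h1.1] at hz; exact absurd hz hxT'
      · refine ⟨_, (key _ _).2 (Or.inr ⟨rfl, rfl⟩), fun w hw => ?_⟩
        rcases (key _ _).1 hw with h1 | h1
        · exact absurd h1.1 hxT'
        · exact h1.2
  have hVr : ∀ z, z ∈ ins T x → z ⊆ T := by
    intro z hz
    rw [mem_ins] at hz
    rcases hz with hz | rfl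
    · exact hTt z hz
    · exact hxT
  have hVres : ∀ z, z ∈ ins T x → ZFIter.res (ins U (opair x (G x (ZFIter.res U x)))) z =
      ZFIter.res U z := by
    intro z hz
    refine (hVs.res fun w hw => by rw [mem_ins]; exact Or.inl (hVr z hz w hw)).ext
      (hUs.res (hVr z hz)) fun w hw => ?_
    rw [ap_res hVs (fun w hw => by rw [mem_ins]; exact Or.inl (hVr z hz w hw)) hw,
      ap_res hUs (hVr z hz) hw]
    exact hVs.ap_eq ((key _ _).2 (Or.inl ⟨hVr z hz w hw, rfl⟩))
  refine ⟨ins T x, ins U (opair x (G x (ZFIter.res U x))), ⟨?_, hVs, ?_⟩, by simp⟩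
  · intro z hz w hw
    rw [mem_ins]
    exact Or.inl (hVr z hz w hw)
  · intro z hz
    rw [hVres z hz]
    rw [mem_ins] at hz
    rcases hz with hz | rfl
    · rw [← hUA.2.2 z hz]
      exact hVs.ap_eq ((key _ _).2 (Or.inl ⟨hz, rfl⟩))
    · exact hVs.ap_eq ((key _ _).2 (Or.inr ⟨rfl, rfl⟩))

theorem erec_att {t f x : M} (h : RAtt G t f) (hx : x ∈ t) : erec G x = ap f x := by
  apply iota_eq
  · exact ⟨t, f, h, h.1 x hx, h.2.2 x hx⟩
  · rintro y ⟨t', f', h', hx', rfl⟩
    rw [h.2.2 x hx]
    congr 1
    refine (h'.2.1.res hx').ext (h.2.1.res (h.1 x hx)) fun z hz => ?_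
    rw [ap_res h'.2.1 hx' hz, ap_res h.2.1 (h.1 x hx) hz]
    exact h'.uniq h z (hx' z hz) (h.1 x hx z hz)

theorem erec_eq (x : M) : erec G x = G x (mkseq x (fun y => erec G y)) := by
  obtain ⟨t, f, h, hx⟩ := exists_rAtt (G := G) x
  rw [erec_att h hx, h.2.2 x hx]
  congr 1
  refine (h.2.1.res (h.1 x hx)).ext isSeq_mkseq fun y hy => ?_
  rw [ap_res h.2.1 (h.1 x hx) hy, ap_mkseq hy, erec_att h (h.1 x hx y hy)]

end

end Pool.Agent.ZFIter.NPA
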